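import Mathlib

set_option autoImplicit false

namespace Pool.Agent.H23.Allan

theorem allan {B : Type*} [NormedRing B] [NormedAlgebra ℂ B] [CompleteSpace B] (z a : B) (ρ : ℝ)
    (hz : ∀ x, z * x = x * z) (hρ : ∀ x, ‖z * x‖ ≤ ρ * ‖x‖) (hρ0 : 0 ≤ ρ)
    (h : ∀ μ : ℂ, ‖μ‖ ≤ ρ → ∃ b, b * (a - algebraMap ℂ B μ) = 1) :
    ∃ b, b * (a - z) = 1 := by
  by_contra hno
  have hI : Ideal.span {a - z} ≠ ⊤ := by
    intro h1
    rw [Ideal.eq_top_iff_one, Ideal.mem_span_singleton'] at h1
    exact hno h1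
  obtain ⟨L, hL, hIL⟩ := Ideal.exists_le_maximal _ hI
  have hcl : IsClosed (L : Set B) := Ideal.IsMaximal.isClosed
  let L' : Submodule ℂ B := L.restrictScalars ℂ
  have hcl' : IsClosed (L' : Set B) := hcl
  -- the operator
  let f : B →ₗ[ℂ] B := LinearMap.mulLeft ℂ z
  have hf : L' ≤ L'.comap f := fun x hx => L.mul_mem_left z hx
  let Z0 : (B ⧸ L') →ₗ[ℂ] (B ⧸ L') := L'.mapQ L' f hf
  have hZ0 : ∀ x : B, Z0 (Submodule.Quotient.mk x) = Submodule.Quotient.mk (z * x) := fun x => rfl
  have hbound : ∀ v, ‖Z0 v‖ ≤ ρ * ‖v‖ := by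
    intro v
    refine le_of_forall_pos_le_add fun ε hε => ?_
    have hε' : 0 < ε / (ρ + 1) := by positivity
    obtain ⟨m, rfl, hm⟩ := Submodule.Quotient.norm_mk_lt v hε'
    rw [hZ0]
    refine (Submodule.Quotient.norm_mk_le L' _).trans ((hρ m).trans ?_)
    have h1 : ρ * ‖m‖ ≤ ρ * (‖(Submodule.Quotient.mk m : B ⧸ L')‖ + ε / (ρ + 1)) :=
      mul_le_mul_of_nonneg_left hm.le hρ0
    refine h1.trans ?_
    rw [mul_add]
    have h2 : ρ * (ε / (ρ + 1)) ≤ ε := by
      rw [mul_div_assoc', div_le_iff₀ (by positivity)]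
      nlinarith
    linarith
  let Z : (B ⧸ L') →L[ℂ] (B ⧸ L') := Z0.mkContinuous ρ hbound
  have hZ : ∀ x : B, Z (Submodule.Quotient.mk x) = Submodule.Quotient.mk (z * x) := fun x => rfl
  have hne : (1 : B) ∉ L := fun h1 => hL.ne_top ((Ideal.eq_top_iff_one L).2 h1)
  have hnt : Nontrivial (B ⧸ L') := by
    refine ⟨Submodule.Quotient.mk 1, 0, fun h1 => hne ?_⟩
    exact (Submodule.Quotient.mk_eq_zero L').1 h1
  obtain ⟨μ, hμ⟩ := spectrum.nonempty Z
  have hμ1 : ‖μ‖ ≤ ρ :=
    (spectrum.norm_le_norm_of_mem hμ).trans (Z0.mkContinuous_norm_le hρ0 hbound)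
  set c : B := z - algebraMap ℂ B μ with hc
  have hcc : ∀ x, c * x = x * c := by
    intro x
    rw [hc, sub_mul, mul_sub, hz, Algebra.commutes]
  have hmem : c ∈ L := by
    by_contra hnot
    have h1 : ∃ d, d * c - 1 ∈ L := by
      have h2 : L ⊔ Ideal.span {c} = ⊤ := by
        refine hL.1.2 _ (lt_of_le_of_ne le_sup_left fun h3 => hnot ?_)
        rw [h3]
        exact Ideal.mem_sup_right (Ideal.subset_span rfl)
      have h3 : (1 : B) ∈ L ⊔ Ideal.span {c} := by rw [h2]; trivial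
      obtain ⟨l, hl, s, hs, hls⟩ := Submodule.mem_sup.1 h3
      obtain ⟨d, rfl⟩ := Ideal.mem_span_singleton'.1 hs
      refine ⟨d, ?_⟩
      have : d * c - 1 = -l := by rw [← hls]; abel
      rw [this]
      exact L.neg_mem hl
    have h2 : ∀ x, x * c ∈ L → x ∈ L := by
      let N : Ideal B :=
        { carrier := {x | x * c ∈ L}
          zero_mem' := by simp
          add_mem' := by
            intro x y hx hy
            show (x + y) * c ∈ L
            rw [add_mul]; exact L.add_mem hx hy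
          smul_mem' := by
            intro x y hy
            show (x * y) * c ∈ L
            rw [mul_assoc]; exact L.mul_mem_left x hy }
      have hN : L ≤ N := by
        intro x hx
        show x * c ∈ L
        rw [← hcc]; exact L.mul_mem_left c hx
      have hN1 : N ≠ ⊤ := by
        intro h3
        have h4 : (1 : B) ∈ N := by rw [h3]; trivial
        have h5 : 1 * c ∈ L := h4
        rw [one_mul] at h5
        exact hnot h5
      have hLN := hL.eq_of_le hN1 hN
      intro x hx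
      rw [hLN]; exact hx
    rw [spectrum.mem_iff] at hμ
    apply hμ
    rw [ContinuousLinearMap.isUnit_iff_bijective]
    have hval : ∀ x : B, (algebraMap ℂ ((B ⧸ L') →L[ℂ] (B ⧸ L')) μ - Z)
        (Submodule.Quotient.mk x) = Submodule.Quotient.mk (-(x * c)) := by
      intro x
      rw [sub_apply, hZ, ContinuousLinearMap.algebraMap_apply,
        ← Submodule.Quotient.mk_smul, ← Submodule.Quotient.mk_sub, ← hcc, hc, sub_mul,
        Algebra.smul_def]
      congr 1
      abel
    constructor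
    · rw [injective_iff_map_eq_zero]
      intro v hv
      obtain ⟨x, rfl⟩ := Submodule.Quotient.mk_surjective L' v
      rw [hval, Submodule.Quotient.mk_eq_zero] at hv
      have h3 : x * c ∈ L := by
        have := L.neg_mem (show -(x * c) ∈ L from hv)
        rwa [neg_neg] at this
      exact (Submodule.Quotient.mk_eq_zero L').2 (h2 x h3)
    · intro v
      obtain ⟨x, rfl⟩ := Submodule.Quotient.mk_surjective L' v
      obtain ⟨d, hd⟩ := h1
      refine ⟨Submodule.Quotient.mk (-(x * d)), ?_⟩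
      rw [hval, Submodule.Quotient.eq]
      have h3 : -(-(x * d) * c) - x = x * (d * c - 1) := by
        rw [neg_mul, neg_neg, mul_assoc, mul_sub x, mul_one]
      rw [h3]
      exact L.mul_mem_left x hd
  obtain ⟨b, hb⟩ := h μ hμ1
  apply hne
  have h1 : a - z ∈ L := hIL (Ideal.subset_span rfl)
  have h2 : a - algebraMap ℂ B μ ∈ L := by
    have := L.add_mem h1 hmem
    rw [hc] at this
    simpa using this
  rw [← hb]
  exact L.mul_mem_left b h2


/-! ### the abstract step -/

theorem key {B : Type*} [NormedRing B] [CompleteSpace B] (C : Set B) (a z g e e0 u v : B)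
    (hg : g * (a - z) = 1) (he : e = 1 - (a - z) * g)
    (huv : u * v = 1) (hvu : v * u = 1) (heu : e * u = u * e0) (he0 : e0 * e0 = e0)
    (hC : ∀ T ∈ C, T * e0 ∈ C)
    (hd : ∀ (x : B) (ε : ℝ), 0 < ε → ∃ y T, T ∈ C ∧ ‖y - x‖ < ε ∧ e * T = e * y) :
    ∃ T ∈ C, ∃ q : B, q * T = e0 ∧ e0 * q = q ∧ T * e0 = T ∧
      (g * (1 - T * q)) * (a - z) = 1 ∧ (a - z) * (g * (1 - T * q)) = 1 - T * q := by
  have hve : v * e = e0 * v := by
    calc v * e = v * (e * u) * v := by rw [mul_assoc, mul_assoc, huv, mul_one]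
      _ = v * (u * e0) * v := by rw [heu]
      _ = e0 * v := by rw [← mul_assoc, hvu, one_mul]
  have heq : e = u * e0 * v := by rw [← heu, mul_assoc, huv, mul_one]
  have hez : e * (a - z) = 0 := by
    rw [he, sub_mul, one_mul, mul_assoc, hg, mul_one, sub_self]
  have hε : 0 < 1 / (‖e0 * v‖ * ‖e0‖ + 1) := by positivity
  obtain ⟨y, T1, hT1, hy, hyT⟩ := hd (u * e0) _ hε
  set T := T1 * e0 with hT
  have hTe : T * e0 = T := by rw [hT, mul_assoc, he0]
  set w := e0 * v * T with hw
  have hw1 : w = e0 * v * y * e0 := by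
    rw [hw, ← hve, hT, ← mul_assoc, mul_assoc v, hyT, ← mul_assoc v, hve]
  have hwe : w - e0 = (e0 * v) * (y - u * e0) * e0 := by
    rw [hw1]
    have : e0 = (e0 * v) * (u * e0) * e0 := by
      calc e0 = e0 * e0 * e0 := by rw [he0, he0]
        _ = e0 * (v * u) * e0 * e0 := by rw [hvu, mul_one]
        _ = _ := by simp only [mul_assoc]
    conv_lhs => rw [this]
    rw [mul_sub, sub_mul]
    congr 1
    rw [← this]
  have hnorm : ‖e0 - w‖ < 1 := by
    rw [norm_sub_rev, hwe]
    have h1 : ‖e0 * v * (y - u * e0) * e0‖ ≤ ‖e0 * v‖ * ‖y - u * e0‖ * ‖e0‖ :=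
      (norm_mul_le _ _).trans (mul_le_mul_of_nonneg_right (norm_mul_le _ _) (norm_nonneg _))
    have h2 : ‖e0 * v‖ * ‖y - u * e0‖ * ‖e0‖ ≤
        (‖e0 * v‖ * ‖e0‖) * (1 / (‖e0 * v‖ * ‖e0‖ + 1)) := by
      have := mul_le_mul_of_nonneg_left hy.le (mul_nonneg (norm_nonneg (e0 * v)) (norm_nonneg e0))
      linarith
    have h3 : (‖e0 * v‖ * ‖e0‖) * (1 / (‖e0 * v‖ * ‖e0‖ + 1)) < 1 := by
      rw [mul_one_div, div_lt_one (by positivity)]
      linarith
    linarith
  let Wu := Units.oneSub (e0 - w) hnorm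
  set W : B := (Wu : B) with hW
  set Wi : B := ((Wu⁻¹ : Bˣ) : B) with hWi
  have hWW : W * Wi = 1 := Wu.mul_inv
  have hWW' : Wi * W = 1 := Wu.inv_mul
  have hWval : W = 1 - (e0 - w) := rfl
  have hwe0 : w * e0 = w := by rw [hw, mul_assoc, hTe]
  have he0w : e0 * w = w := by
    calc e0 * w = (e0 * e0) * v * T := by rw [hw]; simp only [mul_assoc]
      _ = w := by rw [he0]
  have hWe : W * e0 = w := by rw [hWval, sub_mul, sub_mul, one_mul, he0, hwe0]; abel
  have heW : e0 * W = w := by rw [hWval, mul_sub, mul_sub, mul_one, he0, he0w]; abel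
  have hWie : Wi * e0 = e0 * Wi := by
    calc Wi * e0 = Wi * e0 * (W * Wi) := by rw [hWW, mul_one]
      _ = Wi * (e0 * W) * Wi := by simp only [mul_assoc]
      _ = Wi * (W * e0) * Wi := by rw [heW, hWe]
      _ = e0 * Wi := by rw [← mul_assoc, hWW', one_mul]
  refine ⟨T, hC T1 hT1, Wi * e0 * v, ?_, ?_, hTe, ?_, ?_⟩
  · calc Wi * e0 * v * T = Wi * w := by rw [hw]; simp only [mul_assoc]
      _ = Wi * W * e0 := by rw [← hWe, mul_assoc]
      _ = e0 := by rw [hWW', one_mul]
  · calc e0 * (Wi * e0 * v) = (e0 * Wi) * (e0 * v) := by simp only [mul_assoc]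
      _ = Wi * (e0 * e0) * v := by rw [← hWie]; simp only [mul_assoc]
      _ = _ := by rw [he0]
  · calc g * (1 - T * (Wi * e0 * v)) * (a - z)
        = g * (a - z) - g * T * Wi * (e0 * v) * (a - z) := by
          rw [mul_sub g, mul_one, sub_mul g]; simp only [mul_assoc]
      _ = 1 - g * T * Wi * v * (e * (a - z)) := by rw [hg, ← hve]; simp only [mul_assoc]
      _ = 1 := by rw [hez, mul_zero, sub_zero]
  · have h1 : e * (T * (Wi * e0 * v)) = e := by
      calc e * (T * (Wi * e0 * v)) = u * (e0 * v * T) * (Wi * e0) * v := by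
            rw [heq]; simp only [mul_assoc]
        _ = u * (W * e0) * (e0 * Wi) * v := by rw [← hw, hWe, hWie]
        _ = u * W * (e0 * e0) * Wi * v := by simp only [mul_assoc]
        _ = u * W * (Wi * e0) * v := by rw [he0, hWie]; simp only [mul_assoc]
        _ = u * (W * Wi) * e0 * v := by simp only [mul_assoc]
        _ = e := by rw [hWW, mul_one, heq]
    have h2 : (a - z) * g = 1 - e := by rw [he]; abel
    rw [← mul_assoc, h2, sub_mul, one_mul, mul_sub, h1, mul_one, sub_self, sub_zero]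

/-! ### continuous paths of idempotents -/

theorem path {B : Type*} [NormedRing B] [CompleteSpace B] (E : unitInterval → B)
    (hE : Continuous E) (hid : ∀ t, E t * E t = E t) :
    ∃ u v : B, u * v = 1 ∧ v * u = 1 ∧ E 1 * u = u * E 0 := by
  let P : unitInterval → unitInterval → Prop := fun s t =>
    ∃ u v : B, u * v = 1 ∧ v * u = 1 ∧ E t * u = u * E s
  have key : P 0 1 := by
    refine IsPreconnected.induction₂ (s := Set.univ) isPreconnected_univ P ?_ ?_ ?_
      (Set.mem_univ _) (Set.mem_univ _)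
    · intro x _
      rw [nhdsWithin_univ]
      have hc : Continuous fun y => ‖(2 * E y - 1) * (E y - E x)‖ := by fun_prop
      have h0 : Filter.Tendsto (fun y => ‖(2 * E y - 1) * (E y - E x)‖) (nhds x) (nhds 0) := by
        have := hc.tendsto x
        simpa using this
      filter_upwards [h0.eventually_lt_const zero_lt_one] with y hy
      let U := Units.oneSub ((2 * E y - 1) * (E y - E x)) hy
      have hU : (U : B) = 1 - (2 * E y - 1) * (E y - E x) := rfl
      refine ⟨U, ((U⁻¹ : Bˣ) : B), U.mul_inv, U.inv_mul, ?_⟩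
      have h1 : (U : B) = 1 - E y - E x + 2 * (E y * E x) := by
        rw [hU]
        have : (2 * E y - 1) * (E y - E x) = 2 * (E y * E y) - 2 * (E y * E x) - E y + E x := by
          noncomm_ring
        rw [this, hid]
        noncomm_ring
      have h2 : E y * (U : B) = E y * E x := by
        rw [h1]
        have : E y * (1 - E y - E x + 2 * (E y * E x)) =
            E y - E y * E y - E y * E x + 2 * ((E y * E y) * E x) := by noncomm_ring
        rw [this, hid]
        noncomm_ring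
      have h3 : (U : B) * E x = E y * E x := by
        rw [h1]
        have : (1 - E y - E x + 2 * (E y * E x)) * E x =
            E x - E y * E x - E x * E x + 2 * (E y * (E x * E x)) := by noncomm_ring
        rw [this, hid]
        noncomm_ring
      rw [h2, h3]
    · rintro x y z - - - ⟨u, v, h1, h2, h3⟩ ⟨u', v', h1', h2', h3'⟩
      refine ⟨u' * u, v * v', ?_, ?_, ?_⟩
      · rw [mul_assoc, ← mul_assoc u, h1, one_mul, h1']
      · rw [mul_assoc, ← mul_assoc v', h2', one_mul, h2]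
      · rw [← mul_assoc, h3', mul_assoc, h3, mul_assoc]
    · rintro x y - - ⟨u, v, h1, h2, h3⟩
      refine ⟨v, u, h2, h1, ?_⟩
      calc E x * v = (v * u) * E x * v := by rw [h2, one_mul]
        _ = v * (u * E x) * v := by simp only [mul_assoc]
        _ = v * E y * (u * v) := by rw [← h3]; simp only [mul_assoc]
        _ = v * E y := by rw [h1, mul_one]
  exact key


/-! ### the Banach algebra of uniform limits of polynomials on the closed disc -/

open Metric Set

section conc

variable {A : Type*} [NormedRing A] [NormedAlgebra ℂ A] (ρ : ℝ)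

abbrev DD := closedBall (0 : ℂ) ρ

/-- constants -/
noncomputable def cst (x : A) : C(DD ρ, A) := ContinuousMap.const _ x

/-- the coordinate function -/
noncomputable def zz : C(DD ρ, A) := ⟨fun l => algebraMap ℂ A l, by fun_prop⟩

lemma zz_apply (l : DD ρ) : (zz ρ : C(DD ρ, A)) l = algebraMap ℂ A l := rfl
lemma cst_apply (x : A) (l : DD ρ) : cst ρ x l = x := rfl

variable (A) in
/-- polynomials -/
noncomputable def P0 : Subalgebra ℂ C(DD ρ, A) :=
  Algebra.adjoin ℂ (range (cst ρ) ∪ {zz ρ})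

variable (A) in
/-- their closure -/
noncomputable def PB : Subalgebra ℂ C(DD ρ, A) := (P0 A ρ).topologicalClosure

lemma P0_le : P0 A ρ ≤ PB A ρ := Subalgebra.le_topologicalClosure _

lemma cst_P0 (x : A) : cst ρ x ∈ P0 A ρ := Algebra.subset_adjoin (Or.inl ⟨x, rfl⟩)
lemma zz_P0 : zz ρ ∈ P0 A ρ := Algebra.subset_adjoin (Or.inr rfl)

lemma isClosed_PB : IsClosed (PB A ρ : Set C(DD ρ, A)) := Subalgebra.isClosed_topologicalClosure _

lemma mem_PB (h : C(DD ρ, A)) : h ∈ PB A ρ ↔ h ∈ closure (P0 A ρ : Set C(DD ρ, A)) := Iff.rfl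

lemma PB_approx {h : C(DD ρ, A)} (hh : h ∈ PB A ρ) (ε : ℝ) (hε : 0 < ε) :
    ∃ y ∈ P0 A ρ, ‖y - h‖ < ε := by
  rw [mem_PB, Metric.mem_closure_iff] at hh
  obtain ⟨y, hy, hd⟩ := hh ε hε
  refine ⟨y, hy, ?_⟩
  rwa [dist_comm, dist_eq_norm] at hd

lemma zz_comm (h : C(DD ρ, A)) : zz ρ * h = h * zz ρ := by
  ext l
  rw [ContinuousMap.mul_apply, ContinuousMap.mul_apply, zz_apply, Algebra.commutes]

lemma zz_norm (hρ : 0 ≤ ρ) (h : C(DD ρ, A)) : ‖zz ρ * h‖ ≤ ρ * ‖h‖ := by
  rw [ContinuousMap.norm_le _ (by positivity)]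
  intro l
  rw [ContinuousMap.mul_apply, zz_apply, ← Algebra.smul_def, norm_smul]
  refine mul_le_mul ?_ (h.norm_coe_le_norm l) (norm_nonneg _) hρ
  exact mem_closedBall_zero_iff.1 l.2

/-- scaling -/
def sc (t : unitInterval) : C(DD ρ, DD ρ) where
  toFun l := ⟨((t : ℝ) : ℂ) * l, by
    have h1 := mem_closedBall_zero_iff.1 l.2
    rw [mem_closedBall_zero_iff, norm_mul, Complex.norm_real, Real.norm_of_nonneg t.2.1]
    have h2 : (t : ℝ) * ‖(l : ℂ)‖ ≤ 1 * ‖(l : ℂ)‖ :=
      mul_le_mul_of_nonneg_right t.2.2 (norm_nonneg _)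
    linarith⟩
  continuous_toFun := by fun_prop

lemma sc_mem (t : unitInterval) {h : C(DD ρ, A)} (hh : h ∈ PB A ρ) : h.comp (sc ρ t) ∈ PB A ρ := by
  have hP : ∀ h ∈ P0 A ρ, h.comp (sc ρ t) ∈ PB A ρ := by
    intro h hh
    induction hh using Algebra.adjoin_induction with
    | mem x hx =>
      rcases hx with ⟨y, rfl⟩ | hx
      · exact P0_le ρ (cst_P0 ρ y)
      · rw [mem_singleton_iff] at hx
        subst hx
        have : (zz ρ : C(DD ρ, A)).comp (sc ρ t) = ((t : ℝ) : ℂ) • zz ρ := by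
          ext l
          rw [ContinuousMap.comp_apply, ContinuousMap.smul_apply, zz_apply, zz_apply]
          show algebraMap ℂ A (((t : ℝ) : ℂ) * l) = _
          rw [map_mul, Algebra.smul_def]
        rw [this]
        exact (PB A ρ).smul_mem (P0_le ρ (zz_P0 ρ)) _
    | algebraMap r => exact (PB A ρ).algebraMap_mem r
    | add x y _ _ hx hy => exact (PB A ρ).add_mem hx hy
    | mul x y _ _ hx hy => exact (PB A ρ).mul_mem hx hy
  have hcont : Continuous fun h : C(DD ρ, A) => h.comp (sc ρ t) := by fun_prop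
  have hcl : IsClosed {h : C(DD ρ, A) | h.comp (sc ρ t) ∈ PB A ρ} :=
    (isClosed_PB ρ).preimage hcont
  exact closure_minimal (s := (P0 A ρ : Set C(DD ρ, A))) hP hcl hh

lemma sc_cont (h : C(DD ρ, A)) : Continuous fun t : unitInterval => h.comp (sc ρ t) := by
  let H : C(unitInterval × DD ρ, A) := ⟨fun p => h (sc ρ p.1 p.2), by
    apply h.continuous.comp
    have : Continuous fun p : unitInterval × DD ρ => ((p.1 : ℝ) : ℂ) * (p.2 : ℂ) := by fun_prop
    exact this.subtype_mk _⟩
  exact H.curry.continuous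

lemma sc_zero (h : C(DD ρ, A)) (hρ : 0 ≤ ρ) : h.comp (sc ρ 0) =
    cst ρ (h ⟨0, mem_closedBall_self hρ⟩) := by
  ext l
  rw [ContinuousMap.comp_apply, cst_apply]
  congr 1
  apply Subtype.ext
  show (((0 : unitInterval) : ℝ) : ℂ) * (l : ℂ) = 0
  simp

lemma sc_one (h : C(DD ρ, A)) : h.comp (sc ρ 1) = h := by
  ext l
  rw [ContinuousMap.comp_apply]
  congr 1
  apply Subtype.ext
  show (((1 : unitInterval) : ℝ) : ℂ) * (l : ℂ) = l
  simp

/-- extension to the plane by junk values -/
noncomputable def ext (h : C(DD ρ, A)) (l : ℂ) : A :=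
  open Classical in if hl : l ∈ closedBall (0 : ℂ) ρ then h ⟨l, hl⟩ else 0

lemma ext_apply (h : C(DD ρ, A)) {l : ℂ} (hl : l ∈ closedBall (0 : ℂ) ρ) :
    ext ρ h l = h ⟨l, hl⟩ := by
  rw [ext, dif_pos hl]

variable [CompleteSpace A]

lemma ext_diff {h : C(DD ρ, A)} (hh : h ∈ PB A ρ) : DifferentiableOn ℂ (ext ρ h) (ball 0 ρ) := by
  have hb : ball (0 : ℂ) ρ ⊆ closedBall 0 ρ := ball_subset_closedBall
  have hP : ∀ h ∈ P0 A ρ, DifferentiableOn ℂ (ext ρ h) (ball 0 ρ) := by
    intro h hh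
    induction hh using Algebra.adjoin_induction with
    | mem x hx =>
      rcases hx with ⟨y, rfl⟩ | hx
      · refine (differentiableOn_const y).congr fun l hl => ?_
        rw [ext_apply ρ _ (hb hl), cst_apply]
      · rw [mem_singleton_iff] at hx
        subst hx
        have : DifferentiableOn ℂ (fun l : ℂ => l • (1 : A)) (ball 0 ρ) := by fun_prop
        refine this.congr fun l hl => ?_
        rw [ext_apply ρ _ (hb hl), zz_apply, Algebra.algebraMap_eq_smul_one]
    | algebraMap r =>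
      refine (differentiableOn_const (algebraMap ℂ A r)).congr fun l hl => ?_
      rw [ext_apply ρ _ (hb hl)]
      rfl
    | add x y _ _ hx hy =>
      refine (hx.add hy).congr fun l hl => ?_
      rw [ext_apply ρ _ (hb hl), ContinuousMap.add_apply, Pi.add_apply, ext_apply ρ _ (hb hl),
        ext_apply ρ _ (hb hl)]
    | mul x y _ _ hx hy =>
      refine (hx.mul hy).congr fun l hl => ?_
      rw [ext_apply ρ _ (hb hl), ContinuousMap.mul_apply, Pi.mul_apply, ext_apply ρ _ (hb hl),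
        ext_apply ρ _ (hb hl)]
  rw [mem_PB, mem_closure_iff_seq_limit] at hh
  obtain ⟨x, hx, hlim⟩ := hh
  have hunif : TendstoUniformlyOn (fun n => ext ρ (x n)) (ext ρ h) Filter.atTop (ball 0 ρ) := by
    rw [Metric.tendstoUniformlyOn_iff]
    intro ε hε
    have := (Metric.tendsto_atTop.1 hlim) ε hε
    obtain ⟨N, hN⟩ := this
    filter_upwards [Filter.eventually_ge_atTop N] with n hn l hl
    rw [ext_apply ρ _ (hb hl), ext_apply ρ _ (hb hl), dist_comm]
    refine lt_of_le_of_lt ?_ (hN n hn)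
    exact ContinuousMap.dist_apply_le_dist _
  exact hunif.tendstoLocallyUniformlyOn.differentiableOn
    (Filter.Eventually.of_forall fun n => hP _ (hx n)) isOpen_ball

/-- pseudo-resolvents on discs -/
theorem disc (hρ : 0 < ρ) (a : A)
    (h : ∀ μ : ℂ, ‖μ‖ ≤ ρ → ∃ b, b * (a - algebraMap ℂ A μ) = 1) :
    ∃ g : ℂ → A, DifferentiableOn ℂ g (ball 0 ρ) ∧
      (∀ l ∈ ball (0 : ℂ) ρ, g l * (a - algebraMap ℂ A l) = 1) ∧
      (∀ l ∈ ball (0 : ℂ) ρ, ∀ m ∈ ball (0 : ℂ) ρ, g l - g m = (l - m) • (g l * g m)) := by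
  have hcompl : CompleteSpace (PB A ρ) := (isClosed_PB ρ).completeSpace_coe
  let Z : PB A ρ := ⟨zz ρ, P0_le ρ (zz_P0 ρ)⟩
  let c : A → PB A ρ := fun x => ⟨cst ρ x, P0_le ρ (cst_P0 ρ x)⟩
  have hc_mul : ∀ x y, c (x * y) = c x * c y := fun x y => rfl
  obtain ⟨g, hg⟩ := allan Z (c a) ρ (fun x => Subtype.ext (zz_comm ρ x.1))
    (fun x => zz_norm ρ hρ.le x.1) hρ.le (by
      intro μ hμ
      obtain ⟨b, hb⟩ := h μ hμ
      refine ⟨c b, ?_⟩
      apply Subtype.ext
      ext l
      exact hb)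
  set e : PB A ρ := 1 - (c a - Z) * g with he
  have hee : e * e = e := by
    have : ((c a - Z) * g) * ((c a - Z) * g) = (c a - Z) * g := by
      calc ((c a - Z) * g) * ((c a - Z) * g) = (c a - Z) * (g * (c a - Z)) * g := by
            simp only [mul_assoc]
        _ = _ := by rw [hg, mul_one]
    have gen : ∀ X : PB A ρ, X * X = X → (1 - X) * (1 - X) = 1 - X := by
      intro X h
      rw [mul_sub, mul_one, sub_mul, one_mul, h]
      abel
    exact gen _ this
  have hez : e * (c a - Z) = 0 := by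
    rw [he, sub_mul, one_mul, mul_assoc, hg, mul_one, sub_self]
  let E : unitInterval → PB A ρ := fun t => ⟨e.1.comp (sc ρ t), sc_mem ρ t e.2⟩
  have hE : Continuous E := (sc_cont ρ e.1).subtype_mk _
  have hEid : ∀ t, E t * E t = E t := by
    intro t
    apply Subtype.ext
    show e.1.comp (sc ρ t) * e.1.comp (sc ρ t) = e.1.comp (sc ρ t)
    have : (e * e).1 = e.1 := by rw [hee]
    conv_rhs => rw [← this]
    rfl
  obtain ⟨u, v, huv, hvu, heu⟩ := path E hE hEid
  have hE1 : E 1 = e := Subtype.ext (sc_one ρ e.1)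
  set x0 : A := e.1 ⟨0, mem_closedBall_self hρ.le⟩ with hx0
  have hE0 : E 0 = c x0 := Subtype.ext (sc_zero ρ e.1 hρ.le)
  rw [hE1, hE0] at heu
  have hx00 : c x0 * c x0 = c x0 := by rw [← hE0]; exact hEid 0
  have hdense : ∀ (x : PB A ρ) (ε : ℝ), 0 < ε →
      ∃ y T, T ∈ range c ∧ ‖y - x‖ < ε ∧ e * T = e * y := by
    intro x ε hε
    obtain ⟨y, hy, hyx⟩ := PB_approx ρ x.2 ε hε
    have hP : ∀ x ∈ P0 A ρ, ∀ y : C(DD ρ, A), (∃ T, e.1 * cst ρ T = e.1 * y) →
        ∃ T, e.1 * cst ρ T = e.1 * (y * x) := by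
      intro x hx
      induction hx using Algebra.adjoin_induction with
      | mem x hx =>
        rintro y ⟨T, hT⟩
        rcases hx with ⟨w, rfl⟩ | hx
        · refine ⟨T * w, ?_⟩
          rw [← mul_assoc, ← hT, mul_assoc]
          rfl
        · rw [mem_singleton_iff] at hx
          subst hx
          refine ⟨a * T, ?_⟩
          have h1 : e.1 * cst ρ a = zz ρ * e.1 := by
            have h2 : (e * (c a - Z)).1 = 0 := by rw [hez]; rfl
            have h3 : e.1 * cst ρ a - e.1 * zz ρ = 0 := by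
              rw [← mul_sub]; exact h2
            rw [zz_comm, sub_eq_zero.1 h3]
          have h4 : e.1 * cst ρ (a * T) = (e.1 * cst ρ a) * cst ρ T := by
            rw [mul_assoc]; rfl
          rw [h4, h1, mul_assoc, hT, zz_comm, mul_assoc]
      | algebraMap r =>
        rintro y ⟨T, hT⟩
        refine ⟨r • T, ?_⟩
        have h1 : cst ρ (r • T) = cst ρ T * algebraMap ℂ C(DD ρ, A) r := by
          rw [← Algebra.commutes, ← Algebra.smul_def]; rfl
        rw [h1, ← mul_assoc, hT, mul_assoc]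
      | add p q _ _ hp hq =>
        intro y hy
        obtain ⟨T, hT⟩ := hp y hy
        obtain ⟨T', hT'⟩ := hq y hy
        refine ⟨T + T', ?_⟩
        have h1 : cst ρ (T + T') = cst ρ T + cst ρ T' := rfl
        rw [h1, mul_add, hT, hT', mul_add, mul_add]
      | mul p q _ _ hp hq =>
        intro y hy
        obtain ⟨T, hT⟩ := hq (y * p) (hp y hy)
        exact ⟨T, by rw [hT, mul_assoc]⟩
    obtain ⟨T, hT⟩ := hP y hy 1 ⟨1, rfl⟩
    rw [one_mul] at hT
    refine ⟨⟨y, P0_le ρ hy⟩, c T, ⟨T, rfl⟩, hyx, Subtype.ext hT⟩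
  obtain ⟨T, ⟨T0, rfl⟩, q, hqT, heq, hTe, h1, h2⟩ := key (range c) (c a) Z g e (c x0) u v hg he
    huv hvu heu hx00 (by
      rintro _ ⟨T, rfl⟩
      exact ⟨T * x0, hc_mul _ _⟩) hdense
  set G : PB A ρ := g * (1 - c T0 * q) with hG
  have hb : ball (0 : ℂ) ρ ⊆ closedBall 0 ρ := ball_subset_closedBall
  refine ⟨ext ρ G.1, ext_diff ρ G.2, ?_, ?_⟩
  · intro l hl
    rw [ext_apply ρ _ (hb hl)]
    exact congrArg (fun F : PB A ρ => F.1 ⟨l, hb hl⟩) h1
  · intro l hl m hm
    rw [ext_apply ρ _ (hb hl), ext_apply ρ _ (hb hm)]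
    set L : DD ρ := ⟨l, hb hl⟩ with hL
    set M : DD ρ := ⟨m, hb hm⟩ with hM
    -- pointwise identities
    have p1 : G.1 L * (a - algebraMap ℂ A l) = 1 := congrArg (fun F : PB A ρ => F.1 L) h1
    have p2 : (a - algebraMap ℂ A m) * G.1 M = 1 - T0 * q.1 M :=
      congrArg (fun F : PB A ρ => F.1 M) h2
    have p1' : G.1 M * (a - algebraMap ℂ A m) = 1 := congrArg (fun F : PB A ρ => F.1 M) h1
    have p3 : ∀ K : DD ρ, q.1 K * T0 = x0 := fun K => congrArg (fun F : PB A ρ => F.1 K) hqT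
    have p4 : ∀ K : DD ρ, x0 * q.1 K = q.1 K := fun K => congrArg (fun F : PB A ρ => F.1 K) heq
    have p5 : T0 * x0 = T0 := congrArg (fun F : PB A ρ => F.1 L) hTe
    have p6 : ∀ K : DD ρ, G.1 K * (T0 * q.1 M) = 0 := by
      intro K
      have h3 : G.1 K = g.1 K * (1 - T0 * q.1 K) := rfl
      have h4 : (T0 * q.1 K) * (T0 * q.1 M) = T0 * q.1 M := by
        calc (T0 * q.1 K) * (T0 * q.1 M) = T0 * (q.1 K * T0) * q.1 M := by
              simp only [mul_assoc]
          _ = T0 * q.1 M := by rw [p3, p5]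
      rw [h3, mul_assoc, sub_mul, one_mul, h4, sub_self, mul_zero]
    -- the difference
    set X : A := G.1 L - G.1 M - (l - m) • (G.1 L * G.1 M) with hX
    have hX1 : X * (a - algebraMap ℂ A m) = 0 := by
      rw [hX, sub_mul, sub_mul, p1', smul_mul_assoc, mul_assoc, p1', mul_one]
      have h3 : G.1 L * (a - algebraMap ℂ A m) = 1 + (l - m) • G.1 L := by
        have h4 : a - algebraMap ℂ A m = (a - algebraMap ℂ A l) + algebraMap ℂ A (l - m) := by
          rw [map_sub]; abel
        rw [h4, mul_add, p1, ← Algebra.commutes, ← Algebra.smul_def]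
      rw [h3]
      abel
    have hX2 : X * (T0 * q.1 M) = 0 := by
      rw [hX, sub_mul, sub_mul, p6, p6, smul_mul_assoc, mul_assoc, p6]
      simp
    have hX3 : X = 0 := by
      have h3 : (a - algebraMap ℂ A m) * G.1 M + T0 * q.1 M = 1 := by rw [p2]; abel
      calc X = X * ((a - algebraMap ℂ A m) * G.1 M + T0 * q.1 M) := by rw [h3, mul_one]
        _ = (X * (a - algebraMap ℂ A m)) * G.1 M + X * (T0 * q.1 M) := by
          rw [mul_add, mul_assoc]
        _ = 0 := by rw [hX1, hX2, zero_mul, add_zero]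
    exact sub_eq_zero.1 hX3

end conc

end Pool.Agent.H23.Allan
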