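import Mathlib
import Pool.Agent.Helpers29.Corson2
import Pool.Agent.Helpers29.Corson3

set_option autoImplicit false

namespace Pool.Agent.H23

open Set Topology Pool.Agent.Helpers29.Corson

variable {X Z : Type} [TopologicalSpace X] [TopologicalSpace Z]

/-- the index set -/
abbrev YY (X Z : Type) [TopologicalSpace X] [TopologicalSpace Z] := C(Z, ℝ) ⊕ (C(X, ℝ) ⊕ X)

/-- evaluation -/
def ee : Z → YY X Z → ℝ := fun z y => Sum.elim (fun h => h z) (fun _ => 0) y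

/-- the function |phi - c| - r -/
def sh (φ : C(X, ℝ)) (c r : ℚ) : C(X, ℝ) := ⟨fun x => |φ x - c| - r, by fun_prop⟩

/-- basic operations -/
def RR (C : X → Set C(X, ℝ)) (s : Z → X) (S3 : C(X, ℝ) → C(X, ℝ) → Set X)
    (S4 : C(X, ℝ) → C(X, ℝ) → Set C(Z, ℝ)) : (YY X Z ⊕ Z) → (YY X Z ⊕ Z) → Set (YY X Z ⊕ Z)
  | Sum.inl (Sum.inr (Sum.inl φ)), Sum.inl (Sum.inr (Sum.inl ψ)) =>
      ((range fun cr : ℚ × ℚ => Sum.inl (Sum.inr (Sum.inl (sh φ cr.1 cr.2)))) ∪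
        {Sum.inl (Sum.inr (Sum.inl (φ ⊔ ψ)))}) ∪
      (((fun x => Sum.inl (Sum.inr (Sum.inr x))) '' S3 φ ψ) ∪
        ((fun h => Sum.inl (Sum.inl h)) '' S4 φ ψ))
  | Sum.inl (Sum.inr (Sum.inr x)), _ => (fun φ => Sum.inl (Sum.inr (Sum.inl φ))) '' C x
  | Sum.inr z, _ => {Sum.inl (Sum.inr (Sum.inr (s z)))}
  | _, _ => ∅

lemma RR_countable {C : X → Set C(X, ℝ)} (hC : ∀ x, (C x).Countable) {s : Z → X}
    {S3 : C(X, ℝ) → C(X, ℝ) → Set X} (h3 : ∀ φ ψ, (S3 φ ψ).Countable)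
    {S4 : C(X, ℝ) → C(X, ℝ) → Set C(Z, ℝ)} (h4 : ∀ φ ψ, (S4 φ ψ).Countable)
    (a b : YY X Z ⊕ Z) : (RR C s S3 S4 a b).Countable := by
  rcases a with ((h | φ | x) | z)
  · simp [RR]
  · rcases b with ((h | ψ | x) | z)
    · simp [RR]
    · simp only [RR]
      exact ((countable_range _).union (countable_singleton _)).union
        (((h3 φ ψ).image _).union ((h4 φ ψ).image _))
    · simp [RR]
    · simp [RR]
  · simp only [RR]; exact (hC x).image _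
  · simp only [RR]; exact countable_singleton _

theorem corson_image [CompactSpace X] [T2Space X] [T2Space Z]
    (g : X → Z) (hg : Continuous g) (hs : Function.Surjective g)
    (hX : ∃ (κ : Type) (e : X → (κ → ℝ)), Topology.IsEmbedding e ∧
      ∀ x, (Function.support (e x)).Countable) :
    ∃ (κ : Type) (e : Z → (κ → ℝ)), Topology.IsEmbedding e ∧
      ∀ z, (Function.support (e z)).Countable := by
  classical
  haveI : CompactSpace Z := ⟨by
    have h := isCompact_univ.image hg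
    rwa [image_univ, hs.range_eq] at h⟩
  obtain ⟨κ, e, he, hes⟩ := hX
  obtain ⟨C, hC1, hC2⟩ := crit_of_corson (T := X) (Y := C(X, ℝ)) (e := fun x φ => φ x)
    (fun φ => φ.continuous) (fun p q h => by
      by_contra hne
      obtain ⟨f, hf0, hf1, _⟩ := exists_continuous_zero_one_of_isClosed (isClosed_singleton (x := p))
        (isClosed_singleton (x := q)) (by rw [disjoint_singleton]; exact hne)
      have h0 : f p = 0 := hf0 rfl
      have h1 : f q = 1 := hf1 rfl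
      have := h f
      rw [h0, h1] at this
      exact zero_ne_one this) he hes
  choose s hsz using hs
  have hS3 : ∀ φ ψ : C(X, ℝ), ∃ S : Set X, S.Countable ∧
      ((∃ x y, φ x ≤ 0 ∧ ψ y ≤ 0 ∧ g x = g y) → ∃ x ∈ S, ∃ y ∈ S, φ x ≤ 0 ∧ ψ y ≤ 0 ∧ g x = g y) := by
    intro φ ψ
    by_cases h : ∃ x y, φ x ≤ 0 ∧ ψ y ≤ 0 ∧ g x = g y
    · obtain ⟨x, y, hxy⟩ := h
      exact ⟨{x, y}, by simp, fun _ => ⟨x, by simp, y, by simp, hxy⟩⟩
    · exact ⟨∅, countable_empty, fun h' => absurd h' h⟩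
  choose S3 hS3c hS3 using hS3
  have hS4 : ∀ φ ψ : C(X, ℝ), ∃ S : Set C(Z, ℝ), S.Countable ∧
      ((∃ h : C(Z, ℝ), ∀ x, (φ x ≤ 0 → h (g x) = 0) ∧ (ψ x ≤ 0 → h (g x) = 1)) →
        ∃ h ∈ S, ∀ x, (φ x ≤ 0 → h (g x) = 0) ∧ (ψ x ≤ 0 → h (g x) = 1)) := by
    intro φ ψ
    by_cases h : ∃ h : C(Z, ℝ), ∀ x, (φ x ≤ 0 → h (g x) = 0) ∧ (ψ x ≤ 0 → h (g x) = 1)
    · obtain ⟨h, hh⟩ := h
      exact ⟨{h}, by simp, fun _ => ⟨h, by simp, hh⟩⟩
    · exact ⟨∅, countable_empty, fun h' => absurd h' h⟩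
  choose S4 hS4c hS4 using hS4
  let Sk : Finset (YY X Z ⊕ Z) → Set (YY X Z ⊕ Z) := fun t =>
    {Sum.inl (Sum.inr (Sum.inl 0))} ∪ ⋃ a ∈ t, ⋃ b ∈ t, RR C s S3 S4 a b
  have hSk : ∀ t, (Sk t).Countable := fun t =>
    (countable_singleton _).union (t.countable_toSet.biUnion fun a _ =>
      t.countable_toSet.biUnion fun b _ => RR_countable hC1 hS3c hS4c a b)
  refine corson_of_crit (T := Z) (e := ee (X := X)) (Sk := Sk) ?_ hSk ?_
  · rintro (h | y)
    · exact h.continuous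
    · exact continuous_const
  intro M _ hM p q hp hq hpq
  have hMR : ∀ a ∈ M, ∀ b ∈ M, RR C s S3 S4 a b ⊆ M := by
    intro a ha b hb
    refine Subset.trans ?_ (hM {a, b} ?_)
    · intro z hz
      right
      simp only [Finset.mem_insert, Finset.mem_singleton, mem_iUnion]
      exact ⟨a, Or.inl rfl, b, Or.inr rfl, hz⟩
    · intro z hz
      simp only [Finset.coe_insert, Finset.coe_singleton, mem_insert_iff, mem_singleton_iff] at hz
      rcases hz with rfl | rfl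
      · exact ha
      · exact hb
  have hM0 : Sum.inl (Sum.inr (Sum.inl 0)) ∈ M := hM ∅ (by simp) (Or.inl rfl)
  let N : Set X := {x | Sum.inl (Sum.inr (Sum.inr x)) ∈ M}
  let V : Set C(X, ℝ) := {φ | Sum.inl (Sum.inr (Sum.inl φ)) ∈ M}
  have hV0 : (0 : C(X, ℝ)) ∈ V := hM0
  have hVs : ∀ φ ∈ V, ∀ c r : ℚ, sh φ c r ∈ V := by
    intro φ hφ c r
    exact hMR _ hφ _ hφ (Or.inl (Or.inl ⟨(c, r), rfl⟩))
  have hVm : ∀ φ ∈ V, ∀ ψ ∈ V, φ ⊔ ψ ∈ V := by
    intro φ hφ ψ hψ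
    exact hMR _ hφ _ hψ (Or.inl (Or.inr rfl))
  have hN3 : ∀ φ ∈ V, ∀ ψ ∈ V, S3 φ ψ ⊆ N := by
    intro φ hφ ψ hψ x hx
    exact hMR _ hφ _ hψ (Or.inr (Or.inl ⟨x, hx, rfl⟩))
  have hN4 : ∀ φ ∈ V, ∀ ψ ∈ V, ∀ h ∈ S4 φ ψ, Sum.inl (Sum.inl h) ∈ M := by
    intro φ hφ ψ hψ x hx
    exact hMR _ hφ _ hψ (Or.inr (Or.inr ⟨x, hx, rfl⟩))
  have hNC : ∀ x ∈ N, C x ⊆ V := by
    intro x hx φ hφ
    exact hMR _ hx _ hx ⟨φ, hφ, rfl⟩
  have hNs : ∀ z ∈ MT M, s z ∈ N := by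
    intro z hz
    exact hMR _ hz _ hz rfl
  have hsepN := hC2 N V hNC
  -- lifting points
  have hlift : ∀ z ∈ closure (MT M), ∃ x ∈ closure N, g x = z := by
    have h1 : MT M ⊆ g '' closure N := by
      intro z hz
      exact ⟨s z, subset_closure (hNs z hz), hsz z⟩
    have h2 : IsClosed (g '' closure N) := (isClosed_closure.isCompact.image hg).isClosed
    intro z hz
    exact closure_minimal h1 h2 hz
  -- neighbourhoods
  have hnb : ∀ x ∈ closure N, ∀ U : Set X, IsOpen U → x ∈ U →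
      ∃ ψ ∈ V, ψ x ≤ 0 ∧ ∀ y ∈ closure N, ψ y ≤ 0 → y ∈ U := by
    intro x hx U hU hxU
    have hc : IsCompact (closure N ∩ Uᶜ) := isClosed_closure.isCompact.inter_right hU.isClosed_compl
    have h := hc.induction_on (p := fun S => ∃ ψ ∈ V, ψ x ≤ 0 ∧ ∀ y ∈ S, 0 < ψ y)
      ⟨0, hV0, le_rfl, fun y hy => absurd hy (notMem_empty _)⟩
      (fun A B hAB ⟨ψ, h1, h2, h3⟩ => ⟨ψ, h1, h2, fun y hy => h3 y (hAB hy)⟩)
      (fun A B ⟨ψ, h1, h2, h3⟩ ⟨ψ', h1', h2', h3'⟩ => ⟨ψ ⊔ ψ', hVm _ h1 _ h1', by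
        rw [ContinuousMap.sup_apply]; exact sup_le h2 h2', fun y hy => by
        rw [ContinuousMap.sup_apply]
        rcases hy with hy | hy
        · exact lt_of_lt_of_le (h3 y hy) le_sup_left
        · exact lt_of_lt_of_le (h3' y hy) le_sup_right⟩)
      (by
        rintro y ⟨hy, hyU⟩
        have hne : x ≠ y := by
          rintro rfl
          exact hyU hxU
        have h1 : ∃ φ ∈ V, φ x ≠ φ y := by
          by_contra hcon
          push Not at hcon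
          exact hne (hsepN x hx y hy hcon)
        obtain ⟨φ, hφ, hφne⟩ := h1
        have hd : 0 < |φ x - φ y| := abs_pos.mpr (sub_ne_zero.mpr hφne)
        set d := |φ x - φ y| with hd'
        obtain ⟨c, hc1, hc2⟩ := exists_rat_btwn (show φ x < φ x + d / 4 by linarith)
        obtain ⟨r, hr1, hr2⟩ := exists_rat_btwn (show d / 4 < d / 2 by linarith)
        have h2 : |φ x - c| - r ≤ 0 := by
          rw [abs_of_neg (by linarith)]; linarith
        have h3 : 0 < |φ y - c| - r := by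
          have h4 : d ≤ |φ x - c| + |φ y - c| := by
            rw [hd']
            have := abs_sub_le (φ x) c (φ y)
            rwa [abs_sub_comm (c : ℝ) (φ y)] at this
          have h5 : |φ x - c| < d / 4 := by rw [abs_of_neg (by linarith)]; linarith
          linarith
        refine ⟨{z | 0 < sh φ c r z}, mem_nhdsWithin_of_mem_nhds ?_, sh φ c r, hVs φ hφ c r, h2,
          fun z hz => hz⟩
        exact (isOpen_lt continuous_const (sh φ c r).continuous).mem_nhds h3)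
    obtain ⟨ψ, h1, h2, h3⟩ := h
    refine ⟨ψ, h1, h2, fun y hy hyψ => ?_⟩
    by_contra hyU
    exact absurd (h3 y ⟨hy, hyU⟩) (not_lt.mpr hyψ)
  by_contra hne
  obtain ⟨Up, Uq, hUp, hUq, hpU, hqU, hdisj⟩ := t2_separation hne
  obtain ⟨xp, hxp, hgp⟩ := hlift p hp
  obtain ⟨xq, hxq, hgq⟩ := hlift q hq
  obtain ⟨φ, hφ, hφ0, hφU⟩ := hnb xp hxp (g ⁻¹' Up) (hUp.preimage hg) (by
    show g xp ∈ Up; rw [hgp]; exact hpU)
  obtain ⟨ψ, hψ, hψ0, hψU⟩ := hnb xq hxq (g ⁻¹' Uq) (hUq.preimage hg) (by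
    show g xq ∈ Uq; rw [hgq]; exact hqU)
  have hno : ¬ ∃ x y, φ x ≤ 0 ∧ ψ y ≤ 0 ∧ g x = g y := by
    intro h
    obtain ⟨x, hx, y, hy, h1, h2, h3⟩ := hS3 φ ψ h
    have hxU : g x ∈ Up := hφU x (subset_closure (hN3 φ hφ ψ hψ hx)) h1
    have hyU : g y ∈ Uq := hψU y (subset_closure (hN3 φ hφ ψ hψ hy)) h2
    rw [h3] at hxU
    exact disjoint_left.mp hdisj hxU hyU
  have hex : ∃ h : C(Z, ℝ), ∀ x, (φ x ≤ 0 → h (g x) = 0) ∧ (ψ x ≤ 0 → h (g x) = 1) := by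
    have hA : IsClosed (g '' {x | φ x ≤ 0}) :=
      ((isClosed_le φ.continuous continuous_const).isCompact.image hg).isClosed
    have hB : IsClosed (g '' {x | ψ x ≤ 0}) :=
      ((isClosed_le ψ.continuous continuous_const).isCompact.image hg).isClosed
    obtain ⟨f, hf0, hf1, _⟩ := exists_continuous_zero_one_of_isClosed hA hB (by
      rw [disjoint_left]
      rintro _ ⟨x, hx, rfl⟩ ⟨y, hy, hyx⟩
      exact hno ⟨x, y, hx, hy, hyx.symm⟩)
    exact ⟨f, fun x => ⟨fun hx => hf0 ⟨x, hx, rfl⟩, fun hx => hf1 ⟨x, hx, rfl⟩⟩⟩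
  obtain ⟨h, hhS, hh⟩ := hS4 φ ψ hex
  have h1 : h p = 0 := by rw [← hgp]; exact (hh xp).1 hφ0
  have h2 : h q = 1 := by rw [← hgq]; exact (hh xq).2 hψ0
  have h3 : h p = h q := hpq (Sum.inl h) (hN4 φ hφ ψ hψ h hhS)
  rw [h1, h2] at h3
  exact zero_ne_one h3

end Pool.Agent.H23
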