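import Mathlib

set_option autoImplicit false

namespace Pool.Agent.H23.Fac

/-- convolution on a group -/
noncomputable def conv {G : Type} [Group G] (f g : G → ℂ) : G → ℂ := fun s => ∑' t, f t * g (t⁻¹ * s)

/-- point mass -/
noncomputable def dl {G : Type} (g : G) : G → ℂ := by
  classical
  exact fun s => if s = g then 1 else 0

end Pool.Agent.H23.Fac
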