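import Mathlib

/-! Part I for MP_a2b00d_an: an isoperimetric inequality on the free group. -/

set_option autoImplicit false

namespace Pool.Agent.H23.Fac

open Filter Topology

theorem shift_le {G : Type} [Group G] (F A : G → ℝ) (s : G) (hF : Summable F)
    (hA0 : ∀ u, 0 ≤ A u) (hA1 : ∀ u, A u ≤ 1) (h0 : ∀ u, 0 ≤ F u) :
    ∑' u, (F u * A u - F u * A (u * s⁻¹)) ≤ ∑' u, |F u - F (u * s⁻¹)| := by
  have hFs : Summable fun u => F (u * s⁻¹) := (Equiv.mulRight s⁻¹).summable_iff.2 hF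
  have h1 : Summable fun u => F u * A u :=
    Summable.of_nonneg_of_le (fun u => mul_nonneg (h0 u) (hA0 u))
      (fun u => mul_le_of_le_one_right (h0 u) (hA1 u)) hF
  have h2 : Summable fun u => F u * A (u * s⁻¹) :=
    Summable.of_nonneg_of_le (fun u => mul_nonneg (h0 u) (hA0 _))
      (fun u => mul_le_of_le_one_right (h0 u) (hA1 _)) hF
  have h3 : Summable fun u => F (u * s⁻¹) * A (u * s⁻¹) :=
    (Equiv.mulRight s⁻¹).summable_iff.2 h1
  have h4 : ∑' u, F (u * s⁻¹) * A (u * s⁻¹) = ∑' u, F u * A u :=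
    (Equiv.mulRight s⁻¹).tsum_eq fun u => F u * A u
  rw [h1.tsum_sub h2, ← h4, ← h3.tsum_sub h2]
  refine (h3.sub h2).tsum_le_tsum (fun u => ?_) (hF.sub hFs).abs
  have e : F (u * s⁻¹) * A (u * s⁻¹) - F u * A (u * s⁻¹) =
      (F (u * s⁻¹) - F u) * A (u * s⁻¹) := by ring
  rw [e]
  calc (F (u * s⁻¹) - F u) * A (u * s⁻¹) ≤ |F (u * s⁻¹) - F u| * A (u * s⁻¹) :=
        mul_le_mul_of_nonneg_right (le_abs_self _) (hA0 _)
    _ ≤ |F (u * s⁻¹) - F u| * 1 := mul_le_mul_of_nonneg_left (hA1 _) (abs_nonneg _)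
    _ = |F u - F (u * s⁻¹)| := by rw [mul_one, abs_sub_comm]

open Classical in
/-- `u` does not end with the inverse of the generator `i` -/
noncomputable def ind (i : ℕ) (g : FreeGroup ℕ) : ℝ :=
  if g⁻¹ ∈ FreeGroup.startsWith (i, true) then 0 else 1

theorem ind_nonneg (i : ℕ) (g : FreeGroup ℕ) : 0 ≤ ind i g := by
  unfold ind; split_ifs <;> norm_num

theorem ind_le (i : ℕ) (g : FreeGroup ℕ) : ind i g ≤ 1 := by
  unfold ind; split_ifs <;> norm_num

theorem ind_shift (i : ℕ) (u : FreeGroup ℕ) (h : u⁻¹ ∉ FreeGroup.startsWith (i, false)) :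
    ind i (u * (FreeGroup.of i)⁻¹) = 0 := by
  have h1 : (u * (FreeGroup.of i)⁻¹)⁻¹ ∈ FreeGroup.startsWith (i, true) := by
    rw [mul_inv_rev, inv_inv]
    exact FreeGroup.startsWith_mk_mul (w := (i, true)) u⁻¹ h
  unfold ind
  rw [if_pos h1]

theorem sw_disj {w w' : ℕ × Bool} (h : w ≠ w') {g : FreeGroup ℕ}
    (hg : g ∈ FreeGroup.startsWith w) : g ∉ FreeGroup.startsWith w' :=
  (FreeGroup.startsWith.disjoint_iff_ne.2 h).notMem_of_mem_left hg

theorem pointwise (u : FreeGroup ℕ) : 1 ≤ (ind 0 u - ind 0 (u * (FreeGroup.of 0)⁻¹)) +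
    (ind 1 u - ind 1 (u * (FreeGroup.of 1)⁻¹)) := by
  by_cases h0 : u⁻¹ ∈ FreeGroup.startsWith (0, false)
  · have h1 := ind_shift 1 u (sw_disj (by decide) h0)
    have h2 : ind 0 u = 1 := if_neg (sw_disj (by decide) h0)
    have h3 : ind 1 u = 1 := if_neg (sw_disj (by decide) h0)
    have h4 := ind_le 0 (u * (FreeGroup.of 0)⁻¹)
    linarith
  · by_cases h0' : u⁻¹ ∈ FreeGroup.startsWith (1, false)
    · have h1 := ind_shift 0 u (sw_disj (by decide) h0')
      have h2 : ind 0 u = 1 := if_neg (sw_disj (by decide) h0')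
      have h3 : ind 1 u = 1 := if_neg (sw_disj (by decide) h0')
      have h4 := ind_le 1 (u * (FreeGroup.of 1)⁻¹)
      linarith
    · have h1 := ind_shift 0 u h0
      have h2 := ind_shift 1 u h0'
      by_cases h3 : u⁻¹ ∈ FreeGroup.startsWith (0, true)
      · have h4 : ind 1 u = 1 := if_neg (sw_disj (by decide) h3)
        have h5 := ind_nonneg 0 u
        linarith
      · have h4 : ind 0 u = 1 := if_neg h3
        have h5 := ind_nonneg 1 u
        linarith

theorem iso_real (F : FreeGroup ℕ → ℝ) (h0 : ∀ u, 0 ≤ F u) (hF : Summable F) :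
    ∑' u, F u ≤ ∑' u, |F u - F (u * (FreeGroup.of 0)⁻¹)| +
      ∑' u, |F u - F (u * (FreeGroup.of 1)⁻¹)| := by
  have hs : ∀ i : ℕ, Summable fun u => F u * ind i u - F u * ind i (u * (FreeGroup.of i)⁻¹) := by
    intro i
    refine Summable.sub ?_ ?_
    · exact Summable.of_nonneg_of_le (fun u => mul_nonneg (h0 u) (ind_nonneg _ _))
        (fun u => mul_le_of_le_one_right (h0 u) (ind_le _ _)) hF
    · exact Summable.of_nonneg_of_le (fun u => mul_nonneg (h0 u) (ind_nonneg _ _))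
        (fun u => mul_le_of_le_one_right (h0 u) (ind_le _ _)) hF
  have h1 := shift_le F (ind 0) (FreeGroup.of 0) hF (ind_nonneg 0) (ind_le 0) h0
  have h2 := shift_le F (ind 1) (FreeGroup.of 1) hF (ind_nonneg 1) (ind_le 1) h0
  have h3 : ∑' u, F u ≤ ∑' u, ((F u * ind 0 u - F u * ind 0 (u * (FreeGroup.of 0)⁻¹)) +
      (F u * ind 1 u - F u * ind 1 (u * (FreeGroup.of 1)⁻¹))) := by
    refine hF.tsum_le_tsum (fun u => ?_) ((hs 0).add (hs 1))
    have := mul_le_mul_of_nonneg_left (pointwise u) (h0 u)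
    linarith
  rw [(hs 0).tsum_add (hs 1)] at h3
  linarith

theorem iso (f : FreeGroup ℕ → ℂ) (hf : Filter.Tendsto f Filter.cofinite (nhds 0))
    (hx : Summable (fun t => ‖f t - f (t * (FreeGroup.of 0)⁻¹)‖))
    (hy : Summable (fun t => ‖f t - f (t * (FreeGroup.of 1)⁻¹)‖)) :
    Summable (fun t => ‖f t‖) := by
  set D := ∑' t, ‖f t - f (t * (FreeGroup.of 0)⁻¹)‖ + ∑' t, ‖f t - f (t * (FreeGroup.of 1)⁻¹)‖
    with hD
  have key : ∀ δ : ℝ, 0 < δ → ∀ S : Finset (FreeGroup ℕ),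
      ∑ t ∈ S, ‖f t‖ ≤ D + δ * S.card := by
    intro δ hδ S
    set F : FreeGroup ℕ → ℝ := fun t => max (‖f t‖ - δ) 0 with hFdef
    have h0 : ∀ u, 0 ≤ F u := fun u => le_max_right _ _
    have hfin : {t | F t ≠ 0}.Finite := by
      have h1 : ∀ᶠ t in cofinite, ‖f t‖ < δ := by
        have := hf.norm
        rw [norm_zero] at this
        exact this.eventually (gt_mem_nhds hδ)
      refine Set.Finite.subset (s := {t | ¬ ‖f t‖ < δ}) h1 ?_
      intro t ht hlt
      exact ht (max_eq_right (by linarith))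
    have hF : Summable F := summable_of_finite_support hfin
    have hlip : ∀ s u : FreeGroup ℕ, |F u - F (u * s⁻¹)| ≤ ‖f u - f (u * s⁻¹)‖ := by
      intro s u
      rw [hFdef]
      refine (abs_max_sub_max_le_abs _ _ _).trans ?_
      have e : ‖f u‖ - δ - (‖f (u * s⁻¹)‖ - δ) = ‖f u‖ - ‖f (u * s⁻¹)‖ := by ring
      rw [e]
      exact abs_norm_sub_norm_le _ _
    have h1 := iso_real F h0 hF
    have h2 : ∀ s : FreeGroup ℕ, Summable fun u => |F u - F (u * s⁻¹)| := fun s =>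
      (hF.sub ((Equiv.mulRight s⁻¹).summable_iff.2 hF)).abs
    have h3 := (h2 (FreeGroup.of 0)).tsum_le_tsum (hlip (FreeGroup.of 0)) hx
    have h4 := (h2 (FreeGroup.of 1)).tsum_le_tsum (hlip (FreeGroup.of 1)) hy
    have h5 : ∑ t ∈ S, F t ≤ ∑' t, F t := hF.sum_le_tsum S fun t _ => h0 t
    have h6 : ∑ t ∈ S, ‖f t‖ ≤ ∑ t ∈ S, (F t + δ) := by
      refine Finset.sum_le_sum fun t _ => ?_
      have : ‖f t‖ - δ ≤ F t := le_max_left _ _
      linarith
    rw [Finset.sum_add_distrib, Finset.sum_const, nsmul_eq_mul] at h6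
    rw [hD]
    linarith
  refine summable_of_sum_le (c := D) (fun _ => norm_nonneg _) fun S => ?_
  by_contra hcon
  push Not at hcon
  have hgap : 0 < ∑ t ∈ S, ‖f t‖ - D := by linarith
  have hpos : (0 : ℝ) < S.card + 1 := by positivity
  have h1 := key ((∑ t ∈ S, ‖f t‖ - D) / (S.card + 1)) (by positivity) S
  have h2 : (∑ t ∈ S, ‖f t‖ - D) / (S.card + 1) * S.card < ∑ t ∈ S, ‖f t‖ - D := by
    rw [div_mul_eq_mul_div, div_lt_iff₀ hpos]
    nlinarith
  linarith

end Pool.Agent.H23.Fac
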