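import Pool.Agent.H23.FacDefs

set_option autoImplicit false

namespace Pool.Agent.H23.Fac

/-- positive words in the first two generators -/
def posw (w : List Bool) : FreeGroup ℕ := FreeGroup.mk (w.map (fun b => (if b then 1 else 0, true)))

theorem posw_inj : Function.Injective posw := by
  intro v w h
  have hred : ∀ u : List Bool, FreeGroup.IsReduced (u.map (fun b => ((if b then 1 else 0 : ℕ), true))) := by
    intro u
    induction u with
    | nil => exact FreeGroup.IsReduced.nil
    | cons a u ih =>
      cases u with
      | nil => exact FreeGroup.IsReduced.singleton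
      | cons b u =>
        rw [List.map_cons, List.map_cons, FreeGroup.isReduced_cons_cons]
        exact ⟨fun _ => rfl, ih⟩
  have h1 := congrArg FreeGroup.toWord h
  unfold posw at h1
  rw [FreeGroup.toWord_mk, FreeGroup.toWord_mk, (hred v).reduce_eq, (hred w).reduce_eq] at h1
  refine List.map_injective_iff.2 ?_ h1
  intro a b hab
  cases a <;> cases b <;> simp at hab ⊢

theorem posw_cons (b : Bool) (w : List Bool) :
    posw (b :: w) = FreeGroup.of (if b then 1 else 0) * posw w := by
  unfold posw
  rw [FreeGroup.of, FreeGroup.mul_mk]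
  rfl

theorem posw_nil : posw [] = 1 := rfl

theorem list_summable : Summable (fun w : List Bool => ((1 : ℝ) / 4) ^ w.length) := by
  have h : Summable (fun p : (Σ n : ℕ, List.Vector Bool n) => ((1 : ℝ) / 4) ^ p.1) := by
    rw [summable_sigma_of_nonneg (fun _ => by positivity)]
    refine ⟨fun n => Summable.of_finite, ?_⟩
    have e : (fun n : ℕ => ∑' _ : List.Vector Bool n, ((1 : ℝ) / 4) ^ n) = fun n => ((1 : ℝ) / 2) ^ n := by
      funext n
      rw [tsum_fintype]
      simp only [Finset.sum_const, Finset.card_univ, card_vector, Fintype.card_bool, nsmul_eq_mul]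
      push_cast
      rw [← mul_pow]
      norm_num
    change Summable (fun n : ℕ => ∑' _ : List.Vector Bool n, ((1 : ℝ) / 4) ^ n)
    rw [e]
    exact summable_geometric_of_lt_one (by norm_num) (by norm_num)
  have e2 := (Equiv.sigmaFiberEquiv (fun w : List Bool => w.length)).summable_iff
    (f := fun w : List Bool => ((1 : ℝ) / 4) ^ w.length)
  rw [← e2]
  refine h.congr ?_
  rintro ⟨n, w, hw⟩
  show ((1 : ℝ) / 4) ^ n = (1 / 4) ^ w.length
  rw [hw]

open Classical in
theorem exists_k : ∃ k : FreeGroup ℕ → ℂ, (∀ g, ‖k g‖ ≤ 1) ∧ Summable (fun g => ‖k g‖^2) ∧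
    ∀ g, k g - (1/2) * k ((FreeGroup.of 0)⁻¹ * g) - (1/2) * k ((FreeGroup.of 1)⁻¹ * g) = dl 1 g := by
  let k : FreeGroup ℕ → ℂ := fun g => if h : ∃ w, posw w = g then (1 / 2) ^ (h.choose.length) else 0
  have k1 : ∀ w, k (posw w) = (1 / 2) ^ w.length := by
    intro w
    have hex : ∃ v, posw v = posw w := ⟨w, rfl⟩
    have : hex.choose = w := posw_inj hex.choose_spec
    simp only [k]
    rw [dif_pos hex, this]
  have k0 : ∀ g, (¬ ∃ w, posw w = g) → k g = 0 := by
    intro g hg
    simp only [k]
    rw [dif_neg hg]
  refine ⟨k, ?_, ?_, ?_⟩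
  · intro g
    by_cases hg : ∃ w, posw w = g
    · obtain ⟨w, rfl⟩ := hg
      rw [k1, norm_pow]
      apply pow_le_one₀ (norm_nonneg _)
      norm_num
    · rw [k0 g hg]; simp
  · have h2 : Summable ((fun g => ‖k g‖ ^ 2) ∘ posw) := by
      refine list_summable.congr ?_
      intro w
      show ((1 : ℝ) / 4) ^ w.length = ‖k (posw w)‖ ^ 2
      rw [k1, norm_pow, ← pow_mul, mul_comm, pow_mul]
      norm_num
    refine (posw_inj.summable_iff ?_).1 h2
    intro g hg
    rw [k0 g (fun h => hg h)]
    simp
  · intro g
    have hs : ∀ (b : Bool) (g : FreeGroup ℕ) (w : List Bool),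
        posw w = (FreeGroup.of (if b then 1 else 0))⁻¹ * g → g = posw (b :: w) := by
      intro b g w h
      rw [posw_cons, h, mul_inv_cancel_left]
    have hs0 : ∀ (g : FreeGroup ℕ) (w : List Bool),
        posw w = (FreeGroup.of 0)⁻¹ * g → g = posw (false :: w) := fun g w h => hs false g w h
    have hs1 : ∀ (g : FreeGroup ℕ) (w : List Bool),
        posw w = (FreeGroup.of 1)⁻¹ * g → g = posw (true :: w) := fun g w h => hs true g w h
    by_cases hg : ∃ w, posw w = g
    · obtain ⟨w, rfl⟩ := hg
      cases w with
      | nil =>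
        have a0 : k ((FreeGroup.of 0)⁻¹ * posw []) = 0 := k0 _ (by
          rintro ⟨v, hv⟩
          have := posw_inj (hs0 _ v hv)
          simp at this)
        have a1 : k ((FreeGroup.of 1)⁻¹ * posw []) = 0 := k0 _ (by
          rintro ⟨v, hv⟩
          have := posw_inj (hs1 _ v hv)
          simp at this)
        rw [a0, a1, k1, posw_nil]
        simp [dl]
      | cons b w =>
        have hd : dl (1 : FreeGroup ℕ) (posw (b :: w)) = 0 := by
          unfold dl
          rw [if_neg]
          intro h
          rw [← posw_nil] at h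
          have := posw_inj h
          simp at this
        rw [hd]
        cases b with
        | false =>
          have a0 : (FreeGroup.of 0)⁻¹ * posw (false :: w) = posw w := by
            rw [posw_cons]
            exact inv_mul_cancel_left _ _
          have a1 : k ((FreeGroup.of 1)⁻¹ * posw (false :: w)) = 0 := k0 _ (by
            rintro ⟨v, hv⟩
            have := posw_inj (hs1 _ v hv)
            simp at this)
          rw [a0, a1, k1, k1, List.length_cons, pow_succ]
          ring
        | true =>
          have a1 : (FreeGroup.of 1)⁻¹ * posw (true :: w) = posw w := by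
            rw [posw_cons]
            exact inv_mul_cancel_left _ _
          have a0 : k ((FreeGroup.of 0)⁻¹ * posw (true :: w)) = 0 := k0 _ (by
            rintro ⟨v, hv⟩
            have := posw_inj (hs0 _ v hv)
            simp at this)
          rw [a0, a1, k1, k1, List.length_cons, pow_succ]
          ring
    · have a0 : k ((FreeGroup.of 0)⁻¹ * g) = 0 := k0 _ (by
        rintro ⟨v, hv⟩
        exact hg ⟨_, (hs0 _ v hv).symm⟩)
      have a1 : k ((FreeGroup.of 1)⁻¹ * g) = 0 := k0 _ (by
        rintro ⟨v, hv⟩
        exact hg ⟨_, (hs1 _ v hv).symm⟩)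
      have hd : dl (1 : FreeGroup ℕ) g = 0 := by
        unfold dl
        rw [if_neg]
        intro h
        exact hg ⟨[], by rw [posw_nil, h]⟩
      rw [a0, a1, k0 g hg, hd]
      ring

end Pool.Agent.H23.Fac
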