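import Mathlib
import Pool.Agent.H23.FacDefs

set_option autoImplicit false

open scoped InnerProductSpace ENNReal ComplexConjugate

namespace Pool.Agent.H23.Fac

namespace III

variable {G : Type} [Group G]

noncomputable abbrev E (G : Type) := lp (fun _ : G => ℂ) 2

noncomputable def toE (f : G → ℂ) (hf : Summable (fun s => ‖f s‖ ^ 2)) : E G :=
  ⟨f, memℓp_gen (by simpa using hf)⟩

theorem toE_apply (f : G → ℂ) (hf : Summable (fun s => ‖f s‖ ^ 2)) (s : G) : toE f hf s = f s := rfl

theorem sq_summable (F : E G) : Summable (fun s => ‖F s‖ ^ 2) := by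
  have h := lp.memℓp F
  rw [memℓp_gen_iff (by norm_num)] at h
  simpa using h

theorem sq_of_one (a : G → ℂ) (ha : Summable (fun s => ‖a s‖)) : Summable (fun s => ‖a s‖ ^ 2) := by
  have h1 : Memℓp a 1 := memℓp_gen (by simpa using ha)
  have h2 : Memℓp a 2 := h1.of_exponent_ge (by norm_num)
  rw [memℓp_gen_iff (by norm_num)] at h2
  simpa using h2

noncomputable def R (g : G) (F : E G) : E G :=
  toE (fun s => F (s * g)) (by
    have := sq_summable F
    exact (Equiv.mulRight g).summable_iff.2 this)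

theorem RR_apply (g : G) (F : E G) (s : G) : R g F s = F (s * g) := rfl

theorem R_inner (g : G) (F H : E G) : ⟪R g F, R g H⟫_ℂ = ⟪F, H⟫_ℂ := by
  rw [lp.inner_eq_tsum, lp.inner_eq_tsum]
  simp only [RR_apply]
  exact (Equiv.mulRight g).tsum_eq (fun s => ⟪F s, H s⟫_ℂ)

theorem R_R (g h : G) (F : E G) : R g (R h F) = R (g * h) F := by
  apply lp.ext
  funext s
  simp [RR_apply, mul_assoc]

theorem R_one (F : E G) : R 1 F = F := by
  apply lp.ext
  funext s
  simp [RR_apply]

theorem R_inner_left (g : G) (F H : E G) : ⟪R g F, H⟫_ℂ = ⟪F, R g⁻¹ H⟫_ℂ := by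
  rw [← R_inner g⁻¹ (R g F) H, R_R, inv_mul_cancel, R_one]

theorem R_norm (g : G) (F : E G) : ‖R g F‖ = ‖F‖ := by
  have h := R_inner g F F
  rw [inner_self_eq_norm_sq_to_K, inner_self_eq_norm_sq_to_K] at h
  have h2 : ‖R g F‖ ^ 2 = ‖F‖ ^ 2 := by exact_mod_cast h
  exact (pow_left_inj₀ (norm_nonneg _) (norm_nonneg _) (by norm_num)).1 h2

noncomputable def bv (a : G → ℂ) (ha : Summable (fun s => ‖a s‖)) (s : G) : E G :=
  toE (fun t => conj (a (s * t⁻¹))) (by
    have h := sq_of_one a ha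
    have : Summable (fun t => ‖a (s * t⁻¹)‖ ^ 2) :=
      ((Equiv.inv G).trans (Equiv.mulLeft s)).summable_iff.2 h
    simpa using this)

theorem bv_inner (a : G → ℂ) (ha : Summable (fun s => ‖a s‖)) (s : G) (F : E G) :
    ⟪bv a ha s, F⟫_ℂ = conv a F s := by
  rw [lp.inner_eq_tsum, conv]
  rw [← ((Equiv.inv G).trans (Equiv.mulRight s)).tsum_eq]
  refine tsum_congr (fun t => ?_)
  simp [bv, toE_apply, mul_comm]

noncomputable def K (a : G → ℂ) (ha : Summable (fun s => ‖a s‖)) : Submodule ℂ (E G) :=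
  (Submodule.span ℂ (Set.range (bv a ha)))ᗮ

theorem mem_K (a : G → ℂ) (ha : Summable (fun s => ‖a s‖)) (F : E G) :
    F ∈ K a ha ↔ ∀ s, conv a F s = 0 := by
  unfold K
  rw [Submodule.mem_orthogonal]
  constructor
  · intro h s
    rw [← bv_inner a ha]
    exact h _ (Submodule.subset_span ⟨s, rfl⟩)
  · intro h u hu
    induction hu using Submodule.span_induction with
    | mem x hx =>
      obtain ⟨s, rfl⟩ := hx
      rw [bv_inner, h]
    | zero => simp
    | add x y _ _ hx hy => rw [inner_add_left, hx, hy, add_zero]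
    | smul c x _ hx => rw [inner_smul_left, hx, mul_zero]

theorem conv_R (a : G → ℂ) (g : G) (F : E G) (s : G) : conv a (R g F) s = conv a F (s * g) := by
  simp only [conv, RR_apply, mul_assoc]

theorem R_mem_K (a : G → ℂ) (ha : Summable (fun s => ‖a s‖)) (g : G) (F : E G) (h : F ∈ K a ha) :
    R g F ∈ K a ha := by
  rw [mem_K] at h ⊢
  intro s
  rw [conv_R, h]

noncomputable def d1 : E G := toE (dl (1 : G)) (by
  classical
  apply summable_of_hasFiniteSupport
  apply (Set.finite_singleton (1 : G)).subset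
  intro s hs
  by_contra hne
  apply hs
  simp only [Set.mem_singleton_iff] at hne
  simp [dl, hne])

theorem d1_inner (F : E G) : ⟪(d1 : E G), F⟫_ℂ = F 1 := by
  classical
  rw [lp.inner_eq_tsum, tsum_eq_single 1]
  · simp [d1, toE_apply, dl]
  · intro s hs
    simp [d1, toE_apply, dl, hs]

end III

open III in
theorem inj {G : Type} [Group G] (a u f : G → ℂ) (ha : Summable (fun s => ‖a s‖))
    (hu : Summable (fun s => ‖u s‖ ^ 2)) (hau : conv a u = dl 1)
    (hf : Summable (fun s => ‖f s‖ ^ 2)) (haf : conv a f = 0) : f = 0 := by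
  classical
  have : (K a ha).HasOrthogonalProjection := by
    unfold K
    infer_instance
  obtain ⟨p, hp, z, hz, hpz⟩ := Submodule.exists_add_mem_mem_orthogonal (K := K a ha) (d1 : E G)
  have hz' : ∀ F ∈ K a ha, ⟪F, z⟫_ℂ = 0 := by
    intro F hF
    exact (Submodule.mem_orthogonal _ _).1 hz F hF
  have hz'' : ∀ F ∈ K a ha, ⟪z, F⟫_ℂ = 0 := by
    intro F hF
    rw [← inner_conj_symm, hz' F hF, map_zero]
  -- p g = <R g⁻¹ p, p>
  have hpg : ∀ g, p g = ⟪R g⁻¹ p, p⟫_ℂ := by
    intro g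
    have h1 : ⟪(d1 : E G), R g p⟫_ℂ = p g := by rw [d1_inner, RR_apply, one_mul]
    rw [← h1, hpz, inner_add_left, hz'' _ (R_mem_K a ha g p hp), add_zero, R_inner_left, inv_inv]
  have hsym : ∀ g, p g⁻¹ = conj (p g) := by
    intro g
    rw [hpg g⁻¹, hpg g, inv_inv, inner_conj_symm, R_inner_left]
  -- U and V
  set U : E G := toE u hu with hU
  have hconvp : ∀ s, conv a p s = 0 := (mem_K a ha p).1 hp
  have hVs : Summable (fun t => a t • R t⁻¹ U) := by
    apply Summable.of_norm
    simp only [norm_smul, R_norm]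
    exact ha.mul_right _
  have hWs : Summable (fun t => conj (a t) • R t p) := by
    apply Summable.of_norm
    simp only [norm_smul, R_norm, RCLike.norm_conj]
    exact ha.mul_right _
  set V : E G := ∑' t, a t • R t⁻¹ U with hV
  set W : E G := ∑' t, conj (a t) • R t p with hW
  -- evaluation is continuous
  have heval : ∀ (c : G → ℂ) (X : G → E G) (hs : Summable (fun t => c t • X t)) (B : E G),
      ⟪B, ∑' t, c t • X t⟫_ℂ = ∑' t, c t * ⟪B, X t⟫_ℂ := by
    intro c X hs B
    have h1 := (hs.hasSum).mapL (innerSL ℂ B)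
    have h2 := h1.tsum_eq
    simp only [innerSL_apply_apply, inner_smul_right] at h2
    exact h2.symm
  have hval : ∀ (F : E G) (s : G), F s = ⟪R s⁻¹ (d1 : E G), F⟫_ℂ := by
    intro F s
    rw [R_inner_left, inv_inv, d1_inner, RR_apply, one_mul]
  have hW0 : W = 0 := by
    apply lp.ext
    funext s
    rw [hval W s, hW, heval _ _ hWs]
    have h1 : ∀ t, conj (a t) * ⟪R s⁻¹ (d1 : E G), R t p⟫_ℂ = conj (a t * p (t⁻¹ * s⁻¹)) := by
      intro t
      rw [← hval, RR_apply, map_mul, ← hsym, mul_inv_rev, inv_inv, inv_inv]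
    simp only [h1]
    rw [← Complex.conj_tsum]
    have := hconvp s⁻¹
    unfold conv at this
    rw [this]
    simp
  have hpV : ⟪p, V⟫_ℂ = 0 := by
    rw [hV, heval _ _ hVs]
    have h1 : ⟪U, W⟫_ℂ = ∑' t, conj (a t) * ⟪U, R t p⟫_ℂ := by rw [hW, heval _ _ hWs]
    rw [hW0, inner_zero_right] at h1
    have h2 : (∑' t, a t * ⟪p, R t⁻¹ U⟫_ℂ) = conj (∑' t, conj (a t) * ⟪U, R t p⟫_ℂ) := by
      rw [Complex.conj_tsum]
      refine tsum_congr (fun t => ?_)
      rw [map_mul, Complex.conj_conj, inner_conj_symm, R_inner_left]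
    rw [h2, ← h1, map_zero]
  have hV1 : ∀ s, conv a V s = a s := by
    intro s
    rw [← bv_inner a ha, hV, heval _ _ hVs]
    rw [tsum_eq_single s]
    · rw [bv_inner, conv_R]
      have : conv a U (s * s⁻¹) = conv a u (s * s⁻¹) := rfl
      rw [this, hau]
      simp [dl]
    · intro t ht
      rw [bv_inner, conv_R]
      have : conv a U (s * t⁻¹) = conv a u (s * t⁻¹) := rfl
      rw [this, hau]
      have h3 : s * t⁻¹ ≠ 1 := fun h => ht (mul_inv_eq_one.1 h).symm
      simp [dl, h3]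
  have hd : ∀ s, conv a (d1 : E G) s = a s := by
    intro s
    unfold conv
    rw [tsum_eq_single s]
    · simp [d1, toE_apply, dl]
    · intro t ht
      have h3 : t⁻¹ * s ≠ 1 := fun h => ht (inv_mul_eq_one.1 h)
      simp [d1, toE_apply, dl, h3]
  have hq : (d1 : E G) - V ∈ K a ha := by
    rw [mem_K]
    intro s
    rw [← bv_inner a ha, inner_sub_right, bv_inner, bv_inner, hd, hV1, sub_self]
  have hV1' : V 1 = 1 := by
    rw [hval V 1, hV, heval _ _ hVs]
    have h1 : ∀ t, a t * ⟪R (1 : G)⁻¹ (d1 : E G), R t⁻¹ U⟫_ℂ = a t * u (t⁻¹ * 1) := by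
      intro t
      rw [← hval, RR_apply, one_mul, mul_one]
      rfl
    simp only [h1]
    have h2 : conv a u 1 = dl (1 : G) 1 := by rw [hau]
    unfold conv at h2
    rw [h2]
    simp [dl]
  have hpq : ⟪p, (d1 : E G) - V⟫_ℂ = 0 := by
    have h1 : ⟪(d1 : E G), (d1 : E G) - V⟫_ℂ = 0 := by
      rw [inner_sub_right, d1_inner, d1_inner, hV1']
      simp [d1, toE_apply, dl]
    rw [hpz, inner_add_left, ← hpz, hz'' _ hq, add_zero] at h1
    exact h1
  have hp1 : ⟪p, (d1 : E G)⟫_ℂ = 0 := by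
    rw [inner_sub_right, hpV, sub_zero] at hpq
    exact hpq
  have hpp : ⟪p, p⟫_ℂ = 0 := by
    rw [hpz, inner_add_right, hz' p hp, add_zero] at hp1
    exact hp1
  have hp0 : p = 0 := inner_self_eq_zero.1 hpp
  set F : E G := toE f hf with hF
  have hFK : F ∈ K a ha := by
    rw [mem_K]
    intro s
    have : conv a F s = conv a f s := rfl
    rw [this, haf]
    rfl
  funext s
  have h1 : F s = 0 := by
    have h2 : F s = ⟪(d1 : E G), R s F⟫_ℂ := by rw [d1_inner, RR_apply, one_mul]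
    rw [h2, hpz, hp0, zero_add]
    exact hz'' _ (R_mem_K a ha s F hFK)
  exact h1

end Pool.Agent.H23.Fac
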