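import Pool.Agent.H23.FacDefs

set_option autoImplicit false

namespace Pool.Agent.H23.Fac

lemma memℓp_two {G : Type} (k : G → ℂ) (hk : Summable (fun s => ‖k s‖ ^ 2)) :
    Memℓp (E := fun _ : G => ℂ) k 2 := by
  apply memℓp_gen
  simpa using hk

lemma summable_shift {G : Type} [Group G] (k : G → ℂ) (hk : Summable (fun s => ‖k s‖ ^ 2)) (t : G) :
    Summable (fun s => ‖k (t⁻¹ * s)‖ ^ 2) :=
  (Equiv.mulLeft t⁻¹).summable_iff.2 hk

lemma norm_shift {G : Type} [Group G] (k : G → ℂ) (hk : Summable (fun s => ‖k s‖ ^ 2)) (t : G) :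
    ‖(⟨fun s => k (t⁻¹ * s), memℓp_two _ (summable_shift k hk t)⟩ : lp (fun _ : G => ℂ) 2)‖ =
    ‖(⟨k, memℓp_two k hk⟩ : lp (fun _ : G => ℂ) 2)‖ := by
  have h1 := lp.norm_rpow_eq_tsum (p := 2) (E := fun _ : G => ℂ) (by norm_num)
    (⟨fun s => k (t⁻¹ * s), memℓp_two _ (summable_shift k hk t)⟩ : lp (fun _ : G => ℂ) 2)
  have h2 := lp.norm_rpow_eq_tsum (p := 2) (E := fun _ : G => ℂ) (by norm_num)
    (⟨k, memℓp_two k hk⟩ : lp (fun _ : G => ℂ) 2)
  have h3 : ∑' s, ‖k (t⁻¹ * s)‖ ^ (2 : ENNReal).toReal = ∑' s, ‖k s‖ ^ (2 : ENNReal).toReal :=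
    (Equiv.mulLeft t⁻¹).tsum_eq (fun s => ‖k s‖ ^ (2 : ENNReal).toReal)
  have h4 : ‖(⟨fun s => k (t⁻¹ * s), memℓp_two _ (summable_shift k hk t)⟩ : lp (fun _ : G => ℂ) 2)‖ ^ (2 : ENNReal).toReal =
      ‖(⟨k, memℓp_two k hk⟩ : lp (fun _ : G => ℂ) 2)‖ ^ (2 : ENNReal).toReal := by
    rw [h1, h2]
    exact h3
  have h5 : (2 : ENNReal).toReal = 2 := by norm_num
  rw [h5] at h4
  norm_num at h4
  exact h4

theorem young {G : Type} [Group G] [Countable G] (z k : G → ℂ) (hz : Summable (fun s => ‖z s‖))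
    (hk : Summable (fun s => ‖k s‖ ^ 2)) : Summable (fun s => ‖conv z k s‖ ^ 2) := by
  let L : G → lp (fun _ : G => ℂ) 2 := fun t =>
    ⟨fun s => k (t⁻¹ * s), memℓp_two _ (summable_shift k hk t)⟩
  let K : lp (fun _ : G => ℂ) 2 := ⟨k, memℓp_two k hk⟩
  have hL : ∀ t, ‖L t‖ = ‖K‖ := fun t => norm_shift k hk t
  have hs : Summable (fun t => z t • L t) := by
    apply Summable.of_norm_bounded (hz.mul_right ‖K‖)
    intro t
    rw [norm_smul, hL t]
  have hS : ∀ s, HasSum (fun t => z t * k (t⁻¹ * s)) ((∑' t, z t • L t : lp (fun _ : G => ℂ) 2) s) := by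
    intro s
    have h1 := hs.hasSum
    have hc : Continuous (fun f : lp (fun _ : G => ℂ) 2 => f s) := by
      have := lp.uniformContinuous_coe (E := fun _ : G => ℂ) (p := 2)
      exact (continuous_apply s).comp this.continuous
    have h2 := h1.map (⟨⟨fun f : lp (fun _ : G => ℂ) 2 => f s, rfl⟩, fun f g => rfl⟩ :
      lp (fun _ : G => ℂ) 2 →+ ℂ) hc
    exact h2
  have h3 : ∀ s, conv z k s = (∑' t, z t • L t : lp (fun _ : G => ℂ) 2) s := fun s => (hS s).tsum_eq
  have h4 := (lp.memℓp (∑' t, z t • L t : lp (fun _ : G => ℂ) 2)).summable (by norm_num)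
  simp_rw [h3]
  simpa using h4

theorem assoc {G : Type} [Group G] (a z k : G → ℂ) (ha : Summable (fun s => ‖a s‖))
    (hz : Summable (fun s => ‖z s‖)) (C : ℝ) (hk : ∀ s, ‖k s‖ ≤ C) :
    conv a (conv z k) = conv (conv a z) k := by
  funext s
  have hF : Summable (fun q : G × G => a q.1 * z q.2 * k (q.2⁻¹ * (q.1⁻¹ * s))) := by
    have h1 : Summable (fun q : G × G => ‖a q.1‖ * ‖z q.2‖ * C) :=
      (ha.mul_of_nonneg hz (fun _ => norm_nonneg _) (fun _ => norm_nonneg _)).mul_right C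
    apply Summable.of_norm_bounded h1
    intro q
    rw [norm_mul, norm_mul]
    exact mul_le_mul_of_nonneg_left (hk _) (by positivity)
  let e : G × G ≃ G × G :=
    { toFun := fun q => (q.1 * q.2, q.1)
      invFun := fun q => (q.2, q.2⁻¹ * q.1)
      left_inv := fun q => by simp
      right_inv := fun q => by simp }
  let H : G × G → ℂ := fun q => a q.2 * z (q.2⁻¹ * q.1) * k (q.1⁻¹ * s)
  have hHe : ∀ q, H (e q) = a q.1 * z q.2 * k (q.2⁻¹ * (q.1⁻¹ * s)) := by
    intro q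
    simp only [H, e, Equiv.coe_fn_mk, mul_inv_rev, inv_mul_cancel_left, mul_assoc]
  have hHs : Summable H := by
    rw [← e.summable_iff]
    refine hF.congr fun q => ?_
    exact (hHe q).symm
  have h1 : conv a (conv z k) s = ∑' q : G × G, a q.1 * z q.2 * k (q.2⁻¹ * (q.1⁻¹ * s)) := by
    rw [hF.tsum_prod]
    unfold conv
    apply tsum_congr
    intro t
    rw [← tsum_mul_left]
    apply tsum_congr
    intro r
    ring
  have h2 : conv (conv a z) k s = ∑' q : G × G, H q := by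
    rw [hHs.tsum_prod]
    unfold conv
    apply tsum_congr
    intro u
    rw [← tsum_mul_right]
  rw [h1, h2, ← e.tsum_eq H]
  exact tsum_congr fun q => (hHe q).symm

end Pool.Agent.H23.Fac
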