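import Pool.Agent.H23.FacI
import Pool.Agent.H23.FacII
import Pool.Agent.H23.FacIII
import Pool.Agent.H23.FacY

set_option autoImplicit false

namespace Pool.Agent.H23.Fac

open Filter Topology

section gen
variable {G : Type} [Group G]

/-- augmentation of a convolution of summable functions -/
lemma tsum_conv (a u : G → ℂ) (ha : Summable (fun s => ‖a s‖)) (hu : Summable (fun s => ‖u s‖)) :
    ∑' s, conv a u s = (∑' s, a s) * ∑' s, u s := by
  have h1 : Summable (fun p : G × G => a p.1 * u p.2) :=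
    summable_mul_of_summable_norm ha hu
  have hE : Summable (fun p : G × G => a p.1 * u (p.1⁻¹ * p.2)) := by
    let e : G × G ≃ G × G :=
      { toFun := fun p => (p.1, p.1⁻¹ * p.2)
        invFun := fun p => (p.1, p.1 * p.2)
        left_inv := fun p => by simp
        right_inv := fun p => by simp }
    exact (e.summable_iff (f := fun p : G × G => a p.1 * u p.2)).mpr h1
  have h2 : ∑' s, conv a u s = ∑' s, ∑' t, a t * u (t⁻¹ * s) := rfl
  rw [h2]
  have hE' : Summable (Function.uncurry (fun s t : G => a t * u (t⁻¹ * s))) := by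
    exact (Equiv.prodComm G G).summable_iff.mpr hE
  rw [← hE'.tsum_comm]
  have h3 : ∀ t, ∑' s, a t * u (t⁻¹ * s) = a t * ∑' s, u s := by
    intro t
    rw [tsum_mul_left]
    congr 1
    exact (Equiv.mulLeft t⁻¹).tsum_eq u
  simp_rw [h3]
  rw [tsum_mul_right]

lemma conv_right (a u : G → ℂ) (g s : G) :
    conv a (fun t => u (t * g)) s = conv a u (s * g) := by
  unfold conv
  apply tsum_congr
  intro t
  simp [mul_assoc]

lemma summable_conv_aux (a u : G → ℂ) (ha : Summable (fun s => ‖a s‖)) (C : ℝ) (hu : ∀ s, ‖u s‖ ≤ C)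
    (s : G) : Summable (fun t => a t * u (t⁻¹ * s)) := by
  apply Summable.of_norm
  refine Summable.of_nonneg_of_le (fun t => norm_nonneg _) (fun t => ?_) (ha.mul_right C)
  rw [norm_mul]
  exact mul_le_mul_of_nonneg_left (hu _) (norm_nonneg _)

lemma conv_sub (a u v : G → ℂ) (ha : Summable (fun s => ‖a s‖)) (C : ℝ) (hu : ∀ s, ‖u s‖ ≤ C)
    (hv : ∀ s, ‖v s‖ ≤ C) (s : G) :
    conv a (fun t => u t - v t) s = conv a u s - conv a v s := by
  unfold conv
  rw [← (summable_conv_aux a u ha C hu s).tsum_sub (summable_conv_aux a v ha C hv s)]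
  apply tsum_congr
  intro t
  ring

lemma conv_smul (a u : G → ℂ) (c : ℂ) (s : G) :
    conv a (fun t => c * u t) s = c * conv a u s := by
  unfold conv
  rw [← tsum_mul_left]
  apply tsum_congr
  intro t
  ring

lemma conv_add (a u v : G → ℂ) (ha : Summable (fun s => ‖a s‖)) (C : ℝ) (hu : ∀ s, ‖u s‖ ≤ C)
    (hv : ∀ s, ‖v s‖ ≤ C) (s : G) :
    conv a (fun t => u t + v t) s = conv a u s + conv a v s := by
  unfold conv
  rw [← (summable_conv_aux a u ha C hu s).tsum_add (summable_conv_aux a v ha C hv s)]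
  apply tsum_congr
  intro t
  ring

lemma bdd_of_summable (u : G → ℂ) (hu : Summable (fun s => ‖u s‖)) (s : G) : ‖u s‖ ≤ ∑' t, ‖u t‖ :=
  hu.le_tsum s (fun _ _ => norm_nonneg _)

lemma bdd_of_summable_sq (u : G → ℂ) (hu : Summable (fun s => ‖u s‖ ^ 2)) (s : G) :
    ‖u s‖ ≤ Real.sqrt (∑' t, ‖u t‖ ^ 2) := by
  apply Real.le_sqrt_of_sq_le
  exact hu.le_tsum s (fun _ _ => by positivity)

lemma sq_of_summable (u : G → ℂ) (hu : Summable (fun s => ‖u s‖)) : Summable (fun s => ‖u s‖ ^ 2) := by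
  refine Summable.of_nonneg_of_le (fun t => by positivity) (fun t => ?_)
    (hu.mul_left (∑' t, ‖u t‖))
  rw [sq]
  exact mul_le_mul_of_nonneg_right (bdd_of_summable u hu t) (norm_nonneg _)

lemma tendsto_of_sq (u : G → ℂ) (hu : Summable (fun s => ‖u s‖ ^ 2)) : Tendsto u cofinite (𝓝 0) := by
  have h1 := hu.tendsto_cofinite_zero
  rw [tendsto_zero_iff_norm_tendsto_zero]
  have h2 : Tendsto (fun s => Real.sqrt (‖u s‖ ^ 2)) cofinite (𝓝 (Real.sqrt 0)) :=
    (Real.continuous_sqrt.tendsto 0).comp h1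
  rw [Real.sqrt_zero] at h2
  refine h2.congr (fun s => ?_)
  exact Real.sqrt_sq (norm_nonneg _)

lemma conv_dl_sub (v : G → ℂ) (k : G → ℂ) (C : ℝ) (hk : ∀ s, ‖k s‖ ≤ C) (x y : G) (s : G) :
    conv (fun t => dl 1 t - (1/2) * dl x t - (1/2) * dl y t) k s
      = k s - (1/2) * k (x⁻¹ * s) - (1/2) * k (y⁻¹ * s) := by
  unfold conv
  have e1 : ∀ (g : G), HasSum (fun t => dl g t * k (t⁻¹ * s)) (k (g⁻¹ * s)) := by
    intro g
    have : k (g⁻¹ * s) = (fun t => dl g t * k (t⁻¹ * s)) g := by simp [dl]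
    rw [this]
    apply hasSum_single
    intro b hb
    simp [dl, hb]
  have h := (((e1 1).sub ((e1 x).mul_left (1/2))).sub ((e1 y).mul_left (1/2)))
  have h2 := h.tsum_eq
  simp only [inv_one, one_mul] at h2
  rw [← h2]
  apply tsum_congr
  intro t
  ring

end gen

theorem no_common_factor (a y1 y2 : FreeGroup ℕ → ℂ) (ha : Summable (fun s => ‖a s‖))
    (h0 : ∑' s, a s = 0)
    (hy1 : Summable (fun s => ‖y1 s‖)) (hy2 : Summable (fun s => ‖y2 s‖))
    (e1 : conv a y1 = fun s => dl 1 s - dl (FreeGroup.of 0) s)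
    (e2 : conv a y2 = fun s => dl 1 s - dl (FreeGroup.of 1) s) : False := by
  obtain ⟨k, hk1, hk2, hk3⟩ := exists_k
  set z : FreeGroup ℕ → ℂ := fun s => (1/2) * y1 s + (1/2) * y2 s with hz
  have hzs : Summable (fun s => ‖z s‖) := by
    refine Summable.of_nonneg_of_le (fun _ => norm_nonneg _) (fun s => ?_) (hy1.add hy2)
    rw [hz]
    simp only
    refine (norm_add_le _ _).trans ?_
    rw [norm_mul, norm_mul]
    have : ‖(1/2 : ℂ)‖ = 1/2 := by norm_num
    rw [this]
    have := norm_nonneg (y1 s)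
    have := norm_nonneg (y2 s)
    linarith
  set u := conv z k with hu
  have hu2 : Summable (fun s => ‖u s‖ ^ 2) := young z k hzs hk2
  set C : ℝ := ∑' s, ‖y1 s‖ + ∑' s, ‖y2 s‖ with hC
  have hb1 : ∀ s, ‖y1 s‖ ≤ C := by
    intro s
    have h1 := bdd_of_summable y1 hy1 s
    have h2 : 0 ≤ ∑' s, ‖y2 s‖ := tsum_nonneg (fun _ => norm_nonneg _)
    linarith
  have hb2 : ∀ s, ‖y2 s‖ ≤ C := by
    intro s
    have h1 := bdd_of_summable y2 hy2 s
    have h2 : 0 ≤ ∑' s, ‖y1 s‖ := tsum_nonneg (fun _ => norm_nonneg _)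
    linarith
  have haz : conv a z = fun s => dl 1 s - (1/2) * dl (FreeGroup.of 0) s - (1/2) * dl (FreeGroup.of 1) s := by
    funext s
    have h1 : conv a z s = conv a (fun t => (1/2) * y1 t) s + conv a (fun t => (1/2) * y2 t) s := by
      apply conv_add a _ _ ha C
      · intro s
        rw [norm_mul]
        have : ‖(1/2 : ℂ)‖ = 1/2 := by norm_num
        rw [this]
        have := hb1 s
        have := norm_nonneg (y1 s)
        linarith
      · intro s
        rw [norm_mul]
        have : ‖(1/2 : ℂ)‖ = 1/2 := by norm_num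
        rw [this]
        have := hb2 s
        have := norm_nonneg (y2 s)
        linarith
    rw [h1, conv_smul, conv_smul, e1, e2]
    ring
  have hau : conv a u = dl 1 := by
    rw [hu, assoc a z k ha hzs 1 hk1, haz]
    funext s
    rw [conv_dl_sub z k 1 hk1]
    exact hk3 s
  -- gradient of u
  have grad : ∀ (g : FreeGroup ℕ) (y : FreeGroup ℕ → ℂ), Summable (fun s => ‖y s‖) →
      conv a y = (fun s => dl 1 s - dl g s) → ∀ t, u t - u (t * g⁻¹) = y t := by
    intro g y hy he t
    set D : ℝ := Real.sqrt (∑' t, ‖u t‖ ^ 2) with hD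
    have hub : ∀ s, ‖u s‖ ≤ D := fun s => bdd_of_summable_sq u hu2 s
    have hyb := bdd_of_summable y hy
    have hsq1 : Summable (fun s => ‖u (s * g⁻¹)‖ ^ 2) :=
      (Equiv.mulRight g⁻¹).summable_iff.mpr hu2
    have hsq2 := sq_of_summable y hy
    have key := inj a u (fun t => (u t - u (t * g⁻¹)) - y t) ha hu2 hau (by
      refine Summable.of_nonneg_of_le (fun _ => by positivity) (fun s => ?_)
        (((hu2.add hsq1).add hsq2).mul_left 3)
      have h1 : ‖(u s - u (s * g⁻¹)) - y s‖ ≤ ‖u s‖ + ‖u (s * g⁻¹)‖ + ‖y s‖ :=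
        (norm_sub_le _ _).trans (add_le_add_left (norm_sub_le _ _) _)
      have h2 := norm_nonneg ((u s - u (s * g⁻¹)) - y s)
      nlinarith [sq_nonneg (‖u s‖ - ‖u (s * g⁻¹)‖), sq_nonneg (‖u s‖ - ‖y s‖),
        sq_nonneg (‖u (s * g⁻¹)‖ - ‖y s‖), norm_nonneg (u s), norm_nonneg (u (s * g⁻¹)), norm_nonneg (y s)]) (by
      funext s
      have hE : ∀ s, ‖u s - u (s * g⁻¹)‖ ≤ 2 * D + ∑' t, ‖y t‖ := by
        intro s
        have h1 := norm_sub_le (u s) (u (s * g⁻¹))
        have h2 := hub s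
        have h3 := hub (s * g⁻¹)
        have h4 : 0 ≤ ∑' t, ‖y t‖ := tsum_nonneg (fun _ => norm_nonneg _)
        linarith
      have hE2 : ∀ s, ‖y s‖ ≤ 2 * D + ∑' t, ‖y t‖ := by
        intro s
        have h1 := hyb s
        have h2 : 0 ≤ D := Real.sqrt_nonneg _
        linarith
      rw [conv_sub a (fun t => u t - u (t * g⁻¹)) y ha _ hE hE2]
      rw [conv_sub a u (fun t => u (t * g⁻¹)) ha D hub (fun s => hub _)]
      rw [conv_right a u g⁻¹ s, hau, he]
      have : dl 1 (s * g⁻¹) = dl g s := by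
        unfold dl
        by_cases h : s = g
        · simp [h]
        · rw [if_neg h, if_neg]
          intro h2
          apply h
          rw [mul_inv_eq_one] at h2
          exact h2
      rw [this]
      simp)
    have := congrFun key t
    simp only [Pi.zero_apply] at this
    exact sub_eq_zero.mp this
  have g1 := grad (FreeGroup.of 0) y1 hy1 e1
  have g2 := grad (FreeGroup.of 1) y2 hy2 e2
  have hus : Summable (fun t => ‖u t‖) := by
    apply iso u (tendsto_of_sq u hu2)
    · simp_rw [g1]; exact hy1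
    · simp_rw [g2]; exact hy2
  have h1 := tsum_conv a u ha hus
  rw [h0, zero_mul, hau] at h1
  have h2 : ∑' s : FreeGroup ℕ, dl (1 : FreeGroup ℕ) s = 1 := by
    rw [tsum_eq_single 1]
    · simp [dl]
    · intro b hb; simp [dl, hb]
  rw [h2] at h1
  exact one_ne_zero h1

end Pool.Agent.H23.Fac
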