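import Pool.Agent.H23.FacMain

set_option autoImplicit false

namespace Pool.Agent.H23.Fac

open Filter Topology

section ext
variable {H G : Type} [Group H] [Group G] (φ : H →* G) (hφ : Function.Injective φ)

/-- extension by zero -/
noncomputable def ex (f : H → ℂ) : G → ℂ := Function.extend φ f 0

include hφ in
lemma ex_apply (f : H → ℂ) (h : H) : ex φ f (φ h) = f h := hφ.extend_apply f 0 h

lemma ex_not (f : H → ℂ) (g : G) (hg : g ∉ Set.range φ) : ex φ f g = 0 := by
  unfold ex
  rw [Function.extend_apply' _ _ _ (by simpa [Set.mem_range] using hg)]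
  rfl

include hφ in
lemma ex_summable (f : H → ℂ) (hf : Summable (fun s => ‖f s‖)) : Summable (fun s => ‖ex φ f s‖) := by
  rw [← hφ.summable_iff (f := fun s => ‖ex φ f s‖)]
  · refine hf.congr (fun s => ?_)
    simp [ex_apply φ hφ]
  · intro g hg
    rw [ex_not φ f g hg]; simp

include hφ in
lemma ex_tsum (f : H → ℂ) : ∑' s, ex φ f s = ∑' s, f s := by
  rw [← hφ.tsum_eq (f := fun s => ex φ f s)]
  · apply tsum_congr
    intro s
    exact ex_apply φ hφ f s
  · intro g hg
    by_contra hc
    exact hg (ex_not φ f g hc)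

include hφ in
lemma ex_conv (a y : H → ℂ) : conv (ex φ a) (ex φ y) = ex φ (conv a y) := by
  funext g
  by_cases hg : g ∈ Set.range φ
  · obtain ⟨h, rfl⟩ := hg
    rw [ex_apply φ hφ]
    unfold conv
    rw [← hφ.tsum_eq (f := fun t => ex φ a t * ex φ y (t⁻¹ * φ h))]
    · apply tsum_congr
      intro t
      have : (φ t)⁻¹ * φ h = φ (t⁻¹ * h) := by simp
      rw [this, ex_apply φ hφ, ex_apply φ hφ]
    · intro t ht
      by_contra hc
      apply ht
      simp only
      rw [ex_not φ a t hc, zero_mul]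
  · rw [ex_not φ _ g hg]
    unfold conv
    have : ∀ t, ex φ a t * ex φ y (t⁻¹ * g) = 0 := by
      intro t
      by_cases ht : t ∈ Set.range φ
      · obtain ⟨s, rfl⟩ := ht
        rw [ex_not φ y]
        · ring
        · rintro ⟨r, hr⟩
          apply hg
          refine ⟨s * r, ?_⟩
          rw [map_mul, hr]
          group
      · rw [ex_not φ a t ht, zero_mul]
    simp_rw [this]
    exact tsum_zero

end ext

theorem no_common_factor_two (a y1 y2 : FreeGroup (Fin 2) → ℂ) (ha : Summable (fun s => ‖a s‖))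
    (h0 : ∑' s, a s = 0)
    (hy1 : Summable (fun s => ‖y1 s‖)) (hy2 : Summable (fun s => ‖y2 s‖))
    (e1 : conv a y1 = fun s => dl 1 s - dl (FreeGroup.of 0) s)
    (e2 : conv a y2 = fun s => dl 1 s - dl (FreeGroup.of 1) s) : False := by
  set φ : FreeGroup (Fin 2) →* FreeGroup ℕ := FreeGroup.map (fun i : Fin 2 => (i : ℕ)) with hφd
  have hφ : Function.Injective φ := FreeGroup.map_injective (Fin.val_injective)
  have hd : ∀ g : FreeGroup (Fin 2), ex φ (fun s => dl 1 s - dl g s) = fun s => dl 1 s - dl (φ g) s := by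
    intro g
    funext s
    by_cases hs : s ∈ Set.range φ
    · obtain ⟨h, rfl⟩ := hs
      rw [ex_apply φ hφ]
      have h1 : (dl (1 : FreeGroup ℕ) (φ h)) = dl 1 h := by
        unfold dl
        have : φ h = 1 ↔ h = 1 := by rw [← map_one φ]; exact hφ.eq_iff
        simp [this]
      have h2 : (dl (φ g) (φ h)) = dl g h := by
        unfold dl
        have : φ h = φ g ↔ h = g := hφ.eq_iff
        simp [this]
      rw [h1, h2]
    · rw [ex_not φ _ s hs]
      have h1 : dl (1 : FreeGroup ℕ) s = 0 := by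
        unfold dl
        rw [if_neg]
        rintro rfl
        exact hs ⟨1, map_one φ⟩
      have h2 : dl (φ g) s = 0 := by
        unfold dl
        rw [if_neg]
        rintro rfl
        exact hs ⟨g, rfl⟩
      rw [h1, h2, sub_zero]
  have f0 : φ (FreeGroup.of 0) = FreeGroup.of 0 := by simp [hφd]
  have f1 : φ (FreeGroup.of 1) = FreeGroup.of 1 := by simp [hφd]
  apply no_common_factor (ex φ a) (ex φ y1) (ex φ y2) (ex_summable φ hφ a ha)
    (by rw [ex_tsum φ hφ, h0]) (ex_summable φ hφ y1 hy1) (ex_summable φ hφ y2 hy2)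
  · rw [ex_conv φ hφ, e1, hd, f0]
  · rw [ex_conv φ hφ, e2, hd, f1]

end Pool.Agent.H23.Fac
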