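import Mathlib

set_option autoImplicit false

open Subgroup
open scoped commutatorElement

namespace Pool.Agent.H23.Fit

abbrev GC := ∀ (G : Type) [Group G], Prop

def Abn {G : Type} [Group G] (A : Subgroup G) : Prop :=
  ∀ g : G, g ∈ A ⊔ A.map (MulAut.conj g).toMonoidHom

structure FC (F : GC) : Prop where
  fs : ∀ (G : Type) [Group G], F G → Finite G ∧ Group.IsSolvable G
  iso : ∀ (G H : Type) [Group G] [Group H], Nonempty (G ≃* H) → F G → F H
  nor : ∀ (G : Type) [Group G] (N : Subgroup G), N.Normal → F G → F ↥N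
  sup : ∀ (G : Type) [Group G] [Finite G] (N M : Subgroup G), N.Normal → M.Normal →
          F ↥N → F ↥M → F ↥(N ⊔ M)
  af : ∀ (G : Type) [Group G] [Finite G], Group.IsSolvable G → ∀ A B : Subgroup G, Abn A → Abn B →
        F ↥A → F ↥B → (∀ g : G, ∃ a ∈ A, ∃ b ∈ B, a * b = g) → F G

variable {F : GC}

lemma FC.fin (hF : FC F) {G : Type} [Group G] (h : F G) : Finite G := (hF.fs G h).1
lemma FC.sol (hF : FC F) {G : Type} [Group G] (h : F G) : Group.IsSolvable G := (hF.fs G h).2

lemma FC.equiv (hF : FC F) {G H : Type} [Group G] [Group H] (e : G ≃* H) (h : F G) : F H :=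
  hF.iso G H ⟨e⟩ h

lemma FC.top (hF : FC F) {G : Type} [Group G] [Finite G] {N M : Subgroup G} (hN : N.Normal)
    (hM : M.Normal) (h : N ⊔ M = ⊤) (h1 : F N) (h2 : F M) : F G := by
  have := hF.sup G N M hN hM h1 h2
  rw [h] at this
  exact hF.equiv Subgroup.topEquiv this

lemma FC.inj (hF : FC F) {G H : Type} [Group G] [Group H] (f : H →* G)
    (hf : Function.Injective f) (hn : f.range.Normal) (h : F G) : F H :=
  hF.equiv (MonoidHom.ofInjective hf).symm (hF.nor G _ hn h)

lemma FC.triv (hF : FC F) {G H : Type} [Group G] [Group H] [Subsingleton H] (h : F G) : F H := by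
  refine hF.inj (1 : H →* G) (fun a b _ => Subsingleton.elim a b) ?_ h
  have : (1 : H →* G).range = ⊥ := by
    ext x; simp [MonoidHom.mem_range, eq_comm]
  rw [this]; infer_instance

lemma FC.sSup (hF : FC F) {G : Type} [Group G] [Finite G] (hb : F (⊥ : Subgroup G))
    (S : Set (Subgroup G)) (hS : ∀ N ∈ S, N.Normal ∧ F N) :
    (sSup S).Normal ∧ F ↥(sSup S) := by
  classical
  have hfin : S.Finite := Set.toFinite S
  induction S, hfin using Set.Finite.induction_on with
  | empty => rw [sSup_empty]; exact ⟨inferInstance, hb⟩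
  | insert _ _ ih =>
    rename_i a s _ _
    rw [sSup_insert]
    obtain ⟨h1, h2⟩ := ih (fun N hN => hS N (Set.mem_insert_of_mem _ hN))
    obtain ⟨h3, h4⟩ := hS a (Set.mem_insert _ _)
    exact ⟨Subgroup.sup_normal _ _, hF.sup G _ _ h3 h1 h4 h2⟩

lemma inl_range_normal {X Y : Type} [Group X] [Group Y] :
    (MonoidHom.inl X Y).range.Normal := by
  refine ⟨?_⟩
  rintro _ ⟨x, rfl⟩ ⟨a, b⟩
  exact ⟨a * x * a⁻¹, by simp⟩

lemma inr_range_normal {X Y : Type} [Group X] [Group Y] :
    (MonoidHom.inr X Y).range.Normal := by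
  refine ⟨?_⟩
  rintro _ ⟨x, rfl⟩ ⟨a, b⟩
  exact ⟨b * x * b⁻¹, by simp⟩

lemma FC.prod (hF : FC F) {X Y : Type} [Group X] [Group Y] (hX : F X) (hY : F Y) :
    F (X × Y) := by
  haveI := hF.fin hX
  haveI := hF.fin hY
  refine hF.top (N := (MonoidHom.inl X Y).range) (M := (MonoidHom.inr X Y).range)
    inl_range_normal inr_range_normal ?_
    (hF.equiv (MonoidHom.ofInjective (fun a b h => congrArg Prod.fst h)) hX)
    (hF.equiv (MonoidHom.ofInjective (fun a b h => congrArg Prod.snd h)) hY)
  rw [eq_top_iff]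
  rintro ⟨a, b⟩ _
  have : ((a, b) : X × Y) = (a, 1) * (1, b) := by simp
  rw [this]
  exact mul_mem (Subgroup.mem_sup_left ⟨a, rfl⟩) (Subgroup.mem_sup_right ⟨b, rfl⟩)

/-- fibre product -/
def fib {X Y A : Type} [Group X] [Group Y] [Group A] (f : X →* A) (g : Y →* A) :
    Subgroup (X × Y) where
  carrier := {p | f p.1 = g p.2}
  mul_mem' := by
    intro a b ha hb
    show f (a.1 * b.1) = g (a.2 * b.2)
    rw [map_mul, map_mul, show f a.1 = g a.2 from ha, show f b.1 = g b.2 from hb]
  one_mem' := by show f 1 = g 1; rw [map_one, map_one]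
  inv_mem' := by
    intro a ha
    show f a.1⁻¹ = g a.2⁻¹
    rw [map_inv, map_inv, show f a.1 = g a.2 from ha]

lemma mem_fib {X Y A : Type} [Group X] [Group Y] [Group A] {f : X →* A} {g : Y →* A}
    {p : X × Y} : p ∈ fib f g ↔ f p.1 = g p.2 := Iff.rfl

lemma fib_normal {X Y A : Type} [Group X] [Group Y] [Group A] (hA : ∀ a b : A, a * b = b * a)
    (f : X →* A) (g : Y →* A) : (fib f g).Normal := by
  refine ⟨fun p hp q => ?_⟩
  rw [mem_fib] at hp ⊢
  show f (q.1 * p.1 * q.1⁻¹) = g (q.2 * p.2 * q.2⁻¹)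
  rw [map_mul, map_mul, map_mul, map_mul, map_inv, map_inv, hA (f q.1), hA (g q.2),
    mul_inv_cancel_right, mul_inv_cancel_right, hp]

lemma FC.fib (hF : FC F) {X Y A : Type} [Group X] [Group Y] [Group A]
    (hA : ∀ a b : A, a * b = b * a) (f : X →* A) (g : Y →* A) (hX : F X) (hY : F Y) :
    F (fib f g) := hF.nor _ _ (fib_normal hA f g) (hF.prod hX hY)

lemma FC.of_fib (hF : FC F) {X Y A : Type} [Group X] [Group Y] [Finite Y] [Group A]
    (hA : ∀ a b : A, a * b = b * a) (f : X →* A) (g : Y →* A) (h : F (Fit.fib f g)) (hX : F X)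
    (hs : ∀ y, ∃ x, f x = g y) : F Y := by
  haveI := hF.fin hX
  have h1 : F (X × Y) := by
    refine hF.top (N := Fit.fib f g) (M := (MonoidHom.inl X Y).range) (fib_normal hA f g)
      inl_range_normal ?_ h
      (hF.equiv (MonoidHom.ofInjective (fun a b h => congrArg Prod.fst h)) hX)
    rw [eq_top_iff]
    rintro ⟨a, b⟩ _
    obtain ⟨x, hx⟩ := hs b
    have : ((a, b) : X × Y) = (x, b) * (x⁻¹ * a, 1) := by simp
    rw [this]
    exact mul_mem (Subgroup.mem_sup_left hx) (Subgroup.mem_sup_right ⟨x⁻¹ * a, rfl⟩)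
  exact hF.inj (MonoidHom.inr X Y) (fun a b h => congrArg Prod.snd h) inr_range_normal h1

/-! abnormal subgroups -/

lemma abn_comap {G X : Type} [Group G] [Group X] (f : G →* X) (hf : Function.Surjective f)
    {Y : Subgroup X} (hY : Abn Y) : Abn (Y.comap f) := by
  intro g
  set L := Y.comap f ⊔ (Y.comap f).map (MulAut.conj g).toMonoidHom with hL
  have h1 : Y ⊔ Y.map (MulAut.conj (f g)).toMonoidHom ≤ L.map f := by
    apply sup_le
    · intro y hy
      obtain ⟨x, rfl⟩ := hf y
      exact ⟨x, Subgroup.mem_sup_left hy, rfl⟩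
    · rintro _ ⟨y, hy, rfl⟩
      obtain ⟨x, rfl⟩ := hf y
      refine ⟨g * x * g⁻¹, Subgroup.mem_sup_right ⟨x, hy, rfl⟩, ?_⟩
      simp
  obtain ⟨l, hl, hlg⟩ := h1 (hY (f g))
  have h2 : l⁻¹ * g ∈ L := by
    apply Subgroup.mem_sup_left
    show f (l⁻¹ * g) ∈ Y
    rw [map_mul, map_inv, hlg, inv_mul_cancel]; exact Y.one_mem
  have := mul_mem hl h2
  rwa [mul_inv_cancel_left] at this

lemma abn_sylow {p : ℕ} [Fact p.Prime] {G : Type} [Group G] [Finite G] (P : Sylow p G)
    {H : Subgroup G} (hH : normalizer (P : Subgroup G) ≤ H) : Abn H := by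
  intro g
  set L := H ⊔ H.map (MulAut.conj g).toMonoidHom with hL
  have hPH : (P : Subgroup G) ≤ H := le_normalizer.trans hH
  have h1 : (P : Subgroup G) ≤ L := hPH.trans le_sup_left
  have h2 : ((g • P : Sylow p G) : Subgroup G) ≤ L := by
    rw [Sylow.coe_subgroup_smul]
    refine le_trans ?_ (le_sup_right : _ ≤ H ⊔ H.map (MulAut.conj g).toMonoidHom)
    rintro _ ⟨x, hx, rfl⟩
    exact ⟨x, hPH hx, rfl⟩
  obtain ⟨l, hl⟩ := MulAction.exists_smul_eq L (P.subtype h1) ((g • P).subtype h2)
  have h3 : ((l : G) • P) = g • P := by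
    rw [Sylow.smul_subtype h1 l] at hl
    exact Sylow.subtype_injective hl
  have h4 : (l : G)⁻¹ * g ∈ normalizer (P : Subgroup G) := by
    have h5 : ((l : G)⁻¹ * g) • P = P := by rw [mul_smul, ← h3, inv_smul_smul]
    exact Sylow.smul_eq_iff_mem_normalizer.mp h5
  have h5 : (l : G)⁻¹ * g ∈ L := Subgroup.mem_sup_left (hH h4)
  have := mul_mem l.2 h5
  rwa [mul_inv_cancel_left] at this

lemma abn_coatom {G : Type} [Group G] {A : Subgroup G} (hA : IsCoatom A) (hn : ¬ A.Normal) :
    Abn A := by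
  intro g
  have hco : IsCoatom (A.map (MulAut.conj g).toMonoidHom) :=
    ((MulAut.conj g).mapSubgroup.isCoatom_iff A).mpr hA
  by_cases h : A.map (MulAut.conj g).toMonoidHom ≤ A
  · have h1 : A.map (MulAut.conj g).toMonoidHom = A := by
      rcases hco.le_iff.mp h with h2 | h2
      · exact absurd h2 hA.1
      · exact h2.symm
    have h2 : g ∈ normalizer (A : Set G) := by
      rw [mem_normalizer_iff]
      intro x
      constructor
      · intro hx
        have : g * x * g⁻¹ ∈ A.map (MulAut.conj g).toMonoidHom := ⟨x, hx, rfl⟩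
        rwa [h1] at this
      · intro hx
        rw [← h1] at hx
        obtain ⟨y, hy, hyx⟩ := hx
        have : y = x := (MulAut.conj g).injective hyx
        rwa [← this]
    have h3 : normalizer (A : Set G) = A := by
      have h5 : A ≤ normalizer (A : Set G) := le_normalizer
      rcases hA.le_iff.mp h5 with h4 | h4
      · exfalso
        apply hn
        refine ⟨fun n hn' g' => ?_⟩
        have h6 : g' ∈ normalizer (A : Set G) := by rw [h4]; trivial
        exact (mem_normalizer_iff.mp h6 n).mp hn'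
      · exact h4
    rw [h3] at h2
    exact Subgroup.mem_sup_left h2
  · have h7 : A < A ⊔ A.map (MulAut.conj g).toMonoidHom :=
      lt_of_le_of_ne le_sup_left (fun h' => h (le_of_le_of_eq le_sup_right h'.symm))
    have h8 : A ⊔ A.map (MulAut.conj g).toMonoidHom = ⊤ := hA.2 _ h7
    rw [h8]; exact mem_top g

/-! primes -/

lemma exists_normal_prime_index {G : Type} [Group G] [Finite G] (hs : Group.IsSolvable G)
    (hne : Nontrivial G) : ∃ M : Subgroup G, M.Normal ∧ IsCoatom M ∧ (M.index).Prime := by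
  haveI := hs
  have h1 : commutator G ≠ ⊤ := by
    intro h
    exact (Group.IsSolvable.commutator_lt_top_of_nontrivial G).ne h
  obtain ⟨M, hM, hle⟩ := (eq_top_or_exists_le_coatom (commutator G)).resolve_left h1
  have hMn : M.Normal := ⟨fun x hx g => by
    have : ⁅g, x⁆ ∈ M := hle (Subgroup.commutator_mem_commutator (mem_top g) (mem_top x))
    rw [commutatorElement_def] at this
    have := mul_mem this hx
    rwa [inv_mul_cancel_right] at this⟩
  refine ⟨M, hMn, hM, ?_⟩
  have hcomm : ∀ a b : G ⧸ M, a * b = b * a := by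
    intro a b
    obtain ⟨x, rfl⟩ := QuotientGroup.mk_surjective a
    obtain ⟨y, rfl⟩ := QuotientGroup.mk_surjective b
    rw [← QuotientGroup.mk_mul, ← QuotientGroup.mk_mul, QuotientGroup.eq]
    have : ⁅y⁻¹, x⁻¹⁆ ∈ M := hle (Subgroup.commutator_mem_commutator (mem_top _) (mem_top _))
    rw [commutatorElement_def] at this
    convert this using 1
    group
  haveI : Nontrivial (G ⧸ M) := by
    rw [← Finite.one_lt_card_iff_nontrivial, ← Subgroup.index_eq_card]
    exact M.one_lt_index_of_ne_top hM.1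
  letI : CommGroup (G ⧸ M) := { (inferInstance : Group (G ⧸ M)) with mul_comm := hcomm }
  haveI : IsSimpleGroup (G ⧸ M) := ⟨fun H _ => by
    have h2 : M ≤ H.comap (QuotientGroup.mk' M) := by
      intro x hx
      show QuotientGroup.mk' M x ∈ H
      rw [QuotientGroup.mk'_apply, (QuotientGroup.eq_one_iff x).mpr hx]; exact H.one_mem
    rcases hM.le_iff.mp h2 with h3 | h3
    · right
      rw [eq_top_iff]
      intro y _
      obtain ⟨x, rfl⟩ := QuotientGroup.mk'_surjective M y
      have : x ∈ H.comap (QuotientGroup.mk' M) := by rw [h3]; trivial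
      exact this
    · left
      rw [eq_bot_iff]
      intro y hy
      obtain ⟨x, rfl⟩ := QuotientGroup.mk'_surjective M y
      have : x ∈ H.comap (QuotientGroup.mk' M) := hy
      rw [h3] at this
      rw [mem_bot, QuotientGroup.mk'_apply, (QuotientGroup.eq_one_iff x).mpr this]⟩
  rw [Subgroup.index_eq_card]
  exact IsSimpleGroup.prime_card

lemma FC.char (hF : FC F) {p : ℕ} (hp : p.Prime) (n : ℕ) : ∀ (G : Type) [Group G],
    Nat.card G = n → F G → p ∣ Nat.card G → ∀ (C : Type) [Group C], Nat.card C = p → F C := by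
  induction n using Nat.strong_induction_on with
  | _ n ih =>
  intro G _ hn hG hd C _ hC
  haveI := hF.fin hG
  haveI : Fact p.Prime := ⟨hp⟩
  haveI : Finite C := Nat.finite_of_card_ne_zero (by rw [hC]; exact hp.ne_zero)
  have hnt : Nontrivial G := by
    rw [← Finite.one_lt_card_iff_nontrivial]
    exact lt_of_lt_of_le hp.one_lt (Nat.le_of_dvd Nat.card_pos hd)
  obtain ⟨M, hMn, hM, hidx⟩ := exists_normal_prime_index (hF.sol hG) hnt
  by_cases hdM : p ∣ Nat.card M
  · refine ih (Nat.card M) ?_ M rfl (hF.nor G M hMn hG) hdM C hC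
    rw [← hn, ← Subgroup.card_mul_index M]
    have h1 := hidx.one_lt
    have h2 : 0 < Nat.card M := Nat.card_pos
    nlinarith
  · have hpi : M.index = p := by
      rw [← Subgroup.card_mul_index M, hp.dvd_mul] at hd
      exact ((Nat.prime_dvd_prime_iff_eq hp hidx).mp (hd.resolve_left hdM)).symm
    have e : (G ⧸ M) ≃* C := mulEquivOfPrimeCardEq (by rw [← Subgroup.index_eq_card, hpi]) hC
    let χ : G →* C := e.toMonoidHom.comp (QuotientGroup.mk' M)
    have hχ : Function.Surjective χ := e.surjective.comp (QuotientGroup.mk'_surjective M)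
    have hCc : ∀ a b : C, a * b = b * a := by
      haveI : IsCyclic C := isCyclic_of_prime_card hC
      letI : CommGroup C := IsCyclic.commGroup
      exact fun a b => mul_comm a b
    let γ : G →* G × C := (MonoidHom.id G).prod χ
    have hγ : Function.Injective γ := fun a b h => congrArg Prod.fst h
    have hγn : γ.range.Normal := by
      refine ⟨?_⟩
      rintro _ ⟨x, rfl⟩ ⟨a, b⟩
      refine ⟨a * x * a⁻¹, ?_⟩
      show (a * x * a⁻¹, χ (a * x * a⁻¹)) = (a * x * a⁻¹, b * χ x * b⁻¹)
      rw [map_mul, map_mul, map_inv, hCc (χ a), hCc b, mul_inv_cancel_right, mul_inv_cancel_right]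
    have h1 : F (G × C) := by
      refine hF.top (N := γ.range) (M := (MonoidHom.inl G C).range) hγn inl_range_normal ?_
        (hF.equiv (MonoidHom.ofInjective hγ) hG)
        (hF.equiv (MonoidHom.ofInjective (fun a b h => congrArg Prod.fst h)) hG)
      rw [eq_top_iff]
      rintro ⟨a, b⟩ _
      obtain ⟨x, hx⟩ := hχ b
      have : ((a, b) : G × C) = γ x * (x⁻¹ * a, 1) := by
        show (a, b) = (x * (x⁻¹ * a), χ x * 1)
        rw [hx]; simp
      rw [this]
      exact mul_mem (Subgroup.mem_sup_left ⟨x, rfl⟩) (Subgroup.mem_sup_right ⟨x⁻¹ * a, rfl⟩)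
    exact hF.inj (MonoidHom.inr G C) (fun a b h => congrArg Prod.snd h) inr_range_normal h1

end Pool.Agent.H23.Fit
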