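import Pool.Agent.H23.Fit1

set_option autoImplicit false

open Subgroup

namespace Pool.Agent.H23.Fit

variable {F : GC}

lemma pgroup_coatom_normal {p : ℕ} [Fact p.Prime] {G : Type} [Group G] [Finite G]
    (hp : IsPGroup p G) {M : Subgroup G} (hM : IsCoatom M) : M.Normal := by
  have h0 : Group.IsNilpotent G := hp.isNilpotent
  have h1 : Group.IsNilpotent G ↔ ∀ H : Subgroup G, IsCoatom H → H.Normal :=
    (Group.isNilpotent_of_finite_tfae (G := G)).out 0 2
  exact h1.mp h0 M hM

lemma card_lt_of_coatom {G : Type} [Group G] [Finite G] {M : Subgroup G} (hM : M ≠ ⊤) :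
    Nat.card M < Nat.card G := by
  have h1 := Subgroup.card_mul_index M
  have h2 := M.one_lt_index_of_ne_top hM
  have h3 : 0 < Nat.card M := Nat.card_pos
  nlinarith

lemma FC.psub (hF : FC F) {p : ℕ} [Fact p.Prime] (n : ℕ) : ∀ (G : Type) [Group G],
    Nat.card G = n → F G → IsPGroup p G → ∀ H : Subgroup G, F H := by
  induction n using Nat.strong_induction_on with
  | _ n ih =>
  intro G _ hn hG hp H
  haveI := hF.fin hG
  rcases eq_top_or_exists_le_coatom H with rfl | ⟨M, hM, hle⟩
  · exact hF.equiv Subgroup.topEquiv.symm hG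
  · have hMn := pgroup_coatom_normal hp hM
    have h1 := ih (Nat.card M) (by rw [← hn]; exact card_lt_of_coatom hM.1) M rfl
      (hF.nor G M hMn hG) (hp.to_subgroup M) (H.subgroupOf M)
    exact hF.equiv (Subgroup.subgroupOfEquivOfLe hle) h1

/-- the subgroup generated by the elements of order `p` -/
def Om (p : ℕ) (G : Type) [Group G] : Subgroup G := closure {x : G | x ^ p = 1}

lemma FC.omega (hF : FC F) {p : ℕ} [hp' : Fact p.Prime]
    (hc : ∀ (C : Type) [Group C], Nat.card C = p → F C) (n : ℕ) : ∀ (G : Type) [Group G] [Finite G],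
    Nat.card G = n → IsPGroup p G → F (Om p G) := by
  classical
  have hp0 := hp'.out
  have hcz : F (Multiplicative (ZMod p)) := hc _ (by
    rw [Nat.card_congr Multiplicative.toAdd, Nat.card_zmod])
  induction n using Nat.strong_induction_on with
  | _ n ih =>
  intro G _ _ hn hp
  by_cases h1 : Nat.card G = 1
  · haveI : Subsingleton G := (Nat.card_eq_one_iff_unique.mp h1).1
    exact hF.triv hcz
  by_cases h2 : Nat.card G = p
  · exact hF.psub n G hn (hc G h2) hp _
  let S : Set (Subgroup G) := {K | ∃ M : Subgroup G, IsCoatom M ∧ K = closure {x | x ∈ M ∧ x ^ p = 1}}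
  have hOm : Om p G = SupSet.sSup S := by
    apply le_antisymm
    · rw [Om, closure_le]
      intro x hx
      have hx' : x ^ p = 1 := hx
      have hzne : Subgroup.zpowers x ≠ ⊤ := by
        intro h
        have h3 : Nat.card G = orderOf x := by
          rw [← Nat.card_zpowers, h, Subgroup.card_top]
        have h4 : orderOf x ∣ p := orderOf_dvd_of_pow_eq_one hx'
        rcases (Nat.dvd_prime hp0).mp h4 with h5 | h5
        · exact h1 (h3.trans h5)
        · exact h2 (h3.trans h5)
      obtain ⟨M, hM, hle⟩ := (eq_top_or_exists_le_coatom _).resolve_left hzne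
      have hxM : x ∈ M := hle (Subgroup.mem_zpowers x)
      exact (le_sSup (show closure {x | x ∈ M ∧ x ^ p = 1} ∈ S from ⟨M, hM, rfl⟩))
        (Subgroup.subset_closure ⟨hxM, hx'⟩)
    · apply sSup_le
      rintro _ ⟨M, hM, rfl⟩
      exact closure_mono (fun x hx => hx.2)
  rw [hOm]
  refine (hF.sSup (hF.triv hcz) S ?_).2
  rintro _ ⟨M, hM, rfl⟩
  have hMn := pgroup_coatom_normal hp hM
  constructor
  · refine ⟨fun x hx g => ?_⟩
    induction hx using closure_induction with
    | mem x hx =>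
      apply Subgroup.subset_closure
      refine ⟨hMn.conj_mem x hx.1 g, ?_⟩
      rw [conj_pow, hx.2]; simp
    | one => rw [mul_one, mul_inv_cancel]; exact one_mem _
    | mul x y _ _ hx hy =>
      have : g * (x * y) * g⁻¹ = (g * x * g⁻¹) * (g * y * g⁻¹) := by group
      rw [this]; exact mul_mem hx hy
    | inv x _ hx =>
      have : g * x⁻¹ * g⁻¹ = (g * x * g⁻¹)⁻¹ := by group
      rw [this]; exact inv_mem hx
  · have h3 := ih (Nat.card M) (by rw [← hn]; exact card_lt_of_coatom hM.1) M rfl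
      (hp.to_subgroup M)
    have h4 : (Om p M).map M.subtype = closure {x | x ∈ M ∧ x ^ p = 1} := by
      rw [Om, MonoidHom.map_closure]
      congr 1
      ext x
      constructor
      · rintro ⟨y, hy, rfl⟩
        refine ⟨y.2, ?_⟩
        have := congrArg Subtype.val (show y ^ p = 1 from hy)
        simpa using this
      · rintro ⟨h5, h6⟩
        exact ⟨⟨x, h5⟩, Subtype.ext h6, rfl⟩
    rw [← h4]
    exact hF.equiv ((Om p M).equivMapOfInjective M.subtype M.subtype_injective) h3

lemma FC.pi (hF : FC F) {D : Type} [Group D] (hD : F D) (ι : Type) [Finite ι] : F (ι → D) := by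
  refine Finite.induction_empty_option (P := fun ι => F (ι → D)) ?_ ?_ ?_ ι
  · intro α β e h
    exact hF.equiv { toFun := fun f b => f (e.symm b)
                     invFun := fun f a => f (e a)
                     left_inv := fun f => by funext a; simp
                     right_inv := fun f => by funext a; simp
                     map_mul' := fun f g => rfl } h
  · exact hF.triv hD
  · intro α _ h
    exact hF.equiv { toFun := fun p o => o.elim p.1 p.2
                     invFun := fun f => (f none, fun a => f (some a))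
                     left_inv := fun f => rfl
                     right_inv := fun f => by funext o; cases o <;> rfl
                     map_mul' := fun f g => by funext o; cases o <;> rfl } (hF.prod hD h)

open RegularWreathProduct in
lemma FC.wreath (hF : FC F) {p : ℕ} [hp' : Fact p.Prime]
    (hc : ∀ (C : Type) [Group C], Nat.card C = p → F C) {D Q : Type} [Group D] [Group Q]
    (hD : F D) (hDp : IsPGroup p D) (hQ : Nat.card Q = p) :
    F (D ≀ᵣ Q) ∧ IsPGroup p (D ≀ᵣ Q) := by
  haveI := hF.fin hD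
  haveI : Finite Q := Nat.finite_of_card_ne_zero (by rw [hQ]; exact hp'.out.ne_zero)
  obtain ⟨k, hk⟩ := IsPGroup.iff_card.mp hDp
  have hW : IsPGroup p (D ≀ᵣ Q) := IsPGroup.iff_card.mpr ⟨k * p + 1, by
    rw [RegularWreathProduct.card, hk, hQ, pow_succ, pow_mul]⟩
  refine ⟨?_, hW⟩
  let j : (Q → D) →* D ≀ᵣ Q :=
    { toFun := fun f => ⟨f, 1⟩
      map_one' := rfl
      map_mul' := by
        intro a b
        apply RegularWreathProduct.ext
        · funext x
          simp [RegularWreathProduct.mul_left]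
        · simp [RegularWreathProduct.mul_right] }
  have hj : Function.Injective j := fun a b h => congrArg RegularWreathProduct.left h
  have hjr : ∀ w, w ∈ j.range ↔ w.right = 1 := by
    intro w
    constructor
    · rintro ⟨f, rfl⟩; rfl
    · intro h
      exact ⟨w.left, RegularWreathProduct.ext rfl h.symm⟩
  have hjn : j.range.Normal := by
    refine ⟨fun w hw g => ?_⟩
    rw [hjr] at hw ⊢
    rw [RegularWreathProduct.mul_right, RegularWreathProduct.mul_right, hw, mul_one,
      RegularWreathProduct.inv_right, mul_inv_cancel]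
  have hOn : (Om p (D ≀ᵣ Q)).Normal := by
    refine ⟨fun x hx g => ?_⟩
    unfold Om at hx ⊢
    induction hx using closure_induction with
    | mem x hx =>
      apply Subgroup.subset_closure
      show (g * x * g⁻¹) ^ p = 1
      rw [conj_pow, show x ^ p = 1 from hx]; simp
    | one => rw [mul_one, mul_inv_cancel]; exact one_mem _
    | mul x y _ _ hx hy =>
      have : g * (x * y) * g⁻¹ = (g * x * g⁻¹) * (g * y * g⁻¹) := by group
      rw [this]; exact mul_mem hx hy
    | inv x _ hx =>
      have : g * x⁻¹ * g⁻¹ = (g * x * g⁻¹)⁻¹ := by group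
      rw [this]; exact inv_mem hx
  refine hF.top (N := j.range) (M := Om p (D ≀ᵣ Q)) hjn hOn ?_
    (hF.equiv (MonoidHom.ofInjective hj) (hF.pi hD Q)) (hF.omega hc _ _ rfl hW)
  rw [eq_top_iff]
  intro w _
  have h1 : w * (RegularWreathProduct.inl w.right)⁻¹ ∈ j.range := by
    rw [hjr, RegularWreathProduct.mul_right, RegularWreathProduct.inv_right,
      RegularWreathProduct.right_inl, mul_inv_cancel]
  have h2 : (RegularWreathProduct.inl w.right : D ≀ᵣ Q) ∈ Om p (D ≀ᵣ Q) := by
    apply Subgroup.subset_closure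
    show (RegularWreathProduct.inl w.right : D ≀ᵣ Q) ^ p = 1
    rw [← map_pow, ← hQ, pow_card_eq_one', map_one]
  have := mul_mem (Subgroup.mem_sup_left h1 : _ ∈ j.range ⊔ Om p (D ≀ᵣ Q))
    (Subgroup.mem_sup_right h2 : _ ∈ j.range ⊔ Om p (D ≀ᵣ Q))
  rwa [inv_mul_cancel_right] at this

theorem FC.pgroup (hF : FC F) {p : ℕ} [hp' : Fact p.Prime]
    (hc : ∀ (C : Type) [Group C], Nat.card C = p → F C) (G : Type) [Group G] [Finite G]
    (hp : IsPGroup p G) : F G := by
  have hcz : Nat.card (Multiplicative (ZMod p)) = p := by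
    rw [Nat.card_congr Multiplicative.toAdd, Nat.card_zmod]
  have hW : ∀ n, F (IteratedWreathProduct (Multiplicative (ZMod p)) n) ∧
      IsPGroup p (IteratedWreathProduct (Multiplicative (ZMod p)) n) := by
    intro n
    induction n with
    | zero =>
      haveI : Subsingleton (IteratedWreathProduct (Multiplicative (ZMod p)) 0) :=
        (inferInstance : Subsingleton PUnit)
      exact ⟨hF.triv (hc _ hcz), fun g => ⟨0, Subsingleton.elim _ _⟩⟩
    | succ n ih => exact hF.wreath hc ih.1 ih.2 hcz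
  obtain ⟨k, hk⟩ := IsPGroup.iff_card.mp hp
  haveI : Finite (Multiplicative (ZMod p)) := inferInstance
  let f : G →* Equiv.Perm G := MulAction.toPermHom G G
  have hf : Function.Injective f := MulAction.toPerm_injective
  have hfr : IsPGroup p f.range := hp.of_surjective f.rangeRestrict f.rangeRestrict_surjective
  obtain ⟨S, hS⟩ := hfr.exists_le_sylow
  have hFS : F S := hF.equiv (Sylow.mulEquivIteratedWreathProduct p k G hk _ hcz S).symm (hW k).1
  have h1 := hF.psub _ S rfl hFS S.isPGroup' (f.range.subgroupOf S)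
  have h2 := hF.equiv (Subgroup.subgroupOfEquivOfLe hS) h1
  exact hF.equiv (MonoidHom.ofInjective hf).symm h2

/-! the splitting lemma -/

lemma FC.spl (hF : FC F) {X1 X2 A : Type} [Group X1] [Group X2] [Group A] [Finite X1] [Finite X2]
    (hs1 : Group.IsSolvable X1) (hs2 : Group.IsSolvable X2) (hA : ∀ a b : A, a * b = b * a)
    (f1 : X1 →* A) (f2 : X2 →* A) (hP : F (Fit.fib f1 f2)) (Y : Subgroup X1) (hY : Abn Y)
    (hFY : F Y) (h1 : ∀ x, ∃ y ∈ Y, f1 y = f1 x) (h2 : ∀ x, ∃ z, f2 z = f1 x) : F X1 := by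
  haveI := hs1
  haveI := hs2
  let P := Fit.fib f1 f2
  let k : P →* A := f1.comp ((MonoidHom.fst X1 X2).comp P.subtype)
  let G3 := Fit.fib k f1
  haveI : Finite P := inferInstance
  haveI : Finite G3 := inferInstance
  have hG3s : Group.IsSolvable G3 := inferInstance
  let a3 : G3 →* X1 := (MonoidHom.snd P X1).comp G3.subtype
  let b3 : G3 →* X1 := (MonoidHom.fst X1 X2).comp (P.subtype.comp ((MonoidHom.fst P X1).comp G3.subtype))
  have ha3 : Function.Surjective a3 := by
    intro x
    obtain ⟨z, hz⟩ := h2 x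
    exact ⟨⟨(⟨(x, z), hz.symm⟩, x), rfl⟩, rfl⟩
  have hb3 : Function.Surjective b3 := by
    intro x
    obtain ⟨z, hz⟩ := h2 x
    exact ⟨⟨(⟨(x, z), hz.symm⟩, x), rfl⟩, rfl⟩
  have hPY := hF.prod hP hFY
  have hFA : F (Y.comap a3) := by
    let j : Y.comap a3 →* P × Y :=
      { toFun := fun g => (g.1.1.1, ⟨g.1.1.2, g.2⟩)
        map_one' := rfl
        map_mul' := fun _ _ => rfl }
    have hj : Function.Injective j := by
      intro g h hgh
      have e1 : (g.1.1.1, (⟨g.1.1.2, g.2⟩ : Y)) = (h.1.1.1, (⟨h.1.1.2, h.2⟩ : Y)) := hgh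
      have e2 : g.1.1.1 = h.1.1.1 := (Prod.mk.inj e1).1
      have e3 : g.1.1.2 = h.1.1.2 := congrArg Subtype.val (Prod.mk.inj e1).2
      apply Subtype.ext
      apply Subtype.ext
      exact Prod.ext e2 e3
    refine hF.inj j hj ?_ hPY
    have : j.range = Fit.fib k (f1.comp Y.subtype) := by
      ext q
      constructor
      · rintro ⟨g, rfl⟩
        exact g.1.2
      · intro hq
        exact ⟨⟨⟨(q.1, q.2), hq⟩, q.2.2⟩, rfl⟩
    rw [this]
    exact fib_normal hA _ _
  have hFB : F (Y.comap b3) := by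
    let j : Y.comap b3 →* P × Y :=
      { toFun := fun g => (⟨(g.1.1.2, g.1.1.1.1.2), by
            have h3 : f1 g.1.1.1.1.1 = f1 g.1.1.2 := g.1.2
            have h4 : f1 g.1.1.1.1.1 = f2 g.1.1.1.1.2 := g.1.1.1.2
            exact h3.symm.trans h4⟩, ⟨g.1.1.1.1.1, g.2⟩)
        map_one' := rfl
        map_mul' := fun _ _ => rfl }
    have hj : Function.Injective j := by
      intro g h hgh
      apply Subtype.ext
      apply Subtype.ext
      refine Prod.ext (Subtype.ext (Prod.ext ?_ ?_)) ?_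
      · exact congrArg (fun q => (q.2 : X1)) hgh
      · exact congrArg (fun q => (q.1 : X1 × X2).2) hgh
      · exact congrArg (fun q => (q.1 : X1 × X2).1) hgh
    refine hF.inj j hj ?_ hPY
    have : j.range = Fit.fib k (f1.comp Y.subtype) := by
      ext q
      constructor
      · rintro ⟨g, rfl⟩
        have h3 : f1 g.1.1.1.1.1 = f1 g.1.1.2 := g.1.2
        exact h3.symm
      · intro hq
        have hq' : f1 (q.1 : X1 × X2).1 = f1 (q.2 : X1) := hq
        have h4 : f1 (q.1 : X1 × X2).1 = f2 (q.1 : X1 × X2).2 := q.1.2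
        exact ⟨⟨⟨(⟨((q.2 : X1), (q.1 : X1 × X2).2), hq'.symm.trans h4⟩, (q.1 : X1 × X2).1),
          hq'.symm⟩, q.2.2⟩, rfl⟩
    rw [this]
    exact fib_normal hA _ _
  have hG3 : F G3 := by
    refine hF.af G3 hG3s (Y.comap a3) (Y.comap b3) (abn_comap a3 ha3 hY) (abn_comap b3 hb3 hY)
      hFA hFB ?_
    rintro ⟨⟨p, x'⟩, hg⟩
    obtain ⟨y, hyY, hy⟩ := h1 x'
    refine ⟨⟨(p, y), ?_⟩, hyY, ⟨(1, y⁻¹ * x'), ?_⟩, ?_, ?_⟩
    · show k p = f1 y
      rw [hy]; exact hg
    · show k 1 = f1 (y⁻¹ * x')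
      rw [map_one, map_mul, map_inv, hy, inv_mul_cancel]
    · show b3 _ ∈ Y
      have : b3 ⟨(1, y⁻¹ * x'), by
        show k 1 = f1 (y⁻¹ * x')
        rw [map_one, map_mul, map_inv, hy, inv_mul_cancel]⟩ = 1 := rfl
      rw [this]; exact Y.one_mem
    · apply Subtype.ext
      show (p * 1, y * (y⁻¹ * x')) = (p, x')
      rw [mul_one, mul_inv_cancel_left]
  refine hF.of_fib hA k f1 hG3 hP (fun x => ?_)
  obtain ⟨z, hz⟩ := h2 x
  exact ⟨⟨(x, z), hz.symm⟩, rfl⟩

lemma FC.splint (hF : FC F) {P X1 A : Type} [Group P] [Group X1] [Group A]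
    (hA : ∀ a b : A, a * b = b * a) (hP : F P) (α : P →* X1) (hα : Function.Surjective α)
    (f1 : X1 →* A) (K2 : Subgroup P) (hK2 : K2.Normal) (hK : ∀ k ∈ K2, α k = 1 → k = 1)
    (hk1 : ∀ k ∈ K2, f1 (α k) = 1) (hk2 : ∀ x, f1 x = 1 → ∃ k ∈ K2, α k = x)
    (Y : Subgroup X1) (hY : Abn Y) (hFY : F Y) (h1 : ∀ x, ∃ y ∈ Y, f1 y = f1 x) : F X1 := by
  haveI := hF.fin hP
  haveI := hF.sol hP
  haveI : Finite X1 := Finite.of_surjective α hα
  have hs1 : Group.IsSolvable X1 := Group.isSolvable_of_surjective hα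
  let f2 : P ⧸ K2 →* A := QuotientGroup.lift K2 (f1.comp α) (fun k hk => hk1 k hk)
  have hs2 : Group.IsSolvable (P ⧸ K2) := inferInstance
  let j : P →* X1 × (P ⧸ K2) := α.prod (QuotientGroup.mk' K2)
  have hj : Function.Injective j := by
    rw [injective_iff_map_eq_one]
    intro x hx
    have h3 : α x = 1 := congrArg Prod.fst hx
    have h4 : QuotientGroup.mk' K2 x = 1 := congrArg Prod.snd hx
    rw [QuotientGroup.mk'_apply, QuotientGroup.eq_one_iff] at h4
    exact hK x h4 h3
  have hr : j.range = Fit.fib f1 f2 := by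
    ext q
    constructor
    · rintro ⟨x, rfl⟩
      rfl
    · intro hq
      obtain ⟨x, z⟩ := q
      obtain ⟨p, rfl⟩ := QuotientGroup.mk'_surjective K2 z
      have hq' : f1 x = f1 (α p) := hq
      obtain ⟨k, hk, hkx⟩ := hk2 ((α p)⁻¹ * x) (by rw [map_mul, map_inv, hq', inv_mul_cancel])
      refine ⟨p * k, ?_⟩
      apply Prod.ext
      · show α (p * k) = x
        rw [map_mul, hkx, mul_inv_cancel_left]
      · show QuotientGroup.mk' K2 (p * k) = QuotientGroup.mk' K2 p
        rw [map_mul, QuotientGroup.mk'_apply K2 k, (QuotientGroup.eq_one_iff k).mpr hk, mul_one]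
  have hfib : F (Fit.fib f1 f2) := by
    rw [← hr]
    exact hF.equiv (MonoidHom.ofInjective hj) hP
  refine hF.spl hs1 hs2 hA f1 f2 hfib Y hY hFY h1 (fun x => ?_)
  obtain ⟨p, rfl⟩ := hα x
  exact ⟨QuotientGroup.mk' K2 p, rfl⟩

lemma FC.normY (hF : FC F) {X : Type} [Group X] [Finite X] {s : ℕ} [Fact s.Prime]
    {M : Subgroup X} (hM : M.Normal) (C : Sylow s X) (hMC : ∀ x : X, ∃ m ∈ M, ∃ c ∈ C, x = m * c)
    (hD : ∀ D : Subgroup X, D ≤ M → F D) (hC : F C) :
    F (normalizer (C : Set X)) := by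
  set Y := normalizer (C : Set X) with hYdef
  have hCY : (C : Subgroup X) ≤ Y := le_normalizer
  have hCn : ((C : Subgroup X).subgroupOf Y).Normal := by
    refine ⟨fun n hn g => ?_⟩
    exact (mem_normalizer_iff.mp g.2 n).mp hn
  have hMn : (M.subgroupOf Y).Normal := ⟨fun n hn g => hM.conj_mem _ hn _⟩
  refine hF.top hCn hMn ?_ (hF.equiv (Subgroup.subgroupOfEquivOfLe hCY).symm hC) ?_
  · rw [eq_top_iff]
    rintro ⟨y, hy⟩ _
    obtain ⟨m, hm, c, hc, rfl⟩ := hMC y
    have hcY : c ∈ Y := hCY hc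
    have hmY : m ∈ Y := by
      have := mul_mem hy (inv_mem hcY)
      rwa [mul_inv_cancel_right] at this
    have : (⟨m * c, hy⟩ : Y) = ⟨m, hmY⟩ * ⟨c, hcY⟩ := rfl
    rw [this]
    exact mul_mem (Subgroup.mem_sup_right hm) (Subgroup.mem_sup_left hc)
  · rw [← Subgroup.inf_subgroupOf_right]
    exact hF.equiv (Subgroup.subgroupOfEquivOfLe inf_le_right).symm (hD _ inf_le_left)

/-- Lemma S -/
lemma FC.lemS (hF : FC F) {P X1 : Type} [Group P] [Group X1] (hP : F P) (α : P →* X1)
    (hα : Function.Surjective α) {M : Subgroup X1} [hM : M.Normal]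
    (hA : ∀ a b : X1 ⧸ M, a * b = b * a) (K2 : Subgroup P) (hK2 : K2.Normal)
    (hK : ∀ k ∈ K2, α k = 1 → k = 1) (hKM : K2.map α = M) {s : ℕ} [Fact s.Prime]
    (C : Sylow s X1) (hMC : ∀ x : X1, ∃ m ∈ M, ∃ c ∈ C, x = m * c)
    (hD : ∀ D : Subgroup X1, D ≤ M → F D) (hC : F C) : F X1 := by
  haveI := hF.fin hP
  haveI : Finite X1 := Finite.of_surjective α hα
  refine hF.splint hA hP α hα (QuotientGroup.mk' M) K2 hK2 hK ?_ ?_ (normalizer (C : Set X1))
    (abn_sylow C le_rfl) (hF.normY hM C hMC hD hC) ?_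
  · intro k hk
    rw [QuotientGroup.mk'_apply, QuotientGroup.eq_one_iff, ← hKM]
    exact ⟨k, hk, rfl⟩
  · intro x hx
    rw [QuotientGroup.mk'_apply, QuotientGroup.eq_one_iff, ← hKM] at hx
    exact hx
  · intro x
    obtain ⟨m, hm, c, hc, rfl⟩ := hMC x
    refine ⟨c, le_normalizer hc, ?_⟩
    rw [map_mul, QuotientGroup.mk'_apply M m, (QuotientGroup.eq_one_iff m).mpr hm, one_mul]

end Pool.Agent.H23.Fit
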