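import Pool.Agent.H23.Fit2

set_option autoImplicit false

open Subgroup

namespace Pool.Agent.H23.Fit

variable {F : GC}

/-- there is a self-normalizing Sylow `r`-subgroup -/
def SN (r : ℕ) (H : Type) [Group H] : Prop :=
  ∃ R : Sylow r H, normalizer ((R : Subgroup H) : Set H) ≤ (R : Subgroup H)

/-- all finite `p`-groups are in `F` -/
def AllP (F : GC) (p : ℕ) : Prop := ∀ (G : Type) [Group G] [Finite G], IsPGroup p G → F G

lemma normal_le_sylow {r : ℕ} [Fact r.Prime] {G : Type} [Group G] {N : Subgroup G}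
    (hN : N.Normal) (hNr : IsPGroup r N) (P : Sylow r G) : N ≤ (P : Subgroup G) := by
  have h1 : IsPGroup r (N ⊔ (P : Subgroup G) : Subgroup G) :=
    hNr.to_sup_of_normal_left P.isPGroup'
  have h2 := P.is_maximal' h1 le_sup_right
  rw [← h2]; exact le_sup_left

lemma FC.lemE (hF : FC F) {r : ℕ} [Fact r.Prime] (hr : AllP F r)
    {H : Type} [Group H] (hH : F H) (hSN : SN r H) (n : ℕ) :
    ∀ (G : Type) [Group G] [Finite G], Group.IsSolvable G → Nat.card G = n →
      ∀ (N : Subgroup G), N.Normal → IsPGroup r N → ∀ (j : H →* G), Function.Injective j →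
      N ⊔ j.range = ⊤ → F G := by
  induction n using Nat.strong_induction_on with
  | _ n ih =>
  intro G _ _ hs hn N hN hNr j hj htop
  haveI := hs
  have hdec : ∀ g : G, ∃ x ∈ N, ∃ h : H, x * j h = g := by
    intro g
    have h1 : g ∈ N ⊔ j.range := by rw [htop]; trivial
    obtain ⟨x, hx, _, ⟨h, rfl⟩, rfl⟩ := (Subgroup.mem_sup_of_normal_left).mp h1
    exact ⟨x, hx, h, rfl⟩
  rcases eq_top_or_exists_le_coatom j.range with h | ⟨G1, hG1, hle⟩
  · exact hF.equiv (MulEquiv.ofBijective j ⟨hj, MonoidHom.range_eq_top.mp h⟩) hH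
  · have hjG : ∀ h, j h ∈ G1 := fun h => hle ⟨h, rfl⟩
    have hFG1 : F G1 := by
      refine ih (Nat.card G1) (by rw [← hn]; exact card_lt_of_coatom hG1.1) G1 inferInstance rfl
        (N.subgroupOf G1) (hN.subgroupOf G1) ?_ (j.codRestrict G1 hjG) ?_ ?_
      · exact hNr.comap_of_injective G1.subtype G1.subtype_injective
      · intro a b hab; exact hj (congrArg Subtype.val hab)
      · rw [eq_top_iff]
        rintro ⟨g, hg⟩ _
        obtain ⟨x, hx, h, rfl⟩ := hdec g
        have hxG : x ∈ G1 := by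
          have := mul_mem hg (inv_mem (hjG h))
          rwa [mul_inv_cancel_right] at this
        have : (⟨x * j h, hg⟩ : G1) = ⟨x, hxG⟩ * (j.codRestrict G1 hjG h) := rfl
        rw [this]
        exact mul_mem (Subgroup.mem_sup_left hx) (Subgroup.mem_sup_right ⟨h, rfl⟩)
    by_cases hG1n : G1.Normal
    · refine hF.top hG1n hN ?_ hFG1 (hr N hNr)
      rw [eq_top_iff, ← htop]; exact sup_le le_sup_right (hle.trans le_sup_left)
    · have hAb := abn_coatom hG1 hG1n
      obtain ⟨R, hR⟩ := hSN
      obtain ⟨P, hP⟩ := (R.isPGroup'.map j).exists_le_sylow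
      have hNP := normal_le_sylow hN hNr P
      have hPR : (P : Subgroup G).comap j = R :=
        R.is_maximal' (P.isPGroup'.comap_of_injective j hj) (Subgroup.map_le_iff_le_comap.mp hP)
      have hself : normalizer ((P : Subgroup G) : Set G) ≤ (P : Subgroup G) := by
        intro g hg
        obtain ⟨x, hx, h, rfl⟩ := hdec g
        have hxP : x ∈ (P : Subgroup G) := hNP hx
        have hjn : j h ∈ normalizer ((P : Subgroup G) : Set G) := by
          have := mul_mem (inv_mem (le_normalizer hxP)) hg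
          rwa [inv_mul_cancel_left] at this
        have hhR : h ∈ normalizer ((R : Subgroup H) : Set H) := by
          rw [mem_normalizer_iff] at hjn ⊢
          intro y
          have h1 := hjn (j y)
          rw [← map_inv, ← map_mul, ← map_mul] at h1
          have h2 : ∀ z, z ∈ (R : Subgroup H) ↔ j z ∈ (P : Subgroup G) := fun z => by
            rw [← hPR]; exact Iff.rfl
          exact (h2 y).trans (h1.trans (h2 _).symm)
        have := hR hhR
        rw [← hPR] at this
        exact mul_mem hxP this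
      refine hF.af G hs (P : Subgroup G) G1 (abn_sylow P hself) hAb (hr _ P.isPGroup') hFG1 ?_
      intro g
      obtain ⟨x, hx, h, rfl⟩ := hdec g
      exact ⟨x, hNP hx, j h, hjG h, rfl⟩

/-! semidirect products -/

section sd
variable {N G : Type} [Group N] [Group G] (φ : G →* MulAut N)

instance sdfin [Finite N] [Finite G] : Finite (N ⋊[φ] G) :=
  Finite.of_equiv _ (SemidirectProduct.equivProd (φ := φ)).symm

lemma sdsol (hN : Group.IsSolvable N) (hG : Group.IsSolvable G) :
    Group.IsSolvable (N ⋊[φ] G) :=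
  haveI := hN
  haveI := hG
  Group.isSolvable_of_ker_le_range (SemidirectProduct.inl : N →* N ⋊[φ] G)
    SemidirectProduct.rightHom (le_of_eq SemidirectProduct.range_inl_eq_ker_rightHom.symm)

lemma inlNormal : (SemidirectProduct.inl : N →* N ⋊[φ] G).range.Normal := by
  rw [SemidirectProduct.range_inl_eq_ker_rightHom]; infer_instance

lemma mem_inl {x : N ⋊[φ] G} : x ∈ (SemidirectProduct.inl : N →* N ⋊[φ] G).range ↔ x.right = 1 := by
  rw [SemidirectProduct.range_inl_eq_ker_rightHom]; exact Iff.rfl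

lemma mem_inr {x : N ⋊[φ] G} : x ∈ (SemidirectProduct.inr : G →* N ⋊[φ] G).range ↔ x.left = 1 := by
  constructor
  · rintro ⟨g, rfl⟩; rfl
  · intro h; exact ⟨x.right, SemidirectProduct.ext h.symm rfl⟩

lemma sdcard [Finite N] [Finite G] : Nat.card (N ⋊[φ] G) = Nat.card N * Nat.card G := by
  rw [Nat.card_congr (SemidirectProduct.equivProd (φ := φ)), Nat.card_prod]

lemma index_inr [Finite N] [Finite G] :
    (SemidirectProduct.inr : G →* N ⋊[φ] G).range.index = Nat.card N := by
  have h1 := Subgroup.card_mul_index (SemidirectProduct.inr : G →* N ⋊[φ] G).range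
  have h2 : Nat.card (SemidirectProduct.inr : G →* N ⋊[φ] G).range = Nat.card G :=
    (Nat.card_congr (MonoidHom.ofInjective (SemidirectProduct.inr_injective (φ := φ))).toEquiv).symm
  rw [h2, sdcard, mul_comm] at h1
  exact Nat.eq_of_mul_eq_mul_right Nat.card_pos h1

variable {G' : Type} [Group G'] (ι : G' →* G)

/-- restriction of the acting group -/
def sdmap : N ⋊[φ.comp ι] G' →* N ⋊[φ] G where
  toFun x := ⟨x.left, ι x.right⟩
  map_one' := by rw [SemidirectProduct.one_left, SemidirectProduct.one_right, map_one]; rfl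
  map_mul' := by
    intro a b
    refine SemidirectProduct.ext rfl ?_
    exact map_mul ι _ _

lemma sdmap_inj (hι : Function.Injective ι) : Function.Injective (sdmap φ ι) := by
  intro a b h
  have h1 : (sdmap φ ι a).left = (sdmap φ ι b).left := by rw [h]
  have h2 : (sdmap φ ι a).right = (sdmap φ ι b).right := by rw [h]
  exact SemidirectProduct.ext h1 (hι h2)

lemma FC.sdnorm {F : GC} (hF : FC F) (h : F (N ⋊[φ] G)) (hι : Function.Injective ι)
    (hn : ι.range.Normal) : F (N ⋊[φ.comp ι] G') := by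
  refine hF.inj (sdmap φ ι) (sdmap_inj φ ι hι) ?_ h
  have : (sdmap φ ι).range = ι.range.comap SemidirectProduct.rightHom := by
    ext x
    constructor
    · rintro ⟨y, rfl⟩; exact ⟨y.right, rfl⟩
    · rintro ⟨y, hy⟩; exact ⟨⟨x.left, y⟩, SemidirectProduct.ext rfl hy⟩
  rw [this]
  exact hn.comap _

end sd

lemma FC.lemS2 (hF : FC F) {p q : ℕ} [hp : Fact p.Prime] [hq : Fact q.Prime] (hpq : p ≠ q)
    (hFp : AllP F p) (hFq : AllP F q)
    {Q C : Type} [Group Q] [Group C] [Finite Q] [Finite C] (hQ : IsPGroup p Q)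
    (hC : IsPGroup q C) (hCc : ∀ a b : C, a * b = b * a) (φ : C →* MulAut Q)
    {P : Type} [Group P] (hP : F P)
    (α : P →* Q ⋊[φ] C) (hα : Function.Surjective α) (K2 : Subgroup P) (hK2 : K2.Normal)
    (hK : ∀ k ∈ K2, α k = 1 → k = 1)
    (hKM : K2.map α = (SemidirectProduct.inl : Q →* Q ⋊[φ] C).range) :
    F (Q ⋊[φ] C) := by
  haveI := inlNormal φ
  obtain ⟨k, hk⟩ := IsPGroup.iff_card.mp hQ
  have hsyl : ¬ q ∣ (SemidirectProduct.inr : C →* Q ⋊[φ] C).range.index := by
    rw [index_inr, hk]
    intro h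
    exact hpq ((Nat.prime_dvd_prime_iff_eq hq.out hp.out).mp (hq.out.dvd_of_dvd_pow h)).symm
  let S : Sylow q (Q ⋊[φ] C) := (hC.of_surjective (SemidirectProduct.inr : C →* Q ⋊[φ] C).rangeRestrict
    (MonoidHom.rangeRestrict_surjective _)).toSylow hsyl
  refine hF.lemS hP α hα (M := (SemidirectProduct.inl : Q →* Q ⋊[φ] C).range) ?_ K2 hK2 hK hKM S
    ?_ ?_ (hFq _ S.isPGroup')
  · intro a b
    obtain ⟨x, rfl⟩ := QuotientGroup.mk_surjective a
    obtain ⟨y, rfl⟩ := QuotientGroup.mk_surjective b
    rw [← QuotientGroup.mk_mul, ← QuotientGroup.mk_mul, QuotientGroup.eq, mem_inl]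
    show (x.right * y.right)⁻¹ * (y.right * x.right) = 1
    rw [hCc x.right, inv_mul_cancel]
  · intro x
    refine ⟨SemidirectProduct.inl x.left, ⟨_, rfl⟩, SemidirectProduct.inr x.right, ⟨_, rfl⟩, ?_⟩
    rw [SemidirectProduct.inl_left_mul_inr_right]
  · intro D hD
    refine hFp D ?_
    have h1 : IsPGroup p (SemidirectProduct.inl : Q →* Q ⋊[φ] C).range :=
      hQ.of_surjective _ (MonoidHom.rangeRestrict_surjective _)
    exact h1.to_le hD

/-! coinduced groups -/

section coi
variable {H C Q : Type} [Group H] [Group C] [Group Q] (ι : C →* H) (φ : C →* MulAut Q)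

/-- coinduced group -/
def Coi : Subgroup (H → Q) where
  carrier := {f | ∀ c h, f (ι c * h) = φ c (f h)}
  mul_mem' := by
    intro a b ha hb c h
    show a _ * b _ = φ c (a h * b h)
    rw [ha, hb, map_mul]
  one_mem' := by
    intro c h
    show (1 : Q) = φ c 1
    rw [map_one]
  inv_mem' := by
    intro a ha c h
    show (a _)⁻¹ = φ c (a h)⁻¹
    rw [ha, map_inv]

/-- right translation -/
def coiAct : H →* MulAut (Coi ι φ) where
  toFun h0 :=
    { toFun := fun f => ⟨fun h => f.1 (h * h0), fun c h => by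
        show f.1 (ι c * h * h0) = φ c (f.1 (h * h0))
        rw [mul_assoc]; exact f.2 c (h * h0)⟩
      invFun := fun f => ⟨fun h => f.1 (h * h0⁻¹), fun c h => by
        show f.1 (ι c * h * h0⁻¹) = φ c (f.1 (h * h0⁻¹))
        rw [mul_assoc]; exact f.2 c (h * h0⁻¹)⟩
      left_inv := fun f => Subtype.ext (funext fun h => by
        show f.1 (h * h0⁻¹ * h0) = f.1 h
        rw [inv_mul_cancel_right])
      right_inv := fun f => Subtype.ext (funext fun h => by
        show f.1 (h * h0 * h0⁻¹) = f.1 h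
        rw [mul_inv_cancel_right])
      map_mul' := fun a b => rfl }
  map_one' := by
    apply MulEquiv.ext
    intro f
    refine Subtype.ext (funext fun h => ?_)
    show f.1 (h * 1) = f.1 h
    rw [mul_one]
  map_mul' := by
    intro x y
    apply MulEquiv.ext
    intro f
    refine Subtype.ext (funext fun h => ?_)
    show f.1 (h * (x * y)) = f.1 (h * x * y)
    rw [mul_assoc]

lemma coiAct_apply (h0 : H) (f : Coi ι φ) (h : H) : (coiAct ι φ h0 f).1 h = f.1 (h * h0) := rfl

end coi

lemma pi_pgroup {r : ℕ} [Fact r.Prime] {H Q : Type} [Group Q] [Finite Q] (hQ : IsPGroup r Q) :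
    IsPGroup r (H → Q) := by
  obtain ⟨k, hk⟩ := IsPGroup.iff_card.mp hQ
  intro f
  refine ⟨k, funext fun h => ?_⟩
  rw [Pi.pow_apply, ← hk, pow_card_eq_one']; rfl

lemma FC.lemF (hF : FC F) {r s : ℕ} [hr : Fact r.Prime] [hs : Fact s.Prime] (hrs : r ≠ s)
    (hFr : AllP F r) (hFs : AllP F s)
    {H : Type} [Group H] (hH : F H) (hSN : SN r H) (V : Subgroup H) (hV : V.Normal)
    (hVc : ∀ a ∈ V, ∀ b ∈ V, a * b = b * a)
    {Q C : Type} [Group Q] [Group C] [Finite Q] [Finite C] (hQ : IsPGroup r Q) (hC : IsPGroup s C)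
    (ι : C →* H) (hι : Function.Injective ι) (hιV : ∀ c, ι c ∈ V) (φ : C →* MulAut Q) :
    F (Q ⋊[φ] C) := by
  classical
  have hCc : ∀ a b : C, a * b = b * a := fun a b => hι (by
    rw [map_mul, map_mul]; exact hVc _ (hιV a) _ (hιV b))
  haveI := hF.fin hH
  have hHs := hF.sol hH
  have hNr : IsPGroup r (Coi ι φ) := (pi_pgroup hQ).to_subgroup _
  haveI : Finite (H → Q) := Pi.finite
  haveI : Finite (Coi ι φ) := inferInstance
  have hNs : Group.IsSolvable (Coi ι φ) := by
    haveI : Group.IsNilpotent (Coi ι φ) := hNr.isNilpotent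
    infer_instance
  have hG : F (Coi ι φ ⋊[coiAct ι φ] H) := by
    refine hF.lemE hFr hH hSN _ _ (sdsol _ hNs hHs) rfl
      (SemidirectProduct.inl : Coi ι φ →* Coi ι φ ⋊[coiAct ι φ] H).range (inlNormal _)
      (hNr.of_surjective _ (MonoidHom.rangeRestrict_surjective _)) SemidirectProduct.inr
      SemidirectProduct.inr_injective ?_
    rw [eq_top_iff]
    intro x _
    rw [← SemidirectProduct.inl_left_mul_inr_right x]
    exact mul_mem (Subgroup.mem_sup_left ⟨_, rfl⟩) (Subgroup.mem_sup_right ⟨_, rfl⟩)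
  have hG1 : F (Coi ι φ ⋊[(coiAct ι φ).comp V.subtype] V) :=
    hF.sdnorm _ V.subtype hG V.subtype_injective (by rw [Subgroup.range_subtype]; exact hV)
  let ι1 : C →* V := ι.codRestrict V hιV
  have hG2 : F (Coi ι φ ⋊[((coiAct ι φ).comp V.subtype).comp ι1] C) := by
    refine hF.sdnorm _ ι1 hG1 (fun a b h => hι (congrArg Subtype.val h)) ?_
    refine ⟨?_⟩
    rintro _ ⟨c, rfl⟩ g
    refine ⟨c, ?_⟩
    apply Subtype.ext
    show ι c = (g : H) * ι c * (g : H)⁻¹
    rw [hVc _ g.2 _ (hιV c), mul_inv_cancel_right]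
  let ψ := (coiAct ι φ).comp ι
  have hP : F (Coi ι φ ⋊[ψ] C) := hG2
  let α : Coi ι φ ⋊[ψ] C →* Q ⋊[φ] C :=
    { toFun := fun p => ⟨p.left.1 1, p.right⟩
      map_one' := rfl
      map_mul' := by
        intro a b
        refine SemidirectProduct.ext ?_ rfl
        show a.left.1 1 * b.left.1 (1 * ι a.right) = a.left.1 1 * φ a.right (b.left.1 1)
        rw [one_mul, ← b.left.2 a.right 1, mul_one] }
  have hα : Function.Surjective α := by
    rintro ⟨q, c⟩
    let f : H → Q := fun h => if hh : h ∈ ι.range then φ (Classical.choose hh) q else 1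
    have hf : ∀ c, f (ι c) = φ c q := by
      intro c
      have hh : ι c ∈ ι.range := ⟨c, rfl⟩
      have h1 : Classical.choose hh = c := hι (Classical.choose_spec hh)
      simp only [f]
      rw [dif_pos hh, h1]
    have hfm : f ∈ Coi ι φ := by
      intro c h
      by_cases hh : h ∈ ι.range
      · obtain ⟨d, rfl⟩ := hh
        rw [← map_mul, hf, hf, map_mul]; rfl
      · have hh' : ι c * h ∉ ι.range := fun h' => hh (by
          have := mul_mem (inv_mem (show ι c ∈ ι.range from ⟨c, rfl⟩)) h'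
          rwa [inv_mul_cancel_left] at this)
        simp only [f]
        rw [dif_neg hh, dif_neg hh', map_one]
    refine ⟨⟨⟨f, hfm⟩, c⟩, ?_⟩
    refine SemidirectProduct.ext ?_ rfl
    show f 1 = q
    have := hf 1
    rwa [map_one, map_one] at this
  let K2 : Subgroup (Coi ι φ ⋊[ψ] C) :=
    { carrier := {p | p.right = 1 ∧ ∀ h, h ∉ ι.range → p.left.1 h = 1}
      mul_mem' := by
        rintro a b ⟨ha, ha'⟩ ⟨hb, hb'⟩
        refine ⟨?_, fun h hh => ?_⟩
        · rw [SemidirectProduct.mul_right, ha, hb, mul_one]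
        · show a.left.1 h * b.left.1 (h * ι a.right) = 1
          rw [ha, map_one, mul_one, ha' h hh, hb' h hh, one_mul]
      one_mem' := ⟨rfl, fun h _ => rfl⟩
      inv_mem' := by
        rintro a ⟨ha, ha'⟩
        refine ⟨?_, fun h hh => ?_⟩
        · rw [SemidirectProduct.inv_right, ha, inv_one]
        · show (a.left.1 (h * ι a.right⁻¹))⁻¹ = 1
          rw [ha, inv_one, map_one, mul_one, ha' h hh, inv_one] }
  have hK2 : K2.Normal := by
    refine ⟨?_⟩
    rintro k ⟨hk, hk'⟩ g
    refine ⟨?_, fun h hh => ?_⟩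
    · rw [SemidirectProduct.mul_right, SemidirectProduct.mul_right, hk, mul_one,
        SemidirectProduct.inv_right, mul_inv_cancel]
    · have hh' : h * ι g.right ∉ ι.range := fun h' => hh (by
        have := mul_mem h' (inv_mem (show ι g.right ∈ ι.range from ⟨_, rfl⟩))
        rwa [mul_inv_cancel_right] at this)
      show g.left.1 h * k.left.1 (h * ι g.right) *
        (g.left.1 (h * ι (g.right * k.right) * ι g.right⁻¹))⁻¹ = 1
      rw [hk' _ hh', hk, mul_one, mul_one, map_inv, mul_inv_cancel_right, mul_inv_cancel]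
  refine hF.lemS2 hrs hFr hFs hQ hC hCc φ hP α hα K2 hK2 ?_ ?_
  · rintro k ⟨hk, hk'⟩ h1
    refine SemidirectProduct.ext (Subtype.ext (funext fun h => ?_)) hk
    have h2 : k.left.1 1 = 1 := congrArg SemidirectProduct.left h1
    by_cases hh : h ∈ ι.range
    · obtain ⟨c, rfl⟩ := hh
      have := k.left.2 c 1
      rw [mul_one, h2, map_one] at this
      exact this
    · exact hk' h hh
  · ext x
    rw [mem_inl]
    constructor
    · rintro ⟨k, ⟨hk, _⟩, rfl⟩; exact hk
    · intro hx
      obtain ⟨q, c⟩ := x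
      have hc : c = 1 := hx
      subst hc
      obtain ⟨k, hk⟩ := hα ⟨q, 1⟩
      let f : H → Q := fun h => if h ∈ ι.range then k.left.1 h else 1
      have hfm : f ∈ Coi ι φ := by
        intro c h
        by_cases hh : h ∈ ι.range
        · have hh' : ι c * h ∈ ι.range := mul_mem ⟨c, rfl⟩ hh
          simp only [f]
          rw [if_pos hh, if_pos hh']; exact k.left.2 c h
        · have hh' : ι c * h ∉ ι.range := fun h' => hh (by
            have := mul_mem (inv_mem (show ι c ∈ ι.range from ⟨c, rfl⟩)) h'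
            rwa [inv_mul_cancel_left] at this)
          simp only [f]
          rw [if_neg hh, if_neg hh', map_one]
      refine ⟨⟨⟨f, hfm⟩, 1⟩, ⟨rfl, fun h hh => ?_⟩, ?_⟩
      · show f h = 1
        simp only [f]; rw [if_neg hh]
      · refine SemidirectProduct.ext ?_ rfl
        show f 1 = q
        simp only [f]
        rw [if_pos (one_mem _)]
        exact congrArg SemidirectProduct.left hk

end Pool.Agent.H23.Fit
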