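import Pool.Agent.H23.Fit3

set_option autoImplicit false

open Subgroup

namespace Pool.Agent.H23.Fit

variable {F : GC}

section aug
variable {X : Type} [Group X] (K : Subgroup X) (C : Type) [CommGroup C] [Fintype (X ⧸ K)]

/-- functions on cosets with product one -/
def Aug : Subgroup ((X ⧸ K) → C) where
  carrier := {f | ∏ x, f x = 1}
  mul_mem' := by
    intro a b ha hb
    show ∏ x, (a x * b x) = 1
    rw [Finset.prod_mul_distrib]
    have ha' : ∏ x, a x = 1 := ha
    have hb' : ∏ x, b x = 1 := hb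
    rw [ha', hb', one_mul]
  one_mem' := by
    show ∏ x : X ⧸ K, (1 : C) = 1
    exact Finset.prod_const_one
  inv_mem' := by
    intro a ha
    show ∏ x, (a x)⁻¹ = 1
    rw [Finset.prod_inv_distrib]
    have ha' : ∏ x, a x = 1 := ha
    rw [ha', inv_one]

lemma aug_smul_mem (g : X) {f : (X ⧸ K) → C} (hf : f ∈ Aug K C) :
    (fun x => f (g • x)) ∈ Aug K C := by
  show ∏ x, f (g • x) = 1
  have h1 : ∏ x, f x = 1 := hf
  rw [← h1]
  exact Fintype.prod_equiv (MulAction.toPerm g) _ _ (fun x => rfl)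

/-- the action on functions -/
def augAct : X →* MulAut (Aug K C) where
  toFun g :=
    { toFun := fun v => ⟨fun x => v.1 (g⁻¹ • x), aug_smul_mem K C g⁻¹ v.2⟩
      invFun := fun v => ⟨fun x => v.1 (g • x), aug_smul_mem K C g v.2⟩
      left_inv := fun v => Subtype.ext (funext fun x => by
        show v.1 (g⁻¹ • g • x) = v.1 x
        rw [inv_smul_smul])
      right_inv := fun v => Subtype.ext (funext fun x => by
        show v.1 (g • g⁻¹ • x) = v.1 x
        rw [smul_inv_smul])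
      map_mul' := fun a b => rfl }
  map_one' := by
    apply MulEquiv.ext
    intro v
    refine Subtype.ext (funext fun x => ?_)
    show v.1 ((1 : X)⁻¹ • x) = v.1 x
    rw [inv_one, one_smul]
  map_mul' := by
    intro g h
    apply MulEquiv.ext
    intro v
    refine Subtype.ext (funext fun x => ?_)
    show v.1 ((g * h)⁻¹ • x) = v.1 (h⁻¹ • g⁻¹ • x)
    rw [mul_inv_rev, mul_smul]

lemma augAct_apply (g : X) (v : Aug K C) (x : X ⧸ K) :
    (augAct K C g v).1 x = v.1 (g⁻¹ • x) := rfl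

/-- embedding -/
def augEmb [DecidableEq (X ⧸ K)] (x y : X ⧸ K) : C →* Aug K C where
  toFun c := ⟨fun z => (if z = x then c else 1) * (if z = y then c⁻¹ else 1), by
    show ∏ z, ((if z = x then c else 1) * (if z = y then c⁻¹ else 1)) = 1
    rw [Finset.prod_mul_distrib, Finset.prod_ite_eq', Finset.prod_ite_eq',
      if_pos (Finset.mem_univ _), if_pos (Finset.mem_univ _), mul_inv_cancel]⟩
  map_one' := by
    refine Subtype.ext (funext fun z => ?_)
    show (if z = x then (1 : C) else 1) * (if z = y then (1 : C)⁻¹ else 1) = 1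
    rw [inv_one, ite_self, ite_self, one_mul]
  map_mul' := by
    intro a b
    refine Subtype.ext (funext fun z => ?_)
    show (if z = x then a * b else 1) * (if z = y then (a * b)⁻¹ else 1) =
      ((if z = x then a else 1) * (if z = y then a⁻¹ else 1)) *
      ((if z = x then b else 1) * (if z = y then b⁻¹ else 1))
    have e1 : (if z = x then a * b else 1) = (if z = x then a else 1) * (if z = x then b else 1) := by
      split_ifs <;> simp
    have e2 : (if z = y then (a * b)⁻¹ else 1) =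
        (if z = y then a⁻¹ else 1) * (if z = y then b⁻¹ else 1) := by
      split_ifs
      · rw [mul_inv]
      · simp
    rw [e1, e2, mul_mul_mul_comm]

lemma augEmb_inj [DecidableEq (X ⧸ K)] {x y : X ⧸ K} (hxy : x ≠ y) :
    Function.Injective (augEmb K C x y) := by
  intro a b h
  have h1 : ∀ c, (augEmb K C x y c).1 x = c := by
    intro c
    show (if x = x then c else 1) * (if x = y then c⁻¹ else 1) = c
    rw [if_pos rfl, if_neg hxy, mul_one]
  rw [← h1 a, ← h1 b, h]

variable {C} in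
lemma aug_fix {p : ℕ} [hp : Fact p.Prime] (hC : IsPGroup p C) (hK : ¬ p ∣ K.index) (M : Subgroup X)
    (hM : ∀ x : X, ∃ m ∈ M, ∃ k ∈ K, m * k = x) (v : Aug K C)
    (hv : ∀ m ∈ M, augAct K C m v = v) : v = 1 := by
  have hconst : ∀ x, v.1 x = v.1 (QuotientGroup.mk 1) := by
    intro x
    obtain ⟨g, rfl⟩ := QuotientGroup.mk_surjective x
    obtain ⟨m, hm, k, hk, rfl⟩ := hM g
    have h1 : (augAct K C m⁻¹ v).1 (QuotientGroup.mk 1) = v.1 (QuotientGroup.mk 1) := by
      rw [hv _ (inv_mem hm)]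
    rw [augAct_apply] at h1
    rw [← h1]
    refine congrArg v.1 ?_
    show (QuotientGroup.mk (m * k) : X ⧸ K) = QuotientGroup.mk ((m⁻¹)⁻¹ * 1)
    rw [QuotientGroup.eq]
    simpa using hk
  have h3 : ∏ x, v.1 x = 1 := v.2
  rw [Finset.prod_congr rfl (fun x _ => hconst x), Finset.prod_const, Finset.card_univ,
    ← Nat.card_eq_fintype_card, ← Subgroup.index_eq_card] at h3
  obtain ⟨j, hj⟩ := hC (v.1 (QuotientGroup.mk 1))
  have h5 := Nat.dvd_gcd (orderOf_dvd_of_pow_eq_one h3) (orderOf_dvd_of_pow_eq_one hj)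
  rw [((Nat.Prime.coprime_iff_not_dvd hp.out).mpr hK).symm.pow_right j |>.gcd_eq_one] at h5
  have h6 := orderOf_eq_one_iff.mp (Nat.dvd_one.mp h5)
  exact Subtype.ext (funext fun x => (hconst x).trans h6)

end aug

lemma abn_inr {N X : Type} [CommGroup N] [Group X] [Finite N] [Finite X] (ψ : X →* MulAut N)
    (M : Subgroup X) (hco : (Nat.card M).Coprime (Nat.card N))
    (hfix : ∀ n, (∀ m ∈ M, ψ m n = n) → n = 1) :
    Abn (SemidirectProduct.inr : X →* N ⋊[ψ] X).range := by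
  classical
  haveI : Fintype M := Fintype.ofFinite _
  intro g
  set L := (SemidirectProduct.inr : X →* N ⋊[ψ] X).range ⊔
    ((SemidirectProduct.inr : X →* N ⋊[ψ] X).range).map (MulAut.conj g).toMonoidHom with hL
  let n := g.left
  let x := g.right
  have hg : g = SemidirectProduct.inl n * SemidirectProduct.inr x :=
    (SemidirectProduct.inl_left_mul_inr_right g).symm
  have hU : ∀ y : X, n * (ψ y n)⁻¹ ∈ L.comap (SemidirectProduct.inl : N →* N ⋊[ψ] X) := by
    intro y
    show SemidirectProduct.inl (n * (ψ y n)⁻¹) ∈ L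
    have h1 : (SemidirectProduct.inl (n * (ψ y n)⁻¹) : N ⋊[ψ] X) =
        (g * SemidirectProduct.inr (x⁻¹ * y * x) * g⁻¹) * SemidirectProduct.inr y⁻¹ := by
      rw [hg, map_mul, map_inv, SemidirectProduct.inl_aut, map_mul, map_mul, map_inv, map_inv]
      group
    rw [h1]
    exact mul_mem (Subgroup.mem_sup_right ⟨_, ⟨_, rfl⟩, rfl⟩) (Subgroup.mem_sup_left ⟨_, rfl⟩)
  have hw : (∏ m : M, ψ m n) = 1 := by
    apply hfix
    intro m' hm'
    rw [map_prod]
    refine Fintype.prod_equiv (Equiv.mulLeft (⟨m', hm'⟩ : M)) _ _ (fun m => ?_)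
    show ψ m' (ψ m n) = ψ (m' * m) n
    rw [map_mul]; rfl
  have hprod : (∏ m : M, (n * (ψ m n)⁻¹)) ∈ L.comap (SemidirectProduct.inl : N →* N ⋊[ψ] X) :=
    prod_mem (fun m _ => hU m)
  rw [Finset.prod_mul_distrib, Finset.prod_inv_distrib, hw, inv_one, mul_one, Finset.prod_const,
    Finset.card_univ, ← Nat.card_eq_fintype_card] at hprod
  obtain ⟨j, hj⟩ := exists_pow_eq_self_of_coprime
    (hco.coprime_dvd_right (orderOf_dvd_natCard n))
  have hn : n ∈ L.comap (SemidirectProduct.inl : N →* N ⋊[ψ] X) := by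
    rw [← hj]; exact pow_mem hprod j
  rw [hg]
  exact mul_mem hn (Subgroup.mem_sup_left ⟨_, rfl⟩)

lemma norm_inr {N X : Type} [Group N] [Group X] (ψ : X →* MulAut N)
    (hfix : ∀ n, (∀ x, ψ x n = n) → n = 1) :
    normalizer (((SemidirectProduct.inr : X →* N ⋊[ψ] X).range : Subgroup _) : Set (N ⋊[ψ] X)) ≤
      (SemidirectProduct.inr : X →* N ⋊[ψ] X).range := by
  intro g hg
  rw [mem_inr]
  apply hfix
  intro y
  rw [mem_normalizer_iff] at hg
  have h1 := (hg (SemidirectProduct.inr (g.right⁻¹ * y * g.right))).mp ⟨_, rfl⟩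
  rw [mem_inr] at h1
  have h2 : (g * SemidirectProduct.inr (g.right⁻¹ * y * g.right) * g⁻¹).left =
      g.left * (ψ y g.left)⁻¹ := by
    show g.left * ψ g.right 1 * ψ (g.right * (g.right⁻¹ * y * g.right)) (ψ g.right⁻¹ g.left⁻¹) = _
    rw [map_one, mul_one, ← MulAut.mul_apply, ← map_mul, ← map_inv (ψ y)]
    congr 3
    group
  rw [h2, mul_inv_eq_one] at h1
  exact h1.symm

/-- `inr` as Sylow -/
lemma exists_sylInr {p q : ℕ} [hp : Fact p.Prime] [hq : Fact q.Prime] (hpq : p ≠ q)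
    {Q C : Type} [Group Q] [Group C] [Finite Q] [Finite C] (hQ : IsPGroup p Q)
    (hC : IsPGroup q C) (φ : C →* MulAut Q) :
    ∃ S : Sylow q (Q ⋊[φ] C), (S : Subgroup _) = (SemidirectProduct.inr : C →* Q ⋊[φ] C).range := by
  obtain ⟨k, hk⟩ := IsPGroup.iff_card.mp hQ
  have hsyl : ¬ q ∣ (SemidirectProduct.inr : C →* Q ⋊[φ] C).range.index := by
    rw [index_inr, hk]
    intro h
    exact hpq ((Nat.prime_dvd_prime_iff_eq hq.out hp.out).mp (hq.out.dvd_of_dvd_pow h)).symm
  exact ⟨(hC.of_surjective (SemidirectProduct.inr : C →* Q ⋊[φ] C).rangeRestrict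
    (MonoidHom.rangeRestrict_surjective _)).toSylow hsyl, rfl⟩

lemma SN_sd {p q : ℕ} [hp : Fact p.Prime] [hq : Fact q.Prime] (hpq : p ≠ q)
    {Q C : Type} [Group Q] [Group C] [Finite Q] [Finite C] (hQ : IsPGroup p Q)
    (hC : IsPGroup q C) (φ : C →* MulAut Q) (hfix : ∀ n, (∀ x, φ x n = n) → n = 1) :
    SN q (Q ⋊[φ] C) := by
  obtain ⟨S, hS⟩ := exists_sylInr hpq hQ hC φ
  refine ⟨S, ?_⟩
  rw [hS]
  exact norm_inr φ hfix

/-- all groups `Q ⋊ C`, `Q` a `p`-group, `C` an abelian `q`-group, are in `F` -/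
def Full (F : GC) (p q : ℕ) : Prop :=
  ∀ (Q C : Type) [Group Q] [Group C] [Finite Q] [Finite C], IsPGroup p Q → IsPGroup q C →
    (∀ a b : C, a * b = b * a) → ∀ φ : C →* MulAut Q, F (Q ⋊[φ] C)

lemma FC.step (hF : FC F) {p q : ℕ} [hp : Fact p.Prime] [hq : Fact q.Prime] (hpq : p ≠ q)
    (hFp : AllP F p) (hFq : AllP F q) {B : Type} [Group B] [Finite B] (hB : Nat.card B = q)
    (h : ∀ (Q : Type) [Group Q] [Finite Q], IsPGroup p Q → ∀ φ : B →* MulAut Q, F (Q ⋊[φ] B)) :
    Full F q p := by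
  classical
  intro Q C _ _ _ _ hQ hC hCc φ
  letI : CommGroup C := { (inferInstance : Group C) with mul_comm := hCc }
  haveI : Fintype (B ⧸ (⊥ : Subgroup B)) := Fintype.ofFinite _
  have hBp : IsPGroup q B := IsPGroup.of_card (n := 1) (by rw [hB, pow_one])
  haveI : Finite ((B ⧸ (⊥ : Subgroup B)) → C) := Pi.finite
  haveI : Finite (Aug (⊥ : Subgroup B) C) := inferInstance
  have hAp : IsPGroup p (Aug (⊥ : Subgroup B) C) := (pi_pgroup hC).to_subgroup _
  have hidx : (⊥ : Subgroup B).index = q := by rw [Subgroup.index_bot, hB]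
  have hSN : SN q (Aug (⊥ : Subgroup B) C ⋊[augAct ⊥ C] B) := by
    refine SN_sd hpq hAp hBp _ (fun v hv => ?_)
    refine aug_fix (⊥ : Subgroup B) hC ?_ ⊤ (fun x => ⟨x, trivial, 1, one_mem _, mul_one x⟩) v
      (fun m _ => hv m)
    rw [hidx]
    intro hd
    exact hpq ((Nat.prime_dvd_prime_iff_eq hp.out hq.out).mp hd)
  have hnt : Nontrivial (B ⧸ (⊥ : Subgroup B)) := by
    rw [← Finite.one_lt_card_iff_nontrivial, ← Subgroup.index_eq_card, hidx]; exact hq.out.one_lt
  obtain ⟨x, y, hxy⟩ := exists_pair_ne (B ⧸ (⊥ : Subgroup B))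
  refine hF.lemF hpq.symm hFq hFp (h _ hAp _) hSN
    (SemidirectProduct.inl : Aug (⊥ : Subgroup B) C →* Aug (⊥ : Subgroup B) C ⋊[augAct ⊥ C] B).range
    (inlNormal _) ?_ hQ hC (SemidirectProduct.inl.comp (augEmb ⊥ C x y)) ?_ ?_ φ
  · rintro _ ⟨a, rfl⟩ _ ⟨b, rfl⟩
    rw [← map_mul, ← map_mul, mul_comm]
  · exact SemidirectProduct.inl_injective.comp (augEmb_inj ⊥ C hxy)
  · intro c
    exact ⟨_, rfl⟩

lemma FC.sym (hF : FC F) {r s : ℕ} [hr : Fact r.Prime] [hs : Fact s.Prime] (hrs : r ≠ s)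
    (hFr : AllP F r) (hFs : AllP F s) {H : Type} [Group H] (hH : F H) (hSN : SN r H)
    (V : Subgroup H) (hV : V.Normal) (hVc : ∀ a ∈ V, ∀ b ∈ V, a * b = b * a) (c : H) (hc : c ∈ V)
    (hcs : orderOf c = s) : Full F r s ∧ Full F s r := by
  haveI := hF.fin hH
  have hcard : Nat.card (Subgroup.zpowers c) = s := by rw [Nat.card_zpowers, hcs]
  have hB : IsPGroup s (Subgroup.zpowers c) := IsPGroup.of_card (n := 1) (by rw [hcard, pow_one])
  have h1 : Full F s r := by
    refine hF.step hrs hFr hFs hcard ?_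
    intro Q _ _ hQ φ
    refine hF.lemF hrs hFr hFs hH hSN V hV hVc hQ hB (Subgroup.zpowers c).subtype
      (Subgroup.subtype_injective _) ?_ φ
    intro x
    exact (Subgroup.zpowers_le.mpr hc) x.2
  refine ⟨?_, h1⟩
  have hcr : Nat.card (Multiplicative (ZMod r)) = r := by
    rw [Nat.card_congr Multiplicative.toAdd, Nat.card_zmod]
  haveI : Finite (Multiplicative (ZMod r)) := Nat.finite_of_card_ne_zero (by rw [hcr]; exact hr.out.ne_zero)
  refine hF.step hrs.symm hFs hFr hcr ?_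
  intro Q _ _ hQ φ
  exact h1 Q _ hQ (IsPGroup.of_card (n := 1) (by rw [hcr, pow_one])) (fun a b => mul_comm a b) φ

lemma exists_orderOf_aug {X : Type} [Group X] (K : Subgroup X) [Fintype (X ⧸ K)]
    {t : ℕ} [ht : Fact t.Prime] (hK : 1 < K.index) :
    ∃ v : Aug K (Multiplicative (ZMod t)), orderOf v = t := by
  classical
  have hct : Nat.card (Multiplicative (ZMod t)) = t := by
    rw [Nat.card_congr Multiplicative.toAdd, Nat.card_zmod]
  haveI : Finite (Multiplicative (ZMod t)) := Nat.finite_of_card_ne_zero (by rw [hct]; exact ht.out.ne_zero)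
  rw [Subgroup.index_eq_card, Finite.one_lt_card_iff_nontrivial] at hK
  obtain ⟨x, y, hxy⟩ := exists_pair_ne (X ⧸ K)
  obtain ⟨a, ha⟩ := exists_prime_orderOf_dvd_card' (G := Multiplicative (ZMod t)) t (by rw [hct])
  exact ⟨augEmb K _ x y a, by rw [orderOf_injective _ (augEmb_inj K _ hxy), ha]⟩

lemma card_mz (p : ℕ) : Nat.card (Multiplicative (ZMod p)) = p := by
  rw [Nat.card_congr Multiplicative.toAdd, Nat.card_zmod]

lemma pg_mz (p : ℕ) [Fact p.Prime] : IsPGroup p (Multiplicative (ZMod p)) :=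
  IsPGroup.of_card (n := 1) (by rw [card_mz, pow_one])

lemma fin_mz (p : ℕ) [hp : Fact p.Prime] : Finite (Multiplicative (ZMod p)) :=
  Nat.finite_of_card_ne_zero (by rw [card_mz]; exact hp.out.ne_zero)

lemma fin_aug {X : Type} [Group X] (K : Subgroup X) [Fintype (X ⧸ K)] (C : Type) [CommGroup C]
    [Finite C] : Finite (Aug K C) := by
  haveI : Finite ((X ⧸ K) → C) := Pi.finite
  infer_instance

lemma FC.gen (hF : FC F) {r t : ℕ} [hr : Fact r.Prime] [ht : Fact t.Prime] (hrt : r ≠ t)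
    (hFr : AllP F r) (hFt : AllP F t) {X : Type} [Group X] [Finite X] (K : Subgroup X)
    [Fintype (X ⧸ K)] (hK : 1 < K.index) (htK : ¬ t ∣ K.index) (V : Subgroup X) (hV : V.Normal)
    (hVr : IsPGroup r V) (hVc : ∀ a b : V, a * b = b * a)
    (hdec : ∀ x : X, ∃ m ∈ V, ∃ k ∈ K, m * k = x)
    (hG : F (Aug K (Multiplicative (ZMod t)) ⋊[augAct K (Multiplicative (ZMod t))] X)) :
    Full F r t ∧ Full F t r := by
  haveI := fin_mz t
  haveI := fin_aug K (Multiplicative (ZMod t))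
  have hUt : IsPGroup t (Aug K (Multiplicative (ZMod t))) := (pi_pgroup (pg_mz t)).to_subgroup _
  have hfix : ∀ n : Aug K (Multiplicative (ZMod t)),
      (∀ m ∈ V, augAct K (Multiplicative (ZMod t)) m n = n) → n = 1 := fun n hn =>
    aug_fix K (pg_mz t) htK V hdec n hn
  have hG2 : F (Aug K (Multiplicative (ZMod t)) ⋊[(augAct K (Multiplicative (ZMod t))).comp
      V.subtype] V) :=
    hF.sdnorm _ V.subtype hG V.subtype_injective (by rw [Subgroup.range_subtype]; exact hV)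
  have hSN : SN r (Aug K (Multiplicative (ZMod t)) ⋊[(augAct K (Multiplicative (ZMod t))).comp
      V.subtype] V) := by
    refine SN_sd hrt.symm hUt hVr _ (fun n hn => hfix n (fun m hm => ?_))
    exact hn ⟨m, hm⟩
  obtain ⟨u, hu⟩ := exists_orderOf_aug K (t := t) hK
  refine hF.sym hrt hFr hFt hG2 hSN (SemidirectProduct.inl : Aug K (Multiplicative (ZMod t)) →*
    Aug K (Multiplicative (ZMod t)) ⋊[(augAct K (Multiplicative (ZMod t))).comp
      V.subtype] V).range (inlNormal _) ?_ (SemidirectProduct.inl u) ⟨u, rfl⟩ ?_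
  · rintro _ ⟨a, rfl⟩ _ ⟨b, rfl⟩
    rw [← map_mul, ← map_mul, mul_comm]
  · rw [orderOf_injective _ SemidirectProduct.inl_injective, hu]

lemma FC.trans0 (hF : FC F) {r s t : ℕ} [hr : Fact r.Prime] [hs : Fact s.Prime]
    [ht : Fact t.Prime] (hrs : r ≠ s) (hrt : r ≠ t)
    (hFr : AllP F r) (hFt : AllP F t) (h2 : Full F t s)
    {V W : Type} [CommGroup V] [Group W] [Finite V] [Finite W] (hVr : IsPGroup r V)
    (hWs : IsPGroup s W) (hWc : ∀ a b : W, a * b = b * a) (φ : W →* MulAut V)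
    (hfix0 : ∀ n, (∀ x, φ x n = n) → n = 1) (hVnt : 1 < Nat.card V) (hX : F (V ⋊[φ] W)) :
    Full F r t ∧ Full F t r := by
  haveI := fin_mz t
  obtain ⟨K, hKdef⟩ : ∃ K, K = (SemidirectProduct.inr : W →* V ⋊[φ] W).range := ⟨_, rfl⟩
  have hidx : K.index = Nat.card V := by rw [hKdef]; exact index_inr _
  have hKm : ∀ z, z ∈ K ↔ ∃ w : W, (SemidirectProduct.inr w : V ⋊[φ] W) = z := by
    rw [hKdef]; exact fun z => Iff.rfl
  obtain ⟨k, hk⟩ := IsPGroup.iff_card.mp hVr
  haveI : Fintype ((V ⋊[φ] W) ⧸ K) := Fintype.ofFinite _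
  haveI := fin_aug K (Multiplicative (ZMod t))
  have hUt : IsPGroup t (Aug K (Multiplicative (ZMod t))) := (pi_pgroup (pg_mz t)).to_subgroup _
  obtain ⟨V', hV'⟩ : ∃ V', V' = (SemidirectProduct.inl : V →* V ⋊[φ] W).range := ⟨_, rfl⟩
  have hdec : ∀ x : V ⋊[φ] W, ∃ m ∈ V', ∃ k ∈ K, m * k = x := fun x => by
    rw [hV', hKdef]
    exact ⟨_, ⟨x.left, rfl⟩, _, ⟨x.right, rfl⟩, SemidirectProduct.inl_left_mul_inr_right x⟩
  have hKt : ¬ t ∣ K.index := by
    rw [hidx, hk]
    intro hd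
    exact hrt ((Nat.prime_dvd_prime_iff_eq ht.out hr.out).mp (ht.out.dvd_of_dvd_pow hd)).symm
  have hfix : ∀ n : Aug K (Multiplicative (ZMod t)),
      (∀ m ∈ V', augAct K (Multiplicative (ZMod t)) m n = n) → n = 1 := fun n hn =>
    aug_fix K (pg_mz t) hKt V' hdec n hn
  have hUs : Group.IsSolvable (Aug K (Multiplicative (ZMod t))) := by
    haveI : Group.IsNilpotent (Aug K (Multiplicative (ZMod t))) := hUt.isNilpotent
    infer_instance
  have hV'c : Nat.card V' = Nat.card V := by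
    rw [hV']
    exact (Nat.card_congr (MonoidHom.ofInjective (SemidirectProduct.inl_injective
          (φ := φ))).toEquiv).symm
  obtain ⟨ψ, hψ⟩ : ∃ ψ, ψ = augAct K (Multiplicative (ZMod t)) := ⟨_, rfl⟩
  rw [← hψ] at hfix
  have hG : F (Aug K (Multiplicative (ZMod t)) ⋊[ψ] (V ⋊[φ] W)) := by
    refine hF.af _ (sdsol ψ hUs (hF.sol hX)) (K.comap SemidirectProduct.rightHom)
      (SemidirectProduct.inr : (V ⋊[φ] W) →* Aug K (Multiplicative (ZMod t)) ⋊[ψ] (V ⋊[φ] W)).range
      ?_ ?_ ?_ ?_ ?_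
    · refine abn_comap _ SemidirectProduct.rightHom_surjective ?_
      obtain ⟨S, hS⟩ := exists_sylInr hrs hVr hWs φ
      refine abn_sylow S ?_
      rw [hS, hKdef]
      exact norm_inr _ hfix0
    · refine abn_inr ψ V' ?_ hfix
      obtain ⟨l, hl⟩ := IsPGroup.iff_card.mp hUt
      rw [hV'c, hk, hl]
      exact Nat.Coprime.pow _ _ ((Nat.coprime_primes hr.out ht.out).mpr hrt)
    · have h3 : F (Aug K (Multiplicative (ZMod t)) ⋊[ψ.comp (SemidirectProduct.inr : W →* V ⋊[φ] W)] W) :=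
        h2 _ W hUt hWs hWc _
      have h4 := hF.equiv (MonoidHom.ofInjective (sdmap_inj ψ (SemidirectProduct.inr : W →* V ⋊[φ] W)
        SemidirectProduct.inr_injective)) h3
      have h5 : (sdmap ψ (SemidirectProduct.inr : W →* V ⋊[φ] W)).range =
          K.comap SemidirectProduct.rightHom := by
        ext x
        constructor
        · rintro ⟨y, rfl⟩; exact (hKm _).mpr ⟨y.right, rfl⟩
        · intro hx
          obtain ⟨y, hy⟩ := (hKm _).mp hx
          exact ⟨⟨x.left, y⟩, SemidirectProduct.ext rfl hy⟩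
      rw [← h5]; exact h4
    · exact hF.equiv (MonoidHom.ofInjective SemidirectProduct.inr_injective) hX
    · intro g
      refine ⟨SemidirectProduct.inl g.left, ?_, _, ⟨g.right, rfl⟩,
        SemidirectProduct.inl_left_mul_inr_right g⟩
      exact one_mem K
  rw [hψ] at hG
  refine hF.gen hrt hFr hFt K (by rw [hidx]; exact hVnt) hKt V' (by rw [hV']; exact inlNormal _)
    ?_ ?_ hdec hG
  · rw [hV']
    exact hVr.of_surjective _ (MonoidHom.rangeRestrict_surjective _)
  · rw [hV']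
    rintro ⟨_, a, rfl⟩ ⟨_, b, rfl⟩
    apply Subtype.ext
    show (SemidirectProduct.inl a : V ⋊[φ] W) * SemidirectProduct.inl b = _
    rw [← map_mul, mul_comm, map_mul]; rfl

lemma FC.trans (hF : FC F) {r s t : ℕ} [hr : Fact r.Prime] [hs : Fact s.Prime] [ht : Fact t.Prime]
    (hrs : r ≠ s) (hrt : r ≠ t)
    (hFr : AllP F r) (hFt : AllP F t) (h1 : Full F r s) (h2 : Full F t s) :
    Full F r t ∧ Full F t r := by
  haveI := fin_mz s
  haveI := fin_mz r
  haveI : Fintype (Multiplicative (ZMod s) ⧸ (⊥ : Subgroup (Multiplicative (ZMod s)))) :=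
    Fintype.ofFinite _
  haveI := fin_aug (⊥ : Subgroup (Multiplicative (ZMod s))) (Multiplicative (ZMod r))
  have hVr : IsPGroup r (Aug (⊥ : Subgroup (Multiplicative (ZMod s))) (Multiplicative (ZMod r))) :=
    (pi_pgroup (pg_mz r)).to_subgroup _
  refine hF.trans0 hrs hrt hFr hFt h2 hVr (pg_mz s) (fun a b => mul_comm a b)
    (augAct (⊥ : Subgroup (Multiplicative (ZMod s))) (Multiplicative (ZMod r))) ?_ ?_
    (h1 _ _ hVr (pg_mz s) (fun a b => mul_comm a b) _)
  · intro v hv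
    refine aug_fix (⊥ : Subgroup (Multiplicative (ZMod s))) (pg_mz r) ?_ ⊤
      (fun x => ⟨x, trivial, 1, one_mem _, mul_one x⟩) v (fun m _ => hv m)
    rw [Subgroup.index_bot, card_mz]
    intro hd
    exact hrs ((Nat.prime_dvd_prime_iff_eq hr.out hs.out).mp hd)
  · rw [Finite.one_lt_card_iff_nontrivial]
    obtain ⟨v, hv⟩ := exists_orderOf_aug (⊥ : Subgroup (Multiplicative (ZMod s))) (t := r) (by
      rw [Subgroup.index_bot, card_mz]; exact hs.out.one_lt)
    refine ⟨v, 1, fun h => ?_⟩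
    rw [h, orderOf_one] at hv
    exact hr.out.one_lt.ne hv

end Pool.Agent.H23.Fit
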