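import Pool.Agent.H23.Fit4

set_option autoImplicit false

open Subgroup
open scoped commutatorElement

namespace Pool.Agent.H23.Fit

variable {F : GC}

lemma chief {X : Type} [Group X] [Finite X] (hs : Group.IsSolvable X) (M : Subgroup X)
    (hM : M.Normal) (hne : M ≠ ⊥) : ∃ (M1 : Subgroup X) (r : ℕ), M1.Normal ∧ M1 < M ∧ r.Prime ∧
      (∀ a ∈ M, ∀ b ∈ M, ⁅a, b⁆ ∈ M1) ∧ (∀ a ∈ M, a ^ r ∈ M1) ∧
      (∀ T : Subgroup X, T.Normal → M1 ≤ T → T ≤ M → T = M1 ∨ T = M) ∧ r ∣ Nat.card M := by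
  let S : Set (Subgroup X) := {L | L.Normal ∧ L < M}
  obtain ⟨M1, ⟨hM1n, hM1lt⟩, hmax⟩ := WellFounded.has_min (wellFounded_gt (α := Subgroup X)) S
    ⟨⊥, inferInstance, bot_lt_iff_ne_bot.mpr hne⟩
  haveI := hM
  haveI := hM1n
  haveI := hs
  have hmax' : ∀ T : Subgroup X, T.Normal → M1 ≤ T → T ≤ M → T = M1 ∨ T = M := by
    intro T hT h1 h2
    by_cases h3 : T = M
    · exact Or.inr h3
    · left
      by_contra h4
      exact hmax T ⟨hT, lt_of_le_of_ne h2 h3⟩ (lt_of_le_of_ne h1 (Ne.symm h4))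
  set q := QuotientGroup.mk' M1 with hq
  have hqk : ∀ x, q x = 1 ↔ x ∈ M1 := fun x => by
    rw [hq, QuotientGroup.mk'_apply, QuotientGroup.eq_one_iff]
  have hMq : M.map q ≠ ⊥ := by
    intro h
    apply hM1lt.not_ge
    intro x hx
    have : q x ∈ M.map q := ⟨x, hx, rfl⟩
    rw [h, mem_bot] at this
    exact (hqk x).mp this
  have hcomm : ⁅M, M⁆ ≤ M1 := by
    rcases hmax' (⁅M, M⁆ ⊔ M1) inferInstance le_sup_right
      (sup_le (Subgroup.commutator_le_left M M) hM1lt.le) with h | h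
    · rw [← h]; exact le_sup_left
    · exfalso
      have h1 : ⁅M.map q, M.map q⁆ = M.map q := by
        rw [← Subgroup.map_commutator]
        have h2 := congrArg (Subgroup.map q) h
        rw [Subgroup.map_sup] at h2
        have h3 : M1.map q = ⊥ := by
          rw [eq_bot_iff]
          rintro _ ⟨x, hx, rfl⟩
          rw [mem_bot]; exact (hqk x).mpr hx
        rw [h3, sup_bot_eq] at h2
        exact h2
      exact (Group.IsSolvable.commutator_lt_of_ne_bot hMq).ne h1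
  have hc' : ∀ a ∈ M, ∀ b ∈ M, ⁅a, b⁆ ∈ M1 := fun a ha b hb =>
    hcomm (Subgroup.commutator_mem_commutator ha hb)
  have hcq : ∀ a ∈ M.map q, ∀ b ∈ M.map q, Commute a b := by
    rintro _ ⟨a, ha, rfl⟩ _ ⟨b, hb, rfl⟩
    have h1 := (hqk _).mpr (hc' a ha b hb)
    rw [map_commutatorElement, commutatorElement_eq_one_iff_commute] at h1
    exact h1
  have hcard : Nat.card (M.map q) ≠ 1 := fun h => hMq ((Subgroup.card_eq_one).mp h)
  obtain ⟨r, hr, hrd⟩ := Nat.exists_prime_and_dvd hcard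
  haveI : Fact r.Prime := ⟨hr⟩
  obtain ⟨y', hyo0⟩ := exists_prime_orderOf_dvd_card' r hrd
  obtain ⟨y, hyM, hyy⟩ := y'.2
  have hyo : orderOf (q y) = r := by
    rw [hyy, Subgroup.orderOf_coe, hyo0]
  let E' : Subgroup (X ⧸ M1) :=
    { carrier := {x | x ∈ M.map q ∧ x ^ r = 1}
      mul_mem' := by
        rintro a b ⟨ha, ha'⟩ ⟨hb, hb'⟩
        refine ⟨mul_mem ha hb, ?_⟩
        rw [(hcq a ha b hb).mul_pow, ha', hb', one_mul]
      one_mem' := ⟨one_mem _, one_pow _⟩
      inv_mem' := by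
        rintro a ⟨ha, ha'⟩
        refine ⟨inv_mem ha, ?_⟩
        rw [inv_pow, ha', inv_one] }
  have hMqn : (M.map q).Normal := hM.map q (QuotientGroup.mk'_surjective M1)
  have hE'n : E'.Normal := by
    refine ⟨?_⟩
    rintro x ⟨hx, hx'⟩ g
    refine ⟨hMqn.conj_mem x hx g, ?_⟩
    rw [conj_pow, hx', mul_one, mul_inv_cancel]
  have hEM : E'.comap q ≤ M := by
    rintro x ⟨⟨m, hm, hmx⟩, _⟩
    have h1 : m⁻¹ * x ∈ M1 := by rw [← hqk, map_mul, map_inv, hmx, inv_mul_cancel]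
    have := mul_mem hm (hM1lt.le h1)
    rwa [mul_inv_cancel_left] at this
  have hM1E : M1 ≤ E'.comap q := by
    intro x hx
    have : q x = 1 := (hqk x).mpr hx
    show q x ∈ E'
    rw [this]; exact one_mem _
  refine ⟨M1, r, hM1n, hM1lt, hr, hc', ?_, hmax', ?_⟩
  · rcases hmax' _ (hE'n.comap q) hM1E hEM with h | h
    · exfalso
      have h1 : y ∈ E'.comap q := ⟨⟨y, hyM, rfl⟩, by rw [← hyo]; exact pow_orderOf_eq_one _⟩
      rw [h, ← hqk] at h1
      rw [h1, orderOf_one] at hyo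
      exact hr.one_lt.ne hyo
    · intro a ha
      rw [← h] at ha
      rw [← hqk, map_pow]
      exact ha.2
  · rw [← hyo]
    exact (orderOf_map_dvd q y).trans (Subgroup.orderOf_dvd_natCard M hyM)

lemma FC.supSub (hF : FC F) {G : Type} [Group G] [Finite G] {B P1 P2 : Subgroup G} (h1 : P1 ≤ B)
    (h2 : P2 ≤ B) (hn1 : ∀ b ∈ B, ∀ x ∈ P1, b * x * b⁻¹ ∈ P1)
    (hn2 : ∀ b ∈ B, ∀ x ∈ P2, b * x * b⁻¹ ∈ P2) (hdec : ∀ b ∈ B, b ∈ P1 ⊔ P2)
    (hF1 : F P1) (hF2 : F P2) : F B := by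
  refine hF.top (N := P1.subgroupOf B) (M := P2.subgroupOf B)
    ⟨fun n hn g => hn1 g g.2 n hn⟩ ⟨fun n hn g => hn2 g g.2 n hn⟩ ?_
    (hF.equiv (Subgroup.subgroupOfEquivOfLe h1).symm hF1)
    (hF.equiv (Subgroup.subgroupOfEquivOfLe h2).symm hF2)
  rw [← Subgroup.subgroupOf_sup h1 h2, Subgroup.subgroupOf_eq_top]
  exact fun b hb => hdec b hb

lemma mem_conj_sylow {s : ℕ} [Fact s.Prime] {X : Type} [Group X] [Finite X] (C : Sylow s X)
    {x : X} {k : ℕ} (hx : x ^ s ^ k = 1) : ∃ g : X, ∃ c ∈ (C : Subgroup X), x = g * c * g⁻¹ := by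
  have h1 : IsPGroup s (Subgroup.zpowers x) := by
    rintro ⟨y, i, rfl⟩
    refine ⟨k, Subtype.ext ?_⟩
    show (x ^ i) ^ s ^ k = 1
    rw [← zpow_natCast, ← zpow_mul, mul_comm, zpow_mul, zpow_natCast, hx, one_zpow]
  obtain ⟨P, hP⟩ := h1.exists_le_sylow
  obtain ⟨g, hg⟩ := MulAction.exists_smul_eq X C P
  have hxP : x ∈ (P : Subgroup X) := hP (Subgroup.mem_zpowers x)
  rw [← hg, Sylow.coe_subgroup_smul] at hxP
  obtain ⟨c, hc, hcx⟩ := hxP
  exact ⟨g, c, hc, hcx.symm⟩

/-- the subgroup generated by the `s`-elements -/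
def Os (s : ℕ) (X : Type) [Group X] : Subgroup X := closure {x : X | ∃ k, x ^ s ^ k = 1}

lemma Os_normal (s : ℕ) (X : Type) [Group X] : (Os s X).Normal := by
  refine ⟨fun x hx g => ?_⟩
  unfold Os at hx ⊢
  induction hx using closure_induction with
  | mem x hx =>
    obtain ⟨k, hk⟩ := hx
    apply Subgroup.subset_closure
    refine ⟨k, ?_⟩
    rw [conj_pow, hk, mul_one, mul_inv_cancel]
  | one => rw [mul_one, mul_inv_cancel]; exact one_mem _
  | mul x y _ _ hx hy =>
    have : g * (x * y) * g⁻¹ = (g * x * g⁻¹) * (g * y * g⁻¹) := by group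
    rw [this]; exact mul_mem hx hy
  | inv x _ hx =>
    have : g * x⁻¹ * g⁻¹ = (g * x * g⁻¹)⁻¹ := by group
    rw [this]; exact inv_mem hx

lemma eq_one_of_coprime {G : Type} [Group G] {s k n : ℕ} (hs : s.Prime) {x : G}
    (h1 : x ^ s ^ k = 1) (h2 : orderOf x ∣ n) (h3 : ¬ s ∣ n) : x = 1 := by
  have h4 := Nat.dvd_gcd (orderOf_dvd_of_pow_eq_one h1) h2
  rw [(((Nat.Prime.coprime_iff_not_dvd hs).mpr h3).pow_left k).gcd_eq_one] at h4
  exact orderOf_eq_one_iff.mp (Nat.dvd_one.mp h4)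

lemma sylow_cover {s : ℕ} [hs : Fact s.Prime] {X : Type} [Group X] [Finite X] {M : Subgroup X}
    (hM : M.Normal) (hq : ∀ x : X, ∃ k, x ^ s ^ k ∈ M) (C : Sylow s X) :
    ∀ x : X, ∃ m ∈ M, ∃ c ∈ (C : Subgroup X), m * c = x := by
  have h1 : IsPGroup s (X ⧸ M) := by
    intro y
    obtain ⟨x, rfl⟩ := QuotientGroup.mk_surjective y
    obtain ⟨k, hk⟩ := hq x
    refine ⟨k, ?_⟩
    rw [← QuotientGroup.mk_pow, QuotientGroup.eq_one_iff]; exact hk
  obtain ⟨j, hj⟩ := IsPGroup.iff_card.mp h1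
  have h2 : (M ⊔ (C : Subgroup X)).index ∣ s ^ j := by
    rw [← hj, ← Subgroup.index_eq_card]
    exact Subgroup.index_dvd_of_le le_sup_left
  have h3 : ¬ s ∣ (M ⊔ (C : Subgroup X)).index := fun h =>
    C.not_dvd_index (h.trans (Subgroup.index_dvd_of_le le_sup_right))
  have h4 : (M ⊔ (C : Subgroup X)).index = 1 := by
    have h5 := Nat.dvd_gcd h2 dvd_rfl
    rw [(((Nat.Prime.coprime_iff_not_dvd hs.out).mpr h3).pow_left j).gcd_eq_one] at h5
    exact Nat.dvd_one.mp h5
  rw [Subgroup.index_eq_one] at h4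
  intro x
  have h5 : x ∈ M ⊔ (C : Subgroup X) := by rw [h4]; trivial
  exact (Subgroup.mem_sup_of_normal_left).mp h5

/-- main case of D2 -/
lemma FC.D2main (hF : FC F) {s : ℕ} [hs : Fact s.Prime] (hFs : AllP F s)
    (X : Type) [Group X] (hX : F X) (M : Subgroup X) (hM : M.Normal)
    (hq : ∀ x : X, ∃ k, x ^ s ^ k ∈ M) (hsM : ¬ s ∣ Nat.card M)
    (hD : ∀ D : Subgroup X, D ≤ M → F D) (hne : M ≠ ⊥) (hO : Os s X = ⊤) :
    ∃ r, r.Prime ∧ r ∣ Nat.card M ∧ r ≠ s ∧ Full F r s ∧ Full F s r := by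
  haveI := hF.fin hX
  have hXs := hF.sol hX
  obtain ⟨M1, r, hM1n, hM1lt, hr, hMc, hMr, hmax, hrM⟩ := chief hXs M hM hne
  haveI : Fact r.Prime := ⟨hr⟩
  have hrs : r ≠ s := by rintro rfl; exact hsM hrM
  have hFr : AllP F r := by
    have h1 : F M := hD M le_rfl
    intro P _ _ hP
    exact hF.pgroup (fun C _ hC => hF.char hr _ M rfl h1 hrM C hC) P hP
  obtain ⟨C⟩ : Nonempty (Sylow s X) := inferInstance
  have hdec := sylow_cover hM hq C
  have hMC : ∀ x ∈ M, x ∈ (C : Subgroup X) → x = 1 := by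
    intro x hx hxC
    obtain ⟨k, hk⟩ := C.isPGroup' ⟨x, hxC⟩
    have hk' : x ^ s ^ k = 1 := congrArg Subtype.val hk
    exact eq_one_of_coprime hs.out hk' (Subgroup.orderOf_dvd_natCard M hx) hsM
  obtain ⟨K, hK⟩ : ∃ K, K = M1 ⊔ (C : Subgroup X) := ⟨_, rfl⟩
  have hM1K : M1 ≤ K := by rw [hK]; exact le_sup_left
  have hCK : (C : Subgroup X) ≤ K := by rw [hK]; exact le_sup_right
  have hdecK : ∀ x : X, ∃ m ∈ M, ∃ k ∈ K, m * k = x := by
    intro x
    obtain ⟨m, hm, c, hc, h⟩ := hdec x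
    exact ⟨m, hm, c, hCK hc, h⟩
  have hKM : ∀ x ∈ M, x ∈ K → x ∈ M1 := by
    intro x hx hxK
    rw [hK] at hxK
    obtain ⟨m, hm, c, hc, rfl⟩ := (Subgroup.mem_sup_of_normal_left).mp hxK
    have h1 : c ∈ M := by
      have := mul_mem (inv_mem (hM1lt.le hm)) hx
      rwa [inv_mul_cancel_left] at this
    rw [hMC c h1 hc, mul_one]; exact hm
  have hKtop : K ≠ ⊤ := by
    intro h
    apply hM1lt.not_ge
    intro x hx
    exact hKM x hx (by rw [h]; trivial)
  have hKidx : 1 < K.index := K.one_lt_index_of_ne_top hKtop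
  have hsK : ¬ s ∣ K.index := fun h => C.not_dvd_index (h.trans (Subgroup.index_dvd_of_le hCK))
  -- D lies in M1
  have hDM1 : ∀ d ∈ M, (∀ c ∈ (C : Subgroup X), d * c = c * d) → d ∈ M1 := by
    set q := QuotientGroup.mk' M1 with hqdef
    have hqk : ∀ x, q x = 1 ↔ x ∈ M1 := fun x => by
      rw [hqdef, QuotientGroup.mk'_apply, QuotientGroup.eq_one_iff]
    have hcq : ∀ a ∈ M, ∀ b ∈ M, q a * q b = q b * q a := by
      intro a ha b hb
      have h1 := (hqk _).mpr (hMc a ha b hb)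
      rw [map_commutatorElement, commutatorElement_eq_one_iff_commute] at h1
      exact h1
    have hTn : (M ⊓ (Subgroup.center (X ⧸ M1)).comap q).Normal := inferInstance
    rcases hmax _ hTn (le_inf hM1lt.le (by
        intro x hx
        show q x ∈ Subgroup.center (X ⧸ M1)
        rw [(hqk x).mpr hx]; exact one_mem _)) inf_le_left with h | h
    · intro d hd hdc
      rw [← h]
      refine ⟨hd, ?_⟩
      show q d ∈ Subgroup.center (X ⧸ M1)
      rw [Subgroup.mem_center_iff]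
      intro y
      obtain ⟨x, rfl⟩ := QuotientGroup.mk'_surjective M1 y
      obtain ⟨m, hm, c, hc, rfl⟩ := hdec x
      show q (m * c) * q d = q d * q (m * c)
      rw [map_mul, mul_assoc, ← map_mul q c d, ← hdc c hc, map_mul, ← mul_assoc, hcq m hm d hd,
        mul_assoc]
    · exfalso
      apply hKtop
      rw [eq_top_iff, ← hO, Os, closure_le]
      rintro x ⟨k, hk⟩
      obtain ⟨g, c, hc, rfl⟩ := mem_conj_sylow C hk
      obtain ⟨m, hm, c', hc', rfl⟩ := hdec g
      have hmz : q m ∈ Subgroup.center (X ⧸ M1) := by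
        rw [← h] at hm; exact hm.2
      rw [Subgroup.mem_center_iff] at hmz
      have h1 : (c' * c * c'⁻¹)⁻¹ * (m * c' * c * (m * c')⁻¹) ∈ M1 := by
        rw [← hqk]
        have h2 := hmz (q (c' * c * c'⁻¹))
        have h3 : m * c' * c * (m * c')⁻¹ = m * (c' * c * c'⁻¹) * m⁻¹ := by group
        rw [h3, map_mul, map_mul, map_mul q m, ← h2, map_inv, map_inv, mul_inv_cancel_right,
          inv_mul_cancel]
      have h4 := mul_mem (hCK (mul_mem (mul_mem hc' hc) (inv_mem hc'))) (hM1K h1)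
      rwa [mul_inv_cancel_left] at h4
  haveI : Fintype (X ⧸ K) := Fintype.ofFinite _
  haveI := fin_mz s
  haveI := fin_aug K (Multiplicative (ZMod s))
  have hNs : IsPGroup s (Aug K (Multiplicative (ZMod s))) := (pi_pgroup (pg_mz s)).to_subgroup _
  obtain ⟨ψ, hψ⟩ : ∃ ψ, ψ = augAct K (Multiplicative (ZMod s)) := ⟨_, rfl⟩
  have hfix : ∀ n : Aug K (Multiplicative (ZMod s)), (∀ m ∈ M, ψ m n = n) → n = 1 := by
    rw [hψ]
    exact fun n hn => aug_fix K (pg_mz s) hsK M hdecK n hn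
  have htriv : ∀ m ∈ M1, ∀ n, ψ m n = n := by
    rw [hψ]
    intro m hm n
    refine Subtype.ext (funext fun x => ?_)
    rw [augAct_apply]
    obtain ⟨g, rfl⟩ := QuotientGroup.mk_surjective x
    refine congrArg n.1 ?_
    show (QuotientGroup.mk (m⁻¹ * g) : X ⧸ K) = QuotientGroup.mk g
    rw [QuotientGroup.eq]
    apply hM1K
    have := hM1n.conj_mem m hm g⁻¹
    rw [inv_inv] at this
    rw [mul_inv_rev, inv_inv]; exact this
  have hcop : (Nat.card M).Coprime (Nat.card (Aug K (Multiplicative (ZMod s)))) := by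
    obtain ⟨l, hl⟩ := IsPGroup.iff_card.mp hNs
    rw [hl]
    exact (((Nat.Prime.coprime_iff_not_dvd hs.out).mpr hsM).symm).pow_right l
  have hNsol : Group.IsSolvable (Aug K (Multiplicative (ZMod s))) := by
    haveI : Group.IsNilpotent (Aug K (Multiplicative (ZMod s))) := hNs.isNilpotent
    infer_instance
  have hinl : ∀ n : Aug K (Multiplicative (ZMod s)), ∀ m ∈ M1,
      (SemidirectProduct.inl n : Aug K (Multiplicative (ZMod s)) ⋊[ψ] X) *
        SemidirectProduct.inr m = SemidirectProduct.inr m * SemidirectProduct.inl n := by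
    intro n m hm
    refine SemidirectProduct.ext ?_ ?_
    · show n * ψ 1 1 = 1 * ψ m n
      rw [htriv m hm n, map_one, one_mul, mul_one]
    · show 1 * m = m * 1
      rw [one_mul, mul_one]
  have hG : F (Aug K (Multiplicative (ZMod s)) ⋊[ψ] X) := by
    refine hF.af _ (sdsol ψ hNsol hXs)
      ((normalizer ((C : Subgroup X) : Set X)).comap SemidirectProduct.rightHom)
      (SemidirectProduct.inr : X →* Aug K (Multiplicative (ZMod s)) ⋊[ψ] X).range
      (abn_comap _ SemidirectProduct.rightHom_surjective (abn_sylow C le_rfl))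
      (abn_inr ψ M hcop hfix) ?_
      (hF.equiv (MonoidHom.ofInjective SemidirectProduct.inr_injective) hX) ?_
    · have hDc : ∀ d ∈ M, d ∈ normalizer ((C : Subgroup X) : Set X) → d ∈ M1 := by
        intro d hd hdn
        refine hDM1 d hd (fun c hc => ?_)
        have h1 : d * c * d⁻¹ ∈ (C : Subgroup X) := (mem_normalizer_iff.mp hdn c).mp hc
        have h2 : d * c * d⁻¹ * c⁻¹ ∈ (C : Subgroup X) := mul_mem h1 (inv_mem hc)
        have h3 : d * c * d⁻¹ * c⁻¹ ∈ M := by
          have : d * c * d⁻¹ * c⁻¹ = d * (c * d⁻¹ * c⁻¹) := by group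
          rw [this]
          exact mul_mem hd (hM.conj_mem _ (inv_mem hd) c)
        have h4 := hMC _ h3 h2
        have h5 : d * c * d⁻¹ = c := by rwa [mul_inv_eq_one] at h4
        rw [mul_inv_eq_iff_eq_mul] at h5
        exact h5
      refine hF.supSub (P1 := (C : Subgroup X).comap SemidirectProduct.rightHom)
        (P2 := (M ⊓ normalizer ((C : Subgroup X) : Set X)).map
          (SemidirectProduct.inr : X →* Aug K (Multiplicative (ZMod s)) ⋊[ψ] X))
        (Subgroup.comap_mono le_normalizer) ?_ ?_ ?_ ?_ ?_ ?_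
      · rintro _ ⟨d, ⟨_, hd⟩, rfl⟩
        exact hd
      · intro b hb x hx
        exact (mem_normalizer_iff.mp hb x.right).mp hx
      · rintro b hb _ ⟨d, ⟨hdM, hdn⟩, rfl⟩
        have hb' : b.right ∈ normalizer ((C : Subgroup X) : Set X) := hb
        have hdn' : b.right * d * b.right⁻¹ ∈ normalizer ((C : Subgroup X) : Set X) :=
          mul_mem (mul_mem hb' hdn) (inv_mem hb')
        refine ⟨b.right * d * b.right⁻¹, ⟨hM.conj_mem _ hdM _, hdn'⟩, ?_⟩
        have h1 : b.right * d * b.right⁻¹ ∈ M1 := hM1n.conj_mem _ (hDc d hdM hdn) _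
        have h2 := hinl b.left _ h1
        conv_rhs => rw [← SemidirectProduct.inl_left_mul_inr_right b]
        rw [map_mul, map_mul, map_inv] at h2 ⊢
        rw [mul_inv_rev]
        rw [mul_assoc (SemidirectProduct.inl b.left), mul_assoc (SemidirectProduct.inl b.left),
          ← mul_assoc _ (SemidirectProduct.inr b.right)⁻¹, ← mul_assoc (SemidirectProduct.inl b.left),
          h2, mul_inv_cancel_right]
      · intro b hb
        have hb' : b.right ∈ normalizer ((C : Subgroup X) : Set X) := hb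
        obtain ⟨m, hm, c, hc, hmc⟩ := hdec b.right
        have hmn : m ∈ normalizer ((C : Subgroup X) : Set X) := by
          have h1 : m = b.right * c⁻¹ := by rw [← hmc, mul_inv_cancel_right]
          rw [h1]
          exact mul_mem hb' (inv_mem (le_normalizer hc))
        rw [← SemidirectProduct.inl_left_mul_inr_right b, ← hmc, map_mul]
        refine mul_mem (Subgroup.mem_sup_left ?_) (mul_mem (Subgroup.mem_sup_right ?_)
          (Subgroup.mem_sup_left ?_))
        · exact one_mem (C : Subgroup X)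
        · exact ⟨m, ⟨hm, hmn⟩, rfl⟩
        · exact hc
      · refine hFs _ (C.isPGroup'.comap_of_ker_isPGroup _ ?_)
        rw [← SemidirectProduct.range_inl_eq_ker_rightHom]
        exact hNs.of_surjective _ (MonoidHom.rangeRestrict_surjective _)
      · exact hF.equiv (Subgroup.equivMapOfInjective _ _ SemidirectProduct.inr_injective)
          (hD _ inf_le_left)
    · intro g
      refine ⟨SemidirectProduct.inl g.left, ?_, _, ⟨g.right, rfl⟩,
        SemidirectProduct.inl_left_mul_inr_right g⟩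
      exact one_mem (normalizer ((C : Subgroup X) : Set X))
  have hG2 : F (Aug K (Multiplicative (ZMod s)) ⋊[ψ.comp M.subtype] M) :=
    hF.sdnorm ψ M.subtype hG M.subtype_injective (by rw [Subgroup.range_subtype]; exact hM)
  haveI : (M1.subgroupOf M).Normal := hM1n.subgroupOf M
  let ψ' : M ⧸ (M1.subgroupOf M) →* MulAut (Aug K (Multiplicative (ZMod s))) :=
    QuotientGroup.lift (M1.subgroupOf M) (ψ.comp M.subtype) (fun m hm => by
      apply MulEquiv.ext
      exact htriv m hm)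
  have hfix' : ∀ n, (∀ x, ψ' x n = n) → n = 1 := by
    intro n hn
    refine hfix n (fun m hm => ?_)
    exact hn (QuotientGroup.mk ⟨m, hm⟩)
  have hBr : IsPGroup r (M ⧸ (M1.subgroupOf M)) := by
    intro x
    obtain ⟨y, rfl⟩ := QuotientGroup.mk_surjective x
    refine ⟨1, ?_⟩
    rw [pow_one, ← QuotientGroup.mk_pow, QuotientGroup.eq_one_iff]
    exact hMr y y.2
  have hBc : ∀ a b : M ⧸ (M1.subgroupOf M), a * b = b * a := by
    intro a b
    obtain ⟨x, rfl⟩ := QuotientGroup.mk_surjective a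
    obtain ⟨y, rfl⟩ := QuotientGroup.mk_surjective b
    rw [← QuotientGroup.mk_mul, ← QuotientGroup.mk_mul, QuotientGroup.eq]
    have h1 := hMc _ (inv_mem y.2) _ (inv_mem x.2)
    rw [commutatorElement_def] at h1
    show (((x * y)⁻¹ * (y * x) : M) : X) ∈ M1
    convert h1 using 1
    push_cast
    group
  let α : Aug K (Multiplicative (ZMod s)) ⋊[ψ.comp M.subtype] M →*
      Aug K (Multiplicative (ZMod s)) ⋊[ψ'] (M ⧸ (M1.subgroupOf M)) :=
    { toFun := fun p => ⟨p.left, QuotientGroup.mk p.right⟩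
      map_one' := rfl
      map_mul' := fun a b => rfl }
  have hX1 : F (Aug K (Multiplicative (ZMod s)) ⋊[ψ'] (M ⧸ (M1.subgroupOf M))) := by
    refine hF.lemS2 hrs.symm hFs hFr hNs hBr hBc ψ' hG2 α ?_
      (SemidirectProduct.inl : Aug K (Multiplicative (ZMod s)) →* _).range (inlNormal _) ?_ ?_
    · rintro ⟨n, x⟩
      obtain ⟨y, rfl⟩ := QuotientGroup.mk_surjective x
      exact ⟨⟨n, y⟩, rfl⟩
    · rintro _ ⟨n, rfl⟩ h
      have h1 : n = 1 := congrArg SemidirectProduct.left h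
      rw [h1, map_one]
    · ext x
      constructor
      · rintro ⟨_, ⟨n, rfl⟩, rfl⟩
        exact ⟨n, rfl⟩
      · rintro ⟨n, rfl⟩
        exact ⟨_, ⟨n, rfl⟩, rfl⟩
  obtain ⟨u, hu⟩ := exists_orderOf_aug K (t := s) hKidx
  have hsym := hF.sym hrs hFr hFs hX1 (SN_sd hrs.symm hNs hBr ψ' hfix')
    (SemidirectProduct.inl : Aug K (Multiplicative (ZMod s)) →* _).range (inlNormal _) (by
      rintro _ ⟨a, rfl⟩ _ ⟨b, rfl⟩
      rw [← map_mul, ← map_mul, mul_comm]) (SemidirectProduct.inl u) ⟨u, rfl⟩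
      (by rw [orderOf_injective _ SemidirectProduct.inl_injective, hu])
  exact ⟨r, hr, hrM, hrs, hsym.1, hsym.2⟩

end Pool.Agent.H23.Fit
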