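import Pool.Agent.H23.Fit5

set_option autoImplicit false

open Subgroup
open scoped commutatorElement

namespace Pool.Agent.H23.Fit

variable {F : GC}

lemma Os_Os (s : ℕ) (X : Type) [Group X] : Os s (Os s X) = ⊤ := by
  have h := Subgroup.closure_closure_coe_preimage (k := {x : X | ∃ k, x ^ s ^ k = 1})
  show closure {x : closure {x : X | ∃ k, x ^ s ^ k = 1} | ∃ k, x ^ s ^ k = 1} = ⊤
  rw [eq_top_iff, ← h]
  refine closure_mono ?_
  rintro x ⟨k, hk⟩
  exact ⟨k, Subtype.ext hk⟩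

lemma FC.D2 (hF : FC F) {s : ℕ} [hs : Fact s.Prime] (hFs : AllP F s)
    (X : Type) [Group X] (hX : F X) (M : Subgroup X) (hM : M.Normal)
    (hq : ∀ x : X, ∃ k, x ^ s ^ k ∈ M) (hsM : ¬ s ∣ Nat.card M)
    (hD : ∀ D : Subgroup X, D ≤ M → F D) (c : X) (k : ℕ) (hc : c ^ s ^ k = 1) (m : X)
    (hm : m ∈ M) (hcm : c * m ≠ m * c) :
    ∃ r, r.Prime ∧ r ∣ Nat.card M ∧ r ≠ s ∧ AllP F r ∧ Full F r s ∧ Full F s r := by
  haveI := hF.fin hX
  have hcO : c ∈ Os s X := Subgroup.subset_closure ⟨k, hc⟩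
  have hOn := Os_normal s X
  have h1 : c * m * c⁻¹ * m⁻¹ ∈ M := mul_mem (hM.conj_mem _ hm _) (inv_mem hm)
  have h2 : c * m * c⁻¹ * m⁻¹ ∈ Os s X := by
    have : c * m * c⁻¹ * m⁻¹ = c * (m * c⁻¹ * m⁻¹) := by group
    rw [this]
    exact mul_mem hcO (hOn.conj_mem _ (inv_mem hcO) _)
  have hdvd : Nat.card (M.subgroupOf (Os s X)) ∣ Nat.card M :=
    Subgroup.card_comap_dvd_of_injective M (Os s X).subtype (Os s X).subtype_injective
  have g1 : ∀ x : Os s X, ∃ k, x ^ s ^ k ∈ M.subgroupOf (Os s X) := by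
    intro x
    obtain ⟨k, hk⟩ := hq x
    exact ⟨k, hk⟩
  have g2 : ∀ D : Subgroup (Os s X), D ≤ M.subgroupOf (Os s X) → F D := by
    intro D hD'
    refine hF.equiv (Subgroup.equivMapOfInjective D _ (Os s X).subtype_injective).symm (hD _ ?_)
    rintro _ ⟨x, hx, rfl⟩
    exact hD' hx
  have g3 : M.subgroupOf (Os s X) ≠ ⊥ := by
    intro hbot
    have h5 : (⟨_, h2⟩ : Os s X) ∈ M.subgroupOf (Os s X) := h1
    rw [hbot, mem_bot] at h5
    have h6 : c * m * c⁻¹ * m⁻¹ = 1 := congrArg Subtype.val h5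
    apply hcm
    rwa [mul_inv_eq_one, mul_inv_eq_iff_eq_mul] at h6
  obtain ⟨r, hr, hrd, hrs, h3, h4⟩ := hF.D2main hFs (Os s X) (hF.nor X _ hOn hX)
    (M.subgroupOf (Os s X)) (hM.subgroupOf _) g1 (fun h => hsM (h.trans hdvd)) g2 g3 (Os_Os s X)
  haveI : Fact r.Prime := ⟨hr⟩
  have hFM : F M := hD M le_rfl
  refine ⟨r, hr, hrd.trans hdvd, hrs, ?_, h3, h4⟩
  intro P _ _ hP
  exact hF.pgroup (fun C _ hC => hF.char hr _ M rfl hFM (hrd.trans hdvd) C hC) P hP

/-- the relation on primes -/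
def Rel (F : GC) (p q : ℕ) : Prop := p ≠ q ∧ AllP F p ∧ AllP F q ∧ Full F p q ∧ Full F q p

/-- The formation described by the relation. -/
structure Star (F : GC) (G : Type) [Group G] : Prop where
  fin : Finite G
  sol : Group.IsSolvable G
  chr : ∀ p, p.Prime → p ∣ Nat.card G → AllP F p
  com : ∀ p q, p.Prime → q.Prime → p ≠ q → ¬ Rel F p q → ∀ x y : G, (∃ k, x ^ p ^ k = 1) →
    (∃ k, y ^ q ^ k = 1) → x * y = y * x

lemma Star.inj {G H : Type} [Group G] [Group H] (h : Star F G) (f : H →* G)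
    (hf : Function.Injective f) : Star F H := by
  haveI := h.fin
  haveI := h.sol
  refine ⟨Finite.of_injective f hf, Group.isSolvable_of_isSolvable_injective hf, ?_, ?_⟩
  · intro p hp hd
    exact h.chr p hp (hd.trans (Subgroup.card_dvd_of_injective f hf))
  · intro p q hp hq hpq hr x y ⟨k, hk⟩ ⟨l, hl⟩
    apply hf
    rw [map_mul, map_mul]
    exact h.com p q hp hq hpq hr _ _ ⟨k, by rw [← map_pow, hk, map_one]⟩
      ⟨l, by rw [← map_pow, hl, map_one]⟩

lemma Star.sub {G : Type} [Group G] (h : Star F G) (H : Subgroup G) : Star F H :=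
  h.inj H.subtype H.subtype_injective

lemma internal {t s : ℕ} (G : Type) [Group G] [Finite G] (hts : Full F t s) (P C : Subgroup G)
    (hF : FC F) (hP : P.Normal) (hPt : IsPGroup t P) (hCs : IsPGroup s C)
    (hCc : ∀ a b : C, a * b = b * a) (h1 : P ⊔ C = ⊤) (h2 : P ⊓ C = ⊥) : F G := by
  have hcompl : P.IsComplement' C := by
    apply Subgroup.isComplement'_of_disjoint_and_mul_eq_univ
    · rw [disjoint_iff]; exact h2
    · rw [Set.eq_univ_iff_forall]
      intro g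
      have h3 : g ∈ P ⊔ C := by rw [h1]; trivial
      obtain ⟨x, hx, y, hy, h⟩ := (Subgroup.mem_sup_of_normal_left).mp h3
      exact ⟨x, hx, y, hy, h⟩
  exact hF.equiv (SemidirectProduct.mulEquivSubgroup hcompl) (hts P C hPt hCs hCc _)

lemma zpowers_pgroup {s k : ℕ} {X : Type} [Group X] {x : X} (hx : x ^ s ^ k = 1) :
    IsPGroup s (Subgroup.zpowers x) := by
  rintro ⟨y, i, rfl⟩
  refine ⟨k, Subtype.ext ?_⟩
  show (x ^ i) ^ s ^ k = 1
  rw [← zpow_natCast, ← zpow_mul, mul_comm, zpow_mul, zpow_natCast, hx, one_zpow]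

theorem FC.star_sub (hF : FC F) (hne : ∃ (G : Type) (_ : Group G), F G) (n : ℕ) :
    ∀ (G : Type) [Group G], Nat.card G = n → Star F G → F G := by
  induction n using Nat.strong_induction_on with
  | _ n ih =>
  intro G _ hn hG
  haveI := hG.fin
  haveI := hG.sol
  by_contra hcon
  have hsubF : ∀ H : Subgroup G, H ≠ ⊤ → F H := fun H hH =>
    ih (Nat.card H) (by rw [← hn]; exact card_lt_of_coatom hH) H rfl (hG.sub H)
  have hpF : ∀ (p : ℕ), p.Prime → ¬ IsPGroup p G := by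
    intro p hp h
    haveI : Fact p.Prime := ⟨hp⟩
    obtain ⟨k, hk⟩ := IsPGroup.iff_card.mp h
    rcases Nat.eq_zero_or_pos k with rfl | hkpos
    · rw [pow_zero] at hk
      haveI : Subsingleton G := (Nat.card_eq_one_iff_unique.mp hk).1
      obtain ⟨G0, _, hG0⟩ := hne
      exact hcon (hF.triv hG0)
    · exact hcon (hG.chr p hp (by rw [hk]; exact dvd_pow_self p hkpos.ne') G h)
  -- no two proper normal subgroups with product G
  have h1 : ∀ A B : Subgroup G, A.Normal → B.Normal → A ≠ ⊤ → B ≠ ⊤ → A ⊔ B ≠ ⊤ :=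
    fun A B hA hB hA1 hB1 h => hcon (hF.top hA hB h (hsubF A hA1) (hsubF B hB1))
  have hnt : Nontrivial G := by
    by_contra h
    rw [not_nontrivial_iff_subsingleton] at h
    exact hpF 2 Nat.prime_two (fun g => ⟨0, Subsingleton.elim _ _⟩)
  obtain ⟨M, hMn, hM, hidx⟩ := exists_normal_prime_index hG.sol hnt
  obtain ⟨s, hs⟩ : ∃ s, s = M.index := ⟨_, rfl⟩
  rw [← hs] at hidx
  haveI : Fact s.Prime := ⟨hidx⟩
  have hMmax : ∀ N : Subgroup G, N.Normal → N ≠ ⊤ → N ≤ M := by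
    intro N hN hN1
    by_contra h
    apply h1 N M hN hMn hN1 hM.1
    refine hM.2 _ (lt_of_le_of_ne le_sup_right (fun h' => h ?_))
    rw [h']; exact le_sup_left
  -- an s-element outside M
  obtain ⟨S⟩ : Nonempty (Sylow s G) := inferInstance
  have hSM : ¬ (S : Subgroup G) ≤ M := by
    intro h
    apply S.not_dvd_index
    have := Subgroup.index_dvd_of_le h
    rwa [← hs] at this
  obtain ⟨g, hgS, hgM⟩ := SetLike.not_le_iff_exists.mp hSM
  obtain ⟨k, hk⟩ := S.isPGroup' ⟨g, hgS⟩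
  have hgk : g ^ s ^ k = 1 := congrArg Subtype.val hk
  have hgp := zpowers_pgroup hgk
  let NN : Subgroup G → Prop := fun L => ∀ Y : Subgroup G, IsCoatom Y → L ≤ Y → Y.Normal
  have hgen : ∀ Z : Subgroup G, NN Z → Z ⊔ Subgroup.zpowers g = ⊤ := by
    intro Z hZ
    by_contra h
    obtain ⟨Y, hY, hle⟩ := (eq_top_or_exists_le_coatom _).resolve_left h
    have hYn := hZ Y hY (le_sup_left.trans hle)
    exact hgM (hMmax Y hYn hY.1 (hle (Subgroup.mem_sup_right (Subgroup.mem_zpowers g))))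
  -- step 4
  have h4 : ∀ L : Subgroup G, L.Normal → ¬ NN L → ∀ Y : Subgroup G, IsCoatom Y → L ≤ Y := by
    intro L hL hNL Y hY
    by_contra hLY
    have hLYtop : L ⊔ Y = ⊤ := hY.2 _ (lt_of_le_of_ne le_sup_right (fun h' => hLY (by
      rw [h']; exact le_sup_left)))
    simp only [NN, not_forall] at hNL
    obtain ⟨W, hW, hLW, hWn⟩ := hNL
    by_cases hYn : Y.Normal
    · refine h1 L Y hL hYn ?_ hY.1 hLYtop
      rintro rfl
      exact hW.1 (top_le_iff.mp hLW)
    · apply hcon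
      refine hF.af G hG.sol W Y (abn_coatom hW hWn) (abn_coatom hY hYn) (hsubF W hW.1)
        (hsubF Y hY.1) ?_
      intro x
      have hx : x ∈ L ⊔ Y := by rw [hLYtop]; trivial
      obtain ⟨a, ha, b, hb, h⟩ := (Subgroup.mem_sup_of_normal_left).mp hx
      exact ⟨a, hLW ha, b, hb, h⟩
  -- minimal Z
  obtain ⟨Z, ⟨hZn, hZ⟩, hZmin⟩ := WellFounded.has_min (wellFounded_lt (α := Subgroup G))
    {L | L.Normal ∧ NN L} ⟨⊤, inferInstance, fun Y hY h => absurd (top_le_iff.mp h) hY.1⟩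
  have hZmin' : ∀ L : Subgroup G, L.Normal → L ≤ Z → NN L → L = Z := by
    intro L hL hLZ hN
    by_contra h
    exact hZmin L ⟨hL, hN⟩ (lt_of_le_of_ne hLZ h)
  have hZg := hgen Z hZ
  have hZbot : Z ≠ ⊥ := by
    rintro rfl
    rw [bot_sup_eq] at hZg
    apply hpF s hidx
    rw [hZg] at hgp
    exact hgp.of_equiv Subgroup.topEquiv
  obtain ⟨L, t, hLn, hLZ, ht, -, hLt, -, htZ⟩ := chief hG.sol Z hZn hZbot
  haveI : Fact t.Prime := ⟨ht⟩
  have hNL : ¬ NN L := fun h => hLZ.ne (hZmin' L hLn hLZ.le h)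
  have hLall := h4 L hLn hNL
  obtain ⟨P⟩ : Nonempty (Sylow t Z) := inferInstance
  have hfr := P.normalizer_sup_eq_top
  obtain ⟨P', hP'⟩ : ∃ P', P' = (P : Subgroup Z).map Z.subtype := ⟨_, rfl⟩
  rw [← hP'] at hfr
  have hP'Z : P' ≤ Z := by
    rw [hP']; rintro _ ⟨x, _, rfl⟩; exact x.2
  have hZdec : ∀ x ∈ Z, ∃ l ∈ L, ∃ p ∈ P', l * p = x := by
    intro x hx
    obtain ⟨l, hl, p, hp, h⟩ := sylow_cover (hLn.subgroupOf Z) (fun x => ⟨1, by
      rw [pow_one]; exact hLt x x.2⟩) P ⟨x, hx⟩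
    refine ⟨l, hl, p, by rw [hP']; exact ⟨p, hp, rfl⟩, congrArg Subtype.val h⟩
  have hP'n : P'.Normal := by
    rw [← normalizer_eq_top_iff]
    by_contra hne'
    obtain ⟨Y, hY, hle⟩ := (eq_top_or_exists_le_coatom _).resolve_left hne'
    apply hY.1
    rw [eq_top_iff, ← hfr]
    refine sup_le hle ?_
    intro x hx
    obtain ⟨l, hl, p, hp, rfl⟩ := hZdec x hx
    exact mul_mem (hLall Y hY hl) (hle (le_normalizer hp))
  have hP'eq : P' = Z := by
    refine hZmin' P' hP'n hP'Z ?_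
    by_contra hNP
    have hPall := h4 P' hP'n hNP
    apply hZbot
    symm
    refine hZmin' ⊥ inferInstance bot_le ?_
    intro Y hY _
    refine hZ Y hY ?_
    intro x hx
    obtain ⟨l, hl, p, hp, rfl⟩ := hZdec x hx
    exact mul_mem (hLall Y hY hl) (hPall Y hY hp)
  have hZt : IsPGroup t Z := by
    rw [← hP'eq, hP']
    exact P.isPGroup'.map _
  have htG : t ∣ Nat.card G := htZ.trans (Subgroup.card_subgroup_dvd_card Z)
  have hsG : s ∣ Nat.card G := by rw [hs]; exact Subgroup.index_dvd_card M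
  have hts : t ≠ s := by
    rintro rfl
    apply hpF t ht
    have := hZt.to_sup_of_normal_left hgp
    rw [hZg] at this
    exact this.of_equiv Subgroup.topEquiv
  by_cases hR : Rel F t s
  · apply hcon
    refine internal G hR.2.2.2.1 Z (Subgroup.zpowers g) hF hZn hZt hgp ?_ hZg ?_
    · rintro ⟨_, i, rfl⟩ ⟨_, j, rfl⟩
      apply Subtype.ext
      show g ^ i * g ^ j = g ^ j * g ^ i
      rw [← zpow_add, ← zpow_add, add_comm]
    · rw [← disjoint_iff]
      exact IsPGroup.disjoint_of_ne t s hts Z (Subgroup.zpowers g) hZt hgp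
  · -- commuting
    have hcomm : ∀ z ∈ Z, z * g = g * z := by
      intro z hz
      obtain ⟨j, hj⟩ := hZt ⟨z, hz⟩
      exact hG.com t s ht hidx hts hR z g ⟨j, congrArg Subtype.val hj⟩ ⟨k, hgk⟩
    have hgn : (Subgroup.zpowers g).Normal := by
      rw [← normalizer_eq_top_iff, eq_top_iff, ← hZg]
      refine sup_le ?_ le_normalizer
      intro z hz
      rw [mem_normalizer_iff]
      intro y
      have h5 : ∀ y ∈ Subgroup.zpowers g, ∀ z ∈ Z, z * y * z⁻¹ = y := by
        rintro _ ⟨i, rfl⟩ z hz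
        have h6 : Commute z g := hcomm z hz
        rw [show z * g ^ i = g ^ i * z from (h6.zpow_right i).eq, mul_inv_cancel_right]
      constructor
      · intro hy
        rw [h5 y hy z hz]; exact hy
      · intro hy
        have h6 := h5 _ hy z⁻¹ (inv_mem hz)
        have h7 : z⁻¹ * (z * y * z⁻¹) * z⁻¹⁻¹ = y := by group
        rw [h7] at h6
        rw [h6]; exact hy
    exact hcon (hF.top hZn hgn hZg (hG.chr t ht htG Z hZt) (hG.chr s hidx hsG _ hgp))

end Pool.Agent.H23.Fit
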