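import Pool.Agent.H23.Fit6

set_option autoImplicit false

open Subgroup
open scoped commutatorElement

namespace Pool.Agent.H23.Fit

variable {F : GC}

lemma TR {A : Type} [Group A] [Finite A] {q : ℕ} [hq : Fact q.Prime] (S : Set A)
    (hS : closure S = ⊤) (hq' : ∀ x ∈ S, ¬ q ∣ orderOf x) (Q : Sylow q A)
    (hQ : (Q : Subgroup A) ≤ center A) : ¬ q ∣ Nat.card A := by
  intro hd
  have hidx : ¬ q ∣ (center A).index := fun h =>
    Q.not_dvd_index (h.trans (Subgroup.index_dvd_of_le hQ))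
  obtain ⟨a, m, hm, hcard⟩ := Nat.exists_eq_pow_mul_and_not_dvd
    (Nat.card_pos.ne' : Nat.card A ≠ 0) q hq.out.ne_one
  let τ : A →* center A :=
    { toFun := fun g => (MonoidHom.transferCenterPow A g) ^ m
      map_one' := by rw [map_one, one_pow]
      map_mul' := fun a b => by
        rw [map_mul]
        have h0 : Commute (MonoidHom.transferCenterPow A a) (MonoidHom.transferCenterPow A b) :=
          Subtype.ext (mem_center_iff.mp (MonoidHom.transferCenterPow A b).2 _)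
        exact h0.mul_pow m }
  have hτ : ∀ g, ((τ g : center A) : A) = (g ^ (center A).index) ^ m := fun g => rfl
  have h1 : τ = 1 := by
    refine MonoidHom.eq_of_eqOn_dense hS ?_
    intro x hx
    apply Subtype.ext
    show (x ^ (center A).index) ^ m = 1
    have h2 : orderOf x ∣ m := by
      have h3 : orderOf x ∣ q ^ a * m := by rw [← hcard]; exact orderOf_dvd_natCard x
      exact Nat.Coprime.dvd_of_dvd_mul_left
        (((Nat.Prime.coprime_iff_not_dvd hq.out).mpr (hq' x hx)).symm.pow_right a) h3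
    rw [← pow_mul, mul_comm, pow_mul, orderOf_dvd_iff_pow_eq_one.mp h2, one_pow]
  obtain ⟨g, hg⟩ := exists_prime_orderOf_dvd_card' q hd
  have h4 : (g ^ (center A).index) ^ m = 1 := by rw [← hτ, h1]; rfl
  rw [← pow_mul] at h4
  have h5 := orderOf_dvd_of_pow_eq_one h4
  rw [hg, hq.out.dvd_mul] at h5
  exact h5.elim hidx hm

lemma TR' {G : Type} [Group G] [Finite G] {q : ℕ} [hq : Fact q.Prime] (S : Set G)
    (hq' : ∀ x ∈ S, ¬ q ∣ orderOf x)
    (hc : ∀ y ∈ closure S, (∃ k, y ^ q ^ k = 1) → ∀ a ∈ closure S, a * y = y * a) :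
    ¬ q ∣ Nat.card (closure S) := by
  obtain ⟨Q⟩ : Nonempty (Sylow q (closure S)) := inferInstance
  refine TR (q := q) (Subtype.val ⁻¹' S) Subgroup.closure_closure_coe_preimage ?_ Q ?_
  · intro x hx
    rw [← Subgroup.orderOf_coe]
    exact hq' x hx
  · intro y hy
    obtain ⟨k, hk⟩ := Q.isPGroup' ⟨y, hy⟩
    have hk1 : y ^ q ^ k = 1 := congrArg Subtype.val hk
    have hk2 : (y : G) ^ q ^ k = 1 := congrArg Subtype.val hk1
    rw [mem_center_iff]
    intro g
    apply Subtype.ext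
    exact hc y y.2 ⟨k, hk2⟩ g g.2

/-- subgroup generated by the `T`-elements of `M` -/
def AT {G : Type} [Group G] (M : Subgroup G) (T : ℕ → Prop) : Subgroup G :=
  closure {x | x ∈ M ∧ ∃ p, p.Prime ∧ T p ∧ ∃ k, x ^ p ^ k = 1}

lemma AT_le {G : Type} [Group G] (M : Subgroup G) (T : ℕ → Prop) : AT M T ≤ M := by
  rw [AT, closure_le]
  exact fun x hx => hx.1

lemma AT_normal {G : Type} [Group G] {M : Subgroup G} (hM : M.Normal) (T : ℕ → Prop) :
    (AT M T).Normal := by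
  refine ⟨fun x hx g => ?_⟩
  unfold AT at hx ⊢
  induction hx using closure_induction with
  | mem x hx =>
    obtain ⟨hx, p, hp, hT, k, hk⟩ := hx
    apply Subgroup.subset_closure
    refine ⟨hM.conj_mem x hx g, p, hp, hT, k, ?_⟩
    rw [conj_pow, hk, mul_one, mul_inv_cancel]
  | one => rw [mul_one, mul_inv_cancel]; exact one_mem _
  | mul x y _ _ hx hy =>
    have : g * (x * y) * g⁻¹ = (g * x * g⁻¹) * (g * y * g⁻¹) := by group
    rw [this]; exact mul_mem hx hy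
  | inv x _ hx =>
    have : g * x⁻¹ * g⁻¹ = (g * x * g⁻¹)⁻¹ := by group
    rw [this]; exact inv_mem hx

lemma mem_AT {G : Type} [Group G] {M : Subgroup G} {T : ℕ → Prop} {x : G} (hx : x ∈ M) {p : ℕ}
    (hp : p.Prime) (hT : T p) (hk : ∃ k, x ^ p ^ k = 1) : x ∈ AT M T :=
  Subgroup.subset_closure ⟨hx, p, hp, hT, hk⟩

/-- the commutation hypothesis -/
def Com {G : Type} [Group G] (M : Subgroup G) (T : ℕ → Prop) : Prop :=
  ∀ p q, p.Prime → q.Prime → T p → ¬ T q → ∀ x ∈ M, ∀ y ∈ M, (∃ k, x ^ p ^ k = 1) →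
    (∃ k, y ^ q ^ k = 1) → x * y = y * x

lemma AT_comm {G : Type} [Group G] {M : Subgroup G} {T : ℕ → Prop} (hcom : Com M T) {q : ℕ}
    (hq : q.Prime) (hT : ¬ T q) {y : G} (hy : y ∈ M) (hk : ∃ k, y ^ q ^ k = 1) :
    ∀ a ∈ AT M T, a * y = y * a := by
  have h1 : AT M T ≤ centralizer {y} := by
    rw [AT, closure_le]
    rintro x ⟨hx, p, hp, hTp, hkp⟩
    show x ∈ centralizer {y}
    rw [mem_centralizer_singleton_iff]
    exact hcom p q hp hq hTp hT x hx y hy hkp hk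
  intro a ha
  have := h1 ha
  rwa [mem_centralizer_singleton_iff] at this

lemma AT_card {G : Type} [Group G] [Finite G] {M : Subgroup G} {T : ℕ → Prop} (hcom : Com M T)
    {q : ℕ} (hq : q.Prime) (hT : ¬ T q) : ¬ q ∣ Nat.card (AT M T) := by
  haveI : Fact q.Prime := ⟨hq⟩
  unfold AT
  apply TR' (q := q)
  · rintro x ⟨hx, p, hp, hTp, k, hk⟩ hd
    have h1 : orderOf x ∣ p ^ k := orderOf_dvd_of_pow_eq_one hk
    have h2 := (Nat.prime_dvd_prime_iff_eq hq hp).mp (hq.dvd_of_dvd_pow (hd.trans h1))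
    rw [h2] at hT
    exact hT hTp
  · intro y hy hk a ha
    exact AT_comm hcom hq hT (AT_le M T hy) hk a ha

lemma AT_sup {G : Type} [Group G] [Finite G] (M : Subgroup G) (T : ℕ → Prop) :
    M ≤ AT M T ⊔ AT M (fun q => ¬ T q) := by
  rw [← Subgroup.subgroupOf_eq_top, ← Subgroup.index_eq_one]
  by_contra h
  obtain ⟨p, hp, hd⟩ := Nat.exists_prime_and_dvd h
  haveI : Fact p.Prime := ⟨hp⟩
  obtain ⟨P⟩ : Nonempty (Sylow p M) := inferInstance
  apply P.not_dvd_index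
  refine hd.trans (Subgroup.index_dvd_of_le ?_)
  intro x hx
  obtain ⟨k, hk⟩ := P.isPGroup' ⟨x, hx⟩
  have hk1 : x ^ p ^ k = 1 := congrArg Subtype.val hk
  have hk' : (x : G) ^ p ^ k = 1 := congrArg Subtype.val hk1
  show (x : G) ∈ AT M T ⊔ AT M (fun q => ¬ T q)
  by_cases hT : T p
  · exact Subgroup.mem_sup_left (mem_AT x.2 hp hT ⟨k, hk'⟩)
  · exact Subgroup.mem_sup_right (mem_AT x.2 hp hT ⟨k, hk'⟩)

lemma FC.allP (hF : FC F) {G : Type} [Group G] (hG : F G) {p : ℕ} (hp : p.Prime)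
    (hd : p ∣ Nat.card G) : AllP F p := by
  haveI : Fact p.Prime := ⟨hp⟩
  intro P _ _ hP
  exact hF.pgroup (fun C _ hC => hF.char hp _ G rfl hG hd C hC) P hP

lemma Rel.symm {p q : ℕ} (h : Rel F p q) : Rel F q p :=
  ⟨h.1.symm, h.2.2.1, h.2.1, h.2.2.2.2, h.2.2.2.1⟩

lemma FC.rel_trans (hF : FC F) {p q r : ℕ} (hp : p.Prime) (hq : q.Prime) (hr : r.Prime)
    (hpr : p ≠ r) (h1 : Rel F p q) (h2 : Rel F q r) : Rel F p r := by
  haveI : Fact p.Prime := ⟨hp⟩
  haveI : Fact q.Prime := ⟨hq⟩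
  haveI : Fact r.Prime := ⟨hr⟩
  obtain ⟨h3, h4⟩ := hF.trans h1.1 hpr h1.2.1 h2.2.2.1 h1.2.2.2.1 h2.2.2.2.2
  exact ⟨hpr, h1.2.1, h2.2.2.1, h3, h4⟩

lemma FC.caseL (hF : FC F) {G : Type} [Group G] (hG : F G) (hss : ∀ (H : Type) [Group H],
      Star F H → F H) {M : Subgroup G} (hM : M.Normal) {s : ℕ} (hs : s.Prime)
    (hidx : M.index = s) (hSM : Star F M) {q : ℕ} (hq : q.Prime) (hsq : s ≠ q)
    (hR : ¬ Rel F s q) {x y : G} (hx : ∃ k, x ^ s ^ k = 1) (hy : ∃ k, y ^ q ^ k = 1)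
    (hyM : y ∈ M) : x * y = y * x := by
  haveI := hF.fin hG
  haveI : Fact s.Prime := ⟨hs⟩
  obtain ⟨T, hTdef⟩ : ∃ T : ℕ → Prop, ∀ p, T p ↔ (p = s ∨ Rel F s p) := ⟨_, fun p => Iff.rfl⟩
  have hTq : ¬ T q := by
    rw [hTdef]; rintro (h | h)
    · exact hsq h.symm
    · exact hR h
  have hT : ∀ p q, p.Prime → q.Prime → T p → ¬ T q → p ≠ q ∧ ¬ Rel F p q := by
    intro p q hp hq h1 h2
    refine ⟨?_, fun h => h2 ?_⟩
    · rintro rfl; exact h2 h1
    · rw [hTdef] at h1 h2 ⊢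
      rcases h1 with rfl | h1
      · exact Or.inr h
      · right
        refine hF.rel_trans hs hp hq ?_ h1 h
        rintro rfl
        exact h2 (Or.inl rfl)
  have hcom : Com M T := by
    intro p q hp hq h1 h2 x hx y hy ⟨k, hk⟩ ⟨l, hl⟩
    obtain ⟨h3, h4⟩ := hT p q hp hq h1 h2
    exact congrArg Subtype.val (hSM.com p q hp hq h3 h4 ⟨x, hx⟩ ⟨y, hy⟩ ⟨k, Subtype.ext hk⟩
      ⟨l, Subtype.ext hl⟩)
  have hcom' : Com M (fun q => ¬ T q) := by
    intro p q hp hq h1 h2 x hx y hy hk hl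
    exact (hcom q p hq hp (not_not.mp h2) h1 y hy x hx hl hk).symm
  obtain ⟨A, hA⟩ : ∃ A, A = AT M T := ⟨_, rfl⟩
  obtain ⟨B, hB⟩ : ∃ B, B = AT M (fun q => ¬ T q) := ⟨_, rfl⟩
  have hAn : A.Normal := by rw [hA]; exact AT_normal hM T
  have hBn : B.Normal := by rw [hB]; exact AT_normal hM _
  have hBM : B ≤ M := by rw [hB]; exact AT_le M _
  have hAM : A ≤ M := by rw [hA]; exact AT_le M _
  have hAc : ∀ q, q.Prime → ¬ T q → ¬ q ∣ Nat.card A := by
    rw [hA]; exact fun q hq h => AT_card hcom hq h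
  have hBc : ∀ q, q.Prime → T q → ¬ q ∣ Nat.card B := by
    rw [hB]; exact fun q hq h => AT_card hcom' hq (not_not.mpr h)
  have hAB : ∀ z, z ∈ A → z ∈ B → z = 1 := by
    intro z hzA hzB
    by_contra hz
    have h1 : orderOf z ≠ 1 := fun h => hz (orderOf_eq_one_iff.mp h)
    obtain ⟨p, hp, hd⟩ := Nat.exists_prime_and_dvd h1
    by_cases hTp : T p
    · exact hBc p hp hTp (hd.trans (Subgroup.orderOf_dvd_natCard B hzB))
    · exact hAc p hp hTp (hd.trans (Subgroup.orderOf_dvd_natCard A hzA))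
  have hyB : y ∈ B := by rw [hB]; exact mem_AT hyM hq hTq hy
  have hMAB : ∀ m ∈ M, ∃ a ∈ A, ∃ b ∈ B, a * b = m := by
    intro m hm
    have h1 := AT_sup M T hm
    rw [← hA, ← hB] at h1
    exact (Subgroup.mem_sup_of_normal_left).mp h1
  by_contra hxy
  obtain ⟨q0, hq0⟩ : ∃ q0, q0 = QuotientGroup.mk' A := ⟨_, rfl⟩
  have hqs : Function.Surjective q0 := by rw [hq0]; exact QuotientGroup.mk'_surjective A
  have hqk : ∀ x, q0 x = 1 ↔ x ∈ A := fun x => by
    rw [hq0, QuotientGroup.mk'_apply, QuotientGroup.eq_one_iff]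
  have hM'n : (M.map q0).Normal := hM.map q0 hqs
  have hBM' : B.map q0 = M.map q0 := by
    apply le_antisymm (Subgroup.map_mono hBM)
    rintro _ ⟨m, hm, rfl⟩
    obtain ⟨a, ha, b, hb, rfl⟩ := hMAB m hm
    refine ⟨b, hb, ?_⟩
    rw [map_mul, (hqk a).mpr ha, one_mul]
  have hqinj : ∀ b ∈ B, q0 b = 1 → b = 1 := fun b hb h => hAB b ((hqk b).mp h) hb
  have hsB : ¬ s ∣ Nat.card B := hBc s hs ((hTdef s).mpr (Or.inl rfl))
  have hcard : Nat.card (M.map q0) ∣ Nat.card B := by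
    rw [← hBM']; exact Subgroup.card_map_dvd B q0
  have hsM' : ¬ s ∣ Nat.card (M.map q0) := fun h => hsB (h.trans hcard)
  have hD : ∀ D : Subgroup (G ⧸ A), D ≤ M.map q0 → F D := by
    intro D hD
    have h1 : Star F (D.comap q0 ⊓ B : Subgroup G) :=
      hSM.inj (Subgroup.inclusion (inf_le_right.trans hBM)) (Subgroup.inclusion_injective _)
    have h2 := hss _ h1
    let f : (D.comap q0 ⊓ B : Subgroup G) →* G ⧸ A := q0.comp (D.comap q0 ⊓ B : Subgroup G).subtype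
    have hf : Function.Injective f := by
      rw [injective_iff_map_eq_one]
      rintro ⟨b, hb⟩ h
      exact Subtype.ext (hqinj b hb.2 h)
    have h3 := hF.equiv (MonoidHom.ofInjective hf) h2
    have h4 : f.range = D := by
      ext z
      constructor
      · rintro ⟨b, rfl⟩; exact b.2.1
      · intro hz
        have hz' := hD hz
        rw [← hBM'] at hz'
        obtain ⟨b, hb, rfl⟩ := hz'
        exact ⟨⟨b, hz, hb⟩, rfl⟩
    rw [h4] at h3
    exact h3
  have hsG : s ∣ Nat.card G := by rw [← hidx]; exact Subgroup.index_dvd_card M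
  have hFs : AllP F s := hF.allP hG hs hsG
  have hpow : ∀ z : G ⧸ A, ∃ k, z ^ s ^ k ∈ M.map q0 := by
    intro z
    obtain ⟨g, rfl⟩ := hqs z
    refine ⟨1, g ^ s, ?_, ?_⟩
    · rw [← hidx]; exact M.pow_index_mem g
    · rw [pow_one, map_pow]
  obtain ⟨C⟩ : Nonempty (Sylow s (G ⧸ A)) := inferInstance
  have hX : F (G ⧸ A) := by
    refine hF.lemS hG q0 hqs (M := M.map q0) ?_ B hBn hqinj hBM' C ?_ hD (hFs _ C.isPGroup')
    · haveI : IsCyclic (G ⧸ M) := isCyclic_of_prime_card (p := s) (by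
        rw [← Subgroup.index_eq_card, hidx])
      have hcy : ∀ u v : G ⧸ M, u * v = v * u := by
        letI : CommGroup (G ⧸ M) := IsCyclic.commGroup
        exact fun u v => mul_comm u v
      intro a b
      obtain ⟨a', rfl⟩ := QuotientGroup.mk_surjective a
      obtain ⟨b', rfl⟩ := QuotientGroup.mk_surjective b
      obtain ⟨u, rfl⟩ := hqs a'
      obtain ⟨v, rfl⟩ := hqs b'
      rw [← QuotientGroup.mk_mul, ← QuotientGroup.mk_mul, QuotientGroup.eq]
      refine ⟨(u * v)⁻¹ * (v * u), ?_, ?_⟩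
      · have := hcy (QuotientGroup.mk u) (QuotientGroup.mk v)
        rw [← QuotientGroup.mk_mul, ← QuotientGroup.mk_mul, QuotientGroup.eq] at this
        exact this
      · rw [map_mul, map_inv, map_mul, map_mul]
    · intro z
      obtain ⟨m, hm, c, hc, h⟩ := sylow_cover hM'n hpow C z
      exact ⟨m, hm, c, hc, h.symm⟩
  obtain ⟨k, hk⟩ := hx
  obtain ⟨r, hr, hrd, hrs, h1, h2, h3⟩ := hF.D2 hFs (G ⧸ A) hX (M.map q0) hM'n hpow hsM' hD
    (q0 x) k (by rw [← map_pow, hk, map_one]) (q0 y) ⟨y, hyM, rfl⟩ (by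
      intro h
      apply hxy
      have h4 : x * y * x⁻¹ * y⁻¹ ∈ A := by
        rw [← hqk, map_mul, map_mul, map_mul, h, map_inv, map_inv, mul_inv_cancel_right,
          mul_inv_cancel]
      have h5 : x * y * x⁻¹ * y⁻¹ ∈ B := mul_mem (hBn.conj_mem _ hyB _) (inv_mem hyB)
      have h6 := hAB _ h4 h5
      rwa [mul_inv_eq_one, mul_inv_eq_iff_eq_mul] at h6)
  refine hBc r hr ?_ (hrd.trans hcard)
  rw [hTdef]
  exact Or.inr ⟨hrs.symm, hFs, h1, h3, h2⟩

lemma index_prime {G : Type} [Group G] {M : Subgroup G} (hM : M.Normal) {s p : ℕ}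
    (hs : s.Prime) (hp : p.Prime) (hidx : M.index = s) {x : G} (hx : ∃ k, x ^ p ^ k = 1)
    (hxM : x ∉ M) : p = s := by
  obtain ⟨k, hk⟩ := hx
  haveI : Finite (G ⧸ M) := Nat.finite_of_card_ne_zero (by
    rw [← Subgroup.index_eq_card, hidx]; exact hs.ne_zero)
  have h1 : orderOf (QuotientGroup.mk x : G ⧸ M) ∣ s := by
    rw [← hidx, Subgroup.index_eq_card]; exact orderOf_dvd_natCard _
  have h2 : orderOf (QuotientGroup.mk x : G ⧸ M) ∣ p ^ k := by
    apply orderOf_dvd_of_pow_eq_one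
    rw [← QuotientGroup.mk_pow, hk]; rfl
  rcases (Nat.dvd_prime hs).mp h1 with h3 | h3
  · exfalso
    rw [orderOf_eq_one_iff, QuotientGroup.eq_one_iff] at h3
    exact hxM h3
  · rw [h3] at h2
    exact ((Nat.prime_dvd_prime_iff_eq hs hp).mp (hs.dvd_of_dvd_pow h2)).symm

theorem FC.sub_star (hF : FC F) (n : ℕ) :
    ∀ (G : Type) [Group G], Nat.card G = n → F G → Star F G := by
  induction n using Nat.strong_induction_on with
  | _ n ih =>
  intro G _ hn hG
  haveI := hF.fin hG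
  have hss : ∀ (H : Type) [Group H], Star F H → F H := fun H _ h =>
    hF.star_sub ⟨G, _, hG⟩ _ H rfl h
  refine ⟨hF.fin hG, hF.sol hG, fun p hp hd => hF.allP hG hp hd, ?_⟩
  intro p q hp hq hpq hR x y hx hy
  by_cases hnt : Nontrivial G
  · obtain ⟨M, hMn, hM, hidx⟩ := exists_normal_prime_index (hF.sol hG) hnt
    have hSM : Star F M := ih (Nat.card M) (by rw [← hn]; exact card_lt_of_coatom hM.1) M rfl
      (hF.nor G M hMn hG)
    by_cases hxM : x ∈ M
    · by_cases hyM : y ∈ M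
      · obtain ⟨k, hk⟩ := hx
        obtain ⟨l, hl⟩ := hy
        exact congrArg Subtype.val (hSM.com p q hp hq hpq hR ⟨x, hxM⟩ ⟨y, hyM⟩
          ⟨k, Subtype.ext hk⟩ ⟨l, Subtype.ext hl⟩)
      · have h1 := index_prime hMn hidx hq rfl hy hyM
        exact (hF.caseL hG hss hMn hq h1.symm hSM hp hpq.symm (fun h => hR h.symm) hy hx hxM).symm
    · have h1 := index_prime hMn hidx hp rfl hx hxM
      have hyM : y ∈ M := by
        by_contra hyM
        have h2 := index_prime hMn hidx hq rfl hy hyM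
        exact hpq (h1.trans h2.symm)
      exact hF.caseL hG hss hMn hp h1.symm hSM hq hpq hR hx hy hyM
  · rw [not_nontrivial_iff_subsingleton] at hnt
    exact Subsingleton.elim _ _

lemma Star.prod {X Y : Type} [Group X] [Group Y] (hX : Star F X) (hY : Star F Y) :
    Star F (X × Y) := by
  haveI := hX.fin
  haveI := hY.fin
  haveI := hX.sol
  haveI := hY.sol
  refine ⟨inferInstance, inferInstance, ?_, ?_⟩
  · intro p hp hd
    rw [Nat.card_prod, hp.dvd_mul] at hd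
    exact hd.elim (hX.chr p hp) (hY.chr p hp)
  · intro p q hp hq hpq hR x y ⟨k, hk⟩ ⟨l, hl⟩
    refine Prod.ext ?_ ?_
    · exact hX.com p q hp hq hpq hR x.1 y.1 ⟨k, congrArg Prod.fst hk⟩ ⟨l, congrArg Prod.fst hl⟩
    · exact hY.com p q hp hq hpq hR x.2 y.2 ⟨k, congrArg Prod.snd hk⟩ ⟨l, congrArg Prod.snd hl⟩

lemma lift_p {G H : Type} [Group G] [Group H] [Finite G] (f : G →* H)
    (hf : Function.Surjective f) {p : ℕ} (hp : p.Prime) {x : H} (hx : ∃ k, x ^ p ^ k = 1) :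
    ∃ g : G, f g = x ∧ ∃ k, g ^ p ^ k = 1 := by
  obtain ⟨k, hk⟩ := hx
  obtain ⟨g, rfl⟩ := hf x
  obtain ⟨a, m, hm, hcard⟩ := Nat.exists_eq_pow_mul_and_not_dvd
    (Nat.card_pos.ne' : Nat.card G ≠ 0) p hp.ne_one
  have h1 : m.Coprime (orderOf (f g)) := by
    refine Nat.Coprime.coprime_dvd_right (orderOf_dvd_of_pow_eq_one hk) ?_
    exact (((Nat.Prime.coprime_iff_not_dvd hp).mpr hm).symm).pow_right k
  obtain ⟨j, hj⟩ := exists_pow_eq_self_of_coprime h1
  refine ⟨(g ^ m) ^ j, by rw [map_pow, map_pow, hj], a, ?_⟩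
  rw [← pow_mul, ← pow_mul, show m * (j * p ^ a) = p ^ a * m * j by ring, pow_mul, ← hcard,
    pow_card_eq_one', one_pow]

lemma Star.quot {G : Type} [Group G] (h : Star F G) (N : Subgroup G) [N.Normal] :
    Star F (G ⧸ N) := by
  haveI := h.fin
  haveI := h.sol
  refine ⟨inferInstance, inferInstance, ?_, ?_⟩
  · intro p hp hd
    refine h.chr p hp (hd.trans ?_)
    rw [← Subgroup.index_eq_card]
    exact Subgroup.index_dvd_card N
  · intro p q hp hq hpq hR x y hx hy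
    obtain ⟨u, rfl, hu⟩ := lift_p (QuotientGroup.mk' N) (QuotientGroup.mk'_surjective N) hp hx
    obtain ⟨v, rfl, hv⟩ := lift_p (QuotientGroup.mk' N) (QuotientGroup.mk'_surjective N) hq hy
    rw [← map_mul, ← map_mul, h.com p q hp hq hpq hR u v hu hv]

theorem FC.quot (hF : FC F) (G : Type) [Group G] (N : Subgroup G) [N.Normal] (hG : F G) :
    F (G ⧸ N) :=
  hF.star_sub ⟨G, _, hG⟩ _ _ rfl ((hF.sub_star _ G rfl hG).quot N)

theorem FC.subdirect (hF : FC F) (G : Type) [Group G] (N M : Subgroup G) [N.Normal] [M.Normal]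
    (h : N ⊓ M = ⊥) (h1 : F (G ⧸ N)) (h2 : F (G ⧸ M)) : F G := by
  have h3 := (hF.sub_star _ _ rfl h1).prod (hF.sub_star _ _ rfl h2)
  refine hF.star_sub ⟨_, _, h1⟩ _ G rfl (h3.inj ((QuotientGroup.mk' N).prod
    (QuotientGroup.mk' M)) ?_)
  rw [injective_iff_map_eq_one]
  intro x hx
  have h4 : QuotientGroup.mk' N x = 1 := congrArg Prod.fst hx
  have h5 : QuotientGroup.mk' M x = 1 := congrArg Prod.snd hx
  rw [QuotientGroup.mk'_apply, QuotientGroup.eq_one_iff] at h4 h5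
  have h6 : x ∈ N ⊓ M := ⟨h4, h5⟩
  rwa [h, mem_bot] at h6

end Pool.Agent.H23.Fit
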