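import Mathlib

set_option autoImplicit false

namespace Pool.Agent.H23.Geo

/-- rank function of a geometric lattice of finite rank -/
structure Rk (L : Type) [Lattice L] (ρ : L → ℕ) : Prop where
  mono : StrictMono ρ
  sub : ∀ a b, ρ (a ⊔ b) + ρ (a ⊓ b) ≤ ρ a + ρ b
  rel : ∀ u a b, u ≤ a → a < b → ∃ p, u ≤ p ∧ p ≤ b ∧ ¬ p ≤ a ∧ ρ p = ρ u + 1

variable {L : Type} [Lattice L] {ρ : L → ℕ}

/-- atoms of the interval -/
def At (ρ : L → ℕ) (u v : L) : Set L := {x | u ≤ x ∧ x ≤ v ∧ ρ x = ρ u + 1}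

/-- coatoms of the interval -/
def Co (ρ : L → ℕ) (u v : L) : Set L := {h | u ≤ h ∧ h ≤ v ∧ ρ h + 1 = ρ v}

lemma Rk.le (h : Rk L ρ) {a b : L} (hab : a ≤ b) : ρ a ≤ ρ b := h.mono.monotone hab

lemma Rk.eq (h : Rk L ρ) {a b : L} (hab : a ≤ b) (hr : ρ b ≤ ρ a) : a = b := by
  rcases hab.lt_or_eq with h1 | h1
  · exact absurd (h.mono h1) (by omega)
  · exact h1

lemma Rk.sup_atom (h : Rk L ρ) {u v a p : L} (hua : u ≤ a) (hp : p ∈ At ρ u v) (hpa : ¬ p ≤ a) :
    ρ (a ⊔ p) = ρ a + 1 := by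
  obtain ⟨h1, h2, h3⟩ := hp
  have h4 := h.sub a p
  have h5 := h.le (le_inf hua h1)
  have h6 : a < a ⊔ p := lt_of_le_of_ne le_sup_left (fun e => hpa (by rw [e]; exact le_sup_right))
  have h7 := h.mono h6
  omega

lemma Rk.atom_ne (h : Rk L ρ) {u v p q : L} (hp : p ∈ At ρ u v) (hq : q ∈ At ρ u v) (hpq : p ≠ q) :
    ¬ q ≤ p := by
  intro hle
  apply hpq
  exact (h.eq hle (by rw [hp.2.2, hq.2.2])).symm

lemma Rk.atom_sup (h : Rk L ρ) {u v p q : L} (hp : p ∈ At ρ u v) (hq : q ∈ At ρ u v)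
    (hpq : p ≠ q) : ρ (p ⊔ q) = ρ u + 2 := by
  rw [h.sup_atom hp.1 hq (h.atom_ne hp hq hpq), hp.2.2]

lemma Rk.flag (h : Rk L ρ) (d : ℕ) : ∀ a b : L, a ≤ b → ρ b - ρ a = d → ∃ g : ℕ → L, g 0 = a ∧
    Monotone g ∧ (∀ i, i ≤ d → ρ (g i) = ρ a + i) ∧ (∀ i, g i ≤ b) ∧ (∀ i, d ≤ i → g i = b) := by
  induction d with
  | zero =>
    intro a b hab hd
    have h1 := h.le hab
    have h2 : a = b := h.eq hab (by omega)
    exact ⟨fun _ => a, rfl, fun _ _ _ => le_rfl, fun i hi => by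
      have : i = 0 := by omega
      subst this; rfl, fun _ => hab, fun _ _ => h2⟩
  | succ d ih =>
    intro a b hab hd
    have h1 := h.le hab
    have hlt : a < b := lt_of_le_of_ne hab (fun e => by subst e; omega)
    obtain ⟨p, hp1, hp2, hp3, hp4⟩ := h.rel a a b le_rfl hlt
    obtain ⟨g, hg0, hgm, hgr, hgb, hge⟩ := ih p b hp2 (by omega)
    refine ⟨fun i => Nat.casesOn i a g, rfl, ?_, ?_, ?_, ?_⟩
    · apply monotone_nat_of_le_succ
      intro i
      cases i with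
      | zero =>
        show a ≤ g 0
        rw [hg0]; exact hp1
      | succ i => exact hgm (Nat.le_succ i)
    · intro i hi
      cases i with
      | zero => rfl
      | succ i =>
        show ρ (g i) = ρ a + (i + 1)
        rw [hgr i (by omega), hp4]; omega
    · intro i
      cases i with
      | zero => exact hab
      | succ i => exact hgb i
    · intro i hi
      cases i with
      | zero => omega
      | succ i => exact hge i (by omega)

lemma Rk.exists_flag (h : Rk L ρ) {a b : L} (hab : a ≤ b) : ∃ g : ℕ → L, g 0 = a ∧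
    Monotone g ∧ (∀ i, i ≤ ρ b - ρ a → ρ (g i) = ρ a + i) ∧ (∀ i, g i ≤ b) ∧
    (∀ i, ρ b - ρ a ≤ i → g i = b) := h.flag _ a b hab rfl

lemma Rk.compl (h : Rk L ρ) {u v ℓ z : L} (hz : z ∈ At ρ u v) (hzl : ¬ z ≤ ℓ) (hul : u ≤ ℓ)
    (hlv : ℓ ≤ v) : ∃ F, z ≤ F ∧ F ≤ v ∧ F ⊔ ℓ = v ∧ ρ F + ρ ℓ = ρ v + ρ u := by
  have key : ∀ d, ∀ F, z ≤ F → F ≤ v → ρ (F ⊔ ℓ) + ρ u = ρ F + ρ ℓ → ρ v - ρ (F ⊔ ℓ) = d →
      ∃ F, z ≤ F ∧ F ≤ v ∧ F ⊔ ℓ = v ∧ ρ F + ρ ℓ = ρ v + ρ u := by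
    intro d
    induction d with
    | zero =>
      intro F h1 h2 h3 h4
      have h5 : F ⊔ ℓ = v := h.eq (sup_le h2 hlv) (by
        have := h.le (sup_le h2 hlv); omega)
      exact ⟨F, h1, h2, h5, by rw [← h5]; omega⟩
    | succ d ih =>
      intro F h1 h2 h3 h4
      have hlt : F ⊔ ℓ < v := lt_of_le_of_ne (sup_le h2 hlv) (fun e => by rw [e] at h4; omega)
      obtain ⟨p, hp1, hp2, hp3, hp4⟩ := h.rel u (F ⊔ ℓ) v (hul.trans le_sup_right) hlt
      have hpA : p ∈ At ρ u v := ⟨hp1, hp2, hp4⟩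
      have h5 := h.sup_atom (hul.trans le_sup_right) hpA hp3
      have h6 := h.sup_atom (hz.1.trans h1) hpA (fun e => hp3 (e.trans le_sup_left))
      have h7 : F ⊔ p ⊔ ℓ = F ⊔ ℓ ⊔ p := by rw [sup_assoc, sup_assoc, sup_comm p]
      refine ih (F ⊔ p) (h1.trans le_sup_left) (sup_le h2 hp2) ?_ ?_
      · rw [h7, h5, h6]; omega
      · rw [h7, h5]; omega
  have h1 : ρ (z ⊔ ℓ) = ρ ℓ + 1 := by rw [sup_comm]; exact h.sup_atom hul hz hzl
  exact key _ z le_rfl hz.2.1 (by rw [h1, hz.2.2]; omega) rfl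

section mp
variable {u v ℓ F a b : L}

lemma Rk.mp1 (h : Rk L ρ) (hFl : F ⊔ ℓ = v) (hr : ρ F + ρ ℓ = ρ v + ρ u)
    (ha1 : u ≤ a) (ha2 : a ≤ ℓ) (hb1 : u ≤ b) (hb2 : b ≤ F) : ρ (a ⊔ b) + ρ u = ρ a + ρ b := by
  have h1 := h.sub a b
  have h2 := h.le (le_inf ha1 hb1)
  have h3 := h.sub (a ⊔ b) ℓ
  have h4 : ρ a ≤ ρ ((a ⊔ b) ⊓ ℓ) := h.le (le_inf le_sup_left ha2)
  have h5 := h.sub (a ⊔ b ⊔ ℓ) F
  have h6 : ρ b ≤ ρ ((a ⊔ b ⊔ ℓ) ⊓ F) := h.le (le_inf (le_sup_right.trans le_sup_left) hb2)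
  have h7 : ρ v ≤ ρ (a ⊔ b ⊔ ℓ ⊔ F) := by
    apply h.le
    rw [← hFl]
    exact sup_le le_sup_right (le_sup_right.trans le_sup_left)
  omega

lemma Rk.mp2 (h : Rk L ρ) (hFl : F ⊔ ℓ = v) (hr : ρ F + ρ ℓ = ρ v + ρ u)
    (ha1 : u ≤ a) (ha2 : a ≤ ℓ) (hb1 : u ≤ b) (hb2 : b ≤ F) : (a ⊔ b) ⊓ ℓ = a := by
  have h0 : a ≤ (a ⊔ b) ⊓ ℓ := le_inf le_sup_left ha2
  have h1 := h.mp1 hFl hr ha1 ha2 hb1 hb2
  have h2 := h.mp1 hFl hr (ha1.trans h0) inf_le_right hb1 hb2
  have h3 : (a ⊔ b) ⊓ ℓ ⊔ b = a ⊔ b := by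
    apply le_antisymm
    · exact sup_le inf_le_left le_sup_right
    · exact sup_le (h0.trans le_sup_left) le_sup_right
  rw [h3] at h2
  exact (h.eq h0 (by omega)).symm

lemma Rk.mp3 (h : Rk L ρ) (hFl : F ⊔ ℓ = v) (hr : ρ F + ρ ℓ = ρ v + ρ u)
    (ha1 : u ≤ a) (ha2 : a ≤ ℓ) (hb1 : u ≤ b) (hb2 : b ≤ F) : (a ⊔ b) ⊓ F = b := by
  have h0 : b ≤ (a ⊔ b) ⊓ F := le_inf le_sup_right hb2
  have h1 := h.mp1 hFl hr ha1 ha2 hb1 hb2
  have h2 := h.mp1 hFl hr ha1 ha2 (hb1.trans h0) inf_le_right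
  have h3 : a ⊔ (a ⊔ b) ⊓ F = a ⊔ b := by
    apply le_antisymm
    · exact sup_le le_sup_left inf_le_left
    · exact sup_le le_sup_left (h0.trans le_sup_right)
  rw [h3] at h2
  exact (h.eq h0 (by omega)).symm

end mp

/-! finite inequality -/

lemma conway {α β : Type} [Fintype α] [Fintype β] (I : α → β → Prop)
    [∀ a b, Decidable (I a b)]
    (hp : ∀ a, ∃ b, ¬ I a b) (hh : ∀ b, ∃ a, ¬ I a b) (hpos : ∀ a, ∃ b, I a b)
    (key : ∀ a b, ¬ I a b → (Finset.univ.filter (fun a' => I a' b)).card ≤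
      (Finset.univ.filter (fun b' => I a b')).card) :
    Fintype.card α ≤ Fintype.card β := by
  classical
  by_contra hcon
  push Not at hcon
  let r : α → ℕ := fun a => (Finset.univ.filter (fun b => I a b)).card
  let k : β → ℕ := fun b => (Finset.univ.filter (fun a => I a b)).card
  have hr : ∀ a, (Finset.univ.filter (fun b => ¬ I a b)).card + r a = Fintype.card β := by
    intro a
    have := Finset.card_filter_add_card_filter_not (s := (Finset.univ : Finset β)) (fun b => I a b)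
    rw [Finset.card_univ] at this
    show (Finset.univ.filter (fun b => ¬ I a b)).card + (Finset.univ.filter (fun b => I a b)).card = _
    omega
  have hk : ∀ b, (Finset.univ.filter (fun a => ¬ I a b)).card + k b = Fintype.card α := by
    intro b
    have := Finset.card_filter_add_card_filter_not (s := (Finset.univ : Finset α)) (fun a => I a b)
    rw [Finset.card_univ] at this
    show (Finset.univ.filter (fun a => ¬ I a b)).card + (Finset.univ.filter (fun a => I a b)).card = _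
    omega
  have hr1 : ∀ a, 0 < (Finset.univ.filter (fun b => ¬ I a b)).card := by
    intro a
    obtain ⟨b, hb⟩ := hp a
    exact Finset.card_pos.mpr ⟨b, by simpa using hb⟩
  have hk1 : ∀ b, 0 < (Finset.univ.filter (fun a => ¬ I a b)).card := by
    intro b
    obtain ⟨a, ha⟩ := hh b
    exact Finset.card_pos.mpr ⟨a, by simpa using ha⟩
  have hr2 : ∀ a, 0 < r a := by
    intro a
    obtain ⟨b, hb⟩ := hpos a
    exact Finset.card_pos.mpr ⟨b, by simpa using hb⟩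
  have hα : 0 < Fintype.card α := by omega
  obtain ⟨a0⟩ : Nonempty α := Fintype.card_pos_iff.mp hα
  obtain ⟨b0, hb0⟩ := hp a0
  have hβ : 0 < Fintype.card β := Fintype.card_pos_iff.mpr ⟨b0⟩
  set v : ℚ := (Fintype.card α : ℚ) with hv
  set w : ℚ := (Fintype.card β : ℚ) with hw
  have hv0 : 0 < v := by rw [hv]; exact_mod_cast hα
  have hw0 : 0 < w := by rw [hw]; exact_mod_cast hβ
  let s1 : ℚ := ∑ a : α, ∑ b : β, if ¬ I a b then 1 / (v * (w - r a)) else 0
  let s2 : ℚ := ∑ a : α, ∑ b : β, if ¬ I a b then 1 / (w * (v - k b)) else 0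
  have hrr : ∀ a, w - (r a : ℚ) = ((Finset.univ.filter (fun b => ¬ I a b)).card : ℚ) := by
    intro a
    rw [hw, ← hr a]; push_cast; ring
  have hkk : ∀ b, v - (k b : ℚ) = ((Finset.univ.filter (fun a => ¬ I a b)).card : ℚ) := by
    intro b
    rw [hv, ← hk b]; push_cast; ring
  have hrp : ∀ a, 0 < w - (r a : ℚ) := fun a => by rw [hrr a]; exact_mod_cast hr1 a
  have hkp : ∀ b, 0 < v - (k b : ℚ) := fun b => by rw [hkk b]; exact_mod_cast hk1 b
  have e1 : s1 = 1 := by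
    show (∑ a : α, ∑ b : β, if ¬ I a b then 1 / (v * (w - r a)) else 0) = 1
    have : ∀ a : α, (∑ b : β, if ¬ I a b then 1 / (v * (w - r a)) else 0) = 1 / v := by
      intro a
      rw [← Finset.sum_filter, Finset.sum_const, nsmul_eq_mul, ← hrr a]
      have h1 := (hrp a).ne'
      field_simp
    rw [Finset.sum_congr rfl (fun a _ => this a), Finset.sum_const, Finset.card_univ, nsmul_eq_mul,
      ← hv]
    field_simp
  have e2 : s2 = 1 := by
    show (∑ a : α, ∑ b : β, if ¬ I a b then 1 / (w * (v - k b)) else 0) = 1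
    rw [Finset.sum_comm]
    have : ∀ b : β, (∑ a : α, if ¬ I a b then 1 / (w * (v - k b)) else 0) = 1 / w := by
      intro b
      rw [← Finset.sum_filter, Finset.sum_const, nsmul_eq_mul, ← hkk b]
      have h1 := (hkp b).ne'
      field_simp
    rw [Finset.sum_congr rfl (fun a _ => this a), Finset.sum_const, Finset.card_univ, nsmul_eq_mul,
      ← hw]
    field_simp
  have hlt : ∀ a b, ¬ I a b → 1 / (w * (v - k b)) < 1 / (v * (w - r a)) := by
    intro a b hab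
    apply one_div_lt_one_div_of_lt
    · exact mul_pos hv0 (hrp a)
    · have h1 : (k b : ℚ) ≤ r a := by exact_mod_cast key a b hab
      have h2 : (0 : ℚ) < r a := by exact_mod_cast hr2 a
      have h3 : w < v := by rw [hv, hw]; exact_mod_cast hcon
      nlinarith
  have h3 : s2 < s1 := by
    apply Finset.sum_lt_sum
    · intro a _
      apply Finset.sum_le_sum
      intro b _
      by_cases hab : I a b
      · rw [if_neg (not_not.mpr hab), if_neg (not_not.mpr hab)]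
      · rw [if_pos hab, if_pos hab]; exact (hlt a b hab).le
    · refine ⟨a0, Finset.mem_univ _, ?_⟩
      apply Finset.sum_lt_sum
      · intro b _
        by_cases hab : I a0 b
        · rw [if_neg (not_not.mpr hab), if_neg (not_not.mpr hab)]
        · rw [if_pos hab, if_pos hab]; exact (hlt a0 b hab).le
      · refine ⟨b0, Finset.mem_univ _, ?_⟩
        rw [if_pos hb0, if_pos hb0]; exact hlt a0 b0 hb0
  rw [e1, e2] at h3
  exact lt_irrefl _ h3

end Pool.Agent.H23.Geo
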