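import Pool.Agent.H23.Geo1

set_option autoImplicit false

namespace Pool.Agent.H23.Geo

open Cardinal

variable {L : Type} [Lattice L] {ρ : L → ℕ}

lemma card_filter_sub {α : Type} {P : Set α} [Fintype P] (Q : α → Prop) [DecidablePred Q] :
    (Finset.univ.filter (fun a : P => Q a)).card = {x | x ∈ P ∧ Q x}.ncard := by
  rw [← Set.ncard_coe_finset, ← Set.ncard_image_of_injective _ Subtype.val_injective]
  congr 1
  ext x
  simp [and_comm]

lemma Rk.at_sup (h : Rk L ρ) {u v p a : L} (hp : p ∈ At ρ u v) (ha : a ∈ At ρ p v) :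
    ∃ q ∈ At ρ u v, ¬ q ≤ p ∧ p ⊔ q = a := by
  have hlt : p < a := lt_of_le_of_ne ha.1 (fun e => by
    have := ha.2.2; rw [← e] at this; omega)
  obtain ⟨q, h1, h2, h3, h4⟩ := h.rel u p a hp.1 hlt
  have hq : q ∈ At ρ u v := ⟨h1, h2.trans ha.2.1, h4⟩
  refine ⟨q, hq, h3, ?_⟩
  have h5 := h.sup_atom hp.1 hq h3
  exact h.eq (sup_le ha.1 h2) (by rw [h5, ha.2.2])

lemma Rk.fin_ineq (h : Rk L ρ) (m : ℕ) : ∀ u v : L, u ≤ v → ρ v = ρ u + (m + 1) →
    (At ρ u v).Finite → (Co ρ u v).Finite ∧ (At ρ u v).ncard ≤ (Co ρ u v).ncard := by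
  classical
  induction m with
  | zero =>
    intro u v huv hv hfin
    have e1 : At ρ u v = {v} := by
      ext x
      constructor
      · rintro ⟨_, h2, h3⟩; exact h.eq h2 (by omega)
      · rintro rfl; exact ⟨huv, le_rfl, hv⟩
    have e2 : Co ρ u v = {u} := by
      ext x
      constructor
      · rintro ⟨h1, _, h3⟩; exact (h.eq h1 (by omega)).symm
      · rintro rfl; exact ⟨le_rfl, huv, by omega⟩
    rw [e1, e2]
    exact ⟨Set.finite_singleton _, by simp⟩
  | succ m ih =>
    intro u v huv hv hfin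
    have hcof : (Co ρ u v).Finite := by
      refine Set.Finite.of_injOn (f := fun x => {p | p ∈ At ρ u v ∧ p ≤ x})
        (t := {s | s ⊆ At ρ u v}) ?_ ?_ hfin.finite_subsets
      · intro x _ p hp; exact hp.1
      · intro x hx y hy hxy
        have key : ∀ x ∈ Co ρ u v, ∀ y ∈ Co ρ u v,
            {p | p ∈ At ρ u v ∧ p ≤ x} = {p | p ∈ At ρ u v ∧ p ≤ y} → y ≤ x := by
          intro x hx y hy hxy
          by_contra hle
          have hlt : x ⊓ y < y := lt_of_le_of_ne inf_le_right (fun e => hle (by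
            rw [← e]; exact inf_le_left))
          obtain ⟨p, h1, h2, h3, h4⟩ := h.rel u (x ⊓ y) y (le_inf hx.1 hy.1) hlt
          have h5 : p ∈ {p | p ∈ At ρ u v ∧ p ≤ y} := ⟨⟨h1, h2.trans hy.2.1, h4⟩, h2⟩
          rw [← hxy] at h5
          exact h3 (le_inf h5.2 h2)
        exact le_antisymm (key y hy x hx hxy.symm) (key x hx y hy hxy)
    refine ⟨hcof, ?_⟩
    haveI : Fintype (At ρ u v) := hfin.fintype
    haveI : Fintype (Co ρ u v) := hcof.fintype
    have hmain : Fintype.card (At ρ u v) ≤ Fintype.card (Co ρ u v) := by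
      refine conway (fun (p : At ρ u v) (x : Co ρ u v) => (p : L) ≤ x) ?_ ?_ ?_ ?_
      · rintro ⟨p, hp⟩
        have hpv : p < v := lt_of_le_of_ne hp.2.1 (fun e => by
          have := hp.2.2; rw [e] at this; omega)
        obtain ⟨z, hz1, hz2, hz3, hz4⟩ := h.rel u p v hp.1 hpv
        obtain ⟨F, hF1, hF2, hF3, hF4⟩ := h.compl ⟨hz1, hz2, hz4⟩ hz3 hp.1 hp.2.1
        have := hp.2.2
        refine ⟨⟨F, hz1.trans hF1, hF2, by omega⟩, ?_⟩
        intro hle
        have hle' : p ≤ F := hle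
        rw [sup_eq_left.mpr hle'] at hF3
        rw [hF3] at hF4
        omega
      · rintro ⟨x, hx⟩
        have hxv : x < v := lt_of_le_of_ne hx.2.1 (fun e => by
          have := hx.2.2; rw [e] at this; omega)
        obtain ⟨z, hz1, hz2, hz3, hz4⟩ := h.rel u x v hx.1 hxv
        exact ⟨⟨z, hz1, hz2, hz4⟩, hz3⟩
      · rintro ⟨p, hp⟩
        obtain ⟨g, hg0, hgm, hgr, hgb, _⟩ := h.exists_flag hp.2.1
        have h1 := hp.2.2
        have h2 := hgr (ρ v - ρ p - 1) (by omega)
        have h3 : p ≤ g (ρ v - ρ p - 1) := by rw [← hg0]; exact hgm (Nat.zero_le _)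
        exact ⟨⟨g (ρ v - ρ p - 1), hp.1.trans h3, hgb _, by omega⟩, h3⟩
      · rintro ⟨p, hp⟩ ⟨x, hx⟩ hpx
        have hpx' : ¬ p ≤ x := hpx
        have hpr := hp.2.2
        rw [card_filter_sub (fun a => a ≤ x), card_filter_sub (fun b => p ≤ b)]
        have hfin' : (At ρ p v).Finite := by
          refine (hfin.image (fun q => p ⊔ q)).subset ?_
          intro a ha
          obtain ⟨q, hq, _, he⟩ := h.at_sup hp ha
          exact ⟨q, hq, he⟩
        obtain ⟨hcf, hineq⟩ := ih p v hp.2.1 (by omega) hfin'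
        have e1 : {b | b ∈ Co ρ u v ∧ p ≤ b} = Co ρ p v := by
          ext b
          constructor
          · rintro ⟨hb, hpb⟩; exact ⟨hpb, hb.2.1, hb.2.2⟩
          · rintro ⟨hb1, hb2, hb3⟩; exact ⟨⟨hp.1.trans hb1, hb2, hb3⟩, hb1⟩
        rw [e1]
        refine le_trans ?_ hineq
        refine Set.ncard_le_ncard_of_injOn (fun q => p ⊔ q) ?_ ?_ hfin'
        · rintro q ⟨hq, hqx⟩
          have hqp : ¬ q ≤ p := by
            intro hle
            have := h.eq hle (by rw [hpr, hq.2.2])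
            rw [this] at hqx; exact hpx' hqx
          exact ⟨le_sup_left, sup_le hp.2.1 hq.2.1, h.sup_atom hp.1 hq hqp⟩
        · rintro q ⟨hq, hqx⟩ q' ⟨hq', hqx'⟩ he
          by_contra hne
          have he' : p ⊔ q = p ⊔ q' := he
          have h1 := h.atom_sup hq hq' hne
          have hqp : ¬ q ≤ p := by
            intro hle
            have := h.eq hle (by rw [hpr, hq.2.2])
            rw [this] at hqx; exact hpx' hqx
          have h2 := h.sup_atom hp.1 hq hqp
          have h3 : q ⊔ q' ≤ p ⊔ q := sup_le le_sup_right (by rw [he']; exact le_sup_right)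
          have h4 := h.eq h3 (by omega)
          apply hpx'
          have h5 : p ≤ q ⊔ q' := by rw [h4]; exact le_sup_left
          exact h5.trans (sup_le hqx hqx')
    rw [← Nat.card_coe_set_eq, ← Nat.card_coe_set_eq, Nat.card_eq_fintype_card,
      Nat.card_eq_fintype_card]
    exact hmain

/-! greedy -/

lemma greedy {α I : Type} {κ : Cardinal.{0}} (hκ : ℵ₀ ≤ κ) (hI : #I ≤ κ) {m : ℕ} (J : I → Type)
    (hJ : ∀ i, κ ≤ #(J i)) (c : ∀ i, J i → Fin m → α)
    (hc : ∀ i (j j' : J i) (l l' : Fin m), c i j l = c i j' l' → j = j') (U : Set α)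
    (hU : #U < κ) : ∃ f : ∀ i, J i, (∀ i l, c i (f i) l ∉ U) ∧
      ∀ i i', i ≠ i' → ∀ l l', c i (f i) l ≠ c i' (f i') l' := by
  classical
  obtain ⟨r, wo, hr⟩ := Cardinal.ord_eq I
  have hseg : ∀ i, #{y // r y i} < κ := by
    intro i
    have h1 := Cardinal.card_typein_lt (r := r) i hr
    rw [Ordinal.card_typein] at h1
    exact h1.trans_le hI
  have step : ∀ i (prev : ∀ i', r i' i → J i'), ∃ j : J i, (∀ l, c i j l ∉ U) ∧
      ∀ i' (h : r i' i) l l', c i j l ≠ c i' (prev i' h) l' := by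
    intro i prev
    by_contra hcon
    push Not at hcon
    let B : Set α := U ∪ Set.range (fun p : {y // r y i} × Fin m => c p.1.1 (prev p.1.1 p.1.2) p.2)
    have hB : #B < κ := by
      refine (Cardinal.mk_union_le _ _).trans_lt ?_
      refine Cardinal.add_lt_of_lt hκ hU ?_
      refine Cardinal.mk_range_le.trans_lt ?_
      rw [Cardinal.mk_prod, Cardinal.lift_id, Cardinal.lift_id]
      exact Cardinal.mul_lt_of_lt hκ (hseg i) ((Cardinal.lt_aleph0_of_finite _).trans_le hκ)
    have hkill : ∀ j : J i, ∃ l, c i j l ∈ B := by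
      intro j
      by_cases h1 : ∀ l, c i j l ∉ U
      · obtain ⟨i', h, l, l', he⟩ := hcon j h1
        exact ⟨l, Or.inr ⟨(⟨i', h⟩, l'), he.symm⟩⟩
      · push Not at h1
        obtain ⟨l, hl⟩ := h1
        exact ⟨l, Or.inl hl⟩
    choose g hg using hkill
    have h2 : #(J i) ≤ #B := by
      refine Cardinal.mk_le_of_injective (f := fun j => (⟨c i j (g j), hg j⟩ : B)) ?_
      intro j j' hjj
      exact hc i j j' _ _ (congrArg Subtype.val hjj)
    exact absurd ((hJ i).trans h2) (not_le.mpr hB)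
  choose F hF1 hF2 using step
  have wf : WellFounded r := wo.wf
  let f : ∀ i, J i := wf.fix F
  have hf : ∀ i, f i = F i (fun i' _ => f i') := fun i => wf.fix_eq F i
  refine ⟨f, ?_, ?_⟩
  · intro i l
    rw [hf i]
    exact hF1 i _ l
  · have hlt : ∀ i i', r i' i → ∀ l l', c i (f i) l ≠ c i' (f i') l' := by
      intro i i' h l l'
      rw [hf i]
      exact hF2 i _ i' h l l'
    intro i i' hne l l'
    rcases trichotomous_of r i i' with h | h | h
    · exact (hlt i' i h l' l).symm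
    · exact absurd h hne
    · exact hlt i i' h l l'

end Pool.Agent.H23.Geo
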