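import Pool.Agent.H23.Geo2

set_option autoImplicit false

namespace Pool.Agent.H23.Geo

open Cardinal

variable {L : Type} [Lattice L] {ρ : L → ℕ}

/-- a maximal chain through the atom `x` of the interval -/
def Ch (ρ : L → ℕ) (u v x : L) (c : ℕ → L) : Prop :=
  c 0 = x ∧ (∀ i, i + 1 < ρ v - ρ u → ρ (c i) = ρ u + 1 + i ∧ c i ≤ v) ∧
    (∀ i, i + 2 < ρ v - ρ u → c i ≤ c (i + 1))

/-- disjoint chains covering the atoms of the interval -/
def Sys (ρ : L → ℕ) (u v : L) : Prop :=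
  ∃ c : L → ℕ → L, (∀ x ∈ At ρ u v, Ch ρ u v x (c x)) ∧
    ∀ x ∈ At ρ u v, ∀ x' ∈ At ρ u v, ∀ i, i + 1 < ρ v - ρ u → c x i = c x' i → x = x'

lemma Ch.le {u v x : L} {c : ℕ → L} (h : Ch ρ u v x c) : ∀ i, i + 1 < ρ v - ρ u → x ≤ c i := by
  intro i
  induction i with
  | zero => intro _; rw [h.1]
  | succ i ih => intro hi; exact (ih (by omega)).trans (h.2.2 i (by omega))

theorem Rk.caseA (h : Rk L ρ) {u v : L} {n : ℕ} (hv : ρ v = ρ u + n) (hn : 3 ≤ n)
    (hinf : (At ρ u v).Infinite)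
    (IH : ∀ y ∈ At ρ u v, (At ρ y v).Infinite → Sys ρ y v) (x0 : L) (hx0 : x0 ∈ At ρ u v)
    (hbig : ∀ y ∈ At ρ u v, y ≠ x0 → #(At ρ u v) ≤ #(At ρ y v)) : Sys ρ u v := by
  classical
  have hκ : ℵ₀ ≤ #(At ρ u v) := by
    rw [Cardinal.aleph0_le_mk_iff, Set.infinite_coe_iff]; exact hinf
  have hS : ∀ i : {y // y ∈ At ρ u v ∧ y ≠ x0}, Sys ρ i.1 v := by
    rintro ⟨y, hy, hne⟩
    refine IH y hy ?_
    rw [← Set.infinite_coe_iff, ← Cardinal.aleph0_le_mk_iff]
    exact hκ.trans (hbig y hy hne)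
  choose C hC1 hC2 using hS
  obtain ⟨g, hg0, hgm, hgr, hgb, -⟩ := h.exists_flag hx0.2.1
  have hx0r := hx0.2.2
  obtain ⟨f, hf1, hf2⟩ := greedy (α := L) (I := {y // y ∈ At ρ u v ∧ y ≠ x0}) (m := n - 2) hκ
    (Cardinal.mk_le_of_injective (f := fun i => (⟨i.1, i.2.1⟩ : At ρ u v)) (by
      intro i j hij
      exact Subtype.ext (congrArg (fun z : At ρ u v => (z : L)) hij)))
    (fun i => ↥(At ρ i.1 v)) (fun i => hbig i.1 i.2.1 i.2.2)
    (fun i j l => C i j.1 l.1) (by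
      intro i j j' l l' he
      have hr := i.2.1.2.2
      have h1 := ((hC1 i j.1 j.2).2.1 l.1 (by have := l.2; omega)).1
      have h2 := ((hC1 i j'.1 j'.2).2.1 l'.1 (by have := l'.2; omega)).1
      have he' : C i j.1 l.1 = C i j'.1 l'.1 := he
      have h3 : l.1 = l'.1 := by rw [he'] at h1; omega
      rw [← h3] at he'
      exact Subtype.ext (hC2 i j.1 j.2 j'.1 j'.2 l.1 (by have := l.2; omega) he'))
    (Set.range (fun l : Fin (n - 2) => g (l.1 + 1)))
    ((Cardinal.mk_range_le).trans_lt ((Cardinal.lt_aleph0_of_finite _).trans_le hκ))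
  refine ⟨fun y i => if y = x0 then g i else
    (if hy : y ∈ At ρ u v ∧ y ≠ x0 then
      (if i = 0 then y else C ⟨y, hy⟩ (f ⟨y, hy⟩).1 (i - 1)) else y), ?_, ?_⟩
  · intro y hy
    by_cases hyx : y = x0
    · subst hyx
      refine ⟨?_, ?_, ?_⟩
      · simp only [if_true]; exact hg0
      · intro i hi
        simp only [if_true]
        exact ⟨by rw [hgr i (by omega)]; omega, hgb i⟩
      · intro i hi
        simp only [if_true]
        exact hgm (Nat.le_succ i)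
    · have hy' : y ∈ At ρ u v ∧ y ≠ x0 := ⟨hy, hyx⟩
      have hyr := hy.2.2
      have hch := hC1 ⟨y, hy'⟩ (f ⟨y, hy'⟩).1 (f ⟨y, hy'⟩).2
      have hval : ∀ i, (if y = x0 then g i else
        (if hy : y ∈ At ρ u v ∧ y ≠ x0 then
        (if i = 0 then y else C ⟨y, hy⟩ (f ⟨y, hy⟩).1 (i - 1)) else y)) =
          if i = 0 then y else C ⟨y, hy'⟩ (f ⟨y, hy'⟩).1 (i - 1) := by
        intro i
        rw [if_neg hyx, dif_pos hy']
      refine ⟨?_, ?_, ?_⟩
      · show (if y = x0 then g 0 else _) = y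
        rw [hval 0, if_pos rfl]
      · intro i hi
        show ρ (if y = x0 then g i else _) = _ ∧ (if y = x0 then g i else _) ≤ v
        rw [hval i]
        by_cases hi0 : i = 0
        · rw [if_pos hi0, hi0]; exact ⟨by omega, hy.2.1⟩
        · rw [if_neg hi0]
          have h1 := hch.2.1 (i - 1) (by simp only; omega)
          simp only at h1
          exact ⟨by omega, h1.2⟩
      · intro i hi
        show (if y = x0 then g i else _) ≤ (if y = x0 then g (i + 1) else _)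
        rw [hval i, hval (i + 1), if_neg (Nat.succ_ne_zero i), Nat.add_sub_cancel]
        by_cases hi0 : i = 0
        · rw [if_pos hi0, hi0, hch.1]
          exact (f ⟨y, hy'⟩).2.1
        · rw [if_neg hi0]
          have h1 := hch.2.2 (i - 1) (by simp only; omega)
          rwa [Nat.sub_add_cancel (Nat.one_le_iff_ne_zero.mpr hi0)] at h1
  · intro y hy y' hy' i hi he
    by_contra hne
    have he' : (if y = x0 then g i else
        (if hy : y ∈ At ρ u v ∧ y ≠ x0 then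
        (if i = 0 then y else C ⟨y, hy⟩ (f ⟨y, hy⟩).1 (i - 1)) else y)) =
        (if y' = x0 then g i else
        (if hy : y' ∈ At ρ u v ∧ y' ≠ x0 then
        (if i = 0 then y' else C ⟨y', hy⟩ (f ⟨y', hy⟩).1 (i - 1)) else y')) := he
    by_cases h1 : y = x0
    · by_cases h2 : y' = x0
      · exact hne (h1.trans h2.symm)
      · rw [if_pos h1, if_neg h2, dif_pos (⟨hy', h2⟩ : y' ∈ At ρ u v ∧ y' ≠ x0)] at he'
        by_cases hi0 : i = 0
        · rw [if_pos hi0, hi0, hg0] at he'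
          exact hne (h1.trans he')
        · rw [if_neg hi0] at he'
          refine hf1 ⟨y', ⟨hy', h2⟩⟩ ⟨i - 1, by omega⟩ ⟨⟨i - 1, by omega⟩, ?_⟩
          show g (i - 1 + 1) = _
          rw [Nat.sub_add_cancel (Nat.one_le_iff_ne_zero.mpr hi0)]; exact he'
    · by_cases h2 : y' = x0
      · rw [if_neg h1, if_pos h2, dif_pos (⟨hy, h1⟩ : y ∈ At ρ u v ∧ y ≠ x0)] at he'
        by_cases hi0 : i = 0
        · rw [if_pos hi0, hi0, hg0] at he'
          exact hne (he'.trans h2.symm)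
        · rw [if_neg hi0] at he'
          refine hf1 ⟨y, ⟨hy, h1⟩⟩ ⟨i - 1, by omega⟩ ⟨⟨i - 1, by omega⟩, ?_⟩
          show g (i - 1 + 1) = _
          rw [Nat.sub_add_cancel (Nat.one_le_iff_ne_zero.mpr hi0)]; exact he'.symm
      · rw [if_neg h1, if_neg h2, dif_pos (⟨hy, h1⟩ : y ∈ At ρ u v ∧ y ≠ x0),
          dif_pos (⟨hy', h2⟩ : y' ∈ At ρ u v ∧ y' ≠ x0)] at he'
        by_cases hi0 : i = 0
        · rw [if_pos hi0, if_pos hi0] at he'
          exact hne he'
        · rw [if_neg hi0, if_neg hi0] at he'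
          exact hf2 ⟨y, ⟨hy, h1⟩⟩ ⟨y', ⟨hy', h2⟩⟩ (fun e => hne (congrArg Subtype.val e))
            ⟨i - 1, by omega⟩ ⟨i - 1, by omega⟩ he'

/-- flags starting at `u` -/
lemma Rk.flag2 (h : Rk L ρ) {u F w : L} (hw : w ∈ At ρ u F) : ∃ g : ℕ → L, g 0 = u ∧
    (∀ i, 1 ≤ i → w ≤ g i) ∧ Monotone g ∧ (∀ i, i ≤ ρ F - ρ u → ρ (g i) = ρ u + i) ∧
    (∀ i, g i ≤ F) ∧ (∀ i, ρ F - ρ u ≤ i → g i = F) := by
  obtain ⟨g, hg0, hgm, hgr, hgb, hge⟩ := h.exists_flag hw.2.1
  have hwr := hw.2.2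
  have hle := h.le hw.2.1
  refine ⟨fun i => Nat.casesOn i u g, rfl, ?_, ?_, ?_, ?_, ?_⟩
  · intro i hi
    cases i with
    | zero => omega
    | succ i =>
      show w ≤ g i
      rw [← hg0]; exact hgm (Nat.zero_le _)
  · apply monotone_nat_of_le_succ
    intro i
    cases i with
    | zero =>
      show u ≤ g 0
      rw [hg0]; exact hw.1
    | succ i => exact hgm (Nat.le_succ i)
  · intro i hi
    cases i with
    | zero => rfl
    | succ i =>
      show ρ (g i) = ρ u + (i + 1)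
      rw [hgr i (by omega)]; omega
  · intro i
    cases i with
    | zero => exact hw.1.trans hw.2.1
    | succ i => exact hgb i
  · intro i hi
    cases i with
    | zero => omega
    | succ i => exact hge i (by omega)

lemma sys_of {u v ℓ : L} (A B : L → ℕ → L)
    (hA : ∀ x ∈ At ρ u v, x ≤ ℓ → Ch ρ u v x (A x))
    (hB : ∀ z ∈ At ρ u v, ¬ z ≤ ℓ → Ch ρ u v z (B z))
    (D1 : ∀ x ∈ At ρ u v, x ≤ ℓ → ∀ x' ∈ At ρ u v, x' ≤ ℓ → ∀ i, 1 ≤ i → i + 1 < ρ v - ρ u →
      A x i = A x' i → x = x')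
    (D2 : ∀ z ∈ At ρ u v, ¬ z ≤ ℓ → ∀ z' ∈ At ρ u v, ¬ z' ≤ ℓ → ∀ i, 1 ≤ i →
      i + 1 < ρ v - ρ u → B z i = B z' i → z = z')
    (D3 : ∀ x ∈ At ρ u v, x ≤ ℓ → ∀ z ∈ At ρ u v, ¬ z ≤ ℓ → ∀ i, 1 ≤ i →
      i + 1 < ρ v - ρ u → A x i ≠ B z i) : Sys ρ u v := by
  classical
  refine ⟨fun x => if x ≤ ℓ then A x else B x, ?_, ?_⟩
  · intro x hx
    by_cases hxl : x ≤ ℓ
    · simp only [if_pos hxl]; exact hA x hx hxl
    · simp only [if_neg hxl]; exact hB x hx hxl
  · intro x hx x' hx' i hi he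
    rcases Nat.eq_zero_or_pos i with hi0 | hi0
    · subst hi0
      have h1 : (if x ≤ ℓ then A x else B x) 0 = x := by
        by_cases hxl : x ≤ ℓ
        · rw [if_pos hxl]; exact (hA x hx hxl).1
        · rw [if_neg hxl]; exact (hB x hx hxl).1
      have h2 : (if x' ≤ ℓ then A x' else B x') 0 = x' := by
        by_cases hxl : x' ≤ ℓ
        · rw [if_pos hxl]; exact (hA x' hx' hxl).1
        · rw [if_neg hxl]; exact (hB x' hx' hxl).1
      rw [← h1, ← h2]; exact he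
    · have he' : (if x ≤ ℓ then A x else B x) i = (if x' ≤ ℓ then A x' else B x') i := he
      by_cases h1 : x ≤ ℓ
      · by_cases h2 : x' ≤ ℓ
        · rw [if_pos h1, if_pos h2] at he'
          exact D1 x hx h1 x' hx' h2 i hi0 hi he'
        · rw [if_pos h1, if_neg h2] at he'
          exact absurd he' (D3 x hx h1 x' hx' h2 i hi0 hi)
      · by_cases h2 : x' ≤ ℓ
        · rw [if_neg h1, if_pos h2] at he'
          exact absurd he'.symm (D3 x' hx' h2 x hx h1 i hi0 hi)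
        · rw [if_neg h1, if_neg h2] at he'
          exact D2 x hx h1 x' hx' h2 i hi0 hi he'

end Pool.Agent.H23.Geo
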