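import Pool.Agent.H23.Geo3

set_option autoImplicit false

namespace Pool.Agent.H23.Geo

open Cardinal

variable {L : Type} [Lattice L] {ρ : L → ℕ}

lemma card_diff {κ : Cardinal.{0}} (hκ : ℵ₀ ≤ κ) {α : Type} (A : Set α) (hA : κ ≤ #A)
    (P : α → Prop) (hP : ∀ x ∈ A, ∀ y ∈ A, ¬ P x → ¬ P y → x = y) :
    κ ≤ #{x // x ∈ A ∧ P x} := by
  by_contra hcon
  push Not at hcon
  have h1 : #{x // x ∈ A ∧ ¬ P x} ≤ 1 := by
    rw [Cardinal.le_one_iff_subsingleton]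
    refine ⟨?_⟩
    rintro ⟨x, hx, hx'⟩ ⟨y, hy, hy'⟩
    exact Subtype.ext (hP x hx y hy hx' hy')
  have h2 : #A ≤ #({x | x ∈ A ∧ P x} ∪ {x | x ∈ A ∧ ¬ P x} : Set α) := by
    apply Cardinal.mk_le_mk_of_subset
    intro x hx
    by_cases hp : P x
    · exact Or.inl ⟨hx, hp⟩
    · exact Or.inr ⟨hx, hp⟩
  have h3 := Cardinal.mk_union_le {x | x ∈ A ∧ P x} {x | x ∈ A ∧ ¬ P x}
  have h4 : #({x | x ∈ A ∧ P x} : Set α) + #({x | x ∈ A ∧ ¬ P x} : Set α) < κ :=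
    Cardinal.add_lt_of_lt hκ hcon (h1.trans_lt ((Cardinal.one_lt_aleph0).trans_le hκ))
  exact absurd ((hA.trans h2).trans h3) (not_le.mpr h4)

lemma Rk.setupB (h : Rk L ρ) {u v : L} (hinf : (At ρ u v).Infinite) {x1 x2 : L}
    (h1 : x1 ∈ At ρ u v) (h2 : x2 ∈ At ρ u v) (hne : x1 ≠ x2)
    (hs1 : #(At ρ x1 v) < #(At ρ u v)) (hs2 : #(At ρ x2 v) < #(At ρ u v)) :
    ∃ ℓ, u ≤ ℓ ∧ ℓ ≤ v ∧ ρ ℓ = ρ u + 2 ∧ #(At ρ u v) ≤ #(At ρ u ℓ) := by
  have hκ : ℵ₀ ≤ #(At ρ u v) := by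
    rw [Cardinal.aleph0_le_mk_iff, Set.infinite_coe_iff]; exact hinf
  have hl := h.atom_sup h1 h2 hne
  refine ⟨x1 ⊔ x2, h1.1.trans le_sup_left, sup_le h1.2.1 h2.2.1, hl, ?_⟩
  by_contra hcon
  push Not at hcon
  have hT : #{z | z ∈ At ρ u v ∧ ¬ z ≤ x1 ⊔ x2} < #(At ρ u v) := by
    refine lt_of_le_of_lt ?_ (Cardinal.mul_lt_of_lt hκ hs1 hs2)
    have hnot : ∀ z, ¬ z ≤ x1 ⊔ x2 → ¬ z ≤ x1 ∧ ¬ z ≤ x2 := fun z hz =>
      ⟨fun e => hz (e.trans le_sup_left), fun e => hz (e.trans le_sup_right)⟩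
    let g : {z | z ∈ At ρ u v ∧ ¬ z ≤ x1 ⊔ x2} → At ρ x1 v × At ρ x2 v := fun z =>
      (⟨x1 ⊔ z.1, le_sup_left, sup_le h1.2.1 z.2.1.2.1, h.sup_atom h1.1 z.2.1 (hnot _ z.2.2).1⟩,
       ⟨x2 ⊔ z.1, le_sup_left, sup_le h2.2.1 z.2.1.2.1, h.sup_atom h2.1 z.2.1 (hnot _ z.2.2).2⟩)
    have hg : Function.Injective g := by
      rintro ⟨z, hz, hzl⟩ ⟨z', hz', hzl'⟩ he
      by_contra hne'
      have hzz : z ≠ z' := fun e => hne' (Subtype.ext e)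
      have e1 : x1 ⊔ z = x1 ⊔ z' := congrArg (fun q : At ρ x1 v × At ρ x2 v => (q.1 : L)) he
      have e2 : x2 ⊔ z = x2 ⊔ z' := congrArg (fun q : At ρ x1 v × At ρ x2 v => (q.2 : L)) he
      have r0 := h.atom_sup hz hz' hzz
      have r1 := h.sup_atom h1.1 hz (hnot _ hzl).1
      have r2 := h.sup_atom h2.1 hz (hnot _ hzl).2
      rw [h1.2.2] at r1
      rw [h2.2.2] at r2
      have f1 : z ⊔ z' = x1 ⊔ z := h.eq (sup_le le_sup_right (by rw [e1]; exact le_sup_right))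
        (by omega)
      have f2 : z ⊔ z' = x2 ⊔ z := h.eq (sup_le le_sup_right (by rw [e2]; exact le_sup_right))
        (by omega)
      have f3 : x1 ⊔ x2 ≤ z ⊔ z' := sup_le (by rw [f1]; exact le_sup_left)
        (by rw [f2]; exact le_sup_left)
      have f4 := h.eq f3 (by omega)
      exact hzl (by rw [f4]; exact le_sup_left)
    have := Cardinal.mk_le_of_injective hg
    rwa [Cardinal.mk_prod, Cardinal.lift_id, Cardinal.lift_id] at this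
  have h3 : #(At ρ u v) ≤ #(At ρ u (x1 ⊔ x2) ∪ {z | z ∈ At ρ u v ∧ ¬ z ≤ x1 ⊔ x2} : Set L) := by
    apply Cardinal.mk_le_mk_of_subset
    intro z hz
    by_cases hp : z ≤ x1 ⊔ x2
    · exact Or.inl ⟨hz.1, hp, hz.2.2⟩
    · exact Or.inr ⟨hz, hp⟩
  exact absurd (h3.trans (Cardinal.mk_union_le _ _)) (not_le.mpr (Cardinal.add_lt_of_lt hκ hcon hT))

/-- two-component descriptions of chains -/
structure Dat (ρ : L → ℕ) (u ℓ F : L) (n : ℕ) (a g : ℕ → L) : Prop where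
  ha1 : ∀ i, u ≤ a i
  ha2 : ∀ i, a i ≤ ℓ
  hg1 : ∀ i, u ≤ g i
  hg2 : ∀ i, g i ≤ F
  hmono : ∀ i, a i ⊔ g i ≤ a (i + 1) ⊔ g (i + 1)
  hrk : ∀ i, i + 1 < n → ρ (a i) + ρ (g i) = 2 * ρ u + 1 + i

lemma Dat.ch (h : Rk L ρ) {u v ℓ F x : L} {n : ℕ} {a g : ℕ → L} (hv : ρ v = ρ u + n)
    (hF : F ≤ v) (hl : ℓ ≤ v) (hFl : F ⊔ ℓ = v) (hr : ρ F + ρ ℓ = ρ v + ρ u)
    (hd : Dat ρ u ℓ F n a g) (hx : x ∈ At ρ u v) (hxa : x ≤ a 1 ⊔ g 1) :
    Ch ρ u v x (fun i => if i = 0 then x else a i ⊔ g i) := by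
  refine ⟨by simp, ?_, ?_⟩
  · intro i hi
    by_cases hi0 : i = 0
    · simp only [hi0, if_true]; exact ⟨hx.2.2, hx.2.1⟩
    · simp only [if_neg hi0]
      have h1 := h.mp1 hFl hr (hd.ha1 i) (hd.ha2 i) (hd.hg1 i) (hd.hg2 i)
      have h2 := hd.hrk i (by omega)
      exact ⟨by omega, sup_le ((hd.ha2 i).trans hl) ((hd.hg2 i).trans hF)⟩
  · intro i hi
    by_cases hi0 : i = 0
    · simp only [hi0, if_true, zero_add, one_ne_zero, if_false]; exact hxa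
    · simp only [if_neg hi0, Nat.succ_ne_zero, if_false]
      exact hd.hmono i

lemma Dat.full {u ℓ F x : L} {n : ℕ} {g : ℕ → L} (hx : x ∈ At ρ u ℓ) (hg1 : ∀ i, u ≤ g i)
    (hgm : Monotone g) (hg2 : ∀ i, g i ≤ F) (hgr : ∀ i, i + 1 < n → ρ (g i) = ρ u + i) :
    Dat ρ u ℓ F n (fun _ => x) g := by
  refine ⟨fun _ => hx.1, fun _ => hx.2.1, hg1, hg2, fun i => sup_le_sup le_rfl (hgm (Nat.le_succ i)), ?_⟩
  intro i hi
  have := hx.2.2
  have := hgr i hi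
  omega

lemma Dat.cap {u ℓ F x : L} {n : ℕ} {g : ℕ → L} (hn : 3 ≤ n) (hx : x ∈ At ρ u ℓ)
    (hl : ρ ℓ = ρ u + 2) (hg1 : ∀ i, u ≤ g i)
    (hgm : Monotone g) (hg2 : ∀ i, g i ≤ F) (hgr : ∀ i, i + 2 < n → ρ (g i) = ρ u + i)
    (hgr' : ρ (g (n - 2)) = ρ u + (n - 3)) :
    Dat ρ u ℓ F n (fun i => if i < n - 2 then x else ℓ) g := by
  refine ⟨?_, ?_, hg1, hg2, ?_, ?_⟩
  · intro i
    by_cases hi : i < n - 2
    · simp only [if_pos hi]; exact hx.1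
    · simp only [if_neg hi]; exact hx.1.trans hx.2.1
  · intro i
    by_cases hi : i < n - 2
    · simp only [if_pos hi]; exact hx.2.1
    · simp only [if_neg hi]; exact le_rfl
  · intro i
    refine sup_le_sup ?_ (hgm (Nat.le_succ i))
    by_cases hi : i + 1 < n - 2
    · simp only [if_pos hi, if_pos (by omega : i < n - 2)]; exact le_rfl
    · simp only [if_neg hi]
      by_cases hi' : i < n - 2
      · simp only [if_pos hi']; exact hx.2.1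
      · simp only [if_neg hi']; exact le_rfl
  · intro i hi
    have h1 := hx.2.2
    by_cases hi' : i < n - 2
    · simp only [if_pos hi']
      have := hgr i (by omega)
      omega
    · simp only [if_neg hi']
      have : i = n - 2 := by omega
      subst this
      omega

end Pool.Agent.H23.Geo
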