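import Pool.Agent.H23.Geo4

set_option autoImplicit false

namespace Pool.Agent.H23.Geo

open Cardinal

variable {L : Type} [Lattice L] {ρ : L → ℕ}

theorem Rk.caseB2 (h : Rk L ρ) {u v ℓ : L} {n : ℕ} (hv : ρ v = ρ u + n) (hn : 3 ≤ n)
    (hinf : (At ρ u v).Infinite) (hul : u ≤ ℓ) (hlv : ℓ ≤ v) (hl : ρ ℓ = ρ u + 2)
    (hbig : #(At ρ u v) ≤ #(At ρ u ℓ))
    (H : ∀ F, u ≤ F → F ≤ v → F ⊔ ℓ = v → ρ F + ρ ℓ = ρ v + ρ u →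
      ∃ w ∈ At ρ u v, ¬ w ≤ ℓ ∧ ¬ w ≤ F) : Sys ρ u v := by
  classical
  have hκ : ℵ₀ ≤ #(At ρ u v) := by
    rw [Cardinal.aleph0_le_mk_iff, Set.infinite_coe_iff]; exact hinf
  have hlt : ℓ < v := lt_of_le_of_ne hlv (fun e => by rw [e] at hl; omega)
  obtain ⟨z0, hz01, hz02, hz03, hz04⟩ := h.rel u ℓ v hul hlt
  let I := {z // z ∈ At ρ u v ∧ ¬ z ≤ ℓ}
  let i0 : I := ⟨z0, ⟨hz01, hz02, hz04⟩, hz03⟩
  have hF : ∀ z : I, ∃ F, z.1 ≤ F ∧ F ≤ v ∧ F ⊔ ℓ = v ∧ ρ F + ρ ℓ = ρ v + ρ u := fun z =>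
    h.compl z.2.1 z.2.2 hul hlv
  choose F F1 F2 F3 F4 using hF
  have hw : ∀ z : I, ∃ w : I, ¬ w.1 ≤ F z := fun z => by
    obtain ⟨w, w1, w2, w3⟩ := H (F z) (z.2.1.1.trans (F1 z)) (F2 z) (F3 z) (F4 z)
    exact ⟨⟨w, w1, w2⟩, w3⟩
  choose w hwF using hw
  have hg : ∀ z : I, ∃ g : ℕ → L, g 0 = u ∧
    (∀ i, 1 ≤ i → z.1 ≤ g i) ∧ Monotone g ∧ (∀ i, i ≤ ρ (F z) - ρ u → ρ (g i) = ρ u + i) ∧
    (∀ i, g i ≤ F z) ∧ (∀ i, ρ (F z) - ρ u ≤ i → g i = F z) := fun z =>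
    h.flag2 ⟨z.2.1.1, F1 z, z.2.1.2.2⟩
  choose g g0 g1 g2 g3 g4 g5 using hg
  have gu : ∀ z i, u ≤ g z i := fun z i => by rw [← g0 z]; exact g2 z (Nat.zero_le i)
  obtain ⟨f, -, hf2⟩ := greedy (α := L) (I := I) (m := 1) hκ
    (Cardinal.mk_le_of_injective (f := fun i => (⟨i.1, i.2.1⟩ : At ρ u v)) (by
      intro i j hij
      exact Subtype.ext (congrArg (fun z : At ρ u v => (z : L)) hij)))
    (fun z => {x // x ∈ At ρ u ℓ ∧ ¬ (w z).1 ≤ x ⊔ F z})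
    (fun z => by
      refine card_diff hκ (At ρ u ℓ) hbig (fun x => ¬ (w z).1 ≤ x ⊔ F z) ?_
      intro x hx y hy hx' hy'
      rw [not_not] at hx' hy'
      have huF := z.2.1.1.trans (F1 z)
      have r1 := h.sup_atom huF (w z).2.1 (hwF z)
      have key : ∀ x ∈ At ρ u ℓ, (w z).1 ≤ x ⊔ F z → F z ⊔ (w z).1 = x ⊔ F z := by
        intro x hx hx'
        have r2 := h.mp1 (F3 z) (F4 z) hx.1 hx.2.1 huF le_rfl
        have := hx.2.2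
        exact h.eq (sup_le le_sup_right hx') (by omega)
      have e1 := h.mp2 (F3 z) (F4 z) hx.1 hx.2.1 huF le_rfl
      have e2 := h.mp2 (F3 z) (F4 z) hy.1 hy.2.1 huF le_rfl
      rw [← key x hx hx'] at e1
      rw [← key y hy hy'] at e2
      exact e1.symm.trans e2)
    (fun z j _ => j.1) (fun z j j' _ _ he => Subtype.ext he) ∅ (by
      rw [Cardinal.mk_emptyCollection]; exact Cardinal.aleph0_pos.trans_le hκ)
  let X : I → L := fun z => (f z).1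
  have hX1 : ∀ z, X z ∈ At ρ u ℓ := fun z => (f z).2.1
  have hX2 : ∀ z, ¬ (w z).1 ≤ X z ⊔ F z := fun z => (f z).2.2
  have hX3 : ∀ z z', X z = X z' → z = z' := by
    intro z z' he
    by_contra hne
    exact hf2 z z' hne 0 0 he
  have hζ : ∀ x : L, ∃ z : I, (∃ z', X z' = x) → X z = x := by
    intro x
    by_cases hx : ∃ z', X z' = x
    · obtain ⟨z, hz⟩ := hx
      exact ⟨z, fun _ => hz⟩
    · exact ⟨i0, fun e => absurd e hx⟩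
  choose ζ hζ using hζ
  have hB : ∀ z : I, Dat ρ u ℓ (F z) n (fun _ => X z) (g z) := by
    intro z
    refine Dat.full (hX1 z) (gu z) (g2 z) (g4 z) ?_
    intro i hi
    have := F4 z
    exact g3 z i (by omega)
  have hA : ∀ x : L, x ∈ At ρ u ℓ → Dat ρ u ℓ (F (w (ζ x))) n (fun _ => x) (g (w (ζ x))) := by
    intro x hx
    refine Dat.full hx (gu _) (g2 _) (g4 _) ?_
    intro i hi
    have := F4 (w (ζ x))
    exact g3 _ i (by omega)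
  refine sys_of (ℓ := ℓ) (fun x i => if i = 0 then x else x ⊔ g (w (ζ x)) i)
    (fun z i => if i = 0 then z else
      (if hz : z ∈ At ρ u v ∧ ¬ z ≤ ℓ then X ⟨z, hz⟩ ⊔ g ⟨z, hz⟩ i else z)) ?_ ?_ ?_ ?_ ?_
  · intro x hx hxl
    exact (hA x ⟨hx.1, hxl, hx.2.2⟩).ch h hv (F2 _) hlv (F3 _) (F4 _) hx le_sup_left
  · intro z hz hzl
    have := (hB ⟨z, hz, hzl⟩).ch h hv (F2 _) hlv (F3 _) (F4 _) hz
      ((g1 ⟨z, hz, hzl⟩ 1 le_rfl).trans le_sup_right)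
    convert this using 2 with i
    rw [dif_pos (⟨hz, hzl⟩ : z ∈ At ρ u v ∧ ¬ z ≤ ℓ)]
  · intro x hx hxl x' hx' hxl' i hi _ he
    have he' : (if i = 0 then x else x ⊔ g (w (ζ x)) i) =
      (if i = 0 then x' else x' ⊔ g (w (ζ x')) i) := he
    rw [if_neg (by omega), if_neg (by omega)] at he'
    have e1 := h.mp2 (F3 (w (ζ x))) (F4 _) hx.1 hxl (gu _ i) (g4 _ i)
    have e2 := h.mp2 (F3 (w (ζ x'))) (F4 _) hx'.1 hxl' (gu _ i) (g4 _ i)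
    rw [he'] at e1
    exact e1.symm.trans e2
  · intro z hz hzl z' hz' hzl' i hi _ he
    have he' : (if i = 0 then z else
      (if hz : z ∈ At ρ u v ∧ ¬ z ≤ ℓ then X ⟨z, hz⟩ ⊔ g ⟨z, hz⟩ i else z)) =
      (if i = 0 then z' else
      (if hz : z' ∈ At ρ u v ∧ ¬ z' ≤ ℓ then X ⟨z', hz⟩ ⊔ g ⟨z', hz⟩ i else z')) := he
    rw [if_neg (by omega), if_neg (by omega),
      dif_pos (⟨hz, hzl⟩ : z ∈ At ρ u v ∧ ¬ z ≤ ℓ),
      dif_pos (⟨hz', hzl'⟩ : z' ∈ At ρ u v ∧ ¬ z' ≤ ℓ)] at he'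
    have e1 := h.mp2 (F3 ⟨z, hz, hzl⟩) (F4 _) (hX1 ⟨z, hz, hzl⟩).1 (hX1 ⟨z, hz, hzl⟩).2.1
      (gu _ i) (g4 _ i)
    have e2 := h.mp2 (F3 ⟨z', hz', hzl'⟩) (F4 _) (hX1 ⟨z', hz', hzl'⟩).1
      (hX1 ⟨z', hz', hzl'⟩).2.1 (gu _ i) (g4 _ i)
    rw [he'] at e1
    exact congrArg Subtype.val (hX3 _ _ (e1.symm.trans e2))
  · intro x hx hxl z hz hzl i hi _ he
    have he' : (if i = 0 then x else x ⊔ g (w (ζ x)) i) =
      (if i = 0 then z else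
      (if hz : z ∈ At ρ u v ∧ ¬ z ≤ ℓ then X ⟨z, hz⟩ ⊔ g ⟨z, hz⟩ i else z)) := he
    rw [if_neg (by omega), if_neg (by omega),
      dif_pos (⟨hz, hzl⟩ : z ∈ At ρ u v ∧ ¬ z ≤ ℓ)] at he'
    have e1 := h.mp2 (F3 (w (ζ x))) (F4 _) hx.1 hxl (gu _ i) (g4 _ i)
    have e2 := h.mp2 (F3 ⟨z, hz, hzl⟩) (F4 _) (hX1 ⟨z, hz, hzl⟩).1 (hX1 ⟨z, hz, hzl⟩).2.1
      (gu _ i) (g4 _ i)
    have e3 : X ⟨z, hz, hzl⟩ = x := by
      rw [← e2, ← he', e1]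
    have e4 : ζ x = ⟨z, hz, hzl⟩ := hX3 _ _ ((hζ x ⟨_, e3⟩).trans e3.symm)
    apply hX2 ⟨z, hz, hzl⟩
    have e5 : (w ⟨z, hz, hzl⟩).1 ≤ x ⊔ g (w (ζ x)) i := by
      rw [← e4]
      exact (g1 (w (ζ x)) i hi).trans le_sup_right
    rw [he'] at e5
    exact e5.trans (sup_le_sup le_rfl (g4 _ i))

end Pool.Agent.H23.Geo
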