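import Pool.Agent.H23.Geo4

set_option autoImplicit false

namespace Pool.Agent.H23.Geo

open Cardinal

variable {L : Type} [Lattice L] {ρ : L → ℕ}

/-- an injection from atoms to coatoms of the interval -/
lemma Rk.inj (h : Rk L ρ) {u Q : L} {m : ℕ} (huQ : u ≤ Q) (hQ : ρ Q = ρ u + (m + 1))
    (IH : (At ρ u Q).Infinite → Sys ρ u Q) :
    ∃ H : At ρ u Q → L, (∀ z, H z ∈ Co ρ u Q) ∧ ∀ z z', H z = H z' → z = z' := by
  classical
  by_cases hfin : (At ρ u Q).Finite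
  · obtain ⟨hc, hle⟩ := h.fin_ineq m u Q huQ hQ hfin
    haveI : Fintype (At ρ u Q) := hfin.fintype
    haveI : Fintype (Co ρ u Q) := hc.fintype
    rw [← Nat.card_coe_set_eq, ← Nat.card_coe_set_eq, Nat.card_eq_fintype_card,
      Nat.card_eq_fintype_card] at hle
    obtain ⟨e⟩ := Function.Embedding.nonempty_of_card_le hle
    exact ⟨fun z => (e z).1, fun z => (e z).2, fun z z' he => e.injective (Subtype.ext he)⟩
  · have hinf : (At ρ u Q).Infinite := hfin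
    have hm : 1 ≤ m := by
      by_contra hm
      have hm0 : m = 0 := by omega
      subst hm0
      apply hinf
      refine (Set.finite_singleton Q).subset ?_
      rintro x ⟨_, h2, h3⟩
      exact h.eq h2 (by omega)
    obtain ⟨c, hc1, hc2⟩ := IH hinf
    refine ⟨fun z => c z.1 (m - 1), ?_, ?_⟩
    · intro z
      obtain ⟨h1, h2⟩ := (hc1 z.1 z.2).2.1 (m - 1) (by omega)
      refine ⟨z.2.1.trans ((hc1 z.1 z.2).le (m - 1) (by omega)), h2, ?_⟩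
      show ρ (c z.1 (m - 1)) + 1 = ρ Q
      omega
    · intro z z' he
      exact Subtype.ext (hc2 z.1 z.2 z'.1 z'.2 (m - 1) (by omega) he)

lemma Rk.loc (h : Rk L ρ) {u v ℓ Q x z hh : L} {n : ℕ} (hv : ρ v = ρ u + n) (hn : 3 ≤ n)
    (hl : ρ ℓ = ρ u + 2) (huQ : u ≤ Q) (hQr : ρ Q = ρ u + (n - 2))
    (hx : x ∈ At ρ u ℓ) (hz : z ∈ At ρ u Q) (hhh : hh ∈ Co ρ u Q) :
    ∃ aA gA aB gB : ℕ → L, Dat ρ u ℓ Q n aA gA ∧ Dat ρ u ℓ Q n aB gB ∧ (∀ i, x ≤ aA i) ∧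
      (∀ i, 1 ≤ i → z ≤ aB i ⊔ gB i) ∧
      (∀ i, i + 1 < n → aA i = x ∨ (aA i = ℓ ∧ gA i = hh)) ∧
      (∀ i, i + 1 < n → aB i = x ∨ (aB i = ℓ ∧ gB i = hh)) ∧
      (∀ i, 1 ≤ i → i + 1 < n → aA i = aB i → gA i = gB i → False) := by
  have hhr := hhh.2.2
  have hhlt : hh < Q := lt_of_le_of_ne hhh.2.1 (fun e => by rw [e] at hhr; omega)
  have hxl : x ≠ ℓ := fun e => by
    have := hx.2.2
    rw [e] at this; omega
  by_cases hzh : z ≤ hh
  · -- case (i)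
    obtain ⟨w, w1, w2, w3, w4⟩ := h.rel u hh Q hhh.1 hhlt
    obtain ⟨gA, a0, a1, a2, a3, a4, a5⟩ := h.flag2 (⟨w1, w2, w4⟩ : w ∈ At ρ u Q)
    obtain ⟨gB, b0, b1, b2, b3, b4, b5⟩ := h.flag2 (⟨hz.1, hzh, hz.2.2⟩ : z ∈ At ρ u hh)
    have ua : ∀ i, u ≤ gA i := fun i => by rw [← a0]; exact a2 (Nat.zero_le i)
    have ub : ∀ i, u ≤ gB i := fun i => by rw [← b0]; exact b2 (Nat.zero_le i)
    refine ⟨fun _ => x, gA, fun i => if i < n - 2 then x else ℓ, gB, ?_, ?_, ?_, ?_, ?_, ?_, ?_⟩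
    · exact Dat.full hx ua a2 a4 (fun i hi => a3 i (by omega))
    · refine Dat.cap hn hx hl ub b2 (fun i => (b4 i).trans hhh.2.1) ?_ ?_
      · intro i hi
        exact b3 i (by omega)
      · rw [b5 (n - 2) (by omega)]; omega
    · intro _; exact le_rfl
    · intro i hi; exact (b1 i hi).trans le_sup_right
    · intro i _; exact Or.inl rfl
    · intro i hi
      by_cases hi' : i < n - 2
      · left; simp only [if_pos hi']
      · right; simp only [if_neg hi']; exact ⟨trivial, b5 i (by omega)⟩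
    · intro i hi1 hi2 e1 e2
      apply w3
      exact ((a1 i hi1).trans e2.le).trans (b4 i)
  · -- case (ii)
    obtain ⟨gB, b0, b1, b2, b3, b4, b5⟩ := h.flag2 hz
    obtain ⟨gA, a0, a2, a3, a4, a5⟩ := h.exists_flag hhh.1
    have ua : ∀ i, u ≤ gA i := fun i => by rw [← a0]; exact a2 (Nat.zero_le i)
    have ub : ∀ i, u ≤ gB i := fun i => by rw [← b0]; exact b2 (Nat.zero_le i)
    refine ⟨fun i => if i < n - 2 then x else ℓ, gA, fun _ => x, gB, ?_, ?_, ?_, ?_, ?_, ?_, ?_⟩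
    · refine Dat.cap hn hx hl ua a2 (fun i => (a4 i).trans hhh.2.1) ?_ ?_
      · intro i hi
        exact a3 i (by omega)
      · rw [a5 (n - 2) (by omega)]; omega
    · exact Dat.full hx ub b2 b4 (fun i hi => b3 i (by omega))
    · intro i
      by_cases hi' : i < n - 2
      · simp only [if_pos hi']; exact le_rfl
      · simp only [if_neg hi']; exact hx.2.1
    · intro i hi; exact (b1 i hi).trans le_sup_right
    · intro i hi
      by_cases hi' : i < n - 2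
      · left; simp only [if_pos hi']
      · right; simp only [if_neg hi']; exact ⟨trivial, a5 i (by omega)⟩
    · intro i _; exact Or.inl rfl
    · intro i hi1 hi2 e1 e2
      apply hzh
      exact ((b1 i hi1).trans e2.ge).trans (a4 i)

theorem Rk.caseB1 (h : Rk L ρ) {u v ℓ Q : L} {n : ℕ} (hv : ρ v = ρ u + n) (hn : 3 ≤ n)
    (hinf : (At ρ u v).Infinite) (hul : u ≤ ℓ) (hlv : ℓ ≤ v) (hl : ρ ℓ = ρ u + 2)
    (hbig : #(At ρ u v) ≤ #(At ρ u ℓ)) (huQ : u ≤ Q) (hQv : Q ≤ v) (hQl : Q ⊔ ℓ = v)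
    (hr : ρ Q + ρ ℓ = ρ v + ρ u) (HQ : ∀ w ∈ At ρ u v, ¬ w ≤ ℓ → w ≤ Q)
    (IH : (At ρ u Q).Infinite → Sys ρ u Q) : Sys ρ u v := by
  classical
  have hκ : ℵ₀ ≤ #(At ρ u v) := by
    rw [Cardinal.aleph0_le_mk_iff, Set.infinite_coe_iff]; exact hinf
  have hlt : ℓ < v := lt_of_le_of_ne hlv (fun e => by rw [e] at hl; omega)
  obtain ⟨z0, hz01, hz02, hz03, hz04⟩ := h.rel u ℓ v hul hlt
  let I := {z // z ∈ At ρ u v ∧ ¬ z ≤ ℓ}
  let i0 : I := ⟨z0, ⟨hz01, hz02, hz04⟩, hz03⟩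
  have hIQ : ∀ z : I, z.1 ∈ At ρ u Q := fun z => ⟨z.2.1.1, HQ z.1 z.2.1 z.2.2, z.2.1.2.2⟩
  obtain ⟨H, hH1, hH2⟩ := h.inj (m := n - 3) huQ (by omega) IH
  obtain ⟨f, -, hf2⟩ := greedy (α := L) (I := I) (m := 1) hκ
    (Cardinal.mk_le_of_injective (f := fun i => (⟨i.1, i.2.1⟩ : At ρ u v)) (by
      intro i j hij
      exact Subtype.ext (congrArg (fun z : At ρ u v => (z : L)) hij)))
    (fun _ => At ρ u ℓ) (fun _ => hbig)
    (fun z j _ => j.1) (fun z j j' _ _ he => Subtype.ext he) ∅ (by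
      rw [Cardinal.mk_emptyCollection]; exact Cardinal.aleph0_pos.trans_le hκ)
  let X : I → L := fun z => (f z).1
  have hX1 : ∀ z, X z ∈ At ρ u ℓ := fun z => (f z).2
  have hX3 : ∀ z z', X z = X z' → z = z' := by
    intro z z' he
    by_contra hne
    exact hf2 z z' hne 0 0 he
  have hloc := fun z : I => h.loc hv hn hl huQ (by omega) (hX1 z) (hIQ z) (hH1 ⟨z.1, hIQ z⟩)
  choose aA gA aB gB dA dB xA zB lA lB hdis using hloc
  obtain ⟨g0, p0, p1, p2, p3, p4, p5⟩ := h.flag2 (hIQ i0)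
  have up : ∀ i, u ≤ g0 i := fun i => by rw [← p0]; exact p2 (Nat.zero_le i)
  have hζ : ∀ x : L, ∃ a g : ℕ → L, x ∈ At ρ u ℓ → (Dat ρ u ℓ Q n a g ∧ (∀ i, x ≤ a i) ∧
      (∀ z, X z = x → a = aA z ∧ g = gA z) ∧ ((∃ z, X z = x) ∨ ∀ i, a i = x)) := by
    intro x
    by_cases hx : ∃ z', X z' = x
    · obtain ⟨z, hz⟩ := hx
      refine ⟨aA z, gA z, fun _ => ⟨dA z, fun i => by rw [← hz]; exact xA z i, ?_, Or.inl ⟨z, hz⟩⟩⟩
      intro z' hz'
      have : z = z' := hX3 _ _ (hz.trans hz'.symm)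
      subst this
      exact ⟨rfl, rfl⟩
    · refine ⟨fun _ => x, g0, fun hxx => ⟨?_, fun _ => le_rfl, fun z hz => absurd ⟨z, hz⟩ hx,
        Or.inr fun _ => rfl⟩⟩
      exact Dat.full hxx up p2 p4 (fun i hi => p3 i (by omega))
  choose a g hag using hζ
  have hne : ∀ x ∈ At ρ u ℓ, x ≠ ℓ := fun x hx e => by
    have := hx.2.2
    rw [e] at this; omega
  -- labels of the elements of the `A` chains
  have labA : ∀ x ∈ At ρ u ℓ, ∀ i, i + 1 < n →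
      a x i = x ∨ (a x i = ℓ ∧ ∃ z, X z = x ∧ g x i = H ⟨z.1, hIQ z⟩) := by
    intro x hx i hi
    obtain ⟨_, _, h3, h4⟩ := hag x hx
    rcases h4 with ⟨z, hz⟩ | h4
    · obtain ⟨e1, e2⟩ := h3 z hz
      rcases lA z i hi with h5 | ⟨h5, h6⟩
      · left; rw [e1, h5, hz]
      · right; rw [e1, e2]; exact ⟨h5, z, hz, h6⟩
    · left; exact h4 i
  refine sys_of (ℓ := ℓ) (fun x i => if i = 0 then x else a x i ⊔ g x i)
    (fun z i => if i = 0 then z else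
      (if hz : z ∈ At ρ u v ∧ ¬ z ≤ ℓ then aB ⟨z, hz⟩ i ⊔ gB ⟨z, hz⟩ i else z)) ?_ ?_ ?_ ?_ ?_
  · intro x hx hxl
    obtain ⟨h1, h2, _, _⟩ := hag x ⟨hx.1, hxl, hx.2.2⟩
    exact h1.ch h hv hQv hlv hQl hr hx ((h2 1).trans le_sup_left)
  · intro z hz hzl
    have := (dB ⟨z, hz, hzl⟩).ch h hv hQv hlv hQl hr hz (zB ⟨z, hz, hzl⟩ 1 le_rfl)
    convert this using 2 with i
    rw [dif_pos (⟨hz, hzl⟩ : z ∈ At ρ u v ∧ ¬ z ≤ ℓ)]
  · intro x hx hxl x' hx' hxl' i hi hin he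
    have he' : (if i = 0 then x else a x i ⊔ g x i) =
      (if i = 0 then x' else a x' i ⊔ g x' i) := he
    rw [if_neg (by omega), if_neg (by omega)] at he'
    have hxA : x ∈ At ρ u ℓ := ⟨hx.1, hxl, hx.2.2⟩
    have hxA' : x' ∈ At ρ u ℓ := ⟨hx'.1, hxl', hx'.2.2⟩
    obtain ⟨d, _, _, _⟩ := hag x hxA
    obtain ⟨d', _, _, _⟩ := hag x' hxA'
    have e1 := h.mp2 hQl hr (d.ha1 i) (d.ha2 i) (d.hg1 i) (d.hg2 i)
    have e2 := h.mp2 hQl hr (d'.ha1 i) (d'.ha2 i) (d'.hg1 i) (d'.hg2 i)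
    have e3 := h.mp3 hQl hr (d.ha1 i) (d.ha2 i) (d.hg1 i) (d.hg2 i)
    have e4 := h.mp3 hQl hr (d'.ha1 i) (d'.ha2 i) (d'.hg1 i) (d'.hg2 i)
    rw [he', e2] at e1
    rw [he', e4] at e3
    rcases labA x hxA i (by omega) with h1 | ⟨h1, z, hz, h2⟩
    · rcases labA x' hxA' i (by omega) with h1' | ⟨h1', z', hz', h2'⟩
      · rw [← h1, ← h1', e1]
      · exact absurd (by rw [← h1, ← h1', e1]) (hne x hxA)
    · rcases labA x' hxA' i (by omega) with h1' | ⟨h1', z', hz', h2'⟩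
      · exact absurd (by rw [← h1, ← h1', e1]) (hne x' hxA')
      · rw [h2, h2'] at e3
        have h3 := hH2 _ _ e3
        have h4 : z' = z := Subtype.ext (congrArg (fun q : At ρ u Q => (q : L)) h3)
        rw [← hz, ← hz', h4]
  · intro z hz hzl z' hz' hzl' i hi hin he
    have he' : (if i = 0 then z else
      (if hz : z ∈ At ρ u v ∧ ¬ z ≤ ℓ then aB ⟨z, hz⟩ i ⊔ gB ⟨z, hz⟩ i else z)) =
      (if i = 0 then z' else
      (if hz : z' ∈ At ρ u v ∧ ¬ z' ≤ ℓ then aB ⟨z', hz⟩ i ⊔ gB ⟨z', hz⟩ i else z')) := he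
    rw [if_neg (by omega), if_neg (by omega),
      dif_pos (⟨hz, hzl⟩ : z ∈ At ρ u v ∧ ¬ z ≤ ℓ),
      dif_pos (⟨hz', hzl'⟩ : z' ∈ At ρ u v ∧ ¬ z' ≤ ℓ)] at he'
    have d := dB ⟨z, hz, hzl⟩
    have d' := dB ⟨z', hz', hzl'⟩
    have e1 := h.mp2 hQl hr (d.ha1 i) (d.ha2 i) (d.hg1 i) (d.hg2 i)
    have e2 := h.mp2 hQl hr (d'.ha1 i) (d'.ha2 i) (d'.hg1 i) (d'.hg2 i)
    have e3 := h.mp3 hQl hr (d.ha1 i) (d.ha2 i) (d.hg1 i) (d.hg2 i)
    have e4 := h.mp3 hQl hr (d'.ha1 i) (d'.ha2 i) (d'.hg1 i) (d'.hg2 i)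
    rw [he', e2] at e1
    rw [he', e4] at e3
    rcases lB ⟨z, hz, hzl⟩ i (by omega) with h1 | ⟨h1, h2⟩
    · rcases lB ⟨z', hz', hzl'⟩ i (by omega) with h1' | ⟨h1', h2'⟩
      · rw [h1, h1'] at e1
        exact (congrArg Subtype.val (hX3 _ _ e1)).symm
      · rw [h1, h1'] at e1
        exact absurd e1.symm (hne _ (hX1 _))
    · rcases lB ⟨z', hz', hzl'⟩ i (by omega) with h1' | ⟨h1', h2'⟩
      · rw [h1, h1'] at e1
        exact absurd e1 (hne _ (hX1 _))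
      · rw [h2, h2'] at e3
        have h3 := hH2 _ _ e3
        exact (congrArg (fun q : At ρ u Q => (q : L)) h3).symm
  · intro x hx hxl z hz hzl i hi hin he
    have he' : (if i = 0 then x else a x i ⊔ g x i) =
      (if i = 0 then z else
      (if hz : z ∈ At ρ u v ∧ ¬ z ≤ ℓ then aB ⟨z, hz⟩ i ⊔ gB ⟨z, hz⟩ i else z)) := he
    rw [if_neg (by omega), if_neg (by omega),
      dif_pos (⟨hz, hzl⟩ : z ∈ At ρ u v ∧ ¬ z ≤ ℓ)] at he'
    have hxA : x ∈ At ρ u ℓ := ⟨hx.1, hxl, hx.2.2⟩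
    obtain ⟨d, _, h3, _⟩ := hag x hxA
    have d' := dB ⟨z, hz, hzl⟩
    have e1 := h.mp2 hQl hr (d.ha1 i) (d.ha2 i) (d.hg1 i) (d.hg2 i)
    have e2 := h.mp2 hQl hr (d'.ha1 i) (d'.ha2 i) (d'.hg1 i) (d'.hg2 i)
    have e3 := h.mp3 hQl hr (d.ha1 i) (d.ha2 i) (d.hg1 i) (d.hg2 i)
    have e4 := h.mp3 hQl hr (d'.ha1 i) (d'.ha2 i) (d'.hg1 i) (d'.hg2 i)
    rw [he', e2] at e1
    rw [he', e4] at e3
    -- it suffices to see that `X z = x`
    have hfin : X ⟨z, hz, hzl⟩ = x → False := by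
      intro hX
      obtain ⟨f1, f2⟩ := h3 _ hX
      exact hdis ⟨z, hz, hzl⟩ i hi (by omega) (by rw [← f1]; exact e1.symm)
        (by rw [← f2]; exact e3.symm)
    rcases labA x hxA i (by omega) with h1 | ⟨h1, z', hz', h2⟩
    · rcases lB ⟨z, hz, hzl⟩ i (by omega) with h1' | ⟨h1', h2'⟩
      · rw [h1, h1'] at e1
        exact hfin e1
      · rw [h1, h1'] at e1
        exact absurd e1.symm (hne _ hxA)
    · rcases lB ⟨z, hz, hzl⟩ i (by omega) with h1' | ⟨h1', h2'⟩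
      · rw [h1, h1'] at e1
        exact absurd e1 (hne _ (hX1 _))
      · rw [h2, h2'] at e3
        have h3 := hH2 _ _ e3
        have h4 : (⟨z, hz, hzl⟩ : I) = z' := Subtype.ext (congrArg (fun q : At ρ u Q => (q : L)) h3)
        exact hfin (by rw [h4]; exact hz')

end Pool.Agent.H23.Geo
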