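import Pool.Agent.H23.Geo5
import Pool.Agent.H23.Geo6

set_option autoImplicit false

namespace Pool.Agent.H23.Geo

open Cardinal

theorem Rk.main {L : Type} [Lattice L] {ρ : L → ℕ} (h : Rk L ρ) (n : ℕ) :
    ∀ u v : L, u ≤ v → ρ v = ρ u + n → (At ρ u v).Infinite → Sys ρ u v := by
  induction n using Nat.strong_induction_on with
  | _ n ih =>
  intro u v huv hv hinf
  have hn : n = 0 ∨ n = 1 ∨ n = 2 ∨ 3 ≤ n := by omega
  rcases hn with hn | hn | hn | hn
  · exfalso
    apply hinf
    refine (Set.finite_empty).subset ?_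
    rintro x ⟨_, h2, h3⟩
    have := h.le h2
    omega
  · exfalso
    apply hinf
    refine (Set.finite_singleton v).subset ?_
    rintro x ⟨_, h2, h3⟩
    exact h.eq h2 (by omega)
  · refine ⟨fun x _ => x, ?_, ?_⟩
    · intro x hx
      refine ⟨rfl, ?_, ?_⟩
      · intro i hi
        have : i = 0 := by omega
        subst this
        exact ⟨hx.2.2, hx.2.1⟩
      · intro i hi; omega
    · intro x _ x' _ i _ he; exact he
  · have hyr : ∀ y ∈ At ρ u v, ρ v = ρ y + (n - 1) := fun y hy => by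
      have := hy.2.2
      omega
    by_cases hex : ∃ x0 ∈ At ρ u v, ∀ y ∈ At ρ u v, y ≠ x0 → #(At ρ u v) ≤ #(At ρ y v)
    · obtain ⟨x0, hx0, hbig⟩ := hex
      exact h.caseA hv hn hinf (fun y hy hyi => ih (n - 1) (by omega) y v hy.2.1 (hyr y hy) hyi)
        x0 hx0 hbig
    · push Not at hex
      obtain ⟨x0, hx0⟩ := hinf.nonempty
      obtain ⟨x1, hx1, hne1, hs1⟩ := hex x0 hx0
      obtain ⟨x2, hx2, hne2, hs2⟩ := hex x1 hx1
      obtain ⟨ℓ, hul, hlv, hl, hbig⟩ := h.setupB hinf hx1 hx2 hne2.symm hs1 hs2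
      by_cases hQ : ∀ F, u ≤ F → F ≤ v → F ⊔ ℓ = v → ρ F + ρ ℓ = ρ v + ρ u →
        ∃ w ∈ At ρ u v, ¬ w ≤ ℓ ∧ ¬ w ≤ F
      · exact h.caseB2 hv hn hinf hul hlv hl hbig hQ
      · push Not at hQ
        obtain ⟨Q, huQ, hQv, hQl, hr, HQ⟩ := hQ
        exact h.caseB1 hv hn hinf hul hlv hl hbig huQ hQv hQl hr HQ
          (fun hi => ih (n - 2) (by omega) u Q huQ (by omega) hi)

/-! the rank function -/

section rank

variable {L : Type} [CompleteLattice L] [IsAtomistic L] [IsUpperModularLattice L]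

/-- saturated chains of given length -/
def Sat : ℕ → L → L → Prop
  | 0, a, b => a = b
  | (n + 1), a, b => ∃ c, a ⋖ c ∧ Sat n c b

omit [IsAtomistic L] [IsUpperModularLattice L] in
lemma Sat.le {n : ℕ} : ∀ {a b : L}, Sat n a b → a ≤ b := by
  induction n with
  | zero => intro a b h; exact le_of_eq h
  | succ n ih => rintro a b ⟨c, h1, h2⟩; exact h1.le.trans (ih h2)

omit [IsAtomistic L] [IsUpperModularLattice L] in
lemma Sat.trans {n : ℕ} : ∀ {a b c : L} {m : ℕ}, Sat n a b → Sat m b c → Sat (n + m) a c := by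
  induction n with
  | zero => intro a b c m h h'; rw [show a = b from h, Nat.zero_add]; exact h'
  | succ n ih =>
    rintro a b c m ⟨d, h1, h2⟩ h'
    rw [Nat.succ_add]
    exact ⟨d, h1, ih h2 h'⟩

omit [IsAtomistic L] [IsUpperModularLattice L] in
lemma exists_sat [WellFoundedLT L] [WellFoundedGT L] (a : L) : ∀ b : L, a ≤ b → ∃ n, Sat n a b := by
  induction a using WellFoundedGT.induction with
  | _ a ih =>
  intro b hab
  rcases hab.eq_or_lt with h | h
  · exact ⟨0, h⟩
  · obtain ⟨c, hc1, hc2⟩ := exists_covBy_le_of_lt h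
    obtain ⟨n, hn⟩ := ih c hc1.lt b hc2
    exact ⟨n + 1, c, hc1, hn⟩

omit [IsAtomistic L] in
lemma jd [WellFoundedLT L] [WellFoundedGT L] (n : ℕ) : ∀ (a b : L) (m : ℕ), Sat n a b →
    Sat m a b → n = m := by
  induction n with
  | zero =>
    intro a b m h h'
    cases m with
    | zero => rfl
    | succ m =>
      obtain ⟨c, h1, h2⟩ := h'
      have h3 : a = b := h
      have h4 := h2.le
      exact absurd (h1.lt.trans_le h4) (by rw [h3]; exact lt_irrefl _)
  | succ n ih =>
    intro a b m h h'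
    obtain ⟨x, hx1, hx2⟩ := h
    cases m with
    | zero =>
      have h3 : a = b := h'
      have h4 := hx2.le
      exact absurd (hx1.lt.trans_le h4) (by rw [h3]; exact lt_irrefl _)
    | succ m =>
      obtain ⟨y, hy1, hy2⟩ := h'
      by_cases hxy : x = y
      · subst hxy
        rw [ih x b m hx2 hy2]
      · have hinf : x ⊓ y = a := by
          refine le_antisymm ?_ (le_inf hx1.le hy1.le)
          have h1 : a ≤ x ⊓ y := le_inf hx1.le hy1.le
          rcases h1.eq_or_lt with h2 | h2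
          · exact h2.ge
          · have h3 : x ⊓ y = x := by
              by_contra hne
              exact hx1.2 h2 (lt_of_le_of_ne inf_le_left hne)
            have h4 : x ≤ y := inf_eq_left.mp h3
            exact absurd (lt_of_le_of_ne h4 hxy) (fun e => hy1.2 hx1.lt e)
        have c1 : y ⋖ x ⊔ y := by
          apply IsUpperModularLattice.covBy_sup_of_inf_covBy
          rw [hinf]; exact hx1
        have c2 : x ⋖ y ⊔ x := by
          apply IsUpperModularLattice.covBy_sup_of_inf_covBy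
          rw [inf_comm, hinf]; exact hy1
        rw [sup_comm] at c2
        obtain ⟨k, hk⟩ := exists_sat (x ⊔ y) b (sup_le hx2.le hy2.le)
        have e1 := ih x b (k + 1) hx2 ⟨_, c2, hk⟩
        have e2 := ih y b m (by rw [e1]; exact ⟨_, c1, hk⟩) hy2
        rw [e2]

theorem exists_rk [WellFoundedLT L] [WellFoundedGT L] : ∃ ρ : L → ℕ, Rk L ρ ∧ ρ ⊥ = 0 := by
  choose ρ hρ using fun x : L => exists_sat (⊥ : L) x bot_le
  have hsat : ∀ n (a b : L), Sat n a b → ρ b = ρ a + n := fun n a b hn =>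
    jd _ _ _ _ (hρ b) ((hρ a).trans hn)
  have hcov : ∀ a b : L, a ⋖ b → ρ b = ρ a + 1 := fun a b hab => hsat 1 a b ⟨b, hab, rfl⟩
  have hbot : ρ ⊥ = 0 := by
    have := hsat 0 (⊥ : L) ⊥ rfl
    exact jd _ _ _ _ (hρ ⊥) (rfl : Sat 0 (⊥ : L) ⊥)
  refine ⟨ρ, ⟨?_, ?_, ?_⟩, hbot⟩
  · intro a b hab
    obtain ⟨n, hn⟩ := exists_sat a b hab.le
    have h1 := hsat n a b hn
    have h2 : n ≠ 0 := by
      rintro rfl
      exact hab.ne hn
    omega
  · have key : ∀ n (x y b : L), Sat n x y → ρ (y ⊔ b) ≤ ρ (x ⊔ b) + n := by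
      intro n
      induction n with
      | zero => intro x y b h; rw [show x = y from h]; exact le_rfl
      | succ n ih =>
        rintro x y b ⟨c, hc1, hc2⟩
        have h1 := ih c y b hc2
        have h2 : ρ (c ⊔ b) ≤ ρ (x ⊔ b) + 1 := by
          by_cases hcb : c ≤ x ⊔ b
          · have : c ⊔ b = x ⊔ b := le_antisymm (sup_le hcb le_sup_right)
              (sup_le_sup hc1.le le_rfl)
            rw [this]; omega
          · have h3 : c ⊓ (x ⊔ b) = x := by
              have h4 : x ≤ c ⊓ (x ⊔ b) := le_inf hc1.le le_sup_left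
              rcases h4.eq_or_lt with h5 | h5
              · exact h5.symm
              · exact absurd (lt_of_le_of_ne (inf_le_left : c ⊓ (x ⊔ b) ≤ c)
                  (fun e => hcb (inf_eq_left.mp e))) (hc1.2 h5)
            have h4 : x ⊔ b ⋖ c ⊔ (x ⊔ b) := by
              apply IsUpperModularLattice.covBy_sup_of_inf_covBy
              rw [h3]; exact hc1
            have h5 : c ⊔ (x ⊔ b) = c ⊔ b := by
              rw [← sup_assoc, sup_eq_left.mpr hc1.le]
            rw [h5] at h4
            exact (hcov _ _ h4).le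
        omega
    intro a b
    obtain ⟨n, hn⟩ := exists_sat (a ⊓ b) a inf_le_left
    have h1 := key n (a ⊓ b) a b hn
    have h2 := hsat n _ _ hn
    rw [sup_eq_right.mpr (inf_le_right : a ⊓ b ≤ b)] at h1
    omega
  · intro u a b hua hab
    have h1 : ¬ ∀ c : L, IsAtom c → c ≤ b → c ≤ a := by
      rw [← le_iff_atom_le_imp]
      exact not_le_of_gt hab
    push Not at h1
    obtain ⟨q, hq, hqb, hqa⟩ := h1
    refine ⟨q ⊔ u, le_sup_right, sup_le hqb (hua.trans hab.le), fun e => hqa (le_sup_left.trans e),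
      ?_⟩
    have h2 : q ⊓ u = ⊥ := by
      rcases hq.le_iff.mp (inf_le_left : q ⊓ u ≤ q) with h3 | h3
      · exact h3
      · exact absurd ((inf_eq_left.mp h3).trans hua) hqa
    apply hcov
    apply IsUpperModularLattice.covBy_sup_of_inf_covBy
    rw [h2]; exact bot_covBy_iff.mpr hq

end rank

end Pool.Agent.H23.Geo
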