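import Pool.Agent.H23.HjelmslevDefs

set_option autoImplicit false

namespace Pool.Agent.H23.Hjelmslev

section
variable {K : Type} [Field K] (ξ : K → K → K)

abbrev Pt (K : Type) := K × K × K × K
abbrev Bl (K : Type) := (K × K × K × K) ⊕ (K × K × K)

def Inc : Pt K → Bl K → Prop
  | (x, y, u, v), Sum.inl (m, k, a, b) => y = m * x + k ∧ v = m * u + a + (b + ξ m k) * x
  | (x, y, u, _), Sum.inr (k, a, b) => x = k ∧ u = a + b * y

def Inc' : K × K → (K × K) ⊕ K → Prop
  | (x, y), Sum.inl (m, k) => y = m * x + k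
  | (x, _), Sum.inr k => x = k

def par : Bl K → Bl K → Prop
  | Sum.inl (m, _, _, b), Sum.inl (m', _, _, b') => m = m' ∧ b = b'
  | Sum.inr (_, _, b), Sum.inr (_, _, b') => b = b'
  | _, _ => False

def fP : Pt K → K × K := fun p => (p.1, p.2.1)
def gB : Bl K → (K × K) ⊕ K
  | Sum.inl (m, k, _, _) => Sum.inl (m, k)
  | Sum.inr (k, _, _) => Sum.inr k

lemma mk_eq {m k m' k' x y x' y' : K} (hx : x ≠ x') (h1 : y = m * x + k) (h2 : y' = m * x' + k)
    (h3 : y = m' * x + k') (h4 : y' = m' * x' + k') : m = m' ∧ k = k' := by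
  have h5 : (m - m') * (x - x') = 0 := by linear_combination h3 - h1 - h4 + h2
  have h6 : m = m' := by
    rcases mul_eq_zero.1 h5 with h | h
    · exact sub_eq_zero.1 h
    · exact absurd (sub_eq_zero.1 h) hx
  subst h6
  exact ⟨rfl, by linear_combination h3 - h1⟩

lemma affine : IsAffinePlane (Inc' (K := K)) where
  join := by
    rintro ⟨x, y⟩ ⟨x', y'⟩ hne
    by_cases hx : x = x'
    · subst hx
      refine ⟨Sum.inr x, ⟨rfl, rfl⟩, ?_⟩
      rintro (⟨m, k⟩ | k) ⟨h1, h2⟩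
      · exfalso
        apply hne
        have h1' : y = m * x + k := h1
        have h2' : y' = m * x + k := h2
        rw [h1', h2']
      · have h1' : x = k := h1
        rw [h1']
    · have hx' : x - x' ≠ 0 := sub_ne_zero.2 hx
      have e1 : y = (y - y') / (x - x') * x + (y - (y - y') / (x - x') * x) := by ring
      have e2 : y' = (y - y') / (x - x') * x' + (y - (y - y') / (x - x') * x) := by
        field_simp; ring
      refine ⟨Sum.inl ((y - y') / (x - x'), y - (y - y') / (x - x') * x), ⟨e1, e2⟩, ?_⟩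
      rintro (⟨m, k⟩ | k) ⟨h1, h2⟩
      · obtain ⟨h3, h4⟩ := mk_eq hx h1 h2 e1 e2
        rw [h3, h4]
      · exfalso
        have h1' : x = k := h1
        have h2' : x' = k := h2
        exact hx (h1'.trans h2'.symm)
  playfair := by
    rintro ⟨x, y⟩ (⟨m, k⟩ | k) hB
    · have hB' : y ≠ m * x + k := hB
      refine ⟨Sum.inl (m, y - m * x), ⟨?_, ?_⟩, ?_⟩
      · show y = m * x + (y - m * x)
        ring
      · rintro ⟨x1, y1⟩ ⟨h1, h2⟩
        have h1' : y1 = m * x1 + k := h1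
        have h2' : y1 = m * x1 + (y - m * x) := h2
        exact hB' (by linear_combination h1' - h2')
      · rintro (⟨m', k'⟩ | k') ⟨h1, h2⟩
        · have h1' : y = m' * x + k' := h1
          by_cases hm : m' = m
          · subst hm
            have : k' = y - m' * x := by linear_combination -h1'
            rw [this]
          · exfalso
            have hm' : m - m' ≠ 0 := sub_ne_zero.2 (Ne.symm hm)
            apply h2 ((k' - k) / (m - m'), m * ((k' - k) / (m - m')) + k)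
            refine ⟨rfl, ?_⟩
            show m * ((k' - k) / (m - m')) + k = m' * ((k' - k) / (m - m')) + k'
            field_simp
            ring
        · exfalso
          exact h2 (k', m * k' + k) ⟨rfl, rfl⟩
    · have hB' : x ≠ k := hB
      refine ⟨Sum.inr x, ⟨rfl, ?_⟩, ?_⟩
      · rintro ⟨x1, y1⟩ ⟨h1, h2⟩
        have h1' : x1 = k := h1
        have h2' : x1 = x := h2
        exact hB' (h2'.symm.trans h1')
      · rintro (⟨m', k'⟩ | k') ⟨h1, h2⟩
        · exfalso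
          exact h2 (k, m' * k + k') ⟨rfl, rfl⟩
        · have h1' : x = k' := h1
          rw [h1']
  triangle := by
    refine ⟨(0, 0), (1, 0), (0, 1), ?_⟩
    rintro ⟨⟨m, k⟩ | k, h1, h2, h3⟩
    · have h1' : (0 : K) = m * 0 + k := h1
      have h3' : (1 : K) = m * 0 + k := h3
      rw [← h1'] at h3'
      exact one_ne_zero h3'
    · have h1' : (0 : K) = k := h1
      have h2' : (1 : K) = k := h2
      rw [← h1'] at h2'
      exact one_ne_zero h2'

/-- blocks through neighbouring points -/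
lemma two_blocks (x y u v u' v' : K) :
    ∃ B C : Bl K, B ≠ C ∧ (Inc ξ (x, y, u, v) B ∧ Inc ξ (x, y, u', v') B) ∧
      (Inc ξ (x, y, u, v) C ∧ Inc ξ (x, y, u', v') C) := by
  by_cases hu : u = u'
  · subst hu
    refine ⟨Sum.inr (x, u - 0 * y, 0), Sum.inr (x, u - 1 * y, 1), ?_, ⟨?_, ?_⟩, ?_, ?_⟩
    · simp
    all_goals exact ⟨rfl, by ring⟩
  · have hu' : u - u' ≠ 0 := sub_ne_zero.2 hu
    set m := (v - v') / (u - u') with hm
    have hv : v - v' = m * (u - u') := by rw [hm]; field_simp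
    refine ⟨Sum.inl (m, y - m * x, v - m * u - (0 + ξ m (y - m * x)) * x, 0),
      Sum.inl (m, y - m * x, v - m * u - (1 + ξ m (y - m * x)) * x, 1), ?_, ⟨?_, ?_⟩, ?_, ?_⟩
    · intro h
      simp only [Sum.inl.injEq, Prod.mk.injEq] at h
      exact zero_ne_one h.2.2.2
    · exact ⟨by ring, by ring⟩
    · exact ⟨by ring, by linear_combination -hv⟩
    · exact ⟨by ring, by ring⟩
    · exact ⟨by ring, by linear_combination -hv⟩

/-- uniqueness for non-neighbouring points -/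
lemma uniq {p q : Pt K} (h : fP p ≠ fP q) {B C : Bl K} (h1 : Inc ξ p B) (h2 : Inc ξ q B)
    (h3 : Inc ξ p C) (h4 : Inc ξ q C) : B = C := by
  obtain ⟨x, y, u, v⟩ := p
  obtain ⟨x', y', u', v'⟩ := q
  by_cases hx : x = x'
  · subst hx
    have hy : y ≠ y' := by
      rintro rfl
      exact h rfl
    rcases B with ⟨m, k, a, b⟩ | ⟨k, a, b⟩
    · obtain ⟨h1, -⟩ := h1
      obtain ⟨h2, -⟩ := h2
      exact absurd (h1.trans h2.symm) hy
    rcases C with ⟨m, k', a', b'⟩ | ⟨k', a', b'⟩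
    · obtain ⟨h3, -⟩ := h3
      obtain ⟨h4, -⟩ := h4
      exact absurd (h3.trans h4.symm) hy
    obtain ⟨h1, h1'⟩ := h1
    obtain ⟨h2, h2'⟩ := h2
    obtain ⟨h3, h3'⟩ := h3
    obtain ⟨h4, h4'⟩ := h4
    have h5 : b = b' ∧ a = a' := by
      refine mk_eq hy (y := u) (y' := u') ?_ ?_ ?_ ?_
      · rw [h1']; ring
      · rw [h2']; ring
      · rw [h3']; ring
      · rw [h4']; ring
    rw [← h1, ← h3, h5.1, h5.2]
  · rcases B with ⟨m, k, a, b⟩ | ⟨k, a, b⟩
    swap
    · obtain ⟨h1, -⟩ := h1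
      obtain ⟨h2, -⟩ := h2
      exact absurd (h1.trans h2.symm) hx
    rcases C with ⟨m', k', a', b'⟩ | ⟨k', a', b'⟩
    swap
    · obtain ⟨h3, -⟩ := h3
      obtain ⟨h4, -⟩ := h4
      exact absurd (h3.trans h4.symm) hx
    obtain ⟨h1, h1'⟩ := h1
    obtain ⟨h2, h2'⟩ := h2
    obtain ⟨h3, h3'⟩ := h3
    obtain ⟨h4, h4'⟩ := h4
    obtain ⟨rfl, rfl⟩ := mk_eq hx h1 h2 h3 h4
    have h5 : b + ξ m k = b' + ξ m k ∧ a = a' := by
      refine mk_eq hx (y := v - m * u) (y' := v' - m * u') ?_ ?_ ?_ ?_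
      · rw [h1']; ring
      · rw [h2']; ring
      · rw [h3']; ring
      · rw [h4']; ring
    rw [add_right_cancel h5.1, h5.2]

lemma one_lt (p q : Pt K) : 1 < joinNumber (Inc ξ) p q ↔ fP p = fP q := by
  rw [joinNumber, Set.one_lt_encard_iff]
  constructor
  · rintro ⟨B, C, ⟨h1, h2⟩, ⟨h3, h4⟩, hne⟩
    by_contra h
    exact hne (uniq ξ h h1 h2 h3 h4)
  · intro h
    obtain ⟨x, y, u, v⟩ := p
    obtain ⟨x', y', u', v'⟩ := q
    simp only [fP, Prod.mk.injEq] at h
    obtain ⟨rfl, rfl⟩ := h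
    obtain ⟨B, C, hne, hB, hC⟩ := two_blocks ξ x y u v u' v'
    exact ⟨B, C, hB, hC, hne⟩

lemma one_le (p q : Pt K) : 1 ≤ joinNumber (Inc ξ) p q := by
  rw [joinNumber, Set.one_le_encard_iff_nonempty]
  obtain ⟨x, y, u, v⟩ := p
  obtain ⟨x', y', u', v'⟩ := q
  by_cases hx : x = x'
  · subst hx
    by_cases hy : y = y'
    · subst hy
      obtain ⟨B, C, hne, hB, hC⟩ := two_blocks ξ x y u v u' v'
      exact ⟨B, hB⟩
    · have hy' : y - y' ≠ 0 := sub_ne_zero.2 hy
      refine ⟨Sum.inr (x, u - (u - u') / (y - y') * y, (u - u') / (y - y')), ⟨rfl, ?_⟩, rfl, ?_⟩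
      · ring
      · field_simp
        ring
  · have hx' : x - x' ≠ 0 := sub_ne_zero.2 hx
    set m := (y - y') / (x - x') with hm
    have h1 : m * (x - x') = y - y' := by rw [hm]; field_simp
    set c := ((v - m * u) - (v' - m * u')) / (x - x') with hc
    have h2 : c * (x - x') = (v - m * u) - (v' - m * u') := by rw [hc]; field_simp
    refine ⟨Sum.inl (m, y - m * x, v - m * u - c * x, c - ξ m (y - m * x)), ⟨?_, ?_⟩, ?_, ?_⟩
    · ring
    · ring
    · linear_combination h1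
    · linear_combination h2

lemma par_eqv : Equivalence (par (K := K)) where
  refl := by
    rintro (⟨m, k, a, b⟩ | ⟨k, a, b⟩)
    · exact ⟨rfl, rfl⟩
    · exact rfl
  symm := by
    rintro (⟨m, k, a, b⟩ | ⟨k, a, b⟩) (⟨m', k', a', b'⟩ | ⟨k', a', b'⟩) h
    · exact ⟨h.1.symm, h.2.symm⟩
    · exact h
    · exact h
    · exact Eq.symm h
  trans := by
    rintro (⟨m, k, a, b⟩ | ⟨k, a, b⟩) (⟨m', k', a', b'⟩ | ⟨k', a', b'⟩)
      (⟨m'', k'', a'', b''⟩ | ⟨k'', a'', b''⟩) h h'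
    · exact ⟨h.1.trans h'.1, h.2.trans h'.2⟩
    · exact h'
    · exact h.elim
    · exact h.elim
    · exact h.elim
    · exact h.elim
    · exact h'
    · exact Eq.trans h h'

lemma parallel (p : Pt K) (B : Bl K) : ∃! C : Bl K, Inc ξ p C ∧ par B C := by
  obtain ⟨x, y, u, v⟩ := p
  rcases B with ⟨m, k, a, b⟩ | ⟨k, a, b⟩
  · refine ⟨Sum.inl (m, y - m * x, v - m * u - (b + ξ m (y - m * x)) * x, b),
      ⟨⟨by ring, by ring⟩, rfl, rfl⟩, ?_⟩
    rintro (⟨m', k', a', b'⟩ | ⟨k', a', b'⟩) ⟨h1, h2⟩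
    · obtain ⟨rfl, rfl⟩ := h2
      obtain ⟨h1, h3⟩ := h1
      have h4 : k' = y - m * x := by linear_combination -h1
      subst h4
      have h5 : a' = v - m * u - (b + ξ m (y - m * x)) * x := by linear_combination -h3
      rw [h5]
    · exact h2.elim
  · refine ⟨Sum.inr (x, u - b * y, b), ⟨⟨rfl, by ring⟩, rfl⟩, ?_⟩
    rintro (⟨m', k', a', b'⟩ | ⟨k', a', b'⟩) ⟨h1, h2⟩
    · exact h2.elim
    · have h2' : b = b' := h2
      subst h2'
      obtain ⟨h1, h3⟩ := h1
      have h5 : a' = u - b * y := by linear_combination -h3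
      rw [h5, h1]

/-- a point on a given block over a given point of the image line -/
lemma lift_pt (B : Bl K) (x y : K) (h : Inc' (x, y) (gB B)) :
    ∃ p : Pt K, fP p = (x, y) ∧ Inc ξ p B := by
  rcases B with ⟨m, k, a, b⟩ | ⟨k, a, b⟩
  · exact ⟨(x, y, 0, m * 0 + a + (b + ξ m k) * x), rfl, h, rfl⟩
  · exact ⟨(x, y, a + b * y, 0), rfl, h, rfl⟩

lemma inc_image {p : Pt K} {B : Bl K} (h : Inc ξ p B) : Inc' (fP p) (gB B) := by
  obtain ⟨x, y, u, v⟩ := p
  rcases B with ⟨m, k, a, b⟩ | ⟨k, a, b⟩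
  · exact h.1
  · exact h.1

/-- distinct lines of the affine plane: the first has a point not on the second -/
lemma exists_pt {l l' : (K × K) ⊕ K} (h : l ≠ l') : ∃ x y : K, Inc' (x, y) l ∧ ¬ Inc' (x, y) l' := by
  rcases l with ⟨m, k⟩ | k <;> rcases l' with ⟨m', k'⟩ | k'
  · by_cases hk : k = k'
    · subst hk
      have hm : m ≠ m' := by rintro rfl; exact h rfl
      refine ⟨1, m * 1 + k, rfl, fun h' => hm ?_⟩
      have h'' : m * 1 + k = m' * 1 + k := h'
      linear_combination h''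
    · refine ⟨0, m * 0 + k, rfl, fun h' => hk ?_⟩
      have h'' : m * 0 + k = m' * 0 + k' := h'
      linear_combination h''
  · refine ⟨k' + 1, m * (k' + 1) + k, rfl, fun h' => ?_⟩
    have h'' : k' + 1 = k' := h'
    exact one_ne_zero (by linear_combination h'' : (1 : K) = 0)
  · refine ⟨k, m' * k + k' + 1, rfl, fun h' => ?_⟩
    have h'' : m' * k + k' + 1 = m' * k + k' := h'
    exact one_ne_zero (by linear_combination h'' : (1 : K) = 0)
  · refine ⟨k, 0, rfl, fun h' => h ?_⟩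
    have h'' : k = k' := h'
    rw [h'']

lemma nbr (B C : Bl K) : gB B = gB C ↔ BlockNeighbour (Inc ξ) B C := by
  constructor
  · intro h
    refine ⟨fun p hp => ?_, fun p hp => ?_⟩
    · have h1 := inc_image ξ hp
      rw [h] at h1
      obtain ⟨q, hq1, hq2⟩ := lift_pt ξ C p.1 p.2.1 h1
      exact ⟨q, hq2, (one_lt ξ p q).2 hq1.symm⟩
    · have h1 := inc_image ξ hp
      rw [← h] at h1
      obtain ⟨q, hq1, hq2⟩ := lift_pt ξ B p.1 p.2.1 h1
      exact ⟨q, hq2, (one_lt ξ p q).2 hq1.symm⟩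
  · rintro ⟨h1, -⟩
    by_contra hne
    obtain ⟨x, y, h2, h3⟩ := exists_pt hne
    obtain ⟨p, hp1, hp2⟩ := lift_pt ξ B x y h2
    obtain ⟨q, hq1, hq2⟩ := h1 p hp2
    rw [one_lt] at hq2
    apply h3
    rw [← hp1, hq2]
    exact inc_image ξ hq1

lemma meet (B C : Bl K) (h : gB B = gB C) : meetNumber (Inc ξ) B C ≠ 1 := by
  intro h1
  rw [meetNumber, Set.encard_eq_one] at h1
  obtain ⟨⟨x, y, u, v⟩, hp⟩ := h1
  have hmem : (x, y, u, v) ∈ {p : Pt K | Inc ξ p B ∧ Inc ξ p C} := by rw [hp]; rfl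
  rcases B with ⟨m, k, a, b⟩ | ⟨k, a, b⟩ <;> rcases C with ⟨m', k', a', b'⟩ | ⟨k', a', b'⟩
  · simp only [gB, Sum.inl.injEq, Prod.mk.injEq] at h
    obtain ⟨rfl, rfl⟩ := h
    obtain ⟨⟨h1, h2⟩, h3, h4⟩ := hmem
    have : (x, y, u + 1, v + m) ∈ {p : Pt K | Inc ξ p (Sum.inl (m, k, a, b)) ∧
        Inc ξ p (Sum.inl (m, k, a', b'))} :=
      ⟨⟨h1, by linear_combination h2⟩, h3, by linear_combination h4⟩
    rw [hp, Set.mem_singleton_iff] at this
    simp only [Prod.mk.injEq] at this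
    exact one_ne_zero (by linear_combination this.2.2.1 : (1 : K) = 0)
  · simp [gB] at h
  · simp [gB] at h
  · obtain ⟨⟨h1, h2⟩, h3, h4⟩ := hmem
    have : (x, y, u, v + 1) ∈ {p : Pt K | Inc ξ p (Sum.inr (k, a, b)) ∧
        Inc ξ p (Sum.inr (k', a', b'))} := ⟨⟨h1, h2⟩, h3, h4⟩
    rw [hp, Set.mem_singleton_iff] at this
    simp only [Prod.mk.injEq] at this
    exact one_ne_zero (by linear_combination this.2.2.2 : (1 : K) = 0)

theorem isPlane : IsAffineHjelmslevPlane (Inc ξ) par where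
  join := one_le ξ
  par_equiv := par_eqv
  parallel := parallel ξ
  meet := fun B C _ h => meet ξ B C ((nbr ξ B C).2 h)
  epi := by
    refine ⟨K × K, (K × K) ⊕ K, Inc', fP, gB, affine, ?_, ?_, fun x B h => inc_image ξ h, ?_,
      fun x y => (one_lt ξ x y).symm, nbr ξ⟩
    · rintro ⟨x, y⟩
      exact ⟨(x, y, 0, 0), rfl⟩
    · rintro (⟨m, k⟩ | k)
      · exact ⟨Sum.inl (m, k, 0, 0), rfl⟩
      · exact ⟨Sum.inr (k, 0, 0), rfl⟩
    · rintro ⟨x, y⟩ (⟨m, k⟩ | k) h
      · obtain ⟨p, hp1, hp2⟩ := lift_pt ξ (Sum.inl (m, k, 0, 0)) x y h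
        exact ⟨p, _, hp1, rfl, hp2⟩
      · obtain ⟨p, hp1, hp2⟩ := lift_pt ξ (Sum.inr (k, 0, 0)) x y h
        exact ⟨p, _, hp1, rfl, hp2⟩

/-! ### the two translations -/

def sP : Equiv.Perm (Pt K) where
  toFun p := (p.1 + 1, p.2)
  invFun p := (p.1 - 1, p.2)
  left_inv p := by simp
  right_inv p := by simp

def tP : Equiv.Perm (Pt K) where
  toFun p := (p.1, p.2.1 + 1, p.2.2)
  invFun p := (p.1, p.2.1 - 1, p.2.2)
  left_inv p := by simp
  right_inv p := by simp

def sB (h : ∀ m k, ξ m (k - m) = ξ m k) : Equiv.Perm (Bl K) where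
  toFun
    | Sum.inl (m, k, a, b) => Sum.inl (m, k - m, a - b - ξ m k, b)
    | Sum.inr (k, a, b) => Sum.inr (k + 1, a, b)
  invFun
    | Sum.inl (m, k, a, b) => Sum.inl (m, k + m, a + b + ξ m k, b)
    | Sum.inr (k, a, b) => Sum.inr (k - 1, a, b)
  left_inv := by
    rintro (⟨m, k, a, b⟩ | ⟨k, a, b⟩)
    · simp [h]
      ring
    · simp
  right_inv := by
    rintro (⟨m, k, a, b⟩ | ⟨k, a, b⟩)
    · have := h m (k + m)
      rw [add_sub_cancel_right] at this
      simp [this]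
      ring
    · simp

def tB : Equiv.Perm (Bl K) where
  toFun
    | Sum.inl (m, k, a, b) => Sum.inl (m, k + 1, a, b)
    | Sum.inr (k, a, b) => Sum.inr (k, a - b, b)
  invFun
    | Sum.inl (m, k, a, b) => Sum.inl (m, k - 1, a, b)
    | Sum.inr (k, a, b) => Sum.inr (k, a + b, b)
  left_inv := by
    rintro (⟨m, k, a, b⟩ | ⟨k, a, b⟩) <;> simp
  right_inv := by
    rintro (⟨m, k, a, b⟩ | ⟨k, a, b⟩) <;> simp

def sig (h : ∀ m k, ξ m (k - m) = ξ m k) : Aut (Inc ξ) := ⟨(sP, sB ξ h), by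
  rintro ⟨x, y, u, v⟩ (⟨m, k, a, b⟩ | ⟨k, a, b⟩)
  · show (y = m * (x + 1) + (k - m) ∧
      v = m * u + (a - b - ξ m k) + (b + ξ m (k - m)) * (x + 1)) ↔
      (y = m * x + k ∧ v = m * u + a + (b + ξ m k) * x)
    rw [h]
    constructor
    · rintro ⟨h1, h2⟩
      exact ⟨by linear_combination h1, by linear_combination h2⟩
    · rintro ⟨h1, h2⟩
      exact ⟨by linear_combination h1, by linear_combination h2⟩
  · show (x + 1 = k + 1 ∧ u = a + b * y) ↔ (x = k ∧ u = a + b * y)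
    rw [add_left_inj]⟩

def ta (h : ∀ m k, ξ m (k + 1) = ξ m k) : Aut (Inc ξ) := ⟨(tP, tB), by
  rintro ⟨x, y, u, v⟩ (⟨m, k, a, b⟩ | ⟨k, a, b⟩)
  · show (y + 1 = m * x + (k + 1) ∧ v = m * u + a + (b + ξ m (k + 1)) * x) ↔
      (y = m * x + k ∧ v = m * u + a + (b + ξ m k) * x)
    rw [h]
    constructor
    · rintro ⟨h1, h2⟩
      exact ⟨by linear_combination h1, h2⟩
    · rintro ⟨h1, h2⟩
      exact ⟨by linear_combination h1, h2⟩
  · show (x = k ∧ u = a - b + b * (y + 1)) ↔ (x = k ∧ u = a + b * y)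
    constructor
    · rintro ⟨h1, h2⟩
      exact ⟨h1, by linear_combination h2⟩
    · rintro ⟨h1, h2⟩
      exact ⟨h1, by linear_combination h2⟩⟩

variable (h : ∀ m k, ξ m (k - m) = ξ m k) (h' : ∀ m k, ξ m (k + 1) = ξ m k)

lemma sig_trans (h0 : ∀ k, ξ 0 k = 0) : IsTranslation par (sig ξ h) := by
  refine ⟨⟨Sum.inl (0, 0, 0, 0), ?_⟩, Or.inr ?_⟩
  · rintro (⟨m, k, a, b⟩ | ⟨k, a, b⟩) hB
    · obtain ⟨h1, h2⟩ : (0 : K) = m ∧ (0 : K) = b := hB
      subst h1 h2
      show (Sum.inl ((0 : K), k - 0, a - 0 - ξ 0 k, (0 : K)) : Bl K) = _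
      rw [h0, sub_zero, sub_zero, sub_zero]
    · exact hB.elim
  · rintro ⟨x, y, u, v⟩ hx
    have h1 : x + 1 = x := congrArg Prod.fst hx
    exact one_ne_zero (by linear_combination h1 : (1 : K) = 0)

lemma ta_trans : IsTranslation par (ta ξ h') := by
  refine ⟨⟨Sum.inr (0, 0, 0), ?_⟩, Or.inr ?_⟩
  · rintro (⟨m, k, a, b⟩ | ⟨k, a, b⟩) hB
    · exact hB.elim
    · have h1 : (0 : K) = b := hB
      subst h1
      show (Sum.inr (k, a - 0, (0 : K)) : Bl K) = _
      rw [sub_zero]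
  · rintro ⟨x, y, u, v⟩ hx
    have h1 : y + 1 = y := congrArg (fun p => p.2.1) hx
    exact one_ne_zero (by linear_combination h1 : (1 : K) = 0)

lemma sig_par (B : Bl K) : par B ((sig ξ h).1.2 B) := by
  rcases B with ⟨m, k, a, b⟩ | ⟨k, a, b⟩
  · exact ⟨rfl, rfl⟩
  · exact rfl

lemma ta_par (B : Bl K) : par B ((ta ξ h').1.2 B) := by
  rcases B with ⟨m, k, a, b⟩ | ⟨k, a, b⟩
  · exact ⟨rfl, rfl⟩
  · exact rfl

lemma not_trans (k1 k2 : K) (hk : ξ 1 k1 ≠ ξ 1 k2) :
    ¬ IsTranslation par (sig ξ h * ta ξ h') := by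
  rintro ⟨⟨B, hB⟩, -⟩
  rcases B with ⟨m, k, a, b⟩ | ⟨k, a, b⟩
  · have key : ∀ k, ξ m k = -b ∧ m = 1 := by
      intro k
      have h1 := hB (Sum.inl (m, k, a, b)) ⟨rfl, rfl⟩
      have h2 : (Sum.inl (m, k + 1 - m, a - b - ξ m (k + 1), b) : Bl K) = Sum.inl (m, k, a, b) := h1
      simp only [Sum.inl.injEq, Prod.mk.injEq] at h2
      obtain ⟨-, h3, h4, -⟩ := h2
      rw [h'] at h4
      exact ⟨by linear_combination -h4, by linear_combination -h3⟩
    have hm := (key 0).2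
    subst hm
    exact hk ((key k1).1.trans (key k2).1.symm)
  · have h1 := hB (Sum.inr (k, a, b)) rfl
    have h2 : (Sum.inr (k + 1, a - b, b) : Bl K) = Sum.inr (k, a, b) := h1
    simp only [Sum.inr.injEq, Prod.mk.injEq] at h2
    exact one_ne_zero (by linear_combination h2.1 : (1 : K) = 0)

end

theorem main : ∃ (P L : Type) (_ : Finite P) (_ : Finite L) (I : P → L → Prop)
    (par : L → L → Prop), IsAffineHjelmslevPlane I par ∧
    ∃ σ τ : Aut I, IsTranslation par σ ∧ IsTranslation par τ ∧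
      (∀ B, par B (σ.1.2 B)) ∧ (∀ B, par B (τ.1.2 B)) ∧
      ¬ IsTranslation par (σ * τ) := by
  classical
  let K := GaloisField 2 2
  have hcard : Nat.card K = 4 := by
    have := GaloisField.card 2 2 (by norm_num)
    simpa using this
  have hfin : Finite K := Nat.finite_of_card_ne_zero (by rw [hcard]; norm_num)
  have h2 : (1 : K) + 1 = 0 := CharTwo.add_self_eq_zero 1
  let ξ : K → K → K := fun m k => if m = 1 then (if k = 0 ∨ k = 1 then 1 else 0) else 0
  have hx : ∀ k : K, (k + 1 = 0 ∨ k + 1 = 1) ↔ (k = 0 ∨ k = 1) := by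
    intro k
    constructor
    · rintro (h | h)
      · right; linear_combination h - h2
      · left; linear_combination h
    · rintro (h | h)
      · right; rw [h, zero_add]
      · left; rw [h, h2]
  have h' : ∀ m k, ξ m (k + 1) = ξ m k := by
    intro m k
    show (if m = 1 then (if k + 1 = 0 ∨ k + 1 = 1 then (1 : K) else 0) else 0) =
      (if m = 1 then (if k = 0 ∨ k = 1 then 1 else 0) else 0)
    simp only [hx]
  have h : ∀ m k, ξ m (k - m) = ξ m k := by
    intro m k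
    by_cases hm : m = 1
    · subst hm
      have := h' 1 (k - 1)
      rw [sub_add_cancel] at this
      exact this.symm
    · show (if m = 1 then _ else (0 : K)) = (if m = 1 then _ else 0)
      rw [if_neg hm, if_neg hm]
  have h0 : ∀ k, ξ 0 k = 0 := by
    intro k
    show (if (0 : K) = 1 then _ else (0 : K)) = 0
    rw [if_neg zero_ne_one]
  obtain ⟨w, hw⟩ : ∃ w : K, ¬ (w = 0 ∨ w = 1) := by
    by_contra hcon
    push Not at hcon
    have : Nat.card K ≤ 2 := by
      have hsub : (Set.univ : Set K) ⊆ ({0, 1} : Finset K) := by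
        intro w _
        simpa using hcon w
      have := Set.ncard_le_ncard hsub (Finset.finite_toSet _)
      rw [Set.ncard_univ, Set.ncard_coe_finset] at this
      exact this.trans Finset.card_le_two
    omega
  refine ⟨Pt K, Bl K, inferInstance, inferInstance, Inc ξ, par, isPlane ξ, sig ξ h, ta ξ h',
    sig_trans ξ h h0, ta_trans ξ h', sig_par ξ h, ta_par ξ h', not_trans ξ h h' 0 w ?_⟩
  show (if (1 : K) = 1 then (if (0 : K) = 0 ∨ (0 : K) = 1 then (1 : K) else 0) else 0) ≠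
    (if (1 : K) = 1 then (if w = 0 ∨ w = 1 then 1 else 0) else 0)
  rw [if_pos rfl, if_pos rfl, if_pos (Or.inl rfl), if_neg hw]
  exact one_ne_zero

end Pool.Agent.H23.Hjelmslev
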