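import Mathlib

set_option autoImplicit false

namespace Pool.Agent.H23.Hjelmslev

/-- An ordinary affine plane, given as an incidence structure. -/
structure IsAffinePlane {P L : Type} (I : P → L → Prop) : Prop where
  /-- two distinct points are on exactly one common line -/
  join : ∀ p q : P, p ≠ q → ∃! B : L, I p B ∧ I q B
  /-- if `p` is not on `B` then exactly one line through `p` misses `B` -/
  playfair : ∀ (p : P) (B : L), ¬ I p B → ∃! C : L, I p C ∧ ∀ q, ¬ (I q B ∧ I q C)
  /-- there are three non-collinear points -/
  triangle : ∃ p q r : P, ¬ ∃ B : L, I p B ∧ I q B ∧ I r B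

/-- `[x, y]`: the number of blocks incident with both points -/
noncomputable def joinNumber {P L : Type} (I : P → L → Prop) (x y : P) : ℕ∞ :=
  {B : L | I x B ∧ I y B}.encard

/-- `[B, C]`: the number of points incident with both blocks -/
noncomputable def meetNumber {P L : Type} (I : P → L → Prop) (B C : L) : ℕ∞ :=
  {x : P | I x B ∧ I x C}.encard

/-- `B ~ₐ C`: for every point `x` on one of `B, C` there is a point `y` on the other with
`[x, y] > 1` -/
def BlockNeighbour {P L : Type} (I : P → L → Prop) (B C : L) : Prop :=
  (∀ x, I x B → ∃ y, I y C ∧ 1 < joinNumber I x y) ∧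
  (∀ x, I x C → ∃ y, I y B ∧ 1 < joinNumber I x y)

/-- Affine Hjelmslev planes: an incidence structure `I` on points `P` and blocks `L` together
with a parallelism `par` (an equivalence relation on blocks). -/
structure IsAffineHjelmslevPlane {P L : Type} (I : P → L → Prop) (par : L → L → Prop) : Prop where
  /-- axiom 1 -/
  join : ∀ x y : P, 1 ≤ joinNumber I x y
  /-- `par` is an equivalence relation -/
  par_equiv : Equivalence par
  /-- axiom 2 -/
  parallel : ∀ (p : P) (B : L), ∃! C : L, I p C ∧ par B C
  /-- axiom 3 -/
  meet : ∀ B C : L, B ≠ C → BlockNeighbour I B C → meetNumber I B C ≠ 1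
  /-- axiom 4: an epimorphism onto an ordinary affine plane whose fibres are the neighbour
  classes -/
  epi : ∃ (P' L' : Type) (I' : P' → L' → Prop) (f : P → P') (g : L → L'),
    IsAffinePlane I' ∧ Function.Surjective f ∧ Function.Surjective g ∧
    (∀ x B, I x B → I' (f x) (g B)) ∧
    (∀ x' B', I' x' B' → ∃ x B, f x = x' ∧ g B = B' ∧ I x B) ∧
    (∀ x y, f x = f y ↔ 1 < joinNumber I x y) ∧
    (∀ B C, g B = g C ↔ BlockNeighbour I B C)

/-- automorphisms of an incidence structure: pairs of bijections of the points and of the blocks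
preserving incidence in both directions -/
def Aut {P L : Type} (I : P → L → Prop) : Subgroup (Equiv.Perm P × Equiv.Perm L) where
  carrier := {t | ∀ x B, I (t.1 x) (t.2 B) ↔ I x B}
  one_mem' := fun _ _ => Iff.rfl
  mul_mem' := by
    intro s t hs ht x B
    exact (hs (t.1 x) (t.2 B)).trans (ht x B)
  inv_mem' := by
    intro t ht x B
    have := ht (t.1⁻¹ x) (t.2⁻¹ B)
    simpa using this.symm

/-- Translations: (i) there is a parallel class (that of some block `B₀`) each of whose blocks is
mapped to itself, and (ii) `t` is the identity or fixes no point. -/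
def IsTranslation {P L : Type} {I : P → L → Prop} (par : L → L → Prop) (t : Aut I) : Prop :=
  (∃ B₀ : L, ∀ B : L, par B₀ B → t.1.2 B = B) ∧ (t = 1 ∨ ∀ x : P, t.1.1 x ≠ x)

end Pool.Agent.H23.Hjelmslev
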