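import Mathlib

set_option autoImplicit false

namespace Pool.Agent.H23.Jet

open MvPolynomial

/-- The jet polynomials `ℝ[u_0,u_1,u_2,…]`. -/
abbrev A := MvPolynomial ℕ ℝ

/-- The total derivative: the derivation of `A` with `D u_i = u_{i+1}`. -/
noncomputable def D : Derivation ℝ A A := mkDerivation ℝ (fun i => X (i + 1))

/-- The product `f * g = ∑_{i≥0} (f_i d^i g + (-d)^i (f g_i))`. -/
noncomputable def jprod (f g : A) : A :=
  ∑ᶠ i : ℕ, (pderiv i f * (D^[i] g) + (-1) ^ i * (D^[i] (f * pderiv i g)))

theorem jprod_eq (f g : A) (M : ℕ) (hf : ∀ i, M ≤ i → pderiv i f = 0)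
    (hg : ∀ i, M ≤ i → pderiv i g = 0) :
    jprod f g = ∑ i ∈ Finset.range M,
      (pderiv i f * (D^[i] g) + (-1) ^ i * (D^[i] (f * pderiv i g))) := by
  apply finsum_eq_sum_of_support_subset
  intro i hi
  simp only [Finset.coe_range, Set.mem_Iio]
  by_contra h
  apply hi
  push Not at h
  have h0 : D^[i] (0 : A) = 0 := Function.iterate_fixed (map_zero D) i
  simp only [hf i h, hg i h, mul_zero, zero_mul, zero_add, h0]

theorem exists_bound (f : A) : ∃ M, ∀ i, M ≤ i → pderiv i f = 0 := by
  refine ⟨f.vars.sup id + 1, fun i hi => pderiv_eq_zero_of_notMem_vars (fun h => ?_)⟩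
  have := Finset.le_sup (f := id) h
  simp only [id] at this
  omega

theorem iterate_add (i : ℕ) (x y : A) : D^[i] (x + y) = D^[i] x + D^[i] y := by
  induction i with
  | zero => rfl
  | succ n ih => rw [Function.iterate_succ_apply', Function.iterate_succ_apply',
      Function.iterate_succ_apply', ih, map_add]

theorem iterate_smul (i : ℕ) (c : ℝ) (x : A) : D^[i] (c • x) = c • D^[i] x := by
  induction i with
  | zero => rfl
  | succ n ih => rw [Function.iterate_succ_apply', Function.iterate_succ_apply', ih, D.map_smul]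

/-- The subspace `H(g) = {h : h * g = 0}`. -/
noncomputable def H (g : A) : Submodule ℝ A where
  carrier := {h | jprod h g = 0}
  zero_mem' := by
    obtain ⟨M, hM⟩ := exists_bound g
    change jprod 0 g = 0
    rw [jprod_eq 0 g M (fun i _ => map_zero _) hM]
    apply Finset.sum_eq_zero
    intro i _
    have h0 : D^[i] (0 : A) = 0 := Function.iterate_fixed (map_zero D) i
    simp only [map_zero, mul_zero, zero_mul, zero_add, h0]
  add_mem' := by
    intro a b ha hb
    obtain ⟨M1, h1⟩ := exists_bound g
    obtain ⟨M2, h2⟩ := exists_bound a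
    obtain ⟨M3, h3⟩ := exists_bound b
    have hM : ∀ i, M1 + M2 + M3 ≤ i → pderiv i g = 0 ∧ pderiv i a = 0 ∧ pderiv i b = 0 :=
      fun i hi => ⟨h1 i (by omega), h2 i (by omega), h3 i (by omega)⟩
    change jprod a g = 0 at ha
    change jprod b g = 0 at hb
    change jprod (a + b) g = 0
    rw [jprod_eq a g (M1 + M2 + M3) (fun i hi => (hM i hi).2.1) (fun i hi => (hM i hi).1)] at ha
    rw [jprod_eq b g (M1 + M2 + M3) (fun i hi => (hM i hi).2.2) (fun i hi => (hM i hi).1)] at hb
    rw [jprod_eq (a + b) g (M1 + M2 + M3)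
      (fun i hi => by rw [map_add, (hM i hi).2.1, (hM i hi).2.2, add_zero])
      (fun i hi => (hM i hi).1)]
    have hab := congrArg₂ (· + ·) ha hb
    simp only [add_zero] at hab
    rw [← hab, ← Finset.sum_add_distrib]
    apply Finset.sum_congr rfl
    intro i _
    rw [map_add, add_mul, add_mul a b, iterate_add]
    ring
  smul_mem' := by
    intro c a ha
    obtain ⟨M1, h1⟩ := exists_bound g
    obtain ⟨M2, h2⟩ := exists_bound a
    have hM : ∀ i, M1 + M2 ≤ i → pderiv i g = 0 ∧ pderiv i a = 0 :=
      fun i hi => ⟨h1 i (by omega), h2 i (by omega)⟩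
    change jprod a g = 0 at ha
    change jprod (c • a) g = 0
    rw [jprod_eq a g (M1 + M2) (fun i hi => (hM i hi).2) (fun i hi => (hM i hi).1)] at ha
    rw [jprod_eq (c • a) g (M1 + M2)
      (fun i hi => by rw [(pderiv i).map_smul, (hM i hi).2, smul_zero])
      (fun i hi => (hM i hi).1), ← smul_zero c]
    conv_rhs => rw [← ha]
    rw [Finset.smul_sum]
    apply Finset.sum_congr rfl
    intro i _
    rw [(pderiv i).map_smul, smul_mul_assoc, smul_mul_assoc, iterate_smul, smul_add,
      mul_smul_comm]

end Pool.Agent.H23.Jet
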