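import Pool.Agent.H23.JetDefs

set_option autoImplicit false

namespace Pool.Agent.H23.Jet

open MvPolynomial

noncomputable abbrev u (i : ℕ) : A := X i

theorem D_u (i : ℕ) : D (u i) = u (i + 1) := mkDerivation_X _ _ _

theorem pd_u (i j : ℕ) : pderiv i (u j) = if j = i then 1 else 0 := by
  rw [pderiv_X, Pi.single_apply]

theorem pd_self (i : ℕ) : pderiv i (u i) = 1 := by rw [pd_u, if_pos rfl]
theorem pd_ne (i j : ℕ) (h : j ≠ i) : pderiv i (u j) = 0 := by rw [pd_u, if_neg h]

theorem D_one : D (1 : A) = 0 := Derivation.map_one_eq_zero D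

theorem comm (j : ℕ) (h : A) : pderiv (j + 1) (D h) = D (pderiv (j + 1) h) + pderiv j h := by
  have hc : ⁅(pderiv (j + 1) : Derivation ℝ A A), D⁆ = pderiv j := by
    apply derivation_ext
    intro i
    rw [Derivation.commutator_apply]
    change pderiv (j+1) (D (u i)) - D (pderiv (j+1) (u i)) = pderiv j (u i)
    rw [D_u, pd_u, pd_u, pd_u]
    have : D (if i = j + 1 then (1 : A) else 0) = 0 := by
      split_ifs
      · exact D_one
      · exact map_zero D
    rw [this, sub_zero]
    by_cases h : i = j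
    · rw [if_pos h, if_pos (by omega)]
    · rw [if_neg h, if_neg (by omega)]
  have h2 := congrArg (fun d : Derivation ℝ A A => d h) hc
  simp only [Derivation.commutator_apply] at h2
  rw [← h2]; ring

theorem comm0 (h : A) : pderiv 0 (D h) = D (pderiv 0 h) := by
  have hc : ⁅(pderiv 0 : Derivation ℝ A A), D⁆ = 0 := by
    apply derivation_ext
    intro i
    rw [Derivation.commutator_apply]
    change pderiv 0 (D (u i)) - D (pderiv 0 (u i)) = 0
    rw [D_u, pd_u, pd_u]
    have : D (if i = 0 then (1 : A) else 0) = 0 := by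
      split_ifs
      · exact D_one
      · exact map_zero D
    rw [this, sub_zero, if_neg (by omega)]
  have h2 := congrArg (fun d : Derivation ℝ A A => d h) hc
  simp only [Derivation.commutator_apply, Derivation.zero_apply] at h2
  exact sub_eq_zero.1 h2

/-- The right-hand side `g = u_2 u_3`. -/
noncomputable def g : A := u 2 * u 3

/-- The iterated derivatives of `g`. -/
noncomputable def gi (i : ℕ) : A := D^[i] g

theorem gi_zero : gi 0 = u 2 * u 3 := rfl
theorem gi_succ (i : ℕ) : gi (i + 1) = D (gi i) := Function.iterate_succ_apply' _ _ _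

theorem D_nat (n : ℕ) : D ((n : A)) = 0 := Derivation.map_natCast D n

theorem pd_gi (i j : ℕ) : pderiv j (gi i) =
    if 2 ≤ j ∧ j ≤ i + 3 then ((Nat.choose (i + 1) (j - 2) : ℕ) : A) * u (i + 5 - j) else 0 := by
  induction i generalizing j with
  | zero =>
    rw [gi_zero, pderiv_mul, pd_u, pd_u]
    rcases Nat.lt_or_ge j 2 with h | h
    · rw [if_neg (by omega), if_neg (by omega), if_neg (by omega)]; ring
    · rcases Nat.lt_or_ge 3 j with h3 | h3
      · rw [if_neg (by omega), if_neg (by omega), if_neg (by omega)]; ring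
      · have : j = 2 ∨ j = 3 := by omega
        rcases this with rfl | rfl
        · simp
        · simp
  | succ i ih =>
    rw [gi_succ]
    rcases j with _ | j
    · rw [comm0, ih, if_neg (by omega), if_neg (by omega), map_zero]
    · rw [comm, ih, ih]
      by_cases h1 : 2 ≤ j + 1 ∧ j + 1 ≤ i + 3
      · rw [if_pos h1, Derivation.leibniz, D_nat, D_u, smul_zero, add_zero, smul_eq_mul,
          if_pos (⟨h1.1, by omega⟩ : 2 ≤ j + 1 ∧ j + 1 ≤ i + 1 + 3)]
        by_cases h2 : 2 ≤ j
        · rw [if_pos ⟨h2, by omega⟩]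
          obtain ⟨k, rfl⟩ : ∃ k, j = k + 2 := ⟨j - 2, by omega⟩
          have e1 : i + 5 - (k + 2 + 1) + 1 = i + 1 + 5 - (k + 2 + 1) := by omega
          have e2 : i + 5 - (k + 2) = i + 1 + 5 - (k + 2 + 1) := by omega
          have e3 : k + 2 + 1 - 2 = k + 1 := by omega
          have e4 : k + 2 - 2 = k := by omega
          rw [e1, e2, e3, e4, Nat.choose_succ_succ (i + 1) k]
          push_cast
          ring
        · have : j = 1 := by omega
          subst this
          rw [if_neg (by omega)]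
          simp only [Nat.reduceAdd, Nat.sub_self, Nat.choose_zero_right, Nat.cast_one, one_mul,
            add_zero]
          congr 1
      · rw [if_neg h1, map_zero, zero_add]
        by_cases h2 : 2 ≤ j ∧ j ≤ i + 3
        · have h3 : j = i + 3 := by omega
          subst h3
          rw [if_pos h2, if_pos ⟨by omega, by omega⟩]
          have e1 : i + 5 - (i + 3) = i + 1 + 5 - (i + 3 + 1) := by omega
          have e3 : i + 3 + 1 - 2 = i + 1 + 1 := by omega
          have e4 : i + 3 - 2 = i + 1 := by omega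
          rw [e1, e3, e4, Nat.choose_self, Nat.choose_self]
        · rw [if_neg h2, if_neg (by omega)]

theorem pd_gi_zero (i j : ℕ) (h : i + 3 < j) : pderiv j (gi i) = 0 := by
  rw [pd_gi, if_neg (by omega)]

/-- The local form of the product with `g`. -/
theorem jprod_g (h : A) (M : ℕ) (hM : ∀ i, M ≤ i → pderiv i h = 0) :
    jprod h g = ∑ i ∈ Finset.range M, pderiv i h * gi i -
      (u 2 * D (D (D h)) + 2 * u 3 * D (D h) + u 4 * D h) := by
  have hg : ∀ i, M + 4 ≤ i → pderiv i g = 0 := by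
    intro i hi
    exact pd_gi_zero 0 i (by omega)
  rw [jprod_eq h g (M + 4) (fun i hi => hM i (by omega)) hg, Finset.sum_add_distrib]
  have h1 : ∑ i ∈ Finset.range (M + 4), pderiv i h * (D^[i] g) =
      ∑ i ∈ Finset.range M, pderiv i h * gi i := by
    symm
    apply Finset.sum_subset
    · intro i hi
      rw [Finset.mem_range] at hi ⊢
      omega
    · intro i _ hi
      rw [Finset.mem_range] at hi
      rw [hM i (by omega), zero_mul]
  have h2 : ∑ i ∈ Finset.range (M + 4), ((-1 : A)) ^ i * (D^[i] (h * pderiv i g)) =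
      D (D (h * u 3)) - D (D (D (h * u 2))) := by
    have h3 : ∀ i ∈ Finset.range (M + 4), i ∉ Finset.range 4 →
        ((-1 : A)) ^ i * (D^[i] (h * pderiv i g)) = 0 := by
      intro i _ hi
      rw [Finset.mem_range] at hi
      have h0 : D^[i] (0 : A) = 0 := Function.iterate_fixed (map_zero D) i
      have : pderiv i g = 0 := pd_gi_zero 0 i (by omega)
      rw [this, mul_zero, h0, mul_zero]
    rw [← Finset.sum_subset (s₁ := Finset.range 4) (by
      intro i hi
      rw [Finset.mem_range] at hi ⊢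
      omega) h3]
    have e0 : pderiv 0 g = 0 := by change pderiv 0 (gi 0) = 0; rw [pd_gi, if_neg (by omega)]
    have e1 : pderiv 1 g = 0 := by change pderiv 1 (gi 0) = 0; rw [pd_gi, if_neg (by omega)]
    have e2 : pderiv 2 g = u 3 := by
      change pderiv 2 (gi 0) = u 3; rw [pd_gi, if_pos (by omega)]; simp
    have e3 : pderiv 3 g = u 2 := by
      change pderiv 3 (gi 0) = u 2; rw [pd_gi, if_pos (by omega)]; simp
    simp only [Finset.sum_range_succ, Finset.sum_range_zero, e0, e1, e2, e3, mul_zero, zero_add]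
    simp only [Function.iterate_succ, Function.iterate_zero, Function.comp_apply, id_eq, map_zero,
      mul_zero]
    ring
  rw [h1, h2]
  simp only [Derivation.leibniz, map_add, smul_eq_mul, D_u]
  ring

theorem D_ofNat2 : D (2 : A) = 0 := D_nat 2

theorem pdD2 (j : ℕ) (h : A) : pderiv (j + 2) (D (D h)) =
    D (D (pderiv (j + 2) h)) + 2 * D (pderiv (j + 1) h) + pderiv j h := by
  rw [comm (j + 1), comm (j + 1), comm j, map_add]
  ring

theorem pdD3 (j : ℕ) (h : A) : pderiv (j + 3) (D (D (D h))) =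
    D (D (D (pderiv (j + 3) h))) + 3 * D (D (pderiv (j + 2) h)) + 3 * D (pderiv (j + 1) h)
      + pderiv j h := by
  rw [comm (j + 2), comm (j + 2), comm (j + 2), comm (j + 1), comm (j + 1), comm j]
  simp only [map_add]
  rw [comm (j + 1)]
  simp only [map_add]
  ring

theorem pd_nat (j n : ℕ) : pderiv j ((n : A)) = 0 := Derivation.map_natCast _ n

theorem pd_comm (i j : ℕ) (h : A) : pderiv i (pderiv j h) = pderiv j (pderiv i h) := by
  have hc : ⁅(pderiv i : Derivation ℝ A A), (pderiv j : Derivation ℝ A A)⁆ = 0 := by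
    apply derivation_ext
    intro l
    rw [Derivation.commutator_apply]
    change pderiv i (pderiv j (u l)) - pderiv j (pderiv i (u l)) = 0
    rw [pd_u, pd_u]
    have e1 : ∀ a b : ℕ, ∀ P : Prop, ∀ _ : Decidable P,
        pderiv a (if P then (1 : A) else 0) = 0 := by
      intro a b P _
      split_ifs
      · exact pderiv_one
      · exact map_zero _
    rw [e1 _ 0, e1 _ 0, sub_zero]
  have h2 := congrArg (fun d : Derivation ℝ A A => d h) hc
  simp only [Derivation.commutator_apply, Derivation.zero_apply] at h2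
  exact sub_eq_zero.1 h2

theorem pd_sum (j M : ℕ) (h : A) : pderiv j (∑ i ∈ Finset.range M, pderiv i h * gi i) =
    ∑ i ∈ Finset.range M, pderiv i (pderiv j h) * gi i +
    ∑ i ∈ Finset.range M, pderiv i h * pderiv j (gi i) := by
  rw [map_sum, ← Finset.sum_add_distrib]
  apply Finset.sum_congr rfl
  intro i _
  rw [pderiv_mul, pd_comm j i]

theorem sum_low (n : ℕ) (h : A) :
    ∑ i ∈ Finset.range n, pderiv i h * pderiv (n + 3) (gi i) = 0 := by
  apply Finset.sum_eq_zero
  intro i hi
  rw [Finset.mem_range] at hi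
  rw [pd_gi_zero i (n + 3) (by omega), mul_zero]

theorem pg0 (n : ℕ) : pderiv (n + 3) (gi n) = u 2 := by
  rw [pd_gi, if_pos (by omega), show n + 3 - 2 = n + 1 by omega, Nat.choose_self,
    show n + 5 - (n + 3) = 2 by omega]
  simp

theorem pg1 (n : ℕ) : pderiv (n + 3) (gi (n + 1)) = ((n : A) + 2) * u 3 := by
  rw [pd_gi, if_pos (by omega), show n + 3 - 2 = n + 1 by omega,
    show n + 1 + 1 = (n + 1) + 1 by omega, Nat.choose_succ_self_right,
    show n + 1 + 5 - (n + 3) = 3 by omega]
  push_cast; ring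

theorem pg2 (n : ℕ) : pderiv (n + 3) (gi (n + 2)) = ((Nat.choose (n + 3) 2 : ℕ) : A) * u 4 := by
  rw [pd_gi, if_pos (by omega), show n + 3 - 2 = n + 1 by omega,
    show n + 2 + 5 - (n + 3) = 4 by omega, ← Nat.choose_symm_of_eq_add (show n + 2 + 1 = (n + 1) + 2 by omega)]

theorem pg3 (n : ℕ) : pderiv (n + 3) (gi (n + 3)) = ((Nat.choose (n + 4) 3 : ℕ) : A) * u 5 := by
  rw [pd_gi, if_pos (by omega), show n + 3 - 2 = n + 1 by omega,
    show n + 3 + 5 - (n + 3) = 5 by omega, ← Nat.choose_symm_of_eq_add (show n + 3 + 1 = (n + 1) + 3 by omega)]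

/-- derivative of the local part -/
theorem pdB (j : ℕ) (hj : 5 ≤ j + 3) (h : A) :
    pderiv (j + 3) (u 2 * D (D (D h)) + 2 * u 3 * D (D h) + u 4 * D h) =
    u 2 * (D (D (D (pderiv (j + 3) h))) + 3 * D (D (pderiv (j + 2) h)) + 3 * D (pderiv (j + 1) h)
      + pderiv j h) + 2 * u 3 * (D (D (pderiv (j + 3) h)) + 2 * D (pderiv (j + 2) h)
      + pderiv (j + 1) h) + u 4 * (D (pderiv (j + 3) h) + pderiv (j + 2) h) := by
  have e2 : pderiv (j + 3) (u 2) = 0 := by rw [pd_u, if_neg (by omega)]
  have e3 : pderiv (j + 3) (u 3) = 0 := by rw [pd_u, if_neg (by omega)]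
  have e4 : pderiv (j + 3) (u 4) = 0 := by rw [pd_u, if_neg (by omega)]
  have e5 : pderiv (j + 3) (2 : A) = 0 := pd_nat _ 2
  rw [map_add, map_add, pderiv_mul, pderiv_mul, pderiv_mul, pderiv_mul, e2, e3, e4, e5,
    pdD3, pdD2 (j + 1), comm (j + 2)]
  ring

/-- first equation, `N = n + 1` -/
theorem E1 (n : ℕ) (hn : 2 ≤ n) (h : A) (hh : jprod h g = 0)
    (hN : ∀ j, n + 2 ≤ j → pderiv j h = 0) :
    (n : A) * u 3 * pderiv (n + 1) h = 3 * u 2 * D (pderiv (n + 1) h) := by
  rw [jprod_g h (n + 2) hN] at hh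
  have h1 := congrArg (pderiv (n + 3)) hh
  rw [map_sub, map_zero, pd_sum, pdB n (by omega), Finset.sum_range_succ,
    Finset.sum_range_succ, Finset.sum_range_succ _ (n + 1), Finset.sum_range_succ _ n, sum_low,
    pg0, pg1, hN (n + 3) (by omega), hN (n + 2) (by omega)] at h1
  simp only [map_zero, zero_mul, mul_zero, Finset.sum_const_zero] at h1
  linear_combination h1

/-- second equation, `N = n + 2` -/
theorem E2 (n : ℕ) (hn : 2 ≤ n) (h : A) (hh : jprod h g = 0)
    (hN : ∀ j, n + 3 ≤ j → pderiv j h = 0) :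
    (((Nat.choose (n + 3) 2 : ℕ) : A) - 1) * u 4 * pderiv (n + 2) h + (n : A) * u 3 * pderiv (n + 1) h
     - 3 * u 2 * D (D (pderiv (n + 2) h)) - 3 * u 2 * D (pderiv (n + 1) h)
     - 4 * u 3 * D (pderiv (n + 2) h) = 0 := by
  rw [jprod_g h (n + 3) hN] at hh
  have h1 := congrArg (pderiv (n + 3)) hh
  rw [map_sub, map_zero, pd_sum, pdB n (by omega)] at h1
  have hs : ∑ i ∈ Finset.range (n + 3), pderiv i h * pderiv (n + 3) (gi i) =
      pderiv n h * u 2 + pderiv (n + 1) h * (((n : A) + 2) * u 3) +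
      pderiv (n + 2) h * (((Nat.choose (n + 3) 2 : ℕ) : A) * u 4) := by
    rw [Finset.sum_range_succ, Finset.sum_range_succ, Finset.sum_range_succ, sum_low,
      pg0, pg1, pg2]
    ring
  rw [hs, hN (n + 3) (by omega)] at h1
  simp only [map_zero, zero_mul, mul_zero, Finset.sum_const_zero] at h1
  linear_combination h1

/-- third equation, `N = n + 3` -/
theorem E3 (n : ℕ) (hn : 2 ≤ n) (h : A) (hh : jprod h g = 0)
    (hN : ∀ j, n + 4 ≤ j → pderiv j h = 0) :
    ∑ i ∈ Finset.range (n + 4), pderiv i (pderiv (n + 3) h) * gi i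
    + ((Nat.choose (n + 4) 3 : ℕ) : A) * u 5 * pderiv (n + 3) h
    + (((Nat.choose (n + 3) 2 : ℕ) : A) - 1) * u 4 * pderiv (n + 2) h
    + (n : A) * u 3 * pderiv (n + 1) h
    - u 2 * D (D (D (pderiv (n + 3) h))) - 3 * u 2 * D (D (pderiv (n + 2) h))
    - 3 * u 2 * D (pderiv (n + 1) h) - 2 * u 3 * D (D (pderiv (n + 3) h))
    - 4 * u 3 * D (pderiv (n + 2) h) - u 4 * D (pderiv (n + 3) h) = 0 := by
  rw [jprod_g h (n + 4) hN] at hh
  have h1 := congrArg (pderiv (n + 3)) hh
  rw [map_sub, map_zero, pd_sum, pdB n (by omega)] at h1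
  have hs : ∑ i ∈ Finset.range (n + 4), pderiv i h * pderiv (n + 3) (gi i) =
      pderiv n h * u 2 + pderiv (n + 1) h * (((n : A) + 2) * u 3) +
      pderiv (n + 2) h * (((Nat.choose (n + 3) 2 : ℕ) : A) * u 4) +
      pderiv (n + 3) h * (((Nat.choose (n + 4) 3 : ℕ) : A) * u 5) := by
    rw [Finset.sum_range_succ, Finset.sum_range_succ, Finset.sum_range_succ,
      Finset.sum_range_succ, sum_low, pg0, pg1, pg2, pg3]
    ring
  rw [hs] at h1
  linear_combination h1

theorem coeff_pd_zero (i : ℕ) (a : A) (h : pderiv i a = 0) (m : ℕ →₀ ℕ) (hm : m i ≠ 0) :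
    coeff m a = 0 := by
  have h1 := congrArg (coeff (m - Finsupp.single i 1)) h
  rw [coeff_pderiv, coeff_zero] at h1
  have h2 : m - Finsupp.single i 1 + Finsupp.single i 1 = m := by
    ext j
    simp only [Finsupp.coe_add, Finsupp.coe_tsub, Pi.add_apply, Pi.sub_apply]
    by_cases hj : j = i
    · subst hj; simp; omega
    · simp [Finsupp.single_apply, Ne.symm hj]
  rw [h2] at h1
  rcases mul_eq_zero.1 h1 with h3 | h3
  · exact h3
  · exfalso
    have : (0:ℝ) < (((m - Finsupp.single i 1 : ℕ →₀ ℕ) i : ℕ) : ℝ) + 1 := by positivity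
    exact this.ne' h3

theorem const_of_pd (a : A) (h : ∀ i, pderiv i a = 0) : a = C (coeff 0 a) := by
  ext m
  rw [coeff_C]
  by_cases hm : m = 0
  · subst hm; simp
  · rw [if_neg (Ne.symm hm)]
    obtain ⟨i, hi⟩ : ∃ i, m i ≠ 0 := by
      by_contra hc
      push Not at hc
      exact hm (Finsupp.ext hc)
    exact coeff_pd_zero i a (h i) m hi

theorem coeff_euler (i : ℕ) (a : A) (m : ℕ →₀ ℕ) :
    coeff m (u i * pderiv i a) = (m i : ℝ) * coeff m a := by
  classical
  rw [mul_comm, coeff_mul_X']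
  by_cases hm : i ∈ m.support
  · rw [if_pos hm, coeff_pderiv]
    have h2 : m - Finsupp.single i 1 + Finsupp.single i 1 = m := by
      ext j
      rw [Finsupp.mem_support_iff] at hm
      simp only [Finsupp.coe_add, Finsupp.coe_tsub, Pi.add_apply, Pi.sub_apply]
      by_cases hj : j = i
      · subst hj; simp; omega
      · simp [Finsupp.single_apply, Ne.symm hj]
    have h3 : (((m - Finsupp.single i 1 : ℕ →₀ ℕ) i : ℕ) : ℝ) + 1 = m i := by
      have := congrArg (fun f : ℕ →₀ ℕ => ((f i : ℕ) : ℝ)) h2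
      simp only [Finsupp.coe_add, Pi.add_apply, Finsupp.single_eq_same] at this
      push_cast at this
      exact this
    rw [h2, h3, mul_comm]
  · rw [if_neg hm]
    rw [Finsupp.notMem_support_iff] at hm
    rw [hm]; simp

theorem mono_of_pd (a : A) (ha : a ≠ 0) (c : ℕ) (h : ∀ i, i ≠ 2 → pderiv i a = 0)
    (he : (c : A) * a = 3 * u 2 * pderiv 2 a) : ∃ (k : ℕ) (al : ℝ), c = 3 * k ∧ al ≠ 0 ∧
      a = C al * u 2 ^ k := by
  have key : ∀ m, coeff m a ≠ 0 → c = 3 * m 2 ∧ ∀ i, i ≠ 2 → m i = 0 := by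
    intro m hm
    constructor
    · have h1 := congrArg (coeff m) he
      have e1 : (c : A) * a = C (c : ℝ) * a := by rw [map_natCast]
      have e2 : 3 * u 2 * pderiv 2 a = C (3 : ℝ) * (u 2 * pderiv 2 a) := by
        have : (C (3 : ℝ) : A) = 3 := by
          have := map_natCast (C : ℝ →+* A) 3
          simpa using this
        rw [this]; ring
      rw [e1, e2, coeff_C_mul, coeff_C_mul, coeff_euler, ← mul_assoc] at h1
      have h2 := mul_right_cancel₀ hm h1
      exact_mod_cast h2
    · intro i hi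
      by_contra hc
      exact hm (coeff_pd_zero i a (h i hi) m hc)
  obtain ⟨m, hm⟩ : ∃ m, coeff m a ≠ 0 := by
    by_contra hc
    push Not at hc
    exact ha (MvPolynomial.ext _ _ (fun m => by rw [hc m, coeff_zero]))
  refine ⟨m 2, coeff m a, (key m hm).1, hm, ?_⟩
  have hmm : m = Finsupp.single 2 (m 2) := by
    ext j
    by_cases hj : j = 2
    · subst hj; simp
    · rw [(key m hm).2 j hj]; simp [Finsupp.single_apply, Ne.symm hj]
  have e3 : (C (coeff m a) * u 2 ^ (m 2) : A) = monomial m (coeff m a) := by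
    rw [C_mul_X_pow_eq_monomial, ← hmm]
  rw [e3]
  ext m'
  rw [coeff_monomial]
  by_cases hm' : m = m'
  · subst hm'; simp
  · rw [if_neg hm']
    by_contra hc
    apply hm'
    have h4 := key m' hc
    have h5 := key m hm
    ext j
    by_cases hj : j = 2
    · subst hj; omega
    · rw [h4.2 j hj, h5.2 j hj]

theorem three_ne : (3 : A) ≠ 0 := by
  have : (3 : A) = ((3 : ℕ) : A) := by norm_num
  rw [this]; exact Nat.cast_ne_zero.2 (by norm_num)

theorem u_ne (i : ℕ) : u i ≠ 0 := X_ne_zero i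

/-- downward elimination of variables -/
theorem down (a : A) (q : ℕ) (h : ∀ j, q ≤ j → (∀ i, j < i → pderiv i a = 0) → pderiv j a = 0) :
    ∀ j, q ≤ j → pderiv j a = 0 := by
  obtain ⟨M, hM⟩ := exists_bound a
  have key : ∀ t j, M ≤ j + t → q ≤ j → pderiv j a = 0 := by
    intro t
    induction t with
    | zero => intro j hj _; exact hM j (by omega)
    | succ t ih =>
      intro j hj hq
      exact h j hq (fun i hi => ih i (by omega) (by omega))
  intro j hj
  exact key M j (by omega) hj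

/-- Solutions of the leading equation. -/
theorem lemA (a : A) (ha : a ≠ 0) (c : ℕ) (he : (c : A) * u 3 * a = 3 * u 2 * D a) :
    ∃ (k : ℕ) (al : ℝ), c = 3 * k ∧ al ≠ 0 ∧ a = C al * u 2 ^ k := by
  have h3 : (3 : A) * u 2 ≠ 0 := mul_ne_zero three_ne (u_ne 2)
  have p3 : ∀ j, pderiv j (3 : A) = 0 := fun j => pd_nat j 3
  have h1 : ∀ j, 3 ≤ j → pderiv j a = 0 := by
    apply down
    intro j hj hi
    have e := congrArg (pderiv (j + 1)) he
    rw [pderiv_mul, pderiv_mul, pderiv_mul, pderiv_mul, comm, pd_nat, p3,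
      pd_ne (j + 1) 3 (by omega), pd_ne (j + 1) 2 (by omega), hi (j + 1) (by omega)] at e
    simp only [map_zero, mul_zero, zero_mul, zero_add, add_zero] at e
    exact (mul_eq_zero.1 e.symm).resolve_left h3
  have e3 : (c : A) * a = 3 * u 2 * pderiv 2 a := by
    have e := congrArg (pderiv 3) he
    rw [pderiv_mul, pderiv_mul, pderiv_mul, pderiv_mul, comm 2, pd_nat, p3, pd_self 3,
      pd_ne 3 2 (by omega), h1 3 (by omega)] at e
    simp only [map_zero, mul_zero, zero_mul, zero_add, add_zero, mul_one] at e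
    exact e
  have e2 : (c : A) * u 3 * pderiv 2 a = 3 * D a + 3 * u 2 * (D (pderiv 2 a) + pderiv 1 a) := by
    have e := congrArg (pderiv 2) he
    rw [pderiv_mul, pderiv_mul, pderiv_mul, pderiv_mul, comm 1, pd_nat, p3, pd_self 2,
      pd_ne 2 3 (by omega)] at e
    simp only [mul_zero, zero_mul, zero_add, mul_one] at e
    exact e
  have e3' : (c : A) * D a = 3 * u 3 * pderiv 2 a + 3 * u 2 * D (pderiv 2 a) := by
    have e := congrArg D e3
    simp only [Derivation.leibniz, smul_eq_mul, D_nat, D_u, mul_zero, add_zero] at e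
    have : D (3 : A) = 0 := D_nat 3
    rw [this] at e
    linear_combination e
  have a1 : pderiv 1 a = 0 := by
    have e : 9 * u 2 ^ 2 * pderiv 1 a = 0 := by
      linear_combination (-3 * u 2) * e2 + (3 * u 2) * e3' - ((c + 3) * u 3) * e3
        + ((c : A) + 3) * he
    have h9 : (9 : A) * u 2 ^ 2 ≠ 0 := by
      have : (9 : A) * u 2 ^ 2 = (3 * u 2) * (3 * u 2) := by ring
      rw [this]; exact mul_ne_zero h3 h3
    exact (mul_eq_zero.1 e).resolve_left h9
  have a0 : pderiv 0 a = 0 := by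
    have e := congrArg (pderiv 1) he
    rw [pderiv_mul, pderiv_mul, pderiv_mul, pderiv_mul, comm 0, pd_nat, p3, pd_ne 1 3 (by omega),
      pd_ne 1 2 (by omega), a1] at e
    simp only [map_zero, mul_zero, zero_mul, zero_add, add_zero] at e
    exact (mul_eq_zero.1 e.symm).resolve_left h3
  apply mono_of_pd a ha c _ e3
  intro i hi
  rcases Nat.lt_or_ge i 3 with h | h
  · have : i = 0 ∨ i = 1 := by omega
    rcases this with rfl | rfl
    · exact a0
    · exact a1
  · exact h1 i h

theorem c2 (n : ℕ) : 2 * (Nat.choose (n + 2) 2) = (n + 2) * (n + 1) := by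
  induction n with
  | zero => rfl
  | succ n ih =>
    rw [Nat.choose_succ_succ' (n + 2) 1, Nat.choose_one_right]
    linarith

theorem c3 (n : ℕ) : 6 * (Nat.choose (n + 3) 3) = (n + 3) * (n + 2) * (n + 1) := by
  induction n with
  | zero => rfl
  | succ n ih =>
    rw [Nat.choose_succ_succ' (n + 3) 2]
    have := c2 (n + 1)
    have e : n + 1 + 2 = n + 3 := by omega
    rw [e] at this
    nlinarith

/-- The last obstruction. -/
theorem lemB (m : ℕ) (ka : A) (hk0 : ka ≠ 0) (hkp : ∀ j, pderiv j ka = 0) (hkD : D ka = 0) (Y : A)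
    (he : 3 * u 2 * D Y = (3 * (m : A) + 4) * u 3 * Y + ka * u 2 ^ m * u 2 * u 3 * u 4) : False := by
  have h3 : (3 : A) * u 2 ≠ 0 := mul_ne_zero three_ne (u_ne 2)
  have p3 : ∀ j, pderiv j (3 : A) = 0 := fun j => pd_nat j 3
  have pc : ∀ j, pderiv j (3 * (m : A) + 4) = 0 := by
    intro j
    have : (3 * (m : A) + 4) = ((3 * m + 4 : ℕ) : A) := by push_cast; ring
    rw [this]; exact pd_nat _ _
  set p : A := u 2 ^ m with hp
  have hp0 : p ≠ 0 := pow_ne_zero _ (u_ne 2)
  have pp : ∀ j, j ≠ 2 → pderiv j p = 0 := by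
    intro j hj
    rw [hp, pderiv_pow, pd_ne j 2 (Ne.symm hj), mul_zero]
  have pp2 : u 2 * pderiv 2 p = (m : A) * p := by
    rw [hp, pderiv_pow, pd_self]
    rcases m with _ | m
    · simp
    · rw [Nat.add_sub_cancel]; ring
  have pD : u 2 * D p = (m : A) * p * u 3 := by
    rw [hp, Derivation.leibniz_pow, D_u]
    rcases m with _ | m
    · simp
    · rw [Nat.add_sub_cancel, smul_eq_mul, nsmul_eq_mul]; ring
  have h1 : ∀ j, 4 ≤ j → pderiv j Y = 0 := by
    apply down
    intro j hj hi
    have e := congrArg (pderiv (j + 1)) he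
    simp only [pderiv_mul, map_add, comm, pc, p3, hkp, pp (j + 1) (by omega),
      pd_ne (j + 1) 2 (by omega), pd_ne (j + 1) 3 (by omega), pd_ne (j + 1) 4 (by omega),
      hi (j + 1) (by omega)] at e
    simp only [map_zero, mul_zero, zero_mul, zero_add, add_zero] at e
    exact (mul_eq_zero.1 e).resolve_left h3
  have e4 : 3 * pderiv 3 Y = ka * p * u 3 := by
    have e := congrArg (pderiv 4) he
    simp only [pderiv_mul, map_add, comm 3, p3, hkp, pp 4 (by omega), pc,
      pd_ne 4 2 (by omega), pd_ne 4 3 (by omega), pd_self 4, h1 4 (by omega)] at e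
    simp only [map_zero, mul_zero, zero_mul, zero_add, add_zero, mul_one] at e
    apply mul_left_cancel₀ (u_ne 2)
    linear_combination e
  have e33 : 3 * pderiv 3 (pderiv 3 Y) = ka * p := by
    have e := congrArg (pderiv 3) e4
    simp only [pderiv_mul, p3, hkp, pp 3 (by omega), pd_self 3] at e
    simp only [map_zero, mul_zero, zero_mul, zero_add, add_zero, mul_one] at e
    exact e
  have e32 : 3 * u 2 * pderiv 2 (pderiv 3 Y) = ka * (m : A) * p * u 3 := by
    have e := congrArg (pderiv 2) e4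
    simp only [pderiv_mul, p3, hkp, pd_ne 2 3 (by omega)] at e
    simp only [map_zero, mul_zero, zero_mul, zero_add, add_zero, mul_one] at e
    linear_combination u 2 * e + ka * u 3 * pp2
  have e33D : 3 * u 2 * D (pderiv 3 (pderiv 3 Y)) = ka * (m : A) * p * u 3 := by
    have e := congrArg D e33
    have : D (3 : A) = 0 := D_nat 3
    simp only [Derivation.leibniz, smul_eq_mul, this, hkD, mul_zero, add_zero] at e
    linear_combination u 2 * e + ka * pD
  have f3 : 3 * u 2 * (D (pderiv 3 Y) + pderiv 2 Y) = (3 * (m : A) + 4) * (Y + u 3 * pderiv 3 Y)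
      + ka * p * u 2 * u 4 := by
    have e := congrArg (pderiv 3) he
    simp only [pderiv_mul, map_add, comm 2, p3, hkp, pp 3 (by omega), pc,
      pd_ne 3 2 (by omega), pd_ne 3 4 (by omega), pd_self 3] at e
    simp only [map_zero, mul_zero, zero_mul, zero_add, add_zero, mul_one] at e
    linear_combination e
  have f33 : 3 * u 2 * (D (pderiv 3 (pderiv 3 Y)) + 2 * pderiv 2 (pderiv 3 Y)) =
      (3 * (m : A) + 4) * (2 * pderiv 3 Y + u 3 * pderiv 3 (pderiv 3 Y)) := by
    have e := congrArg (pderiv 3) f3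
    simp only [pderiv_mul, map_add, comm 2, p3, hkp, pp 3 (by omega), pc,
      pd_ne 3 2 (by omega), pd_ne 3 4 (by omega), pd_self 3, pd_comm 3 2] at e
    simp only [map_zero, mul_zero, zero_mul, zero_add, add_zero, mul_one, one_mul] at e
    linear_combination e
  have fin : 12 * (ka * p * u 3) = 0 := by
    linear_combination (-3) * f33 + 3 * e33D + 6 * e32 - (3 * (m : A) + 4) * (2 * e4 + u 3 * e33)
  have h12 : (12 : A) ≠ 0 := by
    have : (12 : A) = ((12 : ℕ) : A) := by norm_num
    rw [this]; exact Nat.cast_ne_zero.2 (by norm_num)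
  exact mul_ne_zero h12 (mul_ne_zero (mul_ne_zero hk0 hp0) (u_ne 3)) fin

theorem gi_two : gi 2 = u 2 * u 5 + 3 * u 3 * u 4 := by
  rw [gi_succ, gi_succ, gi_zero]
  simp only [Derivation.leibniz, smul_eq_mul, D_u, map_add]
  ring

/-- No element of `H(g)` has order at least five. -/
theorem order_lt (h : A) (hh : jprod h g = 0) : ∀ j, 5 ≤ j → pderiv j h = 0 := by
  apply down
  intro j hj hi
  by_contra ha0
  obtain ⟨n, rfl⟩ : ∃ n, j = n + 1 := ⟨j - 1, by omega⟩
  have e1 := E1 n (by omega) h hh (fun i hi' => hi i (by omega))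
  obtain ⟨k, al', hk, hal', ha⟩ := lemA _ ha0 n e1
  obtain ⟨m, rfl⟩ : ∃ m, k = m + 2 := ⟨k - 2, by omega⟩
  have hn : n = 3 * m + 6 := by omega
  subst hn
  have e2 := E2 (3 * m + 5) (by omega) h hh (fun i hi' => hi i (by omega))
  have e3 := E3 (3 * m + 4) (by omega) h hh (fun i hi' => hi i (by omega))
  rw [show 3 * m + 5 + 3 = 3 * m + 8 by omega, show 3 * m + 5 + 2 = 3 * m + 7 by omega,
    show 3 * m + 5 + 1 = 3 * m + 6 by omega] at e2
  rw [show 3 * m + 4 + 4 = 3 * m + 8 by omega, show 3 * m + 4 + 3 = 3 * m + 7 by omega,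
    show 3 * m + 4 + 2 = 3 * m + 6 by omega, show 3 * m + 4 + 1 = 3 * m + 5 by omega] at e3
  rw [show 3 * m + 6 + 1 = 3 * m + 7 by omega] at ha
  set a : A := pderiv (3 * m + 7) h with hadef
  set b : A := pderiv (3 * m + 6) h with hbdef
  set Xx : A := pderiv (3 * m + 5) h with hXdef
  set al : A := C al' with hal
  have hal0 : al ≠ 0 := by rw [hal]; exact (C_ne_zero).2 hal'
  have halD : D al = 0 := derivation_C D al'
  have halp : ∀ j, pderiv j al = 0 := fun j => pderiv_C
  set p : A := u 2 ^ m with hp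
  have pD : u 2 * D p = (m : A) * p * u 3 := by
    rw [hp, Derivation.leibniz_pow, D_u]
    rcases m with _ | m
    · simp
    · rw [Nat.add_sub_cancel, smul_eq_mul, nsmul_eq_mul]; ring
  have ha' : a = al * p * u 2 ^ 2 := by rw [ha, hp]; ring
  have D2 : D (2 : A) = 0 := D_nat 2
  have D3' : D (3 : A) = 0 := D_nat 3
  have D7 : D (7 : A) = 0 := D_nat 7
  have Dm : D (m : A) = 0 := D_nat m
  have hDa : D a = al * ((m : A) + 2) * p * u 2 * u 3 := by
    rw [ha']
    simp only [Derivation.leibniz, Derivation.leibniz_pow, smul_eq_mul, nsmul_eq_mul, D_u, halD]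
    push_cast
    linear_combination (al * u 2) * pD
  have hDDa : D (D a) = al * ((m : A) + 2) * p * (((m : A) + 1) * u 3 ^ 2 + u 2 * u 4) := by
    rw [hDa]
    simp only [Derivation.leibniz, smul_eq_mul, D_u, halD, map_add, Dm, D2]
    linear_combination (al * ((m : A) + 2) * u 3) * pD
  have hDDDa : u 2 * D (D (D a)) = al * ((m : A) + 2) * p * ((m : A) * u 3 *
      (((m : A) + 1) * u 3 ^ 2 + u 2 * u 4) + u 2 * ((2 * (m : A) + 3) * u 3 * u 4 + u 2 * u 5)) := by
    rw [hDDa]
    simp only [Derivation.leibniz, Derivation.leibniz_pow, smul_eq_mul, nsmul_eq_mul, D_u, halD,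
      map_add, Dm, D2, D_one]
    push_cast
    linear_combination (al * ((m : A) + 2) * (((m : A) + 1) * u 3 ^ 2 + u 2 * u 4)) * pD
  have k2 : 2 * ((Nat.choose (3 * m + 8) 2 : ℕ) : A) = (3 * (m : A) + 8) * (3 * (m : A) + 7) := by
    have := c2 (3 * m + 6)
    have e : 3 * m + 6 + 2 = 3 * m + 8 := by omega
    rw [e] at this
    have h' := congrArg (Nat.cast : ℕ → A) this
    push_cast at h'
    linear_combination h'
  have k2' : 2 * ((Nat.choose (3 * m + 7) 2 : ℕ) : A) = (3 * (m : A) + 7) * (3 * (m : A) + 6) := by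
    have := c2 (3 * m + 5)
    have e : 3 * m + 5 + 2 = 3 * m + 7 := by omega
    rw [e] at this
    have h' := congrArg (Nat.cast : ℕ → A) this
    push_cast at h'
    linear_combination h'
  have k3 : 6 * ((Nat.choose (3 * m + 8) 3 : ℕ) : A) =
      (3 * (m : A) + 8) * (3 * (m : A) + 7) * (3 * (m : A) + 6) := by
    have := c3 (3 * m + 5)
    have e : 3 * m + 5 + 3 = 3 * m + 8 := by omega
    rw [e] at this
    have h' := congrArg (Nat.cast : ℕ → A) this
    push_cast at h'
    linear_combination h'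
  -- determination of `b`
  have hb : 2 * b = al * ((m : A) + 2) * (3 * (m : A) + 7) * p * u 2 * u 3 := by
    by_contra hb0
    have hz0 : 2 * b - al * ((m : A) + 2) * (3 * (m : A) + 7) * p * u 2 * u 3 ≠ 0 :=
      fun hc => hb0 (sub_eq_zero.1 hc)
    obtain ⟨k', _, hk', _⟩ := lemA _ hz0 (3 * m + 5) (by
      simp only [map_sub, Derivation.leibniz, smul_eq_mul, D_u, halD, map_add, Dm, D2, D3', D7]
      push_cast at e2 ⊢
      rw [hDDa, hDa, ha'] at e2
      linear_combination 2 * e2 - (al * p * u 2 ^ 2 * u 4) * k2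
        + (3 * al * ((m : A) + 2) * (3 * (m : A) + 7) * u 2 * u 3) * pD)
    omega
  have hDb : 2 * D b = al * ((m : A) + 2) * (3 * (m : A) + 7) * p *
      (((m : A) + 1) * u 3 ^ 2 + u 2 * u 4) := by
    have e := congrArg D hb
    simp only [Derivation.leibniz, smul_eq_mul, D_u, halD, map_add, Dm, D2, D3', D7] at e
    linear_combination e + (al * ((m : A) + 2) * (3 * (m : A) + 7) * u 3) * pD
  have hDDb : 2 * u 2 * D (D b) = al * ((m : A) + 2) * (3 * (m : A) + 7) * p * ((m : A) * u 3 *
      (((m : A) + 1) * u 3 ^ 2 + u 2 * u 4) + u 2 * ((2 * (m : A) + 3) * u 3 * u 4 + u 2 * u 5)) := by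
    have e := congrArg D hDb
    simp only [Derivation.leibniz, Derivation.leibniz_pow, smul_eq_mul, nsmul_eq_mul, D_u, halD,
      map_add, Dm, D2, D3', D7, D_one] at e
    push_cast at e
    linear_combination u 2 * e + (al * ((m : A) + 2) * (3 * (m : A) + 7) *
      (((m : A) + 1) * u 3 ^ 2 + u 2 * u 4)) * pD
  have hS : ∑ i ∈ Finset.range (3 * m + 8), pderiv i a * gi i =
      al * ((m : A) + 2) * p * u 2 * (u 2 * u 5 + 3 * u 3 * u 4) := by
    rw [Finset.sum_eq_single 2]
    · rw [gi_two, ha]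
      rw [pderiv_mul, halp, pderiv_pow, pd_self, hp]
      push_cast
      ring
    · intro i _ hi
      rw [ha, pderiv_mul, halp, pderiv_pow, pd_ne i 2 (Ne.symm hi)]
      ring
    · intro hc
      rw [Finset.mem_range] at hc
      omega
  -- the residual equation
  refine lemB m (80 * ((m : A) + 2) * al) ?_ ?_ ?_
    (24 * Xx - al * (4 * ((m : A) + 2) * (9 * ((m : A) + 2) ^ 2 - 1) * p * u 2 * u 4
      + 3 * ((m : A) + 2) * ((m : A) + 1) * (9 * ((m : A) + 2) ^ 2 - ((m : A) + 2) - 2) * p * u 3 ^ 2)) ?_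
  · refine mul_ne_zero (mul_ne_zero ?_ ?_) hal0
    · have : (80 : A) = ((80 : ℕ) : A) := by norm_num
      rw [this]; exact Nat.cast_ne_zero.2 (by norm_num)
    · have : ((m : A) + 2) = ((m + 2 : ℕ) : A) := by push_cast; ring
      rw [this]; exact Nat.cast_ne_zero.2 (by omega)
  · intro j
    have : (80 * ((m : A) + 2)) = ((80 * (m + 2) : ℕ) : A) := by push_cast; ring
    rw [this, pderiv_mul, pd_nat, halp]
    ring
  · have : (80 * ((m : A) + 2)) = ((80 * (m + 2) : ℕ) : A) := by push_cast; ring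
    rw [this, Derivation.leibniz, D_nat, halD]
    simp
  · have D4 : D (4 : A) = 0 := D_nat 4
    have D9 : D (9 : A) = 0 := D_nat 9
    have D24 : D (24 : A) = 0 := D_nat 24
    simp only [Derivation.leibniz, Derivation.leibniz_pow, smul_eq_mul, nsmul_eq_mul, D_u, halD,
      map_add, map_sub, Dm, D2, D3', D4, D9, D24, D_one]
    rw [← hp]
    push_cast at e3 ⊢
    linear_combination (-24) * e3 + 24 * hS + 24 * ((Nat.choose (3 * m + 8) 3 : ℕ) : A) * u 5 * ha'
      + 4 * u 5 * (al * p * u 2 ^ 2) * k3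
      + 12 * (((Nat.choose (3 * m + 7) 2 : ℕ) : A) - 1) * u 4 * hb
      + 6 * u 4 * (al * ((m : A) + 2) * (3 * (m : A) + 7) * p * u 2 * u 3) * k2'
      - 24 * hDDDa - 36 * hDDb - 48 * u 3 * hDDa - 48 * u 3 * hDb - 24 * u 4 * hDa
      - 3 * al * (4 * ((m : A) + 2) * (9 * ((m : A) + 2) ^ 2 - 1) * u 2 * u 4
      + 3 * ((m : A) + 2) * ((m : A) + 1) * (9 * ((m : A) + 2) ^ 2 - ((m : A) + 2) - 2) * u 3 ^ 2) * pD

/-- The cosymmetry `f = u_2 u_4 + u_3^2` of order four. -/
noncomputable def f : A := u 2 * u 4 + u 3 ^ 2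

theorem f_bound : ∀ i, 5 ≤ i → pderiv i f = 0 := by
  intro i hi
  rw [f, map_add, pderiv_mul, pderiv_pow, pd_ne i 2 (by omega), pd_ne i 4 (by omega),
    pd_ne i 3 (by omega)]
  ring

theorem jprod_f : jprod f g = 0 := by
  rw [jprod_g f 5 f_bound]
  have p0 : pderiv 0 f = 0 := by
    rw [f, map_add, pderiv_mul, pderiv_pow, pd_ne 0 2 (by omega), pd_ne 0 4 (by omega),
      pd_ne 0 3 (by omega)]; ring
  have p1 : pderiv 1 f = 0 := by
    rw [f, map_add, pderiv_mul, pderiv_pow, pd_ne 1 2 (by omega), pd_ne 1 4 (by omega),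
      pd_ne 1 3 (by omega)]; ring
  have p2 : pderiv 2 f = u 4 := by
    rw [f, map_add, pderiv_mul, pderiv_pow, pd_self 2, pd_ne 2 4 (by omega),
      pd_ne 2 3 (by omega)]; ring
  have p3 : pderiv 3 f = 2 * u 3 := by
    rw [f, map_add, pderiv_mul, pderiv_pow, pd_self 3, pd_ne 3 4 (by omega),
      pd_ne 3 2 (by omega)]; push_cast; ring
  have p4 : pderiv 4 f = u 2 := by
    rw [f, map_add, pderiv_mul, pderiv_pow, pd_self 4, pd_ne 4 3 (by omega),
      pd_ne 4 2 (by omega)]; ring
  simp only [Finset.sum_range_succ, Finset.sum_range_zero, p0, p1, p2, p3, p4]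
  rw [gi_succ 3, gi_succ 2, gi_two]
  have D3' : D (3 : A) = 0 := D_nat 3
  have D2 : D (2 : A) = 0 := D_nat 2
  simp only [f, Derivation.leibniz, Derivation.leibniz_pow, smul_eq_mul, nsmul_eq_mul, D_u,
    map_add, D3', D2, Nat.reduceSub, pow_one, Nat.cast_ofNat, D_one]
  ring

/-- Elements of `H(g)` of order at most two. -/
theorem low_order (h : A) (hh : jprod h g = 0) (hN : ∀ j, 3 ≤ j → pderiv j h = 0) :
    ∃ be ga : ℝ, h = C be * u 2 + C ga := by
  rw [jprod_g h 3 hN] at hh
  simp only [Finset.sum_range_succ, Finset.sum_range_zero, zero_add] at hh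
  have g1 : gi 1 = u 3 ^ 2 + u 2 * u 4 := by
    rw [gi_succ, gi_zero]
    simp only [Derivation.leibniz, smul_eq_mul, D_u]
    ring
  rw [gi_zero, g1, gi_two] at hh
  have hNN : ∀ i j, 3 ≤ j → pderiv j (pderiv i h) = 0 := by
    intro i j hj
    rw [pd_comm, hN j hj, map_zero]
  have hNNN : ∀ i k j, 3 ≤ j → pderiv j (pderiv k (pderiv i h)) = 0 := by
    intro i k j hj
    rw [pd_comm, hNN i j hj, map_zero]
  have p2 : ∀ j, pderiv j (2 : A) = 0 := fun j => pd_nat j 2
  have p3 : ∀ j, pderiv j (3 : A) = 0 := fun j => pd_nat j 3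
  have p4 : ∀ j, pderiv j (4 : A) = 0 := fun j => pd_nat j 4
  have D3' : D (3 : A) = 0 := D_nat 3
  have D4' : D (4 : A) = 0 := D_nat 4
  have q4 : pderiv 4 (u 4) = 1 := pd_self 4
  have q3 : pderiv 3 (u 3) = 1 := pd_self 3
  have q2 : pderiv 2 (u 2) = 1 := pd_self 2
  have E4 : u 3 * pderiv 2 h - 3 * u 2 * D (pderiv 2 h) - D h = 0 := by
    have e := congrArg (pderiv 4) hh
    simp only [map_sub, map_add, map_zero, pderiv_mul, pderiv_pow, comm 3, comm 2, comm 1, p2, p3,
      hNN _ 4 (by omega), hN 4 (by omega), hN 3 (by omega), pd_ne 4 2 (by omega),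
      pd_ne 4 3 (by omega), pd_ne 4 5 (by omega), q4] at e
    linear_combination e
  have s1 : pderiv 2 (pderiv 2 h) = 0 := by
    have e := congrArg (pderiv 3) E4
    simp only [map_sub, map_add, map_zero, pderiv_mul, comm 2, p3,
      hNN _ 3 (by omega), hN 3 (by omega), pd_ne 3 2 (by omega), q3] at e
    have e' : (3 * u 2) * pderiv 2 (pderiv 2 h) = 0 := by linear_combination (-1) * e
    exact (mul_eq_zero.1 e').resolve_left (mul_ne_zero three_ne (u_ne 2))
  have E5 : 4 * D (pderiv 2 h) + 3 * u 2 * pderiv 1 (pderiv 2 h) + pderiv 1 h = 0 := by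
    have e := congrArg (pderiv 2) E4
    simp only [map_sub, map_add, map_zero, pderiv_mul, comm 1, p3, s1,
      pd_ne 2 3 (by omega), q2] at e
    linear_combination (-1) * e
  have s3 : pderiv 1 (pderiv 2 h) = 0 := by
    have e := congrArg (pderiv 2) E5
    simp only [map_sub, map_add, map_zero, pderiv_mul, comm 1, p3, p4, s1, q2,
      pd_comm 2 1] at e
    have e' : ((8 : ℕ) : A) * pderiv 1 (pderiv 2 h) = 0 := by
      push_cast
      linear_combination e
    exact (mul_eq_zero.1 e').resolve_left (Nat.cast_ne_zero.2 (by norm_num))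
  rw [s3, mul_zero, add_zero] at E5
  have H0 : pderiv 0 h = 4 * D (D (pderiv 2 h)) - 3 * u 2 * pderiv 0 (pderiv 2 h) := by
    have e := congrArg (pderiv 1) E4
    simp only [map_sub, map_add, map_zero, pderiv_mul, comm 0, p3, s3,
      pd_ne 1 3 (by omega), pd_ne 1 2 (by omega)] at e
    have e' := congrArg D E5
    simp only [map_add, map_zero, Derivation.leibniz, smul_eq_mul, D4'] at e'
    linear_combination (-1) * e + (-1) * e'
  have DDh : D (D h) = u 4 * pderiv 2 h - 2 * u 3 * D (pderiv 2 h)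
      - 3 * u 2 * D (D (pderiv 2 h)) := by
    have e := congrArg D E4
    simp only [map_sub, map_add, map_zero, Derivation.leibniz, smul_eq_mul, D3', D_u] at e
    linear_combination (-1) * e
  have E6 : D (D (pderiv 2 h)) = 0 := by
    have e := congrArg (pderiv 3) hh
    simp only [map_sub, map_add, map_zero, pderiv_mul, pderiv_pow, comm 2, comm 1, comm 0, p2, p3,
      hNN _ 3 (by omega), hN 3 (by omega), pd_ne 3 2 (by omega),
      pd_ne 3 4 (by omega), pd_ne 3 5 (by omega), q3] at e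
    have e' := congrArg D E5
    simp only [map_add, map_zero, Derivation.leibniz, smul_eq_mul, D4'] at e'
    have e'' : (((15 : ℕ) : A) * u 2) * D (D (pderiv 2 h)) = 0 := by
      push_cast at e ⊢
      linear_combination e + 2 * DDh + 3 * u 2 * e' + 0 * u 3 * E5
    exact (mul_eq_zero.1 e'').resolve_left
      (mul_ne_zero (Nat.cast_ne_zero.2 (by norm_num)) (u_ne 2))
  have s0 : pderiv 0 (pderiv 2 h) = 0 := by
    have e := congrArg (pderiv 2) E6
    simp only [map_add, map_zero, comm 1, comm 0, s1, s3] at e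
    linear_combination e
  have H2c : pderiv 2 h = C (coeff 0 (pderiv 2 h)) := by
    apply const_of_pd
    intro i
    rcases Nat.lt_or_ge i 3 with hi | hi
    · have : i = 0 ∨ i = 1 ∨ i = 2 := by omega
      rcases this with rfl | rfl | rfl
      · exact s0
      · exact s3
      · exact s1
    · exact hNN 2 i hi
  have DH2 : D (pderiv 2 h) = 0 := by rw [H2c]; exact derivation_C D _
  have H1 : pderiv 1 h = 0 := by rw [DH2] at E5; linear_combination E5
  have H0' : pderiv 0 h = 0 := by rw [H0, DH2, s0, map_zero]; ring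
  refine ⟨coeff 0 (pderiv 2 h), coeff 0 (h - C (coeff 0 (pderiv 2 h)) * u 2), ?_⟩
  have hc : h - C (coeff 0 (pderiv 2 h)) * u 2 = C (coeff 0 (h - C (coeff 0 (pderiv 2 h)) * u 2)) := by
    apply const_of_pd
    intro i
    rw [map_sub, pderiv_mul, pderiv_C, zero_mul, zero_add]
    rcases Nat.lt_or_ge i 3 with hi | hi
    · have : i = 0 ∨ i = 1 ∨ i = 2 := by omega
      rcases this with rfl | rfl | rfl
      · rw [H0', pd_ne 0 2 (by omega)]; ring
      · rw [H1, pd_ne 1 2 (by omega)]; ring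
      · rw [q2, ← H2c]; ring
    · rw [hN i hi, pd_ne i 2 (by omega)]; ring
  rw [← hc]; ring

/-- The full description of `H(g)`. -/
theorem H_le : H g ≤ Submodule.span ℝ {f, u 2, 1} := by
  intro h hh
  have hh' : jprod h g = 0 := hh
  have h5 := order_lt h hh'
  obtain ⟨al, hal⟩ : ∃ al : ℝ, pderiv 4 h = C al * u 2 := by
    by_cases h4 : pderiv 4 h = 0
    · exact ⟨0, by rw [h4]; simp⟩
    · have e1 := E1 3 (by omega) h hh' (fun i hi => h5 i (by omega))
      obtain ⟨k, al, hk, _, ha⟩ := lemA _ h4 3 e1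
      have : k = 1 := by omega
      subst this
      exact ⟨al, by rw [ha, pow_one]⟩
  have hfm : f ∈ H g := jprod_f
  have hh2 : h - al • f ∈ H g := (H g).sub_mem hh ((H g).smul_mem _ hfm)
  have hh2' : jprod (h - al • f) g = 0 := hh2
  have p4 : pderiv 4 f = u 2 := by
    rw [f, map_add, pderiv_mul, pderiv_pow, pd_self 4, pd_ne 4 3 (by omega),
      pd_ne 4 2 (by omega)]; ring
  have h4 : ∀ j, 4 ≤ j → pderiv j (h - al • f) = 0 := by
    intro j hj
    rw [map_sub, (pderiv j).map_smul]
    rcases Nat.lt_or_ge j 5 with hj5 | hj5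
    · have : j = 4 := by omega
      subst this
      rw [hal, p4, smul_eq_C_mul, sub_self]
    · rw [h5 j hj5, f_bound j hj5, smul_zero, sub_zero]
  have h3 : ∀ j, 3 ≤ j → pderiv j (h - al • f) = 0 := by
    intro j hj
    rcases Nat.lt_or_ge j 4 with hj4 | hj4
    · have : j = 3 := by omega
      subst this
      by_contra hc
      have e1 := E1 2 (by omega) _ hh2' (fun i hi => h4 i (by omega))
      obtain ⟨k, _, hk, _⟩ := lemA _ hc 2 e1
      omega
    · exact h4 j hj4
  obtain ⟨be, ga, hbg⟩ := low_order _ hh2' h3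
  have hfin : h = al • f + be • u 2 + ga • (1 : A) := by
    rw [smul_eq_C_mul (u 2) be, smul_eq_C_mul (1 : A) ga, mul_one]
    linear_combination hbg
  rw [hfin]
  refine Submodule.add_mem _ (Submodule.add_mem _ (Submodule.smul_mem _ _ ?_)
    (Submodule.smul_mem _ _ ?_)) (Submodule.smul_mem _ _ ?_)
  · exact Submodule.subset_span (by simp)
  · exact Submodule.subset_span (by simp)
  · exact Submodule.subset_span (by simp)

theorem main : ∃ n m : ℕ, 1 < m ∧ m < n ∧ ∃ f g : A,
    f ∈ supported ℝ (Set.Iic n) ∧ pderiv n f ≠ 0 ∧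
    g ∈ supported ℝ (Set.Iic m) ∧ pderiv m g ≠ 0 ∧
    jprod f g = 0 ∧ FiniteDimensional ℝ (H g) := by
  refine ⟨4, 3, by omega, by omega, f, g, ?_, ?_, ?_, ?_, jprod_f, ?_⟩
  · rw [f]
    refine Subalgebra.add_mem _ (Subalgebra.mul_mem _ ?_ ?_) (Subalgebra.pow_mem _ ?_ _)
    · exact (X_mem_supported (R := ℝ)).2 (by simp)
    · exact (X_mem_supported (R := ℝ)).2 (by simp)
    · exact (X_mem_supported (R := ℝ)).2 (by simp)
  · rw [f, map_add, pderiv_mul, pderiv_pow, pd_self 4, pd_ne 4 3 (by omega),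
      pd_ne 4 2 (by omega)]
    have : (0 * u 4 + u 2 * 1 + ((2 : ℕ) : A) * u 3 ^ (2 - 1) * 0) = u 2 := by ring
    rw [this]
    exact u_ne 2
  · rw [g]
    refine Subalgebra.mul_mem _ ?_ ?_
    · exact (X_mem_supported (R := ℝ)).2 (by simp)
    · exact (X_mem_supported (R := ℝ)).2 (by simp)
  · rw [g, pderiv_mul, pd_self 3, pd_ne 3 2 (by omega)]
    have : (0 * u 3 + u 2 * 1 : A) = u 2 := by ring
    rw [this]
    exact u_ne 2
  · have : FiniteDimensional ℝ (Submodule.span ℝ ({f, u 2, 1} : Set A)) :=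
      FiniteDimensional.span_of_finite ℝ (by simp)
    exact Submodule.finiteDimensional_of_le H_le

end Pool.Agent.H23.Jet
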