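import Mathlib

set_option autoImplicit false

namespace Pool.Agent.H23.Ker

open MeasureTheory

/-- number of vertices of the theta graph with `m` paths -/
def sz : ℕ → ℕ
  | 0 => 2
  | m + 1 => sz m + 2

def r0 : (m : ℕ) → Fin (sz m)
  | 0 => (0 : Fin 2)
  | m + 1 => (r0 m).succ.succ

def r1 : (m : ℕ) → Fin (sz m)
  | 0 => (1 : Fin 2)
  | m + 1 => (r1 m).succ.succ

/-- oriented edges of the theta graph, with (`β`) or without the edge between the roots -/
def E (β : Bool) : (m : ℕ) → Fin (sz m) → Fin (sz m) → Prop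
  | 0, i, j => β = true ∧ i = (0 : Fin 2) ∧ j = (1 : Fin 2)
  | m + 1, i, j => (i = (0 : Fin (sz m + 2)) ∧ j = (1 : Fin (sz m + 2))) ∨
      (i = (0 : Fin (sz m + 2)) ∧ j = r0 (m + 1)) ∨
      (i = (1 : Fin (sz m + 2)) ∧ j = r1 (m + 1)) ∨
      ∃ i' j' : Fin (sz m), i = i'.succ.succ ∧ j = j'.succ.succ ∧ E β m i' j'

lemma E_lt (β : Bool) (m : ℕ) : ∀ i j : Fin (sz m), E β m i j → i < j := by
  induction m with
  | zero =>
    rintro i j ⟨_, h1, h2⟩
    rw [h1, h2]
    exact Fin.zero_lt_one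
  | succ m ih =>
    rintro i j (⟨h1, h2⟩ | ⟨h1, h2⟩ | ⟨h1, h2⟩ | ⟨i', j', h1, h2, h3⟩)
    · rw [h1, h2]; exact Fin.zero_lt_one
    · rw [h1, h2]; exact Fin.succ_pos _
    · rw [h1, h2]
      show (Fin.succ (0 : Fin (sz m + 1))) < (r1 m).succ.succ
      exact Fin.succ_lt_succ_iff.mpr (Fin.succ_pos _)
    · rw [h1, h2]
      exact Fin.succ_lt_succ_iff.mpr (Fin.succ_lt_succ_iff.mpr (ih _ _ h3))

/-- the theta graph -/
def TG (β : Bool) (m : ℕ) : SimpleGraph (Fin (sz m)) where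
  Adj i j := E β m i j ∨ E β m j i
  symm := ⟨fun _ _ h => h.symm⟩
  loopless := ⟨fun i h => by
    rcases h with h | h
    · exact lt_irrefl _ (E_lt _ _ _ _ h)
    · exact lt_irrefl _ (E_lt _ _ _ _ h)⟩

lemma TG_lt (β : Bool) (m : ℕ) (i j : Fin (sz m)) : (i < j ∧ (TG β m).Adj i j) ↔ E β m i j := by
  constructor
  · rintro ⟨h1, h2 | h2⟩
    · exact h2
    · exact absurd (E_lt _ _ _ _ h2) (lt_asymm h1)
  · intro h
    exact ⟨E_lt _ _ _ _ h, Or.inl h⟩

/-- the product over the edges -/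
def PP {M : Type} [CommMonoid M] (β : Bool) : (m : ℕ) → (Fin (sz m) → Fin (sz m) → M) → M
  | 0, g => if β then g (0 : Fin 2) (1 : Fin 2) else 1
  | m + 1, g => (g (0 : Fin (sz m + 2)) (1 : Fin (sz m + 2)) * g (0 : Fin (sz m + 2)) (r0 (m + 1)) *
      g (1 : Fin (sz m + 2)) (r1 (m + 1))) *
      PP β m (fun i j => g i.succ.succ j.succ.succ)

lemma prod2 {M : Type} [CommMonoid M] {n : ℕ} (G : Fin (n + 2) → M) :
    ∏ i, G i = G 0 * G 1 * ∏ i : Fin n, G i.succ.succ := by
  rw [Fin.prod_univ_succ, Fin.prod_univ_succ, mul_assoc]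
  rfl

lemma prodTwo {M : Type} [CommMonoid M] (G : Fin 2 → Fin 2 → M) :
    ∏ i, ∏ j, G i j = (G 0 0 * G 0 1) * (G 1 0 * G 1 1) := by
  simp only [Fin.prod_univ_two]

lemma s01 {n : ℕ} : (1 : Fin (n + 2)) = Fin.succ (0 : Fin (n + 1)) := rfl

lemma ss0 {n : ℕ} (i : Fin n) : (i.succ.succ : Fin (n + 2)) ≠ 0 := Fin.succ_ne_zero _

lemma ss1 {n : ℕ} (i : Fin n) : (i.succ.succ : Fin (n + 2)) ≠ 1 := by
  rw [s01]; intro h; exact Fin.succ_ne_zero _ (Fin.succ_injective _ h)

lemma n01 {n : ℕ} : (0 : Fin (n + 2)) ≠ 1 := by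
  rw [s01]; exact (Fin.succ_ne_zero _).symm

open Classical in
lemma pite {M : Type} [CommMonoid M] {n : ℕ} (a : Fin n) (F : Fin n → M) :
    ∏ j, (if j = a then F j else 1) = F a := by
  rw [Finset.prod_ite_eq' Finset.univ]
  simp only [Finset.mem_univ, if_true]

open Classical in
lemma prod_E {M : Type} [CommMonoid M] (β : Bool) (m : ℕ) :
    ∀ g : Fin (sz m) → Fin (sz m) → M,
    (∏ i, ∏ j, (if E β m i j then g i j else 1)) = PP β m g := by
  induction m with
  | zero =>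
    intro g
    have h00 : ¬ E β 0 (0 : Fin 2) (0 : Fin 2) := fun h => (show (0 : Fin 2) ≠ 1 by decide) h.2.2
    have h11 : ¬ E β 0 (1 : Fin 2) (1 : Fin 2) := fun h => (show (1 : Fin 2) ≠ 0 by decide) h.2.1
    have h10 : ¬ E β 0 (1 : Fin 2) (0 : Fin 2) := fun h => (show (1 : Fin 2) ≠ 0 by decide) h.2.1
    refine (prodTwo (fun i j : Fin 2 => if E β 0 i j then g i j else 1)).trans ?_
    show ((if E β 0 (0 : Fin 2) (0 : Fin 2) then g (0 : Fin 2) (0 : Fin 2) else 1) *
      (if E β 0 (0 : Fin 2) (1 : Fin 2) then g (0 : Fin 2) (1 : Fin 2) else 1)) *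
      ((if E β 0 (1 : Fin 2) (0 : Fin 2) then g (1 : Fin 2) (0 : Fin 2) else 1) *
      (if E β 0 (1 : Fin 2) (1 : Fin 2) then g (1 : Fin 2) (1 : Fin 2) else 1)) =
      (if β then g (0 : Fin 2) (1 : Fin 2) else 1)
    rw [if_neg h00, if_neg h11, if_neg h10, one_mul, one_mul, mul_one]
    by_cases hβ : β = true
    · rw [if_pos hβ, if_pos]
      exact ⟨hβ, rfl, rfl⟩
    · rw [if_neg hβ, if_neg]
      intro h; exact hβ h.1
  | succ m ih =>
    intro g
    have key : ∀ G : Fin (sz m + 2) → Fin (sz m + 2) → M,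
        (∀ j, G 0 j = (if j = 1 then g (0 : Fin (sz m + 2)) j else 1) *
          (if j = (r0 m).succ.succ then g (0 : Fin (sz m + 2)) j else 1)) →
        (∀ j, G 1 j = (if j = (r1 m).succ.succ then g (1 : Fin (sz m + 2)) j else 1)) →
        (∀ i : Fin (sz m), G i.succ.succ 0 = 1) → (∀ i : Fin (sz m), G i.succ.succ 1 = 1) →
        (∀ i j : Fin (sz m), G i.succ.succ j.succ.succ =
          if E β m i j then g i.succ.succ j.succ.succ else 1) →
        ∏ i, ∏ j, G i j = PP β (m + 1) g := by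
      intro G H1 H2 H3 H4 H5
      have e1 : ∏ j, G 0 j = g (0 : Fin (sz m + 2)) (1 : Fin (sz m + 2)) *
          g (0 : Fin (sz m + 2)) ((r0 m).succ.succ : Fin (sz m + 2)) := by
        rw [Finset.prod_congr rfl (fun j _ => H1 j), Finset.prod_mul_distrib]
        exact congrArg₂ (· * ·) (pite (1 : Fin (sz m + 2)) (fun j => g (0 : Fin (sz m + 2)) j))
          (pite ((r0 m).succ.succ : Fin (sz m + 2)) (fun j => g (0 : Fin (sz m + 2)) j))
      have e2 : ∏ j, G 1 j = g (1 : Fin (sz m + 2)) ((r1 m).succ.succ : Fin (sz m + 2)) := by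
        rw [Finset.prod_congr rfl (fun j _ => H2 j)]
        exact pite ((r1 m).succ.succ : Fin (sz m + 2)) (fun j => g (1 : Fin (sz m + 2)) j)
      rw [prod2 (fun i => ∏ j, G i j), e1, e2]
      have e3 : ∀ i : Fin (sz m), ∏ j, G i.succ.succ j =
          ∏ j : Fin (sz m), (if E β m i j then g i.succ.succ j.succ.succ else 1) := by
        intro i
        rw [prod2, H3, H4, one_mul, one_mul]
        exact Finset.prod_congr rfl (fun j _ => H5 i j)
      rw [Finset.prod_congr rfl (fun i _ => e3 i)]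
      have := ih (fun i j => g i.succ.succ j.succ.succ)
      rw [this]
      rfl
    refine key (fun i j => if E β (m + 1) i j then g i j else 1) ?_ ?_ ?_ ?_ ?_
    · intro j
      show (if E β (m + 1) (0 : Fin (sz m + 2)) j then g (0 : Fin (sz m + 2)) j else 1) = _
      by_cases h1 : j = (1 : Fin (sz m + 2))
      · have h2 : ¬ j = (r0 m).succ.succ := by
          rw [h1]; exact (ss1 _).symm
        rw [if_pos h1, if_neg h2, mul_one, if_pos]
        exact Or.inl ⟨rfl, h1⟩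
      · by_cases h2 : j = (r0 m).succ.succ
        · rw [if_neg h1, if_pos h2, one_mul, if_pos]
          exact Or.inr (Or.inl ⟨rfl, h2⟩)
        · rw [if_neg h1, if_neg h2, one_mul, if_neg]
          rintro (⟨_, h⟩ | ⟨_, h⟩ | ⟨h, _⟩ | ⟨i', j', h, _, _⟩)
          · exact h1 h
          · exact h2 h
          · exact n01 h
          · exact ss0 _ h.symm
    · intro j
      show (if E β (m + 1) (1 : Fin (sz m + 2)) j then g (1 : Fin (sz m + 2)) j else 1) = _
      by_cases h2 : j = (r1 m).succ.succ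
      · rw [if_pos h2, if_pos]
        exact Or.inr (Or.inr (Or.inl ⟨rfl, h2⟩))
      · rw [if_neg h2, if_neg]
        rintro (⟨h, _⟩ | ⟨h, _⟩ | ⟨_, h⟩ | ⟨i', j', h, _, _⟩)
        · exact n01 h.symm
        · exact n01 h.symm
        · exact h2 h
        · exact ss1 _ h.symm
    · intro i
      show (if E β (m + 1) (i.succ.succ : Fin (sz m + 2)) (0 : Fin (sz m + 2)) then _ else _) = _
      rw [if_neg]
      rintro (⟨h, _⟩ | ⟨h, _⟩ | ⟨h, _⟩ | ⟨i', j', _, h, _⟩)
      · exact ss0 _ h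
      · exact ss0 _ h
      · exact ss1 _ h
      · exact ss0 _ h.symm
    · intro i
      show (if E β (m + 1) (i.succ.succ : Fin (sz m + 2)) (1 : Fin (sz m + 2)) then _ else _) = _
      rw [if_neg]
      rintro (⟨h, _⟩ | ⟨h, _⟩ | ⟨h, _⟩ | ⟨i', j', _, h, _⟩)
      · exact ss0 _ h
      · exact ss0 _ h
      · exact ss1 _ h
      · exact ss1 _ h.symm
    · intro i j
      show (if E β (m + 1) (i.succ.succ : Fin (sz m + 2)) (j.succ.succ : Fin (sz m + 2)) then _
        else _) = _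
      by_cases hj : E β m i j
      · rw [if_pos hj, if_pos]
        exact Or.inr (Or.inr (Or.inr ⟨i, j, rfl, rfl, hj⟩))
      · rw [if_neg hj, if_neg]
        rintro (⟨h, _⟩ | ⟨h, _⟩ | ⟨h, _⟩ | ⟨i', j', h, h', h''⟩)
        · exact ss0 _ h
        · exact ss0 _ h
        · exact ss1 _ h
        · have h1 := Fin.succ_injective _ (Fin.succ_injective _ h)
          have h2 := Fin.succ_injective _ (Fin.succ_injective _ h')
          exact hj (by rw [h1, h2]; exact h'')

end Pool.Agent.H23.Ker
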