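import Pool.Agent.H23.KerA

set_option autoImplicit false

namespace Pool.Agent.H23.Ker

open MeasureTheory

variable {Ω : Type} [MeasurableSpace Ω] {μ : Measure Ω} [IsProbabilityMeasure μ]

omit [IsProbabilityMeasure μ] in
lemma meas2 {X : Type} [MeasurableSpace X] {K : Ω → Ω → ENNReal}
    (hK : Measurable (Function.uncurry K)) {f g : X → Ω} (hf : Measurable f) (hg : Measurable g) :
    Measurable (fun x => K (f x) (g x)) := hK.comp (hf.prodMk hg)

lemma lint_cons {n : ℕ} (F : (Fin (n + 1) → Ω) → ENNReal) (hF : Measurable F) :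
    ∫⁻ x, F x ∂(Measure.pi fun _ : Fin (n + 1) => μ) =
      ∫⁻ y, ∫⁻ a, F (Fin.cons a y) ∂μ ∂(Measure.pi fun _ : Fin n => μ) := by
  have h1 := measurePreserving_piFinSuccAbove (fun _ : Fin (n + 1) => μ) 0
  have h2 := h1.symm
  rw [← h2.lintegral_comp hF]
  have h3 := lintegral_prod_symm' (μ := μ) (ν := Measure.pi fun _ : Fin n => μ)
    (fun z : Ω × (Fin n → Ω) => F ((MeasurableEquiv.piFinSuccAbove (fun _ => Ω) 0).symm z))
    (hF.comp h2.measurable)
  refine h3.trans (lintegral_congr fun y => lintegral_congr fun a => ?_)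
  show F (Fin.insertNth 0 a y) = F (Fin.cons a y)
  rw [Fin.insertNth_zero']

lemma lint_cons2 {n : ℕ} (F : (Fin (n + 2) → Ω) → ENNReal) (hF : Measurable F) :
    ∫⁻ x, F x ∂(Measure.pi fun _ : Fin (n + 2) => μ) =
      ∫⁻ y, ∫⁻ b, ∫⁻ a, F (Fin.cons a (Fin.cons b y)) ∂μ ∂μ ∂(Measure.pi fun _ : Fin n => μ) := by
  have hcons : Measurable (fun p : Ω × (Fin (n + 1) → Ω) => (Fin.cons p.1 p.2 : Fin (n + 2) → Ω)) := by
    rw [measurable_pi_iff]
    intro i
    refine Fin.cases ?_ (fun j => ?_) i
    · simpa using measurable_fst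
    · simp only [Fin.cons_succ]
      exact (measurable_pi_apply j).comp measurable_snd
  rw [lint_cons F hF, lint_cons]
  exact (hF.comp hcons).lintegral_prod_left'

/-- paths of length three -/
noncomputable def H3 (μ : Measure Ω) (K : Ω → Ω → ENNReal) (x y : Ω) : ENNReal :=
  ∫⁻ b, ∫⁻ a, K a b * K a x * K b y ∂μ ∂μ

lemma H3_meas (K : Ω → Ω → ENNReal) (hK : Measurable (Function.uncurry K)) :
    Measurable (Function.uncurry (H3 μ K)) := by
  have h1 : Measurable (fun q : (Ω × (Ω × Ω)) × Ω => K q.2 q.1.1 * K q.2 q.1.2.1 * K q.1.1 q.1.2.2) := by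
    have e1 : Measurable (fun q : (Ω × (Ω × Ω)) × Ω => K q.2 q.1.1) :=
      hK.comp (measurable_snd.prodMk (measurable_fst.comp measurable_fst))
    have e2 : Measurable (fun q : (Ω × (Ω × Ω)) × Ω => K q.2 q.1.2.1) :=
      hK.comp (measurable_snd.prodMk (measurable_fst.comp (measurable_snd.comp measurable_fst)))
    have e3 : Measurable (fun q : (Ω × (Ω × Ω)) × Ω => K q.1.1 q.1.2.2) :=
      hK.comp ((measurable_fst.comp measurable_fst).prodMk
        (measurable_snd.comp (measurable_snd.comp measurable_fst)))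
    exact (e1.mul e2).mul e3
  have h2 : Measurable (fun q : Ω × (Ω × Ω) => ∫⁻ a, K a q.1 * K a q.2.1 * K q.1 q.2.2 ∂μ) :=
    h1.lintegral_prod_right'
  exact h2.lintegral_prod_left'

/-- the edge product on points -/
noncomputable def PX (β : Bool) (K : Ω → Ω → ENNReal) (m : ℕ) (x : Fin (sz m) → Ω) : ENNReal :=
  PP β m (fun i j => K (x i) (x j))

lemma PX_meas (β : Bool) (K : Ω → Ω → ENNReal) (hK : Measurable (Function.uncurry K)) (m : ℕ) :
    Measurable (PX β K m) := by
  induction m with
  | zero =>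
    have h1 : Measurable (fun x : Fin (sz 0) → Ω => if β then K (x (0 : Fin 2)) (x (1 : Fin 2)) else 1) := by
      cases β
      · simpa using measurable_const
      · simp only [if_true]
        exact meas2 hK (measurable_pi_apply (0 : Fin 2)) (measurable_pi_apply (1 : Fin 2))
    exact h1
  | succ m ih =>
    have h1 : Measurable (fun x : Fin (sz m + 2) → Ω =>
        (K (x 0) (x 1) * K (x 0) (x (r0 m).succ.succ) * K (x 1) (x (r1 m).succ.succ)) *
        PX β K m (fun i => x i.succ.succ)) := by
      refine Measurable.mul ?_ (ih.comp (measurable_pi_iff.mpr fun i => measurable_pi_apply _))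
      refine Measurable.mul (Measurable.mul ?_ ?_) ?_
      · exact meas2 hK (measurable_pi_apply (0 : Fin (sz m + 2)))
          (measurable_pi_apply (1 : Fin (sz m + 2)))
      · exact meas2 hK (measurable_pi_apply (0 : Fin (sz m + 2)))
          (measurable_pi_apply ((r0 m).succ.succ : Fin (sz m + 2)))
      · exact meas2 hK (measurable_pi_apply (1 : Fin (sz m + 2)))
          (measurable_pi_apply ((r1 m).succ.succ : Fin (sz m + 2)))
    exact h1

theorem theta (β : Bool) (K : Ω → Ω → ENNReal) (hK : Measurable (Function.uncurry K)) (m : ℕ) :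
    ∀ g : Ω → Ω → ENNReal, Measurable (Function.uncurry g) →
    ∫⁻ x, PX β K m x * g (x (r0 m)) (x (r1 m)) ∂(Measure.pi fun _ : Fin (sz m) => μ) =
      ∫⁻ y, ∫⁻ x, (if β then K x y else 1) * H3 μ K x y ^ m * g x y ∂μ ∂μ := by
  induction m with
  | zero =>
    intro g hg
    have hmeas : Measurable (fun x : Fin (0 + 2) → Ω => (if β then K (x 0) (x 1) else 1) *
        g (x 0) (x 1)) := by
      refine Measurable.mul ?_ (meas2 hg (measurable_pi_apply (0 : Fin (0 + 2)))
        (measurable_pi_apply (1 : Fin (0 + 2))))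
      cases β
      · simpa using measurable_const
      · simp only [if_true]
        exact meas2 hK (measurable_pi_apply (0 : Fin (0 + 2)))
          (measurable_pi_apply (1 : Fin (0 + 2)))
    have h1 := lint_cons2 (μ := μ) (n := 0) (fun x => (if β then K (x 0) (x 1) else 1) *
        g (x 0) (x 1)) hmeas
    refine Eq.trans h1 ?_
    have h2 : ∀ y : Fin 0 → Ω, (∫⁻ b, ∫⁻ a, (fun x : Fin (0 + 2) → Ω =>
        (if β then K (x 0) (x 1) else 1) * g (x 0) (x 1)) (Fin.cons a (Fin.cons b y)) ∂μ ∂μ) =
        ∫⁻ y, ∫⁻ x, (if β then K x y else 1) * H3 μ K x y ^ 0 * g x y ∂μ ∂μ := by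
      intro y
      refine lintegral_congr fun b => lintegral_congr fun a => ?_
      rw [pow_zero, mul_one]
      rfl
    rw [lintegral_congr h2, lintegral_const, measure_univ, mul_one]
  | succ m ih =>
    intro g hg
    have hmeas : Measurable (fun x : Fin (sz (m + 1)) → Ω => PX β K (m + 1) x *
        g (x (r0 (m + 1))) (x (r1 (m + 1)))) :=
      (PX_meas β K hK (m + 1)).mul (meas2 hg (measurable_pi_apply (r0 (m + 1)))
        (measurable_pi_apply (r1 (m + 1))))
    have h1 := lint_cons2 (μ := μ) (n := sz m) (fun x => PX β K (m + 1) x *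
      g (x (r0 (m + 1))) (x (r1 (m + 1)))) hmeas
    refine Eq.trans h1 ?_
    have h2 : ∀ y : Fin (sz m) → Ω, (∫⁻ b, ∫⁻ a, (fun x : Fin (sz m + 2) → Ω => PX β K (m + 1) x *
        g (x (r0 (m + 1))) (x (r1 (m + 1)))) (Fin.cons a (Fin.cons b y)) ∂μ ∂μ) =
        PX β K m y * (fun s t => H3 μ K s t * g s t) (y (r0 m)) (y (r1 m)) := by
      intro y
      have e1 : ∀ a b : Ω, (fun x : Fin (sz m + 2) → Ω => PX β K (m + 1) x *
          g (x (r0 (m + 1))) (x (r1 (m + 1)))) (Fin.cons a (Fin.cons b y)) =
          (K a b * K a (y (r0 m)) * K b (y (r1 m))) * (PX β K m y * g (y (r0 m)) (y (r1 m))) := by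
        intro a b
        show ((K a b * K a (y (r0 m)) * K b (y (r1 m))) * PX β K m y) *
          g (y (r0 m)) (y (r1 m)) = _
        ring
      have e2 : ∀ b, (∫⁻ a, (fun x : Fin (sz m + 2) → Ω => PX β K (m + 1) x *
          g (x (r0 (m + 1))) (x (r1 (m + 1)))) (Fin.cons a (Fin.cons b y)) ∂μ) =
          (∫⁻ a, K a b * K a (y (r0 m)) * K b (y (r1 m)) ∂μ) *
            (PX β K m y * g (y (r0 m)) (y (r1 m))) := by
        intro b
        rw [lintegral_congr (fun a => e1 a b), lintegral_mul_const]
        have m1 : Measurable (fun a => K a b) := hK.comp (measurable_id.prodMk measurable_const)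
        have m2 : Measurable (fun a => K a (y (r0 m))) :=
          hK.comp (measurable_id.prodMk measurable_const)
        exact (m1.mul m2).mul measurable_const
      rw [lintegral_congr e2, lintegral_mul_const]
      · show H3 μ K (y (r0 m)) (y (r1 m)) * (PX β K m y * g (y (r0 m)) (y (r1 m))) =
          PX β K m y * (H3 μ K (y (r0 m)) (y (r1 m)) * g (y (r0 m)) (y (r1 m)))
        ring
      · have m1 : Measurable (fun p : Ω × Ω => K p.2 p.1 * K p.2 (y (r0 m)) * K p.1 (y (r1 m))) := by
          refine Measurable.mul (Measurable.mul ?_ ?_) ?_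
          · exact hK.comp (measurable_snd.prodMk measurable_fst)
          · exact hK.comp (measurable_snd.prodMk measurable_const)
          · exact hK.comp (measurable_fst.prodMk measurable_const)
        exact m1.lintegral_prod_right'
    rw [lintegral_congr h2]
    refine (ih (fun s t => H3 μ K s t * g s t) ((H3_meas K hK).mul hg)).trans ?_
    refine lintegral_congr fun b => lintegral_congr fun a => ?_
    show _ * H3 μ K a b ^ m * (H3 μ K a b * g a b) = _ * H3 μ K a b ^ (m + 1) * g a b
    rw [pow_succ]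
    ring

open Classical in
/-- the density of the theta graph -/
theorem theta_density (β : Bool) (K : Ω → Ω → ENNReal) (hK : Measurable (Function.uncurry K))
    (m : ℕ) :
    ∫⁻ x, ∏ i, ∏ j, (if i < j ∧ (TG β m).Adj i j then K (x i) (x j) else 1)
      ∂(Measure.pi fun _ : Fin (sz m) => μ) =
      ∫⁻ y, ∫⁻ x, (if β then K x y else 1) * H3 μ K x y ^ m ∂μ ∂μ := by
  have h1 := theta (μ := μ) β K hK m (fun _ _ => 1) measurable_const
  simp only [mul_one] at h1
  rw [← h1]
  refine lintegral_congr fun x => ?_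
  show _ = PP β m (fun i j => K (x i) (x j))
  rw [← prod_E β m (fun i j => K (x i) (x j))]
  refine Finset.prod_congr rfl fun i _ => Finset.prod_congr rfl fun j _ => ?_
  by_cases h : E β m i j
  · rw [if_pos h, if_pos ((TG_lt β m i j).mpr h)]
  · rw [if_neg h, if_neg (fun e => h ((TG_lt β m i j).mp e))]

end Pool.Agent.H23.Ker
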