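import Pool.Agent.H23.KerB

set_option autoImplicit false

namespace Pool.Agent.H23.Ker

open MeasureTheory Filter Topology

lemma en_sq (V h : ENNReal) : 2 * V * h ≤ h ^ 2 + V ^ 2 := by
  by_cases h1 : h = ⊤
  · rw [h1]; simp
  · by_cases h2 : V = ⊤
    · rw [h2]; simp
    · lift h to NNReal using h1
      lift V to NNReal using h2
      have h3 : 2 * V * h ≤ h ^ 2 + V ^ 2 := by
        have := two_mul_le_add_sq V h
        rwa [add_comm] at this
      exact_mod_cast h3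

lemma en_sq_eq (V h : ENNReal) (hV : V ≠ ⊤) (hh : h ≠ ⊤) (he : 2 * V * h = h ^ 2 + V ^ 2) :
    h = V := by
  lift h to NNReal using hh
  lift V to NNReal using hV
  have h3 : 2 * V * h = h ^ 2 + V ^ 2 := by exact_mod_cast he
  have h4 : (2 : ℝ) * V * h = h ^ 2 + V ^ 2 := by exact_mod_cast h3
  have h5 : ((h : ℝ) - V) ^ 2 = 0 := by nlinarith
  have h6 : (h : ℝ) = V := by
    have := pow_eq_zero_iff (two_ne_zero) |>.mp h5
    linarith
  exact_mod_cast h6

theorem no_kernel {Ω : Type} [MeasurableSpace Ω] (μ : Measure Ω) [IsProbabilityMeasure μ]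
    (K : Ω → Ω → ENNReal) (hK : Measurable (Function.uncurry K))
    (c0 v : ℝ) (hc0 : 0 < c0) (hv : 0 < v) (τ : ℕ → ℝ) (hτ : Tendsto τ atTop (𝓝 0))
    (h0 : ∫⁻ y, ∫⁻ x, K x y ∂μ ∂μ = ENNReal.ofReal c0)
    (h1 : ∫⁻ y, ∫⁻ x, K x y * H3 μ K x y ∂μ ∂μ = ENNReal.ofReal (c0 * v))
    (h2 : ∫⁻ y, ∫⁻ x, K x y * H3 μ K x y ^ 2 ∂μ ∂μ = ENNReal.ofReal (c0 * v ^ 2))
    (hm : ∀ m, ∫⁻ y, ∫⁻ x, H3 μ K x y ^ m ∂μ ∂μ ≤ ENNReal.ofReal (v ^ m * τ m)) : False := by
  have hH := H3_meas (μ := μ) K hK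
  let k2 : Ω × Ω → ENNReal := fun z => K z.1 z.2
  let g2 : Ω × Ω → ENNReal := fun z => H3 μ K z.1 z.2
  have hk2 : Measurable k2 := hK
  have hg2 : Measurable g2 := hH
  let R : Measure (Ω × Ω) := (μ.prod μ).withDensity k2
  have e0 : R Set.univ = ENNReal.ofReal c0 := by
    show ((μ.prod μ).withDensity k2) Set.univ = _
    rw [withDensity_apply _ MeasurableSet.univ, setLIntegral_univ,
      lintegral_prod_symm' _ hk2]
    exact h0
  have e1 : ∫⁻ z, g2 z ∂(R) = ENNReal.ofReal (c0 * v) := by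
    show ∫⁻ z, g2 z ∂((μ.prod μ).withDensity k2) = _
    rw [lintegral_withDensity_eq_lintegral_mul _ hk2 hg2,
      lintegral_prod_symm' _ (hk2.mul hg2)]
    exact h1
  have e2 : ∫⁻ z, g2 z ^ 2 ∂(R) = ENNReal.ofReal (c0 * v ^ 2) := by
    show ∫⁻ z, g2 z ^ 2 ∂((μ.prod μ).withDensity k2) = _
    rw [lintegral_withDensity_eq_lintegral_mul _ hk2 (hg2.pow_const 2),
      lintegral_prod_symm' _ (hk2.mul (hg2.pow_const 2))]
    exact h2
  let V : ENNReal := ENNReal.ofReal v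
  have hVt : V ≠ ⊤ := ENNReal.ofReal_ne_top
  have hV0 : V ≠ 0 := (ENNReal.ofReal_pos.mpr hv).ne'
  have i1 : ∫⁻ z, 2 * V * g2 z ∂(R) = ENNReal.ofReal (2 * (c0 * v ^ 2)) := by
    rw [lintegral_const_mul _ hg2, e1]
    show 2 * ENNReal.ofReal v * ENNReal.ofReal (c0 * v) = _
    rw [show (2 : ENNReal) = ENNReal.ofReal 2 by simp, ← ENNReal.ofReal_mul (by norm_num),
      ← ENNReal.ofReal_mul (by positivity)]
    congr 1; ring
  have i2 : ∫⁻ z, (g2 z ^ 2 + V ^ 2) ∂(R) = ENNReal.ofReal (2 * (c0 * v ^ 2)) := by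
    rw [lintegral_add_left (hg2.pow_const 2), e2, lintegral_const, e0]
    show _ + (ENNReal.ofReal v) ^ 2 * ENNReal.ofReal c0 = _
    rw [← ENNReal.ofReal_pow hv.le, ← ENNReal.ofReal_mul (by positivity),
      ← ENNReal.ofReal_add (by positivity) (by positivity)]
    congr 1; ring
  have heq : (fun z => 2 * V * g2 z) =ᵐ[R] (fun z => g2 z ^ 2 + V ^ 2) := by
    refine ae_eq_of_ae_le_of_lintegral_le (Eventually.of_forall fun z => en_sq V (g2 z)) ?_ ?_ ?_
    · rw [i1]; exact ENNReal.ofReal_ne_top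
    · exact ((hg2.pow_const 2).add_const _).aemeasurable
    · rw [i1, i2]
  have hlt : ∀ᵐ z ∂(R), g2 z < ⊤ := ae_lt_top hg2 (by rw [e1]; exact ENNReal.ofReal_ne_top)
  have hV : ∀ᵐ z ∂(R), g2 z = V := by
    filter_upwards [heq, hlt] with z hz hz'
    exact en_sq_eq V (g2 z) hVt hz'.ne hz
  have hnu : (μ.prod μ) {z | g2 z = V} = 0 := by
    have hle : ∀ m, (μ.prod μ) {z | g2 z = V} ≤ ENNReal.ofReal (τ m) := by
      intro m
      have a1 : V ^ m * (μ.prod μ) {z | g2 z = V} ≤ ENNReal.ofReal (v ^ m * τ m) := by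
        calc V ^ m * (μ.prod μ) {z | g2 z = V} ≤ V ^ m * (μ.prod μ) {z | V ^ m ≤ g2 z ^ m} := by
              refine mul_le_mul_right (measure_mono ?_) _
              intro z hz
              have hz' : g2 z = V := hz
              show V ^ m ≤ g2 z ^ m
              rw [hz']
          _ ≤ ∫⁻ z, g2 z ^ m ∂(μ.prod μ) := mul_meas_ge_le_lintegral (hg2.pow_const m) _
          _ = ∫⁻ y, ∫⁻ x, H3 μ K x y ^ m ∂μ ∂μ := by
              rw [lintegral_prod_symm' _ (hg2.pow_const m)]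
          _ ≤ _ := hm m
      rw [ENNReal.ofReal_mul (by positivity), ENNReal.ofReal_pow hv.le] at a1
      exact (ENNReal.mul_le_mul_iff_right (pow_ne_zero m hV0) (ENNReal.pow_ne_top hVt)).mp a1
    have hlim : Tendsto (fun m => ENNReal.ofReal (τ m)) atTop (𝓝 0) := by
      have := ENNReal.tendsto_ofReal hτ
      rwa [ENNReal.ofReal_zero] at this
    exact le_antisymm (ge_of_tendsto' hlim hle) bot_le
  have hR1 : R {z | g2 z = V} = 0 := (withDensity_absolutelyContinuous _ _) hnu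
  have hR2 : R {z | ¬ g2 z = V} = 0 := hV
  have hR3 : R Set.univ = 0 := by
    have : (Set.univ : Set (Ω × Ω)) = {z | g2 z = V} ∪ {z | ¬ g2 z = V} := by
      ext z; simp [em]
    rw [this]
    exact le_antisymm ((measure_union_le _ _).trans (by rw [hR1, hR2, add_zero])) bot_le
  rw [e0] at hR3
  exact absurd (ENNReal.ofReal_eq_zero.mp hR3) (not_le.mpr hc0)

end Pool.Agent.H23.Ker
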