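import Mathlib

set_option autoImplicit false

namespace Pool.Agent.H23.Ker

/-- number of maps `Fin m → V` sending edges of `F` to pairs in the relation `R` -/
noncomputable def hom {m : ℕ} (F : SimpleGraph (Fin m)) (V : Type) (R : V → V → Prop) : ℕ :=
  Nat.card {φ : Fin m → V // ∀ u v, F.Adj u v → R (φ u) (φ v)}

/-- base sign: -1 on the diagonal, 1 off the diagonal -/
def b (s t : Fin 4) : ℝ := if s = t then -1 else 1

/-- tensor power of `b`: a regular symmetric Hadamard matrix of order `4^d` -/
def Bm (d : ℕ) (x y : Fin d → Fin 4) : ℝ := ∏ j, b (x j) (y j)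

/-- the relation `Bm = 1` -/
def Rd (d : ℕ) (x y : Fin d → Fin 4) : Prop := Bm d x y = 1

end Pool.Agent.H23.Ker
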