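import Pool.Agent.H23.KerC
import Pool.Agent.H23.KerDefs

set_option autoImplicit false

namespace Pool.Agent.H23.Ker

open MeasureTheory Filter Topology

/-! the Hadamard matrix -/

lemma hb_symm (s t : Fin 4) : b s t = b t s := by
  unfold b
  by_cases h : s = t
  · rw [h]
  · rw [if_neg h, if_neg (fun e => h e.symm)]

lemma b_row (t : Fin 4) : ∑ s, b s t = 2 := by
  unfold b
  fin_cases t <;> simp [Fin.sum_univ_four] <;> norm_num

lemma b_sq (s t : Fin 4) : ∑ r, b r s * b r t = if s = t then 4 else 0 := by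
  unfold b
  fin_cases s <;> fin_cases t <;> simp [Fin.sum_univ_four] <;> norm_num

lemma hBm_symm (d : ℕ) (x y : Fin d → Fin 4) : Bm d x y = Bm d y x := by
  unfold Bm
  exact Finset.prod_congr rfl fun j _ => hb_symm _ _

lemma Bm_pm (d : ℕ) (x y : Fin d → Fin 4) : Bm d x y = 1 ∨ Bm d x y = -1 := by
  unfold Bm
  refine Finset.prod_induction _ (fun r : ℝ => r = 1 ∨ r = -1) ?_ (Or.inl rfl) ?_
  · rintro a c (rfl | rfl) (rfl | rfl) <;> simp
  · intro j _
    unfold b
    by_cases h : x j = y j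
    · right; rw [if_pos h]
    · left; rw [if_neg h]

lemma Bm_row (d : ℕ) (y : Fin d → Fin 4) : ∑ x, Bm d x y = 2 ^ d := by
  unfold Bm
  have h := Finset.prod_univ_sum (fun _ : Fin d => (Finset.univ : Finset (Fin 4)))
    (fun j s => b s (y j))
  rw [Fintype.piFinset_univ] at h
  rw [← h, Finset.prod_congr rfl (fun j _ => b_row (y j)), Finset.prod_const, Finset.card_univ,
    Fintype.card_fin]

lemma Bm_sq (d : ℕ) (x y : Fin d → Fin 4) :
    ∑ a, Bm d a x * Bm d a y = if x = y then 4 ^ d else 0 := by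
  unfold Bm
  have h := Finset.prod_univ_sum (fun _ : Fin d => (Finset.univ : Finset (Fin 4)))
    (fun j s => b s (x j) * b s (y j))
  rw [Fintype.piFinset_univ] at h
  have h2 : ∀ a : Fin d → Fin 4, (∏ j, b (a j) (x j)) * ∏ j, b (a j) (y j) =
      ∏ j, (b (a j) (x j) * b (a j) (y j)) := fun a => (Finset.prod_mul_distrib).symm
  rw [Finset.sum_congr rfl (fun a _ => h2 a), ← h,
    Finset.prod_congr rfl (fun j _ => b_sq (x j) (y j))]
  by_cases hxy : x = y
  · rw [if_pos hxy, Finset.prod_congr rfl (fun j _ => if_pos (congrFun hxy j)), Finset.prod_const,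
      Finset.card_univ, Fintype.card_fin]
  · rw [if_neg hxy]
    obtain ⟨j, hj⟩ := Function.ne_iff.mp hxy
    exact Finset.prod_eq_zero (Finset.mem_univ j) (if_neg hj)

/-- the spectral parameter -/
noncomputable def rho (d : ℕ) : ℝ := (1 / 2) ^ d

lemma rho_pos (d : ℕ) : 0 < rho d := by unfold rho; positivity

lemma rho_le (d : ℕ) : rho d ≤ 1 := by
  unfold rho; exact pow_le_one₀ (by norm_num) (by norm_num)

lemma rho_two (d : ℕ) : (2 : ℝ) ^ d = 4 ^ d * rho d := by
  unfold rho; rw [← mul_pow]; norm_num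

lemma rho_one (d : ℕ) : (1 : ℝ) = 4 ^ d * rho d ^ 2 := by
  unfold rho; rw [← pow_mul, mul_comm d 2, pow_mul, ← mul_pow]; norm_num

noncomputable def av (d : ℕ) : ℝ := 1 + 3 * rho d + 4 * rho d ^ 2
noncomputable def bv (d : ℕ) : ℝ := 1 + 3 * rho d + 2 * rho d ^ 2

/-- walks of length three, real form -/
lemma walk3 (d : ℕ) (x y : Fin d → Fin 4) :
    ∑ c, ∑ a, (1 + Bm d a c) * (1 + Bm d a x) * (1 + Bm d c y) =
      (4 ^ d) ^ 2 * (bv d + rho d ^ 2 * (1 + Bm d x y)) := by
  have h1 : ∀ c, ∑ a, (1 + Bm d a c) * (1 + Bm d a x) * (1 + Bm d c y) =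
      (4 ^ d + 2 * 2 ^ d + if c = x then 4 ^ d else 0) * (1 + Bm d c y) := by
    intro c
    rw [← Finset.sum_mul]
    congr 1
    have : ∀ a, (1 + Bm d a c) * (1 + Bm d a x) =
        1 + Bm d a c + Bm d a x + Bm d a c * Bm d a x := fun a => by ring
    rw [Finset.sum_congr rfl (fun a _ => this a), Finset.sum_add_distrib, Finset.sum_add_distrib,
      Finset.sum_add_distrib, Bm_row, Bm_row, Bm_sq]
    simp only [Finset.sum_const, Finset.card_univ, Fintype.card_pi_const, Fintype.card_fin,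
      nsmul_eq_mul, mul_one]
    push_cast
    ring
  rw [Finset.sum_congr rfl (fun c _ => h1 c)]
  have h2 : ∀ c, (4 ^ d + 2 * 2 ^ d + if c = x then (4:ℝ) ^ d else 0) * (1 + Bm d c y) =
      (4 ^ d + 2 * 2 ^ d) * (1 + Bm d c y) + if c = x then (4:ℝ) ^ d * (1 + Bm d c y) else 0 := by
    intro c
    by_cases hc : c = x
    · rw [if_pos hc, if_pos hc]; ring
    · rw [if_neg hc, if_neg hc]; ring
  rw [Finset.sum_congr rfl (fun c _ => h2 c), Finset.sum_add_distrib, ← Finset.mul_sum,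
    Finset.sum_add_distrib, Bm_row, Finset.sum_ite_eq' Finset.univ]
  simp only [Finset.sum_const, Finset.card_univ, Fintype.card_pi_const, Fintype.card_fin,
    nsmul_eq_mul, mul_one, Finset.mem_univ, if_true]
  push_cast
  rw [rho_two d]
  unfold bv
  have h3 := rho_one d
  have h4 : (4:ℝ) ^ d * (1 + Bm d x y) = ((4:ℝ) ^ d) ^ 2 * (rho d ^ 2 * (1 + Bm d x y)) := by
    calc (4:ℝ) ^ d * (1 + Bm d x y) = (4:ℝ) ^ d * 1 * (1 + Bm d x y) := by ring
      _ = (4:ℝ) ^ d * (4 ^ d * rho d ^ 2) * (1 + Bm d x y) := by rw [← h3]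
      _ = _ := by ring
  rw [h4]
  ring

lemma edge_val (d : ℕ) (x y : Fin d → Fin 4) (m : ℕ) :
    (1 + Bm d x y) * (bv d + rho d ^ 2 * (1 + Bm d x y)) ^ m = (1 + Bm d x y) * av d ^ m := by
  rcases Bm_pm d x y with h | h
  · rw [h]
    congr 2
    unfold av bv; ring
  · rw [h]; ring

lemma pair_val (d : ℕ) (x y : Fin d → Fin 4) (m : ℕ) :
    (bv d + rho d ^ 2 * (1 + Bm d x y)) ^ m =
      (1 + Bm d x y) / 2 * av d ^ m + (1 - Bm d x y) / 2 * bv d ^ m := by
  rcases Bm_pm d x y with h | h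
  · rw [h]
    have : bv d + rho d ^ 2 * (1 + 1) = av d := by unfold av bv; ring
    rw [this]; ring
  · rw [h]
    have : bv d + rho d ^ 2 * (1 + -1) = bv d := by ring
    rw [this]; ring

lemma sum_edge (d : ℕ) : ∑ y, ∑ x, (1 + Bm d x y) = (4 ^ d) ^ 2 * (1 + rho d) := by
  have h1 : ∀ y, ∑ x, (1 + Bm d x y) = 4 ^ d + 2 ^ d := by
    intro y
    rw [Finset.sum_add_distrib, Bm_row]
    simp only [Finset.sum_const, Finset.card_univ, Fintype.card_pi_const, Fintype.card_fin,
      nsmul_eq_mul, mul_one]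
    push_cast
    ring
  rw [Finset.sum_congr rfl (fun y _ => h1 y)]
  simp only [Finset.sum_const, Finset.card_univ, Fintype.card_pi_const, Fintype.card_fin,
    nsmul_eq_mul]
  push_cast
  rw [rho_two d]
  ring

lemma sum_true (d m : ℕ) : ∑ y, ∑ x, (1 + Bm d x y) * (bv d + rho d ^ 2 * (1 + Bm d x y)) ^ m =
    (4 ^ d) ^ 2 * ((1 + rho d) * av d ^ m) := by
  rw [Finset.sum_congr rfl (fun y _ => Finset.sum_congr rfl (fun x _ => edge_val d x y m)),
    Finset.sum_congr rfl (fun y _ => (Finset.sum_mul _ _ _).symm), ← Finset.sum_mul, sum_edge]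
  ring

lemma sum_false (d m : ℕ) : ∑ y, ∑ x, (bv d + rho d ^ 2 * (1 + Bm d x y)) ^ m =
    (4 ^ d) ^ 2 * ((1 + rho d) / 2 * av d ^ m + (1 - rho d) / 2 * bv d ^ m) := by
  rw [Finset.sum_congr rfl (fun y _ => Finset.sum_congr rfl (fun x _ => pair_val d x y m))]
  have h1 : ∀ y x, (1 + Bm d x y) / 2 * av d ^ m + (1 - Bm d x y) / 2 * bv d ^ m =
      (1 + Bm d x y) * ((av d ^ m - bv d ^ m) / 2) + bv d ^ m := fun y x => by ring
  rw [Finset.sum_congr rfl (fun y _ => Finset.sum_congr rfl (fun x _ => h1 y x)),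
    Finset.sum_congr rfl (fun y _ => Finset.sum_add_distrib), Finset.sum_add_distrib,
    Finset.sum_congr rfl (fun y _ => (Finset.sum_mul _ _ _).symm), ← Finset.sum_mul, sum_edge]
  simp only [Finset.sum_const, Finset.card_univ, Fintype.card_pi_const, Fintype.card_fin,
    nsmul_eq_mul]
  push_cast
  ring

end Pool.Agent.H23.Ker
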