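import Pool.Agent.H23.KerD

set_option autoImplicit false

namespace Pool.Agent.H23.Ker

open MeasureTheory Filter Topology

section fin
variable {V : Type} [Fintype V] [MeasurableSpace V] [MeasurableSingletonClass V]

/-- uniform measure -/
noncomputable def um (V : Type) [Fintype V] [MeasurableSpace V] : Measure V :=
  ((Fintype.card V : ENNReal)⁻¹) • Measure.count

lemma um_single (x : V) : um V {x} = (Fintype.card V : ENNReal)⁻¹ := by
  unfold um
  rw [Measure.smul_apply, Measure.count_singleton, smul_eq_mul, mul_one]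

instance [Nonempty V] : IsProbabilityMeasure (um V) := by
  constructor
  unfold um
  rw [Measure.smul_apply, Measure.count_univ, smul_eq_mul]
  simp only [ENat.card_eq_coe_fintype_card]
  exact ENNReal.inv_mul_cancel (by simp) (by simp)

lemma um_real (f : V → ℝ) (hf : ∀ x, 0 ≤ f x) :
    ∫⁻ x, ENNReal.ofReal (f x) ∂(um V) = ENNReal.ofReal ((Fintype.card V : ℝ)⁻¹ * ∑ x, f x) := by
  rw [lintegral_fintype]
  simp only [um_single]
  rw [← Finset.sum_mul, mul_comm]
  by_cases h : Fintype.card V = 0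
  · haveI : IsEmpty V := Fintype.card_eq_zero_iff.mp h
    simp
  · rw [ENNReal.ofReal_mul (by positivity), ENNReal.ofReal_sum_of_nonneg (fun x _ => hf x),
      ENNReal.ofReal_inv_of_pos (by positivity), ENNReal.ofReal_natCast]

lemma um_pi [Nonempty V] (n : ℕ) (f : (Fin n → V) → ENNReal) :
    ∫⁻ x, f x ∂(Measure.pi fun _ : Fin n => um V) =
      (∑ x, f x) * ((Fintype.card V : ENNReal)⁻¹) ^ n := by
  rw [lintegral_fintype]
  have h1 : ∀ x : Fin n → V, (Measure.pi fun _ : Fin n => um V) {x} =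
      ((Fintype.card V : ENNReal)⁻¹) ^ n := by
    intro x
    rw [← Set.univ_pi_singleton, Measure.pi_pi]
    simp only [um_single, Finset.prod_const, Finset.card_univ, Fintype.card_fin]
  rw [Finset.sum_congr rfl (fun x _ => by rw [h1 x]), Finset.sum_mul]

end fin

/-- ordered pairs of adjacent vertices -/
lemma card_pairs {k : ℕ} (F : SimpleGraph (Fin k)) [DecidableRel F.Adj] :
    (Finset.univ.filter (fun p : Fin k × Fin k => p.1 < p.2 ∧ F.Adj p.1 p.2)).card =
      F.edgeSet.ncard := by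
  classical
  rw [← Set.ncard_coe_finset]
  have hinj : Set.InjOn (fun p : Fin k × Fin k => s(p.1, p.2))
      ((Finset.univ.filter (fun p : Fin k × Fin k => p.1 < p.2 ∧ F.Adj p.1 p.2)) :
        Finset (Fin k × Fin k)) := by
    rintro ⟨a, b⟩ hab ⟨c, d⟩ hcd he
    simp only [Finset.coe_filter, Finset.mem_univ, true_and, Set.mem_setOf_eq] at hab hcd
    rcases Sym2.eq_iff.mp he with ⟨h1, h2⟩ | ⟨h1, h2⟩
    · exact Prod.ext h1 h2
    · exfalso
      have h1' : a = d := h1
      have h2' : b = c := h2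
      have h3 := hab.1
      have h4 := hcd.1
      rw [h1', h2'] at h3
      exact lt_asymm h3 h4
  rw [← Set.ncard_image_of_injOn hinj]
  congr 1
  ext e
  constructor
  · rintro ⟨⟨a, b⟩, hab, rfl⟩
    simp only [Finset.coe_filter, Finset.mem_univ, true_and, Set.mem_setOf_eq] at hab
    exact hab.2
  · intro he
    induction e using Sym2.ind with
    | _ a b =>
      have hab : F.Adj a b := he
      rcases lt_trichotomy a b with h | h | h
      · exact ⟨(a, b), by simpa using ⟨h, hab⟩, rfl⟩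
      · exact absurd h hab.ne
      · exact ⟨(b, a), by simpa using ⟨h, hab.symm⟩, Sym2.eq_swap⟩

open Classical in
lemma sum_hom {S : Type} [CommSemiring S] {k : ℕ} (F : SimpleGraph (Fin k)) {V : Type} [Fintype V]
    (R : V → V → Prop) (hR : ∀ x y, R x y → R y x) :
    ∑ φ : Fin k → V, ∏ i, ∏ j, (if i < j ∧ F.Adj i j then (if R (φ i) (φ j) then (2 : S) else 0)
      else 1) = 2 ^ F.edgeSet.ncard * (hom F V R : S) := by
  have h1 : ∀ φ : Fin k → V, (∏ i, ∏ j, (if i < j ∧ F.Adj i j then
      (if R (φ i) (φ j) then (2 : S) else 0) else 1)) =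
      if (∀ u v, F.Adj u v → R (φ u) (φ v)) then 2 ^ F.edgeSet.ncard else 0 := by
    intro φ
    rw [← Finset.prod_product' Finset.univ Finset.univ (fun i j => (if i < j ∧ F.Adj i j then
      (if R (φ i) (φ j) then (2 : S) else 0) else 1)), Finset.univ_product_univ,
      ← Finset.prod_filter]
    by_cases h : ∀ u v, F.Adj u v → R (φ u) (φ v)
    · rw [if_pos h, ← card_pairs F, ← Finset.prod_const]
      refine Finset.prod_congr rfl fun p hp => ?_
      rw [if_pos (h _ _ (Finset.mem_filter.mp hp).2.2)]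
    · rw [if_neg h]
      push Not at h
      obtain ⟨u, v, huv, hn⟩ := h
      rcases lt_trichotomy u v with hlt | hlt | hlt
      · exact Finset.prod_eq_zero (i := (u, v)) (by simpa using ⟨hlt, huv⟩) (if_neg hn)
      · exact absurd hlt huv.ne
      · exact Finset.prod_eq_zero (i := (v, u)) (by simpa using ⟨hlt, huv.symm⟩)
          (if_neg (fun e => hn (hR _ _ e)))
  rw [Finset.sum_congr rfl (fun φ _ => h1 φ), Finset.sum_ite, Finset.sum_const_zero, add_zero,
    Finset.sum_const, nsmul_eq_mul, mul_comm]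
  congr 2
  unfold hom
  rw [Nat.card_eq_fintype_card, Fintype.card_subtype]

lemma Rd_symm (d : ℕ) (x y : Fin d → Fin 4) (h : Rd d x y) : Rd d y x := by
  unfold Rd at *; rw [hBm_symm]; exact h

open Classical in
lemma ite_Rd (d : ℕ) (x y : Fin d → Fin 4) :
    (if Rd d x y then (2 : ENNReal) else 0) = ENNReal.ofReal (1 + Bm d x y) := by
  unfold Rd
  rcases Bm_pm d x y with h | h
  · rw [if_pos h, h]; norm_num
  · rw [if_neg (by rw [h]; norm_num), h]; norm_num

lemma one_add_Bm_nonneg (d : ℕ) (x y : Fin d → Fin 4) : 0 ≤ 1 + Bm d x y := by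
  rcases Bm_pm d x y with h | h <;> rw [h] <;> norm_num

lemma bv_pos (d : ℕ) : 0 < bv d := by
  unfold bv; have := rho_pos d; positivity

lemma av_pos (d : ℕ) : 0 < av d := by
  unfold av; have := rho_pos d; positivity

lemma card4 (d : ℕ) : (Fintype.card (Fin d → Fin 4) : ℝ) = 4 ^ d := by
  simp

lemma H3_fin (d : ℕ) (x y : Fin d → Fin 4) :
    H3 (um (Fin d → Fin 4)) (fun s t => ENNReal.ofReal (1 + Bm d s t)) x y =
      ENNReal.ofReal (bv d + rho d ^ 2 * (1 + Bm d x y)) := by
  unfold H3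
  have hn := one_add_Bm_nonneg d
  have e1 : ∀ c a : Fin d → Fin 4, ENNReal.ofReal (1 + Bm d a c) * ENNReal.ofReal (1 + Bm d a x) *
      ENNReal.ofReal (1 + Bm d c y) =
      ENNReal.ofReal ((1 + Bm d a c) * (1 + Bm d a x) * (1 + Bm d c y)) := by
    intro c a
    rw [ENNReal.ofReal_mul (mul_nonneg (hn _ _) (hn _ _)), ENNReal.ofReal_mul (hn _ _)]
  have e2 : ∀ c : Fin d → Fin 4, ∫⁻ a, ENNReal.ofReal (1 + Bm d a c) *
      ENNReal.ofReal (1 + Bm d a x) * ENNReal.ofReal (1 + Bm d c y) ∂(um (Fin d → Fin 4)) =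
      ENNReal.ofReal ((Fintype.card (Fin d → Fin 4) : ℝ)⁻¹ *
        ∑ a, (1 + Bm d a c) * (1 + Bm d a x) * (1 + Bm d c y)) := by
    intro c
    rw [lintegral_congr (fun a => e1 c a), um_real]
    intro a
    exact mul_nonneg (mul_nonneg (hn _ _) (hn _ _)) (hn _ _)
  rw [lintegral_congr e2, um_real, card4]
  · rw [← Finset.mul_sum, walk3]
    congr 1
    have : (4 : ℝ) ^ d ≠ 0 := by positivity
    field_simp
  · intro c
    exact mul_nonneg (by positivity) (Finset.sum_nonneg fun a _ =>
      mul_nonneg (mul_nonneg (hn _ _) (hn _ _)) (hn _ _))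

lemma fin_density (β : Bool) (m d : ℕ) :
    (2 : ℝ) ^ (TG β m).edgeSet.ncard * (hom (TG β m) (Fin d → Fin 4) (Rd d) : ℝ) /
      ((4 : ℝ) ^ d) ^ (sz m) =
      if β then (1 + rho d) * av d ^ m else
        (1 + rho d) / 2 * av d ^ m + (1 - rho d) / 2 * bv d ^ m := by
  classical
  have hn := one_add_Bm_nonneg d
  have h := theta_density (μ := um (Fin d → Fin 4)) β
    (fun s t => ENNReal.ofReal (1 + Bm d s t)) Measurable.of_discrete m
  rw [um_pi] at h
  simp only [H3_fin] at h
  have e1 : ∀ φ : Fin (sz m) → (Fin d → Fin 4), (∏ i, ∏ j, (if i < j ∧ (TG β m).Adj i j then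
      ENNReal.ofReal (1 + Bm d (φ i) (φ j)) else 1)) =
      ∏ i, ∏ j, (if i < j ∧ (TG β m).Adj i j then
        (if Rd d (φ i) (φ j) then (2 : ENNReal) else 0) else 1) := by
    intro φ
    simp only [ite_Rd]
  rw [Finset.sum_congr rfl (fun φ _ => e1 φ), sum_hom (TG β m) (Rd d) (Rd_symm d)] at h
  have hb : ∀ x y, 0 ≤ bv d + rho d ^ 2 * (1 + Bm d x y) := fun x y =>
    add_nonneg (bv_pos d).le (mul_nonneg (sq_nonneg _) (hn _ _))
  have hN : (4 : ℝ) ^ d ≠ 0 := by positivity
  have hL : (2 : ENNReal) ^ (TG β m).edgeSet.ncard *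
      (hom (TG β m) (Fin d → Fin 4) (Rd d) : ENNReal) *
      ((Fintype.card (Fin d → Fin 4) : ENNReal)⁻¹) ^ (sz m) =
      ENNReal.ofReal ((2 : ℝ) ^ (TG β m).edgeSet.ncard *
        (hom (TG β m) (Fin d → Fin 4) (Rd d) : ℝ) / ((4 : ℝ) ^ d) ^ (sz m)) := by
    rw [div_eq_mul_inv, ENNReal.ofReal_mul (by positivity), ENNReal.ofReal_mul (by positivity),
      ENNReal.ofReal_pow (by norm_num), ENNReal.ofReal_natCast, ← inv_pow,
      ENNReal.ofReal_pow (by positivity), ← card4, ENNReal.ofReal_inv_of_pos (by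
        rw [card4]; positivity), ENNReal.ofReal_natCast]
    norm_num
  rw [hL] at h
  have hr : (0:ℝ) ≤ 1 - rho d := by linarith [rho_le d]
  have hr' := rho_pos d
  cases β
  · simp only [Bool.false_eq_true, if_false, one_mul] at h ⊢
    have e2 : ∀ y x, ENNReal.ofReal (bv d + rho d ^ 2 * (1 + Bm d x y)) ^ m =
        ENNReal.ofReal ((bv d + rho d ^ 2 * (1 + Bm d x y)) ^ m) := fun y x =>
      (ENNReal.ofReal_pow (hb x y) m).symm
    rw [lintegral_congr (fun y => (lintegral_congr (fun x => e2 y x)).trans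
      (um_real _ (fun x => pow_nonneg (hb x y) m))), um_real _ (fun y => by
        refine mul_nonneg (by positivity) (Finset.sum_nonneg fun x _ => pow_nonneg (hb x y) m)),
      ← Finset.mul_sum, sum_false, card4] at h
    rw [ENNReal.ofReal_eq_ofReal_iff (by positivity) (by
      have := av_pos d
      have := bv_pos d
      positivity)] at h
    rw [h]
    field_simp
  · simp only [if_true] at h ⊢
    have e2 : ∀ y x, ENNReal.ofReal (1 + Bm d x y) *
        ENNReal.ofReal (bv d + rho d ^ 2 * (1 + Bm d x y)) ^ m =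
        ENNReal.ofReal ((1 + Bm d x y) * (bv d + rho d ^ 2 * (1 + Bm d x y)) ^ m) := fun y x => by
      rw [ENNReal.ofReal_mul (hn x y), ENNReal.ofReal_pow (hb x y) m]
    rw [lintegral_congr (fun y => (lintegral_congr (fun x => e2 y x)).trans
      (um_real _ (fun x => mul_nonneg (hn x y) (pow_nonneg (hb x y) m)))), um_real _ (fun y => by
        refine mul_nonneg (by positivity) (Finset.sum_nonneg fun x _ =>
          mul_nonneg (hn x y) (pow_nonneg (hb x y) m))),
      ← Finset.mul_sum, sum_true, card4] at h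
    rw [ENNReal.ofReal_eq_ofReal_iff (by positivity) (by
      have := av_pos d
      positivity)] at h
    rw [h]
    field_simp

end Pool.Agent.H23.Ker
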