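import Pool.Agent.H23.KerE

set_option autoImplicit false

namespace Pool.Agent.H23.Ker

open MeasureTheory Filter Topology

lemma prod_lim (x : ℕ → ℝ) (hx : ∀ i, 0 ≤ x i) (hs : Summable x) :
    ∃ L : ℝ, 1 ≤ L ∧ Tendsto (fun k => ∏ i ∈ Finset.range k, (1 + x i)) atTop (𝓝 L) ∧
      ∀ k, ∏ i ∈ Finset.range k, (1 + x i) ≤ L := by
  have hpos : ∀ k, 0 < ∏ i ∈ Finset.range k, (1 + x i) := fun k =>
    Finset.prod_pos fun i _ => by have := hx i; linarith
  have hmono : Monotone (fun k => ∏ i ∈ Finset.range k, (1 + x i)) := by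
    apply monotone_nat_of_le_succ
    intro k
    rw [Finset.prod_range_succ]
    exact le_mul_of_one_le_right (hpos k).le (by have := hx k; linarith)
  have hbdd : BddAbove (Set.range (fun k => ∏ i ∈ Finset.range k, (1 + x i))) := by
    refine ⟨Real.exp (∑' i, x i), ?_⟩
    rintro _ ⟨k, rfl⟩
    calc ∏ i ∈ Finset.range k, (1 + x i) ≤ ∏ i ∈ Finset.range k, Real.exp (x i) := by
          refine Finset.prod_le_prod (fun i _ => by have := hx i; linarith) (fun i _ => ?_)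
          rw [add_comm]; exact Real.add_one_le_exp _
      _ = Real.exp (∑ i ∈ Finset.range k, x i) := (Real.exp_sum _ _).symm
      _ ≤ _ := Real.exp_le_exp.mpr (hs.sum_le_tsum _ (fun i _ => hx i))
  refine ⟨_, ?_, tendsto_atTop_ciSup hmono hbdd, fun k => le_ciSup hbdd k⟩
  have := le_ciSup hbdd 0
  simpa using this

lemma rho_summable : Summable (fun i : ℕ => rho (i + 1)) := by
  unfold rho
  have h : Summable (fun i : ℕ => ((1 : ℝ) / 2) ^ i) :=
    summable_geometric_of_lt_one (by norm_num) (by norm_num)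
  exact (summable_nat_add_iff 1).mpr h

lemma rho_sq_summable : Summable (fun i : ℕ => rho (i + 1) ^ 2) := by
  refine Summable.of_nonneg_of_le (fun i => sq_nonneg _) (fun i => ?_) rho_summable
  have h1 := rho_pos (i + 1)
  have h2 := rho_le (i + 1)
  nlinarith

lemma lim_vals : ∃ c0 v : ℝ, 0 < c0 ∧ 0 < v ∧
    Tendsto (fun k => ∏ i ∈ Finset.range k, (1 + rho (i + 1))) atTop (𝓝 c0) ∧
    Tendsto (fun k => ∏ i ∈ Finset.range k, av (i + 1)) atTop (𝓝 v) ∧
    ∀ k, ∏ i ∈ Finset.range k, av (i + 1) ≤ v := by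
  obtain ⟨c0, h1, h2, _⟩ := prod_lim (fun i => rho (i + 1)) (fun i => (rho_pos _).le) rho_summable
  obtain ⟨v, h3, h4, h5⟩ := prod_lim (fun i => 3 * rho (i + 1) + 4 * rho (i + 1) ^ 2)
    (fun i => by have := rho_pos (i + 1); positivity)
    ((rho_summable.mul_left 3).add (rho_sq_summable.mul_left 4))
  have e : ∀ k, ∏ i ∈ Finset.range k, (1 + (3 * rho (i + 1) + 4 * rho (i + 1) ^ 2)) =
      ∏ i ∈ Finset.range k, av (i + 1) := fun k => Finset.prod_congr rfl fun i _ => by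
    unfold av; ring
  simp only [e] at h4 h5
  exact ⟨c0, v, by linarith, by linarith, h2, h4, h5⟩

/-- one factor -/
noncomputable def fac (i m : ℕ) : ℝ :=
  (1 + rho (i + 1)) / 2 + (1 - rho (i + 1)) / 2 * (bv (i + 1) / av (i + 1)) ^ m

lemma ratio_lt (d : ℕ) : bv d / av d < 1 := by
  rw [div_lt_one (av_pos d)]
  unfold av bv
  have := rho_pos d
  have : 0 < rho d ^ 2 := by positivity
  linarith

lemma ratio_nonneg (d : ℕ) : 0 ≤ bv d / av d := div_nonneg (bv_pos d).le (av_pos d).le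

lemma fac_nonneg (i m : ℕ) : 0 ≤ fac i m := by
  unfold fac
  have h1 := rho_pos (i + 1)
  have h2 := rho_le (i + 1)
  have h3 := pow_nonneg (ratio_nonneg (i + 1)) m
  have h4 : 0 ≤ (1 - rho (i + 1)) / 2 := by linarith
  have := mul_nonneg h4 h3
  linarith

lemma fac_le (i m : ℕ) : fac i m ≤ 1 := by
  unfold fac
  have h1 := rho_pos (i + 1)
  have h2 := rho_le (i + 1)
  have h3 := pow_le_one₀ (n := m) (ratio_nonneg (i + 1)) (ratio_lt (i + 1)).le
  have h4 : 0 ≤ (1 - rho (i + 1)) / 2 := by linarith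
  have := mul_le_mul_of_nonneg_left h3 h4
  linarith

lemma fac_eq (i m : ℕ) : (1 + rho (i + 1)) / 2 * av (i + 1) ^ m +
    (1 - rho (i + 1)) / 2 * bv (i + 1) ^ m = av (i + 1) ^ m * fac i m := by
  unfold fac
  have h := (pow_pos (av_pos (i + 1)) m).ne'
  rw [div_pow]
  field_simp

lemma fac_tendsto (i : ℕ) : Tendsto (fun m => fac i m) atTop (𝓝 ((1 + rho (i + 1)) / 2)) := by
  unfold fac
  have h := tendsto_pow_atTop_nhds_zero_of_lt_one (ratio_nonneg (i + 1)) (ratio_lt (i + 1))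
  have h2 := (h.const_mul ((1 - rho (i + 1)) / 2)).const_add ((1 + rho (i + 1)) / 2)
  simpa using h2

lemma rho_half (i : ℕ) : rho (i + 1) ≤ 1 / 2 := by
  unfold rho
  rw [pow_succ]
  have : ((1:ℝ) / 2) ^ i ≤ 1 := pow_le_one₀ (by norm_num) (by norm_num)
  linarith

theorem tau_tendsto (v : ℝ) (hv : 0 < v) (hle : ∀ k, ∏ i ∈ Finset.range k, av (i + 1) ≤ v)
    (c : ℕ → ℝ) (hc0 : ∀ m, 0 ≤ c m)
    (hc : ∀ m, Tendsto (fun k => ∏ i ∈ Finset.range k, ((1 + rho (i + 1)) / 2 * av (i + 1) ^ m +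
      (1 - rho (i + 1)) / 2 * bv (i + 1) ^ m)) atTop (𝓝 (c m))) :
    Tendsto (fun m => c m / v ^ m) atTop (𝓝 0) := by
  have hb : ∀ K m, c m / v ^ m ≤ ∏ i ∈ Finset.range K, fac i m := by
    intro K m
    rw [div_le_iff₀ (by positivity)]
    refine le_of_tendsto (hc m) ?_
    filter_upwards [eventually_ge_atTop K] with k hk
    rw [Finset.prod_congr rfl (fun i _ => fac_eq i m), Finset.prod_mul_distrib,
      Finset.prod_pow, mul_comm]
    have h1 : (∏ i ∈ Finset.range k, av (i + 1)) ^ m ≤ v ^ m :=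
      pow_le_pow_left₀ (Finset.prod_nonneg fun i _ => (av_pos _).le) (hle k) m
    have h2 : ∏ i ∈ Finset.range k, fac i m ≤ ∏ i ∈ Finset.range K, fac i m := by
      rw [← Finset.prod_range_mul_prod_Ico _ hk]
      refine mul_le_of_le_one_right (Finset.prod_nonneg fun i _ => fac_nonneg i m) ?_
      exact Finset.prod_le_one (fun i _ => fac_nonneg i m) (fun i _ => fac_le i m)
    exact mul_le_mul h2 h1 (pow_nonneg (Finset.prod_nonneg fun i _ => (av_pos _).le) m)
      (Finset.prod_nonneg fun i _ => fac_nonneg i m)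
  rw [Metric.tendsto_atTop]
  intro ε hε
  obtain ⟨K, hK⟩ := exists_pow_lt_of_lt_one hε (by norm_num : (3 / 4 : ℝ) < 1)
  have hlim : Tendsto (fun m => ∏ i ∈ Finset.range K, fac i m) atTop
      (𝓝 (∏ i ∈ Finset.range K, (1 + rho (i + 1)) / 2)) :=
    tendsto_finset_prod _ (fun i _ => fac_tendsto i)
  have hd : ∏ i ∈ Finset.range K, (1 + rho (i + 1)) / 2 < ε := by
    refine lt_of_le_of_lt ?_ hK
    calc ∏ i ∈ Finset.range K, (1 + rho (i + 1)) / 2 ≤ ∏ i ∈ Finset.range K, (3 / 4 : ℝ) := by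
          refine Finset.prod_le_prod (fun i _ => ?_) (fun i _ => ?_)
          · have := rho_pos (i + 1); linarith
          · have := rho_half i; linarith
      _ = (3 / 4) ^ K := by rw [Finset.prod_const, Finset.card_range]
  obtain ⟨N, hN⟩ := eventually_atTop.mp (hlim.eventually (gt_mem_nhds hd))
  refine ⟨N, fun m hm => ?_⟩
  rw [Real.dist_eq, sub_zero, abs_of_nonneg (div_nonneg (hc0 m) (by positivity))]
  exact lt_of_le_of_lt (hb K m) (hN m hm)

/-! the level structures -/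

/-- level `k` vertex set -/
abbrev VV (k : ℕ) : Type := ∀ i : Fin k, (Fin (i.1 + 1) → Fin 4)

def RR (k : ℕ) (x y : VV k) : Prop := ∀ i : Fin k, Rd (i.1 + 1) (x i) (y i)

lemma RR_symm (k : ℕ) (x y : VV k) (h : RR k x y) : RR k y x := fun i => Rd_symm _ _ _ (h i)

lemma hom_VV (k m : ℕ) (F : SimpleGraph (Fin m)) :
    hom F (VV k) (RR k) = ∏ i ∈ Finset.range k, hom F (Fin (i + 1) → Fin 4) (Rd (i + 1)) := by
  rw [← Fin.prod_univ_eq_prod_range (fun i => hom F (Fin (i + 1) → Fin 4) (Rd (i + 1))) k]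
  unfold hom
  rw [← Nat.card_pi]
  refine Nat.card_congr ⟨fun φ i => ⟨fun u => φ.1 u i, fun u v huv => φ.2 u v huv i⟩,
    fun ψ => ⟨fun u i => (ψ i).1 u, fun u v huv i => (ψ i).2 u v huv⟩, fun φ => rfl, fun ψ => rfl⟩

lemma card_VV (k : ℕ) : (Fintype.card (VV k) : ℝ) = ∏ i ∈ Finset.range k, (4 : ℝ) ^ (i + 1) := by
  rw [← Fin.prod_univ_eq_prod_range (fun i => (4 : ℝ) ^ (i + 1)) k, Fintype.card_pi]
  push_cast
  refine Finset.prod_congr rfl fun i _ => ?_
  simp

lemma level_val (k m : ℕ) (F : SimpleGraph (Fin m)) :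
    (2:ℝ)^(k * F.edgeSet.ncard) * (hom F (VV k) (RR k) : ℝ) / (Fintype.card (VV k) : ℝ)^m =
      ∏ i ∈ Finset.range k, ((2:ℝ)^F.edgeSet.ncard *
        (hom F (Fin (i+1) → Fin 4) (Rd (i+1)) : ℝ) / (4:ℝ)^((i+1)*m)) := by
  rw [hom_VV, card_VV, Finset.prod_div_distrib, Finset.prod_mul_distrib, Finset.prod_const,
    Finset.card_range, ← pow_mul, mul_comm k, ← Finset.prod_pow]
  push_cast
  congr 1
  exact Finset.prod_congr rfl fun i _ => by rw [pow_mul]

end Pool.Agent.H23.Ker
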