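import Pool.Agent.H23.ProjIso

open MeasureTheory Set Metric Filter Topology
open scoped ENNReal NNReal Pointwise

namespace H23Proj

def Bx (a b : Fin 3 → ℝ) : Set E := {x | ∀ i, a i ≤ x i ∧ x i ≤ b i}

lemma mem_Bx {a b : Fin 3 → ℝ} {x : E} : x ∈ Bx a b ↔ ∀ i, a i ≤ x i ∧ x i ≤ b i := Iff.rfl

lemma Bx_eq (a b : Fin 3 → ℝ) : Bx a b = (WithLp.ofLp : E → (Fin 3 → ℝ)) ⁻¹' (Icc a b) := by
  ext x
  rw [mem_Bx, mem_preimage, mem_Icc]
  constructor
  · intro h; exact ⟨fun i => (h i).1, fun i => (h i).2⟩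
  · intro h i; exact ⟨h.1 i, h.2 i⟩

lemma Bx_vol (a b : Fin 3 → ℝ) : volume.real (Bx a b)
    = max (b 0 - a 0) 0 * max (b 1 - a 1) 0 * max (b 2 - a 2) 0 := by
  have h3 := (PiLp.volume_preserving_ofLp (Fin 3)).measure_preimage
      (s := Icc a b) measurableSet_Icc.nullMeasurableSet
  rw [Measure.real, Bx_eq, h3, Real.volume_Icc_pi, Fin.prod_univ_three]
  simp only [ENNReal.toReal_mul, ENNReal.toReal_ofReal']

lemma Bx_compact (a b : Fin 3 → ℝ) : IsCompact (Bx a b) := by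
  have : Bx a b = (WithLp.toLp 2 : (Fin 3 → ℝ) → E) '' (Icc a b) := by
    ext x
    constructor
    · intro h; exact ⟨x.ofLp, ⟨fun i => (h i).1, fun i => (h i).2⟩, rfl⟩
    · rintro ⟨y, ⟨h1, h2⟩, rfl⟩ i; exact ⟨h1 i, h2 i⟩
  rw [this]
  exact isCompact_Icc.image (PiLp.continuous_toLp 2 _)

lemma Bx_convex (a b : Fin 3 → ℝ) : Convex ℝ (Bx a b) := by
  intro x hx y hy s t hs ht hst i
  have h1 := hx i
  have h2 := hy i
  have h3 : (s • x + t • y) i = s * x i + t * y i := rfl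
  rw [h3]
  have ea : s * a i + t * a i = a i := by rw [← add_mul, hst, one_mul]
  have eb : s * b i + t * b i = b i := by rw [← add_mul, hst, one_mul]
  constructor
  · linarith [mul_le_mul_of_nonneg_left h1.1 hs, mul_le_mul_of_nonneg_left h2.1 ht]
  · linarith [mul_le_mul_of_nonneg_left h1.2 hs, mul_le_mul_of_nonneg_left h2.2 ht]

lemma Bx_top (a b : Fin 3 → ℝ) : volume (Bx a b) ≠ ∞ := (Bx_compact a b).measure_lt_top.ne

theorem nsq (x : E) : ‖x‖ ^ 2 = x 0 ^ 2 + x 1 ^ 2 + x 2 ^ 2 := by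
  rw [EuclideanSpace.norm_sq_eq, Fin.sum_univ_three]
  simp

theorem inn (x y : E) : (inner ℝ x y : ℝ) = x 0 * y 0 + x 1 * y 1 + x 2 * y 2 := by
  rw [PiLp.inner_apply, Fin.sum_univ_three]
  simp [mul_comm]

lemma abs_coord_le (x : E) (i : Fin 3) : |x i| ≤ ‖x‖ := by
  apply abs_le_of_sq_le_sq _ (norm_nonneg _)
  rw [nsq]
  fin_cases i
  · show x 0 ^ 2 ≤ _
    nlinarith [sq_nonneg (x 1), sq_nonneg (x 2)]
  · show x 1 ^ 2 ≤ _
    nlinarith [sq_nonneg (x 0), sq_nonneg (x 2)]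
  · show x 2 ^ 2 ≤ _
    nlinarith [sq_nonneg (x 0), sq_nonneg (x 1)]

lemma prod3 {x y z X Y Z : ℝ} (hx : 0 ≤ x) (hy : 0 ≤ y) (hz : 0 ≤ z) (h1 : x ≤ X) (h2 : y ≤ Y)
    (h3 : z ≤ Z) : x * y * z ≤ X * Y * Z := by
  have hX := hx.trans h1
  have hY := hy.trans h2
  exact mul_le_mul (mul_le_mul h1 h2 hy hX) h3 hz (mul_nonneg hX hY)

/-- thickness -/
noncomputable def hh : ℝ := 1 / 100000

lemma hh_pos : 0 < hh := by unfold hh; norm_num
lemma hh_small : hh ≤ 1 / 4 := by unfold hh; norm_num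

noncomputable def bb : Fin 3 → ℝ := ![1, 1, hh]

lemma bb0 : bb 0 = 1 := rfl
lemma bb1 : bb 1 = 1 := rfl
lemma bb2 : bb 2 = hh := rfl

lemma bb_pos (i : Fin 3) : 0 < bb i := by
  fin_cases i
  · exact one_pos
  · exact one_pos
  · exact hh_pos

lemma bb_le (i : Fin 3) : bb i ≤ 1 := by
  fin_cases i
  · exact le_rfl
  · exact le_rfl
  · show hh ≤ 1; linarith [hh_small]

lemma hh_le_bb (i : Fin 3) : hh ≤ bb i := by
  fin_cases i
  · show hh ≤ 1; linarith [hh_small]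
  · show hh ≤ 1; linarith [hh_small]
  · exact le_rfl

/-- the thin box -/
noncomputable def K : Set E := Bx 0 bb

lemma mem_K {x : E} : x ∈ K ↔ ∀ i, 0 ≤ x i ∧ x i ≤ bb i := Iff.rfl

lemma K_vol : volume.real K = hh := by
  unfold K
  rw [Bx_vol, bb0, bb1, bb2]
  simp only [Pi.zero_apply, sub_zero]
  rw [max_eq_left zero_le_one, max_eq_left hh_pos.le]; ring

/-- centre -/
noncomputable def cc : E := !₂[1/2, 1/2, hh/2]

lemma cc_apply (i : Fin 3) : cc i = bb i / 2 := by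
  fin_cases i
  · show (1/2 : ℝ) = 1 / 2; rfl
  · show (1/2 : ℝ) = 1 / 2; rfl
  · show hh/2 = hh / 2; rfl

lemma K_int : (interior K).Nonempty := by
  refine ⟨cc, ?_⟩
  rw [mem_interior_iff_mem_nhds, Metric.mem_nhds_iff]
  refine ⟨hh / 4, by linarith [hh_pos], fun x hx i => ?_⟩
  rw [mem_ball_iff_norm] at hx
  have h1 := abs_coord_le (x - cc) i
  have h2 : (x - cc) i = x i - bb i / 2 := by
    rw [← cc_apply]; rfl
  rw [h2] at h1
  have h3 := abs_le.mp (h1.trans hx.le)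
  have h4 := hh_le_bb i
  have h5 := hh_pos
  show (0:ℝ) ≤ x i ∧ x i ≤ bb i
  constructor <;> linarith [h3.1, h3.2]

lemma cc_mem : cc ∈ K := interior_subset (by
  rw [mem_interior_iff_mem_nhds, Metric.mem_nhds_iff]
  refine ⟨hh / 4, by linarith [hh_pos], fun x hx i => ?_⟩
  rw [mem_ball_iff_norm] at hx
  have h1 := abs_coord_le (x - cc) i
  have h2 : (x - cc) i = x i - bb i / 2 := by
    rw [← cc_apply]; rfl
  rw [h2] at h1
  have h3 := abs_le.mp (h1.trans hx.le)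
  have h4 := hh_le_bb i
  have h5 := hh_pos
  show (0:ℝ) ≤ x i ∧ x i ≤ bb i
  constructor <;> linarith [h3.1, h3.2])

lemma exists_big {u : E} (hu : ‖u‖ = 1) : ∃ i, 1 / 2 ≤ |u i| := by
  by_contra h
  push Not at h
  have h0 := h 0
  have h1 := h 1
  have h2 := h 2
  have h3 := nsq u
  rw [hu] at h3
  rw [abs_lt] at h0 h1 h2
  nlinarith

lemma area_lower {u : E} (hu : ‖u‖ = 1) :
    hh / 2 ≤ volume.real (Ext u K 1) - volume.real K := by
  set K' : Set E := (fun x => -u + x) ⁻¹' K with hK'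
  have hKm : MeasurableSet K := (Bx_compact _ _).measurableSet
  have hK'm : MeasurableSet K' := (measurable_const_add (-u)) hKm
  have hv' : volume.real K' = volume.real K := by
    simp only [Measure.real]
    rw [hK', measure_preimage_add]
  have hfin : volume K ≠ ∞ := Bx_top _ _
  have hfin' : volume K' ≠ ∞ := by rw [hK', measure_preimage_add]; exact hfin
  have h1 : K ∪ K' ⊆ Ext u K 1 := by
    rintro x (hx | hx)
    · exact sub_ext zero_le_one hx
    · exact ⟨-u + x, hx, 1, zero_le_one, le_rfl, by simp⟩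
  have h2 := measureReal_mono (μ := volume) h1 (ext_compact (Bx_compact _ _) 1).measure_lt_top.ne
  have h3 := measureReal_union_add_inter₀ (μ := volume) (s := K) hK'm.nullMeasurableSet hfin hfin'
  have h4 : K ∩ K' ⊆ Bx (fun i => max 0 (u i)) (fun i => min (bb i) (bb i + u i)) := by
    rintro x ⟨hx1, hx2⟩ i
    have h5 := hx1 i
    have h6 : 0 ≤ (-u + x) i ∧ (-u + x) i ≤ bb i := hx2 i
    have h7 : (-u + x) i = -u i + x i := rfl
    rw [h7] at h6
    have h8 : (0:ℝ) ≤ x i := h5.1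
    exact ⟨max_le h8 (by linarith [h6.1]), le_min h5.2 (by linarith [h6.2])⟩
  have h5 := measureReal_mono (μ := volume) h4 (Bx_top _ _)
  rw [Bx_vol] at h5
  have key : ∀ i, min (bb i) (bb i + u i) - max 0 (u i) = bb i - |u i| := by
    intro i
    rcases le_total 0 (u i) with h | h
    · rw [max_eq_right h, min_eq_left (by linarith), abs_of_nonneg h]
    · rw [max_eq_left h, min_eq_right (by linarith), abs_of_nonpos h]; ring
  rw [key 0, key 1, key 2] at h5
  have hm0 : ∀ i, 0 ≤ max (bb i - |u i|) 0 := fun i => le_max_right _ _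
  have hm1 : ∀ i, max (bb i - |u i|) 0 ≤ bb i := fun i =>
    max_le (by linarith [abs_nonneg (u i)]) (bb_pos i).le
  have h6 : max (bb 0 - |u 0|) 0 * max (bb 1 - |u 1|) 0 * max (bb 2 - |u 2|) 0 ≤ hh / 2 := by
    obtain ⟨i, hi⟩ := exists_big hu
    have hm2 : max (bb i - |u i|) 0 ≤ bb i / 2 :=
      max_le (by linarith [bb_le i]) (by linarith [bb_pos i])
    have e : hh / 2 = (1 / 2) * (bb 0 * bb 1 * bb 2) := by rw [bb0, bb1, bb2]; ring
    rw [e]
    fin_cases i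
    · calc _ ≤ (bb 0 / 2) * bb 1 * bb 2 :=
          prod3 (hm0 0) (hm0 1) (hm0 2) hm2 (hm1 1) (hm1 2)
        _ = _ := by ring
    · calc _ ≤ bb 0 * (bb 1 / 2) * bb 2 :=
          prod3 (hm0 0) (hm0 1) (hm0 2) (hm1 0) hm2 (hm1 2)
        _ = _ := by ring
    · calc _ ≤ bb 0 * bb 1 * (bb 2 / 2) :=
          prod3 (hm0 0) (hm0 1) (hm0 2) (hm1 0) (hm1 1) hm2
        _ = _ := by ring
  rw [hv'] at h3
  rw [K_vol] at h3 ⊢
  linarith

lemma area_upper {u : E} (hu : ‖u‖ = 1) :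
    volume.real (Ext u K 1) - volume.real K ≤ 4 * (hh + |u 2|) := by
  have h4 : Ext u K 1 ⊆ Bx (fun i => min 0 (u i)) (fun i => bb i + max 0 (u i)) := by
    rintro x ⟨k, hk, θ, h0, h1, rfl⟩ i
    have h5 : 0 ≤ k i ∧ k i ≤ bb i := hk i
    have h7 : (k + θ • u) i = k i + θ * u i := rfl
    rw [h7]
    rcases le_total 0 (u i) with h | h
    · show min 0 (u i) ≤ _ ∧ _ ≤ bb i + max 0 (u i)
      rw [max_eq_right h, min_eq_left h]
      constructor
      · have := mul_nonneg h0 h; linarith [h5.1]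
      · have := mul_le_mul_of_nonneg_right h1 h; linarith [h5.2]
    · show min 0 (u i) ≤ _ ∧ _ ≤ bb i + max 0 (u i)
      rw [max_eq_left h, min_eq_right h]
      constructor
      · have := mul_le_mul_of_nonpos_right h1 h; linarith [h5.1]
      · have := mul_nonpos_of_nonneg_of_nonpos h0 h; linarith [h5.2]
  have h5 := measureReal_mono (μ := volume) h4 (Bx_top _ _)
  rw [Bx_vol] at h5
  have key : ∀ i, max (bb i + max 0 (u i) - min 0 (u i)) 0 = bb i + |u i| := by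
    intro i
    have := bb_pos i
    rcases le_total 0 (u i) with h | h
    · rw [max_eq_right h, min_eq_left h, abs_of_nonneg h, max_eq_left (by linarith)]; ring
    · rw [max_eq_left h, min_eq_right h, abs_of_nonpos h, max_eq_left (by linarith)]; ring
  rw [key 0, key 1, key 2, bb0, bb1, bb2] at h5
  have hu0 := abs_coord_le u 0
  have hu1 := abs_coord_le u 1
  rw [hu] at hu0 hu1
  have h6 : (1 + |u 0|) * (1 + |u 1|) * (hh + |u 2|) ≤ 2 * 2 * (hh + |u 2|) :=
    prod3 (by positivity) (by positivity) (by have := hh_pos; positivity) (by linarith)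
      (by linarith) le_rfl
  rw [K_vol]
  linarith [hh_pos]

/-- discs in the projection -/
lemma disc {u : E} (hu : ‖u‖ = 1) (w : E) (hw : (inner ℝ u w : ℝ) = 0)
    (hn : ‖w‖ ≤ (hh + |u 2|) / 4) : pr u cc + w ∈ pr u '' K := by
  have hp := hh_pos
  rcases le_total |u 2| hh with h | h
  · refine ⟨cc + w, fun i => ?_, by rw [pr_add, pr_of_perp hw]⟩
    have h1 := abs_le.mp ((abs_coord_le w i).trans hn)
    have h2 : (cc + w) i = bb i / 2 + w i := by rw [← cc_apply]; rfl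
    rw [h2]
    have h3 := hh_le_bb i
    show (0:ℝ) ≤ _ ∧ _
    constructor <;> linarith [h1.1, h1.2]
  · have hu2 : 0 < |u 2| := lt_of_lt_of_le hp h
    have hne : u 2 ≠ 0 := abs_pos.mp hu2
    refine ⟨cc + (w - (w 2 / u 2) • u), ?_, ?_⟩
    · have hn2 : ‖w‖ ≤ |u 2| / 2 := by linarith
      have hw2 : w 0 ^ 2 + w 1 ^ 2 + w 2 ^ 2 ≤ (u 2)^2 / 4 := by
        rw [← nsq]
        have h3 : ‖w‖^2 ≤ (|u 2| / 2)^2 := pow_le_pow_left₀ (norm_nonneg _) hn2 2
        rw [div_pow, sq_abs] at h3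
        linarith
      have hus : u 0 ^ 2 + u 1 ^ 2 + u 2 ^ 2 = 1 := by rw [← nsq, hu]; norm_num
      have hz : ∀ i, |w i - (w 2 / u 2) * u i| ≤ 1 / 2 := by
        intro i
        apply abs_le_of_sq_le_sq _ (by norm_num)
        have h4 : (w i - (w 2 / u 2) * u i) = (w i * u 2 - w 2 * u i) / u 2 := by
          field_simp
        rw [h4, div_pow, div_le_iff₀ (by positivity)]
        have h5 : (w i * u 2 - w 2 * u i)^2 ≤ (w 0 ^ 2 + w 1 ^ 2 + w 2 ^ 2) := by
          have h6 : (w i * u 2 - w 2 * u i)^2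
              ≤ (w 0 ^ 2 + w 1 ^ 2 + w 2 ^ 2) * (u 0 ^ 2 + u 1 ^ 2 + u 2 ^ 2) := by
            fin_cases i
            · show (w 0 * u 2 - w 2 * u 0)^2 ≤ _
              nlinarith [sq_nonneg (w 0 * u 0 + w 2 * u 2), sq_nonneg (w 0 * u 1),
                sq_nonneg (w 1 * u 0), sq_nonneg (w 1 * u 1), sq_nonneg (w 1 * u 2),
                sq_nonneg (w 2 * u 1)]
            · show (w 1 * u 2 - w 2 * u 1)^2 ≤ _
              nlinarith [sq_nonneg (w 1 * u 1 + w 2 * u 2), sq_nonneg (w 0 * u 1),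
                sq_nonneg (w 1 * u 0), sq_nonneg (w 0 * u 0), sq_nonneg (w 0 * u 2),
                sq_nonneg (w 2 * u 0)]
            · show (w 2 * u 2 - w 2 * u 2)^2 ≤ _
              rw [sub_self, zero_pow (by norm_num)]; positivity
          rwa [hus, mul_one] at h6
        linarith
      intro i
      have h2 : (cc + (w - (w 2 / u 2) • u)) i = bb i / 2 + (w i - (w 2 / u 2) * u i) := by
        rw [← cc_apply]; rfl
      rw [h2]
      have h3 := abs_le.mp (hz i)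
      show (0:ℝ) ≤ _ ∧ _
      fin_cases i
      · show (0:ℝ) ≤ 1 / 2 + (w 0 - (w 2 / u 2) * u 0) ∧ 1 / 2 + (w 0 - (w 2 / u 2) * u 0) ≤ 1
        have h4 : -(1/2) ≤ w 0 - (w 2 / u 2) * u 0 ∧ w 0 - (w 2 / u 2) * u 0 ≤ 1/2 := h3
        constructor <;> linarith [h4.1, h4.2]
      · show (0:ℝ) ≤ 1 / 2 + (w 1 - (w 2 / u 2) * u 1) ∧ 1 / 2 + (w 1 - (w 2 / u 2) * u 1) ≤ 1
        have h4 : -(1/2) ≤ w 1 - (w 2 / u 2) * u 1 ∧ w 1 - (w 2 / u 2) * u 1 ≤ 1/2 := h3
        constructor <;> linarith [h4.1, h4.2]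
      · show (0:ℝ) ≤ hh / 2 + (w 2 - (w 2 / u 2) * u 2) ∧ hh / 2 + (w 2 - (w 2 / u 2) * u 2) ≤ hh
        rw [div_mul_cancel₀ _ hne]
        constructor <;> linarith
    · rw [pr_add, pr_sub, pr_smul, pr_u hu, smul_zero, sub_zero, pr_of_perp hw]

lemma proj_near {u : E} (hu : ‖u‖ = 1) : ∀ q ∈ pr u '' K, ‖q - pr u cc‖ ≤ 1 := by
  rintro _ ⟨k, hk, rfl⟩
  rw [← pr_sub]
  refine (norm_pr_le hu _).trans ?_
  have h1 : ∀ i, |(k - cc) i| ≤ 1 / 2 := by
    intro i
    have h2 : (k - cc) i = k i - bb i / 2 := by rw [← cc_apply]; rfl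
    have h3 : 0 ≤ k i ∧ k i ≤ bb i := hk i
    have h4 := bb_le i
    rw [h2, abs_le]
    constructor <;> linarith [h3.1, h3.2]
  have h5 := nsq (k - cc)
  have a0 := sq_le_sq' (abs_le.mp (h1 0)).1 (abs_le.mp (h1 0)).2
  have a1 := sq_le_sq' (abs_le.mp (h1 1)).1 (abs_le.mp (h1 1)).2
  have a2 := sq_le_sq' (abs_le.mp (h1 2)).1 (abs_le.mp (h1 2)).2
  nlinarith [norm_nonneg (k - cc)]

/-! Steiner limit of the box -/

lemma clamp_mem {t : ℝ} (ht : 0 ≤ t) {x : E} {s : Fin 3 → ℝ} (hs : ∀ i, 0 ≤ s i)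
    (hst : s 0 ^ 2 + s 1 ^ 2 + s 2 ^ 2 ≤ t ^ 2)
    (hx : ∀ i, -s i ≤ x i ∧ x i ≤ bb i + s i) : x ∈ K + closedBall (0:E) t := by
  set k : E := !₂[max 0 (min (x 0) (bb 0)), max 0 (min (x 1) (bb 1)), max 0 (min (x 2) (bb 2))]
    with hk
  have hki : ∀ i, k i = max 0 (min (x i) (bb i)) := by
    intro i; fin_cases i <;> rfl
  rw [Set.mem_add]
  refine ⟨k, fun i => ?_, x - k, ?_, by abel⟩
  · rw [hki]
    exact ⟨le_max_left _ _, max_le (bb_pos i).le (min_le_right _ _)⟩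
  · rw [mem_closedBall_zero_iff]
    have h1 : ∀ i, ((x - k) i)^2 ≤ (s i)^2 := by
      intro i
      have h2 : (x - k) i = x i - max 0 (min (x i) (bb i)) := by rw [← hki]; rfl
      rw [h2]
      have h3 := hx i
      have h4 := hs i
      have h5 := bb_pos i
      apply sq_le_sq'
      · rcases le_total (x i) (bb i) with h | h
        · rw [min_eq_left h]
          rcases le_total 0 (x i) with h' | h'
          · rw [max_eq_right h']; linarith
          · rw [max_eq_left h']; linarith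
        · rw [min_eq_right h, max_eq_right h5.le]; linarith
      · rcases le_total (x i) (bb i) with h | h
        · rw [min_eq_left h]
          rcases le_total 0 (x i) with h' | h'
          · rw [max_eq_right h']; linarith
          · rw [max_eq_left h']; linarith
        · rw [min_eq_right h, max_eq_right h5.le]; linarith
    have h6 := nsq (x - k)
    have a0 := h1 0
    have a1 := h1 1
    have a2 := h1 2
    apply le_of_sq_le_sq _ ht
    linarith

lemma steiner_upper {t : ℝ} (ht : 0 < t) :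
    volume.real (K + closedBall (0:E) t) ≤ (1 + 2 * t) * (1 + 2 * t) * (hh + 2 * t) := by
  have h1 : K + closedBall (0:E) t ⊆ Bx (fun _ => -t) (fun i => bb i + t) := by
    intro x hx i
    rw [Set.mem_add] at hx
    obtain ⟨k, hk, v, hv, rfl⟩ := hx
    rw [mem_closedBall_zero_iff] at hv
    have h2 := abs_le.mp ((abs_coord_le v i).trans hv)
    have h3 : 0 ≤ k i ∧ k i ≤ bb i := hk i
    have h4 : (k + v) i = k i + v i := rfl
    rw [h4]
    show -t ≤ _ ∧ _ ≤ bb i + t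
    constructor <;> linarith [h2.1, h2.2, h3.1, h3.2]
  have h5 := measureReal_mono (μ := volume) h1 (Bx_top _ _)
  rw [Bx_vol, bb0, bb1, bb2] at h5
  have hp := hh_pos
  rw [max_eq_left (by linarith), max_eq_left (by linarith)] at h5
  refine h5.trans (le_of_eq (by ring))

lemma steiner_lower {t : ℝ} (ht : 0 < t) :
    hh + 2 * t * (1 + 2 * hh) ≤ volume.real (K + closedBall (0:E) t) := by
  have hp := hh_pos
  set X0 : Set E := Bx ![-t, 0, 0] ![1 + t, 1, hh] with hX0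
  set X1 : Set E := Bx ![0, -t, 0] ![1, 1 + t, hh] with hX1
  set X2 : Set E := Bx ![0, 0, -t] ![1, 1, hh + t] with hX2
  have v0 : volume.real X0 = (1 + 2 * t) * hh := by
    rw [hX0, Bx_vol]
    show max (1 + t - -t) 0 * max ((1:ℝ) - 0) 0 * max (hh - 0) 0 = _
    rw [max_eq_left (by linarith), max_eq_left (by norm_num), max_eq_left (by linarith)]; ring
  have v1 : volume.real X1 = (1 + 2 * t) * hh := by
    rw [hX1, Bx_vol]
    show max ((1:ℝ) - 0) 0 * max (1 + t - -t) 0 * max (hh - 0) 0 = _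
    rw [max_eq_left (by norm_num), max_eq_left (by linarith), max_eq_left (by linarith)]; ring
  have v2 : volume.real X2 = hh + 2 * t := by
    rw [hX2, Bx_vol]
    show max ((1:ℝ) - 0) 0 * max ((1:ℝ) - 0) 0 * max (hh + t - -t) 0 = _
    rw [max_eq_left (by norm_num), max_eq_left (by linarith)]; ring
  have m0 : MeasurableSet X0 := (Bx_compact _ _).measurableSet
  have m1 : MeasurableSet X1 := (Bx_compact _ _).measurableSet
  have m2 : MeasurableSet X2 := (Bx_compact _ _).measurableSet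
  have i01 : X0 ∩ X1 ⊆ K := by
    rintro x ⟨h1, h2⟩ i
    have a1 : (0:ℝ) ≤ x 1 ∧ x 1 ≤ 1 := h1 1
    have a2 : (0:ℝ) ≤ x 2 ∧ x 2 ≤ hh := h1 2
    have a0 : (0:ℝ) ≤ x 0 ∧ x 0 ≤ 1 := h2 0
    fin_cases i
    · exact a0
    · exact a1
    · exact a2
  have i2 : (X0 ∪ X1) ∩ X2 ⊆ K := by
    rintro x ⟨h1 | h1, h2⟩ i
    · have a1 : (0:ℝ) ≤ x 1 ∧ x 1 ≤ 1 := h1 1
      have a2 : (0:ℝ) ≤ x 2 ∧ x 2 ≤ hh := h1 2
      have a0 : (0:ℝ) ≤ x 0 ∧ x 0 ≤ 1 := h2 0
      fin_cases i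
      · exact a0
      · exact a1
      · exact a2
    · have a1 : (0:ℝ) ≤ x 1 ∧ x 1 ≤ 1 := h2 1
      have a2 : (0:ℝ) ≤ x 2 ∧ x 2 ≤ hh := h1 2
      have a0 : (0:ℝ) ≤ x 0 ∧ x 0 ≤ 1 := h2 0
      fin_cases i
      · exact a0
      · exact a1
      · exact a2
  have t0 := Bx_top ![-t, 0, 0] ![1 + t, 1, hh]
  have t1 := Bx_top ![0, -t, 0] ![1, 1 + t, hh]
  have t2 := Bx_top ![0, 0, -t] ![1, 1, hh + t]
  have t01 : volume (X0 ∪ X1) ≠ ∞ :=
    ((measure_union_le _ _).trans_lt (ENNReal.add_lt_top.2 ⟨t0.lt_top, t1.lt_top⟩)).ne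
  have e1 := measureReal_union_add_inter₀ (μ := volume) (s := X0) (t := X1)
    m1.nullMeasurableSet t0 t1
  have e2 := measureReal_union_add_inter₀ (μ := volume) (s := X0 ∪ X1) (t := X2)
    m2.nullMeasurableSet t01 t2
  have l1 := measureReal_mono (μ := volume) i01 (Bx_top _ _)
  have l2 := measureReal_mono (μ := volume) i2 (Bx_top _ _)
  have hsub : X0 ∪ X1 ∪ X2 ⊆ K + closedBall (0:E) t := by
    rintro x ((h | h) | h)
    · refine clamp_mem ht.le (s := ![t, 0, 0]) ?_ ?_ ?_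
      · intro i; fin_cases i
        · exact ht.le
        · exact le_rfl
        · exact le_rfl
      · show t^2 + 0^2 + 0^2 ≤ t^2
        simp
      · have b0 : -t ≤ x 0 ∧ x 0 ≤ 1 + t := h 0
        have b1 : (0:ℝ) ≤ x 1 ∧ x 1 ≤ 1 := h 1
        have b2 : (0:ℝ) ≤ x 2 ∧ x 2 ≤ hh := h 2
        intro i; fin_cases i
        · exact b0
        · show -(0:ℝ) ≤ x 1 ∧ x 1 ≤ 1 + 0
          simpa using b1
        · show -(0:ℝ) ≤ x 2 ∧ x 2 ≤ hh + 0
          simpa using b2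
    · refine clamp_mem ht.le (s := ![0, t, 0]) ?_ ?_ ?_
      · intro i; fin_cases i
        · exact le_rfl
        · exact ht.le
        · exact le_rfl
      · show 0^2 + t^2 + 0^2 ≤ t^2
        simp
      · have b0 : (0:ℝ) ≤ x 0 ∧ x 0 ≤ 1 := h 0
        have b1 : -t ≤ x 1 ∧ x 1 ≤ 1 + t := h 1
        have b2 : (0:ℝ) ≤ x 2 ∧ x 2 ≤ hh := h 2
        intro i; fin_cases i
        · show -(0:ℝ) ≤ x 0 ∧ x 0 ≤ 1 + 0
          simpa using b0
        · exact b1
        · show -(0:ℝ) ≤ x 2 ∧ x 2 ≤ hh + 0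
          simpa using b2
    · refine clamp_mem ht.le (s := ![0, 0, t]) ?_ ?_ ?_
      · intro i; fin_cases i
        · exact le_rfl
        · exact le_rfl
        · exact ht.le
      · show 0^2 + 0^2 + t^2 ≤ t^2
        simp
      · have b0 : (0:ℝ) ≤ x 0 ∧ x 0 ≤ 1 := h 0
        have b1 : (0:ℝ) ≤ x 1 ∧ x 1 ≤ 1 := h 1
        have b2 : -t ≤ x 2 ∧ x 2 ≤ hh + t := h 2
        intro i; fin_cases i
        · show -(0:ℝ) ≤ x 0 ∧ x 0 ≤ 1 + 0
          simpa using b0
        · show -(0:ℝ) ≤ x 1 ∧ x 1 ≤ 1 + 0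
          simpa using b1
        · exact b2
  have hf := measureReal_mono (μ := volume) hsub
    (ball_bdd (Bx_compact _ _) t).measure_lt_top.ne
  rw [K_vol] at l1 l2
  rw [v0, v1] at e1
  rw [v2] at e2
  linarith

lemma steiner_limit : Tendsto (fun t : ℝ =>
    (volume.real (K + closedBall (0:E) t) - volume.real K) / (2 * t)) (𝓝[>] 0)
    (𝓝 (1 + 2 * hh)) := by
  have hup : Tendsto (fun t : ℝ => 1 + 2 * hh + 4 * t + 2 * t * hh + 4 * t^2 + 2 * t * hh * 0)
      (𝓝[>] 0) (𝓝 (1 + 2 * hh)) := by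
    have h1 : Tendsto (fun t : ℝ => 1 + 2 * hh + 4 * t + 2 * t * hh + 4 * t^2 + 2 * t * hh * 0)
        (𝓝 0) (𝓝 (1 + 2 * hh + 4 * 0 + 2 * 0 * hh + 4 * 0^2 + 2 * 0 * hh * 0)) := by
      apply Continuous.tendsto'
      · fun_prop
      · rfl
    have h2 : 1 + 2 * hh + 4 * 0 + 2 * 0 * hh + 4 * 0^2 + 2 * 0 * hh * 0 = 1 + 2 * hh := by ring
    rw [h2] at h1
    exact h1.mono_left nhdsWithin_le_nhds
  refine tendsto_of_tendsto_of_tendsto_of_le_of_le' tendsto_const_nhds hup ?_ ?_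
  · filter_upwards [self_mem_nhdsWithin] with t ht
    have ht0 : (0:ℝ) < t := ht
    have h1 := steiner_lower ht0
    rw [K_vol, le_div_iff₀ (by positivity)]
    linarith
  · filter_upwards [self_mem_nhdsWithin] with t ht
    have ht0 : (0:ℝ) < t := ht
    have h1 := steiner_upper ht0
    rw [K_vol, div_le_iff₀ (by positivity)]
    have hp := hh_pos
    nlinarith [mul_pos ht0 ht0]

end H23Proj
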