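import Mathlib

open MeasureTheory Set Metric Filter Topology
open scoped ENNReal NNReal Pointwise

namespace H23Proj

abbrev E := EuclideanSpace ℝ (Fin 3)

/-- orthogonal projection along `u` -/
noncomputable def pr (u x : E) : E := x - (inner ℝ u x : ℝ) • u

lemma uu {u : E} (hu : ‖u‖ = 1) : (inner ℝ u u : ℝ) = 1 := by
  rw [real_inner_self_eq_norm_sq, hu]; norm_num

lemma pr_cont (u : E) : Continuous (pr u) := by unfold pr; fun_prop

lemma pr_add (u x y : E) : pr u (x + y) = pr u x + pr u y := by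
  unfold pr; rw [inner_add_right, add_smul]; abel

lemma pr_sub (u x y : E) : pr u (x - y) = pr u x - pr u y := by
  unfold pr; rw [inner_sub_right, sub_smul]; abel

lemma pr_smul (u : E) (c : ℝ) (x : E) : pr u (c • x) = c • pr u x := by
  unfold pr; rw [inner_smul_right, smul_sub, smul_smul]

lemma pr_u {u : E} (hu : ‖u‖ = 1) : pr u u = 0 := by
  unfold pr; rw [uu hu]; simp

lemma inner_pr {u : E} (hu : ‖u‖ = 1) (x : E) : (inner ℝ u (pr u x) : ℝ) = 0 := by
  unfold pr; rw [inner_sub_right, inner_smul_right, uu hu]; ring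

lemma pr_decomp (u x : E) : x = pr u x + (inner ℝ u x : ℝ) • u := by unfold pr; abel

lemma pr_of_perp {u x : E} (h : (inner ℝ u x : ℝ) = 0) : pr u x = x := by
  unfold pr; rw [h]; simp

lemma norm_pr_le {u : E} (hu : ‖u‖ = 1) (x : E) : ‖pr u x‖ ≤ ‖x‖ := by
  apply le_of_sq_le_sq _ (norm_nonneg _)
  unfold pr
  rw [norm_sub_sq_real, inner_smul_right, norm_smul, hu, mul_one, real_inner_comm u x,
    Real.norm_eq_abs, sq_abs]
  nlinarith [sq_nonneg (inner ℝ u x : ℝ)]

lemma abs_inner_le {u : E} (hu : ‖u‖ = 1) (x : E) : |(inner ℝ u x : ℝ)| ≤ ‖x‖ := by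
  have := abs_real_inner_le_norm u x
  rwa [hu, one_mul] at this

/-- cylinder over `Q` in direction `u` -/
def Cyl (u : E) (Q : Set E) (I : Set ℝ) : Set E := {x | pr u x ∈ Q ∧ (inner ℝ u x : ℝ) ∈ I}

lemma mem_cyl {u : E} {Q : Set E} {I : Set ℝ} {x : E} :
    x ∈ Cyl u Q I ↔ pr u x ∈ Q ∧ (inner ℝ u x : ℝ) ∈ I := Iff.rfl

lemma meas_inner (u : E) : Measurable (fun x : E => (inner ℝ u x : ℝ)) := by fun_prop

lemma meas_cyl {u : E} {Q : Set E} {I : Set ℝ} (hQ : MeasurableSet Q) (hI : MeasurableSet I) :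
    MeasurableSet (Cyl u Q I) :=
  ((pr_cont u).measurable hQ).inter (meas_inner u hI)

lemma cyl_bdd {u : E} (hu : ‖u‖ = 1) {Q : Set E} {I : Set ℝ} (hQ : Bornology.IsBounded Q)
    (hI : Bornology.IsBounded I) : Bornology.IsBounded (Cyl u Q I) := by
  obtain ⟨R, hR⟩ := hQ.subset_closedBall 0
  obtain ⟨S, hS⟩ := hI.subset_closedBall 0
  refine (isBounded_closedBall (x := (0:E)) (r := R + S)).subset ?_
  rintro x ⟨h1, h2⟩
  have h3 := hR h1
  have h4 := hS h2
  rw [mem_closedBall_zero_iff] at h3 h4 ⊢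
  calc ‖x‖ = ‖pr u x + (inner ℝ u x : ℝ) • u‖ := by rw [← pr_decomp]
    _ ≤ ‖pr u x‖ + ‖(inner ℝ u x : ℝ) • u‖ := norm_add_le _ _
    _ ≤ R + S := by rw [norm_smul, hu, mul_one]; exact add_le_add h3 h4

lemma cyl_formula {u : E} (hu : ‖u‖ = 1) {Q : Set E} (hQ : MeasurableSet Q)
    (hQb : Bornology.IsBounded Q) (I : Set ℝ) (hI : MeasurableSet I) :
    volume (Cyl u Q I) = volume (Cyl u Q (Icc 0 1)) * volume I := by
  obtain ⟨ν, hν⟩ : ∃ ν : Measure ℝ, ∀ I, MeasurableSet I → ν I = volume (Cyl u Q I) := by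
    refine ⟨(volume.restrict (pr u ⁻¹' Q)).map (fun x => (inner ℝ u x : ℝ)), fun I hI => ?_⟩
    rw [Measure.map_apply (meas_inner u) hI, Measure.restrict_apply (meas_inner u hI)]
    congr 1
    ext x
    constructor
    · rintro ⟨h1, h2⟩; exact ⟨h2, h1⟩
    · rintro ⟨h1, h2⟩; exact ⟨h2, h1⟩
  have hinv : ν.IsAddLeftInvariant := by
    rw [← forall_measure_preimage_add_iff]
    intro g A hA
    rw [hν _ hA, hν _ (measurable_const_add g hA)]
    have h1 : Cyl u Q ((fun h => g + h) ⁻¹' A) = (fun x => g • u + x) ⁻¹' Cyl u Q A := by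
      ext x
      rw [mem_preimage, mem_cyl, mem_cyl, pr_add, pr_smul, pr_u hu, smul_zero, zero_add,
        inner_add_right, inner_smul_right, uu hu, mul_one]
      rfl
    rw [h1, measure_preimage_add]
  have hfin : IsFiniteMeasureOnCompacts ν := ⟨fun I hI => by
    rw [hν I hI.measurableSet]
    exact (cyl_bdd hu hQb hI.isBounded).measure_lt_top⟩
  obtain ⟨c, hc⟩ : ∃ c : ℝ≥0, ν = c • (volume : Measure ℝ) :=
    ⟨_, Measure.isAddLeftInvariant_eq_smul ν volume⟩
  rw [← hν I hI, ← hν _ measurableSet_Icc, hc]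
  rw [Measure.smul_apply, Measure.smul_apply, Real.volume_Icc, sub_zero, ENNReal.ofReal_one,
    ENNReal.smul_def, ENNReal.smul_def, smul_eq_mul, smul_eq_mul, mul_one]

lemma cyl_real {u : E} (hu : ‖u‖ = 1) {Q : Set E} (hQ : MeasurableSet Q)
    (hQb : Bornology.IsBounded Q) (I : Set ℝ) (hI : MeasurableSet I) :
    volume.real (Cyl u Q I) = volume.real (Cyl u Q (Icc 0 1)) * volume.real I := by
  simp only [Measure.real]
  rw [cyl_formula hu hQ hQb I hI, ENNReal.toReal_mul]

/-- `K` extended in direction `u` by `s` -/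
def Ext (u : E) (K : Set E) (s : ℝ) : Set E :=
  {x | ∃ k ∈ K, ∃ θ : ℝ, 0 ≤ θ ∧ θ ≤ s ∧ x = k + θ • u}

lemma ext_compact {u : E} {K : Set E} (hK : IsCompact K) (s : ℝ) : IsCompact (Ext u K s) := by
  have : Ext u K s = (fun p : E × ℝ => p.1 + p.2 • u) '' (K ×ˢ Icc 0 s) := by
    ext x; constructor
    · rintro ⟨k, hk, θ, h0, h1, rfl⟩; exact ⟨(k, θ), ⟨hk, h0, h1⟩, rfl⟩
    · rintro ⟨⟨k, θ⟩, ⟨hk, h0, h1⟩, rfl⟩; exact ⟨k, hk, θ, h0, h1, rfl⟩
  rw [this]; exact (hK.prod isCompact_Icc).image (by fun_prop)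

lemma seg_eq (u : E) (K : Set E) : K + segment ℝ 0 u = Ext u K 1 := by
  ext x
  rw [Set.mem_add]
  constructor
  · rintro ⟨k, hk, y, ⟨a, b, ha, hb, hab, rfl⟩, rfl⟩
    exact ⟨k, hk, b, hb, by linarith, by simp⟩
  · rintro ⟨k, hk, θ, h0, h1, rfl⟩
    exact ⟨k, hk, θ • u, ⟨1 - θ, θ, by linarith, h0, by ring, by simp⟩, rfl⟩

lemma ext_mono {u : E} {K : Set E} {s t : ℝ} (h : s ≤ t) : Ext u K s ⊆ Ext u K t := by
  rintro x ⟨k, hk, θ, h0, h1, rfl⟩; exact ⟨k, hk, θ, h0, h1.trans h, rfl⟩

lemma sub_ext {u : E} {K : Set E} {s : ℝ} (h : 0 ≤ s) : K ⊆ Ext u K s :=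
  fun k hk => ⟨k, hk, 0, le_rfl, h, by simp⟩

lemma ext_zero {u : E} {K : Set E} : Ext u K 0 = K := by
  apply Subset.antisymm
  · rintro x ⟨k, hk, θ, h0, h1, rfl⟩
    have : θ = 0 := le_antisymm h1 h0
    rw [this]; simpa using hk
  · exact sub_ext le_rfl

lemma ext_diff {u : E} {K : Set E} (hK : Convex ℝ K) {s : ℝ} (hs : 0 ≤ s) :
    Ext u K (s+1) \ Ext u K s = (fun x => -(s • u) + x) ⁻¹' (Ext u K 1 \ K) := by
  ext x
  simp only [Set.mem_sdiff, Set.mem_preimage]
  constructor
  · rintro ⟨⟨k, hk, θ, h0, h1, rfl⟩, hn⟩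
    have hθ : s < θ := by
      by_contra h
      exact hn ⟨k, hk, θ, h0, not_lt.mp h, rfl⟩
    refine ⟨⟨k, hk, θ - s, by linarith, by linarith, by rw [sub_smul]; abel⟩, fun hmem => ?_⟩
    exact hn ⟨_, hmem, s, hs, le_rfl, by abel⟩
  · rintro ⟨⟨k, hk, θ, h0, h1, hx⟩, hn⟩
    have hx' : x = k + (θ + s) • u := by
      have h2 : x = s • u + (-(s • u) + x) := by abel
      rw [h2, hx, add_smul]; abel
    refine ⟨⟨k, hk, θ + s, by linarith, by linarith, hx'⟩, ?_⟩
    rintro ⟨k', hk', θ', h0', h1', hx''⟩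
    apply hn
    rcases (add_nonneg h0 (sub_nonneg.2 h1')).eq_or_lt with h | h
    · have hθ0 : θ = 0 := by linarith
      rw [hx, hθ0]; simpa using hk
    · have h3 := hK hk hk' (a := (s - θ') / (θ + (s - θ'))) (b := θ / (θ + (s - θ')))
        (div_nonneg (by linarith) h.le) (div_nonneg h0 h.le) (by
          rw [← add_div]; rw [div_eq_one_iff_eq h.ne']; ring)
      have h4 : -(s • u) + x = ((s - θ') / (θ + (s - θ'))) • k + (θ / (θ + (s - θ'))) • k' := by
        have hk1 : k = x - (θ + s) • u := by rw [hx']; abel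
        have hk2 : k' = x - θ' • u := by rw [hx'']; abel
        rw [hk1, hk2]
        have hne := h.ne'
        match_scalars
        · field_simp; ring
        · field_simp; ring
      rw [h4]; exact h3

lemma ext_vol {u : E} {K : Set E} (hK : Convex ℝ K) (hKc : IsCompact K) (n : ℕ) :
    volume.real (Ext u K n) = volume.real K + n * (volume.real (Ext u K 1) - volume.real K) := by
  induction n with
  | zero => simp [ext_zero]
  | succ n ih =>
    have h1 : volume.real (Ext u K (n+1) \ Ext u K n) = volume.real (Ext u K 1 \ K) := by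
      rw [ext_diff hK (Nat.cast_nonneg n)]
      simp only [Measure.real]
      rw [measure_preimage_add]
    have h2 : volume.real (Ext u K (n+1) \ Ext u K n)
        = volume.real (Ext u K (n+1)) - volume.real (Ext u K n) :=
      measureReal_sdiff (ext_mono (by linarith)) (ext_compact hKc _).measurableSet
        (ext_compact hKc _).measure_lt_top.ne
    have h3 : volume.real (Ext u K 1 \ K) = volume.real (Ext u K 1) - volume.real K :=
      measureReal_sdiff (sub_ext zero_le_one) hKc.measurableSet (ext_compact hKc _).measure_lt_top.ne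
    push_cast
    have h4 : volume.real (Ext u K (n+1)) = volume.real (Ext u K n)
        + (volume.real (Ext u K 1) - volume.real K) := by linarith
    rw [h4, ih]; ring

lemma le_zero_of_nat {x C : ℝ} (h : ∀ n : ℕ, n * x ≤ C) : x ≤ 0 := by
  by_contra hx
  push Not at hx
  obtain ⟨n, hn⟩ := exists_nat_gt (C / x)
  have := h n
  rw [div_lt_iff₀ hx] at hn
  linarith

lemma area_eq {u : E} (hu : ‖u‖ = 1) {K : Set E} (hK : Convex ℝ K) (hKc : IsCompact K) :
    volume.real (Ext u K 1) - volume.real K = volume.real (Cyl u (pr u '' K) (Icc 0 1)) := by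
  set A := volume.real (Ext u K 1) - volume.real K with hA
  set a := volume.real (Cyl u (pr u '' K) (Icc 0 1)) with ha
  have ha0 : 0 ≤ a := measureReal_nonneg
  have hPc : IsCompact (pr u '' K) := hKc.image (pr_cont u)
  obtain ⟨R, hR⟩ := hKc.isBounded.subset_closedBall 0
  have hin : ∀ k ∈ K, |(inner ℝ u k : ℝ)| ≤ R := fun k hk => by
    have := hR hk
    rw [mem_closedBall_zero_iff] at this
    exact (abs_inner_le hu k).trans this
  have hlow : ∀ n : ℕ, a * (n - 2 * R) ≤ volume.real K + n * A := by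
    intro n
    rw [← ext_vol hK hKc n]
    have h1 : Cyl u (pr u '' K) (Icc R (n - R)) ⊆ Ext u K n := by
      rintro x ⟨⟨k, hk, hkx⟩, h1, h2⟩
      have h3 := abs_le.mp (hin k hk)
      refine ⟨k, hk, (inner ℝ u x : ℝ) - inner ℝ u k, by linarith [h3.2], by linarith [h3.1], ?_⟩
      rw [sub_smul]
      have h4 := pr_decomp u x
      rw [← hkx] at h4
      conv_lhs => rw [h4]
      unfold pr
      abel
    have h2 := measureReal_mono (μ := volume) h1 (ext_compact hKc _).measure_lt_top.ne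
    rw [cyl_real hu hPc.measurableSet hPc.isBounded _ measurableSet_Icc] at h2
    have h3 : (n:ℝ) - 2 * R ≤ volume.real (Icc R (n - R)) := by
      rw [Real.volume_real_Icc]
      exact le_trans (by linarith) (le_max_left _ _)
    exact (mul_le_mul_of_nonneg_left h3 ha0).trans h2
  have hup : ∀ n : ℕ, volume.real K + n * A ≤ a * (n + 2 * |R|) := by
    intro n
    rw [← ext_vol hK hKc n]
    have h1 : Ext u K n ⊆ Cyl u (pr u '' K) (Icc (-|R|) (n + |R|)) := by
      rintro x ⟨k, hk, θ, h0, h1, rfl⟩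
      have h3 := abs_le.mp ((hin k hk).trans (le_abs_self R))
      refine ⟨⟨k, hk, ?_⟩, ?_⟩
      · rw [pr_add, pr_smul, pr_u hu, smul_zero, add_zero]
      · rw [inner_add_right, inner_smul_right, uu hu]
        constructor <;> linarith [h3.1, h3.2]
    have h2 := measureReal_mono (μ := volume) h1
      (cyl_bdd hu hPc.isBounded isCompact_Icc.isBounded).measure_lt_top.ne
    rw [cyl_real hu hPc.measurableSet hPc.isBounded _ measurableSet_Icc] at h2
    have h3 : volume.real (Icc (-|R|) (n + |R|)) = n + 2 * |R| := by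
      rw [Real.volume_real_Icc, max_eq_left]
      · ring
      · have := abs_nonneg R
        have : (0:ℝ) ≤ n := Nat.cast_nonneg n
        linarith
    rwa [h3] at h2
  have h1 : A - a ≤ 0 := le_zero_of_nat (C := a * (2 * |R|) - volume.real K) (fun n => by
    have := hup n; nlinarith)
  have h2 : a - A ≤ 0 := le_zero_of_nat (C := volume.real K + a * (2 * R)) (fun n => by
    have := hlow n; nlinarith)
  linarith

/-- homothety -/
noncomputable def hom (p : E) (c : ℝ) (y : E) : E := c • (y - p) + p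

lemma hom_vol (p : E) {c : ℝ} (hc : 0 ≤ c) (S : Set E) :
    volume.real (hom p c '' S) = c^3 * volume.real S := by
  have h1 : hom p c '' S = AffineMap.homothety p c '' S := by
    apply image_congr
    intro y _
    rw [AffineMap.homothety_apply]
    rfl
  simp only [Measure.real]
  rw [h1, Measure.addHaar_image_homothety, ENNReal.toReal_mul, finrank_euclideanSpace_fin,
    ENNReal.toReal_ofReal (abs_nonneg _), abs_of_nonneg (by positivity)]

lemma hom_cont (p : E) (c : ℝ) : Continuous (hom p c) := by unfold hom; fun_prop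

lemma pr_hom {u p : E} (hp : (inner ℝ u p : ℝ) = 0) (c : ℝ) (y : E) :
    pr u (hom p c y) = hom p c (pr u y) := by
  unfold hom
  rw [pr_add, pr_smul, pr_sub, pr_of_perp hp]

lemma inner_hom {u p : E} (hp : (inner ℝ u p : ℝ) = 0) (c : ℝ) (y : E) :
    (inner ℝ u (hom p c y) : ℝ) = c * inner ℝ u y := by
  unfold hom
  rw [inner_add_right, inner_smul_right, inner_sub_right, hp]; ring

lemma ball_bdd {P : Set E} (hP : IsCompact P) (t : ℝ) :
    IsCompact (P + closedBall (0:E) t) := hP.add (isCompact_closedBall 0 t)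

lemma upper {u : E} (hu : ‖u‖ = 1) {P : Set E} (hPc : IsCompact P) (hPv : Convex ℝ P)
    (hperp : ∀ q ∈ P, (inner ℝ u q : ℝ) = 0) {p : E} (hp : p ∈ P) {r t : ℝ} (hr : 0 < r)
    (hdisc : ∀ w : E, (inner ℝ u w : ℝ) = 0 → ‖w‖ ≤ r → p + w ∈ P) (ht : 0 < t) :
    volume.real (P + closedBall (0:E) t)
      ≤ 2 * t * (1 + t / r)^3 * volume.real (Cyl u P (Icc 0 1)) := by
  set lam := t / r with hlam
  have hl : 0 < lam := by positivity
  set Q : Set E := hom p (1 + lam) '' P with hQ
  have hQc : IsCompact Q := hPc.image (hom_cont _ _)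
  have h1 : P + closedBall (0:E) t ⊆ Cyl u Q (Icc (-t) t) := by
    rintro x hx
    rw [Set.mem_add] at hx
    obtain ⟨q, hq, b, hb, rfl⟩ := hx
    rw [mem_closedBall_zero_iff] at hb
    refine ⟨?_, ?_⟩
    · rw [pr_add, pr_of_perp (hperp q hq)]
      have hw1 : (inner ℝ u (pr u b) : ℝ) = 0 := inner_pr hu b
      have hw2 : ‖pr u b‖ ≤ t := (norm_pr_le hu b).trans hb
      set w := pr u b
      have hp2 : p + (1 / lam) • w ∈ P := by
        apply hdisc
        · rw [inner_smul_right, hw1, mul_zero]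
        · rw [norm_smul, Real.norm_eq_abs, abs_of_pos (by positivity), hlam]
          calc 1 / (t / r) * ‖w‖ ≤ 1 / (t / r) * t := by gcongr
            _ = r := by field_simp
      have hq' := hPv hq hp2 (a := 1 / (1 + lam)) (b := lam / (1 + lam)) (by positivity)
        (by positivity) (by field_simp)
      refine ⟨_, hq', ?_⟩
      unfold hom
      have : (1 + lam) ≠ 0 := by positivity
      have : lam ≠ 0 := by positivity
      match_scalars
      · field_simp
      · field_simp; ring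
      · field_simp
    · rw [inner_add_right, hperp q hq, zero_add, mem_Icc, ← abs_le]
      exact (abs_inner_le hu b).trans hb
  have h2 : Cyl u Q (Icc 0 1) ⊆ hom p (1 + lam) '' Cyl u P (Icc 0 1) := by
    rintro x ⟨⟨q, hq, hqx⟩, h3, h4⟩
    have hc : (1 + lam) ≠ 0 := by positivity
    have hxy : hom p (1 + lam) (hom p (1 / (1 + lam)) x) = x := by
      unfold hom
      match_scalars
      · field_simp
      · field_simp; ring
    refine ⟨hom p (1 / (1 + lam)) x, ⟨?_, ?_⟩, hxy⟩
    · rw [pr_hom (hperp p hp), ← hqx]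
      have : hom p (1 / (1 + lam)) (hom p (1 + lam) q) = q := by
        unfold hom
        match_scalars
        · field_simp
        · field_simp; ring
      rw [this]; exact hq
    · rw [inner_hom (hperp p hp)]
      constructor
      · positivity
      · calc 1 / (1 + lam) * (inner ℝ u x : ℝ) ≤ 1 / (1 + lam) * 1 := by gcongr
          _ ≤ 1 := by rw [mul_one, div_le_one (by positivity)]; linarith
  have h3 := measureReal_mono (μ := volume) h1
      (cyl_bdd hu hQc.isBounded isCompact_Icc.isBounded).measure_lt_top.ne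
  rw [cyl_real hu hQc.measurableSet hQc.isBounded _ measurableSet_Icc,
    Real.volume_real_Icc, max_eq_left (by linarith)] at h3
  have hfin : volume (hom p (1 + lam) '' Cyl u P (Icc 0 1)) ≠ ∞ := by
    refine (Bornology.IsBounded.measure_lt_top ?_).ne
    have hb : Bornology.IsBounded (Cyl u P (Icc 0 1)) :=
      cyl_bdd hu hPc.isBounded isCompact_Icc.isBounded
    have hb2 : IsCompact (closure (Cyl u P (Icc 0 1))) := hb.isCompact_closure
    exact (hb2.image (hom_cont p (1 + lam))).isBounded.subset (image_mono subset_closure)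
  have h4 := measureReal_mono (μ := volume) h2 hfin
  rw [hom_vol p (by positivity)] at h4
  calc volume.real (P + closedBall (0:E) t)
      ≤ volume.real (Cyl u Q (Icc 0 1)) * (t - -t) := h3
    _ ≤ ((1 + lam)^3 * volume.real (Cyl u P (Icc 0 1))) * (t - -t) :=
        mul_le_mul_of_nonneg_right h4 (by linarith)
    _ = _ := by ring

lemma lower {u : E} (hu : ‖u‖ = 1) {P : Set E} (hPc : IsCompact P)
    (hperp : ∀ q ∈ P, (inner ℝ u q : ℝ) = 0) {p : E} (hp : p ∈ P) {R t : ℝ} (hR : 0 < R)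
    (hPR : ∀ q ∈ P, ‖q - p‖ ≤ R) (ht : 0 < t) :
    2 * t * volume.real (Cyl u P (Icc 0 1)) + t^2 / R * volume.real (Cyl u P (Icc 0 1))
      ≤ volume.real (P + closedBall (0:E) t) := by
  set a := volume.real (Cyl u P (Icc 0 1)) with ha
  have ha0 : 0 ≤ a := measureReal_nonneg
  set mu := t / (2 * R) with hmu
  have hm : 0 < mu := by positivity
  set Q : Set E := hom p (1 + mu) '' P with hQ
  have hQc : IsCompact Q := hPc.image (hom_cont _ _)
  set a' := volume.real (Cyl u Q (Icc 0 1)) with ha'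
  -- a' ≥ (1+mu)^2 a
  have h1 : hom p (1 + mu) '' Cyl u P (Icc 0 1) ⊆ Cyl u Q (Icc 0 (1 + mu)) := by
    rintro _ ⟨y, ⟨h1, h2, h3⟩, rfl⟩
    refine ⟨?_, ?_⟩
    · rw [pr_hom (hperp p hp)]; exact ⟨_, h1, rfl⟩
    · rw [inner_hom (hperp p hp)]
      constructor
      · positivity
      · calc (1 + mu) * (inner ℝ u y : ℝ) ≤ (1 + mu) * 1 := by gcongr
          _ = 1 + mu := mul_one _
  have h2 := measureReal_mono (μ := volume) h1
      (cyl_bdd hu hQc.isBounded isCompact_Icc.isBounded).measure_lt_top.ne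
  rw [hom_vol p (by positivity), cyl_real hu hQc.measurableSet hQc.isBounded _ measurableSet_Icc,
    Real.volume_real_Icc, max_eq_left (by linarith), sub_zero, ← ha, ← ha'] at h2
  have h3 : (1 + 2 * mu) * a ≤ a' := by
    have hpos : (0:ℝ) < 1 + mu := by positivity
    have h4 : (1 + mu)^2 * a ≤ a' := by
      have h5 : ((1 + mu)^2 * a) * (1 + mu) ≤ a' * (1 + mu) := by nlinarith
      exact le_of_mul_le_mul_right h5 hpos
    nlinarith [mul_nonneg (sq_nonneg mu) ha0]
  -- the two pieces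
  set I1 : Set ℝ := Icc (-t) t \ Icc (-(t/2)) (t/2) with hI1
  have hI1m : MeasurableSet I1 := measurableSet_Icc.diff measurableSet_Icc
  have hI1v : volume.real I1 = t := by
    rw [hI1, measureReal_sdiff (Icc_subset_Icc (by linarith) (by linarith)) measurableSet_Icc
      isCompact_Icc.measure_lt_top.ne,
      Real.volume_real_Icc, Real.volume_real_Icc, max_eq_left (by linarith),
      max_eq_left (by linarith)]
    ring
  have hI1b : Bornology.IsBounded I1 := isCompact_Icc.isBounded.subset sdiff_subset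
  have hU1 : volume.real (Cyl u P I1) = a * t := by
    rw [cyl_real hu hPc.measurableSet hPc.isBounded _ hI1m, hI1v]
  have hU2 : volume.real (Cyl u Q (Icc (-(t/2)) (t/2))) = a' * t := by
    rw [cyl_real hu hQc.measurableSet hQc.isBounded _ measurableSet_Icc,
      Real.volume_real_Icc, max_eq_left (by linarith)]
    ring
  have hdisj : Disjoint (Cyl u P I1) (Cyl u Q (Icc (-(t/2)) (t/2))) := by
    rw [Set.disjoint_left]
    rintro x ⟨_, h5⟩ ⟨_, h6⟩
    exact h5.2 h6
  have hunion : volume.real (Cyl u P I1 ∪ Cyl u Q (Icc (-(t/2)) (t/2))) = a * t + a' * t := by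
    rw [measureReal_union hdisj (meas_cyl hQc.measurableSet measurableSet_Icc)
      (cyl_bdd hu hPc.isBounded hI1b).measure_lt_top.ne
      (cyl_bdd hu hQc.isBounded isCompact_Icc.isBounded).measure_lt_top.ne, hU1, hU2]
  have hsub : Cyl u P I1 ∪ Cyl u Q (Icc (-(t/2)) (t/2)) ⊆ P + closedBall (0:E) t := by
    rintro x (⟨h5, h6⟩ | ⟨⟨q, hq, hqx⟩, h6, h7⟩)
    · rw [Set.mem_add]
      refine ⟨pr u x, h5, (inner ℝ u x : ℝ) • u, ?_, (pr_decomp u x).symm⟩
      rw [mem_closedBall_zero_iff, norm_smul, hu, mul_one, Real.norm_eq_abs, abs_le]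
      exact h6.1
    · rw [Set.mem_add]
      refine ⟨q, hq, mu • (q - p) + (inner ℝ u x : ℝ) • u, ?_, ?_⟩
      · rw [mem_closedBall_zero_iff]
        have h8 : ‖mu • (q - p)‖ ≤ t / 2 := by
          rw [norm_smul, Real.norm_eq_abs, abs_of_pos hm, hmu]
          calc t / (2 * R) * ‖q - p‖ ≤ t / (2 * R) * R := by gcongr; exact hPR q hq
            _ = t / 2 := by field_simp
        have h9 : ‖(inner ℝ u x : ℝ) • u‖ ≤ t / 2 := by
          rw [norm_smul, hu, mul_one, Real.norm_eq_abs, abs_le]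
          exact ⟨h6, h7⟩
        calc _ ≤ ‖mu • (q - p)‖ + ‖(inner ℝ u x : ℝ) • u‖ := norm_add_le _ _
          _ ≤ t := by linarith
      · have h10 := pr_decomp u x
        rw [← hqx] at h10
        conv_rhs => rw [h10]
        unfold hom
        match_scalars <;> ring
  have hfinal := measureReal_mono (μ := volume) hsub (ball_bdd hPc t).measure_lt_top.ne
  rw [hunion] at hfinal
  have h11 : t^2 / R * a = 2 * mu * t * a := by
    rw [hmu]; field_simp
  rw [h11]
  nlinarith [mul_le_mul_of_nonneg_right h3 ht.le]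

lemma L_bounds {u : E} (hu : ‖u‖ = 1) {P : Set E} (hPc : IsCompact P) (hPv : Convex ℝ P)
    (hperp : ∀ q ∈ P, (inner ℝ u q : ℝ) = 0) {p : E} (hp : p ∈ P) {r R : ℝ} (hr : 0 < r)
    (hdisc : ∀ w : E, (inner ℝ u w : ℝ) = 0 → ‖w‖ ≤ r → p + w ∈ P) (hR : 0 < R)
    (hPR : ∀ q ∈ P, ‖q - p‖ ≤ R) {L : ℝ}
    (hL : Tendsto (fun t : ℝ => (volume.real (P + closedBall (0:E) t)
      - 2 * t * volume.real (Cyl u P (Icc 0 1))) / (Real.pi * t ^ 2)) (𝓝[>] 0) (𝓝 L)) :
    volume.real (Cyl u P (Icc 0 1)) / (Real.pi * R) ≤ L ∧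
      L ≤ 14 * volume.real (Cyl u P (Icc 0 1)) / (Real.pi * r) := by
  set a := volume.real (Cyl u P (Icc 0 1)) with ha
  have ha0 : 0 ≤ a := measureReal_nonneg
  have hpi := Real.pi_pos
  constructor
  · refine ge_of_tendsto hL ?_
    filter_upwards [self_mem_nhdsWithin] with t ht
    have ht0 : (0:ℝ) < t := ht
    have h1 := lower hu hPc hperp hp hR hPR ht0
    rw [← ha] at h1
    rw [le_div_iff₀ (by positivity)]
    have h2 : a / (Real.pi * R) * (Real.pi * t ^ 2) = t^2 / R * a := by field_simp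
    rw [h2]; linarith
  · refine le_of_tendsto hL ?_
    have hmem : Ioc (0:ℝ) r ∈ 𝓝[>] (0:ℝ) := Ioc_mem_nhdsGT hr
    filter_upwards [hmem] with t ht
    have ht0 : (0:ℝ) < t := ht.1
    have h1 := upper hu hPc hPv hperp hp hr hdisc ht0
    rw [← ha] at h1
    rw [div_le_iff₀ (by positivity)]
    have h2 : 14 * a / (Real.pi * r) * (Real.pi * t ^ 2) = 14 * a * t * (t / r) := by field_simp
    rw [h2]
    have hx0 : 0 ≤ t / r := by positivity
    have hx1 : t / r ≤ 1 := by rw [div_le_one hr]; exact ht.2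
    set x := t / r
    have h3 : (1 + x)^3 - 1 ≤ 7 * x := by nlinarith [mul_nonneg hx0 (sub_nonneg.2 hx1), mul_nonneg (mul_nonneg hx0 hx0) (sub_nonneg.2 hx1)]
    have h4 : 0 ≤ 2 * t * a := by positivity
    nlinarith [mul_le_mul_of_nonneg_left h3 h4]

end H23Proj
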