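import Mathlib

set_option autoImplicit false

namespace Pool.Agent.H23.Ram

open Finset Classical

variable {D : Type}

/-- darts reachable in exactly `n` steps -/
noncomputable def reach (nx : D → Finset D) (e : D) : ℕ → Finset D
  | 0 => {e}
  | n + 1 => (reach nx e n).biUnion nx

/-- number of `n`-step paths from `e` all of whose members (including `e`) avoid `K` -/
noncomputable def tot (nx : D → Finset D) (K : Finset D) : ℕ → D → ℝ
  | 0, e => if e ∈ K then 0 else 1
  | n + 1, e => if e ∈ K then 0 else ∑ x ∈ nx e, tot nx K n x

end Pool.Agent.H23.Ram
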