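import Mathlib
import Pool.Agent.H23.RamDefs

set_option autoImplicit false

namespace Pool.Agent.H23.Ram

open Finset Classical Filter Topology

variable {D : Type}

/-- the averaging operator -/
noncomputable def avg (q : ℕ) (nx : D → Finset D) (f : D → ℝ) : D → ℝ :=
  fun e => (∑ x ∈ nx e, f x) / q

theorem avg_nonneg {q : ℕ} {nx : D → Finset D} {f : D → ℝ} (hf : ∀ x, 0 ≤ f x) (e : D) :
    0 ≤ avg q nx f e :=
  div_nonneg (sum_nonneg fun x _ => hf x) (Nat.cast_nonneg _)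

theorem avg_le_one {q : ℕ} (hq : 2 ≤ q) {nx : D → Finset D} (hcard : ∀ e, (nx e).card = q)
    {f : D → ℝ} (hf : ∀ x, f x ≤ 1) (e : D) : avg q nx f e ≤ 1 := by
  have hq0 : (0 : ℝ) < q := by exact_mod_cast (by omega : 0 < q)
  unfold avg
  rw [div_le_one hq0]
  calc ∑ x ∈ nx e, f x ≤ ∑ x ∈ nx e, (1 : ℝ) := sum_le_sum fun x _ => hf x
    _ = q := by simp [hcard]

theorem iter_nonneg {q : ℕ} {nx : D → Finset D} (n : ℕ) {f : D → ℝ} (hf : ∀ x, 0 ≤ f x) (e : D) :
    0 ≤ (avg q nx)^[n] f e := by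
  induction n generalizing f with
  | zero => exact hf e
  | succ n ih =>
    rw [Function.iterate_succ_apply]
    exact ih (fun x => avg_nonneg hf x)

theorem iter_le_one {q : ℕ} (hq : 2 ≤ q) {nx : D → Finset D} (hcard : ∀ e, (nx e).card = q)
    (n : ℕ) {f : D → ℝ} (hf : ∀ x, f x ≤ 1) (e : D) : (avg q nx)^[n] f e ≤ 1 := by
  induction n generalizing f with
  | zero => exact hf e
  | succ n ih =>
    rw [Function.iterate_succ_apply]
    exact ih (fun x => avg_le_one hq hcard hf x)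

theorem sum_biUnion_le' (s : Finset D) (t : D → Finset D) (f : D → ℝ) (hf : ∀ x, 0 ≤ f x) :
    ∑ x ∈ s.biUnion t, f x ≤ ∑ y ∈ s, ∑ x ∈ t y, f x := by
  induction s using Finset.induction_on with
  | empty => simp
  | insert a s ha ih =>
    rw [biUnion_insert, sum_insert ha]
    have h1 := sum_union_inter (s₁ := t a) (s₂ := s.biUnion t) (f := f)
    have h2 : 0 ≤ ∑ x ∈ t a ∩ s.biUnion t, f x := sum_nonneg fun x _ => hf x
    linarith

theorem lower {q : ℕ} (hq : 2 ≤ q) {nx : D → Finset D} (w : D) (n : ℕ) {f : D → ℝ}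
    (hf : ∀ x, 0 ≤ f x) : (∑ x ∈ reach nx w n, f x) ≤ (q : ℝ) ^ n * (avg q nx)^[n] f w := by
  have hq0 : (0 : ℝ) < q := by exact_mod_cast (by omega : 0 < q)
  induction n generalizing f with
  | zero => simp [reach]
  | succ n ih =>
    have h1 : (∑ x ∈ reach nx w (n + 1), f x) ≤ ∑ y ∈ reach nx w n, ∑ x ∈ nx y, f x :=
      sum_biUnion_le' _ _ _ hf
    have h2 : ∑ y ∈ reach nx w n, ∑ x ∈ nx y, f x = q * ∑ y ∈ reach nx w n, avg q nx f y := by
      rw [mul_sum]
      refine sum_congr rfl fun y _ => ?_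
      unfold avg
      field_simp
    have h3 := ih (f := avg q nx f) (fun x => avg_nonneg hf x)
    rw [Function.iterate_succ_apply, pow_succ]
    calc _ ≤ q * ∑ y ∈ reach nx w n, avg q nx f y := h1.trans (le_of_eq h2)
      _ ≤ q * ((q : ℝ) ^ n * (avg q nx)^[n] (avg q nx f) w) := by gcongr
      _ = _ := by ring

theorem family_le {q : ℕ} (hq : 2 ≤ q) {nx : D → Finset D} (hcard : ∀ e, (nx e).card = q)
    (W : Finset D) (n : ℕ) {f : D → D → ℝ} (hf : ∀ x, ∑ w ∈ W, f w x ≤ 1) (e : D) :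
    ∑ w ∈ W, (avg q nx)^[n] (f w) e ≤ 1 := by
  have hq0 : (0 : ℝ) < q := by exact_mod_cast (by omega : 0 < q)
  induction n generalizing f with
  | zero => exact hf e
  | succ n ih =>
    simp only [Function.iterate_succ_apply]
    refine ih (f := fun w => avg q nx (f w)) (fun x => ?_)
    unfold avg
    rw [← sum_div, sum_comm, div_le_one hq0]
    calc ∑ y ∈ nx x, ∑ w ∈ W, f w y ≤ ∑ y ∈ nx x, (1 : ℝ) := sum_le_sum fun y _ => hf y
      _ = q := by simp [hcard]

theorem reach_add {nx : D → Finset D} (e : D) (a b : ℕ) {x : D} (hx : x ∈ reach nx e (a + b)) :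
    ∃ w ∈ reach nx e a, x ∈ reach nx w b := by
  induction b generalizing x with
  | zero => exact ⟨x, hx, by simp [reach]⟩
  | succ b ih =>
    rw [← add_assoc] at hx
    change x ∈ (reach nx e (a + b)).biUnion nx at hx
    obtain ⟨y, hy, hxy⟩ := mem_biUnion.mp hx
    obtain ⟨w, hw, hyw⟩ := ih hy
    refine ⟨w, hw, ?_⟩
    change x ∈ (reach nx w b).biUnion nx
    exact mem_biUnion.mpr ⟨y, hyw, hxy⟩

/-- points first reached at time `m` -/
noncomputable def fstR (nx : D → Finset D) (e0 : D) (m : ℕ) : Finset D :=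
  reach nx e0 m \ (Finset.range m).biUnion (reach nx e0)

theorem fstR_sub {nx : D → Finset D} {e0 : D} {m : ℕ} {x : D} (hx : x ∈ fstR nx e0 m) :
    x ∈ reach nx e0 m := (mem_sdiff.mp hx).1

theorem fstR_unique {nx : D → Finset D} {e0 : D} {m m' : ℕ} {x : D} (hx : x ∈ fstR nx e0 m)
    (hx' : x ∈ fstR nx e0 m') : m = m' := by
  rcases lt_trichotomy m m' with h | h | h
  · exact absurd (mem_biUnion.mpr ⟨m, Finset.mem_range.mpr h, fstR_sub hx⟩) (mem_sdiff.mp hx').2
  · exact h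
  · exact absurd (mem_biUnion.mpr ⟨m', Finset.mem_range.mpr h, fstR_sub hx'⟩) (mem_sdiff.mp hx).2

theorem card_reach_le_sum {nx : D → Finset D} {e0 : D} (n : ℕ) :
    (reach nx e0 n).card ≤ ∑ m ∈ Finset.range (n + 1), (fstR nx e0 m).card := by
  have h1 : reach nx e0 n ⊆ (Finset.range (n + 1)).biUnion (fstR nx e0) := by
    intro x hx
    have hex : ∃ m, x ∈ reach nx e0 m := ⟨n, hx⟩
    refine mem_biUnion.mpr ⟨Nat.find hex, Finset.mem_range.mpr ?_, ?_⟩
    · have := Nat.find_min' hex hx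
      omega
    · refine mem_sdiff.mpr ⟨Nat.find_spec hex, ?_⟩
      intro hc
      obtain ⟨i, hi, hxi⟩ := mem_biUnion.mp hc
      exact Nat.find_min hex (Finset.mem_range.mp hi) hxi
  exact (card_le_card h1).trans card_biUnion_le

theorem sigma_lower {q : ℕ} (hq : 2 ≤ q) {nx : D → Finset D} {e0 : D} {c : ℝ}
    (hE : ∀ n, c * (q:ℝ)^n ≤ ((reach nx e0 n).card : ℝ)) (n : ℕ) :
    (∑ m ∈ Finset.range (n + 1), ((fstR nx e0 m).card : ℝ)) / (q : ℝ) ^ n + n * (c / 2) ≤
      ∑ m ∈ Finset.range (n + 1), ((fstR nx e0 m).card : ℝ) / (q : ℝ) ^ m := by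
  have hq0 : (0 : ℝ) < q := by exact_mod_cast (by omega : 0 < q)
  have hq2 : (2 : ℝ) ≤ q := by exact_mod_cast hq
  have hC : ∀ n, c ≤ (∑ m ∈ Finset.range (n + 1), ((fstR nx e0 m).card : ℝ)) / (q : ℝ) ^ n := by
    intro n
    rw [le_div_iff₀ (by positivity)]
    refine (hE n).trans ?_
    exact_mod_cast card_reach_le_sum (nx := nx) (e0 := e0) n
  induction n with
  | zero => simp
  | succ n ih =>
    rw [sum_range_succ _ (n + 1), sum_range_succ (fun m => ((fstR nx e0 m).card : ℝ) / (q : ℝ) ^ m) (n + 1)]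
    have h1 := hC n
    set t := (∑ m ∈ Finset.range (n + 1), ((fstR nx e0 m).card : ℝ)) with ht
    have ht0 : 0 ≤ t := sum_nonneg fun _ _ => Nat.cast_nonneg _
    have h2 : t / (q : ℝ) ^ (n + 1) ≤ t / (q : ℝ) ^ n / 2 := by
      rw [pow_succ, ← div_div]
      gcongr
    have h3 : (t + ((fstR nx e0 (n + 1)).card : ℝ)) / (q : ℝ) ^ (n + 1) =
        t / (q : ℝ) ^ (n + 1) + ((fstR nx e0 (n + 1)).card : ℝ) / (q : ℝ) ^ (n + 1) := add_div _ _ _
    rw [h3]
    push_cast
    nlinarith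

theorem alg1 (p c A N : ℝ) (hN : 0 < N) :
    p * (c / 2) - (p * (c / 2 + A)) / N = (p * ((N - 1) * (c / 2) - A)) / N := by
  field_simp
  ring

theorem alg3 (L M : ℕ) : ((L + (M + 1) : ℕ) : ℝ) - 1 = ((L + M : ℕ) : ℝ) := by
  push_cast
  ring

theorem alg4 (N c A S t : ℝ) (h4 : t + (N - 1) * (c / 2) ≤ A + S) (h5 : 0 ≤ t) :
    (N - 1) * (c / 2) - A ≤ S := by
  linarith

theorem alg2 (s p r : ℝ) (hp : p ≠ 0) : s / r = p * (s / (p * r)) := by
  rw [mul_div_assoc', mul_div_mul_left _ _ hp]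

theorem partA (q : ℕ) (hq : 2 ≤ q) (nx : D → Finset D) (hcard : ∀ e, (nx e).card = q) (e0 : D)
    (c : ℝ) (hc : 0 < c) (hE : ∀ n, c * (q:ℝ)^n ≤ ((reach nx e0 n).card : ℝ)) :
    ∃ F : D → ℝ, (∃ C : ℝ, ∀ e, |F e| ≤ C) ∧ (∀ e, (q:ℝ) * F e = ∑ x ∈ nx e, F x) ∧
      ∃ a b, F a ≠ F b := by
  have hq0 : (0 : ℝ) < q := by exact_mod_cast (by omega : 0 < q)
  have hq1 : (1 : ℝ) < q := by exact_mod_cast (by omega : 1 < q)
  by_contra hcon
  have key : ∀ F : D → ℝ, (∃ C : ℝ, ∀ e, |F e| ≤ C) → (∀ e, (q:ℝ) * F e = ∑ x ∈ nx e, F x) →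
      ∀ a b, F a = F b := by
    intro F h1 h2 a b
    by_contra hab
    exact hcon ⟨F, h1, h2, a, b, hab⟩
  obtain ⟨L, hL⟩ := pow_unbounded_of_one_lt (2 / c) hq1
  have hanc : ∀ x, ∃ w, ∀ m, L ≤ m → x ∈ fstR nx e0 m → w ∈ reach nx e0 L ∧
      x ∈ reach nx w (m - L) := by
    intro x
    by_cases hx : ∃ m, L ≤ m ∧ x ∈ fstR nx e0 m
    · obtain ⟨m, hm, hxm⟩ := hx
      have h1 := fstR_sub hxm
      have h2 : m = L + (m - L) := by omega
      rw [h2] at h1
      obtain ⟨w, hw, hxw⟩ := reach_add e0 L (m - L) h1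
      refine ⟨w, fun m' hm' hxm' => ?_⟩
      rw [fstR_unique hxm' hxm]
      exact ⟨hw, hxw⟩
    · exact ⟨x, fun m hm hxm => absurd ⟨m, hm, hxm⟩ hx⟩
  choose anc hanc using hanc
  let f : ℕ → D → D → ℝ := fun N w x =>
    if (∃ m, L ≤ m ∧ m < N ∧ x ∈ fstR nx e0 m) ∧ anc x = w then 1 else 0
  have hf0 : ∀ N w x, 0 ≤ f N w x := by
    intro N w x
    simp only [f]
    split_ifs <;> norm_num
  have hf1 : ∀ N w x, f N w x ≤ 1 := by
    intro N w x
    simp only [f]
    split_ifs <;> norm_num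
  have hfs : ∀ N x, ∑ w ∈ reach nx e0 L, f N w x ≤ 1 := by
    intro N x
    have h1 : ∀ w ∈ reach nx e0 L, f N w x ≤ if w = anc x then 1 else 0 := by
      intro w _
      simp only [f]
      by_cases h : w = anc x
      · rw [if_pos h]; split_ifs <;> norm_num
      · rw [if_neg h, if_neg]
        rintro ⟨_, h'⟩
        exact h h'.symm
    refine (sum_le_sum h1).trans ?_
    rw [Finset.sum_ite_eq']
    split_ifs <;> norm_num
  let F : ℕ → D → D → ℝ := fun N w e => (∑ n ∈ Finset.range N, (avg q nx)^[n] (f N w) e) / N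
  have hF0 : ∀ N w e, 0 ≤ F N w e := fun N w e =>
    div_nonneg (sum_nonneg fun n _ => iter_nonneg n (hf0 N w) e) (Nat.cast_nonneg _)
  have hF1 : ∀ N w e, F N w e ≤ 1 := by
    intro N w e
    refine div_le_one_of_le₀ ?_ (Nat.cast_nonneg _)
    calc ∑ n ∈ Finset.range N, (avg q nx)^[n] (f N w) e ≤ ∑ n ∈ Finset.range N, (1 : ℝ) :=
          sum_le_sum fun n _ => iter_le_one hq hcard n (hf1 N w) e
      _ = N := by simp
  have hFs : ∀ N e, ∑ w ∈ reach nx e0 L, F N w e ≤ 1 := by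
    intro N e
    simp only [F]
    rw [← sum_div, sum_comm]
    refine div_le_one_of_le₀ ?_ (Nat.cast_nonneg _)
    calc ∑ n ∈ Finset.range N, ∑ w ∈ reach nx e0 L, (avg q nx)^[n] (f N w) e ≤
          ∑ n ∈ Finset.range N, (1 : ℝ) :=
          sum_le_sum fun n _ => family_le hq hcard _ n (hfs N) e
      _ = N := by simp
  have hFh : ∀ N w e, |F N w e - (∑ x ∈ nx e, F N w x) / q| ≤ 1 / N := by
    intro N w e
    have h1 : (∑ x ∈ nx e, F N w x) / q =
        (∑ n ∈ Finset.range N, (avg q nx)^[n + 1] (f N w) e) / N := by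
      simp only [F]
      rw [← sum_div, sum_comm, div_right_comm, sum_div]
      congr 1
      refine sum_congr rfl fun n _ => ?_
      rw [Function.iterate_succ_apply']
      rfl
    rw [h1]
    simp only [F]
    rw [← sub_div, ← sum_sub_distrib, Finset.sum_range_sub' (fun n => (avg q nx)^[n] (f N w) e) N,
      abs_div, Nat.abs_cast]
    apply div_le_div_of_nonneg_right _ (Nat.cast_nonneg _)
    have a0 := iter_nonneg (q := q) (nx := nx) N (hf0 N w) e
    have a1 := iter_le_one hq hcard N (hf1 N w) e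
    have b0 := hf0 N w e
    have b1 := hf1 N w e
    simp only [Function.iterate_zero, id]
    rw [abs_le]
    constructor <;> linarith
  -- lower bound
  set A : ℝ := ∑ m ∈ Finset.range L, ((fstR nx e0 m).card : ℝ) / (q : ℝ) ^ m with hA
  have hFl : ∀ M, (q : ℝ) ^ L * (c / 2) - ((q : ℝ) ^ L * (c / 2 + A)) / ((L + (M + 1) : ℕ) : ℝ) ≤
      ∑ w ∈ reach nx e0 L, F (L + (M + 1)) w w := by
    intro M
    set N := L + (M + 1) with hN
    have hN0 : (0 : ℝ) < (N : ℝ) := by exact_mod_cast (by omega : 0 < N)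
    have h1 : ∀ w, ∑ n ∈ Finset.range (M + 1),
        (((fstR nx e0 (L + n)).filter (fun x => anc x = w)).card : ℝ) / (q : ℝ) ^ n ≤
        N * F N w w := by
      intro w
      have e1 : N * F N w w = ∑ n ∈ Finset.range N, (avg q nx)^[n] (f N w) w :=
        mul_div_cancel₀ _ hN0.ne'
      rw [e1]
      calc _ ≤ ∑ n ∈ Finset.range (M + 1), (avg q nx)^[n] (f N w) w := by
            refine sum_le_sum fun n hn => ?_
            rw [Finset.mem_range] at hn
            rw [div_le_iff₀ (by positivity), mul_comm]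
            refine le_trans ?_ (lower hq w n (hf0 N w))
            have hsub : (fstR nx e0 (L + n)).filter (fun x => anc x = w) ⊆ reach nx w n := by
              intro x hx
              rw [Finset.mem_filter] at hx
              have := (hanc x (L + n) (by omega) hx.1).2
              rw [hx.2] at this
              simpa using this
            refine le_trans ?_ (sum_le_sum_of_subset_of_nonneg hsub (fun x _ _ => hf0 N w x))
            rw [Finset.card_eq_sum_ones]
            push_cast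
            refine sum_le_sum fun x hx => ?_
            rw [Finset.mem_filter] at hx
            simp only [f]
            rw [if_pos]
            exact ⟨⟨L + n, by omega, by omega, hx.1⟩, hx.2⟩
        _ ≤ _ := by
            refine sum_le_sum_of_subset_of_nonneg ?_ (fun n _ _ => iter_nonneg n (hf0 N w) w)
            intro n hn
            rw [Finset.mem_range] at hn ⊢
            omega
    have h2 : ∑ n ∈ Finset.range (M + 1), ((fstR nx e0 (L + n)).card : ℝ) / (q : ℝ) ^ n ≤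
        N * ∑ w ∈ reach nx e0 L, F N w w := by
      rw [mul_sum]
      refine le_trans (le_of_eq ?_) (sum_le_sum fun w _ => h1 w)
      rw [sum_comm]
      refine sum_congr rfl fun n _ => ?_
      rw [← sum_div]
      congr 1
      have := Finset.card_eq_sum_card_fiberwise (s := fstR nx e0 (L + n)) (t := reach nx e0 L)
        (f := anc) (fun x hx => (hanc x (L + n) (by omega) hx).1)
      rw [this]
      push_cast
      rfl
    have h3 : ∑ n ∈ Finset.range (M + 1), ((fstR nx e0 (L + n)).card : ℝ) / (q : ℝ) ^ n =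
        (q : ℝ) ^ L * ∑ n ∈ Finset.range (M + 1), ((fstR nx e0 (L + n)).card : ℝ) / (q : ℝ) ^ (L + n) := by
      rw [mul_sum]
      refine sum_congr rfl fun n _ => ?_
      rw [pow_add]
      exact alg2 _ _ _ (pow_ne_zero _ hq0.ne')
    have h4 := sigma_lower hq hE (L + M)
    rw [show L + M + 1 = L + (M + 1) by ring, sum_range_add (fun m => ((fstR nx e0 m).card : ℝ) / (q : ℝ) ^ m) L (M + 1)] at h4
    have h5 : 0 ≤ (∑ m ∈ Finset.range (L + (M + 1)), ((fstR nx e0 m).card : ℝ)) / (q : ℝ) ^ (L + M) :=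
      div_nonneg (sum_nonneg fun _ _ => Nat.cast_nonneg _) (pow_nonneg hq0.le _)
    have h6 : ((N : ℝ) - 1) * (c / 2) - A ≤
        ∑ n ∈ Finset.range (M + 1), ((fstR nx e0 (L + n)).card : ℝ) / (q : ℝ) ^ (L + n) := by
      rw [← alg3 L M] at h4
      exact alg4 _ _ _ _ _ h4 h5
    have h7 : (q : ℝ) ^ L * (((N : ℝ) - 1) * (c / 2) - A) ≤ N * ∑ w ∈ reach nx e0 L, F N w w := by
      refine le_trans ?_ h2
      rw [h3]
      exact mul_le_mul_of_nonneg_left h6 (pow_nonneg hq0.le _)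
    have h8 : (q : ℝ) ^ L * (c / 2) - ((q : ℝ) ^ L * (c / 2 + A)) / (N : ℝ) =
        ((q : ℝ) ^ L * (((N : ℝ) - 1) * (c / 2) - A)) / N := alg1 _ _ _ _ hN0
    rw [h8, div_le_iff₀ hN0, mul_comm _ (N : ℝ)]
    exact h7
  -- ultrafilter limits
  have hlim : ∀ w e, ∃ l : ℝ, (0 ≤ l ∧ l ≤ 1) ∧
      Tendsto (fun N => F N w e) (hyperfilter ℕ : Filter ℕ) (𝓝 l) := by
    intro w e
    have hc1 : IsCompact (Set.Icc (0 : ℝ) 1) := isCompact_Icc
    obtain ⟨l, hl, hle⟩ := hc1.ultrafilter_le_nhds ((hyperfilter ℕ).map (fun N => F N w e)) (by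
      rw [le_principal_iff, Ultrafilter.mem_coe, Ultrafilter.mem_map]
      exact Filter.univ_mem' fun N => ⟨hF0 N w e, hF1 N w e⟩)
    exact ⟨l, hl, hle⟩
  choose G hG01 hG using hlim
  have h1N : Tendsto (fun N : ℕ => (1 : ℝ) / (N : ℝ)) (hyperfilter ℕ : Filter ℕ) (𝓝 0) :=
    tendsto_one_div_atTop_nhds_zero_nat.mono_left Nat.hyperfilter_le_atTop
  have hharm : ∀ w e, (q : ℝ) * G w e = ∑ x ∈ nx e, G w x := by
    intro w e
    have t1 : Tendsto (fun N => F N w e - (∑ x ∈ nx e, F N w x) / q) (hyperfilter ℕ : Filter ℕ)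
        (𝓝 (G w e - (∑ x ∈ nx e, G w x) / q)) :=
      (hG w e).sub ((tendsto_finsetSum _ fun x _ => hG w x).div_const _)
    have t2 : Tendsto (fun N => F N w e - (∑ x ∈ nx e, F N w x) / q) (hyperfilter ℕ : Filter ℕ)
        (𝓝 0) := by
      apply squeeze_zero_norm _ h1N
      intro N
      exact hFh N w e
    have := tendsto_nhds_unique t1 t2
    have h3 : G w e = (∑ x ∈ nx e, G w x) / q := by linarith
    rw [h3]
    field_simp
  have hconst : ∀ w, G w w = G w e0 := fun w =>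
    key (G w) ⟨1, fun e => by rw [abs_of_nonneg (hG01 w e).1]; exact (hG01 w e).2⟩ (hharm w) w e0
  have hup : ∑ w ∈ reach nx e0 L, G w e0 ≤ 1 :=
    le_of_tendsto' (tendsto_finsetSum _ fun w _ => hG w e0) fun N => hFs N e0
  have hlow : (q : ℝ) ^ L * (c / 2) ≤ ∑ w ∈ reach nx e0 L, G w w := by
    have t1 : Tendsto (fun N : ℕ => (q : ℝ) ^ L * (c / 2) - ((q : ℝ) ^ L * (c / 2 + A)) * (1 / (N : ℝ)))
        (hyperfilter ℕ : Filter ℕ) (𝓝 ((q : ℝ) ^ L * (c / 2) - ((q : ℝ) ^ L * (c / 2 + A)) * 0)) :=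
      tendsto_const_nhds.sub (h1N.const_mul _)
    rw [mul_zero, sub_zero] at t1
    refine le_of_tendsto_of_tendsto t1 (tendsto_finsetSum _ fun w _ => hG w w) ?_
    have hev : ∀ᶠ N in atTop, L + 1 ≤ N := eventually_ge_atTop _
    refine (hev.filter_mono Nat.hyperfilter_le_atTop).mono fun N hN => ?_
    obtain ⟨M, rfl⟩ := Nat.exists_eq_add_of_le hN
    have := hFl M
    rw [show L + (M + 1) = L + 1 + M by ring] at this
    beta_reduce
    rw [mul_one_div]
    exact this
  have hfin : 1 < (q : ℝ) ^ L * (c / 2) := by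
    rw [div_lt_iff₀ hc] at hL
    linarith
  have : ∑ w ∈ reach nx e0 L, G w w = ∑ w ∈ reach nx e0 L, G w e0 :=
    sum_congr rfl fun w _ => hconst w
  linarith

end Pool.Agent.H23.Ram
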