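import Mathlib

/-! Part B of MP_542002_pr: a positive lam-superharmonic function from the spectral radius. -/

set_option autoImplicit false

namespace Pool.Agent.H23.Ram

open Filter Topology

section B
variable {V : Type} (G : SimpleGraph V) [G.LocallyFinite]

/-- number of walks of length `n` from `x` to `o` -/
noncomputable def Wk (o : V) (n : ℕ) (x : V) : ℕ := Nat.card {p : G.Walk x o // p.length = n}

def wkStep (o : V) (n : ℕ) (x : V)
    (z : Σ y : G.neighborSet x, {p : G.Walk y.1 o // p.length = n}) :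
    {p : G.Walk x o // p.length = n + 1} :=
  ⟨SimpleGraph.Walk.cons ((G.mem_neighborSet x z.1.1).1 z.1.2) z.2.1, by
    rw [SimpleGraph.Walk.length_cons, z.2.2]⟩

theorem wkStep_bij (o : V) (n : ℕ) (x : V) : Function.Bijective (wkStep G o n x) := by
  constructor
  · rintro ⟨⟨y, hy⟩, ⟨p, hp⟩⟩ ⟨⟨z, hz⟩, ⟨q, hq⟩⟩ h
    have h' := Subtype.mk.inj h
    rw [SimpleGraph.Walk.cons.injEq] at h'
    obtain ⟨h1, h2⟩ := h'
    subst h1
    have h3 := eq_of_heq h2
    subst h3
    rfl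
  · rintro ⟨p, hp⟩
    cases p with
    | nil => simp at hp
    | cons h q => exact ⟨⟨⟨_, h⟩, ⟨q, by simpa using hp⟩⟩, rfl⟩

theorem wk_finite (o : V) (n : ℕ) : ∀ x : V, Finite {p : G.Walk x o // p.length = n} := by
  induction n with
  | zero =>
    intro x
    have : Subsingleton {p : G.Walk x o // p.length = 0} := by
      constructor
      rintro ⟨p, hp⟩ ⟨q, hq⟩
      cases p with
      | nil =>
        cases q with
        | nil => rfl
        | cons h q => simp at hq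
      | cons h p => simp at hp
    infer_instance
  | succ n ih =>
    intro x
    haveI := ih
    exact Finite.of_surjective _ (wkStep_bij G o n x).2

theorem Wk_succ (o : V) (n : ℕ) (x : V) :
    Wk G o (n + 1) x = ∑ y ∈ G.neighborFinset x, Wk G o n y := by
  unfold Wk
  haveI := wk_finite G o n
  rw [← Nat.card_eq_of_bijective _ (wkStep_bij G o n x), Nat.card_sigma]
  rw [Finset.sum_subtype (G.neighborFinset x) (p := fun y => y ∈ G.neighborSet x)
    (fun y => by simp)]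

theorem Wk_zero_le (o : V) (x : V) : Wk G o 0 x ≤ 1 := by
  unfold Wk
  haveI := wk_finite G o 0 x
  rw [Finite.card_le_one_iff_subsingleton]
  constructor
  rintro ⟨p, hp⟩ ⟨q, hq⟩
  cases p with
  | nil =>
    cases q with
    | nil => rfl
    | cons h q => simp at hq
  | cons h p => simp at hp

theorem Wk_zero_self (o : V) : 1 ≤ Wk G o 0 o := by
  unfold Wk
  haveI := wk_finite G o 0 o
  haveI : Nonempty {p : G.Walk o o // p.length = 0} := ⟨⟨SimpleGraph.Walk.nil, rfl⟩⟩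
  exact Nat.card_pos

variable {G}

theorem Wk_le {d : ℕ} (hreg : G.IsRegularOfDegree d) (o : V) (n : ℕ) :
    ∀ x, Wk G o n x ≤ d ^ n := by
  induction n with
  | zero => intro x; simpa using Wk_zero_le G o x
  | succ n ih =>
    intro x
    rw [Wk_succ]
    calc ∑ y ∈ G.neighborFinset x, Wk G o n y ≤ ∑ y ∈ G.neighborFinset x, d ^ n :=
          Finset.sum_le_sum fun y _ => ih y
      _ = d ^ (n + 1) := by
          rw [Finset.sum_const, G.card_neighborFinset_eq_degree, hreg x, smul_eq_mul, pow_succ']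

theorem Wk_adj (o : V) (n : ℕ) {y z : V} (h : G.Adj y z) : Wk G o n z ≤ Wk G o (n + 1) y := by
  rw [Wk_succ]
  exact Finset.single_le_sum (f := fun w => Wk G o n w) (fun _ _ => Nat.zero_le _)
    (by simpa using h)

theorem Wk_walk (o : V) (n : ℕ) {a x : V} (p : G.Walk a x) :
    Wk G o n x ≤ Wk G o (n + p.length) a := by
  induction p with
  | nil => simp
  | cons h q ih =>
    refine ih.trans ((Wk_adj o _ h).trans (le_of_eq ?_))
    simp [add_assoc]

/-- the Green function -/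
noncomputable def gr (G : SimpleGraph V) (o : V) (t : ℝ) (x : V) : ℝ :=
  ∑' n : ℕ, (Wk G o n x : ℝ) * t ^ n

theorem summ {o : V} {t : ℝ} (ht : 0 < t) (hs : Summable fun n : ℕ => (Wk G o n o : ℝ) * t ^ n)
    (hconn : G.Connected) (x : V) : Summable fun n : ℕ => (Wk G o n x : ℝ) * t ^ n := by
  obtain ⟨p⟩ := hconn.preconnected o x
  have h1 : Summable fun n : ℕ => (Wk G o (n + p.length) o : ℝ) * t ^ (n + p.length) :=
    (summable_nat_add_iff p.length).2 hs
  have h2 := h1.mul_left ((t ^ p.length)⁻¹)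
  refine Summable.of_nonneg_of_le (fun n => by positivity) (fun n => ?_) h2
  have h3 : (Wk G o n x : ℝ) ≤ Wk G o (n + p.length) o := by exact_mod_cast Wk_walk o n p
  have h4 : (t ^ p.length)⁻¹ * ((Wk G o (n + p.length) o : ℝ) * t ^ (n + p.length))
      = (Wk G o (n + p.length) o : ℝ) * t ^ n := by
    rw [pow_add]
    field_simp
  rw [h4]
  exact mul_le_mul_of_nonneg_right h3 (by positivity)

theorem gr_nonneg {o : V} {t : ℝ} (ht : 0 < t) (x : V) : 0 ≤ gr G o t x :=
  tsum_nonneg fun n => by positivity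

theorem gr_sum {o : V} {t : ℝ} (ht : 0 < t)
    (hs : Summable fun n : ℕ => (Wk G o n o : ℝ) * t ^ n) (hconn : G.Connected) (x : V) :
    t * ∑ y ∈ G.neighborFinset x, gr G o t y ≤ gr G o t x := by
  have hx := summ ht hs hconn
  unfold gr
  rw [← Summable.tsum_finsetSum (fun y _ => hx y), ← tsum_mul_left, (hx x).tsum_eq_zero_add]
  have : ∀ n : ℕ, t * ∑ y ∈ G.neighborFinset x, (Wk G o n y : ℝ) * t ^ n
      = (Wk G o (n + 1) x : ℝ) * t ^ (n + 1) := by
    intro n
    rw [Wk_succ, ← Finset.sum_mul]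
    push_cast
    ring
  simp only [this]
  have h0 : (0:ℝ) ≤ (Wk G o 0 x : ℝ) * t ^ 0 := by positivity
  linarith

theorem gr_adj {o : V} {t : ℝ} (ht : 0 < t)
    (hs : Summable fun n : ℕ => (Wk G o n o : ℝ) * t ^ n) (hconn : G.Connected) {x y : V}
    (h : G.Adj x y) : t * gr G o t y ≤ gr G o t x := by
  refine le_trans ?_ (gr_sum ht hs hconn x)
  refine mul_le_mul_of_nonneg_left ?_ ht.le
  exact Finset.single_le_sum (f := fun w => gr G o t w) (fun w _ => gr_nonneg ht w)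
    (by simpa using h)

theorem gr_walk {o : V} {t : ℝ} (ht : 0 < t)
    (hs : Summable fun n : ℕ => (Wk G o n o : ℝ) * t ^ n) (hconn : G.Connected) {x y : V}
    (p : G.Walk x y) : t ^ p.length * gr G o t y ≤ gr G o t x := by
  induction p with
  | nil => simp
  | cons h q ih =>
    refine le_trans ?_ (gr_adj ht hs hconn h)
    rw [SimpleGraph.Walk.length_cons, pow_succ', mul_assoc]
    exact mul_le_mul_of_nonneg_left ih ht.le

theorem gr_self {o : V} {t : ℝ} (ht : 0 < t)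
    (hs : Summable fun n : ℕ => (Wk G o n o : ℝ) * t ^ n) : 1 ≤ gr G o t o := by
  have h1 : (Wk G o 0 o : ℝ) * t ^ 0 ≤ gr G o t o :=
    hs.le_tsum 0 (fun n _ => by positivity)
  have h2 : (1:ℝ) ≤ Wk G o 0 o := by exact_mod_cast Wk_zero_self G o
  simpa using h2.trans (by simpa using h1)

/-- root test -/
theorem summ_o {d : ℕ} (hd : 3 ≤ d) (hreg : G.IsRegularOfDegree d) (o : V)
    (h : Filter.limsup (fun n : ℕ =>
      ((Nat.card {p : G.Walk o o // p.length = n} : ℝ) / (d : ℝ) ^ n) ^ ((1 : ℝ) / (n : ℝ)))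
      Filter.atTop = 2 * Real.sqrt ((d : ℝ) - 1) / (d : ℝ))
    {lam : ℝ} (hlam : 2 * Real.sqrt ((d:ℝ) - 1) < lam) :
    Summable fun n : ℕ => (Wk G o n o : ℝ) * (lam⁻¹) ^ n := by
  have hdpos : (0:ℝ) < d := by exact_mod_cast (by omega : 0 < d)
  have hs0 : 0 ≤ 2 * Real.sqrt ((d:ℝ) - 1) := by positivity
  obtain ⟨mu, hmu1, hmu2⟩ := exists_between hlam
  have hmu0 : 0 < mu := lt_of_le_of_lt hs0 hmu1
  have hlam0 : 0 < lam := hmu0.trans hmu2
  have hbd : ∀ n : ℕ, ((Nat.card {p : G.Walk o o // p.length = n} : ℝ) / (d : ℝ) ^ n)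
      ^ ((1 : ℝ) / (n : ℝ)) ≤ 1 := by
    intro n
    refine Real.rpow_le_one (by positivity) ?_ (by positivity)
    rw [div_le_one (by positivity)]
    exact_mod_cast Wk_le hreg o n o
  have hev : ∀ᶠ n : ℕ in atTop, ((Nat.card {p : G.Walk o o // p.length = n} : ℝ) / (d : ℝ) ^ n)
      ^ ((1 : ℝ) / (n : ℝ)) < mu / d := by
    refine Filter.eventually_lt_of_limsup_lt ?_ ?_
    · rw [h]
      exact div_lt_div_of_pos_right hmu1 hdpos
    · exact Filter.isBoundedUnder_of ⟨1, hbd⟩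
  have hgeo : Summable fun n : ℕ => (mu * lam⁻¹) ^ n := by
    refine summable_geometric_of_lt_one (by positivity) ?_
    rw [← div_eq_mul_inv, div_lt_one hlam0]
    exact hmu2
  refine Summable.of_norm_bounded_eventually_nat hgeo ?_
  filter_upwards [hev, eventually_ge_atTop 1] with n hn h1
  have hn0 : (n:ℝ) ≠ 0 := by
    have : n ≠ 0 := by omega
    exact_mod_cast this
  have ha : (0:ℝ) ≤ (Wk G o n o : ℝ) / (d:ℝ) ^ n := by positivity
  have h2 : (Wk G o n o : ℝ) / (d:ℝ) ^ n ≤ (mu / d) ^ n := by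
    have h3 : (((Wk G o n o : ℝ) / (d:ℝ) ^ n) ^ ((1:ℝ) / (n:ℝ))) ^ n ≤ (mu / d) ^ n :=
      pow_le_pow_left₀ (by positivity) hn.le n
    rwa [← Real.rpow_natCast, ← Real.rpow_mul ha, one_div_mul_cancel hn0, Real.rpow_one] at h3
  have h4 : (Wk G o n o : ℝ) ≤ mu ^ n := by
    rw [div_pow, div_le_div_iff_of_pos_right (by positivity)] at h2
    exact h2
  rw [Real.norm_of_nonneg (by positivity), mul_pow]
  exact mul_le_mul_of_nonneg_right h4 (by positivity)

theorem partB {V : Type} (G : SimpleGraph V) [G.LocallyFinite] (d : ℕ) (hconn : G.Connected)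
    (hd : 3 ≤ d) (hreg : G.IsRegularOfDegree d) (o : V)
    (h : Filter.limsup (fun n : ℕ =>
      ((Nat.card {p : G.Walk o o // p.length = n} : ℝ) / (d : ℝ) ^ n) ^ ((1 : ℝ) / (n : ℝ)))
      Filter.atTop = 2 * Real.sqrt ((d : ℝ) - 1) / (d : ℝ)) :
    ∃ ψ : V → ℝ, (∀ v, 0 < ψ v) ∧
      ∀ v, ∑ w ∈ G.neighborFinset v, ψ w ≤ 2 * Real.sqrt ((d:ℝ) - 1) * ψ v := by
  set ρ : ℝ := 2 * Real.sqrt ((d:ℝ) - 1) with hρ
  have hρ0 : 0 ≤ ρ := by positivity
  let lam : ℕ → ℝ := fun k => ρ + 1 / ((k:ℝ) + 1)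
  have hlam : ∀ k, ρ < lam k := fun k => by
    have : (0:ℝ) < 1 / ((k:ℝ) + 1) := by positivity
    simp only [lam]; linarith
  have hlam0 : ∀ k, 0 < lam k := fun k => lt_of_le_of_lt hρ0 (hlam k)
  have hlamU : ∀ k, lam k ≤ ρ + 1 := fun k => by
    have : 1 / ((k:ℝ) + 1) ≤ 1 := by
      rw [div_le_one (by positivity)]
      have : (0:ℝ) ≤ k := Nat.cast_nonneg k
      linarith
    simp only [lam]; linarith
  have hsum : ∀ k, Summable fun n : ℕ => (Wk G o n o : ℝ) * ((lam k)⁻¹) ^ n :=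
    fun k => summ_o hd hreg o h (hlam k)
  have hti : ∀ k, 0 < (lam k)⁻¹ := fun k => inv_pos.2 (hlam0 k)
  let φ : ℕ → V → ℝ := fun k x => gr G o (lam k)⁻¹ x / gr G o (lam k)⁻¹ o
  have hgo : ∀ k, 0 < gr G o (lam k)⁻¹ o := fun k => lt_of_lt_of_le one_pos (gr_self (hti k) (hsum k))
  have hΛ : 0 < ρ + 1 := by linarith
  have hbounds : ∀ x : V, ∃ a b : ℝ, 0 < a ∧ ∀ k, φ k x ∈ Set.Icc a b := by
    intro x
    obtain ⟨p⟩ := hconn.preconnected o x
    obtain ⟨q⟩ := hconn.preconnected x o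
    refine ⟨((ρ + 1)⁻¹) ^ q.length, (ρ + 1) ^ p.length, by positivity, fun k => ⟨?_, ?_⟩⟩
    · simp only [φ]
      rw [le_div_iff₀ (hgo k)]
      refine le_trans ?_ (gr_walk (hti k) (hsum k) hconn q)
      refine mul_le_mul_of_nonneg_right ?_ (hgo k).le
      refine pow_le_pow_left₀ (by positivity) ?_ _
      exact inv_anti₀ (hlam0 k) (hlamU k)
    · simp only [φ]
      rw [div_le_iff₀ (hgo k)]
      have h1 := gr_walk (hti k) (hsum k) hconn p
      have h2 : gr G o (lam k)⁻¹ x ≤ (lam k) ^ p.length * gr G o (lam k)⁻¹ o := by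
        have h3 := mul_le_mul_of_nonneg_left h1 (pow_nonneg (hlam0 k).le p.length)
        rwa [← mul_assoc, ← mul_pow, mul_inv_cancel₀ (hlam0 k).ne', one_pow, one_mul] at h3
      refine h2.trans (mul_le_mul_of_nonneg_right ?_ (hgo k).le)
      exact pow_le_pow_left₀ (hlam0 k).le (hlamU k) _
  have hlim : ∀ x : V, ∃ l : ℝ, 0 < l ∧
      Tendsto (fun k => φ k x) (hyperfilter ℕ : Filter ℕ) (𝓝 l) := by
    intro x
    obtain ⟨a, b, ha, hab⟩ := hbounds x
    have hc : IsCompact (Set.Icc a b) := isCompact_Icc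
    have hle : ((hyperfilter ℕ).map (fun k => φ k x) : Filter ℝ) ≤ 𝓟 (Set.Icc a b) := by
      rw [le_principal_iff]
      change (fun k => φ k x) ⁻¹' (Set.Icc a b) ∈ (hyperfilter ℕ : Filter ℕ)
      exact Filter.univ_mem' hab
    obtain ⟨l, hl, hl2⟩ := hc.ultrafilter_le_nhds _ hle
    exact ⟨l, lt_of_lt_of_le ha hl.1, hl2⟩
  choose ψ hψ0 hψ using hlim
  refine ⟨ψ, hψ0, fun v => ?_⟩
  have hL : Tendsto lam (hyperfilter ℕ : Filter ℕ) (𝓝 ρ) := by
    have h1 : Tendsto lam atTop (𝓝 (ρ + 0)) :=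
      tendsto_const_nhds.add tendsto_one_div_add_atTop_nhds_zero_nat
    rw [add_zero] at h1
    exact h1.mono_left Nat.hyperfilter_le_atTop
  refine le_of_tendsto_of_tendsto' (tendsto_finsetSum _ fun w _ => hψ w)
    (hL.mul (hψ v)) (fun k => ?_)
  have h1 := gr_sum (hti k) (hsum k) hconn v
  have h2 : ∑ y ∈ G.neighborFinset v, gr G o (lam k)⁻¹ y ≤ lam k * gr G o (lam k)⁻¹ v := by
    have h3 := mul_le_mul_of_nonneg_left h1 (hlam0 k).le
    rwa [← mul_assoc, mul_inv_cancel₀ (hlam0 k).ne', one_mul] at h3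
  simp only [φ]
  rw [← Finset.sum_div, ← mul_div_assoc]
  exact div_le_div_of_nonneg_right h2 (hgo k).le

end B

end Pool.Agent.H23.Ram
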