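import Pool.Agent.H23.RamDefs

set_option autoImplicit false

namespace Pool.Agent.H23.Ram

open Finset Classical

variable {D : Type}

lemma tot_nonneg (nx : D → Finset D) (K : Finset D) (n : ℕ) (e : D) : 0 ≤ tot nx K n e := by
  induction n generalizing e with
  | zero => unfold tot; split_ifs <;> norm_num
  | succ n ih =>
    unfold tot
    split_ifs
    · exact le_refl _
    · exact Finset.sum_nonneg (fun x _ => ih x)

lemma tot_le_pow (q : ℕ) (nx : D → Finset D) (hcard : ∀ e, (nx e).card = q) (K : Finset D) (n : ℕ)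
    (e : D) : tot nx K n e ≤ (q : ℝ) ^ n := by
  induction n generalizing e with
  | zero => unfold tot; split_ifs <;> norm_num
  | succ n ih =>
    unfold tot
    split_ifs
    · positivity
    · calc ∑ x ∈ nx e, tot nx K n x ≤ ∑ _x ∈ nx e, (q : ℝ) ^ n := Finset.sum_le_sum (fun x _ => ih x)
        _ = (q : ℝ) ^ (n + 1) := by rw [Finset.sum_const, hcard]; simp [pow_succ, mul_comm]

lemma tot_succ_le (q : ℕ) (nx : D → Finset D) (hcard : ∀ e, (nx e).card = q) (K : Finset D) (n : ℕ)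
    (e : D) : tot nx K (n + 1) e ≤ q * tot nx K n e := by
  induction n generalizing e with
  | zero =>
    by_cases he : e ∈ K
    · simp [tot, he]
    · have h1 : tot nx K 0 e = 1 := by simp [tot, he]
      rw [h1]
      have := tot_le_pow q nx hcard K 1 e
      simpa using this
  | succ n ih =>
    by_cases he : e ∈ K
    · simp [tot, he]
    · have h1 : tot nx K (n + 1 + 1) e = ∑ x ∈ nx e, tot nx K (n + 1) x := by
        rw [tot]; simp [he]
      have h2 : tot nx K (n + 1) e = ∑ x ∈ nx e, tot nx K n x := by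
        rw [tot]; simp [he]
      rw [h1, h2, Finset.mul_sum]
      exact Finset.sum_le_sum (fun x _ => ih x)

lemma hit_bound (q : ℕ) (nx : D → Finset D) (hcard : ∀ e, (nx e).card = q)
    (Φ : D → ℝ) (hΦ : ∀ e, 0 < Φ e) (lam : ℝ) (hlam : lam < q)
    (hsup : ∀ e, ∑ x ∈ nx e, Φ x ≤ lam * Φ e) (K : Finset D) (m : ℝ) 
    (hmin : ∀ k' ∈ K, m ≤ Φ k') (n : ℕ) (e : D) :
    ((q : ℝ) ^ n - tot nx K n e) * m ≤ (q : ℝ) ^ n * Φ e := by
  induction n generalizing e with
  | zero =>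
    by_cases he : e ∈ K
    · simp [tot, he]; exact hmin e he
    · simp [tot, he]; exact (hΦ e).le
  | succ n ih =>
    by_cases he : e ∈ K
    · have : tot nx K (n + 1) e = 0 := by rw [tot]; simp [he]
      rw [this, sub_zero]
      exact mul_le_mul_of_nonneg_left (hmin e he) (by positivity)
    · have h2 : tot nx K (n + 1) e = ∑ x ∈ nx e, tot nx K n x := by
        rw [tot]; simp [he]
      have h3 : (q : ℝ) ^ (n + 1) = ∑ _x ∈ nx e, (q : ℝ) ^ n := by
        rw [Finset.sum_const, hcard]; simp [pow_succ, mul_comm]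
      calc ((q : ℝ) ^ (n + 1) - tot nx K (n + 1) e) * m
          = ∑ x ∈ nx e, ((q : ℝ) ^ n - tot nx K n x) * m := by
            rw [h2, h3, ← Finset.sum_sub_distrib, Finset.sum_mul]
        _ ≤ ∑ x ∈ nx e, (q : ℝ) ^ n * Φ x := Finset.sum_le_sum (fun x _ => ih x)
        _ = (q : ℝ) ^ n * ∑ x ∈ nx e, Φ x := by rw [Finset.mul_sum]
        _ ≤ (q : ℝ) ^ n * (q * Φ e) := by
            apply mul_le_mul_of_nonneg_left _ (by positivity)
            exact (hsup e).trans (mul_le_mul_of_nonneg_right hlam.le (hΦ e).le)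
        _ = (q : ℝ) ^ (n + 1) * Φ e := by ring

theorem partD (q : ℕ) (nx : D → Finset D) (hcard : ∀ e, (nx e).card = q)
    (Φ : D → ℝ) (hΦ : ∀ e, 0 < Φ e) (lam : ℝ) (hlam0 : 0 ≤ lam) (hlam : lam < q)
    (hsup : ∀ e, ∑ x ∈ nx e, Φ x ≤ lam * Φ e) (K : Finset D) (k : D)
    (hmin : ∀ k' ∈ K, Φ k ≤ Φ k') :
    ∃ e0 ∈ nx k, ∃ p : ℝ, 0 < p ∧ ∀ n, p * (q : ℝ) ^ n ≤ tot nx K n e0 := by
  have hq : (0 : ℝ) < q := lt_of_le_of_lt hlam0 hlam
  have hmain : ∀ n, (q - lam) * (q : ℝ) ^ n ≤ ∑ x ∈ nx k, tot nx K n x := by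
    intro n
    have h1 : ∑ x ∈ nx k, ((q : ℝ) ^ n - tot nx K n x) * Φ k ≤ ∑ x ∈ nx k, (q : ℝ) ^ n * Φ x :=
      Finset.sum_le_sum (fun x _ => hit_bound q nx hcard Φ hΦ lam hlam hsup K (Φ k) hmin n x)
    have h2 : ∑ x ∈ nx k, (q : ℝ) ^ n * Φ x ≤ (q : ℝ) ^ n * (lam * Φ k) := by
      rw [← Finset.mul_sum]
      exact mul_le_mul_of_nonneg_left (hsup k) (by positivity)
    have h3 : ∑ x ∈ nx k, ((q : ℝ) ^ n - tot nx K n x) * Φ k
        = (q * (q : ℝ) ^ n - ∑ x ∈ nx k, tot nx K n x) * Φ k := by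
      rw [← Finset.sum_mul, Finset.sum_sub_distrib, Finset.sum_const, hcard]
      simp
    rw [h3] at h1
    have h4 := h1.trans h2
    have h5 : (q * (q : ℝ) ^ n - ∑ x ∈ nx k, tot nx K n x) ≤ (q : ℝ) ^ n * lam := by
      have : (q * (q : ℝ) ^ n - ∑ x ∈ nx k, tot nx K n x) * Φ k ≤ ((q : ℝ) ^ n * lam) * Φ k := by
        linarith
      exact le_of_mul_le_mul_right this (hΦ k)
    nlinarith
  by_contra hcon
  push Not at hcon
  -- for each x in nx k there is n with tot n x < p q^n, for p = (q-lam)/q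
  set p : ℝ := (q - lam) / q with hp
  have hppos : 0 < p := div_pos (by linarith) hq
  have hex : ∀ x ∈ nx k, ∃ n, tot nx K n x < p * (q : ℝ) ^ n := fun x hx => hcon x hx p hppos
  choose! N hN using hex
  set M := (nx k).sup N with hM
  have hmono : ∀ x, ∀ n j, tot nx K (n + j) x ≤ (q : ℝ) ^ j * tot nx K n x := by
    intro x n j
    induction j with
    | zero => simp
    | succ j ih =>
      calc tot nx K (n + (j + 1)) x ≤ q * tot nx K (n + j) x := tot_succ_le q nx hcard K (n + j) x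
        _ ≤ q * ((q : ℝ) ^ j * tot nx K n x) := mul_le_mul_of_nonneg_left ih hq.le
        _ = (q : ℝ) ^ (j + 1) * tot nx K n x := by ring
  have hall : ∀ x ∈ nx k, tot nx K M x < p * (q : ℝ) ^ M := by
    intro x hx
    have h1 : N x ≤ M := Finset.le_sup (f := N) hx
    obtain ⟨j, hj⟩ := Nat.exists_eq_add_of_le h1
    calc tot nx K M x = tot nx K (N x + j) x := by rw [hj]
      _ ≤ (q : ℝ) ^ j * tot nx K (N x) x := hmono x (N x) j
      _ < (q : ℝ) ^ j * (p * (q : ℝ) ^ (N x)) := by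
        apply mul_lt_mul_of_pos_left (hN x hx) (by positivity)
      _ = p * (q : ℝ) ^ M := by rw [hj, pow_add]; ring
  have hne : (nx k).Nonempty := by
    rw [← Finset.card_pos, hcard]
    exact_mod_cast hq
  have hlt : ∑ x ∈ nx k, tot nx K M x < ∑ _x ∈ nx k, p * (q : ℝ) ^ M :=
    Finset.sum_lt_sum_of_nonempty hne hall
  have h2 : ∑ _x ∈ nx k, p * (q : ℝ) ^ M = (q - lam) * (q : ℝ) ^ M := by
    rw [Finset.sum_const, hcard, nsmul_eq_mul, hp]
    field_simp
  have := hmain M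
  linarith

end Pool.Agent.H23.Ram
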