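import Pool.Agent.H23.RamDefs
import Pool.Agent.H23.RamD

set_option autoImplicit false

namespace Pool.Agent.H23.Ram

open Finset Classical

variable {D : Type}

/-- number of `n`-step paths avoiding `K` from `e` to `t` -/
noncomputable def hN (nx : D → Finset D) (K : Finset D) (t : D) : ℕ → D → ℕ
  | 0, e => if e = t then 1 else 0
  | n + 1, e => if e ∈ K then 0 else ∑ x ∈ nx e, hN nx K t n x

section

variable (q : ℕ) (nx : D → Finset D) (J : D → D) (K : Finset D)

lemma hN_K (t : D) (ht : t ∉ K) (n : ℕ) (e : D) (he : e ∈ K) : hN nx K t n e = 0 := by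
  cases n with
  | zero =>
    rw [hN, if_neg]
    rintro rfl
    exact ht he
  | succ n => rw [hN, if_pos he]

/-- Green function bound -/
lemma green (hq : 0 < q) (φ : D → ℝ) (hφ0 : ∀ e, 0 ≤ φ e)
    (hφ : ∀ e, ∑ x ∈ nx e, φ x ≤ Real.sqrt q * φ e) (t ee : D) (ht : t ∉ K) (hee : ee ∈ K)
    (het : ee ∈ nx t) (M : ℕ) (e : D) :
    (φ ee / Real.sqrt q) * ∑ n ∈ range M, (hN nx K t n e : ℝ) / (Real.sqrt q) ^ n ≤ φ e := by
  have hsq : 0 < Real.sqrt q := Real.sqrt_pos.mpr (by exact_mod_cast hq)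
  induction M generalizing e with
  | zero => simpa using hφ0 e
  | succ M ih =>
    by_cases he : e ∈ K
    · have : ∑ n ∈ range (M + 1), (hN nx K t n e : ℝ) / (Real.sqrt q) ^ n = 0 := by
        apply Finset.sum_eq_zero
        intro n _
        rw [hN_K nx K t ht n e he]; simp
      rw [this, mul_zero]; exact hφ0 e
    · have h1 : ∑ n ∈ range (M + 1), (hN nx K t n e : ℝ) / (Real.sqrt q) ^ n
          = (∑ x ∈ nx e, ∑ n ∈ range M, (hN nx K t n x : ℝ) / (Real.sqrt q) ^ n) / Real.sqrt q
            + (if e = t then 1 else 0) := by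
        rw [Finset.sum_range_succ', Finset.sum_comm, Finset.sum_div]
        congr 1
        · apply Finset.sum_congr rfl
          intro n _
          rw [hN, if_neg he]
          push_cast
          rw [← Finset.sum_div, div_div, pow_succ]
        · simp [hN]
      rw [h1, mul_add, Finset.sum_div, Finset.mul_sum]
      have h2 : ∑ x ∈ nx e, φ ee / Real.sqrt q * ((∑ n ∈ range M, (hN nx K t n x : ℝ) / (Real.sqrt q) ^ n) / Real.sqrt q)
          ≤ ∑ x ∈ nx e, (if x ∈ K then 0 else φ x) / Real.sqrt q := by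
        apply Finset.sum_le_sum
        intro x _
        rw [← mul_div_assoc]
        apply div_le_div_of_nonneg_right _ hsq.le
        by_cases hx : x ∈ K
        · rw [if_pos hx]
          have : ∑ n ∈ range M, (hN nx K t n x : ℝ) / (Real.sqrt q) ^ n = 0 := by
            apply Finset.sum_eq_zero
            intro n _
            rw [hN_K nx K t ht n x hx]; simp
          rw [this, mul_zero]
        · rw [if_neg hx]; exact ih x
      rw [← Finset.sum_div] at h2
      have h3 : ∑ x ∈ nx e, (if x ∈ K then 0 else φ x) + (if e = t then φ ee else 0) ≤ Real.sqrt q * φ e := by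
        refine le_trans ?_ (hφ e)
        by_cases hte : e = t
        · rw [if_pos hte]
          have hmem : ee ∈ nx e := by rw [hte]; exact het
          rw [← Finset.add_sum_erase _ _ hmem, ← Finset.add_sum_erase _ φ hmem, if_pos hee, zero_add,
            add_comm]
          apply add_le_add_right
          apply Finset.sum_le_sum
          intro x _
          split_ifs
          · exact hφ0 x
          · exact le_refl _
        · rw [if_neg hte, add_zero]
          apply Finset.sum_le_sum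
          intro x _
          split_ifs
          · exact hφ0 x
          · exact le_refl _
      have h4 : φ ee / Real.sqrt q * (if e = t then (1:ℝ) else 0) = (if e = t then φ ee else 0) / Real.sqrt q := by
        split_ifs <;> simp
      rw [h4]
      calc _ ≤ (∑ x ∈ nx e, (if x ∈ K then 0 else φ x)) / Real.sqrt q + (if e = t then φ ee else 0) / Real.sqrt q :=
            add_le_add_left h2 _
        _ = (∑ x ∈ nx e, (if x ∈ K then 0 else φ x) + (if e = t then φ ee else 0)) / Real.sqrt q := by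
            rw [add_div]
        _ ≤ (Real.sqrt q * φ e) / Real.sqrt q := div_le_div_of_nonneg_right h3 hsq.le
        _ = φ e := by field_simp

variable (hJJ : ∀ e, J (J e) = e) (hrev : ∀ e x, x ∈ nx e → J e ∈ nx (J x))

include hJJ in
lemma tsum_J (f : D → ENNReal) : ∑' e, f (J e) = ∑' e, f e :=
  (Equiv.mk J J hJJ hJJ).tsum_eq f

include hJJ hrev in
lemma swap (f g : D → ENNReal) :
    ∑' e, f e * ∑ x ∈ nx e, g x = ∑' x, g x * ∑ y ∈ nx (J x), f (J y) := by
  have hiff : ∀ e x, x ∈ nx e ↔ J e ∈ nx (J x) := by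
    intro e x
    refine ⟨hrev e x, fun h => ?_⟩
    have := hrev _ _ h
    rwa [hJJ, hJJ] at this
  have h1 : ∀ e, f e * ∑ x ∈ nx e, g x = ∑' x, (if x ∈ nx e then f e * g x else 0) := by
    intro e
    rw [tsum_eq_sum (s := nx e) (by intro b hb; rw [if_neg hb]), Finset.mul_sum]
    apply Finset.sum_congr rfl
    intro x hx
    rw [if_pos hx]
  have h2 : ∀ x, g x * ∑ y ∈ nx (J x), f (J y) = ∑' e, (if x ∈ nx e then f e * g x else 0) := by
    intro x
    rw [← tsum_J J hJJ, tsum_eq_sum (s := nx (J x)), Finset.mul_sum]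
    · apply Finset.sum_congr rfl
      intro y hy
      rw [if_pos]
      · ring
      · rw [hiff, hJJ]; exact hy
    · intro b hb
      rw [if_neg]
      rw [hiff, hJJ]; exact hb
  simp_rw [h1, h2]
  exact ENNReal.tsum_comm

/-- killed transfer operator -/
noncomputable def Bk (f : D → ENNReal) : D → ENNReal :=
  fun e => if e ∈ K then 0 else ∑ x ∈ nx e, f x

variable (hKJ : ∀ e ∈ K, J e ∈ K)

include hJJ hrev hKJ in
lemma dual1 (t : D) (ht : t ∉ K) (n : ℕ) (f : D → ENNReal) (hf : ∀ e ∈ K, f e = 0) :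
    ∑' e, (hN nx K t (n + 1) (J e) : ENNReal) * f e = ∑' e, (hN nx K t n (J e) : ENNReal) * Bk nx K f e := by
  have hstep1 : ∑' e, (hN nx K t (n + 1) (J e) : ENNReal) * f e
      = ∑' e, f (J e) * ∑ x ∈ nx e, (hN nx K t n x : ENNReal) := by
    rw [← tsum_J J hJJ (fun e => (hN nx K t (n + 1) (J e) : ENNReal) * f e)]
    apply tsum_congr
    intro e
    rw [hJJ, hN]
    by_cases he : e ∈ K
    · rw [hf (J e) (hKJ e he)]; simp
    · rw [if_neg he]; push_cast; ring
  rw [hstep1, swap nx J hJJ hrev]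
  rw [← tsum_J J hJJ (fun x => (hN nx K t n x : ENNReal) * ∑ y ∈ nx (J x), f (J (J y)))]
  apply tsum_congr
  intro e
  rw [hJJ]
  simp only [hJJ]
  by_cases he : e ∈ K
  · rw [hN_K nx K t ht n (J e) (hKJ e he)]; simp
  · rw [Bk, if_neg he]

include hJJ hrev hKJ in
lemma dualn (t : D) (ht : t ∉ K) (n : ℕ) (f : D → ENNReal) (hf : ∀ e ∈ K, f e = 0) :
    ∑' e, (hN nx K t n (J e) : ENNReal) * f e = ((Bk nx K)^[n] f) (J t) := by
  induction n generalizing f with
  | zero =>
    rw [tsum_eq_single (J t)]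
    · simp [hN, hJJ]
    · intro e he
      rw [hN, if_neg]
      · simp
      · intro h; apply he; rw [← h, hJJ]
  | succ n ih =>
    rw [dual1 nx J K hJJ hrev hKJ t ht n f hf, ih]
    · rw [Function.iterate_succ_apply]
    · intro e he; simp [Bk, he]

lemma Bk_hN (t : D) (n m : ℕ) (e : D) :
    ((Bk nx K)^[n] (fun e => (hN nx K t m e : ENNReal))) e = (hN nx K t (n + m) e : ENNReal) := by
  induction n generalizing e with
  | zero => simp
  | succ n ih =>
    rw [Function.iterate_succ_apply', Bk]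
    have : n + 1 + m = (n + m) + 1 := by omega
    rw [this, hN]
    split_ifs
    · simp
    · push_cast
      exact Finset.sum_congr rfl (fun x _ => ih x)

lemma Bk_tot (n : ℕ) (e : D) :
    ((Bk nx K)^[n] (fun e => if e ∈ K then 0 else 1)) e = ENNReal.ofReal (tot nx K n e) := by
  induction n generalizing e with
  | zero => simp only [Function.iterate_zero, id, tot]; split_ifs <;> simp
  | succ n ih =>
    rw [Function.iterate_succ_apply', Bk, tot]
    split_ifs
    · simp
    · rw [ENNReal.ofReal_sum_of_nonneg]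
      · exact Finset.sum_congr rfl (fun x _ => ih x)
      · intro x _
        exact tot_nonneg nx K n x

include hJJ hrev hKJ in
lemma Ystep (hcard : ∀ e, (nx e).card = q)
    (hcross : ∀ e e' x, x ∈ nx e → x ∈ nx e' → e ≠ e' → J e' ∈ nx e)
    (t : D) (ht : t ∉ K) (n : ℕ) :
    ∑' e, (hN nx K t (n + 1) e : ENNReal) ^ 2 ≤
      q * ∑' e, (hN nx K t n e : ENNReal) ^ 2 + q * (hN nx K t (2 * n + 1) (J t) : ENNReal) := by
  set g : D → ENNReal := fun x => (hN nx K t n x : ENNReal) ^ 2 +
    (hN nx K t n x : ENNReal) * ∑ y ∈ nx (J x), (hN nx K t n y : ENNReal) with hg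
  have h1 : ∀ e, (hN nx K t (n + 1) e : ENNReal) ^ 2 ≤ 1 * ∑ x ∈ nx e, g x := by
    intro e
    rw [one_mul, hN]
    split_ifs with he
    · simp
    · push_cast
      rw [sq, Finset.sum_mul]
      apply Finset.sum_le_sum
      intro x hx
      rw [hg]
      simp only
      rw [← Finset.add_sum_erase _ _ hx, mul_add, ← sq]
      apply add_le_add (le_refl _)
      apply mul_le_mul_right
      apply Finset.sum_le_sum_of_subset
      intro y hy
      rw [Finset.mem_erase] at hy
      have ha := hrev e x hx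
      have hb := hrev e y hy.2
      have hne : J x ≠ J y := by
        intro h
        apply hy.1
        have := congrArg J h
        rw [hJJ, hJJ] at this
        exact this.symm
      have := hcross (J x) (J y) (J e) ha hb hne
      rwa [hJJ] at this
  have h2 : ∑' e, (hN nx K t (n + 1) e : ENNReal) ^ 2 ≤ ∑' x, g x * q := by
    calc _ ≤ ∑' e, 1 * ∑ x ∈ nx e, g x := ENNReal.tsum_le_tsum h1
      _ = ∑' x, g x * ∑ y ∈ nx (J x), (1 : ENNReal) :=
        swap nx J hJJ hrev (fun _ => 1) g
      _ = ∑' x, g x * q := by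
        apply tsum_congr
        intro x
        rw [Finset.sum_const, hcard]
        simp
  refine h2.trans ?_
  rw [ENNReal.tsum_mul_right, mul_comm, hg, ENNReal.tsum_add, mul_add]
  apply add_le_add (le_refl _)
  apply mul_le_mul_right
  have h3 : ∑' e, (hN nx K t n (J e) : ENNReal) * (hN nx K t (n + 1) e : ENNReal)
      = (hN nx K t (2 * n + 1) (J t) : ENNReal) := by
    rw [dualn nx J K hJJ hrev hKJ t ht n (fun e => (hN nx K t (n + 1) e : ENNReal)), Bk_hN]
    · congr 2; ring
    · intro e he; rw [hN_K nx K t ht _ e he]; simp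
  rw [← h3, ← tsum_J J hJJ]
  apply ENNReal.tsum_le_tsum
  intro e
  rw [hJJ]
  by_cases he : e ∈ K
  · rw [hN_K nx K t ht n (J e) (hKJ e he)]; simp
  · apply mul_le_mul_right
    rw [hN, if_neg he]; push_cast; exact le_refl _

include hJJ hrev hKJ in
lemma Ybound (hq : 0 < q) (hcard : ∀ e, (nx e).card = q)
    (hcross : ∀ e e' x, x ∈ nx e → x ∈ nx e' → e ≠ e' → J e' ∈ nx e)
    (t : D) (ht : t ∉ K) (n : ℕ) :
    ∑' e, (hN nx K t n e : ENNReal) ^ 2 ≤
      ENNReal.ofReal ((q : ℝ) ^ n * (1 + ∑ k ∈ range n, (hN nx K t (2 * k + 1) (J t) : ℝ) / (q : ℝ) ^ k)) := by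
  have hq' : (0 : ℝ) < q := by exact_mod_cast hq
  induction n with
  | zero =>
    rw [tsum_eq_single t]
    · simp [hN]
    · intro e he; simp [hN, he]
  | succ n ih =>
    refine (Ystep q nx J K hJJ hrev hKJ hcard hcross t ht n).trans ?_
    refine (add_le_add (mul_le_mul_right ih _) (le_refl _)).trans ?_
    have h1 : (q : ENNReal) = ENNReal.ofReal (q : ℝ) := by simp
    have h2 : (hN nx K t (2 * n + 1) (J t) : ENNReal) = ENNReal.ofReal (hN nx K t (2 * n + 1) (J t) : ℝ) := by simp
    rw [h1, h2, ← ENNReal.ofReal_mul hq'.le, ← ENNReal.ofReal_mul hq'.le, ← ENNReal.ofReal_add]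
    · apply ENNReal.ofReal_le_ofReal
      rw [Finset.sum_range_succ]
      have h5 : (q : ℝ) * ((q : ℝ) ^ n * (1 + ∑ k ∈ range n, (hN nx K t (2 * k + 1) (J t) : ℝ) / (q : ℝ) ^ k))
          + q * (hN nx K t (2 * n + 1) (J t) : ℝ)
          = (q : ℝ) ^ (n + 1) * (1 + (∑ k ∈ range n, (hN nx K t (2 * k + 1) (J t) : ℝ) / (q : ℝ) ^ k
            + (hN nx K t (2 * n + 1) (J t) : ℝ) / (q : ℝ) ^ n)) := by
        field_simp
        ring
      rw [h5]
    · positivity
    · positivity

include hJJ hrev hKJ in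
lemma supp_reach (e0 : D) (h0 : e0 ∉ K) (n : ℕ) (e : D) (h : hN nx K (J e0) n (J e) ≠ 0) :
    e ∈ reach nx e0 n := by
  induction n generalizing e with
  | zero =>
    rw [hN] at h
    have : J e = J e0 := by by_contra hc; rw [if_neg hc] at h; exact h rfl
    have h2 := congrArg J this
    rw [hJJ, hJJ] at h2
    rw [reach, h2]; simp
  | succ n ih =>
    rw [hN] at h
    by_cases hK : J e ∈ K
    · rw [if_pos hK] at h; exact absurd rfl h
    · rw [if_neg hK] at h
      obtain ⟨x, hx, hx2⟩ := Finset.exists_ne_zero_of_sum_ne_zero h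
      rw [reach, Finset.mem_biUnion]
      refine ⟨J x, ih (J x) (by rwa [hJJ]), ?_⟩
      have := hrev _ _ hx
      rwa [hJJ] at this

include hJJ hrev hKJ in
theorem partC (hq : 0 < q) (hcard : ∀ e, (nx e).card = q)
    (hcross : ∀ e e' x, x ∈ nx e → x ∈ nx e' → e ≠ e' → J e' ∈ nx e)
    (φ : D → ℝ) (hφ0 : ∀ e, 0 ≤ φ e)
    (hφ : ∀ e, ∑ x ∈ nx e, φ x ≤ Real.sqrt q * φ e) (ee e0 : D) (h0 : e0 ∉ K) (hee : ee ∈ K)
    (het : ee ∈ nx (J e0)) (hpos : 0 < φ ee)
    (p : ℝ) (hp : 0 < p) (htot : ∀ n, p * (q : ℝ) ^ n ≤ tot nx K n e0) :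
    ∃ c : ℝ, 0 < c ∧ ∀ n, c * (q : ℝ) ^ n ≤ ((reach nx e0 n).card : ℝ) := by
  have hq' : (0 : ℝ) < q := by exact_mod_cast hq
  have hsq : 0 < Real.sqrt q := Real.sqrt_pos.mpr hq'
  have ht : J e0 ∉ K := by
    intro h; apply h0; have := hKJ _ h; rwa [hJJ] at this
  set s : ℝ := φ ee / Real.sqrt q with hs
  have hspos : 0 < s := div_pos hpos hsq
  set C1 : ℝ := Real.sqrt q * (φ e0 / s) with hC1
  have hC1nn : 0 ≤ C1 := mul_nonneg hsq.le (div_nonneg (hφ0 e0) hspos.le)
  have hG : ∀ n, ∑ k ∈ range n, (hN nx K (J e0) (2 * k + 1) e0 : ℝ) / (q : ℝ) ^ k ≤ C1 := by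
    intro n
    have h1 := green q nx K hq φ hφ0 hφ (J e0) ee ht hee het (2 * n + 1) e0
    have h2 : ∑ k ∈ range n, (hN nx K (J e0) (2 * k + 1) e0 : ℝ) / (Real.sqrt q) ^ (2 * k + 1)
        ≤ ∑ m ∈ range (2 * n + 1), (hN nx K (J e0) m e0 : ℝ) / (Real.sqrt q) ^ m := by
      rw [← Finset.sum_image (s := range n) (g := fun k => 2 * k + 1)
        (f := fun m => (hN nx K (J e0) m e0 : ℝ) / (Real.sqrt q) ^ m)]
      · apply Finset.sum_le_sum_of_subset_of_nonneg
        · intro m hm
          rw [Finset.mem_image] at hm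
          obtain ⟨k, hk, rfl⟩ := hm
          rw [Finset.mem_range] at hk ⊢
          omega
        · intro m _ _
          positivity
      · intro a _ b _ hab
        simp only at hab
        omega
    have h3 : ∑ k ∈ range n, (hN nx K (J e0) (2 * k + 1) e0 : ℝ) / (q : ℝ) ^ k
        = Real.sqrt q * ∑ k ∈ range n, (hN nx K (J e0) (2 * k + 1) e0 : ℝ) / (Real.sqrt q) ^ (2 * k + 1) := by
      rw [Finset.mul_sum]
      apply Finset.sum_congr rfl
      intro k _
      rw [pow_succ, pow_mul, Real.sq_sqrt hq'.le]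
      field_simp
    rw [h3, hC1]
    apply mul_le_mul_of_nonneg_left _ hsq.le
    rw [le_div_iff₀ hspos, mul_comm]
    exact (mul_le_mul_of_nonneg_left h2 hspos.le).trans h1
  refine ⟨p ^ 2 / (1 + C1), by positivity, ?_⟩
  intro n
  -- total mass
  have hT : ∑ e ∈ reach nx e0 n, (hN nx K (J e0) n (J e) : ℝ) = tot nx K n e0 := by
    have h1 := dualn nx J K hJJ hrev hKJ (J e0) ht n (fun e => if e ∈ K then 0 else 1)
      (by intro e he; simp [he])
    rw [Bk_tot, hJJ] at h1
    rw [tsum_eq_sum (s := reach nx e0 n)] at h1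
    · have h2 : ∑ e ∈ reach nx e0 n, (hN nx K (J e0) n (J e) : ENNReal) * (if e ∈ K then 0 else 1)
          = ENNReal.ofReal (∑ e ∈ reach nx e0 n, (hN nx K (J e0) n (J e) : ℝ)) := by
        rw [ENNReal.ofReal_sum_of_nonneg (by intro i _; positivity)]
        apply Finset.sum_congr rfl
        intro e _
        by_cases he : e ∈ K
        · rw [hN_K nx K (J e0) ht n (J e) (hKJ e he)]; simp
        · simp [he]
      rw [h2] at h1
      have h3 := congrArg ENNReal.toReal h1
      rwa [ENNReal.toReal_ofReal (by positivity), ENNReal.toReal_ofReal (tot_nonneg nx K n e0)] at h3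
    · intro e he
      by_contra hc
      apply he
      apply supp_reach nx J K hJJ hrev hKJ e0 h0 n e
      intro h
      apply hc
      rw [h]; simp
  have hS : ∑ e ∈ reach nx e0 n, (hN nx K (J e0) n (J e) : ℝ) ^ 2 ≤ (1 + C1) * (q : ℝ) ^ n := by
    have h1 := Ybound q nx J K hJJ hrev hKJ hq hcard hcross (J e0) ht n
    rw [← tsum_J J hJJ] at h1
    have h2 : ENNReal.ofReal (∑ e ∈ reach nx e0 n, (hN nx K (J e0) n (J e) : ℝ) ^ 2)
        ≤ ∑' e, (hN nx K (J e0) n (J e) : ENNReal) ^ 2 := by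
      refine le_trans (le_of_eq ?_) (ENNReal.sum_le_tsum (reach nx e0 n))
      rw [ENNReal.ofReal_sum_of_nonneg (by intro i _; positivity)]
      apply Finset.sum_congr rfl
      intro e _
      rw [ENNReal.ofReal_pow (by positivity)]
      simp
    have h3 := h2.trans h1
    rw [hJJ] at h3
    rw [ENNReal.ofReal_le_ofReal_iff (by positivity)] at h3
    refine h3.trans ?_
    rw [mul_comm]
    apply mul_le_mul_of_nonneg_right _ (by positivity)
    linarith [hG n]
  have hCS := sq_sum_le_card_mul_sum_sq (s := reach nx e0 n) (f := fun e => (hN nx K (J e0) n (J e) : ℝ))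
  rw [hT] at hCS
  have h1 : (p * (q : ℝ) ^ n) ^ 2 ≤ ((reach nx e0 n).card : ℝ) * ((1 + C1) * (q : ℝ) ^ n) := by
    calc (p * (q : ℝ) ^ n) ^ 2 ≤ (tot nx K n e0) ^ 2 := by
          apply pow_le_pow_left₀ (by positivity) (htot n)
      _ ≤ _ := hCS
      _ ≤ _ := mul_le_mul_of_nonneg_left hS (by positivity)
  have hqn : (0 : ℝ) < (q : ℝ) ^ n := by positivity
  have h2 : p ^ 2 * (q : ℝ) ^ n ≤ ((reach nx e0 n).card : ℝ) * (1 + C1) := by
    have : (p ^ 2 * (q : ℝ) ^ n) * (q : ℝ) ^ n ≤ (((reach nx e0 n).card : ℝ) * (1 + C1)) * (q : ℝ) ^ n := by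
      nlinarith [h1]
    exact le_of_mul_le_mul_right this hqn
  rw [div_mul_eq_mul_div, div_le_iff₀ (by positivity)]
  exact h2

end

end Pool.Agent.H23.Ram
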