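import Pool.Agent.H23.RamC

set_option autoImplicit false

namespace Pool.Agent.H23.Ram

open Finset Classical

section graph

variable {V : Type} (G : SimpleGraph V) [G.LocallyFinite]

/-- successors of a dart in the non-backtracking walk -/
noncomputable def nxt (e : G.Dart) : Finset G.Dart :=
  ((G.neighborFinset e.snd).erase e.fst).attach.image
    (fun z => ⟨(e.snd, z.1), by
      have := z.2
      rw [Finset.mem_erase, SimpleGraph.mem_neighborFinset] at this
      exact this.2⟩)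

lemma mem_nxt (e x : G.Dart) : x ∈ nxt G e ↔ x.fst = e.snd ∧ x.snd ≠ e.fst := by
  unfold nxt
  rw [Finset.mem_image]
  constructor
  · rintro ⟨z, _, rfl⟩
    have := z.2
    rw [Finset.mem_erase, SimpleGraph.mem_neighborFinset] at this
    exact ⟨rfl, this.1⟩
  · rintro ⟨h1, h2⟩
    refine ⟨⟨x.snd, ?_⟩, Finset.mem_attach _ _, ?_⟩
    · rw [Finset.mem_erase, SimpleGraph.mem_neighborFinset]
      refine ⟨h2, ?_⟩
      have := x.adj
      rw [← h1]; exact this
    · apply SimpleGraph.Dart.ext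
      simp only
      rw [← h1]

lemma sum_nxt (e : G.Dart) (F : V → V → ℝ) :
    ∑ x ∈ nxt G e, F x.fst x.snd = ∑ z ∈ (G.neighborFinset e.snd).erase e.fst, F e.snd z := by
  unfold nxt
  rw [Finset.sum_image]
  · rw [← Finset.sum_attach ((G.neighborFinset e.snd).erase e.fst)]
  · intro a _ b _ hab
    have := congrArg (fun d : G.Dart => d.snd) hab
    simp only at this
    exact Subtype.ext this

lemma card_nxt (d : ℕ) (hreg : G.IsRegularOfDegree d) (e : G.Dart) : (nxt G e).card = d - 1 := by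
  unfold nxt
  rw [Finset.card_image_of_injective]
  · rw [Finset.card_attach, Finset.card_erase_of_mem]
    · rw [SimpleGraph.card_neighborFinset_eq_degree, hreg]
    · rw [SimpleGraph.mem_neighborFinset]; exact e.adj.symm
  · intro a b hab
    have := congrArg (fun d : G.Dart => d.snd) hab
    simp only at this
    exact Subtype.ext this

lemma nxt_rev (e x : G.Dart) (h : x ∈ nxt G e) : e.symm ∈ nxt G x.symm := by
  rw [mem_nxt] at h ⊢
  exact ⟨h.1.symm, fun h2 => h.2 h2.symm⟩

lemma nxt_cross (e e' x : G.Dart) (h : x ∈ nxt G e) (h' : x ∈ nxt G e') (hne : e ≠ e') :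
    e'.symm ∈ nxt G e := by
  rw [mem_nxt] at h h' ⊢
  have hs : e'.snd = e.snd := by rw [← h.1, ← h'.1]
  refine ⟨hs, ?_⟩
  intro h2
  apply hne
  apply SimpleGraph.Dart.ext
  have h3 : e'.fst = e.fst := h2
  exact Prod.ext h3.symm hs.symm

lemma sum_nxt_psi (e : G.Dart) (ψ : V → ℝ) :
    ∑ x ∈ nxt G e, ψ x.snd = (∑ z ∈ G.neighborFinset e.snd, ψ z) - ψ e.fst := by
  rw [sum_nxt G e (fun _ b => ψ b)]
  have hm : e.fst ∈ G.neighborFinset e.snd := by
    rw [SimpleGraph.mem_neighborFinset]; exact e.adj.symm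
  rw [← Finset.add_sum_erase _ _ hm]
  ring

lemma sum_nxt_fst (q : ℕ) (hcard : ∀ e, (nxt G e).card = q) (e : G.Dart) (ψ : V → ℝ) :
    ∑ x ∈ nxt G e, ψ x.fst = q * ψ e.snd := by
  rw [← hcard e, ← nsmul_eq_mul, ← Finset.sum_const]
  apply Finset.sum_congr rfl
  intro x hx
  rw [mem_nxt] at hx
  rw [hx.1]

/-- the key positivity: `ψ y ≥ q^{-1/2} ψ x` on every edge -/
lemma phi_nonneg (q : ℕ) (hq : 2 ≤ q) (hcard : ∀ e, (nxt G e).card = q)
    (ψ : V → ℝ) (hψ : ∀ v, 0 < ψ v)
    (hsup : ∀ v, ∑ w ∈ G.neighborFinset v, ψ w ≤ 2 * Real.sqrt q * ψ v) (e : G.Dart) :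
    0 ≤ ψ e.snd - ψ e.fst / Real.sqrt q := by
  have hq' : (0 : ℝ) < q := by positivity
  have hsq : 0 < Real.sqrt q := Real.sqrt_pos.mpr hq'
  have hss : Real.sqrt q * Real.sqrt q = q := Real.mul_self_sqrt hq'.le
  have key : ∀ n : ℕ, ∀ e : G.Dart, (n : ℝ) / (n + 1) * (ψ e.fst / Real.sqrt q) ≤ ψ e.snd := by
    intro n
    induction n with
    | zero => intro e; simp; exact (hψ _).le
    | succ n ih =>
      intro e
      have h1 : ∑ x ∈ nxt G e, (n : ℝ) / (n + 1) * (ψ x.fst / Real.sqrt q) ≤ ∑ x ∈ nxt G e, ψ x.snd :=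
        Finset.sum_le_sum (fun x _ => ih x)
      rw [sum_nxt_psi, ← Finset.mul_sum, ← Finset.sum_div, sum_nxt_fst G q hcard] at h1
      have h2 := hsup e.snd
      have h3 : (q : ℝ) * ψ e.snd / Real.sqrt q = Real.sqrt q * ψ e.snd := by
        rw [div_eq_iff hsq.ne']
        nth_rewrite 1 [← hss]
        ring
      rw [h3] at h1
      have h4 : ψ e.fst ≤ (2 - (n : ℝ) / (n + 1)) * (Real.sqrt q * ψ e.snd) := by
        nlinarith
      have hn : (0 : ℝ) < (n : ℝ) + 1 := by positivity
      have h5 : (2 - (n : ℝ) / (n + 1)) = ((n : ℝ) + 2) / (n + 1) := by field_simp; ring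
      rw [h5] at h4
      push_cast
      rw [← mul_div_assoc, div_le_iff₀ hsq]
      have h6 : ((n : ℝ) + 1) / (n + 1 + 1) * ψ e.fst ≤
          ((n : ℝ) + 1) / (n + 1 + 1) * (((n : ℝ) + 2) / (n + 1) * (Real.sqrt q * ψ e.snd)) :=
        mul_le_mul_of_nonneg_left h4 (by positivity)
      refine h6.trans (le_of_eq ?_)
      field_simp
      ring
  by_contra hcon
  push Not at hcon
  set A := ψ e.fst / Real.sqrt q with hA
  have hApos : 0 < A := div_pos (hψ _) hsq
  obtain ⟨n, hn⟩ := exists_nat_gt (A / (A - ψ e.snd))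
  have hpos : 0 < A - ψ e.snd := by linarith
  have h1 := key n e
  rw [div_lt_iff₀ hpos] at hn
  have hn1 : (0 : ℝ) < (n : ℝ) + 1 := by positivity
  rw [← hA, div_mul_eq_mul_div, div_le_iff₀ hn1] at h1
  nlinarith

/-- from `ψ` to linear growth of the reach sets -/
theorem growth (q : ℕ) (hq : 2 ≤ q) (hcard : ∀ e, (nxt G e).card = q)
    (ψ : V → ℝ) (hψ : ∀ v, 0 < ψ v)
    (hsup : ∀ v, ∑ w ∈ G.neighborFinset v, ψ w ≤ 2 * Real.sqrt q * ψ v)
    (a : G.Dart) (ha : ψ a.fst ≤ ψ a.snd) :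
    ∃ e0 : G.Dart, ∃ c : ℝ, 0 < c ∧ ∀ n, c * (q : ℝ) ^ n ≤ ((reach (nxt G) e0 n).card : ℝ) := by
  have hq' : (0 : ℝ) < q := by positivity
  have hq2 : (2 : ℝ) ≤ q := by exact_mod_cast hq
  have hsq : 0 < Real.sqrt q := Real.sqrt_pos.mpr hq'
  have hsq1 : 1 < Real.sqrt q := by
    rw [Real.lt_sqrt (by norm_num)]; linarith
  have hss : Real.sqrt q * Real.sqrt q = q := Real.mul_self_sqrt hq'.le
  set r := Real.sqrt q with hr
  set s : ℝ := (1 - 1 / r) / 2 with hs
  have hr1 : 1 / r < 1 := by rw [div_lt_one hsq]; exact hsq1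
  have hr0 : 0 < 1 / r := by positivity
  have hspos : 0 < s := by rw [hs]; linarith
  set t : ℝ := 1 / r - s with ht
  have ht1 : -1 < t := by rw [ht, hs]; linarith
  set lam : ℝ := r + q * s with hlam
  have hrr : r * (1 / r) = 1 := by field_simp
  have hqs : (q : ℝ) * s = (q - r) / 2 := by
    rw [hs, ← hss]; field_simp
  have hlamlt : lam < q := by
    rw [hlam, hqs]; nlinarith
  have hlam0 : 0 ≤ lam := by rw [hlam]; positivity
  have hlamt : lam * t ≤ 1 := by
    have : lam * t = 1 - q * s ^ 2 := by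
      rw [hlam, ht, ← hss]; field_simp; ring
    rw [this]
    have : 0 ≤ (q : ℝ) * s ^ 2 := by positivity
    linarith
  set Φ : G.Dart → ℝ := fun e => ψ e.snd - t * ψ e.fst with hΦ
  have hφ := phi_nonneg G q hq hcard ψ hψ hsup
  have hΦpos : ∀ e, 0 < Φ e := by
    intro e
    have h1 := hφ e
    have h2 : Φ e = (ψ e.snd - ψ e.fst / r) + s * ψ e.fst := by
      rw [hΦ, ht]; ring
    rw [h2]
    have := mul_pos hspos (hψ e.fst)
    rw [← hr] at h1
    linarith
  have hΦsup : ∀ e, ∑ x ∈ nxt G e, Φ x ≤ lam * Φ e := by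
    intro e
    rw [hΦ]
    simp only
    rw [Finset.sum_sub_distrib, ← Finset.mul_sum, sum_nxt_psi, sum_nxt_fst G q hcard]
    have h1 := hsup e.snd
    have h2 : t * (q * ψ e.snd) = (r - q * s) * ψ e.snd := by
      rw [ht, ← hss]; field_simp
    rw [h2]
    have h3 : lam * t * ψ e.fst ≤ 1 * ψ e.fst := mul_le_mul_of_nonneg_right hlamt (hψ _).le
    have h4 : lam * (ψ e.snd - t * ψ e.fst) = lam * ψ e.snd - lam * t * ψ e.fst := by ring
    rw [h4, hlam] at *
    nlinarith
  set K : Finset G.Dart := {a, a.symm} with hK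
  have hmin : ∀ k' ∈ K, Φ a.symm ≤ Φ k' := by
    intro k' hk'
    rw [hK, Finset.mem_insert, Finset.mem_singleton] at hk'
    rcases hk' with rfl | rfl
    · rw [hΦ]
      simp only
      have h1 : (k'.symm).snd = k'.fst := rfl
      have h2 : (k'.symm).fst = k'.snd := rfl
      rw [h1, h2]
      nlinarith
    · exact le_refl _
  obtain ⟨e0, he0, p, hp, htot⟩ := partD q (nxt G) hcard Φ hΦpos lam hlam0 hlamlt hΦsup K a.symm hmin
  have h0 : e0 ∉ K := by
    intro h
    have := htot 0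
    rw [tot, if_pos h] at this
    simp at this
    linarith
  have hKJ : ∀ e ∈ K, e.symm ∈ K := by
    intro e he
    rw [hK, Finset.mem_insert, Finset.mem_singleton] at he ⊢
    rcases he with rfl | rfl
    · right; rfl
    · left; exact SimpleGraph.Dart.symm_symm a
  obtain ⟨c, hc, hgr⟩ := partC q (nxt G) (fun e => e.symm) K (fun e => SimpleGraph.Dart.symm_symm e)
    (nxt_rev G) hKJ (by omega) hcard (nxt_cross G)
    (fun e => ψ e.snd - ψ e.fst / r) hφ (by
      intro e
      rw [Finset.sum_sub_distrib, ← Finset.sum_div, sum_nxt_psi, sum_nxt_fst G q hcard]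
      have h1 := hsup e.snd
      have h2 : (q : ℝ) * ψ e.snd / r = r * ψ e.snd := by
        rw [← hss]; field_simp
      have h3 : r * (ψ e.snd - ψ e.fst / r) = r * ψ e.snd - ψ e.fst := by field_simp
      rw [h2, h3]
      linarith)
    a e0 h0 (by rw [hK]; simp) (by
      have := nxt_rev G _ _ he0
      rwa [SimpleGraph.Dart.symm_symm] at this) (by
      have h1 : ψ a.fst / r < ψ a.fst := by
        rw [div_lt_iff₀ hsq]
        nlinarith [hψ a.fst]
      linarith) p hp htot
  exact ⟨e0, c, hc, hgr⟩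

/-- from dart functions to vertex functions -/
theorem dart_to_vertex (d : ℕ) (hd : 3 ≤ d) (hreg : G.IsRegularOfDegree d)
    (F : G.Dart → ℝ) (C : ℝ) (hC : ∀ e, |F e| ≤ C)
    (hF : ∀ e, ((d - 1 : ℕ) : ℝ) * F e = ∑ x ∈ nxt G e, F x) (a b : G.Dart) (hab : F a ≠ F b) :
    ∃ f : V → ℝ, (∃ C : ℝ, ∀ v, |f v| ≤ C) ∧
        (∀ v, (d : ℝ) * f v = ∑ w ∈ G.neighborFinset v, f w) ∧
        ∃ x y, f x ≠ f y := by
  set P : V → V → ℝ := fun x y => if h : G.Adj x y then F ⟨(x, y), h⟩ else 0 with hP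
  have hPF : ∀ e : G.Dart, P e.fst e.snd = F e := by
    intro e
    rw [hP]
    simp only
    rw [dif_pos e.adj]
  set q : ℝ := ((d - 1 : ℕ) : ℝ) with hq
  have hqd : (d : ℝ) = q + 1 := by
    rw [hq]
    have : d = (d - 1) + 1 := by omega
    conv_lhs => rw [this]
    push_cast; ring
  have hq2 : 2 ≤ q := by
    have : (3 : ℝ) ≤ d := by exact_mod_cast hd
    linarith
  set f : V → ℝ := fun x => ∑ y ∈ G.neighborFinset x, P x y with hf
  have hstep : ∀ x y, G.Adj x y → q * P x y = f y - P y x := by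
    intro x y h
    have h1 := hF ⟨(x, y), h⟩
    have h2 : ∑ e ∈ nxt G ⟨(x, y), h⟩, F e = ∑ e ∈ nxt G ⟨(x, y), h⟩, P e.fst e.snd :=
      Finset.sum_congr rfl (fun e _ => (hPF e).symm)
    rw [h2, sum_nxt] at h1
    have h3 : P x y = F ⟨(x, y), h⟩ := hPF ⟨(x, y), h⟩
    rw [h3, h1, hf]
    simp only
    have hm : x ∈ G.neighborFinset y := by rw [SimpleGraph.mem_neighborFinset]; exact h.symm
    rw [← Finset.add_sum_erase _ _ hm]
    ring
  refine ⟨f, ⟨d * |C|, ?_⟩, ?_, ?_⟩
  · intro v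
    rw [hf]
    simp only
    calc |∑ y ∈ G.neighborFinset v, P v y| ≤ ∑ y ∈ G.neighborFinset v, |P v y| :=
          Finset.abs_sum_le_sum_abs _ _
      _ ≤ ∑ _y ∈ G.neighborFinset v, |C| := by
          apply Finset.sum_le_sum
          intro y hy
          rw [SimpleGraph.mem_neighborFinset] at hy
          rw [hP]
          simp only
          rw [dif_pos hy]
          exact (hC _).trans (le_abs_self C)
      _ = d * |C| := by
          rw [Finset.sum_const, SimpleGraph.card_neighborFinset_eq_degree, hreg, nsmul_eq_mul]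
  · intro v
    have h1 : ∀ w ∈ G.neighborFinset v, q * f w = (q * q - 1) * P v w + f v := by
      intro w hw
      rw [SimpleGraph.mem_neighborFinset] at hw
      have h1 := hstep v w hw
      have h2 := hstep w v hw.symm
      have h3 : f w = q * P v w + P w v := by linarith
      rw [h3]
      linear_combination h2
    have h2 : q * ∑ w ∈ G.neighborFinset v, f w = (q * q - 1) * f v + d * f v := by
      rw [Finset.mul_sum, Finset.sum_congr rfl h1, Finset.sum_add_distrib, ← Finset.mul_sum,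
        Finset.sum_const, SimpleGraph.card_neighborFinset_eq_degree, hreg, nsmul_eq_mul]
    have h3 : q * (∑ w ∈ G.neighborFinset v, f w - d * f v) = 0 := by
      rw [mul_sub, h2, hqd]; ring
    have h4 : q ≠ 0 := by linarith
    rcases mul_eq_zero.mp h3 with h | h
    · exact absurd h h4
    · linarith
  · by_contra hcon
    push Not at hcon
    apply hab
    have hF2 : ∀ e : G.Dart, (q * q - 1) * F e = (q - 1) * f a.fst := by
      intro e
      have h1 := hstep e.fst e.snd e.adj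
      have h2 := hstep e.snd e.fst e.adj.symm
      rw [hPF e] at h1 h2
      rw [hcon e.snd a.fst] at h1
      rw [hcon e.fst a.fst] at h2
      linear_combination q * h1 - h2
    have h1 := hF2 a
    have h2 := hF2 b
    have h3 : (q * q - 1) * (F a - F b) = 0 := by linarith
    rcases mul_eq_zero.mp h3 with h | h
    · nlinarith
    · linarith

end graph

end Pool.Agent.H23.Ram
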