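import Mathlib

open scoped InnerProductSpace ComplexStarModule
open ContinuousLinearMap Filter Topology

namespace H23Red

variable {H : Type*} [NormedAddCommGroup H] [InnerProductSpace ℂ H] [CompleteSpace H]

/-- The spectral subspace `(-∞, t]` of `R`, described without spectral measures. -/
noncomputable def K (R : H →L[ℂ] H) (t : ℝ) : Submodule ℂ H where
  carrier := {x | ∀ f : ℝ → ℝ, Continuous f → ∀ s, t < s → (∀ y ≤ s, f y = 0) → cfc f R x = 0}
  add_mem' := by
    intro a b ha hb f hf s hs h0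
    rw [map_add, ha f hf s hs h0, hb f hf s hs h0, add_zero]
  zero_mem' := by
    intro f hf s hs h0; simp
  smul_mem' := by
    intro c x hx f hf s hs h0
    rw [map_smul, hx f hf s hs h0, smul_zero]

lemma mem_K {R : H →L[ℂ] H} {t : ℝ} {x : H} : x ∈ K R t ↔
    ∀ f : ℝ → ℝ, Continuous f → ∀ s, t < s → (∀ y ≤ s, f y = 0) → cfc f R x = 0 := Iff.rfl

lemma K_closed (R : H →L[ℂ] H) (t : ℝ) : IsClosed (K R t : Set H) := by
  have : (K R t : Set H) = ⋂ (f : ℝ → ℝ) (_ : Continuous f) (s : ℝ) (_ : t < s)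
      (_ : ∀ y ≤ s, f y = 0), {x | cfc f R x = 0} := by
    ext x
    simp only [SetLike.mem_coe, mem_K, Set.mem_iInter, Set.mem_setOf_eq]
  rw [this]
  refine isClosed_iInter fun f => isClosed_iInter fun _ => isClosed_iInter fun s =>
    isClosed_iInter fun _ => isClosed_iInter fun _ => ?_
  exact isClosed_eq (cfc f R).continuous continuous_const

instance (R : H →L[ℂ] H) (t : ℝ) : (K R t).HasOrthogonalProjection := by
  haveI := (K_closed R t).completeSpace_coe
  infer_instance

lemma K_mono (R : H →L[ℂ] H) {s t : ℝ} (h : s ≤ t) : K R s ≤ K R t :=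
  fun _ hx f hf r hr h0 => hx f hf r (lt_of_le_of_lt h hr) h0

/-- cutoff: 1 on (-∞,a], 0 on [b,∞). -/
noncomputable def cut (a b y : ℝ) : ℝ := max 0 (min 1 ((b - y) / (b - a)))

lemma cut_cont (a b : ℝ) : Continuous (cut a b) := by unfold cut; fun_prop

lemma cut_one {a b y : ℝ} (hab : a < b) (hy : y ≤ a) : cut a b y = 1 := by
  have : 1 ≤ (b - y) / (b - a) := by
    rw [le_div_iff₀ (by linarith)]; linarith
  unfold cut; rw [min_eq_left this]; norm_num

lemma cut_zero {a b y : ℝ} (hab : a < b) (hy : b ≤ y) : cut a b y = 0 := by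
  have : (b - y) / (b - a) ≤ 0 := div_nonpos_of_nonpos_of_nonneg (by linarith) (by linarith)
  unfold cut; rw [max_eq_left]; exact (min_le_right _ _).trans this

/-- `S` is local with respect to `R`. -/
def Loc (R S : H →L[ℂ] H) : Prop := ∀ f g : ℝ → ℝ, Continuous f → Continuous g →
  (∀ y, f y * g y = 0) → ∀ v, cfc f R (S (cfc g R (cfc g R v))) = 0

lemma fix_of_mem {R : H →L[ℂ] H} (hR : IsSelfAdjoint R) {t : ℝ} {x : H} (hx : x ∈ K R t)
    {a b : ℝ} (hta : t < a) (hab : a < b) : cfc (cut a b) R x = x := by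
  have h1 : cfc (fun y => (1:ℝ) - cut a b y) R x = 0 :=
    hx _ (by have := cut_cont a b; fun_prop) a hta (fun y hy => by rw [cut_one hab hy]; ring)
  rw [cfc_sub (fun _ => (1:ℝ)) (cut a b) R (by fun_prop) (cut_cont a b).continuousOn,
    cfc_const_one ℝ R] at h1
  rw [ContinuousLinearMap.sub_apply, ContinuousLinearMap.one_apply, sub_eq_zero] at h1
  exact h1.symm

lemma S_mem {R S : H →L[ℂ] H} (hR : IsSelfAdjoint R) (hS : Loc R S) {t : ℝ} {x : H}
    (hx : x ∈ K R t) : S x ∈ K R t := by
  intro f hf s hs h0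
  have hab : (s + t)/2 < s := by linarith
  have hta : t < (s+t)/2 := by linarith
  have hfix := fix_of_mem hR hx hta hab
  have := hS f (cut ((s+t)/2) s) hf (cut_cont _ _) (fun y => by
    rcases le_total y s with h | h
    · rw [h0 y h, zero_mul]
    · rw [cut_zero hab h, mul_zero]) x
  rwa [hfix, hfix] at this

lemma comm_mem {R T : H →L[ℂ] H} (hT : ∀ f : ℝ → ℝ, Commute (cfc f R) T) {t : ℝ} {x : H}
    (hx : x ∈ K R t) : T x ∈ K R t := by
  intro f hf s hs h0
  have h2 : cfc f R (T x) = T (cfc f R x) := by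
    have := congrArg (fun Z : H →L[ℂ] H => Z x) (hT f).eq
    simpa using this
  rw [h2, hx f hf s hs h0, map_zero]

lemma sa_inner {T : H →L[ℂ] H} (hT : IsSelfAdjoint T) (x y : H) :
    ⟪T x, y⟫_ℂ = ⟪x, T y⟫_ℂ := by
  have h := ContinuousLinearMap.adjoint_inner_left T y x
  rw [← ContinuousLinearMap.star_eq_adjoint, hT.star_eq] at h
  exact h

lemma bound {R : H →L[ℂ] H} (hR : IsSelfAdjoint R) {s t : ℝ} (hst : s < t) {y : H}
    (hy : y ∈ K R t) (hy' : y ∈ (K R s)ᗮ) :
    ‖cfc (fun u : ℝ => u - s) R y‖ ≤ 2 * (t - s) * ‖y‖ := by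
  -- χ vanishing on [s,∞) gives χ(R) y = 0
  have key : ∀ χ : ℝ → ℝ, Continuous χ → (∀ u, s ≤ u → χ u = 0) → cfc χ R y = 0 := by
    intro χ hχ h0
    have hmem : ∀ z, cfc χ R z ∈ K R s := by
      intro z f hf r hr hf0
      have h1 : cfc f R * cfc χ R = 0 := by
        rw [← cfc_mul f χ R hf.continuousOn hχ.continuousOn]
        have h2 : (fun u => f u * χ u) = fun _ => (0:ℝ) := by
          funext u
          rcases le_total u r with h | h
          · rw [hf0 u h, zero_mul]
          · rw [h0 u (hr.le.trans h), mul_zero]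
        rw [h2, cfc_const_zero]
      have h3 := congrArg (fun Z : H →L[ℂ] H => Z z) h1
      simpa using h3
    have hsa : IsSelfAdjoint (cfc χ R) := cfc_predicate χ R
    have h1 : ⟪cfc χ R (cfc χ R y), y⟫_ℂ = 0 := hy' _ (hmem _)
    rw [sa_inner hsa] at h1
    exact inner_self_eq_zero.mp h1
  have hneg : cfc (fun u : ℝ => min (u - s) 0) R y = 0 :=
    key _ (by fun_prop) (fun u hu => by rw [min_eq_right]; linarith)
  have hpos : cfc (fun u : ℝ => max (u - s - 2 * (t - s)) 0) R y = 0 :=
    hy _ (by fun_prop) (s + 2 * (t - s)) (by linarith)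
      (fun u hu => by rw [max_eq_right]; linarith)
  have hdec : cfc (fun u : ℝ => u - s) R y
      = cfc (fun u : ℝ => max 0 (min (u - s) (2 * (t - s)))) R y := by
    have h1 : (fun u : ℝ => u - s) = fun u => (max 0 (min (u - s) (2 * (t - s))) +
        min (u - s) 0) + max (u - s - 2 * (t - s)) 0 := by
      funext u
      rcases le_total u s with h | h
      · rw [min_eq_left (by linarith), max_eq_left (by linarith), min_eq_left (by linarith),
          max_eq_right (by linarith)]
        ring
      · rcases le_total (u - s) (2 * (t - s)) with h' | h'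
        · rw [min_eq_left h', max_eq_right (by linarith), min_eq_right (by linarith),
            max_eq_right (by linarith)]
          ring
        · rw [min_eq_right h', max_eq_right (by linarith), min_eq_right (by linarith),
            max_eq_left (by linarith)]
          ring
    conv_lhs => rw [h1]
    rw [cfc_add R (fun u : ℝ => max 0 (min (u - s) (2 * (t - s))) + min (u - s) 0)
        (fun u : ℝ => max (u - s - 2 * (t - s)) 0) (by fun_prop) (by fun_prop),
      cfc_add R (fun u : ℝ => max 0 (min (u - s) (2 * (t - s)))) (fun u : ℝ => min (u - s) 0)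
        (by fun_prop) (by fun_prop),
      ContinuousLinearMap.add_apply, ContinuousLinearMap.add_apply, hneg, hpos, add_zero, add_zero]
  rw [hdec]
  refine (ContinuousLinearMap.le_opNorm _ _).trans ?_
  gcongr
  refine norm_cfc_le (by linarith) (fun u _ => ?_)
  rw [Real.norm_eq_abs, abs_of_nonneg (le_max_left _ _)]
  exact max_le (by linarith) (min_le_right _ _)

lemma const_of_sq {a : ℝ → ℝ} {c : ℝ} (h : ∀ s t, |a t - a s| ≤ c * (t - s)^2) (s t : ℝ) :
    a s = a t := by
  have hd : ∀ x, HasDerivAt a 0 x := by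
    intro x
    rw [hasDerivAt_iff_isLittleO]
    simp only [smul_zero, sub_zero]
    have h1 : (fun x' => a x' - a x) =O[𝓝 x] (fun x' => ‖x' - x‖^2) :=
      Asymptotics.IsBigO.of_bound c (Eventually.of_forall fun x' => by
        rw [Real.norm_eq_abs, Real.norm_eq_abs, Real.norm_eq_abs, sq_abs,
          abs_of_nonneg (sq_nonneg (x' - x))]; exact h x x')
    exact h1.trans_isLittleO (Asymptotics.isLittleO_pow_sub_sub x (by norm_num))
  exact is_const_of_deriv_eq_zero (fun x => (hd x).differentiableAt) (fun x => (hd x).deriv) s t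

lemma main_comm {R S : H →L[ℂ] H} (hR : IsSelfAdjoint R) (hSs : IsSelfAdjoint S)
    (hS : Loc R S) : R * S = S * R := by
  have hRc : ∀ f : ℝ → ℝ, Commute (cfc f R) R := fun f => (Commute.refl R).cfc_real f
  have hRm : ∀ t x, x ∈ K R t → R x ∈ K R t := fun t x hx => comm_mem hRc hx
  have hSm : ∀ t x, x ∈ K R t → S x ∈ K R t := fun t x hx => S_mem hR hS hx
  have hSo : ∀ t x, x ∈ (K R t)ᗮ → S x ∈ (K R t)ᗮ := by
    intro t x hx z hz
    rw [← sa_inner hSs]
    exact hx _ (hSm t z hz)
  have hRo : ∀ t x, x ∈ (K R t)ᗮ → R x ∈ (K R t)ᗮ := by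
    intro t x hx z hz
    rw [← sa_inner hR]
    exact hx _ (hRm t z hz)
  set C : H →L[ℂ] H := R * S - S * R with hC
  have hCx : ∀ x, C x = R (S x) - S (R x) := fun x => by simp [hC]
  have hCm : ∀ t x, x ∈ K R t → C x ∈ K R t := by
    intro t x hx
    rw [hCx]
    exact Submodule.sub_mem _ (hRm _ _ (hSm _ _ hx)) (hSm _ _ (hRm _ _ hx))
  have hCo : ∀ t x, x ∈ (K R t)ᗮ → C x ∈ (K R t)ᗮ := by
    intro t x hx
    rw [hCx]
    exact Submodule.sub_mem _ (hRo _ _ (hSo _ _ hx)) (hSo _ _ (hRo _ _ hx))
  have hD : ∀ (s : ℝ) (x : H), C x = cfc (fun u : ℝ => u - s) R (S x)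
      - S (cfc (fun u : ℝ => u - s) R x) := by
    intro s x
    have h1 : cfc (fun u : ℝ => u - s) R = R - algebraMap ℝ (H →L[ℂ] H) s := by
      rw [cfc_sub (fun u : ℝ => u) (fun _ => s) R (by fun_prop) (by fun_prop),
        cfc_id' ℝ R, cfc_const s R]
    have h2 : R * S - S * R = (R - algebraMap ℝ (H →L[ℂ] H) s) * S
        - S * (R - algebraMap ℝ (H →L[ℂ] H) s) := by
      rw [sub_mul, mul_sub, Algebra.commutes s S]
      abel
    rw [h1, hC, h2]
    simp
  have hCb : ∀ s t y, s < t → y ∈ K R t → y ∈ (K R s)ᗮ → ‖C y‖ ≤ 4 * ‖S‖ * (t - s) * ‖y‖ := by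
    intro s t y hst hy hy'
    rw [hD s y]
    have h1 := bound hR hst (hSm t y hy) (hSo s y hy')
    have h2 := bound hR hst hy hy'
    have h3 : ‖S (cfc (fun u : ℝ => u - s) R y)‖ ≤ ‖S‖ * (2 * (t - s) * ‖y‖) :=
      (S.le_opNorm _).trans (by gcongr)
    have h4 : ‖cfc (fun u : ℝ => u - s) R (S y)‖ ≤ 2 * (t - s) * (‖S‖ * ‖y‖) :=
      h1.trans (mul_le_mul_of_nonneg_left (S.le_opNorm y) (by linarith))
    calc _ ≤ ‖cfc (fun u : ℝ => u - s) R (S y)‖ + ‖S (cfc (fun u : ℝ => u - s) R y)‖ :=
          norm_sub_le _ _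
      _ ≤ 2 * (t - s) * (‖S‖ * ‖y‖) + ‖S‖ * (2 * (t - s) * ‖y‖) := add_le_add h4 h3
      _ = _ := by ring
  -- the key function
  have hstep : ∀ x : H, ∀ s t : ℝ, s < t →
      |‖C ((K R t).starProjection x)‖^2 - ‖C ((K R s).starProjection x)‖^2|
        ≤ (8 * ‖S‖ * ‖x‖)^2 * (t - s)^2 := by
    intro x s t hst
    set p := (K R t).starProjection x with hp
    set q := (K R s).starProjection x with hq
    have hpm : p ∈ K R t := Submodule.starProjection_apply_mem _ _
    have hqm : q ∈ K R s := Submodule.starProjection_apply_mem _ _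
    have hy : p - q ∈ K R t := Submodule.sub_mem _ hpm (K_mono R hst.le hqm)
    have hy' : p - q ∈ (K R s)ᗮ := by
      have h1 : x - q ∈ (K R s)ᗮ := Submodule.sub_starProjection_mem_orthogonal x
      have h2 : x - p ∈ (K R s)ᗮ :=
        Submodule.orthogonal_le (K_mono R hst.le) (Submodule.sub_starProjection_mem_orthogonal x)
      have h3 : p - q = (x - q) - (x - p) := by abel
      rw [h3]
      exact Submodule.sub_mem _ h1 h2
    have horth : ⟪C q, C (p - q)⟫_ℂ = 0 := hCo s _ hy' _ (hCm s _ hqm)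
    have hsq : ‖C p‖^2 = ‖C q‖^2 + ‖C (p - q)‖^2 := by
      have h1 : C p = C q + C (p - q) := by rw [← map_add]; congr 1; abel
      have h2 := norm_add_sq_eq_norm_sq_add_norm_sq_of_inner_eq_zero (C q) (C (p - q)) horth
      rw [h1]
      nlinarith [h2]
    have hnorm : ‖p - q‖ ≤ 2 * ‖x‖ := by
      have h1 : ‖p‖ ≤ ‖x‖ := Submodule.norm_starProjection_apply_le _ x
      have h2 : ‖q‖ ≤ ‖x‖ := Submodule.norm_starProjection_apply_le _ x
      calc _ ≤ ‖p‖ + ‖q‖ := norm_sub_le _ _
        _ ≤ _ := by linarith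
    have hCn : ‖C (p - q)‖ ≤ 8 * ‖S‖ * ‖x‖ * (t - s) := by
      refine (hCb s t _ hst hy hy').trans ?_
      have : 0 ≤ 4 * ‖S‖ * (t - s) := by
        have := norm_nonneg S
        have : 0 ≤ t - s := by linarith
        positivity
      calc 4 * ‖S‖ * (t - s) * ‖p - q‖ ≤ 4 * ‖S‖ * (t - s) * (2 * ‖x‖) :=
            mul_le_mul_of_nonneg_left hnorm this
        _ = _ := by ring
    rw [hsq, add_sub_cancel_left, abs_of_nonneg (by positivity), ← mul_pow]
    exact pow_le_pow_left₀ (norm_nonneg _) hCn 2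
  have hall : ∀ x : H, ∀ s t : ℝ,
      |‖C ((K R t).starProjection x)‖^2 - ‖C ((K R s).starProjection x)‖^2|
        ≤ (8 * ‖S‖ * ‖x‖)^2 * (t - s)^2 := by
    intro x s t
    rcases lt_trichotomy s t with h | h | h
    · exact hstep x s t h
    · subst h; simp
    · rw [abs_sub_comm, ← neg_sub s t, neg_sq]
      exact hstep x t s h
  -- large and small parameters
  obtain ⟨L, hL⟩ := (ContinuousFunctionalCalculus.isCompact_spectrum (R := ℝ) R).isBounded.subset_closedBall (0:ℝ)
  have hLb : ∀ u ∈ spectrum ℝ R, |u| ≤ L := by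
    intro u hu
    have := hL hu
    simpa using this
  have hbig : ∀ x : H, x ∈ K R L := by
    intro x f hf s hs h0
    have h1 : cfc f R = cfc (fun _ : ℝ => (0:ℝ)) R := cfc_congr (fun u hu => by
      have := hLb u hu
      exact h0 u (by linarith [le_abs_self u]))
    rw [h1, cfc_const_zero]; simp
  have hsmall : ∀ x : H, x ∈ K R (-L - 3) → x = 0 := by
    intro x hx
    have h1 := hx (fun u => 1 - cut (-L-2) (-L-1) u)
      (by have := cut_cont (-L-2) (-L-1); fun_prop) (-L-2) (by linarith)
      (fun u hu => by rw [cut_one (by linarith) hu]; ring)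
    have h2 : cfc (fun u => 1 - cut (-L-2) (-L-1) u) R = cfc (fun _ : ℝ => (1:ℝ)) R :=
      cfc_congr (fun u hu => by
        have := hLb u hu
        show 1 - cut (-L-2) (-L-1) u = 1
        rw [cut_zero (by linarith) (by linarith [neg_abs_le u])]; ring)
    rw [h2, cfc_const_one ℝ R] at h1
    simpa using h1
  have hzero : ∀ x, C x = 0 := by
    intro x
    have hc := const_of_sq (hall x) L (-L-3)
    have h1 : (K R L).starProjection x = x := Submodule.starProjection_eq_self_iff.mpr (hbig x)
    have h2 : (K R (-L-3)).starProjection x = 0 :=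
      hsmall _ (Submodule.starProjection_apply_mem _ _)
    simp only [h1, h2, map_zero, norm_zero] at hc
    have : ‖C x‖ = 0 := by
      have := hc
      simpa using this
    exact norm_eq_zero.mp this
  have : C = 0 := by ext x; simpa using hzero x
  exact sub_eq_zero.mp this

/-- Reductivity: every closed invariant subspace of `A` is invariant under `A*`. -/
def Red (A : H →L[ℂ] H) : Prop := ∀ M : Submodule ℂ H, IsClosed (M : Set H) →
  (∀ x ∈ M, A x ∈ M) → ∀ x ∈ M, (adjoint A) x ∈ M

lemma proj_comm {A : H →L[ℂ] H} (hA : Red A) (M : Submodule ℂ H) [M.HasOrthogonalProjection]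
    (hM : IsClosed (M : Set H)) (hinv : ∀ x ∈ M, A x ∈ M) :
    M.starProjection * A = A * M.starProjection := by
  have hinv' := hA M hM hinv
  ext u
  simp only [ContinuousLinearMap.mul_apply]
  set P := M.starProjection
  have h1 : A (P u) ∈ M := hinv _ (Submodule.starProjection_apply_mem _ _)
  have h2 : u - P u ∈ Mᗮ := Submodule.sub_starProjection_mem_orthogonal u
  have h3 : A (u - P u) ∈ Mᗮ := by
    intro m hm
    rw [← ContinuousLinearMap.adjoint_inner_left]
    exact h2 _ (hinv' m hm)
  have h4 : P (A (u - P u)) = 0 := (Submodule.starProjection_apply_eq_zero_iff (K := M)).mpr h3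
  have h5 : P (A (P u)) = A (P u) := Submodule.starProjection_eq_self_iff.mpr h1
  have h6 : A u = A (P u) + A (u - P u) := by rw [← map_add]; congr 1; abel
  rw [h6, map_add, h4, h5, add_zero]

lemma loc_of {A N X Y R : H →L[ℂ] H} (hX : Function.Injective X)
    (hXA : X * A = N * X) (hAY : A * Y = Y * N) (hred : Red A)
    (hR : IsSelfAdjoint R) (hRN : ∀ T : H →L[ℂ] H, Commute T N → Commute R T) :
    Loc R (star Y * Y) := by
  intro f g hf hg hfg v
  set F := cfc f R with hF
  set G := cfc g R with hG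
  have hGF : G * F = 0 := by
    rw [hG, hF, ← cfc_mul g f R hg.continuousOn hf.continuousOn]
    have h2 : (fun u => g u * f u) = fun _ => (0:ℝ) := by
      funext u; rw [mul_comm]; exact hfg u
    rw [h2, cfc_const_zero]
  have hNR : Commute R N := hRN N (Commute.refl N)
  have hFN : F * N = N * F := (hNR.cfc_real f).eq
  have hGN : G * N = N * G := (hNR.cfc_real g).eq
  have hXY : Commute (X * Y) N := by
    show X * Y * N = N * (X * Y)
    rw [mul_assoc, ← hAY, ← mul_assoc, hXA, mul_assoc]
  have hFXY : F * (X * Y) = (X * Y) * F := ((hRN _ hXY).cfc_real f).eq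
  have hFXY' : ∀ w, F (X (Y w)) = X (Y (F w)) := fun w => by
    have := congrArg (fun Z : H →L[ℂ] H => Z w) hFXY
    simpa using this
  have hGF' : ∀ w, G (F w) = 0 := fun w => by
    have := congrArg (fun Z : H →L[ℂ] H => Z w) hGF
    simpa using this
  have hAY' : ∀ w, A (Y w) = Y (N w) := fun w => by
    have := congrArg (fun Z : H →L[ℂ] H => Z w) hAY
    simpa using this
  have hFN' : ∀ w, F (N w) = N (F w) := fun w => by
    have := congrArg (fun Z : H →L[ℂ] H => Z w) hFN
    simpa using this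
  set M₀ : Submodule ℂ H := LinearMap.range ((Y * F : H →L[ℂ] H) : H →ₗ[ℂ] H) with hM₀
  set M : Submodule ℂ H := M₀.topologicalClosure with hM
  have hMc : IsClosed (M : Set H) := Submodule.isClosed_topologicalClosure _
  haveI : CompleteSpace M := hMc.completeSpace_coe
  have hM₀M : ∀ w, Y (F w) ∈ M := fun w =>
    Submodule.le_topologicalClosure _ ⟨w, rfl⟩
  have hMcl : ∀ (p : H → Prop), IsClosed {x | p x} → (∀ w, p (Y (F w))) → ∀ x ∈ M, p x := by
    intro p hp hw x hx
    have h1 : (M₀ : Set H) ⊆ {x | p x} := by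
      rintro _ ⟨w, rfl⟩
      exact hw w
    have h2 : closure (M₀ : Set H) ⊆ {x | p x} := closure_minimal h1 hp
    have h3 : x ∈ closure (M₀ : Set H) := by
      rw [← Submodule.topologicalClosure_coe]; exact hx
    exact h2 h3
  have hinv : ∀ x ∈ M, A x ∈ M := by
    refine hMcl (fun x => A x ∈ M) (hMc.preimage A.continuous) (fun w => ?_)
    show A (Y (F w)) ∈ M
    rw [hAY', ← hFN']
    exact hM₀M _
  have hPA : M.starProjection * A = A * M.starProjection := proj_comm hred M hMc hinv
  set P := M.starProjection with hP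
  have hGX : ∀ m ∈ M, G (X m) = 0 := by
    refine hMcl (fun m => G (X m) = 0)
      (isClosed_eq (G.continuous.comp X.continuous) continuous_const) (fun w => ?_)
    show G (X (Y (F w))) = 0
    rw [← hFXY', hGF']
  set T : H →L[ℂ] H := X * P * Y * G with hT
  have hTN : Commute T N := by
    show X * P * Y * G * N = N * (X * P * Y * G)
    calc X*P*Y*G*N = X*P*Y*(G*N) := by simp only [mul_assoc]
      _ = X*P*Y*(N*G) := by rw [hGN]
      _ = X*P*(Y*N)*G := by simp only [mul_assoc]
      _ = X*P*(A*Y)*G := by rw [hAY]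
      _ = X*(P*A)*Y*G := by simp only [mul_assoc]
      _ = X*(A*P)*Y*G := by rw [hPA]
      _ = (X*A)*P*Y*G := by simp only [mul_assoc]
      _ = (N*X)*P*Y*G := by rw [hXA]
      _ = N*(X*P*Y*G) := by simp only [mul_assoc]
  have hGT : G * T = T * G := ((hRN T hTN).cfc_real g).eq
  have hTG : ∀ u, X (P (Y (G (G u)))) = 0 := by
    intro u
    have h1 := congrArg (fun Z : H →L[ℂ] H => Z u) hGT
    have h2 : G (X (P (Y (G u)))) = X (P (Y (G (G u)))) := by simpa [hT] using h1
    rw [← h2]
    exact hGX _ (Submodule.starProjection_apply_mem _ _)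
  have hPY : P (Y (G (G v))) = 0 := hX (by rw [hTG v, map_zero])
  have hperp : Y (G (G v)) ∈ Mᗮ := (Submodule.starProjection_apply_eq_zero_iff (K := M)).mp hPY
  have hFsa : IsSelfAdjoint F := cfc_predicate f R
  -- test against itself
  set z := F ((star Y * Y) (G (G v))) with hz
  have h1 : ⟪Y (F z), Y (G (G v))⟫_ℂ = 0 := hperp _ (hM₀M z)
  have h2 : ⟪z, z⟫_ℂ = 0 := by
    conv_lhs => rw [hz]
    rw [← sa_inner hFsa, ← hz, ContinuousLinearMap.mul_apply,
      ContinuousLinearMap.star_eq_adjoint, ContinuousLinearMap.adjoint_inner_right]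
    exact h1
  exact inner_self_eq_zero.mp h2

theorem main {A N X Y : H →L[ℂ] H} (hN : IsStarNormal N) (hX : Function.Injective X)
    (hY : DenseRange Y) (hXA : X * A = N * X) (hAY : A * Y = Y * N) (hred : Red A) :
    IsStarNormal A := by
  set S : H →L[ℂ] H := star Y * Y with hS
  have hSs : IsSelfAdjoint S := IsSelfAdjoint.star_mul_self Y
  have hre : Commute S (ℜ N : H →L[ℂ] H) := by
    have hsa : IsSelfAdjoint (ℜ N : H →L[ℂ] H) := (ℜ N).2
    have hc : ∀ T : H →L[ℂ] H, Commute T N → Commute (ℜ N : H →L[ℂ] H) T := by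
      intro T hT
      have hT' : Commute T (star N) := hN.commute_star_right hT
      rw [realPart_apply_coe]
      exact ((hT.symm.add_left hT'.symm).smul_left _)
    exact (main_comm hsa hSs (loc_of hX hXA hAY hred hsa hc)).symm
  have him : Commute S (ℑ N : H →L[ℂ] H) := by
    have hsa : IsSelfAdjoint (ℑ N : H →L[ℂ] H) := (ℑ N).2
    have hc : ∀ T : H →L[ℂ] H, Commute T N → Commute (ℑ N : H →L[ℂ] H) T := by
      intro T hT
      have hT' : Commute T (star N) := hN.commute_star_right hT
      rw [imaginaryPart_apply_coe]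
      exact (((hT.symm.sub_left hT'.symm).smul_left _).smul_left _)
    exact (main_comm hsa hSs (loc_of hX hXA hAY hred hsa hc)).symm
  have hSN : Commute S N := by
    rw [← realPart_add_I_smul_imaginaryPart N]
    exact hre.add_right (him.smul_right _)
  have hSN' : Commute S (star N) := hN.commute_star_right hSN
  have h1 : star Y * star A = star N * star Y := by
    rw [← star_mul, hAY, star_mul]
  have h2 : star Y * (star A * Y) = star Y * (Y * star N) := by
    rw [← mul_assoc, h1, mul_assoc, ← mul_assoc (star Y), ← hS]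
    exact hSN'.eq.symm
  have hinj : ∀ z, (star Y) z = 0 → z = 0 := by
    intro z hz
    have h3 : ∀ w, ⟪z, Y w⟫_ℂ = 0 := by
      intro w
      rw [← ContinuousLinearMap.adjoint_inner_left, ← ContinuousLinearMap.star_eq_adjoint, hz,
        inner_zero_left]
    have h4 : ∀ w, ⟪z, w⟫_ℂ = 0 := by
      intro w
      have h5 : IsClosed {w | ⟪z, w⟫_ℂ = 0} :=
        isClosed_eq (continuous_const.inner continuous_id) continuous_const
      exact hY.induction_on (p := fun w => ⟪z, w⟫_ℂ = 0) w h5 h3
    exact inner_self_eq_zero.mp (h4 z)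
  have h3 : ∀ w, (star A) (Y w) = Y ((star N) w) := by
    intro w
    have h4 := congrArg (fun Z : H →L[ℂ] H => Z w) h2
    simp only [ContinuousLinearMap.mul_apply] at h4
    have h5 := hinj ((star A) (Y w) - Y ((star N) w)) (by rw [map_sub, h4, sub_self])
    exact sub_eq_zero.mp h5
  have hAY' : ∀ w, A (Y w) = Y (N w) := fun w => by
    have := congrArg (fun Z : H →L[ℂ] H => Z w) hAY
    simpa using this
  have hNN : ∀ w, (star N) (N w) = N ((star N) w) := fun w => by
    have := congrArg (fun Z : H →L[ℂ] H => Z w) hN.star_comm_self.eq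
    simpa using this
  constructor
  show star A * A = A * star A
  ext u
  simp only [ContinuousLinearMap.mul_apply]
  refine hY.induction_on (p := fun u => (star A) (A u) = A ((star A) u)) u
    (isClosed_eq ((star A).continuous.comp A.continuous) (A.continuous.comp (star A).continuous))
    (fun w => ?_)
  rw [hAY', h3, h3, hAY', hNN]

end H23Red
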