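import Pool.Agent.H23.SchKey

open Subgroup

namespace Pool.Agent.H23.Sch

lemma A_prod {A : GC} (hA : IsSchunck A) {r : ℕ} (hr : r.Prime)
    (hAr : ∀ (G : Type) [Group G], Nat.card G = r → A G) {R : Type} [Group R] (hR : A R) :
    A (Multiplicative (ZMod r) × R) := by
  haveI : Fact r.Prime := ⟨hr⟩
  haveI := hA.fin R hR
  haveI := hA.sol R hR
  haveI : Finite (Multiplicative (ZMod r)) := inferInstance
  refine hA.prim _ inferInstance inferInstance (fun D _ hprim => ?_)
  obtain ⟨M, hM, hMc⟩ := hprim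
  set q := QuotientGroup.mk' D with hq
  have hqs : Function.Surjective q := QuotientGroup.mk'_surjective D
  by_cases h : ∀ c : Multiplicative (ZMod r), q (c, 1) = 1
  · refine X_surj hA hR (q.comp (MonoidHom.inr (Multiplicative (ZMod r)) R)) ?_
    intro x
    obtain ⟨⟨c, y⟩, rfl⟩ := hqs x
    refine ⟨y, ?_⟩
    have h1 : ((c, y) : Multiplicative (ZMod r) × R) = (c, 1) * (1, y) := by simp
    rw [h1, map_mul, h c, one_mul]; rfl
  · push Not at h
    obtain ⟨c, hc⟩ := h
    set b := q (c, 1) with hb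
    have hcen : ∀ x, x * b = b * x := by
      intro x
      obtain ⟨⟨c', y⟩, rfl⟩ := hqs x
      rw [hb, ← map_mul, ← map_mul]
      congr 1
      simp [mul_comm]
    have hcz : ∀ x, ∀ y ∈ Subgroup.zpowers b, x * y = y * x := by
      intro x y hy
      obtain ⟨i, rfl⟩ := hy
      have h1 : Commute x b := hcen x
      exact (h1.zpow_right i).eq
    have hBn : (Subgroup.zpowers b).Normal := ⟨fun n hn g => by
      rw [hcz g n hn, mul_inv_cancel_right]; exact hn⟩
    have hBne : Subgroup.zpowers b ≠ ⊥ := by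
      rw [Ne, Subgroup.zpowers_eq_bot]; exact hc
    obtain ⟨h1, h2⟩ := prim_abelian hM hMc hBn (fun x _ y hy => hcz x y hy) hBne
    have hMn : M.Normal := by
      refine ⟨fun n hn g => ?_⟩
      obtain ⟨z, hz, x, hx, rfl⟩ := h2 g
      have h3 : z * x * n * (z * x)⁻¹ = x * n * x⁻¹ := by
        have h4 := hcz (x * n * x⁻¹) z hz
        calc z * x * n * (z * x)⁻¹ = z * (x * n * x⁻¹) * z⁻¹ := by group
          _ = (x * n * x⁻¹) * z * z⁻¹ := by rw [h4]
          _ = x * n * x⁻¹ := by group
      rw [h3]; exact mul_mem (mul_mem hx hn) (inv_mem hx)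
    have hMbot : M = ⊥ := by
      rw [← hMc, Subgroup.normalCore_eq_self]
    have htop : Subgroup.zpowers b = ⊤ := by
      rw [eq_top_iff]
      intro g _
      obtain ⟨z, hz, x, hx, rfl⟩ := h2 g
      rw [hMbot, Subgroup.mem_bot] at hx
      rw [hx, mul_one]; exact hz
    have hord : orderOf b = r := by
      have h5 : b ^ r = 1 := by
        rw [hb, ← map_pow]
        have h6 : ((c, 1) : Multiplicative (ZMod r) × R) ^ r = 1 := by
          rw [Prod.pow_mk, one_pow]
          have h7 : c ^ r = 1 := by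
            have := pow_card_eq_one' (G := Multiplicative (ZMod r)) (x := c)
            rwa [Nat.card_congr Multiplicative.toAdd, Nat.card_zmod] at this
          rw [h7]; rfl
        rw [h6, map_one]
      exact orderOf_eq_prime h5 hc
    apply hAr
    rw [← Subgroup.card_top, ← htop, Nat.card_zpowers, hord]

section Constr
variable (r : ℕ) {F : Type} [Group F] (R : Subgroup F)

abbrev Bs := (F ⧸ R) → Multiplicative (ZMod r)

/-- the action on functions -/
def act (g : F) (f : Bs r R) : Bs r R := fun x => f (g⁻¹ • x)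

lemma act_mul (g : F) (f f' : Bs r R) : act r R g (f * f') = act r R g f * act r R g f' := rfl

lemma act_comp (g h : F) (f : Bs r R) : act r R g (act r R h f) = act r R (g * h) f := by
  funext x
  show f (h⁻¹ • g⁻¹ • x) = f ((g * h)⁻¹ • x)
  rw [mul_inv_rev, mul_smul]

lemma act_one (f : Bs r R) : act r R 1 f = f := by
  funext x
  show f ((1:F)⁻¹ • x) = f x
  rw [inv_one, one_smul]

lemma act_inv_cancel (g : F) (f : Bs r R) : act r R g⁻¹ (act r R g f) = f := by
  rw [act_comp, inv_mul_cancel, act_one]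

lemma act_cancel_inv (g : F) (f : Bs r R) : act r R g (act r R g⁻¹ f) = f := by
  rw [act_comp, mul_inv_cancel, act_one]

def phi (V : Subgroup (Bs r R)) (hV : ∀ g, ∀ f ∈ V, act r R g f ∈ V) : F →* MulAut V where
  toFun g :=
    { toFun := fun v => ⟨act r R g v, hV g v v.2⟩
      invFun := fun v => ⟨act r R g⁻¹ v, hV g⁻¹ v v.2⟩
      left_inv := fun v => Subtype.ext (act_inv_cancel r R g v)
      right_inv := fun v => Subtype.ext (act_cancel_inv r R g v)
      map_mul' := fun a b => Subtype.ext (act_mul r R g a b) }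
  map_one' := by
    apply MulEquiv.ext
    intro v
    exact Subtype.ext (act_one r R v)
  map_mul' := by
    intro g h
    apply MulEquiv.ext
    intro v
    exact Subtype.ext (act_comp r R g h v).symm

lemma phi_apply (V : Subgroup (Bs r R)) (hV : ∀ g, ∀ f ∈ V, act r R g f ∈ V) (g : F) (v : V) :
    ((phi r R V hV g v : V) : Bs r R) = act r R g v := rfl

variable [Fintype (F ⧸ R)]

/-- functions with product one -/
def M0 : Subgroup (Bs r R) where
  carrier := {f | ∏ x, f x = 1}
  mul_mem' := by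
    intro a b ha hb
    show ∏ x, (a x * b x) = 1
    rw [Finset.prod_mul_distrib]
    have ha' : ∏ x, a x = 1 := ha
    have hb' : ∏ x, b x = 1 := hb
    rw [ha', hb', one_mul]
  one_mem' := by
    show ∏ x : F ⧸ R, (1 : Multiplicative (ZMod r)) = 1
    exact Finset.prod_const_one
  inv_mem' := by
    intro a ha
    show ∏ x, (a x)⁻¹ = 1
    rw [Finset.prod_inv_distrib]
    have ha' : ∏ x, a x = 1 := ha
    rw [ha', inv_one]

lemma M0_act (g : F) (f : Bs r R) (hf : f ∈ M0 r R) : act r R g f ∈ M0 r R := by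
  show ∏ x, f (g⁻¹ • x) = 1
  have h1 : ∏ x, f x = 1 := hf
  rw [← h1]
  exact Fintype.prod_equiv (MulAction.toPerm g⁻¹) _ _ (fun x => rfl)

lemma M0_ne_bot (hr : 1 < r) {x y : F ⧸ R} (hxy : x ≠ y) : M0 r R ≠ ⊥ := by
  classical
  haveI : Fact (1 < r) := ⟨hr⟩
  intro h
  set a : Multiplicative (ZMod r) := Multiplicative.ofAdd 1 with ha
  have hane : a ≠ 1 := by
    intro h1
    have h2 : (1 : ZMod r) = 0 := congrArg Multiplicative.toAdd h1
    exact one_ne_zero h2
  set f : Bs r R := fun z => if z = x then a else if z = y then a⁻¹ else 1 with hf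
  have hfm : f ∈ M0 r R := by
    show ∏ z, f z = 1
    have h1 : ∀ z, f z = (if z = x then a else 1) * (if z = y then a⁻¹ else 1) := by
      intro z
      simp only [hf]
      by_cases hz : z = x
      · rw [if_pos hz, if_pos hz, if_neg (by rw [hz]; exact hxy), mul_one]
      · rw [if_neg hz, if_neg hz, one_mul]
    rw [Finset.prod_congr rfl (fun z _ => h1 z), Finset.prod_mul_distrib, Finset.prod_ite_eq',
      Finset.prod_ite_eq', if_pos (Finset.mem_univ _), if_pos (Finset.mem_univ _), mul_inv_cancel]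
  rw [h, Subgroup.mem_bot] at hfm
  have h2 : f x = 1 := by rw [hfm]; rfl
  have h3 : f x = a := by simp [hf]
  exact hane (h3.symm.trans h2)

lemma exists_min [Finite F] (hr : 1 < r) (hM : M0 r R ≠ ⊥) : ∃ V : Subgroup (Bs r R), V ≠ ⊥ ∧
    V ≤ M0 r R ∧ (∀ g, ∀ f ∈ V, act r R g f ∈ V) ∧
    ∀ U : Subgroup (Bs r R), U ≤ V → U ≠ ⊥ → (∀ g, ∀ f ∈ U, act r R g f ∈ U) → U = V := by
  haveI : NeZero r := ⟨by omega⟩
  haveI : Finite (Multiplicative (ZMod r)) := inferInstance
  haveI : Finite (Bs r R) := Pi.finite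
  let C : Set (Subgroup (Bs r R)) := {V | V ≠ ⊥ ∧ V ≤ M0 r R ∧ (∀ g, ∀ f ∈ V, act r R g f ∈ V)}
  have hC : C.Nonempty := ⟨M0 r R, hM, le_rfl, M0_act r R⟩
  obtain ⟨V, ⟨h1, h2, h3⟩, hmin⟩ :=
    WellFounded.has_min (wellFounded_lt (α := Subgroup (Bs r R))) C hC
  refine ⟨V, h1, h2, h3, fun U hU hne hinv => ?_⟩
  by_contra hne'
  exact hmin U ⟨hne, hU.trans h2, hinv⟩ (lt_of_le_of_ne hU hne')

end Constr

theorem main_step {A : GC} (hA : IsSchunck A) (hLL : LL A (TT 0)) {r s : ℕ} (hr : r.Prime)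
    (hs : s.Prime) (hrs : r < s) {F : Type} [Group F] [Finite F]
    (hFT : TT 0 F) (hFA : ¬ A F) {W R : Subgroup F} (hWn : W.Normal)
    (hWc : ∀ x ∈ W, ∀ y ∈ W, x * y = y * x) (hWR : ∀ g : F, ∃ w ∈ W, ∃ x ∈ R, g = w * x)
    (hWRbot : W ⊓ R = ⊥) (hWs : IsPGroup s W) (hRs : ¬ s ∣ Nat.card R) (hWne : W ≠ ⊥)
    (hWmin : ∀ N : Subgroup F, N.Normal → N ≤ W → N = ⊥ ∨ N = W)
    (hAR : A R) (hFWA : A (F ⧸ W)) (hAr : ∀ (G : Type) [Group G], Nat.card G = r → A G)
    (hprimes : ∀ p, p.Prime → p ∣ Nat.card F → p ≤ s) : False := by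
  classical
  haveI : Fact r.Prime := ⟨hr⟩
  haveI : Fact s.Prime := ⟨hs⟩
  haveI : Fintype (F ⧸ R) := Fintype.ofFinite _
  haveI := hFT.2.1
  have hcompl : W.IsComplement' R := by
    apply Subgroup.isComplement'_of_disjoint_and_mul_eq_univ
    · rw [disjoint_iff]; exact hWRbot
    · rw [Set.eq_univ_iff_forall]
      intro g
      obtain ⟨w, hw, x, hx, h⟩ := hWR g
      exact ⟨w, hw, x, hx, h.symm⟩
  have hidx : R.index = Nat.card W := hcompl.index_eq_card
  obtain ⟨k, hk⟩ := IsPGroup.iff_card.mp hWs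
  have hcop : (Nat.card W).Coprime (Nat.card R) := by
    rw [hk]; exact Nat.Coprime.pow_left k ((Nat.Prime.coprime_iff_not_dvd hs).mpr hRs)
  have hridx : (Nat.card (F ⧸ R)).Coprime r := by
    rw [← Subgroup.index_eq_card, hidx, hk]
    exact Nat.Coprime.pow_left k ((Nat.coprime_primes hs hr).mpr hrs.ne')
  obtain ⟨x0, y0, hxy⟩ : ∃ x y : F ⧸ R, x ≠ y := by
    have h1 : 1 < Nat.card (F ⧸ R) := by
      rw [← Subgroup.index_eq_card, hidx, Subgroup.one_lt_card_iff_ne_bot]; exact hWne
    rw [Finite.one_lt_card_iff_nontrivial] at h1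
    exact exists_pair_ne _
  obtain ⟨V, hVne, hVM, hVinv, hVmin⟩ := exists_min r R hr.one_lt (M0_ne_bot r R hr.one_lt hxy)
  haveI : Finite (Multiplicative (ZMod r)) := inferInstance
  haveI : Finite (Bs r R) := Pi.finite
  haveI : Finite V := inferInstance
  have hBr : ∀ f : Bs r R, f ^ r = 1 := by
    intro f
    funext x
    have := pow_card_eq_one' (G := Multiplicative (ZMod r)) (x := f x)
    rw [Nat.card_congr Multiplicative.toAdd, Nat.card_zmod] at this
    exact this
  let φ := phi r R V hVinv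
  let G := V ⋊[φ] F
  haveI : Finite G := Finite.of_equiv _ (SemidirectProduct.equivProd (φ := φ)).symm
  let π : G →* F := SemidirectProduct.rightHom
  have hπ : Function.Surjective π := SemidirectProduct.rightHom_surjective
  have hker : ∀ x : G, x ∈ π.ker ↔ x.right = 1 := fun x => Iff.rfl
  have hinl : ∀ x : G, x ∈ π.ker → x = SemidirectProduct.inl x.left := by
    intro x hx
    rw [hker] at hx
    exact SemidirectProduct.ext rfl hx
  have hsol : Group.IsSolvable G :=
    Group.isSolvable_of_ker_le_range (SemidirectProduct.inl : V →* G) π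
      (le_of_eq SemidirectProduct.range_inl_eq_ker_rightHom.symm)
  -- evaluation at the trivial coset
  let e0 : F ⧸ R := QuotientGroup.mk 1
  obtain ⟨v1, hv1, hv1ne⟩ : ∃ v : Bs r R, v ∈ V ∧ v e0 ≠ 1 := by
    obtain ⟨⟨v, hv⟩, hvne0⟩ := (Subgroup.ne_bot_iff_exists_ne_one).mp hVne
    have hvne : v ≠ 1 := fun h' => hvne0 (Subtype.ext h')
    obtain ⟨x, hx⟩ : ∃ x, v x ≠ 1 := by
      by_contra hall
      push Not at hall
      exact hvne (funext hall)
    obtain ⟨g, rfl⟩ := QuotientGroup.mk_surjective x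
    refine ⟨act r R g⁻¹ v, hVinv _ _ hv, ?_⟩
    show v ((g⁻¹)⁻¹ • (QuotientGroup.mk 1 : F ⧸ R)) ≠ 1
    rw [inv_inv]
    have : g • (QuotientGroup.mk 1 : F ⧸ R) = QuotientGroup.mk g := by
      show (QuotientGroup.mk (g * 1) : F ⧸ R) = _
      rw [mul_one]
    rw [this]; exact hx
  let ev : V →* Multiplicative (ZMod r) :=
    { toFun := fun v => (v : Bs r R) e0
      map_one' := rfl
      map_mul' := fun a b => rfl }
  have hevs : Function.Surjective ev := by
    rw [← MonoidHom.range_eq_top]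
    have hcard : Nat.card (Multiplicative (ZMod r)) = r := by
      rw [Nat.card_congr Multiplicative.toAdd, Nat.card_zmod]
    haveI : Fact (Nat.card (Multiplicative (ZMod r))).Prime := ⟨by rw [hcard]; exact hr⟩
    rcases Subgroup.eq_bot_or_eq_top_of_prime_card ev.range with h | h
    · exfalso
      have h1 : ev ⟨v1, hv1⟩ ∈ ev.range := ⟨_, rfl⟩
      rw [h, Subgroup.mem_bot] at h1
      exact hv1ne h1
    · exact h
  have hevR : ∀ g ∈ R, ∀ v : V, ev (φ g v) = ev v := by
    intro g hg v
    show (v : Bs r R) (g⁻¹ • (QuotientGroup.mk 1 : F ⧸ R)) = (v : Bs r R) (QuotientGroup.mk 1)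
    have h0 : g⁻¹ • (QuotientGroup.mk 1 : F ⧸ R) = QuotientGroup.mk 1 := by
      show (QuotientGroup.mk (g⁻¹ * 1) : F ⧸ R) = _
      rw [QuotientGroup.eq]
      simpa using hg
    rw [h0]
  let Y : Subgroup G := R.comap π
  let θ : Y →* Multiplicative (ZMod r) × R :=
    { toFun := fun y => (ev (y : G).left, ⟨(y : G).right, y.2⟩)
      map_one' := rfl
      map_mul' := by
        intro a b
        refine Prod.ext ?_ (Subtype.ext rfl)
        show ev ((a : G) * (b : G)).left = ev (a : G).left * ev (b : G).left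
        have haR : (a : G).right ∈ R := a.2
        rw [SemidirectProduct.mul_left, map_mul, hevR _ haR] }
  refine key hA (fun G H _ _ e h => TT_iso h e) hLL hsol π hπ ?_ ?_ hWn hWc hWR hcop hWmin hFT ?_
    hFA hFWA (A_prod hA hr hAr hAR) (Y := Y) (fun x => Iff.rfl) θ ?_ ?_ ?_
  · -- kernel commutative
    intro x hx y hy
    rw [hinl x hx, hinl y hy, ← map_mul, ← map_mul]
    congr 1
    apply Subtype.ext
    exact mul_comm _ _
  · -- kernel minimal
    intro N hN hNk
    let U : Subgroup (Bs r R) := (N.comap (SemidirectProduct.inl : V →* G)).map V.subtype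
    have hUV : U ≤ V := by rintro _ ⟨v, _, rfl⟩; exact v.2
    have hUinv : ∀ g, ∀ f ∈ U, act r R g f ∈ U := by
      rintro g _ ⟨v, hv, rfl⟩
      refine ⟨φ g v, ?_, rfl⟩
      show (SemidirectProduct.inl (φ g v) : G) ∈ N
      rw [SemidirectProduct.inl_aut, map_inv]
      exact hN.conj_mem _ hv _
    by_cases hUb : U = ⊥
    · left
      rw [eq_bot_iff]
      intro x hx
      have h1 := hinl x (hNk hx)
      have h2 : ((x.left : V) : Bs r R) ∈ U := by
        refine ⟨x.left, ?_, rfl⟩
        show (SemidirectProduct.inl x.left : G) ∈ N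
        rw [← h1]; exact hx
      rw [hUb, Subgroup.mem_bot] at h2
      have h3 : x.left = 1 := Subtype.ext h2
      rw [Subgroup.mem_bot, h1, h3, map_one]
    · right
      have hUV' := hVmin U hUV hUb hUinv
      refine le_antisymm hNk (fun x hx => ?_)
      have h1 := hinl x hx
      have h2 : ((x.left : V) : Bs r R) ∈ U := by rw [hUV']; exact x.left.2
      obtain ⟨v, hv, hvx⟩ := h2
      have h3 : v = x.left := Subtype.ext hvx
      rw [h3] at hv
      rw [h1]; exact hv
  · -- not in TT 0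
    intro hT
    obtain ⟨N, hN, h1, h2⟩ := hT.2.2.2 (s - 1)
    have hs1 := hs.one_lt
    have hcardG : Nat.card G = Nat.card V * Nat.card F := by
      rw [Nat.card_congr (SemidirectProduct.equivProd (φ := φ)), Nat.card_prod]
    have hVr : IsPGroup r V := fun v => ⟨1, by
      rw [pow_one]; exact Subtype.ext (hBr v)⟩
    have hNs : IsPGroup s N := pgroup_of_primes hs (fun p hp hd => by
      have h3 := h1 p hp hd
      have h4 : p ∣ Nat.card G := hd.trans (Subgroup.card_subgroup_dvd_card N)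
      rw [hcardG, hp.dvd_mul] at h4
      rcases h4 with h4 | h4
      · have := dvd_pGroup hr hVr hp h4
        omega
      · have := hprimes p hp h4
        omega)
    have hNidx : ∀ j : ℕ, (s ^ j).Coprime N.index := fun j => by
      refine Nat.Coprime.pow_left j ?_
      rw [Nat.Prime.coprime_iff_not_dvd hs]
      intro hd
      have := h2 s hs hd
      omega
    have hfix : ∀ w ∈ W, ∀ v : V, φ w v = v := by
      intro w hw v
      obtain ⟨j, hj⟩ := hWs ⟨w, hw⟩
      have hj' : w ^ s ^ j = 1 := by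
        have := congrArg (Subtype.val) hj
        simpa using this
      have h3 : (SemidirectProduct.inr w : G) ∈ N := by
        refine mem_of_coprime_index (k := s ^ j) ?_ (hNidx j)
        rw [← map_pow, hj', map_one]
      have h4 : (SemidirectProduct.inl (φ w v * v⁻¹) : G) ∈ N := by
        have h5 : (SemidirectProduct.inl (φ w v * v⁻¹) : G) = SemidirectProduct.inr w *
            (SemidirectProduct.inl v * (SemidirectProduct.inr w)⁻¹ *
              (SemidirectProduct.inl v)⁻¹) := by
          rw [map_mul, SemidirectProduct.inl_aut, map_inv, map_inv]; group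
        rw [h5]
        exact mul_mem h3 (hN.conj_mem _ (inv_mem h3) _)
      obtain ⟨i, hi⟩ := hNs ⟨_, h4⟩
      have h6 : (φ w v * v⁻¹) ^ s ^ i = 1 := by
        have := congrArg (Subtype.val) hi
        have h7 : (SemidirectProduct.inl (φ w v * v⁻¹) : G) ^ s ^ i = 1 := by simpa using this
        rw [← map_pow] at h7
        exact SemidirectProduct.inl_injective (h7.trans (map_one _).symm)
      have h8 : (φ w v * v⁻¹) ^ r = 1 := Subtype.ext (hBr _)
      have h9 := Nat.dvd_gcd (orderOf_dvd_of_pow_eq_one h6) (orderOf_dvd_of_pow_eq_one h8)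
      rw [(Nat.Coprime.pow_left i ((Nat.coprime_primes hs hr).mpr hrs.ne')).gcd_eq_one] at h9
      have h10 := orderOf_eq_one_iff.mp (Nat.dvd_one.mp h9)
      exact mul_inv_eq_one.mp h10
    -- so all functions in V are constant
    apply hv1ne
    have hconst : ∀ x, v1 x = v1 e0 := by
      intro x
      obtain ⟨g, rfl⟩ := QuotientGroup.mk_surjective x
      obtain ⟨w, hw, y, hy, rfl⟩ := hWR g
      have h3 := congrArg Subtype.val (hfix w⁻¹ (inv_mem hw) ⟨v1, hv1⟩)
      have h4 : act r R w⁻¹ v1 = v1 := h3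
      have h5 := congrFun h4 e0
      have h6 : act r R w⁻¹ v1 e0 = v1 (QuotientGroup.mk (w * y)) := by
        show v1 ((w⁻¹)⁻¹ • (QuotientGroup.mk 1 : F ⧸ R)) = _
        have h0 : (w⁻¹)⁻¹ • (QuotientGroup.mk 1 : F ⧸ R) = QuotientGroup.mk (w * y) := by
          rw [inv_inv]
          show (QuotientGroup.mk (w * 1) : F ⧸ R) = _
          rw [QuotientGroup.eq]
          simpa using hy
        rw [h0]
      rw [← h6, h5]
    have h3 : ∏ x, v1 x = 1 := hVM hv1
    rw [Finset.prod_congr rfl (fun x _ => hconst x), Finset.prod_const, Finset.card_univ,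
      ← Nat.card_eq_fintype_card] at h3
    have h4 : (v1 e0) ^ r = 1 := congrFun (hBr v1) e0
    have h5 := Nat.dvd_gcd (orderOf_dvd_of_pow_eq_one h3) (orderOf_dvd_of_pow_eq_one h4)
    rw [hridx.gcd_eq_one] at h5
    exact orderOf_eq_one_iff.mp (Nat.dvd_one.mp h5)
  · -- surjective
    rintro ⟨c, ρ, hρ⟩
    obtain ⟨v, rfl⟩ := hevs c
    exact ⟨⟨⟨v, ρ⟩, hρ⟩, rfl⟩
  · intro y hy
    rw [hker]
    have := congrArg (fun z => ((z.2 : R) : F)) hy
    exact this
  · refine ⟨⟨SemidirectProduct.inl ⟨v1, hv1⟩, ?_⟩, ?_, ?_⟩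
    · exact R.one_mem
    · rfl
    · intro h
      have := congrArg (fun z => z.1) h
      exact hv1ne this

end Pool.Agent.H23.Sch
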