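import Mathlib

namespace Pool.Agent.H23.Sch

/-- A class of groups (all finite groups have a copy in `Type`). -/
abbrev GC := ∀ (G : Type) [Group G], Prop

/-- A class of finite soluble groups: closed under isomorphism, contains the trivial group. -/
structure IsGC (X : GC) : Prop where
  fin : ∀ (G : Type) [Group G], X G → Finite G
  sol : ∀ (G : Type) [Group G], X G → Group.IsSolvable G
  iso : ∀ (G H : Type) [Group G] [Group H], (G ≃* H) → X G → X H
  triv : ∀ (G : Type) [Group G], Subsingleton G → X G

/-- `G` is primitive: it has a maximal subgroup with trivial core. -/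
def IsPrim (G : Type) [Group G] : Prop := ∃ M : Subgroup G, IsCoatom M ∧ M.normalCore = ⊥

/-- Schunck classes. -/
structure IsSchunck (X : GC) : Prop extends IsGC X where
  quot : ∀ (G : Type) [Group G] (N : Subgroup G) [N.Normal], X G → X (G ⧸ N)
  prim : ∀ (G : Type) [Group G], Finite G → Group.IsSolvable G →
    (∀ (N : Subgroup G) [N.Normal], IsPrim (G ⧸ N) → X (G ⧸ N)) → X G

/-- `U` is a maximal `X`-subgroup of `G`. -/
def IsMaxSub (X : GC) {G : Type} [Group G] (U : Subgroup G) : Prop :=
  X U ∧ ∀ V : Subgroup G, U ≤ V → X V → V ≤ U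

/-- `E` is an `X`-projector of `G`: `EN/N` is a maximal `X`-subgroup of `G/N` for all normal `N`. -/
def IsProj (X : GC) {G : Type} [Group G] (E : Subgroup G) : Prop :=
  ∀ (N : Subgroup G) [N.Normal], IsMaxSub X (E.map (QuotientGroup.mk' N))

/-- `X ≪ Y`: in every finite soluble group an `X`-projector is contained in a `Y`-projector. -/
def LL (X Y : GC) : Prop := ∀ (G : Type) [Group G], Finite G → Group.IsSolvable G →
  ∃ E F : Subgroup G, IsProj X E ∧ IsProj Y F ∧ E ≤ F

/-- the class contains a nontrivial group, i.e. it is different from the class `{1}`. -/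
def NonTriv (X : GC) : Prop := ∃ (G : Type) (_ : Group G), Nontrivial G ∧ X G

/-- atoms of the lattice of Schunck classes: minimal among the Schunck classes `≠ {1}`. -/
def IsAtomClass (A : GC) : Prop := IsSchunck A ∧ NonTriv A ∧
  ∀ B : GC, IsSchunck B → NonTriv B → LL B A → ∀ (G : Type) [Group G], B G ↔ A G

end Pool.Agent.H23.Sch
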