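import Pool.Agent.H23.SchCon

open Subgroup

namespace Pool.Agent.H23.Sch

lemma TT_zero {m : ℕ} {G : Type} [Group G] (h : TT m G) : TT 0 G :=
  ⟨h.1, h.2.1, fun p _ _ => Nat.zero_le p, h.2.2.2⟩

lemma A_le {A : GC} (hA : IsSchunck A) (hLL : LL A (TT 0)) {G : Type} [Group G] (hG : A G) :
    TT 0 G := by
  obtain ⟨E, F, hE, hF, hEF⟩ := hLL G (hA.fin G hG) (hA.sol G hG)
  have h1 := proj_surj hA.iso hE (MonoidHom.id G) (fun x => ⟨x, rfl⟩)
  rw [Subgroup.map_id] at h1
  have h2 := maxsub_top hA.iso hG h1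
  have h3 : F = ⊤ := by rw [← top_le_iff, ← h2]; exact hEF
  have h4 := proj_surj (fun G H _ _ e h => TT_iso h e) hF (MonoidHom.id G) (fun x => ⟨x, rfl⟩)
  rw [Subgroup.map_id, h3] at h4
  exact TT_iso h4.1 Subgroup.topEquiv

lemma A_minFac {A : GC} (hA : IsSchunck A) (hLL : LL A (TT 0)) {G : Type} [Group G]
    (hG : A G) (hne : Nat.card G ≠ 1) (H : Type) [Group H]
    (hH : Nat.card H = (Nat.card G).minFac) : A H := by
  obtain ⟨hfin, hsol, _, hT⟩ := A_le hA hLL hG
  set p := (Nat.card G).minFac with hp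
  have hpp : p.Prime := Nat.minFac_prime hne
  haveI : Fact p.Prime := ⟨hpp⟩
  obtain ⟨N, hN, h1, h2⟩ := hT p
  have hidx : ∀ q, q.Prime → q ∣ N.index → q = p := by
    intro q hq hd
    refine le_antisymm (h2 q hq hd) ?_
    exact Nat.minFac_le_of_dvd hq.two_le (hd.trans (Subgroup.index_dvd_card N))
  have hidx1 : N.index ≠ 1 := by
    intro h
    rw [Subgroup.index_eq_one] at h
    have h3 : p ∣ Nat.card N := by
      rw [h, Subgroup.card_top]; exact Nat.minFac_dvd _
    exact lt_irrefl _ (h1 p hpp h3)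
  have hQ : Nat.card (G ⧸ N) = N.index := (Subgroup.index_eq_card N).symm
  have hk := Nat.eq_prime_pow_of_unique_prime_dvd (p := p) (n := Nat.card (G ⧸ N))
    Nat.card_pos.ne' (fun {d} hd hdd => hidx d hd (by rw [← hQ]; exact hdd))
  set k := (Nat.card (G ⧸ N)).primeFactorsList.length with hkdef
  clear_value k
  have hk0 : k ≠ 0 := by
    rintro rfl
    rw [pow_zero, hQ] at hk
    exact hidx1 hk
  obtain ⟨j, rfl⟩ := Nat.exists_eq_succ_of_ne_zero hk0
  obtain ⟨K, hK⟩ := Sylow.exists_subgroup_card_pow_prime p (n := j) (G := G ⧸ N)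
    (by rw [hk]; exact pow_dvd_pow p (Nat.le_succ j))
  have hKidx : K.index = p := by
    have := Subgroup.card_mul_index K
    rw [hK, hk, pow_succ] at this
    exact Nat.eq_of_mul_eq_mul_left (pow_pos hpp.pos j) this
  have hKn : K.Normal := by
    apply Subgroup.normal_of_index_eq_minFac_card
    rw [hKidx, hk, Nat.pow_minFac (Nat.succ_ne_zero j), hpp.minFac_eq]
  have h5 : A ((G ⧸ N) ⧸ K) := hA.quot _ K (hA.quot G N hG)
  have h6 : Nat.card ((G ⧸ N) ⧸ K) = p := by rw [← Subgroup.index_eq_card, hKidx]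
  exact hA.iso _ _ (mulEquivOfPrimeCardEq h6 hH) h5

theorem A_ge {A : GC} (hA : IsSchunck A) (hLL : LL A (TT 0)) {m : ℕ} (hm : m.Prime)
    (hAm : ∀ (G : Type) [Group G], Nat.card G = m → A G) (n : ℕ) :
    ∀ (F : Type) [Group F], Nat.card F = n → TT m F → A F := by
  induction n using Nat.strong_induction_on with
  | _ n ih =>
  intro F _ hn hFT
  by_contra hFA
  haveI hfin := hFT.1
  haveI hsol := hFT.2.1
  haveI : Fact m.Prime := ⟨hm⟩
  have hquot : ∀ (N : Subgroup F) [N.Normal], N ≠ ⊥ → A (F ⧸ N) := by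
    intro N _ hN
    refine ih (Nat.card (F ⧸ N)) ?_ (F ⧸ N) rfl
      (TT_surj hFT (QuotientGroup.mk' N) (QuotientGroup.mk'_surjective N))
    rw [← hn, ← Subgroup.index_eq_card]
    have h1 := Subgroup.card_mul_index N
    have h2 := (Subgroup.one_lt_card_iff_ne_bot N).mpr hN
    have h3 : 0 < N.index := Nat.pos_of_ne_zero Subgroup.index_ne_zero_of_finite
    nlinarith
  have hprim : IsPrim F := by
    by_contra hnp
    apply hFA
    refine hA.prim F hfin hsol (fun N _ hNp => ?_)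
    by_cases hN : N = ⊥
    · subst hN
      exact absurd (prim_iso QuotientGroup.quotientBot hNp) hnp
    · exact hquot N hN
  obtain ⟨M, hM, hMc⟩ := hprim
  have hnon : Nat.card F ≠ 1 := by
    intro h
    apply hFA
    exact hA.triv F (Nat.card_eq_one_iff_unique.mp h).1
  -- the largest prime divisor
  have hpfne : (Nat.card F).primeFactors.Nonempty := by
    obtain ⟨p, hp, hd⟩ := Nat.exists_prime_and_dvd hnon
    exact ⟨p, Nat.mem_primeFactors.mpr ⟨hp, hd, Nat.card_pos.ne'⟩⟩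
  set s := (Nat.card F).primeFactors.max' hpfne with hsdef
  have hsm := Finset.max'_mem _ hpfne
  rw [← hsdef] at hsm
  have hs : s.Prime := (Nat.mem_primeFactors.mp hsm).1
  have hsd : s ∣ Nat.card F := (Nat.mem_primeFactors.mp hsm).2.1
  have hprimes : ∀ p, p.Prime → p ∣ Nat.card F → p ≤ s := fun p hp hd =>
    Finset.le_max' _ _ (Nat.mem_primeFactors.mpr ⟨hp, hd, Nat.card_pos.ne'⟩)
  clear_value s
  haveI : Fact s.Prime := ⟨hs⟩
  let S : Sylow s F := default
  have hSn : (S : Subgroup F).Normal := sylow_normal hFT.2.2.2 hprimes S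
  have hSne : (S : Subgroup F) ≠ ⊥ := S.ne_bot_of_dvd_card hsd
  have hSp : IsPGroup s (S : Subgroup F) := S.isPGroup'
  haveI : Nontrivial (S : Subgroup F) := (Subgroup.nontrivial_iff_ne_bot _).mpr hSne
  have hcenter : Nontrivial (Subgroup.center (S : Subgroup F)) := hSp.center_nontrivial
  set W : Subgroup F := (Subgroup.center (S : Subgroup F)).map (S : Subgroup F).subtype with hW
  have hWn : W.Normal := ConjAct.normal_of_characteristic_of_normal
  have hWS : W ≤ S := by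
    rintro _ ⟨w, _, rfl⟩
    exact w.2
  have hWcen : ∀ x ∈ W, ∀ y ∈ (S : Subgroup F), x * y = y * x := by
    rintro _ ⟨w, hw, rfl⟩ y hy
    have := Subgroup.mem_center_iff.mp hw ⟨y, hy⟩
    exact (congrArg Subtype.val this).symm
  have hWc : ∀ x ∈ W, ∀ y ∈ W, x * y = y * x := fun x hx y hy => hWcen x hx y (hWS hy)
  have hWne : W ≠ ⊥ := by
    intro h
    rw [hW, Subgroup.map_eq_bot_iff, Subgroup.ker_subtype, le_bot_iff] at h
    exact ((Subgroup.nontrivial_iff_ne_bot _).mp hcenter) h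
  obtain ⟨hWM, hWMtop⟩ := prim_abelian hM hMc hWn hWc hWne
  have hWmin := fun (N : Subgroup F) (hN : N.Normal) => prim_min hM hMc hWn hWc hWne hN
  -- S = W
  have hSM : (S : Subgroup F) ⊓ M = ⊥ := by
    have hn : ((S : Subgroup F) ⊓ M).Normal := by
      refine ⟨fun x hx g => ?_⟩
      obtain ⟨w, hw, y, hy, rfl⟩ := hWMtop g
      have h1 : y * x * y⁻¹ ∈ (S : Subgroup F) ⊓ M :=
        ⟨hSn.conj_mem x hx.1 y, M.mul_mem (M.mul_mem hy hx.2) (M.inv_mem hy)⟩
      have h2 : w * y * x * (w * y)⁻¹ = y * x * y⁻¹ := by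
        have h3 := hWcen w hw _ h1.1
        calc w * y * x * (w * y)⁻¹ = w * (y * x * y⁻¹) * w⁻¹ := by group
          _ = (y * x * y⁻¹) * w * w⁻¹ := by rw [h3]
          _ = y * x * y⁻¹ := by group
      rw [h2]; exact h1
    have := Subgroup.normal_le_normalCore.mpr (inf_le_right : (S : Subgroup F) ⊓ M ≤ M)
    rwa [hMc, le_bot_iff] at this
  have hSW : (S : Subgroup F) = W := by
    refine le_antisymm (fun x hx => ?_) hWS
    obtain ⟨w, hw, y, hy, rfl⟩ := hWMtop x
    have h1 : y ∈ (S : Subgroup F) ⊓ M := ⟨by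
      have := mul_mem (inv_mem (hWS hw)) hx
      rwa [inv_mul_cancel_left] at this, hy⟩
    rw [hSM, Subgroup.mem_bot] at h1
    rw [h1, mul_one]; exact hw
  have hcompl : M.IsComplement' W := by
    apply Subgroup.IsComplement'.symm
    apply Subgroup.isComplement'_of_disjoint_and_mul_eq_univ
    · rw [disjoint_iff]; exact hWM
    · rw [Set.eq_univ_iff_forall]
      intro g
      obtain ⟨w, hw, x, hx, h⟩ := hWMtop g
      exact ⟨w, hw, x, hx, h.symm⟩
  have hcardM : Nat.card M = W.index := by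
    rw [Subgroup.index_eq_card]
    exact (Nat.card_congr (hcompl.QuotientMulEquiv).toEquiv).symm
  have hRs : ¬ s ∣ Nat.card M := by
    rw [hcardM, ← hSW]
    exact S.not_dvd_index
  have hFWA : A (F ⧸ W) := hquot W hWne
  have hAM : A M := hA.iso _ _ hcompl.QuotientMulEquiv hFWA
  have hms : m ≤ s := hFT.2.2.1 s hs hsd
  rcases hms.lt_or_eq with hlt | heq
  · exact main_step hA hLL hm hs hlt (TT_zero hFT) hFA hWn hWc hWMtop hWM
      (by rw [← hSW]; exact hSp) hRs hWne hWmin hAM hFWA hAm hprimes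
  · -- m = s
    have hM1 : M = ⊥ := by
      rw [← Subgroup.card_eq_one]
      by_contra hne
      obtain ⟨q, hq, hd⟩ := Nat.exists_prime_and_dvd hne
      have h1 : q ∣ Nat.card F := hd.trans (Subgroup.card_subgroup_dvd_card M)
      have h2 := hFT.2.2.1 q hq h1
      have h3 := hprimes q hq h1
      have h4 : q = s := by omega
      exact hRs (h4 ▸ hd)
    obtain ⟨x, hx⟩ := exists_prime_orderOf_dvd_card' s hsd
    have hxne : Subgroup.zpowers x ≠ ⊥ := by
      rw [Ne, Subgroup.zpowers_eq_bot]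
      rintro rfl
      rw [orderOf_one] at hx
      exact hs.ne_one hx.symm
    have hxtop : Subgroup.zpowers x = ⊤ := hM.2 _ (by rw [hM1]; exact bot_lt_iff_ne_bot.mpr hxne)
    apply hFA
    apply hAm
    rw [← Subgroup.card_top, ← hxtop, Nat.card_zpowers, hx, heq]

theorem main (A : GC) (hat : IsAtomClass A) : ¬ LL A (TT 0) := by
  classical
  intro hLL
  obtain ⟨hA, hnt, hmin⟩ := hat
  obtain ⟨G0, _, hG0n, hG0⟩ := hnt
  have hex : ∃ p : ℕ, p.Prime ∧ ∀ (G : Type) [Group G], Nat.card G = p → A G := by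
    haveI := hA.fin G0 hG0
    have h1 : Nat.card G0 ≠ 1 := (Finite.one_lt_card (α := G0)).ne'
    exact ⟨_, Nat.minFac_prime h1, fun G _ hG => A_minFac hA hLL hG0 h1 G hG⟩
  obtain ⟨m, ⟨hm, hAm⟩, hmmin⟩ : ∃ m : ℕ, (m.Prime ∧ ∀ (G : Type) [Group G], Nat.card G = m → A G) ∧
      ∀ k, (k.Prime ∧ ∀ (G : Type) [Group G], Nat.card G = k → A G) → m ≤ k :=
    ⟨Nat.find hex, Nat.find_spec hex, fun k hk => Nat.find_min' hex hk⟩
  obtain ⟨p, hpm, hp⟩ := Nat.exists_infinite_primes (m + 1)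
  have hge : ∀ (G : Type) [Group G], TT m G → A G := fun G _ h =>
    A_ge hA hLL hm hAm (Nat.card G) G rfl h
  have hle : ∀ (G : Type) [Group G], A G → TT m G := by
    intro G _ hG
    obtain ⟨h1, h2, h3, h4⟩ := A_le hA hLL hG
    refine ⟨h1, h2, fun q hq hd => ?_, h4⟩
    have hne : Nat.card G ≠ 1 := by
      intro h
      rw [h] at hd
      exact hq.ne_one (Nat.dvd_one.mp hd)
    have h5 := hmmin _ ⟨Nat.minFac_prime hne, fun H _ hH => A_minFac hA hLL hG hne H hH⟩
    exact h5.trans (Nat.minFac_le_of_dvd hq.two_le hd)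
  have hLLB : LL (TT p) A := by
    intro G _ hfin hsol
    obtain ⟨E, F, hE, hF, hEF⟩ := LL_TT (m := m) (m' := p) (by omega) G hfin hsol
    refine ⟨E, F, hE, fun N _ => ?_, hEF⟩
    obtain ⟨h1, h2⟩ := hF N
    exact ⟨hge _ h1, fun V hV hAV => h2 V hV (hle _ hAV)⟩
  have hiff := hmin (TT p) (TT_schunck p) (TT_nontriv p) hLLB
  haveI : Fact m.Prime := ⟨hm⟩
  have hcard : Nat.card (Multiplicative (ZMod m)) = m := by
    rw [Nat.card_congr Multiplicative.toAdd, Nat.card_zmod]
  have h1 : A (Multiplicative (ZMod m)) := hAm _ hcard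
  have h2 := ((hiff _).mpr h1).2.2.1 m hm (by rw [hcard])
  omega

end Pool.Agent.H23.Sch
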