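import Pool.Agent.H23.SchTower

open Subgroup

namespace Pool.Agent.H23.Sch

/-! general facts on Schunck classes -/

lemma X_surj {X : GC} (hX : IsSchunck X) {G H : Type} [Group G] [Group H] (hG : X G)
    (f : G →* H) (hf : Function.Surjective f) : X H :=
  hX.iso _ _ (QuotientGroup.quotientKerEquivOfSurjective f hf) (hX.quot G f.ker hG)

lemma X_factor {X : GC} (hX : IsSchunck X) {L Z Q : Type} [Group L] [Group Z] [Group Q]
    (hZ : X Z) (f : L →* Z) (hf : Function.Surjective f) (q : L →* Q)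
    (hq : Function.Surjective q) (h : f.ker ≤ q.ker) : X Q := by
  refine X_surj hX hZ (f.liftOfSurjective hf ⟨q, h⟩) ?_
  intro y
  obtain ⟨x, rfl⟩ := hq y
  exact ⟨f x, MonoidHom.liftOfRightInverse_comp_apply _ _ _ ⟨q, h⟩ x⟩

lemma maxsub_equiv {X : GC} (hiso : ∀ (G H : Type) [Group G] [Group H], (G ≃* H) → X G → X H)
    {G H : Type} [Group G] [Group H] (e : G ≃* H) {U : Subgroup G} (hU : IsMaxSub X U) :
    IsMaxSub X (U.map e.toMonoidHom) := by
  refine ⟨hiso _ _ (e.subgroupMap U) hU.1, fun V hV hXV => ?_⟩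
  have h1 : U ≤ V.map e.symm.toMonoidHom := by
    intro x hx
    exact ⟨e x, hV ⟨x, hx, rfl⟩, e.symm_apply_apply x⟩
  have h2 := hU.2 _ h1 (hiso _ _ (e.symm.subgroupMap V) hXV)
  intro v hv
  exact ⟨e.symm v, h2 ⟨v, hv, rfl⟩, e.apply_symm_apply v⟩

lemma proj_surj {X : GC} (hiso : ∀ (G H : Type) [Group G] [Group H], (G ≃* H) → X G → X H)
    {G H : Type} [Group G] [Group H] {E : Subgroup G} (hE : IsProj X E) (f : G →* H)
    (hf : Function.Surjective f) : IsMaxSub X (E.map f) := by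
  have h1 := maxsub_equiv hiso (QuotientGroup.quotientKerEquivOfSurjective f hf) (hE f.ker)
  rw [Subgroup.map_map] at h1
  exact h1

lemma maxsub_top {X : GC} (hiso : ∀ (G H : Type) [Group G] [Group H], (G ≃* H) → X G → X H)
    {G : Type} [Group G] (hG : X G) {U : Subgroup G} (hU : IsMaxSub X U) : U = ⊤ :=
  top_le_iff.mp (hU.2 ⊤ le_top (hiso _ _ Subgroup.topEquiv.symm hG))

/-! primitive groups -/

lemma prim_abelian {G : Type} [Group G] {M : Subgroup G} (hM : IsCoatom M)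
    (hc : M.normalCore = ⊥) {B : Subgroup G} (hB : B.Normal)
    (hcomm : ∀ x ∈ B, ∀ y ∈ B, x * y = y * x) (hne : B ≠ ⊥) :
    B ⊓ M = ⊥ ∧ (∀ g : G, ∃ b ∈ B, ∃ x ∈ M, g = b * x) := by
  have h1 : ¬ B ≤ M := by
    intro h
    have := Subgroup.normal_le_normalCore.mpr h
    rw [hc, le_bot_iff] at this
    exact hne this
  have h2 : B ⊔ M = ⊤ := by
    apply hM.2
    refine lt_of_le_of_ne le_sup_right ?_
    intro h
    apply h1
    rw [h]; exact le_sup_left
  have h3 : ∀ g : G, ∃ b ∈ B, ∃ x ∈ M, g = b * x := by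
    intro g
    have h4 : g ∈ B ⊔ M := by rw [h2]; trivial
    rw [Subgroup.mem_sup_of_normal_left] at h4
    obtain ⟨b, hb, x, hx, h⟩ := h4
    exact ⟨b, hb, x, hx, h.symm⟩
  refine ⟨?_, h3⟩
  have h4 : (B ⊓ M).Normal := by
    refine ⟨fun n hn g => ?_⟩
    obtain ⟨b, hb, x, hx, rfl⟩ := h3 g
    have h5 : x * n * x⁻¹ ∈ B := hB.conj_mem n hn.1 x
    have h6 : x * n * x⁻¹ ∈ M := mul_mem (mul_mem hx hn.2) (inv_mem hx)
    have h7 : b * x * n * (b * x)⁻¹ = x * n * x⁻¹ := by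
      have h8 := hcomm b hb _ h5
      calc b * x * n * (b * x)⁻¹ = (b * (x * n * x⁻¹)) * b⁻¹ := by group
        _ = (x * n * x⁻¹ * b) * b⁻¹ := by rw [h8]
        _ = x * n * x⁻¹ := by group
    rw [h7]
    exact ⟨h5, h6⟩
  have h5 := Subgroup.normal_le_normalCore.mpr (inf_le_right : B ⊓ M ≤ M)
  rw [hc, le_bot_iff] at h5
  exact h5

lemma prim_min {G : Type} [Group G] {M : Subgroup G} (hM : IsCoatom M)
    (hc : M.normalCore = ⊥) {B : Subgroup G} (hB : B.Normal)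
    (hcomm : ∀ x ∈ B, ∀ y ∈ B, x * y = y * x) (hne : B ≠ ⊥) {N : Subgroup G} (hN : N.Normal)
    (hNB : N ≤ B) : N = ⊥ ∨ N = B := by
  by_cases h : N = ⊥
  · exact Or.inl h
  right
  obtain ⟨h1, _⟩ := prim_abelian hM hc hB hcomm hne
  obtain ⟨_, h2⟩ := prim_abelian hM hc hN (fun x hx y hy => hcomm x (hNB hx) y (hNB hy)) h
  refine le_antisymm hNB (fun b hb => ?_)
  obtain ⟨n, hn, x, hx, rfl⟩ := h2 b
  have h3 : x ∈ B ⊓ M := ⟨by
    have := mul_mem (inv_mem (hNB hn)) hb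
    rwa [inv_mul_cancel_left] at this, hx⟩
  rw [h1, Subgroup.mem_bot] at h3
  rw [h3, mul_one]; exact hn

/-! conjugacy of complements -/

lemma conj_complement {F : Type} [Group F] [Finite F] {W R U : Subgroup F} (hW : W.Normal)
    (hcomm : ∀ x ∈ W, ∀ y ∈ W, x * y = y * x) (hcop : (Nat.card W).Coprime (Nat.card R))
    (hWR : ∀ g : F, ∃ w ∈ W, ∃ x ∈ R, g = w * x)
    (hWU : W ⊓ U = ⊥) (hWU' : ∀ g : F, ∃ w ∈ W, ∃ x ∈ U, g = w * x) :
    ∃ d ∈ W, ∀ x, x ∈ R ↔ d * x * d⁻¹ ∈ U := by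
  classical
  letI : CommGroup W := { (inferInstance : Group W) with
    mul_comm := fun a b => Subtype.ext (hcomm a a.2 b b.2) }
  have hex : ∀ g : F, ∃ w : W, (w : F) * g ∈ U := by
    intro g
    obtain ⟨w, hw, x, hx, h⟩ := hWU' g
    refine ⟨⟨w⁻¹, inv_mem hw⟩, ?_⟩
    show w⁻¹ * g ∈ U
    rw [h, inv_mul_cancel_left]; exact hx
  choose w hw using hex
  have huniq : ∀ (g : F) (a : W), (a : F) * g ∈ U → a = w g := by
    intro g a ha
    have h1 : (a : F) * (w g : F)⁻¹ ∈ W ⊓ U := by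
      refine Subgroup.mem_inf.mpr ⟨mul_mem a.2 (inv_mem (w g).2), ?_⟩
      have := mul_mem ha (inv_mem (hw g))
      have h2 : (a : F) * g * ((w g : F) * g)⁻¹ = (a : F) * (w g : F)⁻¹ := by group
      rwa [h2] at this
    rw [hWU, Subgroup.mem_bot, mul_inv_eq_one] at h1
    exact Subtype.ext h1
  have hcoc : ∀ x y : F, w (x * y) = w x * ⟨x * (w y : F) * x⁻¹, hW.conj_mem _ (w y).2 x⟩ := by
    intro x y
    symm
    apply huniq
    have h1 : ((w x * ⟨x * (w y : F) * x⁻¹, hW.conj_mem _ (w y).2 x⟩ : W) : F) * (x * y)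
        = ((w x : F) * x) * ((w y : F) * y) := by
      show (w x : F) * (x * (w y : F) * x⁻¹) * (x * y) = _
      group
    rw [h1]; exact mul_mem (hw x) (hw y)
  haveI : Fintype R := Fintype.ofFinite R
  let cj : F → W →* W := fun x =>
    { toFun := fun a => ⟨x * (a : F) * x⁻¹, hW.conj_mem _ a.2 x⟩
      map_one' := by apply Subtype.ext; show x * 1 * x⁻¹ = 1; group
      map_mul' := fun a b => by
        apply Subtype.ext
        show x * ((a : F) * b) * x⁻¹ = (x * a * x⁻¹) * (x * b * x⁻¹)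
        group }
  have hcj : ∀ (x : F) (a : W), (cj x a : F) = x * a * x⁻¹ := fun x a => rfl
  set c : W := ∏ y : R, w (y : F) with hc
  have hprod : ∀ x : R, (w (x : F)) ^ (Nat.card R) * cj x c = c := by
    intro x
    have h1 : ∏ y : R, w ((x : F) * (y : F)) = c := by
      rw [hc]
      exact Fintype.prod_equiv (Equiv.mulLeft x) _ _ (fun y => rfl)
    have h2 : ∏ y : R, w ((x : F) * (y : F)) = (w (x : F)) ^ (Nat.card R) * cj x c := by
      rw [hc, map_prod]
      have h3 : ∀ y : R, w ((x : F) * (y : F)) = w (x : F) * cj x (w (y : F)) := fun y =>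
        hcoc x y
      rw [Finset.prod_congr rfl (fun y _ => h3 y), Finset.prod_mul_distrib, Finset.prod_const,
        Finset.card_univ, Nat.card_eq_fintype_card]
    rw [← h2, h1]
  set d : W := (powCoprime hcop).symm c with hd
  have hdc : d ^ (Nat.card R) = c := by
    have := (powCoprime hcop).apply_symm_apply c
    exact this
  have hwx : ∀ x : R, w (x : F) * cj x d = d := by
    intro x
    apply (powCoprime hcop).injective
    show (w (x : F) * cj x d) ^ (Nat.card R) = d ^ (Nat.card R)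
    rw [mul_pow, ← map_pow, hdc]; exact hprod x
  have hone : ∀ x ∈ R, (d : F) * x * (d : F)⁻¹ ∈ U := by
    intro x hx
    have h1 := hwx ⟨x, hx⟩
    have h2 : (w x : F) * (x * d * x⁻¹) = d := congrArg Subtype.val h1
    have h3 : (d : F) * x * (d : F)⁻¹ = (w x : F) * x := by
      have h4 : (d : F) * x = (w x : F) * x * d := by
        calc (d : F) * x = (w x : F) * (x * d * x⁻¹) * x := by rw [h2]
          _ = (w x : F) * x * d := by group
      rw [h4]; group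
    rw [h3]; exact hw x
  refine ⟨d, d.2, fun x => ⟨hone x, fun hx => ?_⟩⟩
  obtain ⟨a, ha, y, hy, rfl⟩ := hWR x
  have h1 := hone y hy
  have h2 : (d : F) * a * (d : F)⁻¹ ∈ W ⊓ U := by
    refine ⟨hW.conj_mem a ha d, ?_⟩
    have h3 := mul_mem hx (inv_mem h1)
    have h4 : (d : F) * (a * y) * (d : F)⁻¹ * ((d : F) * y * (d : F)⁻¹)⁻¹
        = (d : F) * a * (d : F)⁻¹ := by group
    rwa [h4] at h3
  rw [hWU, Subgroup.mem_bot] at h2
  have h3 : a = 1 := by
    have := congrArg (fun z => (d : F)⁻¹ * z * d) h2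
    simpa [mul_assoc] using this
  rw [h3, one_mul]; exact hy

/-! the key lemma -/

theorem key {A T : GC} (hA : IsSchunck A)
    (hTiso : ∀ (G H : Type) [Group G] [Group H], (G ≃* H) → T G → T H) (hLL : LL A T)
    {G F Z : Type} [Group G] [Group F] [Group Z] [Finite G] [Finite F]
    (hsol : Group.IsSolvable G) (π : G →* F) (hπ : Function.Surjective π)
    (hVc : ∀ x ∈ π.ker, ∀ y ∈ π.ker, x * y = y * x)
    (hVmin : ∀ N : Subgroup G, N.Normal → N ≤ π.ker → N = ⊥ ∨ N = π.ker)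
    {W R : Subgroup F} (hWn : W.Normal) (hWc : ∀ x ∈ W, ∀ y ∈ W, x * y = y * x)
    (hWR : ∀ g : F, ∃ w ∈ W, ∃ x ∈ R, g = w * x)
    (hcop : (Nat.card W).Coprime (Nat.card R))
    (hWmin : ∀ N : Subgroup F, N.Normal → N ≤ W → N = ⊥ ∨ N = W)
    (hFT : T F) (hGT : ¬ T G) (hFA : ¬ A F) (hFWA : A (F ⧸ W)) (hZ : A Z)
    {Y : Subgroup G} (hY : ∀ x, x ∈ Y ↔ π x ∈ R) (θ : Y →* Z) (hθ : Function.Surjective θ)
    (hθV : ∀ y : Y, θ y = 1 → (y : G) ∈ π.ker)
    (hθne : ∃ y : Y, (y : G) ∈ π.ker ∧ θ y ≠ 1) : False := by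
  have hAiso := fun (G H : Type) [Group G] [Group H] (e : G ≃* H) (h : A G) => hA.iso G H e h
  obtain ⟨E, F', hE, hF', hEF⟩ := hLL G inferInstance hsol
  -- Step 1
  have hF'π : F'.map π = ⊤ := maxsub_top hTiso hFT (proj_surj hTiso hF' π hπ)
  have hF'dec : ∀ g : G, ∃ f ∈ F', ∃ v ∈ π.ker, g = f * v := by
    intro g
    have h1 : π g ∈ F'.map π := by rw [hF'π]; trivial
    obtain ⟨f, hf, hfg⟩ := h1
    refine ⟨f, hf, f⁻¹ * g, ?_, by group⟩
    rw [MonoidHom.mem_ker, map_mul, map_inv, hfg]; group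
  have hF'V : F' ⊓ π.ker = ⊥ := by
    have h1 : (F' ⊓ π.ker).Normal := by
      refine ⟨fun n hn g => ?_⟩
      obtain ⟨f, hf, v, hv, rfl⟩ := hF'dec g
      have h2 : f * v * n * (f * v)⁻¹ = f * n * f⁻¹ := by
        have h3 := hVc v hv n hn.2
        calc f * v * n * (f * v)⁻¹ = f * (v * n) * v⁻¹ * f⁻¹ := by group
          _ = f * (n * v) * v⁻¹ * f⁻¹ := by rw [h3]
          _ = f * n * f⁻¹ := by group
      rw [h2]
      exact Subgroup.mem_inf.mpr ⟨mul_mem (mul_mem hf hn.1) (inv_mem hf),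
        (inferInstance : (π.ker).Normal).conj_mem n hn.2 f⟩
    rcases hVmin _ h1 inf_le_right with h2 | h2
    · exact h2
    · exfalso
      apply hGT
      have h3 : F' = ⊤ := by
        rw [eq_top_iff]
        intro g _
        obtain ⟨f, hf, v, hv, rfl⟩ := hF'dec g
        have h4 : v ∈ F' ⊓ π.ker := by rw [h2]; exact hv
        exact mul_mem hf h4.1
      have h4 := (proj_surj hTiso hF' (MonoidHom.id G) Function.surjective_id).1
      rw [Subgroup.map_id, h3] at h4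
      exact hTiso _ _ Subgroup.topEquiv h4
  -- Step 2
  set U := E.map π with hU
  have hUmax : IsMaxSub A U := proj_surj hAiso hE π hπ
  have hUne : U ≠ ⊤ := by
    intro h
    have := hUmax.1
    rw [h] at this
    exact hFA (hA.iso _ _ Subgroup.topEquiv this)
  have hUW : ∀ x : F, ∃ w ∈ W, ∃ u ∈ U, x = w * u := by
    intro x
    have h1 := maxsub_top hAiso hFWA (proj_surj hAiso hE ((QuotientGroup.mk' W).comp π)
      ((QuotientGroup.mk'_surjective W).comp hπ))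
    have h2 : QuotientGroup.mk' W x ∈ E.map ((QuotientGroup.mk' W).comp π) := by
      rw [h1]; trivial
    obtain ⟨e, he, hex⟩ := h2
    have h3 : (QuotientGroup.mk (π e) : F ⧸ W) = QuotientGroup.mk x := hex
    rw [QuotientGroup.eq] at h3
    have h4 := hWn.conj_mem _ h3 (π e)
    refine ⟨_, h4, π e, ⟨e, he, rfl⟩, by group⟩
  have hUWbot : W ⊓ U = ⊥ := by
    have h1 : (W ⊓ U).Normal := by
      refine ⟨fun n hn g => ?_⟩
      obtain ⟨w, hw, u, hu, rfl⟩ := hUW g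
      have h2 : u * n * u⁻¹ ∈ W := hWn.conj_mem n hn.1 u
      have h3 : u * n * u⁻¹ ∈ U := mul_mem (mul_mem hu hn.2) (inv_mem hu)
      have h4 : w * u * n * (w * u)⁻¹ = u * n * u⁻¹ := by
        have h5 := hWc w hw _ h2
        calc w * u * n * (w * u)⁻¹ = (w * (u * n * u⁻¹)) * w⁻¹ := by group
          _ = (u * n * u⁻¹ * w) * w⁻¹ := by rw [h5]
          _ = u * n * u⁻¹ := by group
      rw [h4]; exact ⟨h2, h3⟩
    rcases hWmin _ h1 inf_le_left with h2 | h2
    · exact h2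
    · exfalso
      apply hUne
      rw [eq_top_iff]
      intro x _
      obtain ⟨w, hw, u, hu, rfl⟩ := hUW x
      have h3 : w ∈ W ⊓ U := by rw [h2]; exact hw
      exact mul_mem h3.2 hu
  -- Step 3
  obtain ⟨d, hd, hconj⟩ := conj_complement hWn hWc hcop hWR hUWbot hUW
  obtain ⟨δ, rfl⟩ := hπ d
  set E1 : Subgroup G := E.map (MulAut.conj δ⁻¹).toMonoidHom with hE1
  have hE1mem : ∀ x, x ∈ E1 ↔ δ * x * δ⁻¹ ∈ E := by
    intro x
    constructor
    · rintro ⟨e, he, rfl⟩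
      show δ * (MulAut.conj δ⁻¹ e) * δ⁻¹ ∈ E
      rw [MulAut.conj_apply]
      have : δ * (δ⁻¹ * e * δ⁻¹⁻¹) * δ⁻¹ = e := by group
      rw [this]; exact he
    · intro h
      refine ⟨_, h, ?_⟩
      show MulAut.conj δ⁻¹ (δ * x * δ⁻¹) = x
      rw [MulAut.conj_apply]; group
  have hEmax : IsMaxSub A E := by
    have := proj_surj hAiso hE (MonoidHom.id G) Function.surjective_id
    rwa [Subgroup.map_id] at this
  have hE1max : IsMaxSub A E1 := maxsub_equiv hAiso (MulAut.conj δ⁻¹) hEmax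
  have hE1π : ∀ x ∈ E1, π x ∈ R := by
    intro x hx
    rw [hE1mem] at hx
    rw [hconj, ← map_inv, ← map_mul, ← map_mul]
    exact ⟨_, hx, rfl⟩
  have hE1lift : ∀ y ∈ R, ∃ e ∈ E1, π e = y := by
    intro y hy
    rw [hconj] at hy
    obtain ⟨e, he, hey⟩ := hy
    refine ⟨δ⁻¹ * e * δ, ?_, ?_⟩
    · rw [hE1mem]
      have : δ * (δ⁻¹ * e * δ) * δ⁻¹ = e := by group
      rw [this]; exact he
    · rw [map_mul, map_mul, map_inv, hey]; group
  have hE1V : ∀ x ∈ E1, x ∈ π.ker → x = 1 := by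
    intro x hx hxV
    rw [hE1mem] at hx
    have h1 : δ * x * δ⁻¹ ∈ F' ⊓ π.ker :=
      ⟨hEF hx, (inferInstance : (π.ker).Normal).conj_mem x hxV δ⟩
    rw [hF'V, Subgroup.mem_bot] at h1
    have := congrArg (fun z => δ⁻¹ * z * δ) h1
    simpa [mul_assoc] using this
  -- Step 4
  let K : Subgroup G := θ.ker.map Y.subtype
  have hKmem : ∀ x (hx : x ∈ Y), x ∈ K ↔ θ ⟨x, hx⟩ = 1 := by
    intro x hx
    constructor
    · rintro ⟨y, hy, rfl⟩; exact hy
    · intro h; exact ⟨⟨x, hx⟩, h, rfl⟩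
  have hKY : K ≤ Y := by rintro _ ⟨y, _, rfl⟩; exact y.2
  have hKV : K ≤ π.ker := by rintro _ ⟨y, hy, rfl⟩; exact hθV y hy
  have hVY : π.ker ≤ Y := by
    intro x hx
    rw [hY, MonoidHom.mem_ker.mp hx]; exact R.one_mem
  have hKn : ∀ y ∈ Y, ∀ k ∈ K, y * k * y⁻¹ ∈ K := by
    intro y hy k hk
    have hkY := hKY hk
    rw [hKmem k hkY] at hk
    have h1 : y * k * y⁻¹ ∈ Y := mul_mem (mul_mem hy hkY) (inv_mem hy)
    rw [hKmem _ h1]
    have h2 : (⟨y * k * y⁻¹, h1⟩ : Y) = ⟨y, hy⟩ * ⟨k, hkY⟩ * ⟨y, hy⟩⁻¹ := rfl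
    rw [h2, map_mul, map_mul, hk, map_inv]; group
  let C : Set (Subgroup G) := {L | E1 ≤ L ∧ L ≤ Y ∧ ∀ y ∈ Y, ∃ l ∈ L, ∃ k ∈ K, y = l * k}
  have hCne : C.Nonempty := ⟨Y, fun x hx => (hY x).mpr (hE1π x hx), le_rfl, fun y hy => ⟨y, hy, 1, K.one_mem,
    (mul_one y).symm⟩⟩
  obtain ⟨L, hLC, hLmin⟩ := WellFounded.has_min (wellFounded_lt (α := Subgroup G)) C hCne
  obtain ⟨hE1L, hLY, hLK⟩ := hLC
  have hAL : A L := by
    refine hA.prim L inferInstance inferInstance (fun D _ hprim => ?_)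
    set q := QuotientGroup.mk' D with hq
    have hqs : Function.Surjective q := QuotientGroup.mk'_surjective D
    obtain ⟨M, hM, hMc⟩ := hprim
    set B : Subgroup (L ⧸ D) := ((π.ker).subgroupOf L).map q with hB
    have hBn : B.Normal := (inferInstance : ((π.ker).subgroupOf L).Normal).map q hqs
    have hBc : ∀ x ∈ B, ∀ y ∈ B, x * y = y * x := by
      rintro _ ⟨x, hx, rfl⟩ _ ⟨y, hy, rfl⟩
      rw [← map_mul, ← map_mul]
      congr 1
      exact Subtype.ext (hVc x hx y hy)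
    set Eb : Subgroup (L ⧸ D) := (E1.subgroupOf L).map q with hEb
    have hdec : ∀ x : L ⧸ D, ∃ e ∈ Eb, ∃ b ∈ B, x = e * b := by
      intro x
      obtain ⟨l, rfl⟩ := hqs x
      obtain ⟨e, he, hel⟩ := hE1lift (π l) ((hY _).mp (hLY l.2))
      refine ⟨q ⟨e, hE1L he⟩, ⟨_, he, rfl⟩, q (⟨e, hE1L he⟩⁻¹ * l), ⟨_, ?_, rfl⟩, ?_⟩
      · show e⁻¹ * (l : G) ∈ π.ker
        rw [MonoidHom.mem_ker, map_mul, map_inv, hel]; group
      · rw [← map_mul, mul_inv_cancel_left]
    have hAE : A (E1.subgroupOf L) :=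
      hA.iso _ _ (Subgroup.subgroupOfEquivOfLe hE1L).symm hE1max.1
    have hEtop : Eb = ⊤ → A (L ⧸ D) := by
      intro h
      refine X_surj hA hAE (q.comp (E1.subgroupOf L).subtype) ?_
      intro x
      have h1 : x ∈ Eb := by rw [h]; trivial
      obtain ⟨e, he, hex⟩ := h1
      exact ⟨⟨e, he⟩, hex⟩
    by_cases hBbot : B = ⊥
    · apply hEtop
      rw [eq_top_iff]
      intro x _
      obtain ⟨e, he, b, hb, rfl⟩ := hdec x
      rw [hBbot, Subgroup.mem_bot] at hb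
      rw [hb, mul_one]; exact he
    -- K image
    set Kb : Subgroup (L ⧸ D) := (K.subgroupOf L).map q with hKb
    have hKLn : (K.subgroupOf L).Normal := by
      refine ⟨fun n hn g => ?_⟩
      exact hKn g (hLY g.2) n hn
    have hKbn : Kb.Normal := hKLn.map q hqs
    have hKbB : Kb ≤ B := Subgroup.map_mono (fun x hx => hKV hx)
    rcases prim_min hM hMc hBn hBc hBbot hKbn hKbB with h1 | h1
    · -- quotient of Z
      have hθL : ∀ l : L, (l : G) ∈ Y := fun l => hLY l.2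
      set f : L →* Z := θ.comp (Subgroup.inclusion hLY) with hf
      refine X_factor hA hZ f ?_ q hqs ?_
      · intro z
        obtain ⟨y, rfl⟩ := hθ z
        obtain ⟨l, hl, k, hk, hy⟩ := hLK y y.2
        refine ⟨⟨l, hl⟩, ?_⟩
        have hkY := hKY hk
        rw [hKmem k hkY] at hk
        have h2 : y = ⟨l, hLY hl⟩ * ⟨k, hkY⟩ := Subtype.ext hy
        rw [h2, map_mul, hk, mul_one]; rfl
      · intro x hx
        have h2 : (x : G) ∈ K := by
          rw [hKmem _ (hLY x.2)]; exact hx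
        have h3 : q x ∈ Kb := ⟨x, h2, rfl⟩
        rw [h1, Subgroup.mem_bot] at h3
        exact h3
    · -- smaller L
      set L1 : Subgroup G := (Eb.comap q).map L.subtype with hL1
      have hL1C : L1 ∈ C := by
        refine ⟨?_, ?_, ?_⟩
        · intro x hx
          exact ⟨⟨x, hE1L hx⟩, ⟨⟨x, hE1L hx⟩, hx, rfl⟩, rfl⟩
        · rintro _ ⟨l, _, rfl⟩; exact hLY l.2
        · intro y hy
          obtain ⟨l, hl, k, hk, rfl⟩ := hLK y hy
          obtain ⟨e, he, b, hb, heb⟩ := hdec (q ⟨l, hl⟩)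
          rw [← h1] at hb
          obtain ⟨k1, hk1, rfl⟩ := hb
          refine ⟨l * (k1 : G)⁻¹, ⟨⟨l, hl⟩ * k1⁻¹, ?_, rfl⟩, k1 * k, mul_mem hk1 hk, by group⟩
          show q (⟨l, hl⟩ * k1⁻¹) ∈ Eb
          rw [map_mul, map_inv, heb, mul_inv_cancel_right]; exact he
      have hnot := hLmin L1 hL1C
      have hL1L : L1 ≤ L := by rintro _ ⟨l, _, rfl⟩; exact l.2
      have hLL1 : L1 = L := by
        by_contra hne
        exact hnot (lt_of_le_of_ne hL1L hne)
      apply hEtop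
      rw [eq_top_iff]
      intro x _
      obtain ⟨l, rfl⟩ := hqs x
      have h2 : (l : G) ∈ L1 := by rw [hLL1]; exact l.2
      obtain ⟨l', hl', hll⟩ := h2
      have h3 : l' = l := Subtype.ext hll
      rw [← h3]; exact hl'
  have hLE : L ≤ E1 := hE1max.2 L hE1L hAL
  obtain ⟨y, hyV, hyne⟩ := hθne
  apply hyne
  obtain ⟨l, hl, k, hk, hyl⟩ := hLK y y.2
  have h1 : l ∈ π.ker := by
    have h2 : l = (y : G) * k⁻¹ := by rw [hyl]; group
    rw [h2]; exact mul_mem hyV (inv_mem (hKV hk))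
  have h2 := hE1V l (hLE hl) h1
  rw [h2, one_mul] at hyl
  have h3 := (hKmem k (hKY hk)).mp hk
  have h4 : y = ⟨k, hKY hk⟩ := Subtype.ext hyl
  rw [h4]; exact h3

end Pool.Agent.H23.Sch
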