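import Pool.Agent.H23.SchDefs

open Subgroup

namespace Pool.Agent.H23.Sch

/-- normal Hall subgroups for all sets of primes `> n` -/
def Tow (G : Type) [Group G] : Prop := ∀ n : ℕ, ∃ N : Subgroup G, N.Normal ∧
  (∀ p, p.Prime → p ∣ Nat.card N → n < p) ∧ (∀ p, p.Prime → p ∣ N.index → p ≤ n)

def TT (m : ℕ) (G : Type) [Group G] : Prop := Finite G ∧ Group.IsSolvable G ∧
  (∀ p, p.Prime → p ∣ Nat.card G → m ≤ p) ∧ Tow G

lemma TT_surj {m : ℕ} {G H : Type} [Group G] [Group H] (hG : TT m G) (f : G →* H)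
    (hf : Function.Surjective f) : TT m H := by
  obtain ⟨h1, h2, h3, h4⟩ := hG
  refine ⟨Finite.of_surjective f hf, Group.isSolvable_of_surjective hf, fun p hp hd => ?_,
    fun n => ?_⟩
  · exact h3 p hp (hd.trans (Subgroup.card_dvd_of_surjective f hf))
  · obtain ⟨N, hN, h5, h6⟩ := h4 n
    refine ⟨N.map f, hN.map f hf, fun p hp hd => ?_, fun p hp hd => ?_⟩
    · exact h5 p hp (hd.trans (Subgroup.card_map_dvd N f))
    · exact h6 p hp (hd.trans (N.index_map_dvd hf))

lemma TT_iso {m : ℕ} {G H : Type} [Group G] [Group H] (hG : TT m G) (e : G ≃* H) : TT m H :=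
  TT_surj hG e.toMonoidHom e.surjective

lemma TT_triv {m : ℕ} {G : Type} [Group G] [Subsingleton G] : TT m G := by
  have hc : Nat.card G = 1 := Nat.card_of_subsingleton 1
  refine ⟨inferInstance, inferInstance, fun p hp hd => ?_, fun n => ⟨⊥, inferInstance, ?_, ?_⟩⟩
  · rw [hc] at hd; exact absurd (Nat.dvd_one.mp hd) hp.ne_one
  · intro p hp hd
    rw [Subgroup.card_bot] at hd; exact absurd (Nat.dvd_one.mp hd) hp.ne_one
  · intro p hp hd
    rw [Subgroup.index_bot, hc] at hd; exact absurd (Nat.dvd_one.mp hd) hp.ne_one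

lemma dvd_pGroup {s p : ℕ} (hs : s.Prime) {G : Type} [Group G] [Finite G] (h : IsPGroup s G)
    (hp : p.Prime) (hd : p ∣ Nat.card G) : p = s := by
  haveI : Fact s.Prime := ⟨hs⟩
  obtain ⟨k, hk⟩ := IsPGroup.iff_card.mp h
  rw [hk] at hd
  exact (Nat.prime_dvd_prime_iff_eq hp hs).mp (hp.dvd_of_dvd_pow hd)

lemma card_eq_ker_mul {G H : Type} [Group G] [Group H] (f : G →* H)
    (hf : Function.Surjective f) : Nat.card G = Nat.card f.ker * Nat.card H := by
  rw [← Subgroup.card_mul_index f.ker, Subgroup.index_ker, MonoidHom.range_eq_top.mpr hf,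
    Subgroup.card_top]

lemma TT_ext {m s : ℕ} (hs : s.Prime) (hms : m ≤ s) {W Q : Type} [Group W] [Group Q] [Finite W]
    (f : W →* Q) (hf : Function.Surjective f) (hk : IsPGroup s f.ker)
    (hW : ∀ p, p.Prime → p ∣ Nat.card W → p ≤ s) (hQ : TT m Q) : TT m W := by
  haveI : Fact s.Prime := ⟨hs⟩
  obtain ⟨h1, h2, h3, h4⟩ := hQ
  have hcard := card_eq_ker_mul f hf
  refine ⟨inferInstance, ?_, fun p hp hd => ?_, fun n => ?_⟩
  · haveI : Group.IsNilpotent f.ker := hk.isNilpotent
    haveI : Group.IsSolvable f.ker := inferInstance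
    exact Group.isSolvable_of_ker_le_range f.ker.subtype f (by rw [Subgroup.range_subtype])
  · rw [hcard, hp.dvd_mul] at hd
    rcases hd with hd | hd
    · rw [dvd_pGroup hs hk hp hd]; exact hms
    · exact h3 p hp hd
  · rcases le_or_gt s n with hn | hn
    · refine ⟨⊥, inferInstance, fun p hp hd => ?_, fun p hp hd => ?_⟩
      · rw [Subgroup.card_bot] at hd; exact absurd (Nat.dvd_one.mp hd) hp.ne_one
      · rw [Subgroup.index_bot] at hd; exact (hW p hp hd).trans hn
    · obtain ⟨N, hN, h5, h6⟩ := h4 n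
      refine ⟨N.comap f, hN.comap f, fun p hp hd => ?_, fun p hp hd => ?_⟩
      · have h7 : Nat.card (N.comap f) * N.index = (Nat.card f.ker * Nat.card N) * N.index := by
          have h8 := Subgroup.card_mul_index (N.comap f)
          rw [N.index_comap_of_surjective hf, hcard, ← Subgroup.card_mul_index N] at h8
          rw [h8]; ring
        have h9 : N.index ≠ 0 := by
          haveI := h1
          exact Subgroup.index_ne_zero_of_finite
        have h10 := Nat.eq_of_mul_eq_mul_right (Nat.pos_of_ne_zero h9) h7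
        rw [h10, hp.dvd_mul] at hd
        rcases hd with hd | hd
        · rw [dvd_pGroup hs hk hp hd]; exact hn
        · exact h5 p hp hd
      · rw [N.index_comap_of_surjective hf] at hd
        exact h6 p hp hd

lemma mem_of_coprime_index {V : Type} [Group V] [Finite V] {N : Subgroup V} [N.Normal] {x : V}
    {k : ℕ} (hx : x ^ k = 1) (hk : Nat.Coprime k N.index) : x ∈ N := by
  rw [← QuotientGroup.eq_one_iff]
  have h1 : ((x : V ⧸ N)) ^ k = 1 := by
    rw [← QuotientGroup.mk_pow, hx]; rfl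
  have h2 : ((x : V ⧸ N)) ^ N.index = 1 := by
    rw [Subgroup.index_eq_card]; exact pow_card_eq_one'
  have h3 := Nat.dvd_gcd (orderOf_dvd_of_pow_eq_one h1) (orderOf_dvd_of_pow_eq_one h2)
  rw [hk.gcd_eq_one] at h3
  exact orderOf_eq_one_iff.mp (Nat.dvd_one.mp h3)

lemma pgroup_of_primes {s : ℕ} (hs : s.Prime) {G : Type} [Group G] [Finite G]
    (h : ∀ p, p.Prime → p ∣ Nat.card G → p = s) : IsPGroup s G := by
  haveI : Fact s.Prime := ⟨hs⟩
  refine IsPGroup.iff_card.mpr ⟨_, Nat.eq_prime_pow_of_unique_prime_dvd Nat.card_pos.ne' ?_⟩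
  intro d hd hdd
  exact h d hd hdd

/-- the Sylow subgroup for the largest prime is normal in groups of `Tow`. -/
lemma sylow_normal {s : ℕ} [hs : Fact s.Prime] {H : Type} [Group H] [Finite H] (hH : Tow H)
    (hp : ∀ p, p.Prime → p ∣ Nat.card H → p ≤ s) (S : Sylow s H) : (S : Subgroup H).Normal := by
  obtain ⟨N, hN, h1, h2⟩ := hH (s - 1)
  have hs1 := hs.out.one_lt
  have hNp : IsPGroup s N := pgroup_of_primes hs.out (fun p hpp hd => by
    have h3 := h1 p hpp hd
    have h4 := hp p hpp (hd.trans (Subgroup.card_subgroup_dvd_card N))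
    omega)
  have h5 : N ≤ S := IsPGroup.le_sylow_of_normal hNp S
  have h6 : (S : Subgroup H) ≤ N := by
    intro x hx
    obtain ⟨k, hk⟩ := S.isPGroup' ⟨x, hx⟩
    have hk' : x ^ s ^ k = 1 := by
      have := congrArg (Subtype.val) hk
      simpa using this
    refine mem_of_coprime_index hk' (Nat.Coprime.pow_left k ?_)
    rw [Nat.Prime.coprime_iff_not_dvd hs.out]
    intro hd
    have := h2 s hs.out hd
    omega
  rw [le_antisymm h6 h5]; exact hN

lemma sylow_normal_sub {s : ℕ} [hs : Fact s.Prime] {H : Type} [Group H] [Finite H]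
    {V : Subgroup H} (hV : Tow V)
    (hp : ∀ p, p.Prime → p ∣ Nat.card H → p ≤ s) (S : Sylow s H) (hS : (S : Subgroup H) ≤ V) :
    V ≤ Subgroup.normalizer (S : Subgroup H) := by
  have h1 := sylow_normal hV (fun p hpp hd => hp p hpp (hd.trans (card_subgroup_dvd_card V)))
    (S.subtype hS)
  rw [Sylow.coe_subtype] at h1
  exact le_normalizer_of_normal_subgroupOf hS

/-- strong projector property -/
def PR (m : ℕ) {G : Type} [Group G] (E : Subgroup G) : Prop :=
  ∀ (H : Type) [Group H] (φ : G →* H), Function.Surjective φ → IsMaxSub (TT m) (E.map φ)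

lemma PR_bot {m : ℕ} {G : Type} [Group G] [Finite G]
    (hG : ∀ p, p.Prime → p ∣ Nat.card G → p < m) : PR m (⊥ : Subgroup G) := by
  intro H _ φ hφ
  haveI : Finite H := Finite.of_surjective φ hφ
  rw [Subgroup.map_bot]
  refine ⟨TT_triv, fun V _ hV => ?_⟩
  rw [le_bot_iff, ← Subgroup.card_eq_one]
  by_contra hne
  obtain ⟨p, hp, hd⟩ := Nat.exists_prime_and_dvd hne
  have h1 := hV.2.2.1 p hp hd
  have h2 := hG p hp ((hd.trans (card_subgroup_dvd_card V)).trans (card_dvd_of_surjective φ hφ))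
  omega

section Step
variable {s : ℕ} [hs : Fact s.Prime] {G : Type} [Group G] [Finite G] (S : Sylow s G)

/-- normalizer of the Sylow subgroup -/
abbrev NS : Subgroup G := Subgroup.normalizer (S : Subgroup G)

abbrev SS : Subgroup (NS S) := (S : Subgroup G).subgroupOf (NS S)

/-- the lift of a subgroup of `N(S)/S` -/
def lft (F : Subgroup ((NS S) ⧸ (SS S))) : Subgroup G :=
  (F.comap (QuotientGroup.mk' (SS S))).map (NS S).subtype

lemma lft_mono {E F : Subgroup ((NS S) ⧸ (SS S))} (h : E ≤ F) : lft S E ≤ lft S F :=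
  Subgroup.map_mono (Subgroup.comap_mono h)

lemma S_le_lft (F : Subgroup ((NS S) ⧸ (SS S))) : (S : Subgroup G) ≤ lft S F := by
  intro x hx
  refine ⟨⟨x, Subgroup.le_normalizer hx⟩, ?_, rfl⟩
  show QuotientGroup.mk' (SS S) _ ∈ F
  have : QuotientGroup.mk' (SS S) ⟨x, Subgroup.le_normalizer hx⟩ = 1 := by
    rw [QuotientGroup.mk'_apply, QuotientGroup.eq_one_iff]
    exact hx
  rw [this]; exact F.one_mem

lemma lift_norm {H : Type} [Group H] (φ : G →* H) (hφ : Function.Surjective φ) {h : H}
    (hh : h ∈ Subgroup.normalizer ((S : Subgroup G).map φ)) :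
    ∃ g ∈ NS S, φ g = h := by
  obtain ⟨g0, rfl⟩ := hφ h
  set L : Subgroup G := ((S : Subgroup G).map φ).comap φ with hL
  have hSL : (S : Subgroup G) ≤ L := fun x hx => ⟨x, hx, rfl⟩
  have hgL : ((g0 • S : Sylow s G) : Subgroup G) ≤ L := by
    intro x hx
    rw [Sylow.coe_subgroup_smul] at hx
    obtain ⟨y, hy, rfl⟩ := hx
    show φ (MulAut.conj g0 • y) ∈ (S : Subgroup G).map φ
    have h1 : φ (MulAut.conj g0 • y) = φ g0 * φ y * (φ g0)⁻¹ := by
      rw [MulAut.smul_def, MulAut.conj_apply, map_mul, map_mul, map_inv]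
    rw [h1]
    exact (Subgroup.mem_normalizer_iff.mp hh (φ y)).mp ⟨y, hy, rfl⟩
  obtain ⟨l, hl⟩ := MulAction.exists_smul_eq L ((g0 • S).subtype hgL) (S.subtype hSL)
  rw [Sylow.smul_subtype] at hl
  have h2 : (l : G) • g0 • S = S := Sylow.subtype_injective hl
  rw [← mul_smul, Sylow.smul_eq_iff_mem_normalizer] at h2
  obtain ⟨x, hx, hxl⟩ := l.2
  refine ⟨x⁻¹ * (l * g0), mul_mem (inv_mem (Subgroup.le_normalizer hx)) h2, ?_⟩
  rw [map_mul, map_mul, map_inv, hxl]
  group

lemma PR_step {m : ℕ} (hm : m ≤ s) (hG : ∀ p, p.Prime → p ∣ Nat.card G → p ≤ s)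
    {F : Subgroup ((NS S) ⧸ (SS S))} (hF : PR m F) : PR m (lft S F) := by
  intro H _ φ hφ
  haveI : Finite H := Finite.of_surjective φ hφ
  have hH : ∀ p, p.Prime → p ∣ Nat.card H → p ≤ s := fun p hp hd =>
    hG p hp (hd.trans (card_dvd_of_surjective φ hφ))
  constructor
  · -- TT m of the image
    have h1 : TT m F := by
      have h2 := (hF _ (MonoidHom.id _) Function.surjective_id).1
      rwa [Subgroup.map_id] at h2
    have h3 : TT m (F.comap (QuotientGroup.mk' (SS S))) := by
      refine TT_ext hs.out hm ((QuotientGroup.mk' (SS S)).subgroupComap F)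
        (MonoidHom.subgroupComap_surjective_of_surjective _ _ (QuotientGroup.mk'_surjective _))
        ?_ (fun p hp hd => hG p hp ((hd.trans (card_subgroup_dvd_card _)).trans
          (card_subgroup_dvd_card _))) h1
      rintro ⟨⟨⟨x, hx1⟩, hx2⟩, hx3⟩
      have h4 : x ∈ (S : Subgroup G) := by
        have h5 : QuotientGroup.mk' (SS S) ⟨x, hx1⟩ = 1 := by
          have h6 := congrArg Subtype.val hx3
          exact h6
        rw [QuotientGroup.mk'_apply, QuotientGroup.eq_one_iff] at h5
        exact h5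
      obtain ⟨k, hk⟩ := S.isPGroup' ⟨x, h4⟩
      refine ⟨k, ?_⟩
      have hk' : x ^ s ^ k = 1 := by
        have := congrArg (Subtype.val) hk
        simpa using this
      apply Subtype.ext
      apply Subtype.ext
      apply Subtype.ext
      simpa using hk'
    have h7 : (lft S F).map φ = (F.comap (QuotientGroup.mk' (SS S))).map (φ.comp (NS S).subtype) := by
      unfold lft; rw [Subgroup.map_map]
    rw [h7]
    exact TT_surj h3 ((φ.comp (NS S).subtype).subgroupMap _) (MonoidHom.subgroupMap_surjective _ _)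
  · intro V hV hTV
    set P : Sylow s H := S.mapSurjective hφ with hP
    have hPc : (P : Subgroup H) = (S : Subgroup G).map φ := rfl
    have hPV : (P : Subgroup H) ≤ V := by
      rw [hPc]; exact (Subgroup.map_mono (S_le_lft S F)).trans hV
    have hVN : V ≤ Subgroup.normalizer (P : Subgroup H) := sylow_normal_sub hTV.2.2.2 hH P hPV
    set H2 : Subgroup H := Subgroup.normalizer (P : Subgroup H) with hH2
    set P' : Subgroup H2 := (P : Subgroup H).subgroupOf H2 with hP'
    haveI : P'.Normal := Subgroup.normal_in_normalizer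
    have hmaps : ∀ g : NS S, φ g ∈ H2 := fun g =>
      Subgroup.le_normalizer_map φ ⟨g, g.2, rfl⟩
    set φ2 : (NS S) →* H2 := (φ.comp (NS S).subtype).codRestrict H2 hmaps with hφ2
    have hφ2s : Function.Surjective φ2 := by
      rintro ⟨h, hh⟩
      obtain ⟨g, hg, hgh⟩ := lift_norm S φ hφ hh
      exact ⟨⟨g, hg⟩, Subtype.ext hgh⟩
    set qm : (NS S) ⧸ (SS S) →* H2 ⧸ P' := QuotientGroup.map (SS S) P' φ2 (by
      intro x hx
      exact ⟨x.1, hx, rfl⟩) with hqm
    have hqms : Function.Surjective qm := by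
      intro y
      obtain ⟨h, rfl⟩ := QuotientGroup.mk'_surjective P' y
      obtain ⟨g, rfl⟩ := hφ2s h
      exact ⟨QuotientGroup.mk' _ g, rfl⟩
    have hmax := (hF _ qm hqms).2
    have h1 : F.map qm ≤ (V.subgroupOf H2).map (QuotientGroup.mk' P') := by
      rintro _ ⟨f, hf, rfl⟩
      obtain ⟨g, rfl⟩ := QuotientGroup.mk'_surjective (SS S) f
      exact ⟨φ2 g, hV ⟨g, ⟨g, hf, rfl⟩, rfl⟩, rfl⟩
    have h2 : TT m ((V.subgroupOf H2).map (QuotientGroup.mk' P')) :=
      TT_surj (TT_iso hTV (Subgroup.subgroupOfEquivOfLe hVN).symm)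
        ((QuotientGroup.mk' P').subgroupMap _) (MonoidHom.subgroupMap_surjective _ _)
    have h3 := hmax _ h1 h2
    intro v hv
    obtain ⟨f, hf, hfv⟩ := h3 ⟨⟨v, hVN hv⟩, hv, rfl⟩
    obtain ⟨g, rfl⟩ := QuotientGroup.mk'_surjective (SS S) f
    have h4 : (QuotientGroup.mk (φ2 g) : H2 ⧸ P') = QuotientGroup.mk ⟨v, hVN hv⟩ := hfv
    rw [QuotientGroup.eq] at h4
    obtain ⟨x, hx, hxe⟩ := h4
    have hxe' : φ x = (φ g)⁻¹ * v := hxe
    refine ⟨g * x, mul_mem ⟨g, hf, rfl⟩ (S_le_lft S F hx), ?_⟩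
    rw [map_mul, hxe']; group

lemma card_quot (p : ℕ) (hp : p.Prime) (hd : p ∣ Nat.card ((NS S) ⧸ (SS S))) :
    p ≠ s ∧ p ∣ Nat.card G := by
  have h1 : Nat.card ((NS S) ⧸ (SS S)) ∣ (S : Subgroup G).index := by
    rw [← Subgroup.index_eq_card]
    exact Subgroup.relIndex_dvd_index_of_le Subgroup.le_normalizer
  have h2 : p ∣ (S : Subgroup G).index := hd.trans h1
  constructor
  · rintro rfl
    exact S.not_dvd_index h2
  · exact h2.trans (Subgroup.index_dvd_card _)

end Step

lemma exists_PR (n : ℕ) : ∀ (G : Type) [Group G] [Finite G],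
    (∀ p, p.Prime → p ∣ Nat.card G → p ≤ n) → ∀ m m' : ℕ, m ≤ m' →
    ∃ E F : Subgroup G, E ≤ F ∧ PR m' E ∧ PR m F := by
  induction n with
  | zero =>
    intro G _ _ hG m m' hmm
    have h1 : ∀ (k p : ℕ), p.Prime → p ∣ Nat.card G → p < k := fun k p hp hd =>
      absurd (Nat.le_zero.mp (hG p hp hd)) hp.ne_zero
    exact ⟨⊥, ⊥, le_rfl, PR_bot (h1 m'), PR_bot (h1 m)⟩
  | succ n ih =>
    intro G _ _ hG m m' hmm
    by_cases hs : (n+1).Prime
    · haveI : Fact (n+1).Prime := ⟨hs⟩
      rcases lt_or_ge (n+1) m with hm | hm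
      · have h1 : ∀ p, p.Prime → p ∣ Nat.card G → p < m := fun p hp hd => (hG p hp hd).trans_lt hm
        have h2 : ∀ p, p.Prime → p ∣ Nat.card G → p < m' := fun p hp hd =>
          (h1 p hp hd).trans_le hmm
        exact ⟨⊥, ⊥, le_rfl, PR_bot h2, PR_bot h1⟩
      · have S : Sylow (n+1) G := default
        obtain ⟨E, F, hEF, hE, hF⟩ := ih ((NS S) ⧸ (SS S)) (fun p hp hd => by
          obtain ⟨h1, h2⟩ := card_quot S p hp hd
          have := hG p hp h2
          omega) m m' hmm
        rcases lt_or_ge (n+1) m' with hm' | hm'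
        · refine ⟨⊥, lft S F, bot_le, PR_bot (fun p hp hd => (hG p hp hd).trans_lt hm'),
            PR_step S hm hG hF⟩
        · exact ⟨lft S E, lft S F, lft_mono S hEF, PR_step S hm' hG hE, PR_step S hm hG hF⟩
    · refine ih G (fun p hp hd => ?_) m m' hmm
      have h1 := hG p hp hd
      rcases h1.eq_or_lt with h | h
      · rw [h] at hp; exact absurd hp hs
      · omega

lemma PR_proj {m : ℕ} {G : Type} [Group G] {E : Subgroup G} (hE : PR m E) :
    IsProj (TT m) E := fun N _ => hE _ (QuotientGroup.mk' N) (QuotientGroup.mk'_surjective N)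

lemma LL_TT {m m' : ℕ} (h : m ≤ m') : LL (TT m') (TT m) := by
  intro G _ hfin _
  obtain ⟨E, F, hEF, hE, hF⟩ := exists_PR (Nat.card G) G
    (fun p _ hd => Nat.le_of_dvd Nat.card_pos hd) m m' h
  exact ⟨E, F, PR_proj hE, PR_proj hF, hEF⟩

/-! Primitive groups -/

lemma prim_iso {G H : Type} [Group G] [Group H] (e : G ≃* H) (h : IsPrim G) : IsPrim H := by
  obtain ⟨M, hM, hc⟩ := h
  refine ⟨M.map e.toMonoidHom, ?_, ?_⟩
  · have h1 := (e.mapSubgroup.isCoatom_iff M).mpr hM
    exact h1
  · rw [eq_bot_iff]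
    intro x hx
    obtain ⟨y, rfl⟩ := e.surjective x
    have h1 : y ∈ M.normalCore := by
      intro b
      have h2 := hx (e b)
      obtain ⟨z, hz, hze⟩ := h2
      have h3 : z = b * y * b⁻¹ := by
        apply e.injective
        rw [map_mul, map_mul, map_inv]
        exact hze
      rw [← h3]; exact hz
    rw [hc] at h1
    rw [Subgroup.mem_bot] at h1 ⊢
    rw [h1, map_one]

lemma prim_core {G : Type} [Group G] {M : Subgroup G} (hM : IsCoatom M) :
    IsPrim (G ⧸ M.normalCore) := by
  set D := M.normalCore with hD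
  have hDM : D ≤ M := Subgroup.normalCore_le M
  have hcm : (M.map (QuotientGroup.mk' D)).comap (QuotientGroup.mk' D) = M := by
    rw [Subgroup.comap_map_eq, QuotientGroup.ker_mk', sup_eq_left.mpr hDM]
  refine ⟨M.map (QuotientGroup.mk' D), ⟨?_, ?_⟩, ?_⟩
  · intro h
    rw [h, Subgroup.comap_top] at hcm
    exact hM.1 hcm.symm
  · intro K hK
    have h1 : M < K.comap (QuotientGroup.mk' D) := by
      refine lt_of_le_of_ne (hcm.symm.le.trans (Subgroup.comap_mono hK.le)) ?_
      intro h
      apply hK.ne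
      have h5 := Subgroup.map_comap_eq_self_of_surjective (QuotientGroup.mk'_surjective D) K
      exact (congrArg (Subgroup.map (QuotientGroup.mk' D)) h).trans h5
    have h2 := hM.2 _ h1
    have h3 := Subgroup.map_comap_eq_self_of_surjective (QuotientGroup.mk'_surjective D) K
    rw [← h3, h2, Subgroup.map_top_of_surjective _ (QuotientGroup.mk'_surjective D)]
  · rw [eq_bot_iff]
    have h1 : ((M.map (QuotientGroup.mk' D)).normalCore).comap (QuotientGroup.mk' D) ≤ D := by
      have h2 : (((M.map (QuotientGroup.mk' D)).normalCore).comap (QuotientGroup.mk' D)).Normal :=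
        inferInstance
      refine Subgroup.normal_le_normalCore.mpr ?_
      calc _ ≤ (M.map (QuotientGroup.mk' D)).comap (QuotientGroup.mk' D) :=
            Subgroup.comap_mono (Subgroup.normalCore_le _)
        _ = M := hcm
    intro x hx
    obtain ⟨y, rfl⟩ := QuotientGroup.mk'_surjective D x
    have h2 : y ∈ D := h1 hx
    rw [Subgroup.mem_bot, QuotientGroup.mk'_apply, QuotientGroup.eq_one_iff]
    exact h2

lemma prim_surj {X : GC} (hiso : ∀ (G H : Type) [Group G] [Group H], (G ≃* H) → X G → X H)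
    {G : Type} [Group G] (h : ∀ (N : Subgroup G) [N.Normal], IsPrim (G ⧸ N) → X (G ⧸ N))
    {H : Type} [Group H] (f : G →* H) (hf : Function.Surjective f) (hH : IsPrim H) : X H := by
  have e := QuotientGroup.quotientKerEquivOfSurjective f hf
  exact hiso _ _ e (h f.ker (prim_iso e.symm hH))

lemma TT_prim {m : ℕ} (n : ℕ) : ∀ (G : Type) [Group G], Nat.card G = n → Finite G →
    Group.IsSolvable G → (∀ (N : Subgroup G) [N.Normal], IsPrim (G ⧸ N) → TT m (G ⧸ N)) →
    TT m G := by
  induction n using Nat.strong_induction_on with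
  | _ n ih =>
  intro G _ hn hfin hsol h
  rcases subsingleton_or_nontrivial G with hsub | hnon
  · exact TT_triv
  have hiso : ∀ (G H : Type) [Group G] [Group H], (G ≃* H) → TT m G → TT m H :=
    fun G H _ _ e hG => TT_iso hG e
  have hcard1 : Nat.card G ≠ 1 := by
    intro h1
    exact not_subsingleton G ((Nat.card_eq_one_iff_unique.mp h1).1)
  -- largest prime
  obtain ⟨s, hs, hsd, hsmax⟩ : ∃ s, s.Prime ∧ s ∣ Nat.card G ∧
      ∀ p, p.Prime → p ∣ Nat.card G → p ≤ s := by
    have hne : (Nat.card G).primeFactors.Nonempty := by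
      rw [Nat.nonempty_primeFactors]
      have := Nat.card_pos (α := G)
      omega
    refine ⟨(Nat.card G).primeFactors.max' hne, ?_, ?_, ?_⟩
    · exact Nat.prime_of_mem_primeFactors (Finset.max'_mem _ hne)
    · exact Nat.dvd_of_mem_primeFactors (Finset.max'_mem _ hne)
    · intro p hp hd
      exact Finset.le_max' _ _ (Nat.mem_primeFactors.mpr ⟨hp, hd, Nat.card_pos.ne'⟩)
  haveI : Fact s.Prime := ⟨hs⟩
  have S : Sylow s G := default
  have key : ∀ M : Subgroup G, IsCoatom M → TT m (G ⧸ M.normalCore) := fun M hM =>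
    h M.normalCore (prim_core hM)
  have hSn : (S : Subgroup G).Normal := by
    by_contra hnn
    have h1 : Subgroup.normalizer ((S : Subgroup G) : Set G) ≠ ⊤ := by
      intro h2
      exact hnn (Subgroup.normalizer_eq_top_iff.mp h2)
    obtain ⟨M, hM, hle⟩ := (eq_top_or_exists_le_coatom
      (Subgroup.normalizer ((S : Subgroup G) : Set G))).resolve_left h1
    set D := M.normalCore with hD
    have hDM : D ≤ M := Subgroup.normalCore_le M
    have hT := key M hM
    have hsn := sylow_normal hT.2.2.2 (fun p hp hd => hsmax p hp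
      (hd.trans (card_dvd_of_surjective _ (QuotientGroup.mk'_surjective D))))
      (S.mapSurjective (QuotientGroup.mk'_surjective D))
    rw [Sylow.coe_mapSurjective] at hsn
    set L := ((S : Subgroup G).map (QuotientGroup.mk' D)).comap (QuotientGroup.mk' D) with hL
    have hLn : L.Normal := hsn.comap _
    have hLM : L ≤ M := by
      rw [hL, Subgroup.comap_map_eq, QuotientGroup.ker_mk']
      exact sup_le (Subgroup.le_normalizer.trans hle) hDM
    have hSL : (S : Subgroup G) ≤ L := fun x hx => ⟨x, hx, rfl⟩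
    have h2 := Sylow.normalizer_sup_eq_top' S hSL
    apply hM.1
    rw [eq_top_iff, ← h2]
    exact sup_le hle hLM
  have hms : m ≤ s := by
    obtain ⟨M, hM⟩ := IsCoatomic.exists_coatom (Subgroup G)
    have hT := key M hM
    have h1 : Nat.card (G ⧸ M.normalCore) ≠ 1 := by
      rw [← Subgroup.index_eq_card]
      intro h2
      rw [Subgroup.index_eq_one] at h2
      apply hM.1
      rw [eq_top_iff, ← h2]; exact Subgroup.normalCore_le M
    obtain ⟨p, hp, hd⟩ := Nat.exists_prime_and_dvd h1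
    exact (hT.2.2.1 p hp hd).trans (hsmax p hp
      (hd.trans (card_dvd_of_surjective _ (QuotientGroup.mk'_surjective _))))
  have hlt : Nat.card (G ⧸ (S : Subgroup G)) < n := by
    have h1 := Subgroup.card_mul_index (S : Subgroup G)
    rw [Subgroup.index_eq_card, hn] at h1
    have h2 : (S : Subgroup G) ≠ ⊥ := S.ne_bot_of_dvd_card hsd
    have h3 : 1 < Nat.card (S : Subgroup G) := by
      rw [Subgroup.one_lt_card_iff_ne_bot]; exact h2
    have h4 : 0 < Nat.card (G ⧸ (S : Subgroup G)) := Nat.card_pos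
    nlinarith
  refine TT_ext hs hms (QuotientGroup.mk' (S : Subgroup G)) (QuotientGroup.mk'_surjective _) ?_
    hsmax (ih _ hlt (G ⧸ (S : Subgroup G)) rfl inferInstance inferInstance ?_)
  · rw [QuotientGroup.ker_mk']; exact S.isPGroup'
  · intro N _ hN
    exact prim_surj hiso h ((QuotientGroup.mk' N).comp (QuotientGroup.mk' (S : Subgroup G)))
      ((QuotientGroup.mk'_surjective N).comp (QuotientGroup.mk'_surjective _)) hN

lemma TT_schunck (m : ℕ) : IsSchunck (TT m) where
  fin := fun G _ h => h.1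
  sol := fun G _ h => h.2.1
  iso := fun G H _ _ e h => TT_iso h e
  triv := fun G _ h => TT_triv
  quot := fun G _ N _ h => TT_surj h (QuotientGroup.mk' N) (QuotientGroup.mk'_surjective N)
  prim := fun G _ h1 h2 h3 => TT_prim (Nat.card G) G rfl h1 h2 h3

/-- groups of prime order -/
lemma TT_prime {m p : ℕ} (hp : p.Prime) (hmp : m ≤ p) {G : Type} [Group G] [Finite G]
    (hG : Nat.card G = p) : TT m G := by
  haveI : Fact p.Prime := ⟨hp⟩
  refine TT_ext hp hmp (1 : G →* Unit) (fun x => ⟨1, rfl⟩) ?_ ?_ TT_triv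
  · apply IsPGroup.to_subgroup
    exact IsPGroup.of_card (n := 1) (by rw [hG, pow_one])
  · intro q hq hd
    rw [hG] at hd
    exact Nat.le_of_dvd hp.pos hd

lemma TT_nontriv (m : ℕ) : NonTriv (TT m) := by
  obtain ⟨p, hmp, hp⟩ := Nat.exists_infinite_primes m
  haveI : Fact p.Prime := ⟨hp⟩
  refine ⟨Multiplicative (ZMod p), inferInstance, ?_, ?_⟩
  · infer_instance
  · haveI : Finite (Multiplicative (ZMod p)) := inferInstance
    exact TT_prime hp hmp (by rw [Nat.card_congr Multiplicative.toAdd]; exact Nat.card_zmod p)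

end Pool.Agent.H23.Sch
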